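import Pool.Agent.Work.ZH.Defs
import Pool.Agent.Work.MP_92f640_nt.Gbound

/-!
# Cell ZH, module S2: the mean of the singular factor over primes in a progression of large modulus
-/

namespace Pool.Agent.ZH

open Finset

/-- `(1 - 1/l)⁻¹` -/
private noncomputable def ag (l : ℕ) : ℝ := (1 - 1 / (l : ℝ))⁻¹

private theorem ag_eq {l : ℕ} (hl : 2 ≤ l) : ag l = 1 + 1 / ((l : ℝ) - 1) := by
  have h : (2 : ℝ) ≤ l := by exact_mod_cast hl
  unfold ag
  have h1 : (l : ℝ) - 1 ≠ 0 := by linarith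
  have h2 : (l : ℝ) ≠ 0 := by linarith
  have h3 : 1 - 1 / (l : ℝ) = (l - 1) / l := by field_simp
  rw [h3, inv_div]
  field_simp
  ring

private theorem one_le_ag {l : ℕ} (hl : 2 ≤ l) : 1 ≤ ag l := by
  have h : (2 : ℝ) ≤ l := by exact_mod_cast hl
  rw [ag_eq hl]
  have : 0 ≤ 1 / ((l : ℝ) - 1) := div_nonneg zero_le_one (by linarith)
  linarith

private theorem one_add_pow_le {t : ℝ} (h0 : 0 ≤ t) (h1 : t ≤ 1) (κ : ℕ) :
    (1 + t) ^ κ ≤ 1 + (2 ^ κ - 1) * t := by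
  induction κ with
  | zero => simp
  | succ κ ih =>
    have h2 : (1 : ℝ) ≤ 2 ^ κ := one_le_pow₀ (by norm_num)
    calc (1 + t) ^ (κ + 1) = (1 + t) ^ κ * (1 + t) := pow_succ _ _
      _ ≤ (1 + (2 ^ κ - 1) * t) * (1 + t) := mul_le_mul_of_nonneg_right ih (by linarith)
      _ ≤ 1 + (2 ^ (κ + 1) - 1) * t := by
        have h3 : t * t ≤ t := by nlinarith
        have h4 : (2 ^ κ - 1 : ℝ) * (t * t) ≤ (2 ^ κ - 1) * t :=
          mul_le_mul_of_nonneg_left h3 (by linarith)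
        rw [pow_succ]
        nlinarith

private theorem sum_inv_sq (M : ℕ) : ∑ i ∈ range (M + 1), (1 / ((i : ℝ) + 1) ^ 2 : ℝ) ≤ 2 - 1 / ((M : ℝ) + 1) := by
  induction M with
  | zero => norm_num
  | succ M ih =>
    rw [sum_range_succ]
    have h : (0 : ℝ) ≤ M := Nat.cast_nonneg M
    have h1 : 1 / (((M + 1 : ℕ) : ℝ) + 1) ^ 2 ≤ 1 / ((M : ℝ) + 1) - 1 / (((M + 1 : ℕ) : ℝ) + 1) := by
      push_cast
      rw [div_sub_div _ _ (by linarith) (by linarith), div_le_div_iff₀ (by positivity) (by positivity)]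
      nlinarith
    linarith

/-- the product over small primes of `1 + h(l)/(l-1)` is bounded -/
private theorem sum_powerset_le (κ : ℕ) (S : Finset ℕ) (hS : ∀ l ∈ S, 2 ≤ l) :
    ∑ T ∈ S.powerset, ∏ l ∈ T, (ag l ^ κ - 1) / ((l : ℝ) - 1) ≤ Real.exp (2 ^ κ * 2) := by
  rw [← prod_one_add]
  have h1 : ∀ l ∈ S, 1 + (ag l ^ κ - 1) / ((l : ℝ) - 1) ≤ Real.exp (2 ^ κ * (1 / ((l : ℝ) - 1) ^ 2)) := by
    intro l hl
    have h : (2 : ℝ) ≤ l := by exact_mod_cast hS l hl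
    have hl1 : (0 : ℝ) < (l : ℝ) - 1 := by linarith
    have ht : 1 / ((l : ℝ) - 1) ≤ 1 := by rw [div_le_one hl1]; linarith
    have h2 : ag l ^ κ ≤ 1 + (2 ^ κ - 1) * (1 / ((l : ℝ) - 1)) := by
      rw [ag_eq (hS l hl)]
      exact one_add_pow_le (by positivity) ht κ
    have h3 : (ag l ^ κ - 1) / ((l : ℝ) - 1) ≤ 2 ^ κ * (1 / ((l : ℝ) - 1) ^ 2) := by
      rw [div_le_iff₀ hl1]
      have h4 : 2 ^ κ * (1 / ((l : ℝ) - 1) ^ 2) * ((l : ℝ) - 1) = 2 ^ κ * (1 / ((l : ℝ) - 1)) := by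
        field_simp
      rw [h4]
      have h5 : (0 : ℝ) ≤ 1 / ((l : ℝ) - 1) := by positivity
      linarith
    have := Real.add_one_le_exp (2 ^ κ * (1 / ((l : ℝ) - 1) ^ 2))
    linarith
  calc ∏ l ∈ S, (1 + (ag l ^ κ - 1) / ((l : ℝ) - 1)) ≤ ∏ l ∈ S, Real.exp (2 ^ κ * (1 / ((l : ℝ) - 1) ^ 2)) := by
        refine prod_le_prod (fun l hl => ?_) h1
        have h : (2 : ℝ) ≤ l := by exact_mod_cast hS l hl
        have : 0 ≤ (ag l ^ κ - 1) / ((l : ℝ) - 1) :=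
          div_nonneg (by linarith [one_le_pow₀ (n := κ) (one_le_ag (hS l hl))]) (by linarith)
        linarith
    _ = Real.exp (2 ^ κ * ∑ l ∈ S, 1 / ((l : ℝ) - 1) ^ 2) := by
        rw [← Real.exp_sum, mul_sum]
    _ ≤ _ := by
        apply Real.exp_le_exp.2
        refine mul_le_mul_of_nonneg_left ?_ (by positivity)
        set M := S.sup id
        have h2 : S ⊆ (range (M + 1)).image (fun i => i + 2) := by
          intro l hl
          have h3 : l ≤ M := le_sup (f := id) hl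
          have h4 := hS l hl
          rw [mem_image]
          exact ⟨l - 2, mem_range.2 (by omega), by omega⟩
        calc ∑ l ∈ S, (1 / ((l : ℝ) - 1) ^ 2 : ℝ) ≤
            ∑ l ∈ (range (M + 1)).image (fun i : ℕ => i + 2), (1 / ((l : ℝ) - 1) ^ 2 : ℝ) :=
              sum_le_sum_of_subset_of_nonneg h2 fun i _ _ => by positivity
          _ = ∑ i ∈ range (M + 1), (1 / ((i : ℝ) + 1) ^ 2 : ℝ) := by
              rw [sum_image (fun a _ b _ h => Nat.add_right_cancel h)]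
              refine sum_congr rfl fun i _ => ?_
              have : (((i + 2 : ℕ) : ℝ) - 1) = (i : ℝ) + 1 := by push_cast; ring
              rw [this]
          _ ≤ (2 : ℝ) := by
              have := sum_inv_sq M
              have h5 : (0 : ℝ) ≤ 1 / ((M : ℝ) + 1) := by positivity
              linarith

/-- small primes not dividing `d` -/
private def SP (y d : ℕ) : Finset ℕ := (Icc 1 y).filter (fun l => l.Prime ∧ ¬ l ∣ d)

private theorem SP_two {y d l : ℕ} (h : l ∈ SP y d) : 2 ≤ l := (mem_filter.1 h).2.1.two_le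

private theorem prod_SP_le {y d : ℕ} {T : Finset ℕ} (hT : T ⊆ SP y d) : ∏ l ∈ T, l ≤ 4 ^ y := by
  refine le_trans ?_ (primorial_le_four_pow y)
  unfold primorial
  refine prod_le_prod_of_subset_of_one_le' ?_ ?_
  · intro l hl
    have h := mem_filter.1 (hT hl)
    have h1 := mem_Icc.1 h.1
    exact mem_filter.2 ⟨mem_range.2 (by omega), h.2.1⟩
  · intro l hl _
    exact (mem_filter.1 hl).2.one_lt.le

/-- expansion of the small part -/
private theorem small_expand (κ y d n : ℕ) (hn : 0 < n) :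
    (∏ l ∈ (n.primeFactors.filter (fun l => ¬ l ∣ d)).filter (fun l => l ≤ y), ag l) ^ κ =
      ∑ T ∈ (SP y d).powerset, if (∀ l ∈ T, l ∣ n) then ∏ l ∈ T, (ag l ^ κ - 1) else 0 := by
  rw [← prod_pow]
  have h1 : ∀ l ∈ (n.primeFactors.filter (fun l => ¬ l ∣ d)).filter (fun l => l ≤ y),
      ag l ^ κ = 1 + (ag l ^ κ - 1) := fun l _ => by ring
  rw [prod_congr rfl h1, prod_one_add, ← sum_filter]
  refine sum_congr ?_ fun _ _ => rfl
  ext T
  simp only [mem_powerset, mem_filter, SP]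
  constructor
  · intro h
    refine ⟨fun l hl => ?_, fun l hl => ?_⟩
    · have h2 := h hl
      simp only [mem_filter, Nat.mem_primeFactors] at h2
      simp only [mem_filter, mem_Icc]
      exact ⟨⟨h2.1.1.1.one_lt.le, h2.2⟩, h2.1.1.1, h2.1.2⟩
    · have h2 := h hl
      simp only [mem_filter, Nat.mem_primeFactors] at h2
      exact h2.1.1.2.1
  · rintro ⟨h, h'⟩ l hl
    have h2 := h hl
    simp only [mem_filter, mem_Icc] at h2
    simp only [mem_filter, Nat.mem_primeFactors]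
    exact ⟨⟨⟨h2.2.1, h' l hl, hn.ne'⟩, h2.2.2⟩, h2.1.2⟩

/-- the large primes contribute a bounded factor -/
private theorem big_le {y n : ℕ} (d : ℕ) {K L : ℝ} (hy : 3 ≤ y) (hn : 0 < n) (hL : Real.log n ≤ L)
    (hK : L ≤ K * y) :
    ∏ l ∈ n.primeFactors.filter (fun l => ¬ l ∣ d), ag l ≤
      Real.exp K * ∏ l ∈ (n.primeFactors.filter (fun l => ¬ l ∣ d)).filter (fun l => l ≤ y), ag l := by
  have hy' : (3 : ℝ) ≤ y := by exact_mod_cast hy
  rw [← prod_filter_mul_prod_filter_not (n.primeFactors.filter (fun l => ¬ l ∣ d)) (fun l => l ≤ y), mul_comm]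
  refine mul_le_mul_of_nonneg_right ?_ (prod_nonneg fun l hl => ?_)
  · set B := (n.primeFactors.filter (fun l => ¬ l ∣ d)).filter (fun l => ¬ l ≤ y) with hB
    have hBp : ∀ l ∈ B, l.Prime ∧ l ∣ n ∧ y < l := by
      intro l hl
      simp only [hB, mem_filter, Nat.mem_primeFactors, not_le] at hl
      exact ⟨hl.1.1.1, hl.1.1.2.1, hl.2⟩
    -- number of elements
    have hcard : (B.card : ℝ) ≤ L := by
      have h1 : ∏ l ∈ B, l ∣ n := by
        refine Finset.prod_primes_dvd n (fun l hl => (hBp l hl).1.prime) (fun l hl => (hBp l hl).2.1)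
      have h2 : ∏ l ∈ B, l ≤ n := Nat.le_of_dvd hn h1
      have h3 : 3 ^ B.card ≤ ∏ l ∈ B, l := by
        rw [← prod_const]
        exact prod_le_prod' fun l hl => by have := (hBp l hl).2.2; omega
      have h4 : (3 : ℝ) ^ B.card ≤ n := by exact_mod_cast h3.trans h2
      have h5 := Real.log_le_log (by positivity) h4
      rw [Real.log_pow] at h5
      have h6 : (1 : ℝ) ≤ Real.log 3 := by
        have := Real.exp_one_lt_three
        rw [Real.le_log_iff_exp_le (by norm_num)]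
        exact this.le
      have h7 : (B.card : ℝ) ≤ B.card * Real.log 3 := le_mul_of_one_le_right (Nat.cast_nonneg _) h6
      linarith
    calc ∏ l ∈ B, ag l ≤ ∏ l ∈ B, Real.exp (1 / y) := by
          refine prod_le_prod (fun l hl => ?_) fun l hl => ?_
          · exact le_trans zero_le_one (one_le_ag (hBp l hl).1.two_le)
          · rw [ag_eq (hBp l hl).1.two_le]
            have h1 : (y : ℝ) + 1 ≤ l := by exact_mod_cast (hBp l hl).2.2
            have h2 : 1 / ((l : ℝ) - 1) ≤ 1 / y := one_div_le_one_div_of_le (by linarith) (by linarith)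
            have h3 := Real.add_one_le_exp (1 / (y : ℝ))
            linarith
      _ = Real.exp (B.card * (1 / y)) := by
          rw [prod_const, ← Real.exp_nat_mul]
      _ ≤ Real.exp K := by
          apply Real.exp_le_exp.2
          rw [mul_one_div, div_le_iff₀ (by linarith)]
          linarith
  · have h : l.Prime := by
      simp only [mem_filter, Nat.mem_primeFactors] at hl
      exact hl.1.1.1
    exact le_trans zero_le_one (one_le_ag h.two_le)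

open Pool.Agent.Work.MP_92f640_nt in
/-- counting, one set of small primes -/
private theorem count_T {N d c y R : ℕ} {r : ℤ} {T : Finset ℕ} (hT : T ⊆ SP y d) (hd : 0 < d)
    (hR : 1 ≤ R) (hRP : R ≤ PP N) :
    (((Ioc (PP N) (2 * PP N)).filter (fun p : ℕ => p.Prime ∧ p ≡ c [MOD d] ∧ ∀ l ∈ T, (l : ℤ) ∣ (p : ℤ) - r)).card : ℝ) ≤
      2 * PP N / ((d.totient : ℝ) * (∏ l ∈ T, ((l : ℝ) - 1)) * Real.log (R + 1)) + (R : ℝ) ^ 6 := by
  have hTp : ∀ l ∈ T, l.Prime ∧ ¬ l ∣ d := fun l hl => (mem_filter.1 (hT hl)).2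
  set E : ℕ := ∏ l ∈ T, l with hE
  have hE0 : 0 < E := prod_pos fun l hl => (hTp l hl).1.pos
  have hcop : Nat.Coprime d E := by
    rw [hE]
    exact Nat.Coprime.prod_right fun l hl => ((Nat.Prime.coprime_iff_not_dvd (hTp l hl).1).2 (hTp l hl).2).symm
  have htot : ((d * E).totient : ℝ) = (d.totient : ℝ) * ∏ l ∈ T, ((l : ℝ) - 1) := by
    rw [Nat.totient_mul hcop, Nat.cast_mul]
    congr 1
    rw [hE]
    have h1 : ∀ U : Finset ℕ, U ⊆ T → ((∏ l ∈ U, l).totient : ℝ) = ∏ l ∈ U, ((l : ℝ) - 1) := by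
      intro U
      induction U using Finset.induction_on with
      | empty => simp
      | insert a U ha ih =>
        intro hU
        rw [prod_insert ha, prod_insert ha, Nat.totient_mul, Nat.cast_mul,
          ih ((subset_insert _ _).trans hU)]
        · congr 1
          have hap := (hTp a (hU (mem_insert_self _ _))).1
          rw [Nat.totient_prime hap, Nat.cast_sub hap.one_lt.le]
          simp
        · refine Nat.Coprime.prod_right fun l hl => ?_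
          refine (Nat.coprime_primes (hTp a (hU (mem_insert_self _ _))).1 (hTp l (hU (mem_insert_of_mem hl))).1).2 ?_
          rintro rfl
          exact ha hl
    exact h1 T (Subset.refl _)
  -- the residue class
  obtain ⟨a, ha1, ha2⟩ : ∃ a : ℕ, a ≡ c [MOD d] ∧ (E : ℤ) ∣ (a : ℤ) - r := by
    obtain ⟨a, h1, h2⟩ := Nat.chineseRemainder hcop c (r % E).toNat
    refine ⟨a, h1, ?_⟩
    have h3 : ((r % E).toNat : ℤ) = r % E := Int.toNat_of_nonneg (Int.emod_nonneg _ (by exact_mod_cast hE0.ne'))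
    have h4 : (E : ℤ) ∣ (a : ℤ) - ((r % E).toNat : ℤ) := (Nat.modEq_iff_dvd.1 h2.symm)
    rw [h3] at h4
    have h5 : (E : ℤ) ∣ r % E - r := by
      rw [← dvd_neg, neg_sub]
      exact Int.dvd_self_sub_emod
    have := dvd_add h4 h5
    simpa using this
  have hsub : (Ioc (PP N) (2 * PP N)).filter (fun p : ℕ => p.Prime ∧ p ≡ c [MOD d] ∧ ∀ l ∈ T, (l : ℤ) ∣ (p : ℤ) - r) ⊆
      (Ioc R (2 * PP N)).filter (fun p => p.Prime ∧ p ≡ a [MOD (d * E)]) := by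
    intro p hp
    simp only [mem_filter, mem_Ioc] at hp ⊢
    obtain ⟨⟨h1, h2⟩, h3, h4, h5⟩ := hp
    refine ⟨⟨by omega, h2⟩, h3, ?_⟩
    have h6 : (E : ℤ) ∣ (p : ℤ) - r := by
      rw [hE]
      push_cast
      refine Finset.prod_dvd_of_coprime ?_ h5
      intro l hl l' hl' hne
      exact Nat.isCoprime_iff_coprime.2 ((Nat.coprime_primes (hTp l hl).1 (hTp l' hl').1).2 hne)
    rw [← Nat.modEq_and_modEq_iff_modEq_mul hcop]
    refine ⟨h4.trans ha1.symm, ?_⟩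
    rw [Nat.modEq_iff_dvd]
    have := dvd_sub ha2 h6
    simpa using this
  have h1 : (((Ioc (PP N) (2 * PP N)).filter (fun p : ℕ => p.Prime ∧ p ≡ c [MOD d] ∧ ∀ l ∈ T, (l : ℤ) ∣ (p : ℤ) - r)).card : ℝ) ≤
      (((Ioc R (2 * PP N)).filter (fun p => p.Prime ∧ p ≡ a [MOD (d * E)])).card : ℝ) := by
    exact_mod_cast card_le_card hsub
  have hDE : 0 < d * E := Nat.mul_pos hd hE0
  have h2 := sieve_bound (D := d * E) (R := R) (N := 2 * PP N) (a := a) hDE hR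
  have h3 := Gsum_ge (D := d * E) (R := R) hDE
  have hDE' : (0 : ℝ) < (d * E : ℕ) := by exact_mod_cast hDE
  have hR' : (1 : ℝ) ≤ R := by exact_mod_cast hR
  have hlog : 0 < Real.log (R + 1) := Real.log_pos (by linarith)
  have htp : (0 : ℝ) < ((d * E).totient : ℝ) := by exact_mod_cast Nat.totient_pos.2 hDE
  have h4 : ((d * E).totient : ℝ) * Real.log (R + 1) ≤ ((d * E : ℕ) : ℝ) * Gsum (d * E) R := by
    calc ((d * E).totient : ℝ) * Real.log (R + 1) =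
        ((d * E : ℕ) : ℝ) * (((d * E).totient : ℝ) / ((d * E : ℕ) : ℝ) * Real.log (R + 1)) := by field_simp
      _ ≤ _ := mul_le_mul_of_nonneg_left h3 hDE'.le
  have h5 : ((2 * PP N : ℕ) : ℝ) / (((d * E : ℕ) : ℝ) * Gsum (d * E) R) ≤
      2 * PP N / ((d.totient : ℝ) * (∏ l ∈ T, ((l : ℝ) - 1)) * Real.log (R + 1)) := by
    rw [← htot]
    push_cast at h4 ⊢
    exact div_le_div_of_nonneg_left (by positivity) (by positivity) h4
  linarith

/-- sizes -/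
private theorem sizes {N : ℕ} (hN : Real.exp (10 ^ 10) ≤ (N : ℝ)) :
    3 ≤ ⌊Real.log N * (1 / 10 ^ 9)⌋₊ ∧
    Real.log N * (1 / 10 ^ 9) / 2 ≤ (⌊Real.log N * (1 / 10 ^ 9)⌋₊ : ℝ) ∧
    1 ≤ ⌊(N : ℝ) ^ (1 / 10 ^ 9 : ℝ)⌋₊ ∧
    Real.log N * (1 / 10 ^ 9) ≤ Real.log ((⌊(N : ℝ) ^ (1 / 10 ^ 9 : ℝ)⌋₊ : ℝ) + 1) ∧
    N ≤ PP N ∧ PP N ≤ N ^ 2 ∧
    (⌊(N : ℝ) ^ (1 / 10 ^ 9 : ℝ)⌋₊ : ℝ) ^ 6 * (2 * N * (4 : ℝ) ^ (⌊Real.log N * (1 / 10 ^ 9)⌋₊) * Real.log N) ≤ PP N ∧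
    ⌊(N : ℝ) ^ (1 / 10 ^ 9 : ℝ)⌋₊ ≤ PP N := by
  have hN0 : (0 : ℝ) < N := lt_of_lt_of_le (Real.exp_pos _) hN
  have hL : (10 : ℝ) ^ 10 ≤ Real.log N := (Real.le_log_iff_exp_le hN0).2 hN
  have hN1 : (1 : ℝ) ≤ N := by
    have := Real.add_one_le_exp ((10 : ℝ) ^ 10)
    linarith
  have hNn : 1 ≤ N := by exact_mod_cast hN1
  set L := Real.log N with hLdef
  have hy0 : (10 : ℝ) ≤ L * (1 / 10 ^ 9) := by linarith
  have hyf : L * (1 / 10 ^ 9) < (⌊L * (1 / 10 ^ 9)⌋₊ : ℝ) + 1 := Nat.lt_floor_add_one _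
  have hyl : (⌊L * (1 / 10 ^ 9)⌋₊ : ℝ) ≤ L * (1 / 10 ^ 9) := Nat.floor_le (by linarith)
  have hx1 : (1 : ℝ) ≤ (N : ℝ) ^ (1 / 10 ^ 9 : ℝ) := Real.one_le_rpow hN1 (by norm_num)
  have hR1 : 1 ≤ ⌊(N : ℝ) ^ (1 / 10 ^ 9 : ℝ)⌋₊ := Nat.le_floor (by exact_mod_cast hx1)
  have hRle : (⌊(N : ℝ) ^ (1 / 10 ^ 9 : ℝ)⌋₊ : ℝ) ≤ (N : ℝ) ^ (1 / 10 ^ 9 : ℝ) := Nat.floor_le (by positivity)
  have hNP : N ≤ PP N := by
    refine Nat.le_floor ?_
    calc (N : ℝ) = (N : ℝ) ^ (1 : ℝ) := (Real.rpow_one _).symm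
      _ ≤ _ := Real.rpow_le_rpow_of_exponent_le hN1 (by norm_num)
  refine ⟨?_, ?_, hR1, ?_, hNP, ?_, ?_, ?_⟩
  · exact Nat.le_floor (by push_cast; linarith)
  · linarith
  · have h1 : (N : ℝ) ^ (1 / 10 ^ 9 : ℝ) < (⌊(N : ℝ) ^ (1 / 10 ^ 9 : ℝ)⌋₊ : ℝ) + 1 := Nat.lt_floor_add_one _
    have h2 := Real.log_le_log (by positivity) h1.le
    rw [Real.log_rpow hN0] at h2
    linarith
  · have h1 : ((PP N : ℕ) : ℝ) ≤ (N : ℝ) ^ 2 := by
      calc ((PP N : ℕ) : ℝ) ≤ (N : ℝ) ^ (1 + 1 / 10000000 : ℝ) := Nat.floor_le (by positivity)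
        _ ≤ (N : ℝ) ^ (2 : ℝ) := Real.rpow_le_rpow_of_exponent_le hN1 (by norm_num)
        _ = (N : ℝ) ^ 2 := by norm_cast
    exact_mod_cast h1
  · -- the main inequality
    have h4 : (4 : ℝ) ^ (⌊L * (1 / 10 ^ 9)⌋₊) ≤ (N : ℝ) ^ (2 / 10 ^ 9 : ℝ) := by
      have hlog4 : Real.log 4 ≤ 2 := by
        have : Real.log 4 = 2 * Real.log 2 := by
          rw [show (4 : ℝ) = 2 ^ 2 by norm_num, Real.log_pow]; norm_num
        rw [this]
        have := Real.log_two_lt_d9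
        linarith
      rw [Real.rpow_def_of_pos hN0, ← Real.rpow_natCast, Real.rpow_def_of_pos (by norm_num : (0 : ℝ) < 4)]
      apply Real.exp_le_exp.2
      calc Real.log 4 * (⌊L * (1 / 10 ^ 9)⌋₊ : ℝ) ≤ 2 * (L * (1 / 10 ^ 9)) :=
            mul_le_mul hlog4 hyl (Nat.cast_nonneg _) (by norm_num)
        _ = L * (2 / 10 ^ 9) := by ring
    have h6 : (⌊(N : ℝ) ^ (1 / 10 ^ 9 : ℝ)⌋₊ : ℝ) ^ 6 ≤ (N : ℝ) ^ (6 / 10 ^ 9 : ℝ) := by
      calc (⌊(N : ℝ) ^ (1 / 10 ^ 9 : ℝ)⌋₊ : ℝ) ^ 6 ≤ ((N : ℝ) ^ (1 / 10 ^ 9 : ℝ)) ^ 6 :=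
            pow_le_pow_left₀ (Nat.cast_nonneg _) hRle 6
        _ = (N : ℝ) ^ (6 / 10 ^ 9 : ℝ) := by
            rw [← Real.rpow_natCast, ← Real.rpow_mul hN0.le]; norm_num
    have hLb : L ≤ (N : ℝ) ^ (4 / 10 ^ 8 : ℝ) / (4 / 10 ^ 8) := Real.log_le_rpow_div hN0.le (by norm_num)
    have hbig : (10 : ℝ) ^ 8 * 2 ≤ (N : ℝ) ^ (4 / 10 ^ 8 : ℝ) := by
      rw [Real.rpow_def_of_pos hN0]
      have h7 : (28 : ℝ) ≤ L * (4 / 10 ^ 8) := by linarith
      calc (10 : ℝ) ^ 8 * 2 ≤ 2 ^ 28 := by norm_num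
        _ ≤ (Real.exp 1) ^ 28 := by
            refine pow_le_pow_left₀ (by norm_num) ?_ 28
            have := Real.exp_one_gt_d9
            linarith
        _ = Real.exp 28 := by rw [← Real.exp_nat_mul]; norm_num
        _ ≤ _ := Real.exp_le_exp.2 h7
    have hPlow : (N : ℝ) ^ (1 + 1 / 10 ^ 7 : ℝ) / 2 ≤ PP N := by
      have h8 : (N : ℝ) ^ (1 + 1 / 10000000 : ℝ) < ((PP N : ℕ) : ℝ) + 1 := Nat.lt_floor_add_one _
      have h9 : (1 : ℝ) ≤ PP N := by exact_mod_cast hNn.trans hNP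
      have h10 : (1 + 1 / 10 ^ 7 : ℝ) = 1 + 1 / 10000000 := by norm_num
      rw [h10]
      linarith
    refine le_trans ?_ hPlow
    have e1 : (N : ℝ) ^ (1 + 1 / 10 ^ 7 : ℝ) = (N : ℝ) ^ (6 / 10 ^ 9 : ℝ) * (N * (N : ℝ) ^ (2 / 10 ^ 9 : ℝ) *
        ((N : ℝ) ^ (4 / 10 ^ 8 : ℝ) * ((N : ℝ) ^ (4 / 10 ^ 8 : ℝ) * (N : ℝ) ^ (12 / 10 ^ 9 : ℝ)))) := by
      nth_rewrite 3 [← Real.rpow_one (N : ℝ)]
      rw [← Real.rpow_add hN0, ← Real.rpow_add hN0, ← Real.rpow_add hN0, ← Real.rpow_add hN0,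
        ← Real.rpow_add hN0]
      norm_num
    have hx12 : (1 : ℝ) ≤ (N : ℝ) ^ (12 / 10 ^ 9 : ℝ) := Real.one_le_rpow hN1 (by norm_num)
    rw [e1]
    set A := (N : ℝ) ^ (6 / 10 ^ 9 : ℝ)
    set B := (N : ℝ) ^ (2 / 10 ^ 9 : ℝ)
    set D := (N : ℝ) ^ (4 / 10 ^ 8 : ℝ)
    set G := (N : ℝ) ^ (12 / 10 ^ 9 : ℝ)
    have hL0 : 0 ≤ L := by linarith
    have hD0 : 0 < D := by positivity
    have h11 : 4 * L ≤ D * (D * G) := by
      have : 4 * L ≤ 10 ^ 8 * D := by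
        have : D / (4 / 10 ^ 8) = 10 ^ 8 * D / 4 := by ring
        rw [this] at hLb
        linarith
      have h12 : (10 : ℝ) ^ 8 * D ≤ D * D := by nlinarith
      have h13 : D * D ≤ D * (D * G) := by
        have : D * 1 ≤ D * G := mul_le_mul_of_nonneg_left hx12 hD0.le
        nlinarith
      linarith
    calc _ ≤ A * (2 * N * B * L) := by
          refine mul_le_mul h6 ?_ (by positivity) (by positivity)
          refine mul_le_mul_of_nonneg_right ?_ hL0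
          exact mul_le_mul_of_nonneg_left h4 (by positivity)
      _ = A * (N * B * (4 * L)) / 2 := by ring
      _ ≤ A * (N * B * (D * (D * G))) / 2 := by
          refine div_le_div_of_nonneg_right ?_ (by norm_num)
          exact mul_le_mul_of_nonneg_left (mul_le_mul_of_nonneg_left h11 (by positivity)) (by positivity)
  · refine le_trans ?_ hNP
    have : (⌊(N : ℝ) ^ (1 / 10 ^ 9 : ℝ)⌋₊ : ℝ) ≤ N := by
      refine hRle.trans ?_
      calc (N : ℝ) ^ (1 / 10 ^ 9 : ℝ) ≤ (N : ℝ) ^ (1 : ℝ) := Real.rpow_le_rpow_of_exponent_le hN1 (by norm_num)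
        _ = N := Real.rpow_one _
    exact_mod_cast this

/-- S2. mean of `g(p - r)`, `g(n) = ∏_{ℓ | n, ℓ ∤ d} (1 - 1/ℓ)⁻¹` -/
theorem avg_G (κ : ℕ) : ∃ C : ℝ, 0 < C ∧ ∃ N₀ : ℕ, ∀ N ≥ N₀, ∀ d c : ℕ, N < d → d ≤ 2 * N → Nat.Coprime c d →
    ∀ r : ℤ, |(r : ℝ)| ≤ (N : ℝ) ^ 2 →
    ∑ p ∈ (Ioc (PP N) (2 * PP N)).filter (fun p => p.Prime ∧ p ≡ c [MOD d] ∧ (p : ℤ) ≠ r),
      (∏ l ∈ ((p : ℤ) - r).natAbs.primeFactors.filter (fun l => ¬ l ∣ d), (1 - 1 / (l : ℝ))⁻¹) ^ κ ≤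
    C * PP N / (d.totient * Real.log N) := by
  refine ⟨Real.exp (6 * 10 ^ 9) ^ κ * (2 * 10 ^ 9 + 1) * Real.exp (2 ^ κ * 2), by positivity,
    ⌈Real.exp (10 ^ 10)⌉₊, fun N hN d c hd1 hd2 hcd r hr => ?_⟩
  have hNe : Real.exp (10 ^ 10) ≤ (N : ℝ) := (Nat.le_ceil _).trans (by exact_mod_cast hN)
  obtain ⟨hy3, hyL, hR1, hRL, hNP, hPN, hmain, hRP⟩ := sizes hNe
  have hN0 : (0 : ℝ) < N := lt_of_lt_of_le (Real.exp_pos _) hNe
  have hL : (10 : ℝ) ^ 10 ≤ Real.log N := (Real.le_log_iff_exp_le hN0).2 hNe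
  have hN3 : 3 ≤ N := by
    have h1 := Real.add_one_le_exp ((10 : ℝ) ^ 10)
    have : (3 : ℝ) ≤ N := by linarith
    exact_mod_cast this
  set L := Real.log N with hLdef
  set y := ⌊L * (1 / 10 ^ 9)⌋₊ with hydef
  set R := ⌊(N : ℝ) ^ (1 / 10 ^ 9 : ℝ)⌋₊ with hRdef
  set P := PP N with hP
  have hL0 : 0 < L := by linarith
  have hd0 : 0 < d := by omega
  have hφ : (0 : ℝ) < d.totient := by exact_mod_cast Nat.totient_pos.2 hd0
  have hφ2 : (d.totient : ℝ) ≤ 2 * N := by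
    have := Nat.totient_le d
    exact_mod_cast this.trans hd2
  set F := (Ioc P (2 * P)).filter (fun p => p.Prime ∧ p ≡ c [MOD d] ∧ (p : ℤ) ≠ r) with hF
  have hag : ∀ l ∈ SP y d, 1 ≤ ag l ^ κ := fun l hl => one_le_pow₀ (one_le_ag (SP_two hl))
  -- pointwise bound
  have hpt : ∀ p ∈ F, (∏ l ∈ ((p : ℤ) - r).natAbs.primeFactors.filter (fun l => ¬ l ∣ d), (1 - 1 / (l : ℝ))⁻¹) ^ κ ≤
      Real.exp (6 * 10 ^ 9) ^ κ * ∑ T ∈ (SP y d).powerset,
        if (∀ l ∈ T, l ∣ ((p : ℤ) - r).natAbs) then ∏ l ∈ T, (ag l ^ κ - 1) else 0 := by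
    intro p hp
    simp only [hF, mem_filter, mem_Ioc] at hp
    set n := ((p : ℤ) - r).natAbs with hn
    have hn0 : 0 < n := Int.natAbs_pos.2 (sub_ne_zero.2 hp.2.2.2)
    have hnle : (n : ℝ) ≤ (N : ℝ) ^ 3 := by
      have h1 : (n : ℝ) = |(p : ℝ) - r| := by
        rw [hn, Nat.cast_natAbs]; push_cast; rfl
      have h2 : (p : ℝ) ≤ 2 * (N : ℝ) ^ 2 := by
        have : p ≤ 2 * N ^ 2 := hp.1.2.trans (Nat.mul_le_mul_left 2 hPN)
        exact_mod_cast this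
      have h3 : (3 : ℝ) ≤ N := by exact_mod_cast hN3
      rw [h1]
      calc |(p : ℝ) - r| ≤ |(p : ℝ)| + |(r : ℝ)| := abs_sub _ _
        _ ≤ 2 * (N : ℝ) ^ 2 + (N : ℝ) ^ 2 := by
            refine add_le_add ?_ hr
            rw [abs_of_nonneg (Nat.cast_nonneg _)]; exact h2
        _ = 3 * (N : ℝ) ^ 2 := by ring
        _ ≤ N * (N : ℝ) ^ 2 := mul_le_mul_of_nonneg_right h3 (by positivity)
        _ = (N : ℝ) ^ 3 := by ring
    have hlogn : Real.log n ≤ 3 * L := by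
      have h1 := Real.log_le_log (by exact_mod_cast hn0) hnle
      rw [Real.log_pow] at h1
      exact_mod_cast h1
    have hb := big_le (y := y) (n := n) d (K := 6 * 10 ^ 9) (L := 3 * L) hy3 hn0 hlogn (by linarith)
    have hpos : 0 ≤ ∏ l ∈ n.primeFactors.filter (fun l => ¬ l ∣ d), ag l := by
      refine prod_nonneg fun l hl => ?_
      have : l.Prime := (Nat.mem_primeFactors.1 (mem_filter.1 hl).1).1
      exact le_trans zero_le_one (one_le_ag this.two_le)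
    calc (∏ l ∈ n.primeFactors.filter (fun l => ¬ l ∣ d), (1 - 1 / (l : ℝ))⁻¹) ^ κ
        = (∏ l ∈ n.primeFactors.filter (fun l => ¬ l ∣ d), ag l) ^ κ := rfl
      _ ≤ (Real.exp (6 * 10 ^ 9) * ∏ l ∈ (n.primeFactors.filter (fun l => ¬ l ∣ d)).filter (fun l => l ≤ y), ag l) ^ κ :=
          pow_le_pow_left₀ hpos hb κ
      _ = _ := by rw [mul_pow, small_expand κ y d n hn0]
  -- counting bound
  have hcount : ∀ T ∈ (SP y d).powerset,
      ((F.filter (fun p : ℕ => ∀ l ∈ T, l ∣ ((p : ℤ) - r).natAbs)).card : ℝ) ≤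
        (2 * 10 ^ 9 + 1) * (P / (d.totient * L)) * ∏ l ∈ T, (1 / ((l : ℝ) - 1)) := by
    intro T hT
    rw [mem_powerset] at hT
    have h1 := count_T (N := N) (d := d) (c := c) (R := R) (r := r) hT hd0 hR1 hRP
    have h2 : ((F.filter (fun p : ℕ => ∀ l ∈ T, l ∣ ((p : ℤ) - r).natAbs)).card : ℝ) ≤
        (((Ioc (PP N) (2 * PP N)).filter (fun p : ℕ => p.Prime ∧ p ≡ c [MOD d] ∧ ∀ l ∈ T, (l : ℤ) ∣ (p : ℤ) - r)).card : ℝ) := by
      have : F.filter (fun p : ℕ => ∀ l ∈ T, l ∣ ((p : ℤ) - r).natAbs) ⊆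
          (Ioc (PP N) (2 * PP N)).filter (fun p : ℕ => p.Prime ∧ p ≡ c [MOD d] ∧ ∀ l ∈ T, (l : ℤ) ∣ (p : ℤ) - r) := by
        intro p hp
        simp only [hF, mem_filter] at hp ⊢
        exact ⟨hp.1.1, hp.1.2.1, hp.1.2.2.1, fun l hl => Int.natCast_dvd.2 (hp.2 l hl)⟩
      exact_mod_cast card_le_card this
    refine h2.trans (h1.trans ?_)
    set Q := ∏ l ∈ T, ((l : ℝ) - 1) with hQ
    have hQ0 : 0 < Q := prod_pos fun l hl => by
      have : (2 : ℝ) ≤ l := by exact_mod_cast SP_two (hT hl)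
      linarith
    have hQ1 : Q ≤ (4 : ℝ) ^ y := by
      have h3 : Q ≤ ((∏ l ∈ T, l : ℕ) : ℝ) := by
        rw [Nat.cast_prod]
        refine prod_le_prod (fun l hl => ?_) fun l hl => by linarith
        have : (2 : ℝ) ≤ l := by exact_mod_cast SP_two (hT hl)
        linarith
      refine h3.trans ?_
      exact_mod_cast prod_SP_le hT
    have hinv : ∏ l ∈ T, (1 / ((l : ℝ) - 1)) = 1 / Q := by
      rw [hQ]; simp
    rw [hinv]
    have hP0 : (0 : ℝ) ≤ P := Nat.cast_nonneg _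
    have h4 : 2 * (P : ℝ) / ((d.totient : ℝ) * Q * Real.log (R + 1)) ≤ 2 * 10 ^ 9 * (P / (d.totient * L)) * (1 / Q) := by
      have h5 : 2 * (P : ℝ) / ((d.totient : ℝ) * Q * Real.log (R + 1)) ≤ 2 * P / ((d.totient : ℝ) * Q * (L * (1 / 10 ^ 9))) :=
        div_le_div_of_nonneg_left (by positivity) (by positivity)
          (mul_le_mul_of_nonneg_left hRL (by positivity))
      refine h5.trans (le_of_eq ?_)
      field_simp
    have h6 : (R : ℝ) ^ 6 ≤ P / (d.totient * L) * (1 / Q) := by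
      rw [div_mul_div_comm, mul_one, le_div_iff₀ (by positivity)]
      refine le_trans ?_ hmain
      refine mul_le_mul_of_nonneg_left ?_ (by positivity)
      calc (d.totient : ℝ) * L * Q = (d.totient : ℝ) * Q * L := by ring
        _ ≤ (2 * N) * (4 : ℝ) ^ y * L := by
            refine mul_le_mul_of_nonneg_right ?_ hL0.le
            exact mul_le_mul hφ2 hQ1 hQ0.le (by positivity)
    calc _ ≤ 2 * 10 ^ 9 * (P / (d.totient * L)) * (1 / Q) + P / (d.totient * L) * (1 / Q) := add_le_add h4 h6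
      _ = _ := by ring
  -- assembly
  calc _ ≤ ∑ p ∈ F, Real.exp (6 * 10 ^ 9) ^ κ * ∑ T ∈ (SP y d).powerset,
        (if (∀ l ∈ T, l ∣ ((p : ℤ) - r).natAbs) then ∏ l ∈ T, (ag l ^ κ - 1) else 0) := sum_le_sum hpt
    _ = Real.exp (6 * 10 ^ 9) ^ κ * ∑ T ∈ (SP y d).powerset,
        (∏ l ∈ T, (ag l ^ κ - 1)) * ((F.filter (fun p : ℕ => ∀ l ∈ T, l ∣ ((p : ℤ) - r).natAbs)).card : ℝ) := by
        rw [← mul_sum, sum_comm]
        congr 1
        refine sum_congr rfl fun T _ => ?_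
        rw [← sum_filter, sum_const, nsmul_eq_mul, mul_comm]
    _ ≤ Real.exp (6 * 10 ^ 9) ^ κ * ∑ T ∈ (SP y d).powerset,
        (∏ l ∈ T, (ag l ^ κ - 1)) * ((2 * 10 ^ 9 + 1) * (P / (d.totient * L)) * ∏ l ∈ T, (1 / ((l : ℝ) - 1))) := by
        refine mul_le_mul_of_nonneg_left (sum_le_sum fun T hT => ?_) (by positivity)
        refine mul_le_mul_of_nonneg_left (hcount T hT) (prod_nonneg fun l hl => ?_)
        have := hag l (mem_powerset.1 hT hl)
        linarith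
    _ = Real.exp (6 * 10 ^ 9) ^ κ * ((2 * 10 ^ 9 + 1) * (P / (d.totient * L))) *
        ∑ T ∈ (SP y d).powerset, ∏ l ∈ T, (ag l ^ κ - 1) / ((l : ℝ) - 1) := by
        rw [mul_assoc, mul_sum (SP y d).powerset _ ((2 * 10 ^ 9 + 1) * (P / (d.totient * L)))]
        congr 1
        refine sum_congr rfl fun T _ => ?_
        have : ∏ l ∈ T, (ag l ^ κ - 1) / ((l : ℝ) - 1) = (∏ l ∈ T, (ag l ^ κ - 1)) * ∏ l ∈ T, (1 / ((l : ℝ) - 1)) := by
          rw [← prod_mul_distrib]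
          refine prod_congr rfl fun l _ => by rw [mul_one_div]
        rw [this]
        ring
    _ ≤ Real.exp (6 * 10 ^ 9) ^ κ * ((2 * 10 ^ 9 + 1) * (P / (d.totient * L))) * Real.exp (2 ^ κ * 2) := by
        refine mul_le_mul_of_nonneg_left (sum_powerset_le κ (SP y d) fun l hl => SP_two hl) (by positivity)
    _ = _ := by ring

end Pool.Agent.ZH
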