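import Pool.Agent.Work.ZH.Small
import Pool.Agent.Work.BV.GaussLS
import Pool.Agent.Work.BV.Reduce

/-! # Cell ZH, module BDH: Barban-Davenport-Halberstam for structured sequences (thm_C) -/

namespace Pool.Agent.ZH

open Finset DirichletCharacter Pool.Agent.BV

/-- the statement of `sw_struct` -/
def SWH : Prop := ∀ A B : ℕ, ∃ C : ℝ, 0 < C ∧ ∃ x₀ : ℕ, ∀ x ≥ x₀, ∀ L : ℕ, x ^ 2 ≤ L ^ 5 → L ≤ x →
    ∀ β : ℕ → ℂ, (∀ l, ‖β l‖ ≤ 1) → Struct β → ∀ r : ℕ, 1 < r → (r : ℝ) ≤ Real.log x ^ B →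
    ∀ χ ∈ prim r, ∀ q : ℕ, 0 < q → q ≤ x →
    ‖∑ l ∈ (Ico L (2 * L)).filter (fun l => Nat.Coprime l q), β l * χ (l : ZMod r)‖ ≤
      C * L / Real.log x ^ A

/-- orthogonality in the form used here -/
lemma sum_char_conj (m : ℕ) [NeZero m] (a b : ℕ) :
    ∑ χ : DirichletCharacter ℂ m, χ (a : ZMod m) * (starRingEnd ℂ) (χ (b : ZMod m)) =
      if a ≡ b [MOD m] ∧ Nat.Coprime a m then (m.totient : ℂ) else 0 := by
  by_cases hb : Nat.Coprime b m
  · have hu : IsUnit (b : ZMod m) := (ZMod.isUnit_iff_coprime b m).2 hb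
    have h1 : ∀ χ : DirichletCharacter ℂ m,
        χ (a : ZMod m) * (starRingEnd ℂ) (χ (b : ZMod m)) = χ (b : ZMod m)⁻¹ * χ (a : ZMod m) := by
      intro χ
      have : (starRingEnd ℂ) (χ (b : ZMod m)) = χ (b : ZMod m)⁻¹ := by
        have h2 := MulChar.star_apply' χ (b : ZMod m)
        rw [starRingEnd_apply, h2]
        obtain ⟨u, hu'⟩ := hu
        rw [← hu', MulChar.inv_apply, Ring.inverse_unit, ZMod.inv_coe_unit]
      rw [this, mul_comm]
    simp only [h1]
    rw [sum_char_inv_mul_char_eq ℂ hu]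
    have h2 : (b : ZMod m) = (a : ZMod m) ↔ a ≡ b [MOD m] := by
      rw [ZMod.natCast_eq_natCast_iff]
      exact ⟨fun h => h.symm, fun h => h.symm⟩
    by_cases h : a ≡ b [MOD m]
    · rw [if_pos (h2.2 h), if_pos]
      refine ⟨h, ?_⟩
      unfold Nat.Coprime at hb ⊢
      rw [← hb]
      exact Nat.ModEq.gcd_eq h
    · rw [if_neg (fun h' => h (h2.1 h')), if_neg (fun h' => h h'.1)]
  · have h1 : ∀ χ : DirichletCharacter ℂ m, χ (b : ZMod m) = 0 := by
      intro χ
      apply MulChar.map_nonunit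
      rw [ZMod.isUnit_iff_coprime]
      exact hb
    simp only [h1, map_zero, mul_zero, sum_const_zero]
    rw [if_neg]
    rintro ⟨h, h'⟩
    apply hb
    unfold Nat.Coprime at h' ⊢
    rw [← h']
    exact (Nat.ModEq.gcd_eq h).symm

lemma sum_char_normsq (m : ℕ) [NeZero m] (β : ℕ → ℂ) (L : ℕ) :
    ((∑ χ : DirichletCharacter ℂ m, ‖∑ l ∈ Ico L (2 * L), β l * χ (l : ZMod m)‖ ^ 2 : ℝ) : ℂ) =
      m.totient * Sbb β L m := by
  have h1 : ∀ χ : DirichletCharacter ℂ m,
      ((‖∑ l ∈ Ico L (2 * L), β l * χ (l : ZMod m)‖ ^ 2 : ℝ) : ℂ) =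
      ∑ l₁ ∈ Ico L (2 * L), ∑ l₂ ∈ Ico L (2 * L), β l₁ * (starRingEnd ℂ) (β l₂) *
        (χ (l₁ : ZMod m) * (starRingEnd ℂ) (χ (l₂ : ZMod m))) := by
    intro χ
    rw [gaussLS_normsq, map_sum, Finset.sum_mul_sum]
    refine sum_congr rfl fun l₁ _ => sum_congr rfl fun l₂ _ => ?_
    rw [map_mul]; ring
  rw [Complex.ofReal_sum]
  simp only [h1]
  rw [sum_comm]
  unfold Sbb
  rw [mul_sum]
  refine sum_congr rfl fun l₁ _ => ?_
  rw [sum_comm, mul_sum]
  refine sum_congr rfl fun l₂ _ => ?_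
  rw [← mul_sum, sum_char_conj]
  split_ifs <;> ring

lemma Bs_eq (m : ℕ) [NeZero m] (β : ℕ → ℂ) (L : ℕ) :
    Bs β L m = ∑ l ∈ Ico L (2 * L), β l * (1 : DirichletCharacter ℂ m) (l : ZMod m) := by
  unfold Bs
  rw [sum_filter]
  refine sum_congr rfl fun l _ => ?_
  by_cases h : Nat.Coprime l m
  · rw [if_pos h, MulChar.one_apply ((ZMod.isUnit_iff_coprime l m).2 h), mul_one]
  · rw [if_neg h, MulChar.map_nonunit _ (by rw [ZMod.isUnit_iff_coprime]; exact h), mul_zero]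

open Classical in
lemma err_eq (m : ℕ) [NeZero m] (β : ℕ → ℂ) (L : ℕ) :
    err β L m = (1 / (m.totient : ℝ)) * ∑ χ ∈ (univ : Finset (DirichletCharacter ℂ m)).erase 1,
      ‖∑ l ∈ Ico L (2 * L), β l * χ (l : ZMod m)‖ ^ 2 := by
  have hφ : (m.totient : ℝ) ≠ 0 := by
    exact_mod_cast (Nat.totient_pos.2 (NeZero.pos m)).ne'
  have h1 := congrArg Complex.re (sum_char_normsq m β L)
  rw [Complex.ofReal_re, ← Complex.ofReal_natCast, Complex.re_ofReal_mul] at h1
  have h2 := Finset.add_sum_erase (univ : Finset (DirichletCharacter ℂ m))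
    (fun χ => ‖∑ l ∈ Ico L (2 * L), β l * χ (l : ZMod m)‖ ^ 2) (mem_univ 1)
  unfold err
  rw [Bs_eq]
  have h3 : (Sbb β L m).re = (1 / (m.totient : ℝ)) *
      ∑ χ : DirichletCharacter ℂ m, ‖∑ l ∈ Ico L (2 * L), β l * χ (l : ZMod m)‖ ^ 2 := by
    rw [h1]; field_simp
  rw [h3, ← h2]
  field_simp
  ring

lemma err_nonneg (m : ℕ) [NeZero m] (β : ℕ → ℂ) (L : ℕ) : 0 ≤ err β L m := by
  classical
  rw [err_eq]; positivity

/-- `T r s`: the contribution of the primitive characters mod `r`, `(l, s) = 1` -/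
noncomputable def TT (β : ℕ → ℂ) (L r s : ℕ) : ℝ :=
  ∑ χ ∈ prim r, ‖∑ l ∈ (Ico L (2 * L)).filter (fun l => Nat.Coprime l s), β l * χ (l : ZMod r)‖ ^ 2

lemma TT_nonneg (β : ℕ → ℂ) (L r s : ℕ) : 0 ≤ TT β L r s := by unfold TT; positivity

open Classical in
/-- from the characters mod `m` to the primitive characters -/
lemma sum_chars_gen (m : ℕ) [NeZero m] (g : (Σ r : ℕ, DirichletCharacter ℂ r) → ℝ)
    (hg : ∀ p, 0 ≤ g p) :
    ∑ χ ∈ (univ : Finset (DirichletCharacter ℂ m)).erase 1, g ⟨χ.conductor, χ.primitiveCharacter⟩ ≤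
      ∑ r ∈ m.divisors.erase 1, ∑ χ ∈ prim r, g ⟨r, χ⟩ := by
  rw [← sum_sigma (m.divisors.erase 1) (fun r => prim r) g]
  set Φ : DirichletCharacter ℂ m → (Σ r : ℕ, DirichletCharacter ℂ r) :=
    fun χ => ⟨χ.conductor, χ.primitiveCharacter⟩ with hΦ
  have hinj : Function.Injective Φ := by
    have hleft : ∀ χ : DirichletCharacter ℂ m,
        (fun p : (Σ r : ℕ, DirichletCharacter ℂ r) =>
          if h : p.1 ∣ m then changeLevel h p.2 else 1) (Φ χ) = χ := by
      intro χ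
      simp only [hΦ, χ.conductor_dvd_level, dif_pos]
      exact changeLevel_primitiveCharacter χ
    intro a b hab
    rw [← hleft a, ← hleft b, hab]
  calc ∑ χ ∈ (univ : Finset (DirichletCharacter ℂ m)).erase 1, g ⟨χ.conductor, χ.primitiveCharacter⟩
      = ∑ p ∈ ((univ : Finset (DirichletCharacter ℂ m)).erase 1).image Φ, g p := by
        rw [sum_image (fun a _ b _ h => hinj h)]
    _ ≤ ∑ p ∈ (m.divisors.erase 1).sigma (fun r => prim r), g p := by
        refine sum_le_sum_of_subset_of_nonneg ?_ (fun _ _ _ => hg _)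
        intro p hp
        obtain ⟨χ, hχ, rfl⟩ := mem_image.1 hp
        rw [mem_sigma]
        refine ⟨mem_erase.2 ⟨?_, ?_⟩, ?_⟩
        · intro h
          exact (mem_erase.1 hχ).1 ((eq_one_iff_conductor_eq_one (χ := χ)).2 h)
        · exact Nat.mem_divisors.2 ⟨χ.conductor_dvd_level, NeZero.ne m⟩
        · unfold prim
          rw [mem_filter]
          exact ⟨mem_univ _, primitiveCharacter_isPrimitive χ⟩

lemma err_le (m : ℕ) [NeZero m] (β : ℕ → ℂ) (L : ℕ) :
    err β L m ≤ (1 / (m.totient : ℝ)) * ∑ r ∈ m.divisors.erase 1, TT β L r (m / r) := by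
  classical
  rw [err_eq]
  refine mul_le_mul_of_nonneg_left ?_ (by positivity)
  set g : (Σ r : ℕ, DirichletCharacter ℂ r) → ℝ := fun p =>
    ‖∑ l ∈ (Ico L (2 * L)).filter (fun l => Nat.Coprime l m), β l * p.2 (l : ZMod p.1)‖ ^ 2 with hg
  have h1 : ∀ χ : DirichletCharacter ℂ m, ‖∑ l ∈ Ico L (2 * L), β l * χ (l : ZMod m)‖ ^ 2
      = g ⟨χ.conductor, χ.primitiveCharacter⟩ := by
    intro χ
    rw [hg]
    simp only
    congr 2
    rw [sum_filter]
    refine sum_congr rfl fun l _ => ?_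
    by_cases h : Nat.Coprime l m
    · rw [if_pos h]
      have h1 : IsCoprime (l : ℤ) (m : ℤ) := Nat.isCoprime_iff_coprime.2 h
      have h2 := primitiveCharacter_apply_of_isCoprime χ h1
      simp only [Int.cast_natCast] at h2
      rw [h2]
    · rw [if_neg h, MulChar.map_nonunit _ (by rw [ZMod.isUnit_iff_coprime]; exact h), mul_zero]
  simp only [h1]
  refine (sum_chars_gen m g (fun p => by rw [hg]; positivity)).trans (le_of_eq ?_)
  refine sum_congr rfl fun r hr => ?_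
  unfold TT
  refine sum_congr rfl fun χ _ => ?_
  rw [hg]
  simp only
  congr 2
  have hrm : r ∣ m := Nat.dvd_of_mem_divisors (mem_of_mem_erase hr)
  rw [sum_filter, sum_filter]
  refine sum_congr rfl fun l _ => ?_
  by_cases hlr : Nat.Coprime l r
  · have : Nat.Coprime l m ↔ Nat.Coprime l (m / r) := by
      conv_lhs => rw [← Nat.mul_div_cancel' hrm]
      rw [Nat.coprime_mul_iff_right]
      exact ⟨fun h => h.2, fun h => ⟨hlr, h⟩⟩
    simp only [this]
  · rw [MulChar.map_nonunit _ (by rw [ZMod.isUnit_iff_coprime]; exact hlr)]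
    simp

lemma tau_mul_le (a b : ℕ) : ((a * b).divisors.card : ℝ) ≤ a.divisors.card * b.divisors.card := by
  exact_mod_cast DivSum_tauMul a b

/-- the sum over `m` as a double sum over `m = r s` -/
lemma sum_err_le (β : ℕ → ℂ) (L M : ℕ) :
    ∑ m ∈ Ico M (2 * M), (m.divisors.card : ℝ) * err β L m ≤
      ∑ s ∈ Icc 1 (2 * M), (s.divisors.card : ℝ) / s.totient *
        ∑ r ∈ Ioc 1 (2 * M), (r.divisors.card : ℝ) / r.totient * TT β L r s := by
  calc ∑ m ∈ Ico M (2 * M), (m.divisors.card : ℝ) * err β L m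
      ≤ ∑ m ∈ Ico M (2 * M), ∑ r ∈ m.divisors.erase 1,
          ((r.divisors.card : ℝ) / r.totient * TT β L r (m / r)) *
            (((m / r).divisors.card : ℝ) / (m / r).totient) := by
        refine sum_le_sum fun m hm => ?_
        have hm1 := mem_Ico.1 hm
        have hm0 : 0 < m := by omega
        have : NeZero m := ⟨hm0.ne'⟩
        calc (m.divisors.card : ℝ) * err β L m
            ≤ (m.divisors.card : ℝ) * ((1 / (m.totient : ℝ)) *
              ∑ r ∈ m.divisors.erase 1, TT β L r (m / r)) :=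
              mul_le_mul_of_nonneg_left (err_le m β L) (by positivity)
          _ = ∑ r ∈ m.divisors.erase 1,
              ((m.divisors.card : ℝ) * (1 / (m.totient : ℝ))) * TT β L r (m / r) := by
              rw [← mul_assoc, mul_sum]
          _ ≤ _ := by
              refine sum_le_sum fun r hr => ?_
              have hrm : r ∣ m := Nat.dvd_of_mem_divisors (mem_of_mem_erase hr)
              obtain ⟨s, rfl⟩ := hrm
              have hr0 : 0 < r := Nat.pos_of_ne_zero (by rintro rfl; simp at hm0)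
              have hs0 : 0 < s := Nat.pos_of_ne_zero (by rintro rfl; simp at hm0)
              rw [Nat.mul_div_cancel_left _ hr0]
              have h1 : (0 : ℝ) < r.totient := by exact_mod_cast Nat.totient_pos.2 hr0
              have h2 : (0 : ℝ) < s.totient := by exact_mod_cast Nat.totient_pos.2 hs0
              have h3 : (r.totient : ℝ) * s.totient ≤ (r * s).totient := by
                exact_mod_cast Nat.totient_super_multiplicative r s
              have h4 := tau_mul_le r s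
              have h5 := TT_nonneg β L r s
              calc ((r * s).divisors.card : ℝ) * (1 / ((r * s).totient : ℝ)) * TT β L r s
                  ≤ ((r.divisors.card : ℝ) * s.divisors.card) * (1 / ((r.totient : ℝ) * s.totient)) *
                    TT β L r s := by
                    gcongr
                _ = _ := by field_simp
    _ = ∑ p ∈ (Ico M (2 * M)).sigma (fun m => m.divisors.erase 1),
          ((p.2.divisors.card : ℝ) / p.2.totient * TT β L p.2 (p.1 / p.2)) *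
            (((p.1 / p.2).divisors.card : ℝ) / (p.1 / p.2).totient) := by
        rw [sum_sigma]
    _ = ∑ q ∈ ((Ico M (2 * M)).sigma (fun m => m.divisors.erase 1)).image
          (fun p : (Σ _ : ℕ, ℕ) => (p.1 / p.2, p.2)),
          ((q.2.divisors.card : ℝ) / q.2.totient * TT β L q.2 q.1) *
            ((q.1.divisors.card : ℝ) / q.1.totient) := by
        rw [sum_image]
        rintro ⟨m, r⟩ hp ⟨m', r'⟩ hp' h
        simp only [coe_sigma, Set.mem_sigma_iff, mem_coe, Prod.mk.injEq] at hp hp' h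
        obtain ⟨h1, rfl⟩ := h
        have e1 : r ∣ m := Nat.dvd_of_mem_divisors (mem_of_mem_erase hp.2)
        have e2 : r ∣ m' := Nat.dvd_of_mem_divisors (mem_of_mem_erase hp'.2)
        have : m = m' := by
          rw [← Nat.div_mul_cancel e1, ← Nat.div_mul_cancel e2, h1]
        rw [this]
    _ ≤ ∑ q ∈ Icc 1 (2 * M) ×ˢ Ioc 1 (2 * M),
          ((q.2.divisors.card : ℝ) / q.2.totient * TT β L q.2 q.1) *
            ((q.1.divisors.card : ℝ) / q.1.totient) := by
        refine sum_le_sum_of_subset_of_nonneg ?_ (fun q _ _ => ?_)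
        · intro q hq
          obtain ⟨⟨m, r⟩, hp, rfl⟩ := mem_image.1 hq
          rw [mem_sigma] at hp
          obtain ⟨h1, h2⟩ := hp
          simp only at h1 h2
          rw [mem_Ico] at h1
          have e1 : r ∣ m := Nat.dvd_of_mem_divisors (mem_of_mem_erase h2)
          have hm0 : 0 < m := by omega
          have hr0 : 0 < r := Nat.pos_of_dvd_of_pos e1 hm0
          have hr1 : r ≠ 1 := (mem_erase.1 h2).1
          have hrm : r ≤ m := Nat.le_of_dvd hm0 e1
          simp only [mem_product, mem_Icc, mem_Ioc]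
          refine ⟨⟨Nat.div_pos hrm hr0, (Nat.div_le_self m r).trans h1.2.le⟩, by omega, by omega⟩
        · have := TT_nonneg β L q.2 q.1
          positivity
    _ = _ := by
        rw [sum_product]
        refine sum_congr rfl fun s _ => ?_
        rw [mul_sum]
        refine sum_congr rfl fun r _ => ?_
        ring

/-- the large sieve for `TT` -/
lemma TT_ls (β : ℕ → ℂ) (hβ : ∀ l, ‖β l‖ ≤ 1) (L s Q : ℕ) (hL : 1 ≤ L) (hQ : 1 ≤ Q) :
    ∑ r ∈ Icc 1 Q, (r : ℝ) / r.totient * TT β L r s ≤ 20 * (L + (Q : ℝ) ^ 2) * L := by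
  set a : ℕ → ℂ := fun l => if Nat.Coprime l s then β l else 0 with ha
  have hI : Ico L (2 * L) = Ioc (L - 1) (L - 1 + L) := by
    ext n; simp only [mem_Ico, mem_Ioc]; omega
  have h1 : ∀ r, TT β L r s = ∑ χ ∈ prim r,
      ‖∑ n ∈ Ioc (L - 1) (L - 1 + L), a n * χ (n : ZMod r)‖ ^ 2 := by
    intro r
    unfold TT
    refine sum_congr rfl fun χ _ => ?_
    congr 2
    rw [sum_filter, hI]
    refine sum_congr rfl fun l _ => ?_
    by_cases h : Nat.Coprime l s
    · simp only [ha, if_pos h]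
    · simp only [ha, if_neg h, zero_mul]
  simp only [h1]
  refine (large_sieve Q hQ (L - 1) L a).trans ?_
  refine mul_le_mul_of_nonneg_left ?_ (by positivity)
  calc ∑ n ∈ Ioc (L - 1) (L - 1 + L), ‖a n‖ ^ 2 ≤ ∑ n ∈ Ioc (L - 1) (L - 1 + L), (1 : ℝ) := by
        refine sum_le_sum fun n _ => ?_
        by_cases h : Nat.Coprime n s
        · simp only [ha, if_pos h]
          exact pow_le_one₀ (norm_nonneg _) (hβ n)
        · simp [ha, if_neg h]
    _ = L := by simp

/-- `s ≤ τ(s) φ(s)` -/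
lemma le_tau_totient (s : ℕ) : (s : ℝ) ≤ s.divisors.card * s.totient := by
  rcases Nat.eq_zero_or_pos s with rfl | hs
  · simp
  have h : s = ∑ d ∈ s.divisors, d.totient := (Nat.sum_totient s).symm
  have h2 : ∑ d ∈ s.divisors, d.totient ≤ ∑ d ∈ s.divisors, s.totient :=
    sum_le_sum fun d hd => Nat.le_of_dvd (Nat.totient_pos.2 hs)
      (Nat.totient_dvd_of_dvd (Nat.dvd_of_mem_divisors hd))
  rw [sum_const, smul_eq_mul] at h2
  exact_mod_cast h.le.trans h2

lemma sum_tau_phi_le {x N : ℕ} (hx : 3 ≤ x) (hN : N ≤ x) :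
    ∑ s ∈ Icc 1 N, (s.divisors.card : ℝ) / s.totient ≤ (2 * Real.log x) ^ 4 := by
  calc ∑ s ∈ Icc 1 N, (s.divisors.card : ℝ) / s.totient
      ≤ ∑ s ∈ Icc 1 N, (s.divisors.card : ℝ) ^ 2 * ((s : ℝ))⁻¹ := by
        refine sum_le_sum fun s hs => ?_
        have hs0 : 0 < s := (mem_Icc.1 hs).1
        have h1 : (0 : ℝ) < s.totient := by exact_mod_cast Nat.totient_pos.2 hs0
        have h2 : (0 : ℝ) < s := by exact_mod_cast hs0
        have h3 := le_tau_totient s
        rw [← div_eq_mul_inv, div_le_div_iff₀ h1 h2]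
        have h4 : (0 : ℝ) ≤ s.divisors.card := by positivity
        nlinarith
    _ ≤ (∑ i ∈ Icc 1 N, ((i : ℝ))⁻¹) ^ (2 ^ 2) := Pool.Agent.HL.TauFour_R 2 N
    _ ≤ (∑ i ∈ Icc 1 x, ((i : ℝ))⁻¹) ^ 4 := by
        refine pow_le_pow_left₀ (by positivity) ?_ 4
        exact sum_le_sum_of_subset_of_nonneg (Icc_subset_Icc_right hN) fun _ _ _ => by positivity
    _ ≤ (2 * Real.log x) ^ 4 := pow_le_pow_left₀ (by positivity) (harm_le hx) 4

lemma card_prim_le (r : ℕ) (hr : 0 < r) : ((prim r).card : ℝ) ≤ r.totient := by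
  have : NeZero r := ⟨hr.ne'⟩
  have h1 : (prim r).card ≤ (univ : Finset (DirichletCharacter ℂ r)).card :=
    card_le_card (subset_univ _)
  have h2 : (univ : Finset (DirichletCharacter ℂ r)).card = r.totient := by
    rw [card_univ, ← Nat.card_eq_fintype_card]
    exact DirichletCharacter.card_eq_totient_of_hasEnoughRootsOfUnity ℂ r
  exact_mod_cast h2 ▸ h1

/-- small conductors -/
lemma W_small (β : ℕ → ℂ) (L s Z : ℕ) (Y b : ℝ) (hY : 0 ≤ Y)
    (h : ∀ r : ℕ, 1 < r → (r : ℝ) ≤ Y → ∀ χ ∈ prim r,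
      ‖∑ l ∈ (Ico L (2 * L)).filter (fun l => Nat.Coprime l s), β l * χ (l : ZMod r)‖ ≤ b) :
    ∑ r ∈ (Ioc 1 Z).filter (fun r : ℕ => (r : ℝ) ≤ Y), (r.divisors.card : ℝ) / r.totient * TT β L r s ≤
      Y ^ 2 * b ^ 2 := by
  have h1 : ∀ r ∈ (Ioc 1 Z).filter (fun r : ℕ => (r : ℝ) ≤ Y),
      (r.divisors.card : ℝ) / r.totient * TT β L r s ≤ Y * b ^ 2 := by
    intro r hr
    rw [mem_filter, mem_Ioc] at hr
    have hr0 : 0 < r := by omega
    have hφ : (0 : ℝ) < r.totient := by exact_mod_cast Nat.totient_pos.2 hr0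
    have h2 : TT β L r s ≤ r.totient * b ^ 2 := by
      unfold TT
      calc ∑ χ ∈ prim r, ‖∑ l ∈ (Ico L (2 * L)).filter (fun l => Nat.Coprime l s),
            β l * χ (l : ZMod r)‖ ^ 2 ≤ ∑ χ ∈ prim r, b ^ 2 :=
            sum_le_sum fun χ hχ => pow_le_pow_left₀ (norm_nonneg _) (h r hr.1.1 hr.2 χ hχ) 2
        _ = (prim r).card * b ^ 2 := by rw [sum_const, nsmul_eq_mul]
        _ ≤ r.totient * b ^ 2 := mul_le_mul_of_nonneg_right (card_prim_le r hr0) (by positivity)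
    have h3 : (r.divisors.card : ℝ) ≤ r := by exact_mod_cast Nat.card_divisors_le_self r
    calc (r.divisors.card : ℝ) / r.totient * TT β L r s
        ≤ (r : ℝ) / r.totient * (r.totient * b ^ 2) := by
          have := TT_nonneg β L r s
          gcongr
      _ = r * b ^ 2 := by field_simp
      _ ≤ Y * b ^ 2 := mul_le_mul_of_nonneg_right hr.2 (by positivity)
  calc _ ≤ ∑ r ∈ (Ioc 1 Z).filter (fun r : ℕ => (r : ℝ) ≤ Y), Y * b ^ 2 := sum_le_sum h1
    _ = ((Ioc 1 Z).filter (fun r : ℕ => (r : ℝ) ≤ Y)).card * (Y * b ^ 2) := by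
        rw [sum_const, nsmul_eq_mul]
    _ ≤ Y * (Y * b ^ 2) := by
        refine mul_le_mul_of_nonneg_right ?_ (by positivity)
        have h4 : ((Ioc 1 Z).filter (fun r : ℕ => (r : ℝ) ≤ Y)).card ≤ ⌊Y⌋₊ := by
          calc _ ≤ (Icc 1 ⌊Y⌋₊).card := by
                refine card_le_card fun r hr => ?_
                rw [mem_filter, mem_Ioc] at hr
                rw [mem_Icc]
                exact ⟨by omega, Nat.le_floor hr.2⟩
            _ = ⌊Y⌋₊ := by simp
        calc (((Ioc 1 Z).filter (fun r : ℕ => (r : ℝ) ≤ Y)).card : ℝ) ≤ ⌊Y⌋₊ := by exact_mod_cast h4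
          _ ≤ Y := Nat.floor_le hY
    _ = Y ^ 2 * b ^ 2 := by ring

/-- one dyadic block of conductors -/
lemma W_block (β : ℕ → ℂ) (hβ : ∀ l, ‖β l‖ ≤ 1) (L s j : ℕ) (hL : 1 ≤ L) (C : ℝ) (hC : 0 ≤ C)
    (hdiv : ∀ n : ℕ, n ≠ 0 → (n.divisors.card : ℝ) ≤ C * (n : ℝ) ^ (1 / 1000000 : ℝ)) :
    ∑ r ∈ Ico (2 ^ j) (2 ^ (j + 1)), (r.divisors.card : ℝ) / r.totient * TT β L r s ≤
      C * ((2 : ℝ) ^ j) ^ (-(999999 / 1000000) : ℝ) * (20 * (L + 4 * ((2 : ℝ) ^ j) ^ 2) * L) := by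
  have h1 : ∀ r ∈ Ico (2 ^ j) (2 ^ (j + 1)), (r.divisors.card : ℝ) / r.totient * TT β L r s ≤
      C * ((2 : ℝ) ^ j) ^ (-(999999 / 1000000) : ℝ) * ((r : ℝ) / r.totient * TT β L r s) := by
    intro r hr
    rw [mem_Ico] at hr
    have h2j : 0 < 2 ^ j := by positivity
    have hr0 : 0 < r := by omega
    have hrR : (0 : ℝ) < r := by exact_mod_cast hr0
    have hφ : (0 : ℝ) < r.totient := by exact_mod_cast Nat.totient_pos.2 hr0
    have h2 : (r.divisors.card : ℝ) ≤ C * ((2 : ℝ) ^ j) ^ (-(999999 / 1000000) : ℝ) * r := by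
      calc (r.divisors.card : ℝ) ≤ C * (r : ℝ) ^ (1 / 1000000 : ℝ) := hdiv r hr0.ne'
        _ = C * (r : ℝ) ^ (-(999999 / 1000000) : ℝ) * r := by
          rw [mul_assoc]
          congr 1
          rw [show (1 / 1000000 : ℝ) = -(999999 / 1000000) + 1 by norm_num, Real.rpow_add hrR,
            Real.rpow_one]
        _ ≤ _ := by
          refine mul_le_mul_of_nonneg_right (mul_le_mul_of_nonneg_left ?_ hC) hrR.le
          refine Real.rpow_le_rpow_of_nonpos (by positivity) ?_ (by norm_num)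
          exact_mod_cast hr.1
    have h3 := TT_nonneg β L r s
    calc (r.divisors.card : ℝ) / r.totient * TT β L r s
        ≤ (C * ((2 : ℝ) ^ j) ^ (-(999999 / 1000000) : ℝ) * r) / r.totient * TT β L r s := by gcongr
      _ = _ := by ring
  refine (sum_le_sum h1).trans ?_
  rw [← mul_sum]
  calc C * ((2 : ℝ) ^ j) ^ (-(999999 / 1000000) : ℝ) *
        ∑ r ∈ Ico (2 ^ j) (2 ^ (j + 1)), ((r : ℕ) : ℝ) / (r : ℕ).totient * TT β L r s
      ≤ C * ((2 : ℝ) ^ j) ^ (-(999999 / 1000000) : ℝ) *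
        ∑ r ∈ Icc 1 (2 ^ (j + 1)), ((r : ℕ) : ℝ) / (r : ℕ).totient * TT β L r s := by
        refine mul_le_mul_of_nonneg_left ?_ (by positivity)
        refine sum_le_sum_of_subset_of_nonneg ?_ (fun r _ _ => ?_)
        · intro r hr
          rw [mem_Ico] at hr
          rw [mem_Icc]
          have h2j : 0 < 2 ^ j := by positivity
          omega
        · have := TT_nonneg β L r s
          positivity
    _ ≤ C * ((2 : ℝ) ^ j) ^ (-(999999 / 1000000) : ℝ) * (20 * (L + ((2 ^ (j + 1) : ℕ) : ℝ) ^ 2) * L) := by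
        refine mul_le_mul_of_nonneg_left ?_ (by positivity)
        exact TT_ls β hβ L s (2 ^ (j + 1)) hL Nat.one_le_two_pow
    _ = _ := by
        push_cast
        rw [pow_succ (2 : ℝ) j]
        ring

/-- large conductors -/
lemma W_large (β : ℕ → ℂ) (hβ : ∀ l, ‖β l‖ ≤ 1) (L s Z x : ℕ) (hL : 1 ≤ L) (hx : 3 ≤ x) (hZ : Z ≤ x)
    (y : ℝ) (hy : 0 < y) (C : ℝ) (hC : 0 ≤ C)
    (hdiv : ∀ n : ℕ, n ≠ 0 → (n.divisors.card : ℝ) ≤ C * (n : ℝ) ^ (1 / 1000000 : ℝ)) :
    ∑ r ∈ (Ioc 1 Z).filter (fun r : ℕ => ¬ (r : ℝ) ≤ y ^ 2),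
      (r.divisors.card : ℝ) / r.totient * TT β L r s ≤
      (3 * Real.log x) * (C * (20 * L * (L * (2 / y) + 4 * (Z * RR x)))) := by
  set S := (Ioc 1 Z).filter (fun r : ℕ => ¬ (r : ℝ) ≤ y ^ 2) with hS
  have hmaps : ∀ r ∈ S, Nat.log 2 r ∈ range (Nat.log 2 Z + 1) := by
    intro r hr
    rw [hS, mem_filter, mem_Ioc] at hr
    rw [mem_range]
    have := Nat.log_mono_right (b := 2) hr.1.2
    omega
  rw [← sum_fiberwise_of_maps_to hmaps]
  have hRR : 1 ≤ RR x := one_le_RR (by omega)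
  have hpos : 0 ≤ C * (20 * L * (L * (2 / y) + 4 * (Z * RR x))) := by positivity
  have hblock : ∀ j ∈ range (Nat.log 2 Z + 1),
      ∑ r ∈ S.filter (fun r => Nat.log 2 r = j), (r.divisors.card : ℝ) / r.totient * TT β L r s ≤
      C * (20 * L * (L * (2 / y) + 4 * (Z * RR x))) := by
    intro j _
    rcases (S.filter (fun r => Nat.log 2 r = j)).eq_empty_or_nonempty with h0 | ⟨r₀, hr₀⟩
    · rw [h0, sum_empty]; exact hpos
    · rw [mem_filter, hS, mem_filter, mem_Ioc] at hr₀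
      obtain ⟨⟨⟨hr1, hrZ⟩, hry⟩, hrj⟩ := hr₀
      have hlow : 2 ^ j ≤ r₀ := by rw [← hrj]; exact Nat.pow_log_le_self 2 (by omega)
      have hup : r₀ < 2 ^ (j + 1) := by rw [← hrj]; exact Nat.lt_pow_succ_log_self (by norm_num) _
      have hZj : ((2 : ℝ) ^ j) ≤ Z := by exact_mod_cast hlow.trans hrZ
      have hyj : (y / 2) ^ 2 ≤ (2 : ℝ) ^ j := by
        have h1 : (r₀ : ℝ) < 2 ^ (j + 1) := by exact_mod_cast hup
        rw [pow_succ] at h1
        push Not at hry
        nlinarith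
      have h2j : (1 : ℝ) ≤ (2 : ℝ) ^ j := one_le_pow₀ (by norm_num)
      have e1 : ((2 : ℝ) ^ j) ^ (-(999999 / 1000000) : ℝ) ≤ 2 / y := by
        calc ((2 : ℝ) ^ j) ^ (-(999999 / 1000000) : ℝ) ≤ ((2 : ℝ) ^ j) ^ (-(1 / 2) : ℝ) :=
              Real.rpow_le_rpow_of_exponent_le h2j (by norm_num)
          _ ≤ ((y / 2) ^ 2) ^ (-(1 / 2) : ℝ) :=
              Real.rpow_le_rpow_of_nonpos (by positivity) hyj (by norm_num)
          _ = 2 / y := by
              rw [← Real.rpow_natCast, ← Real.rpow_mul (by positivity)]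
              norm_num
              rw [Real.rpow_neg_one]
              field_simp
      have e2 : ((2 : ℝ) ^ j) ^ (-(999999 / 1000000) : ℝ) * ((2 : ℝ) ^ j) ^ 2 ≤ Z * RR x := by
        have h2j0 : (0 : ℝ) < (2 : ℝ) ^ j := by positivity
        calc ((2 : ℝ) ^ j) ^ (-(999999 / 1000000) : ℝ) * ((2 : ℝ) ^ j) ^ 2
            = ((2 : ℝ) ^ j) * ((2 : ℝ) ^ j) ^ (1 / 1000000 : ℝ) := by
              rw [show (1 / 1000000 : ℝ) = -(999999 / 1000000) + 1 by norm_num,
                Real.rpow_add h2j0, Real.rpow_one]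
              ring
          _ ≤ Z * RR x := by
              unfold RR
              have hZx : (Z : ℝ) ≤ x := by exact_mod_cast hZ
              have : ((2 : ℝ) ^ j) ^ (1 / 1000000 : ℝ) ≤ (x : ℝ) ^ (1 / 1000000 : ℝ) :=
                Real.rpow_le_rpow (by positivity) (hZj.trans hZx) (by norm_num)
              exact mul_le_mul hZj this (by positivity) (by positivity)
      calc ∑ r ∈ S.filter (fun r => Nat.log 2 r = j), (r.divisors.card : ℝ) / r.totient * TT β L r s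
          ≤ ∑ r ∈ Ico (2 ^ j) (2 ^ (j + 1)), (r.divisors.card : ℝ) / r.totient * TT β L r s := by
            refine sum_le_sum_of_subset_of_nonneg ?_ (fun r _ _ => ?_)
            · intro r hr
              rw [mem_filter, hS, mem_filter, mem_Ioc] at hr
              rw [mem_Ico, ← hr.2]
              exact ⟨Nat.pow_log_le_self 2 (by omega), Nat.lt_pow_succ_log_self (by norm_num) _⟩
            · have := TT_nonneg β L r s
              positivity
        _ ≤ _ := W_block β hβ L s j hL C hC hdiv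
        _ = C * (20 * L * (L * ((2 : ℝ) ^ j) ^ (-(999999 / 1000000) : ℝ) +
              4 * (((2 : ℝ) ^ j) ^ (-(999999 / 1000000) : ℝ) * ((2 : ℝ) ^ j) ^ 2))) := by ring
        _ ≤ _ := by gcongr
  have hcard : ((Nat.log 2 Z + 1 : ℕ) : ℝ) ≤ 3 * Real.log x := by
    have hxR : (3 : ℝ) ≤ x := by exact_mod_cast hx
    have hlog1 : 1 ≤ Real.log x := by
      have h3 : Real.exp 1 ≤ x := by
        have := Real.exp_one_lt_d9
        linarith
      have := Real.log_le_log (Real.exp_pos 1) h3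
      rwa [Real.log_exp] at this
    have h2 : (Nat.log 2 Z : ℝ) * Real.log 2 ≤ Real.log x := by
      rw [← Real.log_pow]
      refine Real.log_le_log (by positivity) ?_
      rcases Nat.eq_zero_or_pos Z with h0 | h0
      · rw [h0]; simp; linarith
      · have := Nat.pow_log_le_self 2 h0.ne'
        have h5 : ((2 ^ Nat.log 2 Z : ℕ) : ℝ) ≤ x := by exact_mod_cast this.trans hZ
        push_cast at h5
        exact h5
    have h3 := Real.log_two_gt_d9
    have h4 : (0 : ℝ) ≤ (Nat.log 2 Z : ℝ) := by positivity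
    push_cast
    nlinarith
  calc _ ≤ ∑ j ∈ range (Nat.log 2 Z + 1), C * (20 * L * (L * (2 / y) + 4 * (Z * RR x))) :=
        sum_le_sum hblock
    _ = ((Nat.log 2 Z + 1 : ℕ) : ℝ) * (C * (20 * L * (L * (2 / y) + 4 * (Z * RR x)))) := by
        rw [sum_const, card_range, nsmul_eq_mul]
    _ ≤ _ := mul_le_mul_of_nonneg_right hcard hpos

theorem thm_C_of (hsw : SWH) (A : ℕ) : ∃ C : ℝ, 0 < C ∧ ∃ x₀ : ℕ, ∀ x ≥ x₀, ∀ L M : ℕ,
    x ^ 2 ≤ L ^ 5 → L ≤ x →
    (M : ℝ) * RR x ^ 10 ≤ L → ∀ β : ℕ → ℂ, (∀ l, ‖β l‖ ≤ 1) → Struct β →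
    ∑ m ∈ Ico M (2 * M), (m.divisors.card : ℝ) * err β L m ≤ C * (L : ℝ) ^ 2 / Real.log x ^ A := by
  obtain ⟨C₁, hC₁, x₁, h₁⟩ := hsw (A + (2 * A + 10) + 2) (2 * A + 10)
  obtain ⟨C₂, hC₂1, hdiv⟩ := Pool.Agent.Work.MP_aac176_nt.divisor_bound (1 / 1000000) (by norm_num)
  obtain ⟨x₂, h₂⟩ := small_log (A + 5) 1
  obtain ⟨x₃, h₃⟩ := small_log 0 2
  refine ⟨16 * C₁ ^ 2 + 1920 * C₂ + 7680 * C₂, by positivity, max (max x₁ x₂) (max x₃ 3), ?_⟩
  intro x hx L M hxL hLx hML β hβ hS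
  have hx1 : x₁ ≤ x := le_trans (le_trans (le_max_left _ _) (le_max_left _ _)) hx
  have hx2 : x₂ ≤ x := le_trans (le_trans (le_max_right _ _) (le_max_left _ _)) hx
  have hx3 : x₃ ≤ x := le_trans (le_trans (le_max_left _ _) (le_max_right _ _)) hx
  have hx4 : 3 ≤ x := le_trans (le_trans (le_max_right _ _) (le_max_right _ _)) hx
  have hxR : (3 : ℝ) ≤ x := by exact_mod_cast hx4
  have hRR : 1 ≤ RR x := one_le_RR (by omega)
  have hRR2 : 2 ≤ RR x := by have := h₃ x hx3; simpa using this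
  have hlog1 : 1 ≤ Real.log x := by
    have h3 : Real.exp 1 ≤ x := by
      have := Real.exp_one_lt_d9
      linarith
    have := Real.log_le_log (Real.exp_pos 1) h3
    rwa [Real.log_exp] at this
  set ℓ := Real.log x with hℓ
  have hℓ0 : 0 < ℓ := by linarith
  have hL0 : 1 ≤ L := by
    rcases Nat.eq_zero_or_pos L with h | h
    · rw [h] at hxL
      have : 0 < x ^ 2 := by positivity
      simp at hxL
      omega
    · exact h
  have hLR : (1 : ℝ) ≤ L := by exact_mod_cast hL0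
  -- sizes
  have hM1 : (M : ℝ) * RR x ≤ L / RR x ^ 9 := by
    rw [le_div_iff₀ (by positivity)]
    calc (M : ℝ) * RR x * RR x ^ 9 = M * RR x ^ 10 := by ring
      _ ≤ (L : ℝ) := hML
  have hRR9 : RR x ≤ RR x ^ 9 := le_self_pow₀ hRR (by norm_num)
  have hM2 : (M : ℝ) * RR x ≤ L / RR x :=
    hM1.trans (div_le_div_of_nonneg_left (by positivity) (by positivity) hRR9)
  have h2M : 2 * M ≤ x := by
    have h1 : (2 : ℝ) * M ≤ L := by
      have e1 : (2 : ℝ) ≤ RR x ^ 10 := hRR2.trans (le_self_pow₀ hRR (by norm_num))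
      have e2 : (0 : ℝ) ≤ M := by positivity
      nlinarith
    have h2 : 2 * M ≤ L := by exact_mod_cast h1
    omega
  have hbnd : ∀ s ∈ Icc 1 (2 * M), ∑ r ∈ Ioc 1 (2 * M), (r.divisors.card : ℝ) / r.totient * TT β L r s ≤
      (C₁ ^ 2 + 120 * C₂ + 480 * C₂) * (L : ℝ) ^ 2 / ℓ ^ (A + 4) := by
    intro s hs
    rw [mem_Icc] at hs
    rw [← sum_filter_add_sum_filter_not (Ioc 1 (2 * M)) (fun r : ℕ => (r : ℝ) ≤ (ℓ ^ (A + 5)) ^ 2)]
    have e1 := W_small β L s (2 * M) ((ℓ ^ (A + 5)) ^ 2) (C₁ * L / ℓ ^ (A + (2 * A + 10) + 2))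
      (by positivity) (fun r hr hrY χ hχ => by
        refine h₁ x hx1 L hxL hLx β hβ hS r hr ?_ χ hχ s (by omega) (by omega)
        rw [← hℓ, show 2 * A + 10 = (A + 5) * 2 by ring, pow_mul]
        exact hrY)
    have e2 := W_large β hβ L s (2 * M) x hL0 hx4 h2M (ℓ ^ (A + 5)) (by positivity) C₂
      (by linarith) hdiv
    refine (add_le_add e1 e2).trans ?_
    rw [← hℓ]
    have f1 : ((ℓ ^ (A + 5)) ^ 2) ^ 2 * (C₁ * L / ℓ ^ (A + (2 * A + 10) + 2)) ^ 2 ≤
        C₁ ^ 2 * (L : ℝ) ^ 2 / ℓ ^ (A + 4) := by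
      have : ((ℓ ^ (A + 5)) ^ 2) ^ 2 * (C₁ * L / ℓ ^ (A + (2 * A + 10) + 2)) ^ 2
          = C₁ ^ 2 * (L : ℝ) ^ 2 / ℓ ^ (2 * A + 4) := by
        rw [div_pow, ← pow_mul, ← pow_mul, ← pow_mul, mul_div_assoc', div_eq_div_iff (by positivity)
          (by positivity)]
        have : (A + (2 * A + 10) + 2) * 2 = (A + 5) * 2 * 2 + (2 * A + 4) := by ring
        rw [this, pow_add]
        ring
      rw [this]
      refine div_le_div_of_nonneg_left (by positivity) (by positivity) ?_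
      exact pow_le_pow_right₀ hlog1 (by omega)
    have f2 : 3 * ℓ * (C₂ * (20 * L * (L * (2 / ℓ ^ (A + 5)) + 4 * (((2 * M : ℕ) : ℝ) * RR x)))) ≤
        (120 * C₂ + 480 * C₂) * (L : ℝ) ^ 2 / ℓ ^ (A + 4) := by
      have g1 : ((2 * M : ℕ) : ℝ) * RR x ≤ 2 * (L / ℓ ^ (A + 5)) := by
        push_cast
        have g2 := h₂ x hx2
        rw [one_mul, ← hℓ] at g2
        have g3 : (L : ℝ) / RR x ≤ L / ℓ ^ (A + 5) :=
          div_le_div_of_nonneg_left (by positivity) (by positivity) g2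
        linarith
      calc 3 * ℓ * (C₂ * (20 * L * (L * (2 / ℓ ^ (A + 5)) + 4 * (((2 * M : ℕ) : ℝ) * RR x))))
          ≤ 3 * ℓ * (C₂ * (20 * L * (L * (2 / ℓ ^ (A + 5)) + 4 * (2 * (L / ℓ ^ (A + 5)))))) := by
            gcongr
        _ = (120 * C₂ + 480 * C₂) * (L : ℝ) ^ 2 / ℓ ^ (A + 4) := by
            rw [show A + 5 = (A + 4) + 1 by ring, pow_succ]
            field_simp
            ring
    exact (add_le_add f1 f2).trans (le_of_eq (by ring))
  calc ∑ m ∈ Ico M (2 * M), (m.divisors.card : ℝ) * err β L m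
      ≤ ∑ s ∈ Icc 1 (2 * M), (s.divisors.card : ℝ) / s.totient *
        ∑ r ∈ Ioc 1 (2 * M), (r.divisors.card : ℝ) / r.totient * TT β L r s := sum_err_le β L M
    _ ≤ ∑ s ∈ Icc 1 (2 * M), (s.divisors.card : ℝ) / s.totient *
        ((C₁ ^ 2 + 120 * C₂ + 480 * C₂) * (L : ℝ) ^ 2 / ℓ ^ (A + 4)) :=
        sum_le_sum fun s hs => mul_le_mul_of_nonneg_left (hbnd s hs) (by positivity)
    _ = (∑ s ∈ Icc 1 (2 * M), (s.divisors.card : ℝ) / s.totient) *
        ((C₁ ^ 2 + 120 * C₂ + 480 * C₂) * (L : ℝ) ^ 2 / ℓ ^ (A + 4)) := by rw [sum_mul]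
    _ ≤ (2 * ℓ) ^ 4 * ((C₁ ^ 2 + 120 * C₂ + 480 * C₂) * (L : ℝ) ^ 2 / ℓ ^ (A + 4)) :=
        mul_le_mul_of_nonneg_right (sum_tau_phi_le hx4 h2M) (by positivity)
    _ = (16 * C₁ ^ 2 + 1920 * C₂ + 7680 * C₂) * (L : ℝ) ^ 2 / ℓ ^ A := by
        rw [pow_add]
        field_simp
        ring

end Pool.Agent.ZH
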