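import Pool.Agent.Work.ZH.Defs
import Pool.Agent.Work.MP_aac176_nt.Div
import Pool.Agent.Work.MP_92f640_nt.HL.TauFour

/-! # Cell ZH, module Small: small quantities are at most `R = x^(10^-6)` -/

namespace Pool.Agent.ZH

open Finset Pool.Agent.BV

theorem one_le_RR {x : ℕ} (hx : 1 ≤ x) : 1 ≤ RR x :=
  Real.one_le_rpow (by exact_mod_cast hx) (by norm_num)

theorem RR_pow (x : ℕ) : RR x ^ 1000000 = x := by
  unfold RR
  rw [← Real.rpow_natCast, ← Real.rpow_mul (Nat.cast_nonneg x)]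
  norm_num

theorem RR_pow_eq (x k : ℕ) : RR x ^ k = (x : ℝ) ^ ((k : ℝ) / 1000000) := by
  unfold RR
  rw [← Real.rpow_natCast, ← Real.rpow_mul (Nat.cast_nonneg x)]
  congr 1; ring

theorem small_tau (j : ℕ) : ∃ x₀ : ℕ, ∀ x ≥ x₀, ∀ n : ℕ, 0 < n → n ≤ x ^ 4 →
    (n.divisors.card : ℝ) ^ j ≤ RR x := by
  set δ : ℝ := 1 / (8000000 * ((j : ℝ) + 1)) with hδ
  have hδ0 : 0 < δ := by positivity
  obtain ⟨C, hC1, hC⟩ := Pool.Agent.Work.MP_aac176_nt.divisor_bound δ hδ0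
  -- C^j ≤ x^(1/2000000) for large x
  have hlim : Filter.Tendsto (fun x : ℝ => x ^ (1 / 2000000 : ℝ)) Filter.atTop Filter.atTop :=
    tendsto_rpow_atTop (by norm_num)
  have hev := (hlim.comp tendsto_natCast_atTop_atTop).eventually_ge_atTop (C ^ j)
  obtain ⟨x₀, hx₀⟩ := Filter.eventually_atTop.1 hev
  refine ⟨max x₀ 1, fun x hx n hn hnx => ?_⟩
  have h1 : C ^ j ≤ (x : ℝ) ^ (1 / 2000000 : ℝ) := hx₀ x (le_trans (le_max_left _ _) hx)
  have hx1 : (1 : ℝ) ≤ x := by exact_mod_cast le_trans (le_max_right _ _) hx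
  have h2 : (n : ℝ) ^ δ ≤ (x : ℝ) ^ (4 * δ) := by
    have : (n : ℝ) ≤ (x : ℝ) ^ 4 := by exact_mod_cast hnx
    calc (n : ℝ) ^ δ ≤ ((x : ℝ) ^ 4) ^ δ := Real.rpow_le_rpow (by positivity) this hδ0.le
      _ = (x : ℝ) ^ (4 * δ) := by
        rw [← Real.rpow_natCast, ← Real.rpow_mul (by linarith)]; norm_num
  have h3 : ((x : ℝ) ^ (4 * δ)) ^ j ≤ (x : ℝ) ^ (1 / 2000000 : ℝ) := by
    rw [← Real.rpow_natCast, ← Real.rpow_mul (by linarith)]
    apply Real.rpow_le_rpow_of_exponent_le hx1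
    rw [hδ, ← sub_nonneg]
    have : (1 / 2000000 : ℝ) - 4 * (1 / (8000000 * ((j : ℝ) + 1))) * j
        = 1 / (2000000 * ((j : ℝ) + 1)) := by
      field_simp; ring
    rw [this]; positivity
  calc (n.divisors.card : ℝ) ^ j ≤ (C * (n : ℝ) ^ δ) ^ j :=
        pow_le_pow_left₀ (by positivity) (hC n hn.ne') j
    _ = C ^ j * ((n : ℝ) ^ δ) ^ j := by ring
    _ ≤ C ^ j * ((x : ℝ) ^ (4 * δ)) ^ j := by gcongr
    _ ≤ (x : ℝ) ^ (1 / 2000000 : ℝ) * (x : ℝ) ^ (1 / 2000000 : ℝ) := by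
        apply mul_le_mul h1 h3 (by positivity) (by positivity)
    _ = RR x := by
        unfold RR
        rw [← Real.rpow_add (by linarith)]; norm_num

theorem two_pow_omega_le (n : ℕ) (hn : n ≠ 0) : 2 ^ n.primeFactors.card ≤ n.divisors.card := by
  rw [Nat.card_divisors hn, ← Finset.prod_const]
  refine Finset.prod_le_prod' fun p hp => ?_
  have : 0 < n.factorization p :=
    Nat.Prime.factorization_pos_of_dvd (Nat.prime_of_mem_primeFactors hp) hn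
      (Nat.dvd_of_mem_primeFactors hp)
  omega

theorem small_omega (c : ℝ) (hc : 1 ≤ c) : ∃ x₀ : ℕ, ∀ x ≥ x₀, ∀ n : ℕ, 0 < n → n ≤ x ^ 4 →
    c ^ n.primeFactors.card ≤ RR x := by
  obtain ⟨k, hk⟩ := pow_unbounded_of_one_lt c (one_lt_two (α := ℝ))
  obtain ⟨x₀, h⟩ := small_tau k
  refine ⟨x₀, fun x hx n hn hnx => le_trans ?_ (h x hx n hn hnx)⟩
  calc c ^ n.primeFactors.card ≤ (2 ^ k) ^ n.primeFactors.card :=
        pow_le_pow_left₀ (by linarith) hk.le _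
    _ = ((2 ^ n.primeFactors.card : ℕ) : ℝ) ^ k := by
        push_cast; rw [← pow_mul, ← pow_mul, mul_comm]
    _ ≤ (n.divisors.card : ℝ) ^ k :=
        pow_le_pow_left₀ (by positivity) (by exact_mod_cast two_pow_omega_le n hn.ne') k

theorem small_log (j : ℕ) (c : ℝ) : ∃ x₀ : ℕ, ∀ x ≥ x₀, c * Real.log x ^ j ≤ RR x := by
  have h1 := isLittleO_log_rpow_rpow_atTop (s := (1 / 1000000 : ℝ)) (j : ℝ) (by norm_num)
  have h2 := h1.bound (c := 1 / (|c| + 1)) (by positivity)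
  have h3 := tendsto_natCast_atTop_atTop.eventually h2
  obtain ⟨x₀, hx₀⟩ := Filter.eventually_atTop.1 h3
  refine ⟨max x₀ 1, fun x hx => ?_⟩
  have hx1 : (1 : ℝ) ≤ x := by exact_mod_cast le_trans (le_max_right _ _) hx
  have h4 := hx₀ x (le_trans (le_max_left _ _) hx)
  rw [Real.rpow_natCast, Real.norm_of_nonneg (pow_nonneg (Real.log_nonneg hx1) _),
    Real.norm_of_nonneg (by positivity)] at h4
  have h5 : (0 : ℝ) ≤ Real.log x ^ j := pow_nonneg (Real.log_nonneg hx1) _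
  calc c * Real.log x ^ j ≤ (|c| + 1) * Real.log x ^ j := by
        have := le_abs_self c
        nlinarith
    _ ≤ (|c| + 1) * (1 / (|c| + 1) * (x : ℝ) ^ (1 / 1000000 : ℝ)) := by gcongr
    _ = RR x := by unfold RR; field_simp

lemma harm_le {x : ℕ} (hx : 3 ≤ x) : ∑ i ∈ Icc 1 x, ((i : ℝ))⁻¹ ≤ 2 * Real.log x := by
  have h1 : ∑ i ∈ Icc 1 x, ((i : ℝ))⁻¹ ≤ 1 + Real.log x := by
    have := harmonic_le_one_add_log x
    rw [harmonic_eq_sum_Icc] at this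
    push_cast at this
    exact this
  have h2 : 1 ≤ Real.log x := by
    have h3 : Real.exp 1 ≤ x := by
      have := Real.exp_one_lt_d9
      have h4 : (3 : ℝ) ≤ x := by exact_mod_cast hx
      linarith
    have := Real.log_le_log (Real.exp_pos 1) h3
    rwa [Real.log_exp] at this
  linarith

/-- moments of the divisor function -/
theorem sum_tau_pow (j : ℕ) : ∃ C : ℝ, 0 < C ∧ ∃ B : ℕ, ∀ x : ℕ, 3 ≤ x →
    ∑ n ∈ Icc 1 x, (n.divisors.card : ℝ) ^ j ≤ C * x * Real.log x ^ B := by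
  refine ⟨2 ^ (2 ^ j - 1), by positivity, 2 ^ j - 1, fun x hx => ?_⟩
  calc ∑ n ∈ Icc 1 x, (n.divisors.card : ℝ) ^ j
      ≤ x * (∑ i ∈ Icc 1 x, ((i : ℝ))⁻¹) ^ (2 ^ j - 1) := Pool.Agent.HL.TauFour_T j x x le_rfl
    _ ≤ x * (2 * Real.log x) ^ (2 ^ j - 1) := by
        have h := harm_le hx
        have h0 : 0 ≤ ∑ i ∈ Icc 1 x, ((i : ℝ))⁻¹ := by positivity
        gcongr
    _ = _ := by rw [mul_pow]; ring

/-- divisor function times shifted divisor function -/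
theorem sum_tau_shift (j : ℕ) : ∃ C : ℝ, 0 < C ∧ ∃ B : ℕ, ∀ x : ℕ, 3 ≤ x →
    ∑ n ∈ Icc 1 x, (n.divisors.card : ℝ) ^ j * ((n + 2).divisors.card : ℝ) ^ j ≤ C * x * Real.log x ^ B := by
  obtain ⟨C, hC, B, h⟩ := sum_tau_pow (2 * j)
  refine ⟨4 * C * 2 ^ B, by positivity, B, fun x hx => ?_⟩
  have hx3 : (3 : ℝ) ≤ x := by exact_mod_cast hx
  have hlog : Real.log ((x + 2 : ℕ) : ℝ) ≤ 2 * Real.log x := by
    have h1 : ((x + 2 : ℕ) : ℝ) ≤ (x : ℝ) ^ 2 := by push_cast; nlinarith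
    have := Real.log_le_log (by positivity) h1
    rwa [Real.log_pow] at this
  have hlog0 : 0 ≤ Real.log ((x + 2 : ℕ) : ℝ) := Real.log_natCast_nonneg _
  have h1 : ∑ n ∈ Icc 1 x, (n.divisors.card : ℝ) ^ (2 * j)
      ≤ ∑ n ∈ Icc 1 (x + 2), (n.divisors.card : ℝ) ^ (2 * j) :=
    sum_le_sum_of_subset_of_nonneg (Icc_subset_Icc_right (by omega)) fun _ _ _ => by positivity
  have h2 : ∑ n ∈ Icc 1 x, ((n + 2).divisors.card : ℝ) ^ (2 * j)
      ≤ ∑ n ∈ Icc 1 (x + 2), (n.divisors.card : ℝ) ^ (2 * j) := by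
    have hm := Finset.sum_map (Icc 1 x) (addRightEmbedding 2)
      (fun n => ((n.divisors.card : ℝ)) ^ (2 * j))
    simp only [addRightEmbedding_apply] at hm
    rw [← hm]
    refine sum_le_sum_of_subset_of_nonneg ?_ fun _ _ _ => by positivity
    intro m hm
    simp only [mem_map, mem_Icc, addRightEmbedding_apply] at hm ⊢
    omega
  have h3 := h (x + 2) (by omega)
  calc ∑ n ∈ Icc 1 x, (n.divisors.card : ℝ) ^ j * ((n + 2).divisors.card : ℝ) ^ j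
      ≤ ∑ n ∈ Icc 1 x, ((n.divisors.card : ℝ) ^ (2 * j) + ((n + 2).divisors.card : ℝ) ^ (2 * j)) / 2 := by
        refine sum_le_sum fun n _ => ?_
        rw [pow_mul', pow_mul']
        nlinarith [sq_nonneg ((n.divisors.card : ℝ) ^ j - ((n + 2).divisors.card : ℝ) ^ j)]
    _ = (∑ n ∈ Icc 1 x, (n.divisors.card : ℝ) ^ (2 * j)
          + ∑ n ∈ Icc 1 x, ((n + 2).divisors.card : ℝ) ^ (2 * j)) / 2 := by
        rw [← sum_div, sum_add_distrib]
    _ ≤ C * ((x + 2 : ℕ) : ℝ) * Real.log ((x + 2 : ℕ) : ℝ) ^ B := by linarith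
    _ ≤ C * (4 * x) * (2 * Real.log x) ^ B := by
        have : ((x + 2 : ℕ) : ℝ) ≤ 4 * x := by push_cast; linarith
        gcongr
    _ = _ := by rw [mul_pow]; ring

/-- number of prime factors `≥ R^100` -/
theorem card_big_primes {x n : ℕ} (hx : 2 ≤ x) (hn : 0 < n) (hnx : n ≤ x ^ 2) :
    (n.primeFactors.filter (fun p : ℕ => RR x ^ 100 ≤ (p : ℝ))).card ≤ 20000 := by
  set S := n.primeFactors.filter (fun p : ℕ => RR x ^ 100 ≤ (p : ℝ)) with hS
  have hx1 : (1 : ℝ) < x := by exact_mod_cast (by omega : 1 < x)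
  have hR1 : 1 < RR x := Real.one_lt_rpow hx1 (by norm_num)
  have h1 : (RR x ^ 100) ^ S.card ≤ ((∏ p ∈ S, p : ℕ) : ℝ) := by
    rw [← Finset.prod_const]
    push_cast
    refine Finset.prod_le_prod (fun _ _ => by positivity) fun p hp => ?_
    exact (Finset.mem_filter.1 hp).2
  have h2 : (∏ p ∈ S, p) ∣ n :=
    (Finset.prod_dvd_prod_of_subset _ _ _ (Finset.filter_subset _ _)).trans (Nat.prod_primeFactors_dvd n)
  have h3 : ((∏ p ∈ S, p : ℕ) : ℝ) ≤ (x : ℝ) ^ 2 := by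
    exact_mod_cast (Nat.le_of_dvd hn h2).trans hnx
  have h4 : RR x ^ (100 * S.card) ≤ RR x ^ (2000000 : ℕ) := by
    calc RR x ^ (100 * S.card) = (RR x ^ 100) ^ S.card := by rw [pow_mul]
      _ ≤ (x : ℝ) ^ 2 := h1.trans h3
      _ = (RR x ^ 1000000) ^ 2 := by rw [RR_pow]
      _ = RR x ^ (2000000 : ℕ) := by rw [← pow_mul]
  have h5 := (pow_le_pow_iff_right₀ hR1).1 h4
  omega

end Pool.Agent.ZH
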