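import Pool.Agent.Work.ZH.Shapes
import Pool.Agent.Work.ZH.Small
import Pool.Agent.Work.MP_92f640_nt.HL.TL2

/-!
# Cell ZH (MP_d3dd4c_nt), module D3: from dyadic boxes to convolutions

`BoxH` is the statement of `thm_box`; `disc_conv_of : BoxH → (statement of disc_conv)`; `disc_small`.
-/

namespace Pool.Agent.ZH

open Finset Pool.Agent.BV

/-- the statement of `thm_box` -/
def BoxH : Prop := ∀ A C₁ : ℕ, ∃ C : ℝ, 0 < C ∧ ∃ x₀ : ℕ, ∀ x ≥ x₀, ∀ ρ : ℝ, 1 ≤ ρ ^ 4 * RR x → ρ ≤ 1 → 0 < ρ →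
    ∀ (S : Finset (ℕ × ℕ)) (c : ℕ × ℕ → ℝ), Dens x ρ C₁ S c → ∀ K L : ℕ, L ≤ K → K * L ≤ x →
    (x : ℝ) ≤ K * L * RR x ^ 12 → (x : ℝ) ^ 2 * RR x ^ 4900 ≤ (L : ℝ) ^ 5 →
    ∀ α β : ℕ → ℂ, (∀ k, ‖α k‖ ≤ 1) → (∀ l, ‖β l‖ ≤ 1) → Struct β →
    ‖∑ i ∈ S, (c i : ℂ) * Dab α β K L (i.1 * i.2)‖ ≤ C * ρ * x / Real.log x ^ A

/-- the weight of the discrepancy -/
noncomputable def Wf (m n : ℕ) : ℝ :=
  (if n ≡ 1 [MOD m] then 1 else 0) - (if Nat.Coprime n m then 1 / (m.totient : ℝ) else 0)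

theorem disc_eq_Wf (f : ℕ → ℂ) (y m : ℕ) : disc f y m = ∑ n ∈ Icc 1 y, f n * (Wf m n : ℂ) := by
  unfold disc Wf
  rw [Finset.sum_filter, Finset.sum_filter, Finset.sum_div, ← Finset.sum_sub_distrib]
  refine Finset.sum_congr rfl fun n _ => ?_
  split_ifs <;> push_cast <;> ring

theorem Dab_eq_Wf (α β : ℕ → ℂ) (K L q : ℕ) : Dab α β K L q =
    ∑ p ∈ Ico K (2 * K) ×ˢ Ico L (2 * L), α p.1 * β p.2 * (Wf q (p.1 * p.2) : ℂ) := by
  unfold Dab Wf
  rw [sum_product]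
  refine sum_congr rfl fun k _ => sum_congr rfl fun l _ => ?_
  push_cast
  split_ifs <;> simp

theorem Dab_comm (α β : ℕ → ℂ) (K L q : ℕ) : Dab α β K L q = Dab β α L K q := by
  rw [Dab_eq_Wf, Dab_eq_Wf, sum_product, sum_product, Finset.sum_comm]
  refine sum_congr rfl fun k _ => sum_congr rfl fun l _ => ?_
  simp only
  rw [mul_comm l k, mul_comm (α l)]

theorem abs_Wf_le {m : ℕ} (hm : 0 < m) (n : ℕ) : |Wf m n| ≤ Wf m n + 2 / (m.totient : ℝ) := by
  have h0 : (0 : ℝ) < m.totient := by exact_mod_cast Nat.totient_pos.2 hm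
  have h1 : (1 : ℝ) ≤ m.totient := by exact_mod_cast Nat.totient_pos.2 hm
  have h2 : 1 / (m.totient : ℝ) ≤ 1 := by rw [div_le_one h0]; exact h1
  have h3 : 0 < 1 / (m.totient : ℝ) := by positivity
  have h4 : 2 / (m.totient : ℝ) = 2 * (1 / (m.totient : ℝ)) := by ring
  rw [h4]
  unfold Wf
  rw [abs_le]
  split_ifs <;> constructor <;> linarith

/-- the weight on pairs `d e ≤ y` -/
noncomputable def ww (y m : ℕ) (p : ℕ × ℕ) : ℂ := if p.1 * p.2 ≤ y then (Wf m (p.1 * p.2) : ℂ) else 0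

noncomputable def DD (α β : ℕ → ℂ) (y m : ℕ) : ℂ := ∑ p ∈ Icc 1 y ×ˢ Icc 1 y, α p.1 * β p.2 * ww y m p

theorem disc_eq_DD (α β : ℕ → ℂ) (y m : ℕ) :
    disc (fun n => ∑ d ∈ n.divisors, α d * β (n / d)) y m = DD α β y m := by
  rw [disc_eq_Wf]
  set P := (Icc 1 y ×ˢ Icc 1 y).filter (fun p : ℕ × ℕ => p.1 * p.2 ≤ y) with hP
  have h1 : ∀ n ∈ Icc 1 y, (∑ d ∈ n.divisors, α d * β (n / d)) * (Wf m n : ℂ) =
      ∑ p ∈ P.filter (fun p => p.1 * p.2 = n), α p.1 * β p.2 * (Wf m (p.1 * p.2) : ℂ) := by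
    intro n hn
    rw [mem_Icc] at hn
    have h2 : P.filter (fun p => p.1 * p.2 = n) = n.divisorsAntidiagonal := by
      ext p
      simp only [hP, mem_filter, mem_product, mem_Icc, Nat.mem_divisorsAntidiagonal]
      constructor
      · rintro ⟨_, h⟩
        exact ⟨h, by omega⟩
      · rintro ⟨h, h0⟩
        have ha : 0 < p.1 := Nat.pos_of_ne_zero (by rintro h'; rw [h'] at h; omega)
        have hb : 0 < p.2 := Nat.pos_of_ne_zero (by rintro h'; rw [h'] at h; omega)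
        have hc : p.1 ≤ p.1 * p.2 := Nat.le_mul_of_pos_right _ hb
        have hd : p.2 ≤ p.1 * p.2 := Nat.le_mul_of_pos_left _ ha
        refine ⟨⟨⟨⟨ha, by omega⟩, ⟨hb, by omega⟩⟩, by omega⟩, h⟩
    rw [h2, sum_mul, ← Nat.sum_divisorsAntidiagonal (fun d e => α d * β e * (Wf m n : ℂ))]
    refine sum_congr rfl fun p hp => ?_
    rw [(Nat.mem_divisorsAntidiagonal.1 hp).1]
  rw [sum_congr rfl h1, sum_fiberwise_of_maps_to]
  · rw [DD, hP, sum_filter]
    refine sum_congr rfl fun p _ => ?_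
    unfold ww
    split_ifs <;> simp
  · intro p hp
    simp only [hP, mem_filter, mem_product, mem_Icc] at hp ⊢
    exact ⟨Nat.mul_pos (by omega) (by omega), hp.2⟩

theorem DD_eq_Dab {α β : ℕ → ℂ} {K L y m : ℕ} (_hK : 0 < K) (_hL : 0 < L)
    (hα : ∀ d, α d ≠ 0 → K ≤ d ∧ d < 2 * K) (hβ : ∀ e, β e ≠ 0 → L ≤ e ∧ e < 2 * L)
    (h : ∀ d e, α d ≠ 0 → β e ≠ 0 → d * e ≤ y) : DD α β y m = Dab α β K L m := by
  rw [Dab_eq_Wf, DD]
  refine sum_congr_of_eq_on_inter ?_ ?_ ?_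
  · intro p _ hp
    by_cases h1 : α p.1 = 0
    · rw [h1]; ring
    by_cases h2 : β p.2 = 0
    · rw [h2]; ring
    exfalso
    apply hp
    rw [mem_product, mem_Ico, mem_Ico]
    exact ⟨hα _ h1, hβ _ h2⟩
  · intro p _ hp
    by_cases h1 : α p.1 = 0
    · rw [h1]; ring
    by_cases h2 : β p.2 = 0
    · rw [h2]; ring
    exfalso
    apply hp
    have h3 := h _ _ h1 h2
    have ha : 0 < p.1 := by have := hα _ h1; omega
    have hb : 0 < p.2 := by have := hβ _ h2; omega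
    have hc : p.1 ≤ p.1 * p.2 := Nat.le_mul_of_pos_right _ hb
    have hd : p.2 ≤ p.1 * p.2 := Nat.le_mul_of_pos_left _ ha
    rw [mem_product, mem_Icc, mem_Icc]
    exact ⟨⟨ha, by omega⟩, ⟨hb, by omega⟩⟩
  · intro p _ _
    by_cases h1 : α p.1 = 0
    · rw [h1]; ring
    by_cases h2 : β p.2 = 0
    · rw [h2]; ring
    unfold ww
    rw [if_pos (h _ _ h1 h2)]

theorem DD_sum {ι κ : Type*} (s : Finset ι) (t : Finset κ) (α : ι → ℕ → ℂ) (β : κ → ℕ → ℂ) (y m : ℕ) :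
    DD (fun n => ∑ i ∈ s, α i n) (fun n => ∑ j ∈ t, β j n) y m = ∑ i ∈ s, ∑ j ∈ t, DD (α i) (β j) y m := by
  unfold DD
  have h1 : ∀ i ∈ s, ∑ j ∈ t, ∑ p ∈ Icc 1 y ×ˢ Icc 1 y, α i p.1 * β j p.2 * ww y m p =
      ∑ p ∈ Icc 1 y ×ˢ Icc 1 y, ∑ j ∈ t, α i p.1 * β j p.2 * ww y m p := fun i _ => sum_comm
  rw [sum_congr rfl h1, sum_comm]
  refine sum_congr rfl fun p _ => ?_
  rw [sum_mul_sum, sum_mul]
  refine sum_congr rfl fun i _ => ?_
  rw [sum_mul]

theorem DD_congr {α β α' β' : ℕ → ℂ} {y : ℕ} (m : ℕ) (h1 : ∀ n, 1 ≤ n → n ≤ y → α n = α' n)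
    (h2 : ∀ n, 1 ≤ n → n ≤ y → β n = β' n) : DD α β y m = DD α' β' y m := by
  unfold DD
  refine sum_congr rfl fun p hp => ?_
  rw [mem_product, mem_Icc, mem_Icc] at hp
  rw [h1 _ hp.1.1 hp.1.2, h2 _ hp.2.1 hp.2.2]

/-! ### The grid -/

theorem sum_grid (h : ℕ → ℕ) (hm : Monotone h) (f : ℕ → ℂ) (J n : ℕ) :
    ∑ j ∈ range J, (if h j ≤ n ∧ n < h (j + 1) then f n else 0) = if h 0 ≤ n ∧ n < h J then f n else 0 := by
  induction J with
  | zero => rw [range_zero, sum_empty, if_neg (by omega)]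
  | succ J ih =>
    rw [sum_range_succ, ih]
    have h1 : h 0 ≤ h J := hm (by omega)
    have h2 : h J ≤ h (J + 1) := hm (by omega)
    by_cases ha : n < h J
    · rw [if_neg (show ¬ (h J ≤ n ∧ n < h (J + 1)) by omega), add_zero]
      by_cases hb : h 0 ≤ n
      · rw [if_pos ⟨hb, ha⟩, if_pos ⟨hb, by omega⟩]
      · rw [if_neg (by omega), if_neg (by omega)]
    · rw [if_neg (show ¬ (h 0 ≤ n ∧ n < h J) by omega), zero_add]
      by_cases hb : n < h (J + 1)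
      · rw [if_pos ⟨by omega, hb⟩, if_pos ⟨by omega, hb⟩]
      · rw [if_neg (by omega), if_neg (by omega)]

/-- the grid `g (j + 1) = g j + ⌊g j / Q⌋ + 1` -/
def gr (D Q : ℕ) : ℕ → ℕ
  | 0 => D
  | j + 1 => gr D Q j + gr D Q j / Q + 1

theorem gr_succ (D Q j : ℕ) : gr D Q (j + 1) = gr D Q j + gr D Q j / Q + 1 := rfl

theorem gr_mono (D Q : ℕ) : Monotone (gr D Q) := by
  refine monotone_nat_of_le_succ fun j => ?_
  rw [gr_succ, add_assoc]
  exact Nat.le_add_right _ _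

theorem gr_ge (D Q j : ℕ) : D ≤ gr D Q j := gr_mono D Q (Nat.zero_le j)

theorem gr_growth {D Q : ℕ} (hQ : 0 < Q) (j : ℕ) :
    (D : ℝ) * (1 + 1 / (Q : ℝ)) ^ j ≤ gr D Q j := by
  induction j with
  | zero => simp [gr]
  | succ j ih =>
    have hQ0 : (0 : ℝ) < Q := by exact_mod_cast hQ
    have h1 : ((gr D Q j : ℕ) : ℝ) / Q ≤ ((gr D Q j / Q : ℕ) : ℝ) + 1 := by
      exact (Nat.lt_floor_add_one (R := ℝ) _).le.trans (by rw [Nat.floor_div_eq_div])
    rw [gr_succ, pow_succ]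
    push_cast
    calc (D : ℝ) * ((1 + 1 / (Q : ℝ)) ^ j * (1 + 1 / Q))
        = (D : ℝ) * (1 + 1 / (Q : ℝ)) ^ j * (1 + 1 / Q) := by ring
      _ ≤ gr D Q j * (1 + 1 / Q) := by gcongr
      _ = gr D Q j + gr D Q j / Q := by ring
      _ ≤ gr D Q j + ((gr D Q j / Q : ℕ) : ℝ) + 1 := by linarith

theorem gr_big {D Q x J : ℕ} (hQ : 2 ≤ Q) (hD : 1 ≤ D) (hx : 3 ≤ x) (hJ : 2 * Q * Real.log x ≤ J) :
    x < gr D Q J := by
  have hQ0 : (0 : ℝ) < Q := by exact_mod_cast (by omega : 0 < Q)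
  have hQ2 : (2 : ℝ) ≤ Q := by exact_mod_cast hQ
  have hx0 : (0 : ℝ) < x := by exact_mod_cast (by omega : 0 < x)
  have hl : 0 < Real.log x := Real.log_pos (by exact_mod_cast (by omega : 1 < x))
  have h1 : Real.exp (1 / ((Q : ℝ) + 1)) ≤ 1 + 1 / Q := by
    have h2 := Real.add_one_le_exp (-(1 / ((Q : ℝ) + 1)))
    have h3 : -(1 / ((Q : ℝ) + 1)) + 1 = Q / (Q + 1) := by field_simp; ring
    rw [h3, Real.exp_neg] at h2
    have h4 : (Q : ℝ) / (Q + 1) = (1 + 1 / (Q : ℝ))⁻¹ := by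
      field_simp
    rw [h4] at h2
    exact (inv_le_inv₀ (by positivity) (Real.exp_pos _)).1 h2
  have h5 : (x : ℝ) < Real.exp (1 / ((Q : ℝ) + 1)) ^ J := by
    rw [← Real.exp_nat_mul]
    have h6 : Real.log x < J * (1 / ((Q : ℝ) + 1)) := by
      rw [mul_one_div, lt_div_iff₀ (by positivity)]
      nlinarith
    calc (x : ℝ) = Real.exp (Real.log x) := (Real.exp_log hx0).symm
      _ < _ := Real.exp_lt_exp.2 h6
  have h7 := gr_growth (D := D) (by omega : 0 < Q) J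
  have h8 : (1 : ℝ) ≤ D := by exact_mod_cast hD
  have h9 : (x : ℝ) < gr D Q J := by
    calc (x : ℝ) < Real.exp (1 / ((Q : ℝ) + 1)) ^ J := h5
      _ ≤ (1 + 1 / (Q : ℝ)) ^ J := by gcongr
      _ ≤ D * (1 + 1 / (Q : ℝ)) ^ J := le_mul_of_one_le_left (by positivity) h8
      _ ≤ _ := h7
  exact_mod_cast h9

/-! ### Totals and small supports -/

theorem boxes_pos {x : ℕ} (hx : 1 ≤ x) {m₁ m₂ : ℕ} (h : GoodPair x m₁ m₂) : 0 < m₁ * m₂ := by
  by_contra h0
  have h1 := h.lo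
  rw [show m₁ * m₂ = 0 by omega] at h1
  simp at h1
  omega

theorem boxes_le {x : ℕ} (hx : 1 ≤ x) {m₁ m₂ : ℕ} (h : GoodPair x m₁ m₂) : m₁ * m₂ ≤ x := by
  have h1 := h.hi
  have hR : 1 ≤ RR x := one_le_RR hx
  have h2 : RR x ^ 3 ≤ (x : ℝ) := by
    calc RR x ^ 3 ≤ RR x ^ 1000000 := pow_le_pow_right₀ hR (by norm_num)
      _ = x := RR_pow x
  have h3 : ((m₁ * m₂ : ℕ) : ℝ) ^ 2 ≤ (x : ℝ) ^ 2 := by
    calc ((m₁ * m₂ : ℕ) : ℝ) ^ 2 ≤ x * RR x ^ 3 := h1
      _ ≤ x * x := by gcongr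
      _ = (x : ℝ) ^ 2 := by ring
  exact_mod_cast le_of_pow_le_pow_left₀ (by norm_num) (by positivity) h3

theorem boxes_phi {x : ℕ} (hx : Real.exp 3 ≤ x) {ρ : ℝ} {C₁ : ℕ} {S : Finset (ℕ × ℕ)} {c : ℕ × ℕ → ℝ}
    (h : Dens x ρ C₁ S c) :
    ∑ i ∈ S, c i / ((i.1 * i.2).totient : ℝ) ≤ ρ * Real.log x ^ (C₁ + 2) := by
  have hx0 : (0 : ℝ) < x := lt_of_lt_of_le (Real.exp_pos _) hx
  have hx1 : 1 ≤ x := by
    have : (0 : ℝ) < x := hx0
    exact_mod_cast this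
  have hl : 3 ≤ Real.log x := by
    have := Real.log_le_log (Real.exp_pos 3) hx
    rwa [Real.log_exp] at this
  calc ∑ i ∈ S, c i / ((i.1 * i.2).totient : ℝ)
      ≤ ∑ i ∈ S, c i / ((i.1 * i.2 : ℕ) : ℝ) * Real.log x ^ 2 := by
        refine sum_le_sum fun i hi => ?_
        have hm := boxes_pos hx1 (h.good i hi)
        have hm' := boxes_le hx1 (h.good i hi)
        have h0 := h.nonneg i hi
        have h1 := Pool.Agent.HL.ratio_le (i.1 * i.2) hm
        have h2 : Real.log ((i.1 * i.2 : ℕ) : ℝ) ≤ Real.log x :=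
          Real.log_le_log (by exact_mod_cast hm) (by exact_mod_cast hm')
        have hm0 : (0 : ℝ) < ((i.1 * i.2 : ℕ) : ℝ) := by exact_mod_cast hm
        have ht0 : (0 : ℝ) < ((i.1 * i.2).totient : ℝ) := by exact_mod_cast Nat.totient_pos.2 hm
        have h3 : ((i.1 * i.2 : ℕ) : ℝ) / ((i.1 * i.2).totient : ℝ) ≤ Real.log x ^ 2 := by
          refine h1.trans ?_
          nlinarith
        calc c i / ((i.1 * i.2).totient : ℝ)
            = c i / ((i.1 * i.2 : ℕ) : ℝ) * (((i.1 * i.2 : ℕ) : ℝ) / ((i.1 * i.2).totient : ℝ)) := by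
              field_simp
          _ ≤ _ := by gcongr
    _ = (∑ i ∈ S, c i / ((i.1 * i.2 : ℕ) : ℝ)) * Real.log x ^ 2 := by rw [sum_mul]
    _ ≤ (ρ * Real.log x ^ C₁) * Real.log x ^ 2 := by
        have := h.total
        gcongr
    _ = _ := by ring

/-- functions supported on small `n`, `1 < n ≤ Y`, bounded by the divisor function -/
theorem disc_small (C₁ : ℕ) : ∃ x₀ : ℕ, ∀ x ≥ x₀, ∀ (ρ : ℝ), 0 < ρ → ρ ≤ 1 →
    ∀ (S : Finset (ℕ × ℕ)) (c : ℕ × ℕ → ℝ), Dens x ρ C₁ S c → ∀ (f : ℕ → ℂ) (Y : ℝ), 1 ≤ Y →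
    (∀ n, ‖f n‖ ≤ n.divisors.card) → (∀ n, f n ≠ 0 → 1 < n ∧ (n : ℝ) ≤ Y) → ∀ y ≤ x,
    ∑ i ∈ S, c i * ‖disc f y (i.1 * i.2)‖ ≤ Y * RR x := by
  obtain ⟨x₁, h₁⟩ := small_tau 6
  obtain ⟨x₂, h₂⟩ := small_log (4 * (C₁ + 2)) 1
  obtain ⟨x₃, h₃⟩ := small_log 0 16
  refine ⟨max (max x₁ x₂) (max x₃ (max 3 ⌈Real.exp 3⌉₊)), ?_⟩
  intro x hx ρ hρ0 hρ1 S c hD f Y hY hf hfY y hy
  have hx₁ : x₁ ≤ x := le_trans (le_trans (le_max_left _ _) (le_max_left _ _)) hx
  have hx₂ : x₂ ≤ x := le_trans (le_trans (le_max_right _ _) (le_max_left _ _)) hx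
  have hx₃ : x₃ ≤ x := le_trans (le_trans (le_max_left _ _) (le_max_right _ _)) hx
  have hx₄ : 3 ≤ x := le_trans (le_trans (le_trans (le_max_left _ _) (le_max_right _ _)) (le_max_right _ _)) hx
  have hx₅ : Real.exp 3 ≤ x := by
    have h := le_trans (le_trans (le_trans (le_max_right _ _) (le_max_right _ _)) (le_max_right _ _)) hx
    exact (Nat.le_ceil _).trans (by exact_mod_cast h)
  have hl : 0 < Real.log x := Real.log_pos (by exact_mod_cast (by omega : 1 < x))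
  have hR : 1 ≤ RR x := one_le_RR (by omega)
  have hR16 : 16 ≤ RR x := by have := h₃ x hx₃; simpa using this
  have hlog : (Real.log x ^ (C₁ + 2)) ^ 4 ≤ RR x := by
    have := h₂ x hx₂
    rw [one_mul, mul_comm, pow_mul] at this
    exact this
  -- the square root and the fourth root of `R`
  set s : ℝ := Real.sqrt (Real.sqrt (RR x)) with hs
  have hs0 : 0 < s := Real.sqrt_pos.2 (Real.sqrt_pos.2 (by linarith))
  have hs4 : s ^ 4 = RR x := by
    calc s ^ 4 = (s ^ 2) ^ 2 := by ring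
      _ = (Real.sqrt (RR x)) ^ 2 := by rw [hs, Real.sq_sqrt (Real.sqrt_nonneg _)]
      _ = RR x := Real.sq_sqrt (by linarith)
  have hs2 : 2 ≤ s := by
    by_contra h
    have h' : s ^ 4 < 2 ^ 4 := pow_lt_pow_left₀ (not_le.1 h) hs0.le (by norm_num)
    rw [hs4] at h'
    linarith
  have hs1 : 1 ≤ s := by linarith
  -- divisor bounds
  have htau : ∀ n : ℕ, 0 < n → n ≤ x → (n.divisors.card : ℝ) ^ 3 ≤ s ^ 2 := by
    intro n h0 hn
    have h := h₁ x hx₁ n h0 (hn.trans (Nat.le_self_pow (by norm_num) x))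
    have h' : ((n.divisors.card : ℝ) ^ 3) ^ 2 ≤ (s ^ 2) ^ 2 := by
      calc ((n.divisors.card : ℝ) ^ 3) ^ 2 = (n.divisors.card : ℝ) ^ 6 := by ring
        _ ≤ RR x := h
        _ = (s ^ 2) ^ 2 := by rw [← hs4]; ring
    exact le_of_pow_le_pow_left₀ (by norm_num) (by positivity) h'
  have hlogs : Real.log x ^ (C₁ + 2) ≤ s := by
    rw [← hs4] at hlog
    exact le_of_pow_le_pow_left₀ (by norm_num) hs0.le hlog
  -- the pointwise bound
  set N : Finset ℕ := (Icc 1 y).filter (fun n => 1 < n ∧ (n : ℝ) ≤ Y) with hN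
  have hNcard : (N.card : ℝ) ≤ Y := by
    have : N ⊆ Icc 1 ⌊Y⌋₊ := by
      intro n hn
      rw [hN, mem_filter, mem_Icc] at hn
      rw [mem_Icc]
      exact ⟨hn.1.1, Nat.le_floor hn.2.2⟩
    calc (N.card : ℝ) ≤ ((Icc 1 ⌊Y⌋₊).card : ℝ) := by exact_mod_cast card_le_card this
      _ = (⌊Y⌋₊ : ℝ) := by simp
      _ ≤ Y := Nat.floor_le (by linarith)
  have hdisc : ∀ m : ℕ, 0 < m → ‖disc f y m‖ ≤
      ∑ n ∈ N, (n.divisors.card : ℝ) * ((if n ≡ 1 [MOD m] then 1 else 0) + 1 / (m.totient : ℝ)) := by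
    intro m hm
    rw [disc_eq_Wf]
    have h1 : ∑ n ∈ Icc 1 y, f n * (Wf m n : ℂ) = ∑ n ∈ N, f n * (Wf m n : ℂ) := by
      rw [hN, sum_filter]
      refine sum_congr rfl fun n _ => ?_
      split_ifs with h
      · rfl
      · have : f n = 0 := by
          by_contra h0
          exact h (hfY n h0)
        rw [this, zero_mul]
    rw [h1]
    refine (norm_sum_le _ _).trans (sum_le_sum fun n _ => ?_)
    rw [norm_mul]
    have h2 : ‖(Wf m n : ℂ)‖ ≤ (if n ≡ 1 [MOD m] then 1 else 0) + 1 / (m.totient : ℝ) := by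
      rw [Complex.norm_real, Real.norm_eq_abs]
      have h0 : (0 : ℝ) ≤ 1 / (m.totient : ℝ) := by positivity
      unfold Wf
      rw [abs_le]
      split_ifs <;> constructor <;> linarith
    exact mul_le_mul (hf n) h2 (norm_nonneg _) (by positivity)
  calc ∑ i ∈ S, c i * ‖disc f y (i.1 * i.2)‖
      ≤ ∑ i ∈ S, ∑ n ∈ N, ((n.divisors.card : ℝ) * (if n ≡ 1 [MOD i.1 * i.2] then 1 else 0) +
          s * (c i / ((i.1 * i.2).totient : ℝ))) := by
        refine sum_le_sum fun i hi => ?_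
        have hm := boxes_pos (by omega : 1 ≤ x) (hD.good i hi)
        have h0 := hD.nonneg i hi
        have h1 := hD.le_one i hi
        refine (mul_le_mul_of_nonneg_left (hdisc _ hm) h0).trans ?_
        rw [mul_sum]
        refine sum_le_sum fun n hn => ?_
        rw [hN, mem_filter, mem_Icc] at hn
        have ht := htau n (by omega) (by omega)
        have ht1 : (1 : ℝ) ≤ n.divisors.card := by
          exact_mod_cast Nat.one_le_iff_ne_zero.2 (by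
            rw [Finset.card_ne_zero]; exact ⟨1, Nat.one_mem_divisors.2 (by omega)⟩)
        have hts : (n.divisors.card : ℝ) ≤ s := by
          by_contra h
          have h' : s < n.divisors.card := not_le.1 h
          have h2 : s ^ 3 < (n.divisors.card : ℝ) ^ 3 := pow_lt_pow_left₀ h' hs0.le (by norm_num)
          nlinarith [pow_pos hs0 2]
        have h3 : (0 : ℝ) ≤ if n ≡ 1 [MOD i.1 * i.2] then (1 : ℝ) else 0 := by split_ifs <;> norm_num
        have h4 : 0 ≤ c i / ((i.1 * i.2).totient : ℝ) := by positivity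
        calc c i * ((n.divisors.card : ℝ) * ((if n ≡ 1 [MOD i.1 * i.2] then 1 else 0) +
              1 / ((i.1 * i.2).totient : ℝ)))
            = c i * ((n.divisors.card : ℝ) * (if n ≡ 1 [MOD i.1 * i.2] then 1 else 0)) +
                (n.divisors.card : ℝ) * (c i / ((i.1 * i.2).totient : ℝ)) := by ring
          _ ≤ 1 * ((n.divisors.card : ℝ) * (if n ≡ 1 [MOD i.1 * i.2] then 1 else 0)) +
                s * (c i / ((i.1 * i.2).totient : ℝ)) := by
              gcongr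
          _ = _ := by rw [one_mul]
    _ = ∑ n ∈ N, (n.divisors.card : ℝ) * ((S.filter (fun i => n ≡ 1 [MOD i.1 * i.2])).card : ℝ) +
          N.card * (s * ∑ i ∈ S, c i / ((i.1 * i.2).totient : ℝ)) := by
        simp_rw [sum_add_distrib]
        congr 1
        · rw [sum_comm]
          refine sum_congr rfl fun n _ => ?_
          rw [← mul_sum, sum_boole]
        · rw [mul_sum, mul_sum]
          refine sum_congr rfl fun i _ => ?_
          rw [sum_const, nsmul_eq_mul]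
    _ ≤ ∑ n ∈ N, s ^ 2 + Y * (s * s) := by
        have hphi : ∑ i ∈ S, c i / ((i.1 * i.2).totient : ℝ) ≤ s := by
          refine (boxes_phi hx₅ hD).trans ?_
          calc ρ * Real.log x ^ (C₁ + 2) ≤ 1 * s := by gcongr
            _ = s := one_mul s
        have hphi0 : 0 ≤ ∑ i ∈ S, c i / ((i.1 * i.2).totient : ℝ) :=
          sum_nonneg fun i hi => div_nonneg (hD.nonneg i hi) (Nat.cast_nonneg _)
        refine add_le_add (sum_le_sum fun n hn => ?_) (by gcongr)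
        rw [hN, mem_filter, mem_Icc] at hn
        have ht := htau n (by omega) (by omega)
        have ht' := htau (n - 1) (by omega) (by omega)
        have hcard : ((S.filter (fun i => n ≡ 1 [MOD i.1 * i.2])).card : ℝ) ≤
            ((n - 1).divisors.card : ℝ) ^ 2 := by
          have hsub : S.filter (fun i => n ≡ 1 [MOD i.1 * i.2]) ⊆ (n - 1).divisors ×ˢ (n - 1).divisors := by
            intro i hi
            rw [mem_filter] at hi
            have hdvd : i.1 * i.2 ∣ n - 1 := (Nat.modEq_iff_dvd' (by omega)).1 hi.2.symm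
            rw [mem_product, Nat.mem_divisors, Nat.mem_divisors]
            exact ⟨⟨(Dvd.intro _ rfl).trans hdvd, by omega⟩, ⟨(Dvd.intro_left _ rfl).trans hdvd, by omega⟩⟩
          have := card_le_card hsub
          rw [card_product] at this
          calc ((S.filter (fun i => n ≡ 1 [MOD i.1 * i.2])).card : ℝ)
              ≤ (((n - 1).divisors.card * (n - 1).divisors.card : ℕ) : ℝ) := by exact_mod_cast this
            _ = _ := by push_cast; ring
        set u : ℝ := (n.divisors.card : ℝ) with hu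
        set v : ℝ := ((n - 1).divisors.card : ℝ) with hv
        have hu0 : 0 ≤ u := by rw [hu]; positivity
        have hv0 : 0 ≤ v := by rw [hv]; positivity
        calc u * ((S.filter (fun i => n ≡ 1 [MOD i.1 * i.2])).card : ℝ) ≤ u * v ^ 2 := by gcongr
          _ ≤ s ^ 2 := by
            rcases le_total u v with huv | huv
            · calc u * v ^ 2 ≤ v * v ^ 2 := by gcongr
                _ = v ^ 3 := by ring
                _ ≤ s ^ 2 := ht'
            · calc u * v ^ 2 ≤ u * u ^ 2 := by gcongr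
                _ = u ^ 3 := by ring
                _ ≤ s ^ 2 := ht
    _ = N.card * s ^ 2 + Y * s ^ 2 := by rw [sum_const, nsmul_eq_mul]; ring
    _ ≤ Y * s ^ 2 + Y * s ^ 2 := by gcongr
    _ = Y * (2 * s ^ 2) := by ring
    _ ≤ Y * s ^ 4 := by
        have : 2 * s ^ 2 ≤ s ^ 4 := by nlinarith [pow_pos hs0 2]
        gcongr
    _ = Y * RR x := by rw [hs4]

/-! ### One box of the grid -/

/-- the hypotheses coming from `thm_box`, for given `x`, `S`, `c` -/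
def BoxE (x : ℕ) (S : Finset (ℕ × ℕ)) (c : ℕ × ℕ → ℝ) (E : ℝ) : Prop :=
  ∀ K L : ℕ, L ≤ K → K * L ≤ x →
    (x : ℝ) ≤ K * L * RR x ^ 12 → (x : ℝ) ^ 2 * RR x ^ 4900 ≤ (L : ℝ) ^ 5 →
    ∀ α β : ℕ → ℂ, (∀ k, ‖α k‖ ≤ 1) → (∀ l, ‖β l‖ ≤ 1) → Struct β →
    ‖∑ i ∈ S, (c i : ℂ) * Dab α β K L (i.1 * i.2)‖ ≤ E

theorem box_sym {x : ℕ} {S : Finset (ℕ × ℕ)} {c : ℕ × ℕ → ℝ} {E : ℝ} (h : BoxE x S c E) {K L : ℕ}
    (h1 : K * L ≤ x) (h2 : (x : ℝ) ≤ K * L * RR x ^ 12) (h3 : (x : ℝ) ^ 2 * RR x ^ 4900 ≤ (K : ℝ) ^ 5)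
    (h4 : (x : ℝ) ^ 2 * RR x ^ 4900 ≤ (L : ℝ) ^ 5) {α β : ℕ → ℂ} (hα : ∀ k, ‖α k‖ ≤ 1) (hβ : ∀ l, ‖β l‖ ≤ 1)
    (hsα : Struct α) (hsβ : Struct β) : ‖∑ i ∈ S, (c i : ℂ) * Dab α β K L (i.1 * i.2)‖ ≤ E := by
  rcases le_total L K with hLK | hKL
  · exact h K L hLK h1 h2 h4 α β hα hβ hsβ
  · simp_rw [Dab_comm α β K L]
    refine h L K hKL (by rw [mul_comm]; exact h1) ?_ h3 β α hβ hα hsα
    calc (x : ℝ) ≤ K * L * RR x ^ 12 := h2
      _ = L * K * RR x ^ 12 := by ring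

/-- the part where the condition `d e ≤ y` cuts the box -/
theorem box_cross {g g' T y m : ℕ} (hg : 0 < g) (hg2 : g' ≤ 2 * g) (hm : 0 < m)
    {α β : ℕ → ℂ} (hα1 : ∀ n, ‖α n‖ ≤ 1) (hβ1 : ∀ n, ‖β n‖ ≤ 1) (hα : ∀ n, α n ≠ 0 → g ≤ n ∧ n < g')
    (hβ : ∀ n, β n ≠ 0 → T ≤ n ∧ n < 2 * T ∧ y < n * g') :
    ‖DD α β y m‖ ≤ (Dab (fun n => if g ≤ n ∧ n < g' then 1 else 0)
        (fun n => if y / g' + 1 ≤ n ∧ n < y / g + 1 then 1 else 0) g T m).re +
      2 / (m.totient : ℝ) * ((((g' - g : ℕ) : ℝ)) * ((y / g - y / g' : ℕ) : ℝ)) := by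
  set a : ℕ → ℝ := fun n => if g ≤ n ∧ n < g' then 1 else 0 with ha
  set b : ℕ → ℝ := fun n => if y / g' + 1 ≤ n ∧ n < y / g + 1 then 1 else 0 with hb
  have ha0 : ∀ n, 0 ≤ a n := fun n => by simp only [ha]; split_ifs <;> norm_num
  have hb0 : ∀ n, 0 ≤ b n := fun n => by simp only [hb]; split_ifs <;> norm_num
  have hφ0 : (0 : ℝ) < m.totient := by exact_mod_cast Nat.totient_pos.2 hm
  set P := Icc 1 y ×ˢ Icc 1 y with hP
  set P₂ := Ico g (2 * g) ×ˢ Ico T (2 * T) with hP₂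
  -- pointwise
  have hpt : ∀ p ∈ P, ‖α p.1 * β p.2 * ww y m p‖ ≤
      if p ∈ P₂ then a p.1 * b p.2 * |Wf m (p.1 * p.2)| else 0 := by
    intro p hp
    by_cases h1 : α p.1 = 0
    · rw [h1]; split_ifs
      · rw [zero_mul, zero_mul, norm_zero]; exact mul_nonneg (mul_nonneg (ha0 _) (hb0 _)) (abs_nonneg _)
      · simp
    by_cases h2 : β p.2 = 0
    · rw [h2]; split_ifs
      · rw [mul_zero, zero_mul, norm_zero]; exact mul_nonneg (mul_nonneg (ha0 _) (hb0 _)) (abs_nonneg _)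
      · simp
    unfold ww
    by_cases h3 : p.1 * p.2 ≤ y
    · rw [if_pos h3]
      have h4 := hα _ h1
      have h5 := hβ _ h2
      have h6 : p ∈ P₂ := by
        rw [hP₂, mem_product, mem_Ico, mem_Ico]
        exact ⟨⟨h4.1, by omega⟩, ⟨h5.1, h5.2.1⟩⟩
      have h7 : y / g' < p.2 := by
        rw [Nat.div_lt_iff_lt_mul (by omega)]; exact h5.2.2
      have h8 : p.2 ≤ y / g := by
        rw [Nat.le_div_iff_mul_le hg, mul_comm]
        exact (Nat.mul_le_mul_right _ h4.1).trans h3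
      rw [if_pos h6]
      have h9 : a p.1 = 1 := by simp only [ha]; rw [if_pos h4]
      have h10 : b p.2 = 1 := by simp only [hb]; rw [if_pos ⟨by omega, by omega⟩]
      rw [h9, h10, norm_mul, norm_mul, Complex.norm_real, Real.norm_eq_abs]
      have h11 := hα1 p.1
      have h12 := hβ1 p.2
      have : ‖α p.1‖ * ‖β p.2‖ ≤ 1 * 1 := mul_le_mul h11 h12 (norm_nonneg _) zero_le_one
      exact mul_le_mul_of_nonneg_right this (abs_nonneg _)
    · rw [if_neg h3, mul_zero, norm_zero]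
      split_ifs
      · exact mul_nonneg (mul_nonneg (ha0 _) (hb0 _)) (abs_nonneg _)
      · exact le_rfl
  have hDab : (Dab (fun n => if g ≤ n ∧ n < g' then 1 else 0)
        (fun n => if y / g' + 1 ≤ n ∧ n < y / g + 1 then 1 else 0) g T m) =
      ((∑ p ∈ P₂, a p.1 * b p.2 * Wf m (p.1 * p.2) : ℝ) : ℂ) := by
    rw [Dab_eq_Wf]
    push_cast
    refine sum_congr rfl fun p _ => ?_
    simp only [ha, hb]
    split_ifs <;> push_cast <;> ring
  calc ‖DD α β y m‖ ≤ ∑ p ∈ P, ‖α p.1 * β p.2 * ww y m p‖ := norm_sum_le _ _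
    _ ≤ ∑ p ∈ P, (if p ∈ P₂ then a p.1 * b p.2 * |Wf m (p.1 * p.2)| else 0) := sum_le_sum hpt
    _ = ∑ p ∈ P.filter (fun p => p ∈ P₂), a p.1 * b p.2 * |Wf m (p.1 * p.2)| := by rw [sum_filter]
    _ ≤ ∑ p ∈ P₂, a p.1 * b p.2 * |Wf m (p.1 * p.2)| :=
        sum_le_sum_of_subset_of_nonneg (fun p hp => (mem_filter.1 hp).2)
          (fun p _ _ => mul_nonneg (mul_nonneg (ha0 _) (hb0 _)) (abs_nonneg _))
    _ ≤ ∑ p ∈ P₂, (a p.1 * b p.2 * Wf m (p.1 * p.2) + 2 / (m.totient : ℝ) * (a p.1 * b p.2)) := by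
        refine sum_le_sum fun p _ => ?_
        have h1 := abs_Wf_le hm (p.1 * p.2)
        have h2 : 0 ≤ a p.1 * b p.2 := mul_nonneg (ha0 _) (hb0 _)
        calc a p.1 * b p.2 * |Wf m (p.1 * p.2)| ≤ a p.1 * b p.2 * (Wf m (p.1 * p.2) + 2 / (m.totient : ℝ)) :=
              mul_le_mul_of_nonneg_left h1 h2
          _ = _ := by ring
    _ = ∑ p ∈ P₂, a p.1 * b p.2 * Wf m (p.1 * p.2) +
          2 / (m.totient : ℝ) * ((∑ d ∈ Ico g (2 * g), a d) * ∑ e ∈ Ico T (2 * T), b e) := by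
        rw [sum_add_distrib, ← mul_sum, hP₂, sum_product (f := fun p : ℕ × ℕ => a p.1 * b p.2), sum_mul_sum]
    _ ≤ _ := by
        rw [hDab, Complex.ofReal_re]
        have h1 : ∑ d ∈ Ico g (2 * g), a d ≤ ((g' - g : ℕ) : ℝ) := by
          simp only [ha]
          rw [sum_boole]
          have : (Ico g (2 * g)).filter (fun n => g ≤ n ∧ n < g') ⊆ Ico g g' := by
            intro n hn
            rw [mem_filter] at hn
            rw [mem_Ico]; exact hn.2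
          have := card_le_card this
          rw [Nat.card_Ico] at this
          exact_mod_cast this
        have h2 : ∑ e ∈ Ico T (2 * T), b e ≤ ((y / g - y / g' : ℕ) : ℝ) := by
          simp only [hb]
          rw [sum_boole]
          have : (Ico T (2 * T)).filter (fun n => y / g' + 1 ≤ n ∧ n < y / g + 1) ⊆
              Ico (y / g' + 1) (y / g + 1) := by
            intro n hn
            rw [mem_filter] at hn
            rw [mem_Ico]; exact hn.2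
          have := card_le_card this
          rw [Nat.card_Ico] at this
          have h3 : y / g + 1 - (y / g' + 1) = y / g - y / g' := by omega
          rw [h3] at this
          exact_mod_cast this
        have h3 : 0 ≤ ∑ e ∈ Ico T (2 * T), b e := sum_nonneg fun _ _ => hb0 _
        have h4 : (∑ d ∈ Ico g (2 * g), a d) * ∑ e ∈ Ico T (2 * T), b e ≤
            ((g' - g : ℕ) : ℝ) * ((y / g - y / g' : ℕ) : ℝ) := mul_le_mul h1 h2 h3 (by positivity)
        have h5 : 0 ≤ 2 / (m.totient : ℝ) := by positivity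
        have h6 := mul_le_mul_of_nonneg_left h4 h5
        linarith

/-- the number of pairs in the crossing part -/
theorem box_count {x y g Q : ℕ} (hy : y ≤ x) (hg : 0 < g) (hQ : 0 < Q) (hQg : Q ≤ g) (hx : Q * g ≤ x) :
    (((g + g / Q + 1 - g : ℕ) : ℝ)) * ((y / g - y / (g + g / Q + 1) : ℕ) : ℝ) ≤ 6 * x / (Q : ℝ) ^ 2 := by
  have hq0 := Nat.zero_le (g / Q)
  have hg0 : (0 : ℝ) < g := by exact_mod_cast hg
  have hQ0 : (0 : ℝ) < Q := by exact_mod_cast hQ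
  have hQg' : (Q : ℝ) ≤ g := by exact_mod_cast hQg
  have hx' : (Q : ℝ) * g ≤ x := by exact_mod_cast hx
  have hy' : (y : ℝ) ≤ x := by exact_mod_cast hy
  have h1 : ((g + g / Q + 1 - g : ℕ) : ℝ) ≤ 2 * g / Q := by
    have h2 : g + g / Q + 1 - g = g / Q + 1 := by omega
    rw [h2]
    push_cast
    have h3 : ((g / Q : ℕ) : ℝ) ≤ g / Q := Nat.cast_div_le
    have h4 : (1 : ℝ) ≤ g / Q := by rw [le_div_iff₀ hQ0]; linarith
    calc ((g / Q : ℕ) : ℝ) + 1 ≤ g / Q + g / Q := by linarith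
      _ = 2 * g / Q := by ring
  have h5 : ((y / g - y / (g + g / Q + 1) : ℕ) : ℝ) ≤ 3 * x / (Q * g) := by
    have hle : y / (g + g / Q + 1) ≤ y / g := Nat.div_le_div_left (by omega) hg
    rw [Nat.cast_sub hle]
    have h6 : ((y / g : ℕ) : ℝ) ≤ y / g := Nat.cast_div_le
    set G : ℕ := g + g / Q + 1 with hG
    have hG0 : (0 : ℝ) < G := by
      have : 0 < G := by omega
      exact_mod_cast this
    have h7 : (y : ℝ) / G ≤ ((y / G : ℕ) : ℝ) + 1 :=
      (Nat.lt_floor_add_one (R := ℝ) _).le.trans (by rw [Nat.floor_div_eq_div])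
    have h8 : (G : ℝ) - g ≤ 2 * g / Q := by
      have : ((G - g : ℕ) : ℝ) = (G : ℝ) - g := by
        rw [Nat.cast_sub (by omega)]
      rw [← this]; exact h1
    have h9 : (y : ℝ) / g - y / G ≤ 2 * x / (Q * g) := by
      have hgG : (g : ℝ) ≤ G := by
        have : g ≤ G := by omega
        exact_mod_cast this
      calc (y : ℝ) / g - y / G = y * (G - g) / (g * G) := by field_simp
        _ ≤ x * (2 * g / Q) / (g * g) := by
            have : 0 ≤ (G : ℝ) - g := by linarith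
            gcongr
        _ = 2 * x / (Q * g) := by field_simp
    have h10 : (1 : ℝ) ≤ x / (Q * g) := by rw [le_div_iff₀ (by positivity)]; linarith
    calc ((y / g : ℕ) : ℝ) - ((y / G : ℕ) : ℝ) ≤ 2 * x / (Q * g) + x / (Q * g) := by linarith
      _ = 3 * x / (Q * g) := by ring
  calc ((g + g / Q + 1 - g : ℕ) : ℝ) * ((y / g - y / (g + g / Q + 1) : ℕ) : ℝ)
      ≤ (2 * g / Q) * (3 * x / (Q * g)) := mul_le_mul h1 h5 (by positivity) (by positivity)
    _ = 6 * x / (Q : ℝ) ^ 2 := by field_simp; ring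

theorem box_one {x : ℕ} {S : Finset (ℕ × ℕ)} {c : ℕ × ℕ → ℝ} {E Φ : ℝ} (hc : ∀ i ∈ S, 0 ≤ c i)
    (hS : ∀ i ∈ S, 0 < i.1 * i.2) (hbox : BoxE x S c E) (hE : 0 ≤ E)
    (hsmall : ∀ (f : ℕ → ℂ) (Y : ℝ), 1 ≤ Y → (∀ n, ‖f n‖ ≤ n.divisors.card) →
      (∀ n, f n ≠ 0 → 1 < n ∧ (n : ℝ) ≤ Y) → ∀ y ≤ x, ∑ i ∈ S, c i * ‖disc f y (i.1 * i.2)‖ ≤ Y * RR x)
    (hΦ : ∑ i ∈ S, c i / ((i.1 * i.2).totient : ℝ) ≤ Φ) (hx : 1 ≤ x) {D : ℕ} (hD5 : (x : ℝ) ^ 2 * RR x ^ 5000 ≤ (D : ℝ) ^ 5)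
    {Q : ℕ} (hQ : 2 ≤ Q) (hQD : Q ≤ D) {g T : ℕ} (hDg : D ≤ g) (hgD : g * D ≤ x) (hT : 0 < T)
    {α β : ℕ → ℂ} (hα1 : ∀ n, ‖α n‖ ≤ 1) (hβ1 : ∀ n, ‖β n‖ ≤ 1)
    (hα : ∀ n, α n ≠ 0 → g ≤ n ∧ n < g + g / Q + 1) (hβ : ∀ n, β n ≠ 0 → T ≤ n ∧ n < 2 * T)
    (hsα : Struct α) (hsβ : Struct β) {y : ℕ} (hy : y ≤ x) :
    ‖∑ i ∈ S, (c i : ℂ) * DD α β y (i.1 * i.2)‖ ≤ 2 * E + 12 * x / (Q : ℝ) ^ 2 * Φ + 4 * x / RR x ^ 11 := by
  have hx0 : (0 : ℝ) < x := by exact_mod_cast hx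
  have hR : 1 ≤ RR x := one_le_RR hx
  have hR0 : 0 < RR x := by linarith
  have hΦ0 : 0 ≤ Φ := (sum_nonneg fun i hi => div_nonneg (hc i hi) (Nat.cast_nonneg _)).trans hΦ
  have hg2 : 2 ≤ g := by omega
  have hgQ : g / Q + 1 ≤ g := by
    have h1 : g / Q ≤ g / 2 := Nat.div_le_div_left hQ (by norm_num)
    omega
  have hQ0 : (0 : ℝ) < Q := by exact_mod_cast (by omega : 0 < Q)
  have hq0 := Nat.zero_le (g / Q)
  set g' : ℕ := g + g / Q + 1 with hg'
  have hp1 : 0 ≤ 12 * x / (Q : ℝ) ^ 2 * Φ := by positivity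
  have hp2 : 0 ≤ 4 * x / RR x ^ 11 := by positivity
  -- too large: empty
  by_cases h1 : x < g * T
  · have : ∀ m, DD α β y m = 0 := by
      intro m
      unfold DD
      refine sum_eq_zero fun p _ => ?_
      by_cases h2 : α p.1 = 0
      · rw [h2]; ring
      by_cases h3 : β p.2 = 0
      · rw [h3]; ring
      unfold ww
      rw [if_neg, mul_zero]
      have h4 := hα _ h2
      have h5 := hβ _ h3
      have : g * T ≤ p.1 * p.2 := Nat.mul_le_mul h4.1 h5.1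
      omega
    simp_rw [this, mul_zero, sum_const_zero, norm_zero]
    linarith
  have h1' : g * T ≤ x := not_lt.1 h1
  -- too small
  by_cases h2 : (g : ℝ) * T * RR x ^ 12 < x
  · have h3 : ∀ i ∈ S, (c i : ℂ) * DD α β y (i.1 * i.2) =
        (c i : ℂ) * disc (fun n => ∑ d ∈ n.divisors, α d * β (n / d)) y (i.1 * i.2) := by
      intro i _
      rw [disc_eq_DD]
    rw [sum_congr rfl h3]
    have h4 : ‖∑ i ∈ S, (c i : ℂ) * disc (fun n => ∑ d ∈ n.divisors, α d * β (n / d)) y (i.1 * i.2)‖ ≤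
        ∑ i ∈ S, c i * ‖disc (fun n => ∑ d ∈ n.divisors, α d * β (n / d)) y (i.1 * i.2)‖ := by
      refine (norm_sum_le _ _).trans (sum_le_sum fun i hi => ?_)
      rw [norm_mul, Complex.norm_real, Real.norm_of_nonneg (hc i hi)]
    have hY : 1 ≤ 4 * x / RR x ^ 12 := by
      rw [le_div_iff₀ (by positivity), one_mul]
      calc RR x ^ 12 ≤ RR x ^ 1000000 := pow_le_pow_right₀ hR (by norm_num)
        _ = x := RR_pow x
        _ ≤ 4 * x := by linarith
    have h5 := hsmall (fun n => ∑ d ∈ n.divisors, α d * β (n / d)) (4 * x / RR x ^ 12) hY ?_ ?_ y hy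
    · have h6 : 4 * x / RR x ^ 12 * RR x = 4 * x / RR x ^ 11 := by
        field_simp
      rw [h6] at h5
      linarith
    · intro n
      refine (norm_sum_le _ _).trans ?_
      calc ∑ d ∈ n.divisors, ‖α d * β (n / d)‖ ≤ ∑ d ∈ n.divisors, (1 : ℝ) := by
            refine sum_le_sum fun d _ => ?_
            rw [norm_mul]
            exact mul_le_one₀ (hα1 _) (norm_nonneg _) (hβ1 _)
        _ = _ := by simp
    · intro n hn
      obtain ⟨d, hd, hne⟩ := Finset.exists_ne_zero_of_sum_ne_zero hn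
      have h6 := hα d (left_ne_zero_of_mul hne)
      have h7 := hβ (n / d) (right_ne_zero_of_mul hne)
      have h8 : d * (n / d) = n := Nat.mul_div_cancel' (Nat.dvd_of_mem_divisors hd)
      have h9 : g * T ≤ n := by rw [← h8]; exact Nat.mul_le_mul h6.1 h7.1
      have h10 : n ≤ (2 * g) * (2 * T) := by
        rw [← h8]; exact Nat.mul_le_mul (by omega) (by omega)
      refine ⟨?_, ?_⟩
      · have : 2 * 1 ≤ g * T := Nat.mul_le_mul hg2 hT
        omega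
      · rw [le_div_iff₀ (by positivity)]
        have h11 : (n : ℝ) ≤ (2 * g) * (2 * T) := by exact_mod_cast h10
        calc (n : ℝ) * RR x ^ 12 ≤ (2 * g) * (2 * T) * RR x ^ 12 := by gcongr
          _ = 4 * (g * T * RR x ^ 12) := by ring
          _ ≤ 4 * x := by linarith
  -- main case
  have h2' : (x : ℝ) ≤ g * T * RR x ^ 12 := not_lt.1 h2
  have hg5 : (x : ℝ) ^ 2 * RR x ^ 4900 ≤ (g : ℝ) ^ 5 := by
    calc (x : ℝ) ^ 2 * RR x ^ 4900 ≤ (x : ℝ) ^ 2 * RR x ^ 5000 := by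
          gcongr
          norm_num
      _ ≤ (D : ℝ) ^ 5 := hD5
      _ ≤ (g : ℝ) ^ 5 := by gcongr
  have hT5 : (x : ℝ) ^ 2 * RR x ^ 4900 ≤ (T : ℝ) ^ 5 := by
    have h3 : (D : ℝ) ≤ T * RR x ^ 12 := by
      have h4 : (g : ℝ) * D ≤ x := by exact_mod_cast hgD
      have hg0 : (0 : ℝ) < g := by exact_mod_cast (by omega : 0 < g)
      have h5 : (g : ℝ) * D ≤ g * (T * RR x ^ 12) := by
        calc (g : ℝ) * D ≤ x := h4
          _ ≤ g * T * RR x ^ 12 := h2'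
          _ = _ := by ring
      exact le_of_mul_le_mul_left h5 hg0
    have h4 : (x : ℝ) ^ 2 * RR x ^ 5000 ≤ (T : ℝ) ^ 5 * RR x ^ 60 := by
      calc (x : ℝ) ^ 2 * RR x ^ 5000 ≤ (D : ℝ) ^ 5 := hD5
        _ ≤ (T * RR x ^ 12) ^ 5 := by gcongr
        _ = (T : ℝ) ^ 5 * RR x ^ 60 := by ring
    have h5 : (x : ℝ) ^ 2 * RR x ^ 4900 * RR x ^ 60 ≤ (T : ℝ) ^ 5 * RR x ^ 60 := by
      calc (x : ℝ) ^ 2 * RR x ^ 4900 * RR x ^ 60 = (x : ℝ) ^ 2 * RR x ^ 4960 := by ring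
        _ ≤ (x : ℝ) ^ 2 * RR x ^ 5000 := by
            gcongr
            norm_num
        _ ≤ _ := h4
    exact le_of_mul_le_mul_right h5 (by positivity)
  -- split `β`
  set β₁ : ℕ → ℂ := fun n => if 0 ≤ n ∧ n < y / g' + 1 then β n else 0 with hβ₁
  set β₂ : ℕ → ℂ := fun n => if y / g' + 1 ≤ n ∧ n < 2 * T then β n else 0 with hβ₂
  have hg'0 : 0 < g' := by omega
  have hsplit : ∀ m, DD α β y m = DD α β₁ y m + DD α β₂ y m := by
    intro m
    unfold DD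
    rw [← sum_add_distrib]
    refine sum_congr rfl fun p _ => ?_
    have : β p.2 = β₁ p.2 + β₂ p.2 := by
      simp only [hβ₁, hβ₂]
      by_cases h3 : p.2 < y / g' + 1
      · rw [if_pos ⟨Nat.zero_le _, h3⟩, if_neg (by omega), add_zero]
      · rw [if_neg (by omega), zero_add]
        split_ifs with h4
        · rfl
        · by_contra h5
          exact h4 ⟨by omega, (hβ _ h5).2⟩
    rw [this]; ring
  have hβ₁n : ∀ n, ‖β₁ n‖ ≤ 1 := by
    intro n; simp only [hβ₁]; split_ifs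
    · exact hβ1 n
    · simp
  have hβ₂n : ∀ n, ‖β₂ n‖ ≤ 1 := by
    intro n; simp only [hβ₂]; split_ifs
    · exact hβ1 n
    · simp
  have hβ₁s : ∀ n, β₁ n ≠ 0 → (T ≤ n ∧ n < 2 * T) ∧ n * g' ≤ y := by
    intro n hn
    simp only [hβ₁] at hn
    split_ifs at hn with h3
    · refine ⟨hβ n hn, ?_⟩
      have : n ≤ y / g' := by omega
      exact (Nat.le_div_iff_mul_le hg'0).1 this
    · exact absurd rfl hn
  have hβ₂s : ∀ n, β₂ n ≠ 0 → T ≤ n ∧ n < 2 * T ∧ y < n * g' := by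
    intro n hn
    simp only [hβ₂] at hn
    split_ifs at hn with h3
    · refine ⟨(hβ n hn).1, (hβ n hn).2, ?_⟩
      have : y / g' < n := by omega
      exact (Nat.div_lt_iff_lt_mul hg'0).1 this
    · exact absurd rfl hn
  -- the main part
  have hmain : ‖∑ i ∈ S, (c i : ℂ) * DD α β₁ y (i.1 * i.2)‖ ≤ E := by
    have h3 : ∀ i ∈ S, (c i : ℂ) * DD α β₁ y (i.1 * i.2) = (c i : ℂ) * Dab α β₁ g T (i.1 * i.2) := by
      intro i _
      have h6 : ∀ d, α d ≠ 0 → g ≤ d ∧ d < 2 * g := by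
        intro d hd
        have := hα d hd; omega
      have h7 : ∀ d e, α d ≠ 0 → β₁ e ≠ 0 → d * e ≤ y := by
        intro d e hd he
        have h4 := hα d hd
        have h5 := (hβ₁s e he).2
        calc d * e ≤ g' * e := Nat.mul_le_mul_right _ h4.2.le
          _ = e * g' := mul_comm _ _
          _ ≤ y := h5
      rw [DD_eq_Dab (by omega) hT h6 (fun e he => (hβ₁s e he).1) h7]
    rw [sum_congr rfl h3]
    exact box_sym hbox h1' h2' hg5 hT5 hα1 hβ₁n hsα (hsβ.ind _ _)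
  -- the crossing part
  have hcross : ‖∑ i ∈ S, (c i : ℂ) * DD α β₂ y (i.1 * i.2)‖ ≤ E + 12 * x / (Q : ℝ) ^ 2 * Φ := by
    set a : ℕ → ℂ := fun n => if g ≤ n ∧ n < g' then 1 else 0 with ha
    set b : ℕ → ℂ := fun n => if y / g' + 1 ≤ n ∧ n < y / g + 1 then 1 else 0 with hb
    have h3 := box_sym hbox h1' h2' hg5 hT5 (α := a) (β := b)
      (fun n => by simp only [ha]; split_ifs <;> simp) (fun n => by simp only [hb]; split_ifs <;> simp)
      (struct_one.ind g g') (struct_one.ind (y / g' + 1) (y / g + 1))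
    have h4 : ∑ i ∈ S, c i * (Dab a b g T (i.1 * i.2)).re ≤ E := by
      have h5 : ∑ i ∈ S, c i * (Dab a b g T (i.1 * i.2)).re =
          (∑ i ∈ S, (c i : ℂ) * Dab a b g T (i.1 * i.2)).re := by
        rw [Complex.re_sum]
        refine sum_congr rfl fun i _ => ?_
        rw [Complex.re_ofReal_mul]
      rw [h5]
      exact (Complex.re_le_norm _).trans h3
    have h6 := box_count (x := x) (y := y) (g := g) (Q := Q) hy (by omega) (by omega) (by omega)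
      (by
        calc Q * g ≤ D * g := Nat.mul_le_mul_right _ hQD
          _ = g * D := mul_comm _ _
          _ ≤ x := hgD)
    calc ‖∑ i ∈ S, (c i : ℂ) * DD α β₂ y (i.1 * i.2)‖ ≤ ∑ i ∈ S, c i * ‖DD α β₂ y (i.1 * i.2)‖ := by
          refine (norm_sum_le _ _).trans (sum_le_sum fun i hi => ?_)
          rw [norm_mul, Complex.norm_real, Real.norm_of_nonneg (hc i hi)]
      _ ≤ ∑ i ∈ S, (c i * (Dab a b g T (i.1 * i.2)).re +
            2 * (6 * x / (Q : ℝ) ^ 2) * (c i / ((i.1 * i.2).totient : ℝ))) := by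
          refine sum_le_sum fun i hi => ?_
          have h7 := box_cross (y := y) (g := g) (g' := g') (T := T) (by omega) (by omega) (hS i hi)
            hα1 hβ₂n hα hβ₂s
          have h8 : (0 : ℝ) < ((i.1 * i.2).totient : ℝ) := by exact_mod_cast Nat.totient_pos.2 (hS i hi)
          have h9 := hc i hi
          calc c i * ‖DD α β₂ y (i.1 * i.2)‖ ≤ c i * ((Dab a b g T (i.1 * i.2)).re +
                2 / ((i.1 * i.2).totient : ℝ) * ((((g' - g : ℕ) : ℝ)) * ((y / g - y / g' : ℕ) : ℝ))) :=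
                mul_le_mul_of_nonneg_left h7 h9
            _ ≤ c i * ((Dab a b g T (i.1 * i.2)).re + 2 / ((i.1 * i.2).totient : ℝ) * (6 * x / (Q : ℝ) ^ 2)) := by
                gcongr
            _ = _ := by ring
      _ = ∑ i ∈ S, c i * (Dab a b g T (i.1 * i.2)).re +
            12 * x / (Q : ℝ) ^ 2 * ∑ i ∈ S, (c i / ((i.1 * i.2).totient : ℝ)) := by
          rw [sum_add_distrib, ← mul_sum]
          ring
      _ ≤ E + 12 * x / (Q : ℝ) ^ 2 * Φ := by gcongr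
  calc ‖∑ i ∈ S, (c i : ℂ) * DD α β y (i.1 * i.2)‖
      = ‖∑ i ∈ S, (c i : ℂ) * DD α β₁ y (i.1 * i.2) + ∑ i ∈ S, (c i : ℂ) * DD α β₂ y (i.1 * i.2)‖ := by
        rw [← sum_add_distrib]
        congr 1
        refine sum_congr rfl fun i _ => ?_
        rw [hsplit]; ring
    _ ≤ E + (E + 12 * x / (Q : ℝ) ^ 2 * Φ) := (norm_add_le _ _).trans (add_le_add hmain hcross)
    _ ≤ _ := by linarith

/-! ### Convolutions -/

theorem D_five (x : ℕ) : (x : ℝ) ^ 2 * RR x ^ 5000 ≤ (Dx x : ℝ) ^ 5 := by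
  rcases Nat.eq_zero_or_pos x with h0 | h0
  · subst h0; simp
  have hx0 : (0 : ℝ) < x := by exact_mod_cast h0
  have h1 : (x : ℝ) ^ (401 / 1000 : ℝ) ≤ Dx x := Nat.le_ceil _
  calc (x : ℝ) ^ 2 * RR x ^ 5000 = ((x : ℝ) ^ (401 / 1000 : ℝ)) ^ 5 := by
        rw [RR_pow_eq, ← Real.rpow_natCast, ← Real.rpow_add hx0, ← Real.rpow_natCast, ← Real.rpow_mul hx0.le]
        norm_num
    _ ≤ _ := by gcongr

theorem RR_le_Dx {x : ℕ} (hx : 1 ≤ x) : RR x ≤ Dx x := by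
  have hx1 : (1 : ℝ) ≤ x := by exact_mod_cast hx
  calc RR x ≤ (x : ℝ) ^ (401 / 1000 : ℝ) := Real.rpow_le_rpow_of_exponent_le hx1 (by norm_num)
    _ ≤ _ := Nat.le_ceil _

theorem disc_conv_of (hbox : BoxH) (A C₁ : ℕ) : ∃ C : ℝ, 0 < C ∧ ∃ x₀ : ℕ, ∀ x ≥ x₀, ∀ ρ : ℝ,
    1 ≤ ρ ^ 4 * RR x → ρ ≤ 1 →
    0 < ρ → ∀ (S : Finset (ℕ × ℕ)) (c : ℕ × ℕ → ℝ), Dens x ρ C₁ S c → ∀ a b : ℕ → ℂ, (∀ n, ‖a n‖ ≤ 1) →
    (∀ n, ‖b n‖ ≤ 1) → Struct a → Struct b → (∀ n, a n ≠ 0 → Dx x ≤ n ∧ n * Dx x ≤ x) →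
    (∀ n, b n ≠ 0 → x ^ 2 ≤ n ^ 5) → ∀ y ≤ x,
    ‖∑ i ∈ S, (c i : ℂ) * disc (fun n => ∑ d ∈ n.divisors, a d * b (n / d)) y (i.1 * i.2)‖ ≤
      C * ρ * x / Real.log x ^ A := by
  obtain ⟨C, hC, x₁, h₁⟩ := hbox (A + (A + C₁ + 4) + 2) C₁
  obtain ⟨x₂, h₂⟩ := disc_small C₁
  obtain ⟨x₃, h₃⟩ := small_log (A + C₁ + 4) 2
  obtain ⟨x₄, h₄⟩ := small_log (A + (A + C₁ + 4) + 2) 96
  refine ⟨48 * C + 145, by positivity, max (max x₁ x₂) (max (max x₃ x₄) (max 3 ⌈Real.exp 3⌉₊)), ?_⟩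
  intro x hx ρ hρR hρ1 hρ0 S c hD a b ha hb hsa hsb haD _ y hy
  simp only [ge_iff_le, max_le_iff] at hx
  obtain ⟨⟨hx₁, hx₂⟩, ⟨hx₃, hx₄⟩, hx₅, hx₆⟩ := hx
  have hx1 : 1 ≤ x := by omega
  have hx0 : (0 : ℝ) < x := by exact_mod_cast hx1
  have hexp : Real.exp 3 ≤ x := (Nat.le_ceil _).trans (by exact_mod_cast hx₆)
  set L : ℝ := Real.log x with hL
  have hL3 : 3 ≤ L := by
    have := Real.log_le_log (Real.exp_pos 3) hexp
    rwa [Real.log_exp] at this
  have hL0 : 0 < L := by linarith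
  have hR : 1 ≤ RR x := one_le_RR hx1
  have hR0 : 0 < RR x := by linarith
  set A' : ℕ := A + C₁ + 4 with hA'
  set Q : ℕ := ⌈L ^ A'⌉₊ with hQdef
  have hLA1 : 1 ≤ L ^ A' := one_le_pow₀ (by linarith)
  have hQlo : L ^ A' ≤ Q := Nat.le_ceil _
  have hQhi : (Q : ℝ) ≤ 2 * L ^ A' := by
    have := Nat.ceil_lt_add_one (R := ℝ) (a := L ^ A') (by positivity)
    linarith
  have hQ2 : 2 ≤ Q := by
    have h5 : (2 : ℝ) ≤ Q := by
      calc (2 : ℝ) ≤ L := by linarith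
        _ ≤ L ^ A' := le_self_pow₀ (by linarith) (by omega)
        _ ≤ Q := hQlo
    exact_mod_cast h5
  have hQ0 : (0 : ℝ) < Q := by exact_mod_cast (by omega : 0 < Q)
  have hQD : Q ≤ Dx x := by
    have h5 : (Q : ℝ) ≤ Dx x := hQhi.trans ((h₃ x hx₃).trans (RR_le_Dx hx1))
    exact_mod_cast h5
  set D : ℕ := Dx x with hDdef
  set E : ℝ := C * ρ * x / L ^ (A + A' + 2) with hE
  have hE0 : 0 ≤ E := by positivity
  set Φ : ℝ := ρ * L ^ (C₁ + 2) with hΦ
  have hΦ0 : 0 ≤ Φ := by positivity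
  have hBE : BoxE x S c E := h₁ x hx₁ ρ hρR hρ1 hρ0 S c hD
  set Bd : ℝ := 2 * E + 12 * x / (Q : ℝ) ^ 2 * Φ + 4 * x / RR x ^ 11 with hBd
  have hBd0 : 0 ≤ Bd := by positivity
  set J : ℕ := ⌈2 * Q * L⌉₊ with hJ
  set T₀ : ℕ := Nat.log 2 x + 1 with hT₀
  have hJle : (J : ℝ) ≤ 4 * Q * L := by
    have h5 := Nat.ceil_lt_add_one (R := ℝ) (a := 2 * Q * L) (by positivity)
    have h6 : (2 : ℝ) ≤ Q := by exact_mod_cast hQ2
    nlinarith
  have hTle : (T₀ : ℝ) ≤ 3 * L := by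
    have h5 : ((2 : ℝ) ^ (Nat.log 2 x)) ≤ x := by exact_mod_cast Nat.pow_log_le_self 2 (by omega : x ≠ 0)
    have h6 := Real.log_le_log (by positivity) h5
    rw [Real.log_pow] at h6
    have h7 := Real.log_two_gt_d9
    have h8 : (0 : ℝ) ≤ (Nat.log 2 x : ℝ) := Nat.cast_nonneg _
    rw [hT₀]; push_cast
    nlinarith
  -- the decomposition
  set aj : ℕ → ℕ → ℂ := fun j n => if gr D Q j ≤ n ∧ n < gr D Q (j + 1) then a n else 0 with haj
  set bt : ℕ → ℕ → ℂ := fun t n => if 2 ^ t ≤ n ∧ n < 2 ^ (t + 1) then b n else 0 with hbt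
  have hdec : ∀ m, DD a b y m = ∑ j ∈ range J, ∑ t ∈ range T₀, DD (aj j) (bt t) y m := by
    intro m
    rw [← DD_sum]
    refine DD_congr m (fun n hn1 hny => ?_) (fun n hn1 hny => ?_)
    · simp only [haj]
      rw [sum_grid (gr D Q) (gr_mono D Q) a J n]
      split_ifs with h5
      · rfl
      · by_contra h6
        have h7 := (haD n h6).1
        have h8 : x < gr D Q J := gr_big hQ2 (by omega) hx₅ (by rw [hJ]; exact Nat.le_ceil _)
        exact h5 ⟨h7, by omega⟩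
    · simp only [hbt]
      rw [sum_grid (fun t => 2 ^ t) (fun s t hst => Nat.pow_le_pow_right (by norm_num) hst) b T₀ n]
      rw [if_pos ⟨by simpa using hn1, lt_of_le_of_lt (hny.trans hy) (Nat.lt_pow_succ_log_self (by norm_num) x)⟩]
  have hone : ∀ j t, ‖∑ i ∈ S, (c i : ℂ) * DD (aj j) (bt t) y (i.1 * i.2)‖ ≤ Bd := by
    intro j t
    by_cases h5 : gr D Q j * D ≤ x
    · refine box_one hD.nonneg (fun i hi => boxes_pos hx1 (hD.good i hi)) hBE hE0
        (h₂ x hx₂ ρ hρ0 hρ1 S c hD) (boxes_phi hexp hD) hx1 (D_five x) hQ2 hQD (gr_ge D Q j) h5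
        (T := 2 ^ t) (by positivity) (fun n => ?_) (fun n => ?_) (fun n hn => ?_) (fun n hn => ?_)
        (hsa.ind _ _) (hsb.ind _ _) hy
      · split_ifs
        · exact ha n
        · simp
      · split_ifs
        · exact hb n
        · simp
      · split_ifs at hn with h6
        · rw [gr_succ] at h6; exact h6
        · exact absurd rfl hn
      · split_ifs at hn with h6
        · rw [pow_succ, mul_comm (2 ^ t) 2] at h6; exact h6
        · exact absurd rfl hn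
    · have h6 : ∀ m, DD (aj j) (bt t) y m = 0 := by
        intro m
        unfold DD
        refine sum_eq_zero fun p _ => ?_
        have : aj j p.1 = 0 := by
          by_contra h7
          simp only [haj] at h7
          split_ifs at h7 with h8
          · have h9 := (haD _ h7).2
            have h10 : gr D Q j * D ≤ p.1 * D := Nat.mul_le_mul_right _ h8.1
            omega
          · exact h7 rfl
        rw [this]; ring
      simp_rw [h6, mul_zero, sum_const_zero, norm_zero]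
      exact hBd0
  have htot : ‖∑ i ∈ S, (c i : ℂ) * disc (fun n => ∑ d ∈ n.divisors, a d * b (n / d)) y (i.1 * i.2)‖ ≤
      J * (T₀ * Bd) := by
    have h5 : ∑ i ∈ S, (c i : ℂ) * disc (fun n => ∑ d ∈ n.divisors, a d * b (n / d)) y (i.1 * i.2) =
        ∑ j ∈ range J, ∑ t ∈ range T₀, ∑ i ∈ S, (c i : ℂ) * DD (aj j) (bt t) y (i.1 * i.2) := by
      have h6 : ∀ j ∈ range J, ∑ t ∈ range T₀, ∑ i ∈ S, (c i : ℂ) * DD (aj j) (bt t) y (i.1 * i.2) =
          ∑ i ∈ S, ∑ t ∈ range T₀, (c i : ℂ) * DD (aj j) (bt t) y (i.1 * i.2) := fun j _ => sum_comm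
      rw [sum_congr rfl h6, sum_comm]
      refine sum_congr rfl fun i _ => ?_
      rw [disc_eq_DD, hdec, mul_sum]
      refine sum_congr rfl fun j _ => ?_
      rw [mul_sum]
    rw [h5]
    calc _ ≤ ∑ j ∈ range J, ∑ t ∈ range T₀, Bd := by
          refine (norm_sum_le _ _).trans (sum_le_sum fun j _ => ?_)
          exact (norm_sum_le _ _).trans (sum_le_sum fun t _ => hone j t)
      _ = _ := by simp
  refine htot.trans ?_
  have hJT : (J : ℝ) * (T₀ * Bd) ≤ 12 * Q * L ^ 2 * Bd := by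
    calc (J : ℝ) * (T₀ * Bd) ≤ (4 * Q * L) * ((3 * L) * Bd) := by gcongr
      _ = _ := by ring
  refine hJT.trans ?_
  have e1 : 12 * Q * L ^ 2 * (2 * E) ≤ 48 * C * (ρ * x / L ^ A) := by
    calc 12 * Q * L ^ 2 * (2 * E) ≤ 12 * (2 * L ^ A') * L ^ 2 * (2 * E) := by gcongr
      _ = 48 * C * (ρ * x / L ^ A) := by
        rw [hE, pow_add, pow_add]
        field_simp
        ring
  have e2 : 12 * Q * L ^ 2 * (12 * x / (Q : ℝ) ^ 2 * Φ) ≤ 144 * (ρ * x / L ^ A) := by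
    calc 12 * Q * L ^ 2 * (12 * x / (Q : ℝ) ^ 2 * Φ) = 144 * (ρ * x * L ^ (C₁ + 4)) / Q := by
          rw [hΦ]
          field_simp
          ring
      _ ≤ 144 * (ρ * x * L ^ (C₁ + 4)) / L ^ A' := by gcongr
      _ = 144 * (ρ * x / L ^ A) := by
          have h5 : L ^ A' = L ^ A * L ^ (C₁ + 4) := by rw [← pow_add, hA', add_assoc]
          rw [h5]
          field_simp
  have hρR' : 1 / RR x ^ 10 ≤ ρ := by
    rw [div_le_iff₀ (by positivity)]
    have h5 : ρ ^ 4 ≤ ρ := by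
      calc ρ ^ 4 ≤ ρ ^ 1 := pow_le_pow_of_le_one hρ0.le hρ1 (by norm_num)
        _ = ρ := pow_one ρ
    calc 1 ≤ ρ ^ 4 * RR x := hρR
      _ ≤ ρ * RR x := by gcongr
      _ ≤ ρ * RR x ^ 10 := by
        have : RR x ≤ RR x ^ 10 := le_self_pow₀ hR (by norm_num)
        gcongr
  have e3 : 12 * Q * L ^ 2 * (4 * x / RR x ^ 11) ≤ ρ * x / L ^ A := by
    calc 12 * Q * L ^ 2 * (4 * x / RR x ^ 11) ≤ 12 * (2 * L ^ A') * L ^ 2 * (4 * x / RR x ^ 11) := by gcongr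
      _ = (96 * L ^ (A + A' + 2)) * ((1 / RR x ^ 10) * (x / (RR x * L ^ A))) := by
          rw [pow_add, pow_add]
          field_simp
          ring
      _ ≤ RR x * (ρ * (x / (RR x * L ^ A))) := by
          have := h₄ x hx₄
          gcongr
      _ = ρ * x / L ^ A := by field_simp
  calc 12 * Q * L ^ 2 * Bd = 12 * Q * L ^ 2 * (2 * E) + 12 * Q * L ^ 2 * (12 * x / (Q : ℝ) ^ 2 * Φ) +
        12 * Q * L ^ 2 * (4 * x / RR x ^ 11) := by rw [hBd]; ring
    _ ≤ 48 * C * (ρ * x / L ^ A) + 144 * (ρ * x / L ^ A) + ρ * x / L ^ A := by linarith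
    _ = (48 * C + 145) * ρ * x / L ^ A := by ring

end Pool.Agent.ZH
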