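import Pool.Agent.Work.ZH.Defs

/-!
# Cell ZH, module D2: the pieces of the identity are structured
-/

namespace Pool.Agent.ZH

open Finset Pool.Agent.BV

theorem shapes_ceil_le {A n p : ℕ} (hn : 0 < n) : A ⌈/⌉ n ≤ p ↔ A ≤ p * n := by
  rw [ceilDiv_le_iff_le_smul hn, smul_eq_mul, mul_comm]

theorem shapes_lt_ceil {B n p : ℕ} (hn : 0 < n) : p < B ⌈/⌉ n ↔ p * n < B := by
  rw [← not_le, shapes_ceil_le hn, not_le]

theorem shapes_minFac {n p : ℕ} (hn : 1 < n) (hp : p.Prime) (h : ∀ q : ℕ, q.Prime → q ∣ n → q ≤ p) :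
    (p * n).minFac = n.minFac := by
  have hnp : n.minFac.Prime := Nat.minFac_prime (by omega)
  apply le_antisymm
  · exact Nat.minFac_le_of_dvd hnp.two_le (Dvd.dvd.mul_left (Nat.minFac_dvd n) p)
  · have hne : p * n ≠ 1 := by
      have := hp.two_le; nlinarith
    have hq : (p * n).minFac.Prime := Nat.minFac_prime hne
    rcases (hq.dvd_mul).1 (Nat.minFac_dvd (p * n)) with h1 | h1
    · rw [(Nat.prime_dvd_prime_iff_eq hq hp).1 h1]
      exact h _ hnp (Nat.minFac_dvd n)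
    · exact Nat.minFac_le_of_dvd hq.two_le h1

theorem Struct.ind {β : ℕ → ℂ} (h : Struct β) (A B : ℕ) :
    Struct (fun n => if A ≤ n ∧ n < B then β n else 0) := by
  obtain ⟨c, lo, hi, hc, hβ⟩ := h
  refine ⟨c, fun n => max (lo n) (A ⌈/⌉ n), fun n => min (hi n) ((B ⌈/⌉ n : ℕ) : ℕ∞), hc, ?_⟩
  intro n p hn hp hq
  have e1 := shapes_ceil_le (A := A) (p := p) hn
  have e2 := shapes_lt_ceil (B := B) (p := p) hn
  simp only [hβ n p hn hp hq, max_le_iff, lt_min_iff, Nat.cast_lt, e1, e2]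
  by_cases h1 : A ≤ p * n ∧ p * n < B
  · by_cases h2 : lo n ≤ p ∧ (p : ℕ∞) < hi n
    · rw [if_pos h1, if_pos h2, if_pos ⟨⟨h2.1, h1.1⟩, h2.2, h1.2⟩]
    · rw [if_pos h1, if_neg h2, if_neg]
      rintro ⟨⟨a, _⟩, b, _⟩; exact h2 ⟨a, b⟩
  · rw [if_neg h1, if_neg]
    rintro ⟨⟨_, a⟩, _, b⟩; exact h1 ⟨a, b⟩

theorem struct_one : Struct (fun _ => 1) :=
  ⟨fun _ => 1, fun _ => 0, fun _ => ⊤, fun _ => by simp, fun n p _ _ _ => by simp⟩

theorem Struct.twist {β g : ℕ → ℂ} (h : Struct β) (hp : ∀ p : ℕ, p.Prime → β p = 0) (hg : ∀ n, ‖g n‖ ≤ 1) :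
    Struct (fun n => β n * g n.minFac) := by
  obtain ⟨c, lo, hi, hc, hβ⟩ := h
  refine ⟨fun n => if n = 1 then 0 else c n * g n.minFac, lo, hi, ?_, ?_⟩
  · intro n
    dsimp only
    split_ifs
    · simp
    · rw [norm_mul]; exact mul_le_one₀ (hc n) (norm_nonneg _) (hg _)
  · intro n p hn hpp hq
    dsimp only
    by_cases h1 : n = 1
    · subst h1
      rw [mul_one, hp p hpp, zero_mul, if_pos rfl, ite_self]
    · rw [if_neg h1, shapes_minFac (by omega) hpp hq, hβ n p hn hpp hq]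
      split_ifs <;> simp

theorem struct_cap {g : ℕ → ℂ} (hg : ∀ n, ‖g n‖ ≤ 1) {A Z : ℕ} (hZA : Z ≤ A) :
    Struct (fun n => if A ≤ n then g (min n.minFac Z) else 0) := by
  refine ⟨fun n => if n = 1 then g Z else g (min n.minFac Z), fun n => A ⌈/⌉ n, fun _ => ⊤, ?_, ?_⟩
  · intro n; dsimp only; split_ifs <;> exact hg _
  · intro n p hn hpp hq
    simp only [shapes_ceil_le hn, ENat.natCast_lt_top, and_true]
    by_cases h1 : n = 1
    · subst h1
      simp only [mul_one, hpp.minFac_eq]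
      by_cases h2 : A ≤ p
      · rw [if_pos h2, if_pos h2, min_eq_right (hZA.trans h2)]; simp
      · rw [if_neg h2, if_neg h2]
    · rw [if_neg h1, shapes_minFac (by omega) hpp hq]

open Classical in
/-- coefficients of `I2` -/
noncomputable def a2 (z D n : ℕ) : ℂ := if EE z D n then ((ArithmeticFunction.moebius n : ℤ) : ℂ) else 0
open Classical in
/-- coefficients of `I3` -/
noncomputable def a3 (D X n : ℕ) : ℂ := if n.Prime ∧ D ≤ n ∧ n ≤ X then 1 else 0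
open Classical in
/-- coefficients of `T4` -/
noncomputable def a4 (z D X n : ℕ) : ℂ :=
  if ∃ p q : ℕ, p.Prime ∧ q.Prime ∧ z ≤ q ∧ q < p ∧ p < D ∧ n = p * q ∧ D ≤ n ∧ n ≤ X then 1 else 0

theorem shapes_EE_iff {z D n p : ℕ} (hn : 1 < n) (hp : p.Prime) (h : ∀ q : ℕ, q.Prime → q ∣ n → q ≤ p) :
    EE z D (p * n) ↔ (Squarefree n ∧ (∀ q : ℕ, q.Prime → q ∣ n → q < z)) ∧
      ((D ≤ p * n ∧ ∀ q : ℕ, q.Prime → q ∣ n → q < p) ∧ (p < D ∧ p * (n / n.minFac) < D)) := by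
  have hmin := shapes_minFac hn hp h
  have hmd : n.minFac ∣ n := Nat.minFac_dvd n
  have hmp : n.minFac.Prime := Nat.minFac_prime (by omega)
  have hdiv : p * n / (p * n).minFac = p * (n / n.minFac) := by
    rw [hmin, Nat.mul_div_assoc _ hmd]
  have hn0 : n ≠ 0 := by omega
  have hpn0 : p * n ≠ 0 := mul_ne_zero hp.ne_zero hn0
  unfold EE CC
  rw [hdiv]
  constructor
  · rintro ⟨⟨hsq, hD, hcard⟩, hDn, hlt⟩
    have hcop : Nat.Coprime p n := Nat.coprime_of_squarefree_mul hsq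
    have hnsq : Squarefree n := hsq.of_mul_right
    have hlt' : ∀ q : ℕ, q.Prime → q ∣ n → q < p := by
      intro q hq hqn
      rcases (h q hq hqn).lt_or_eq with h1 | h1
      · exact h1
      · subst h1
        exact absurd (Nat.Coprime.eq_one_of_dvd hcop hqn) hq.one_lt.ne'
    refine ⟨⟨hnsq, ?_⟩, ⟨hDn, hlt'⟩, hD p hp (Dvd.intro _ rfl), hlt⟩
    intro q hq hqn
    by_contra hz
    push Not at hz
    have hpq := hlt' q hq hqn
    have h2 : ({q, p} : Finset ℕ) ⊆ (p * n).primeFactors.filter (fun p => z ≤ p) := by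
      intro r hr
      rw [mem_insert, mem_singleton] at hr
      rw [mem_filter, Nat.mem_primeFactors]
      rcases hr with rfl | rfl
      · exact ⟨⟨hq, Dvd.dvd.mul_left hqn p, hpn0⟩, hz⟩
      · exact ⟨⟨hp, Dvd.intro _ rfl, hpn0⟩, hz.trans hpq.le⟩
    have h3 := card_le_card h2
    rw [card_pair hpq.ne] at h3
    omega
  · rintro ⟨⟨hnsq, hz⟩, ⟨hDn, hlt'⟩, hpD, hlt⟩
    have hcop : Nat.Coprime p n := by
      rw [hp.coprime_iff_not_dvd]
      intro hpn; exact lt_irrefl _ (hlt' p hp hpn)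
    refine ⟨⟨(Nat.squarefree_mul hcop).2 ⟨hp.squarefree, hnsq⟩, ?_, ?_⟩, hDn, hlt⟩
    · intro q hq hqn
      rcases (hq.dvd_mul).1 hqn with h1 | h1
      · rw [(Nat.prime_dvd_prime_iff_eq hq hp).1 h1]; exact hpD
      · exact (hlt' q hq h1).trans hpD
    · have : (p * n).primeFactors.filter (fun p => z ≤ p) ⊆ {p} := by
        intro r hr
        rw [mem_filter, Nat.mem_primeFactors] at hr
        rw [mem_singleton]
        rcases (hr.1.1.dvd_mul).1 hr.1.2.1 with h1 | h1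
        · exact (Nat.prime_dvd_prime_iff_eq hr.1.1 hp).1 h1
        · exact absurd (hz r hr.1.1 h1) (not_lt.2 hr.2)
      exact (card_le_card this).trans (by simp)

theorem struct_a2 (z D : ℕ) : Struct (a2 z D) := by
  classical
  refine ⟨fun n => if Squarefree n ∧ (∀ q : ℕ, q.Prime → q ∣ n → q < z) ∧ 1 < n then
      -((ArithmeticFunction.moebius n : ℤ) : ℂ) else 0,
    fun n => max (D ⌈/⌉ n) (n.primeFactors.sup id + 1),
    fun n => min (D : ℕ∞) ((D ⌈/⌉ (n / n.minFac) : ℕ) : ℕ∞), ?_, ?_⟩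
  · intro n
    dsimp only
    split_ifs
    · rw [norm_neg, Complex.norm_intCast]
      exact_mod_cast ArithmeticFunction.abs_moebius_le_one
    · simp
  · intro n p hn hp hq
    unfold a2
    by_cases h1 : 1 < n
    · have hmd : n.minFac ∣ n := Nat.minFac_dvd n
      have hnm : 0 < n / n.minFac := Nat.div_pos (Nat.minFac_le hn) (Nat.minFac_pos n)
      have hsup : n.primeFactors.sup id + 1 ≤ p ↔ ∀ q : ℕ, q.Prime → q ∣ n → q < p := by
        rw [Nat.succ_le_iff, Finset.sup_lt_iff (by exact hp.pos)]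
        constructor
        · intro h q hq' hqn
          exact h q (Nat.mem_primeFactors.2 ⟨hq', hqn, by omega⟩)
        · intro h q hq'
          rw [Nat.mem_primeFactors] at hq'
          exact h q hq'.1 hq'.2.1
      simp only [max_le_iff, lt_min_iff, Nat.cast_lt, shapes_ceil_le hn, shapes_lt_ceil hnm, hsup,
        shapes_EE_iff h1 hp hq]
      by_cases hc : Squarefree n ∧ (∀ q : ℕ, q.Prime → q ∣ n → q < z)
      · by_cases hb : (D ≤ p * n ∧ ∀ q : ℕ, q.Prime → q ∣ n → q < p) ∧ (p < D ∧ p * (n / n.minFac) < D)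
        · rw [if_pos ⟨hc, hb⟩, if_pos hb, if_pos ⟨hc.1, hc.2, h1⟩]
          have hcop : Nat.Coprime p n := by
            rw [hp.coprime_iff_not_dvd]
            intro hpn; exact lt_irrefl _ (hb.1.2 p hp hpn)
          rw [ArithmeticFunction.isMultiplicative_moebius.map_mul_of_coprime hcop,
            ArithmeticFunction.moebius_apply_prime hp]
          push_cast; ring
        · rw [if_neg (fun h => hb h.2), if_neg hb]
      · split_ifs <;> first | rfl | (exfalso; tauto)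
    · have hn1 : n = 1 := by omega
      subst hn1
      have : ¬ EE z D (p * 1) := by
        rw [mul_one]
        rintro ⟨⟨_, h2, _⟩, h3, _⟩
        exact absurd (h2 p hp dvd_rfl) (not_lt.2 h3)
      rw [if_neg this]
      have h9 : ¬ (Squarefree 1 ∧ (∀ q : ℕ, q.Prime → q ∣ 1 → q < z) ∧ 1 < 1) := fun h => absurd h.2.2 (lt_irrefl _)
      simp only [if_neg h9, ite_self]

theorem struct_a3 (D X : ℕ) : Struct (a3 D X) := by
  classical
  refine ⟨fun n => if n = 1 then 1 else 0, fun _ => D, fun _ => ((X + 1 : ℕ) : ℕ∞), ?_, ?_⟩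
  · intro n; dsimp only; split_ifs <;> simp
  · intro n p hn hp hq
    unfold a3
    by_cases h1 : n = 1
    · subst h1
      simp only [mul_one, Nat.cast_lt, hp, true_and, Nat.lt_succ_iff]
      rfl
    · have : ¬ (p * n).Prime := Nat.not_prime_mul hp.one_lt.ne' h1
      simp only [if_neg (fun h : (p * n).Prime ∧ D ≤ p * n ∧ p * n ≤ X => this h.1), if_neg h1, ite_self]

theorem shapes_two_primes {p n p' q' : ℕ} (hp : p.Prime) (hn : 0 < n) (h : ∀ q : ℕ, q.Prime → q ∣ n → q ≤ p)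
    (hp' : p'.Prime) (hq' : q'.Prime) (hlt : q' < p') (he : p * n = p' * q') : p = p' ∧ n = q' := by
  have h1 : p ∣ p' * q' := Dvd.intro _ he
  rcases (hp.dvd_mul).1 h1 with h2 | h2
  · have h3 := (Nat.prime_dvd_prime_iff_eq hp hp').1 h2
    subst h3
    exact ⟨rfl, Nat.eq_of_mul_eq_mul_left hp.pos he⟩
  · have h3 := (Nat.prime_dvd_prime_iff_eq hp hq').1 h2
    subst h3
    have h4 : n = p' := by
      rw [mul_comm p' p] at he
      exact Nat.eq_of_mul_eq_mul_left hp.pos he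
    subst h4
    exact absurd (h n hp' dvd_rfl) (not_le.2 hlt)

theorem struct_a4 (z D X : ℕ) : Struct (a4 z D X) := by
  classical
  refine ⟨fun n => if n.Prime ∧ z ≤ n then 1 else 0, fun n => max (n + 1) (D ⌈/⌉ n),
    fun n => min (D : ℕ∞) (((X + 1) ⌈/⌉ n : ℕ) : ℕ∞), ?_, ?_⟩
  · intro n; dsimp only; split_ifs <;> simp
  · intro n p hn hp hq
    unfold a4
    simp only [max_le_iff, lt_min_iff, Nat.cast_lt, shapes_ceil_le hn, shapes_lt_ceil hn]
    by_cases hc : n.Prime ∧ z ≤ n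
    · by_cases hb : (n + 1 ≤ p ∧ D ≤ p * n) ∧ p < D ∧ p * n < X + 1
      · rw [if_pos hb, if_pos hc, if_pos]
        exact ⟨p, n, hp, hc.1, hc.2, hb.1.1, hb.2.1, rfl, hb.1.2, Nat.lt_succ_iff.1 hb.2.2⟩
      · rw [if_neg hb, if_neg]
        rintro ⟨p', q', hp', hq', hz, hlt, hpD, he, h1, h2⟩
        obtain ⟨e1, e2⟩ := shapes_two_primes hp hn hq hp' hq' hlt he
        subst e1; subst e2
        exact hb ⟨⟨hlt, h1⟩, hpD, Nat.lt_succ_iff.2 h2⟩
    · rw [if_neg hc, ite_self, if_neg]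
      rintro ⟨p', q', hp', hq', hz, hlt, hpD, he, h1, h2⟩
      obtain ⟨e1, e2⟩ := shapes_two_primes hp hn hq hp' hq' hlt he
      subst e1; subst e2
      exact hc ⟨hq', hz⟩

open Classical in
theorem I2_eq (z D n : ℕ) : (I2 z D n : ℂ) =
    ∑ d ∈ n.divisors, a2 z D d * (if rough d.minFac (n / d) then 1 else 0) := by
  unfold I2
  push_cast
  rw [sum_filter]
  refine sum_congr rfl fun d _ => ?_
  unfold a2
  split_ifs <;> simp

theorem I3_eq {D x n : ℕ} (hD : 0 < D) (hn : n ≤ x) : (I3 D n : ℂ) =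
    ∑ d ∈ n.divisors, a3 D (x / D) d * a3 D (x / D) (n / d) := by
  classical
  unfold I3
  rw [card_filter]
  push_cast
  refine sum_congr rfl fun d hd => ?_
  have hd' := Nat.mem_divisors.1 hd
  unfold a3
  by_cases h : d.Prime ∧ (n / d).Prime ∧ D ≤ d ∧ D ≤ n / d
  · have e : d * (n / d) = n := Nat.mul_div_cancel' hd'.1
    have h1 : d ≤ x / D := by
      rw [Nat.le_div_iff_mul_le hD]
      calc d * D ≤ d * (n / d) := Nat.mul_le_mul_left _ h.2.2.2
        _ = n := e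
        _ ≤ x := hn
    have h2 : n / d ≤ x / D := by
      rw [Nat.le_div_iff_mul_le hD]
      calc n / d * D ≤ n / d * d := Nat.mul_le_mul_left _ h.2.2.1
        _ = n := by rw [mul_comm]; exact e
        _ ≤ x := hn
    rw [if_pos h, if_pos ⟨h.1, h.2.2.1, h1⟩, if_pos ⟨h.2.1, h.2.2.2, h2⟩, one_mul]
  · rw [if_neg h]
    by_cases ha : d.Prime ∧ D ≤ d ∧ d ≤ x / D
    · by_cases hb : (n / d).Prime ∧ D ≤ n / d ∧ n / d ≤ x / D
      · exact absurd ⟨ha.1, hb.1, ha.2.1, hb.2.1⟩ h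
      · rw [if_neg hb, mul_zero]
    · rw [if_neg ha, zero_mul]

open Classical in
theorem T4_eq {z D x n : ℕ} (hz : 2 ≤ z) (hD : 0 < D) :
    (T4 (fun p q => D ≤ p * q ∧ p * q * D ≤ x) z D n : ℂ) =
      ∑ d ∈ n.divisors, a4 z D (x / D) d * (if rough d.minFac (n / d) then 1 else 0) := by
  unfold T4
  push_cast
  rw [← sum_sigma (n.primeFactors.filter (fun p => z ≤ p ∧ p < D))
    (fun p => (n / p).primeFactors.filter (fun q => z ≤ q ∧ q < p ∧ (D ≤ p * q ∧ p * q * D ≤ x)))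
    (fun s => if rough s.2 (n / (s.1 * s.2)) then (1 : ℂ) else 0)]
  refine sum_of_injOn (fun s => s.1 * s.2) ?_ ?_ ?_ ?_
  · rintro ⟨p, q⟩ hs ⟨p', q'⟩ hs' he
    simp only [coe_sigma, Set.mem_sigma_iff, mem_coe, mem_filter, Nat.mem_primeFactors] at hs hs'
    simp only at he
    obtain ⟨e1, e2⟩ := shapes_two_primes (p := p) (n := q) hs.1.1.1 hs.2.1.1.pos
      (fun r hr hrq => by rw [(Nat.prime_dvd_prime_iff_eq hr hs.2.1.1).1 hrq]; exact hs.2.2.2.1.le)
      hs'.1.1.1 hs'.2.1.1 hs'.2.2.2.1 he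
    subst e1; subst e2; rfl
  · rintro ⟨p, q⟩ hs
    simp only [coe_sigma, Set.mem_sigma_iff, mem_coe, mem_filter, Nat.mem_primeFactors] at hs
    simp only [mem_coe, Nat.mem_divisors]
    refine ⟨?_, hs.1.1.2.2⟩
    obtain ⟨k, hk⟩ := hs.2.1.2.1
    obtain ⟨l, hl⟩ := hs.1.1.2.1
    refine ⟨k, ?_⟩
    have : n / p = l := by rw [hl]; exact Nat.mul_div_cancel_left _ hs.1.1.1.pos
    rw [this] at hk
    rw [hl, hk]; ring
  · intro d hd hnot
    have hd' := Nat.mem_divisors.1 hd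
    have : a4 z D (x / D) d = 0 := by
      unfold a4
      rw [if_neg]
      rintro ⟨p, q, hp, hq, hzq, hlt, hpD, rfl, h1, h2⟩
      apply hnot
      refine ⟨⟨p, q⟩, ?_, rfl⟩
      obtain ⟨k, hk⟩ := hd'.1
      have e1 : n / p = q * k := by
        rw [hk, mul_assoc]; exact Nat.mul_div_cancel_left _ hp.pos
      have hn0 : n ≠ 0 := hd'.2
      simp only [coe_sigma, Set.mem_sigma_iff, mem_coe, mem_filter, Nat.mem_primeFactors]
      refine ⟨⟨⟨hp, ⟨q * k, by rw [hk]; ring⟩, hn0⟩, hzq.trans hlt.le, hpD⟩,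
        ⟨⟨hq, ⟨k, e1⟩, ?_⟩, hzq, hlt, h1, (Nat.le_div_iff_mul_le hD).1 h2⟩⟩
      rw [e1]
      intro h0
      apply hn0
      rw [hk, mul_assoc, h0, mul_zero]
    rw [this, zero_mul]
  · rintro ⟨p, q⟩ hs
    simp only [mem_sigma, mem_filter, Nat.mem_primeFactors] at hs
    have hmin : (p * q).minFac = q := by
      rw [shapes_minFac hs.2.1.1.one_lt hs.1.1.1
        (fun r hr hrq => by rw [(Nat.prime_dvd_prime_iff_eq hr hs.2.1.1).1 hrq]; exact hs.2.2.2.1.le)]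
      exact hs.2.1.1.minFac_eq
    have ha : a4 z D (x / D) (p * q) = 1 := by
      unfold a4
      rw [if_pos]
      exact ⟨p, q, hs.1.1.1, hs.2.1.1, hs.2.2.1, hs.2.2.2.1, hs.1.2.2, rfl, hs.2.2.2.2.1,
        (Nat.le_div_iff_mul_le hD).2 hs.2.2.2.2.2⟩
    rw [ha, hmin, one_mul]

/-! ### supports and sizes -/

theorem shapes_ev (c : ℝ) {a b : ℝ} (hab : a < b) : ∃ x₀ : ℕ, ∀ x : ℕ, x ≥ x₀ → c * (x : ℝ) ^ a ≤ (x : ℝ) ^ b := by
  have h := (tendsto_rpow_atTop (sub_pos.2 hab)).comp tendsto_natCast_atTop_atTop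
  obtain ⟨x₀, h0⟩ := Filter.eventually_atTop.1 ((Filter.tendsto_atTop.1 h c).and (Filter.eventually_gt_atTop 0))
  refine ⟨x₀, fun x hx => ?_⟩
  have h1 := h0 x hx
  have hx0 : (0 : ℝ) < x := by exact_mod_cast h1.2
  have h2 : c ≤ (x : ℝ) ^ (b - a) := h1.1
  calc c * (x : ℝ) ^ a ≤ (x : ℝ) ^ (b - a) * (x : ℝ) ^ a :=
        mul_le_mul_of_nonneg_right h2 (Real.rpow_nonneg hx0.le _)
    _ = (x : ℝ) ^ b := by rw [← Real.rpow_add hx0]; congr 1; ring

/-- supports, sizes; `x` large -/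
theorem a_supports : ∃ x₀ : ℕ, ∀ x ≥ x₀,
    (∀ n, a2 (zx x) (Dx x) n ≠ 0 → Dx x ≤ n ∧ n * Dx x ≤ x ∧ n.minFac ≤ Zc x) ∧
    (∀ n, a4 (zx x) (Dx x) (x / Dx x) n ≠ 0 → Dx x ≤ n ∧ n * Dx x ≤ x ∧ n.minFac ≤ Zc x) ∧
    (∀ n, a3 (Dx x) (x / Dx x) n ≠ 0 → Dx x ≤ n ∧ n * Dx x ≤ x) ∧
    (∀ p : ℕ, p.Prime → a2 (zx x) (Dx x) p = 0 ∧ a4 (zx x) (Dx x) (x / Dx x) p = 0) ∧
    2 ≤ zx x ∧ zx x ≤ Dx x ∧ Dx x ≤ yx x ∧ x < Dx x ^ 3 ∧ x ^ 2 ≤ Dx x ^ 5 := by
  obtain ⟨n₁, h₁⟩ := shapes_ev 8 (a := 802 / 1000) (b := 1) (by norm_num)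
  obtain ⟨n₂, h₂⟩ := shapes_ev 2 (a := 401 / 1000) (b := 1 / 2) (by norm_num)
  refine ⟨max (max n₁ n₂) 2, fun x hx => ?_⟩
  have hx1 : n₁ ≤ x := le_trans (le_trans (le_max_left _ _) (le_max_left _ _)) hx
  have hx2 : n₂ ≤ x := le_trans (le_trans (le_max_right _ _) (le_max_left _ _)) hx
  have hx3 : 2 ≤ x := le_trans (le_max_right _ _) hx
  have hxR : (1 : ℝ) < x := by exact_mod_cast hx3
  have hx0 : (0 : ℝ) < x := lt_trans one_pos hxR
  have hDlo : (x : ℝ) ^ (401 / 1000 : ℝ) ≤ Dx x := Nat.le_ceil _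
  have h401 : (1 : ℝ) < (x : ℝ) ^ (401 / 1000 : ℝ) := Real.one_lt_rpow hxR (by norm_num)
  have hDhi : (Dx x : ℝ) < (x : ℝ) ^ (401 / 1000 : ℝ) + 1 := Nat.ceil_lt_add_one (by positivity)
  have hD1 : (1 : ℝ) < Dx x := lt_of_lt_of_le h401 hDlo
  have hD1' : 1 < Dx x := by exact_mod_cast hD1
  have hD0 : 0 < Dx x := by omega
  have hsq : ((x : ℝ) ^ (401 / 1000 : ℝ)) ^ 2 = (x : ℝ) ^ (802 / 1000 : ℝ) := by
    rw [← Real.rpow_natCast, ← Real.rpow_mul hx0.le]; norm_num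
  -- `2 D² ≤ x`
  have hD2 : 2 * Dx x ^ 2 ≤ x := by
    have h := h₁ x hx1
    rw [Real.rpow_one] at h
    have : (2 : ℝ) * (Dx x : ℝ) ^ 2 ≤ x := by
      have h3 : (Dx x : ℝ) ≤ 2 * (x : ℝ) ^ (401 / 1000 : ℝ) := by linarith
      have h4 : (Dx x : ℝ) ^ 2 ≤ (2 * (x : ℝ) ^ (401 / 1000 : ℝ)) ^ 2 :=
        pow_le_pow_left₀ (by positivity) h3 2
      rw [mul_pow, hsq] at h4
      linarith
    exact_mod_cast this
  have hz2 : 2 ≤ zx x := by
    unfold zx
    rw [Nat.le_div_iff_mul_le (by positivity)]; exact hD2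
  have hzD : zx x * Dx x ^ 2 ≤ x := Nat.div_mul_le_self _ _
  -- `z ≤ x^0.198`
  have hzR : (zx x : ℝ) ≤ (x : ℝ) ^ (198 / 1000 : ℝ) := by
    have h5 : (zx x : ℝ) * (Dx x : ℝ) ^ 2 ≤ x := by exact_mod_cast hzD
    have h6 : (x : ℝ) ^ (802 / 1000 : ℝ) ≤ (Dx x : ℝ) ^ 2 := by
      rw [← hsq]; exact pow_le_pow_left₀ (by positivity) hDlo 2
    have h7 : (zx x : ℝ) * (x : ℝ) ^ (802 / 1000 : ℝ) ≤ (x : ℝ) ^ (198 / 1000 : ℝ) * (x : ℝ) ^ (802 / 1000 : ℝ) := by
      rw [← Real.rpow_add hx0]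
      calc (zx x : ℝ) * (x : ℝ) ^ (802 / 1000 : ℝ) ≤ (zx x : ℝ) * (Dx x : ℝ) ^ 2 :=
            mul_le_mul_of_nonneg_left h6 (by positivity)
        _ ≤ x := h5
        _ = (x : ℝ) ^ (198 / 1000 + 802 / 1000 : ℝ) := by
            norm_num
    exact le_of_mul_le_mul_right h7 (by positivity)
  have hzZ : zx x ≤ Zc x := by
    apply Nat.le_floor
    exact hzR.trans (Real.rpow_le_rpow_of_exponent_le hxR.le (by norm_num))
  have hzDx : zx x ≤ Dx x := by
    have : (zx x : ℝ) ≤ Dx x :=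
      (hzR.trans (Real.rpow_le_rpow_of_exponent_le hxR.le (by norm_num))).trans hDlo
    exact_mod_cast this
  refine ⟨?_, ?_, ?_, ?_, hz2, hzDx, ?_, ?_, ?_⟩
  · intro n hn
    unfold a2 at hn
    have hE : EE (zx x) (Dx x) n := by
      by_contra h; rw [if_neg h] at hn; exact hn rfl
    obtain ⟨⟨hsf, hlt, hcard⟩, hDn, hdiv⟩ := hE
    have hn0 : 0 < n := by omega
    have hn1 : n ≠ 1 := by omega
    have hmp : n.minFac.Prime := Nat.minFac_prime hn1
    have hmd : n.minFac ∣ n := Nat.minFac_dvd n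
    have hmz : n.minFac < zx x := by
      by_contra hge
      push Not at hge
      -- then `n` has only one prime factor
      have hall : ∀ q, q.Prime → q ∣ n → q = n.minFac := by
        intro q hq hqn
        have hq1 : q ∈ n.primeFactors.filter (fun p => zx x ≤ p) := by
          rw [mem_filter, Nat.mem_primeFactors]
          exact ⟨⟨hq, hqn, hn0.ne'⟩, hge.trans (Nat.minFac_le_of_dvd hq.two_le hqn)⟩
        have hq2 : n.minFac ∈ n.primeFactors.filter (fun p => zx x ≤ p) := by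
          rw [mem_filter, Nat.mem_primeFactors]
          exact ⟨⟨hmp, hmd, hn0.ne'⟩, hge⟩
        exact Finset.card_le_one.1 hcard q hq1 _ hq2
      have hnm : n / n.minFac = 1 := by
        by_contra hne
        obtain ⟨q, hq, hqd⟩ := Nat.exists_prime_and_dvd hne
        have h8 : q = n.minFac := hall q hq (hqd.trans (Nat.div_dvd_of_dvd hmd))
        obtain ⟨k, hk⟩ := hqd
        have h9 : n = n.minFac * (n / n.minFac) := (Nat.mul_div_cancel' hmd).symm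
        rw [hk, h8] at h9
        have h10 : n.minFac * n.minFac ∣ n := ⟨k, by rw [mul_assoc]; exact h9⟩
        have h11 := hsf n.minFac h10
        exact hmp.one_lt.ne' (Nat.isUnit_iff.1 h11)
      have h12 : n = n.minFac := by
        have := Nat.mul_div_cancel' hmd
        rw [hnm, mul_one] at this; exact this.symm
      have h13 := hlt n.minFac hmp hmd
      omega
    have hnz : n < zx x * Dx x := by
      have h14 : n = n.minFac * (n / n.minFac) := (Nat.mul_div_cancel' hmd).symm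
      calc n = n.minFac * (n / n.minFac) := h14
        _ < zx x * Dx x := Nat.mul_lt_mul'' hmz hdiv
    refine ⟨hDn, ?_, hmz.le.trans hzZ⟩
    calc n * Dx x ≤ zx x * Dx x * Dx x := Nat.mul_le_mul_right _ hnz.le
      _ = zx x * Dx x ^ 2 := by ring
      _ ≤ x := hzD
  · intro n hn
    unfold a4 at hn
    have hE : ∃ p q : ℕ, p.Prime ∧ q.Prime ∧ zx x ≤ q ∧ q < p ∧ p < Dx x ∧ n = p * q ∧ Dx x ≤ n ∧ n ≤ x / Dx x := by
      by_contra h; rw [if_neg h] at hn; exact hn rfl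
    obtain ⟨p, q, hp, hq, hzq, hqp, hpD, hnpq, hDn, hnx⟩ := hE
    refine ⟨hDn, (Nat.le_div_iff_mul_le hD0).1 hnx, ?_⟩
    have h15 : n.minFac ≤ q := Nat.minFac_le_of_dvd hq.two_le ⟨p, by rw [hnpq]; ring⟩
    refine h15.trans ?_
    apply Nat.le_floor
    have h16 : q * q ≤ x / Dx x := by
      calc q * q ≤ p * q := Nat.mul_le_mul_right _ hqp.le
        _ ≤ x / Dx x := hnpq ▸ hnx
    have h17 : q * q * Dx x ≤ x := (Nat.le_div_iff_mul_le hD0).1 h16
    have h18 : (q : ℝ) * q * Dx x ≤ x := by exact_mod_cast h17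
    have h19 : (q : ℝ) ^ 2 * (x : ℝ) ^ (401 / 1000 : ℝ) ≤ (x : ℝ) ^ (599 / 1000 : ℝ) * (x : ℝ) ^ (401 / 1000 : ℝ) := by
      rw [← Real.rpow_add hx0]
      calc (q : ℝ) ^ 2 * (x : ℝ) ^ (401 / 1000 : ℝ) ≤ (q : ℝ) ^ 2 * Dx x :=
            mul_le_mul_of_nonneg_left hDlo (by positivity)
        _ = (q : ℝ) * q * Dx x := by ring
        _ ≤ x := h18
        _ = (x : ℝ) ^ (599 / 1000 + 401 / 1000 : ℝ) := by norm_num
    have h20 : (q : ℝ) ^ 2 ≤ (x : ℝ) ^ (599 / 1000 : ℝ) := le_of_mul_le_mul_right h19 (by positivity)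
    have h21 : (x : ℝ) ^ (599 / 1000 : ℝ) ≤ ((x : ℝ) ^ (3 / 10 : ℝ)) ^ 2 := by
      rw [← Real.rpow_natCast, ← Real.rpow_mul hx0.le]
      exact Real.rpow_le_rpow_of_exponent_le hxR.le (by norm_num)
    exact le_of_sq_le_sq (h20.trans h21) (by positivity)
  · intro n hn
    unfold a3 at hn
    have hE : n.Prime ∧ Dx x ≤ n ∧ n ≤ x / Dx x := by
      by_contra h; rw [if_neg h] at hn; exact hn rfl
    exact ⟨hE.2.1, (Nat.le_div_iff_mul_le hD0).1 hE.2.2⟩
  · intro p hp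
    constructor
    · unfold a2
      rw [if_neg]
      rintro ⟨⟨_, h2, _⟩, h3, _⟩
      exact absurd (h2 p hp dvd_rfl) (not_lt.2 h3)
    · unfold a4
      rw [if_neg]
      rintro ⟨p', q', hp', hq', _, _, _, he, _⟩
      exact (Nat.not_prime_mul hp'.one_lt.ne' hq'.one_lt.ne') (he ▸ hp)
  · have h := h₂ x hx2
    have h22 : (x : ℝ) ^ (1 / 2 : ℝ) < Nat.sqrt x + 1 := by
      rw [← Real.sqrt_eq_rpow, Real.sqrt_lt' (by positivity)]
      have := Nat.lt_succ_sqrt' x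
      exact_mod_cast this
    unfold yx
    have : (Dx x : ℝ) < (Nat.sqrt x : ℝ) + 1 := by linarith
    have h23 : Dx x < Nat.sqrt x + 1 := by exact_mod_cast this
    exact h23.le
  · have h24 : (x : ℝ) < (Dx x : ℝ) ^ 3 := by
      calc (x : ℝ) = (x : ℝ) ^ (1 : ℝ) := (Real.rpow_one _).symm
        _ < (x : ℝ) ^ (1203 / 1000 : ℝ) := Real.rpow_lt_rpow_of_exponent_lt hxR (by norm_num)
        _ = ((x : ℝ) ^ (401 / 1000 : ℝ)) ^ 3 := by
            rw [← Real.rpow_natCast, ← Real.rpow_mul hx0.le]; norm_num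
        _ ≤ (Dx x : ℝ) ^ 3 := pow_le_pow_left₀ (by positivity) hDlo 3
    exact_mod_cast h24
  · have h25 : (x : ℝ) ^ 2 ≤ (Dx x : ℝ) ^ 5 := by
      calc (x : ℝ) ^ 2 = (x : ℝ) ^ (2 : ℝ) := (Real.rpow_two _).symm
        _ ≤ (x : ℝ) ^ (2005 / 1000 : ℝ) := Real.rpow_le_rpow_of_exponent_le hxR.le (by norm_num)
        _ = ((x : ℝ) ^ (401 / 1000 : ℝ)) ^ 5 := by
            rw [← Real.rpow_natCast, ← Real.rpow_mul hx0.le]; norm_num
        _ ≤ (Dx x : ℝ) ^ 5 := pow_le_pow_left₀ (by positivity) hDlo 5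
    exact_mod_cast h25

end Pool.Agent.ZH
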