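import Pool.Agent.Work.ZH.Boxes
import Pool.Agent.Work.ZH.Shapes
import Pool.Agent.Work.ZH.Small
import Pool.Agent.Work.ZH.D.Fejer

/-!
# Cell ZH (MP_d3dd4c_nt), module D4: separation of the coupled variables

`fourier_le`: finite Fourier expansion of `1_{u ≤ v}`; `disc_coupled_of : BoxH → (statement of disc_coupled)`.
-/

namespace Pool.Agent.ZH

open Finset Pool.Agent.BV

/-! ### the finite Fourier series -/

theorem cpl_e (t : ℝ) : e t = D.e t := rfl

theorem cpl_orth {N : ℕ} (hN : 0 < N) (k : ℤ) :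
    ∑ h ∈ range N, e ((h : ℝ) * ((k : ℝ) / N)) = if (N : ℤ) ∣ k then (N : ℂ) else 0 := by
  have hN0 : (N : ℝ) ≠ 0 := by exact_mod_cast hN.ne'
  by_cases hd : (N : ℤ) ∣ k
  · obtain ⟨j, rfl⟩ := hd
    rw [if_pos (dvd_mul_right _ _)]
    have h2 : ∀ h : ℕ, e ((h : ℝ) * ((((N : ℤ) * j : ℤ) : ℝ) / N)) = 1 := by
      intro h
      have : ((h : ℝ) * ((((N : ℤ) * j : ℤ) : ℝ) / N)) = ((h * j : ℤ) : ℝ) := by
        push_cast
        field_simp
      rw [this]
      exact D.e_int _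
    rw [Finset.sum_congr rfl (fun h _ => h2 h)]
    simp
  · rw [if_neg hd]
    have h2 : D.e ((k : ℝ) / N) ≠ 1 := by
      intro h
      unfold D.e at h
      rw [Complex.exp_eq_one_iff] at h
      obtain ⟨j, hj⟩ := h
      apply hd
      have hpi : (2 * Real.pi * Complex.I : ℂ) ≠ 0 := by
        simp [Real.pi_ne_zero, Complex.I_ne_zero]
      have h3 : (2 * Real.pi * Complex.I : ℂ) * (((k : ℝ) / N : ℝ) : ℂ) =
          (2 * Real.pi * Complex.I : ℂ) * (j : ℂ) := by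
        rw [mul_comm _ (j : ℂ), ← hj]
        ring
      have h4 := mul_left_cancel₀ hpi h3
      have h5 : ((k : ℝ) / N : ℝ) = (j : ℝ) := by exact_mod_cast h4
      rw [div_eq_iff hN0] at h5
      refine ⟨j, ?_⟩
      have h6 : (k : ℝ) = ((N * j : ℤ) : ℝ) := by
        rw [h5]
        push_cast
        ring
      exact_mod_cast h6
    show ∑ h ∈ range N, D.e ((h : ℝ) * ((k : ℝ) / N)) = 0
    simp_rw [D.e_nat_mul]
    rw [geom_sum_eq h2, ← D.e_nat_mul]
    have : (N : ℝ) * ((k : ℝ) / N) = (k : ℝ) := by field_simp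
    rw [this, D.e_int, sub_self, zero_div]

theorem fourier_le (Z : ℕ) : ∃ γ : ℕ → ℂ, ∑ h ∈ range (2 * Z + 2), ‖γ h‖ ≤ 3 * (1 + Real.log (2 * Z + 2)) ∧
    ∀ u v : ℕ, u ≤ Z → v ≤ Z → (if u ≤ v then 1 else 0 : ℂ) =
      ∑ h ∈ range (2 * Z + 2), γ h * ez (2 * Z + 2) (h * u) * ez (2 * Z + 2) (-(h * v)) := by
  set N : ℕ := 2 * Z + 2 with hN
  have hNpos : 0 < N := by omega
  have hN0 : (N : ℝ) ≠ 0 := by exact_mod_cast hNpos.ne'
  have hNr : (0 : ℝ) < N := by exact_mod_cast hNpos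
  have hNZ : (N : ℝ) = 2 * Z + 2 := by rw [hN]; push_cast; ring
  refine ⟨fun h => (1 / (N : ℂ)) * ∑ t ∈ range (Z + 1), e ((t : ℝ) * ((h : ℝ) / N)), ?_, ?_⟩
  · -- the norms
    have h0 : ∀ h : ℕ, ‖(1 / (N : ℂ)) * ∑ t ∈ range (Z + 1), e ((t : ℝ) * ((h : ℝ) / N))‖ =
        1 / N * ‖∑ t ∈ range (Z + 1), D.e ((t : ℝ) * ((h : ℝ) / N))‖ := by
      intro h
      rw [norm_mul, norm_div, norm_one, Complex.norm_natCast]
      rfl
    have h1 : ∀ j ∈ range (2 * Z + 1), ‖(1 / (N : ℂ)) *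
        ∑ t ∈ range (Z + 1), e ((t : ℝ) * (((j + 1 : ℕ) : ℝ) / N))‖ ≤
        1 / (2 * ((j : ℝ) + 1)) + 1 / (2 * (((2 * Z + 1 - 1 - j : ℕ) : ℝ) + 1)) := by
      intro j hj
      rw [mem_range] at hj
      rw [h0]
      have hj1 : (0 : ℝ) < (j : ℝ) + 1 := by positivity
      have hcast : ((2 * Z + 1 - 1 - j : ℕ) : ℝ) + 1 = (N : ℝ) - (j + 1) := by
        have : (2 * Z + 1 - 1 - j : ℕ) + (j + 2) = N := by omega
        have h2 : ((2 * Z + 1 - 1 - j : ℕ) : ℝ) + ((j : ℝ) + 2) = N := by exact_mod_cast this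
        linarith
      rw [hcast]
      have hpos2 : 0 < (N : ℝ) - (j + 1) := by
        rw [← hcast]; positivity
      have hA : 0 ≤ 1 / (2 * ((j : ℝ) + 1)) := by positivity
      have hB : 0 ≤ 1 / (2 * ((N : ℝ) - (j + 1))) := by positivity
      rcases le_or_gt (((j + 1 : ℕ) : ℝ) / N) (1 / 2) with hle | hgt
      · have h2 := D.norm_geom (Z + 1) (((j + 1 : ℕ) : ℝ) / N) (by positivity) (by
          rw [abs_of_nonneg (by positivity)]; exact hle)
        rw [abs_of_nonneg (by positivity)] at h2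
        have h3 : 1 / (N : ℝ) * ‖∑ t ∈ range (Z + 1), D.e ((t : ℝ) * (((j + 1 : ℕ) : ℝ) / N))‖ ≤
            1 / N * (1 / (2 * (((j + 1 : ℕ) : ℝ) / N))) :=
          mul_le_mul_of_nonneg_left h2 (by positivity)
        have h4 : 1 / (N : ℝ) * (1 / (2 * (((j + 1 : ℕ) : ℝ) / N))) = 1 / (2 * ((j : ℝ) + 1)) := by
          push_cast
          field_simp
        linarith
      · have h5 : ∀ t : ℕ, D.e ((t : ℝ) * (((j + 1 : ℕ) : ℝ) / N)) =
            D.e ((t : ℝ) * (((j + 1 : ℕ) : ℝ) / N - 1)) := by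
          intro t
          have h6 : (t : ℝ) * (((j + 1 : ℕ) : ℝ) / N) =
              (t : ℝ) * (((j + 1 : ℕ) : ℝ) / N - 1) + ((t : ℤ) : ℝ) := by
            push_cast; ring
          rw [h6, D.e_add, D.e_int, mul_one]
        simp only [h5]
        have h7 : ((j + 1 : ℕ) : ℝ) / N - 1 < 0 := by
          rw [sub_neg, div_lt_one hNr]
          push_cast
          linarith
        have h2 := D.norm_geom (Z + 1) (((j + 1 : ℕ) : ℝ) / N - 1) h7.ne (by
          rw [abs_of_neg h7]; linarith)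
        rw [abs_of_neg h7] at h2
        have h3 : 1 / (N : ℝ) * ‖∑ t ∈ range (Z + 1), D.e ((t : ℝ) * (((j + 1 : ℕ) : ℝ) / N - 1))‖ ≤
            1 / N * (1 / (2 * -(((j + 1 : ℕ) : ℝ) / N - 1))) :=
          mul_le_mul_of_nonneg_left h2 (by positivity)
        have h4 : 1 / (N : ℝ) * (1 / (2 * -(((j + 1 : ℕ) : ℝ) / N - 1))) =
            1 / (2 * ((N : ℝ) - (j + 1))) := by
          have h8 : -(((j + 1 : ℕ) : ℝ) / N - 1) = ((N : ℝ) - (j + 1)) / N := by
            push_cast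
            field_simp
            ring
          rw [h8]
          field_simp
        linarith
    have h2 : ∑ h ∈ range N, ‖(1 / (N : ℂ)) * ∑ t ∈ range (Z + 1), e ((t : ℝ) * ((h : ℝ) / N))‖ =
        ∑ j ∈ range (2 * Z + 1), ‖(1 / (N : ℂ)) *
          ∑ t ∈ range (Z + 1), e ((t : ℝ) * (((j + 1 : ℕ) : ℝ) / N))‖ +
        ‖(1 / (N : ℂ)) * ∑ t ∈ range (Z + 1), e ((t : ℝ) * (((0 : ℕ) : ℝ) / N))‖ := by
      rw [hN, show 2 * Z + 2 = (2 * Z + 1) + 1 by ring, sum_range_succ']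
    rw [h2]
    have h3 : ‖(1 / (N : ℂ)) * ∑ t ∈ range (Z + 1), e ((t : ℝ) * (((0 : ℕ) : ℝ) / N))‖ ≤ 1 := by
      rw [h0]
      have h4 := D.norm_geom_le (Z + 1) (((0 : ℕ) : ℝ) / N)
      calc 1 / (N : ℝ) * ‖∑ t ∈ range (Z + 1), D.e ((t : ℝ) * (((0 : ℕ) : ℝ) / N))‖
          ≤ 1 / N * ((Z + 1 : ℕ) : ℝ) := mul_le_mul_of_nonneg_left h4 (by positivity)
        _ ≤ 1 := by
            rw [div_mul_eq_mul_div, one_mul, div_le_one hNr, hNZ]
            push_cast
            have : (0 : ℝ) ≤ Z := Nat.cast_nonneg _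
            linarith
    have h4 : ∑ j ∈ range (2 * Z + 1), ‖(1 / (N : ℂ)) *
          ∑ t ∈ range (Z + 1), e ((t : ℝ) * (((j + 1 : ℕ) : ℝ) / N))‖ ≤ 1 + Real.log N := by
      refine (sum_le_sum h1).trans ?_
      rw [sum_add_distrib, sum_range_reflect (fun j : ℕ => 1 / (2 * ((j : ℝ) + 1))) (2 * Z + 1),
        ← sum_add_distrib]
      have h5 := harmonic_le_one_add_log (2 * Z + 1)
      have h6 : (harmonic (2 * Z + 1) : ℝ) = ∑ j ∈ range (2 * Z + 1),
          (1 / (2 * ((j : ℝ) + 1)) + 1 / (2 * ((j : ℝ) + 1))) := by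
        unfold harmonic
        push_cast
        refine sum_congr rfl fun j _ => ?_
        have : (j : ℝ) + 1 ≠ 0 := by positivity
        field_simp
        ring
      rw [← h6]
      refine h5.trans ?_
      have h7 : Real.log ((2 * Z + 1 : ℕ) : ℝ) ≤ Real.log N := by
        apply Real.log_le_log
        · positivity
        · exact_mod_cast (by omega : 2 * Z + 1 ≤ N)
      linarith
    have h5 : 0 ≤ Real.log N := Real.log_natCast_nonneg N
    rw [← hNZ]
    linarith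
  · intro u v hu hv
    have h1 : ∀ h ∈ range N, (1 / (N : ℂ)) * (∑ t ∈ range (Z + 1), e ((t : ℝ) * ((h : ℝ) / N))) *
        ez N (h * u) * ez N (-(h * v)) =
        ∑ t ∈ range (Z + 1), (1 / (N : ℂ)) * e ((h : ℝ) * ((((t : ℤ) + u - v : ℤ) : ℝ) / N)) := by
      intro h _
      rw [mul_sum, sum_mul, sum_mul]
      refine sum_congr rfl fun t _ => ?_
      unfold ez
      rw [mul_assoc, mul_assoc, cpl_e, cpl_e, cpl_e, cpl_e, ← D.e_add, ← D.e_add]
      congr 2
      push_cast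
      ring
    rw [sum_congr rfl h1, sum_comm]
    have h2 : ∀ t ∈ range (Z + 1), ∑ h ∈ range N, (1 / (N : ℂ)) *
        e ((h : ℝ) * ((((t : ℤ) + u - v : ℤ) : ℝ) / N)) = if t + u = v then 1 else 0 := by
      intro t ht
      rw [mem_range] at ht
      rw [← mul_sum, cpl_orth hNpos]
      have h3 : ((N : ℤ) ∣ (t : ℤ) + u - v) ↔ t + u = v := by
        constructor
        · intro h
          have h4 : (t : ℤ) + u - v = 0 := by
            refine Int.eq_zero_of_abs_lt_dvd h ?_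
            rw [abs_lt]
            constructor <;> omega
          omega
        · intro h
          have h4 : (t : ℤ) + u - v = 0 := by omega
          rw [h4]
          exact dvd_zero _
      have hNc : (N : ℂ) ≠ 0 := by exact_mod_cast hNpos.ne'
      by_cases h4 : t + u = v
      · rw [if_pos (h3.2 h4), if_pos h4, one_div, inv_mul_cancel₀ hNc]
      · rw [if_neg (fun h => h4 (h3.1 h)), if_neg h4, mul_zero]
    rw [sum_congr rfl h2]
    by_cases huv : u ≤ v
    · rw [if_pos huv, sum_eq_single (v - u)]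
      · rw [if_pos (by omega)]
      · intro t _ ht
        rw [if_neg (by omega)]
      · intro h
        exact absurd (mem_range.2 (by omega)) h
    · rw [if_neg huv]
      symm
      refine sum_eq_zero fun t _ => ?_
      rw [if_neg (by omega)]

/-! ### linearity of the discrepancy -/

theorem cpl_disc {f : ℕ → ℂ} {y m : ℕ} {ι : Type*} (s : Finset ι) (γ : ι → ℂ) (F : ι → ℕ → ℂ) (f₂ : ℕ → ℂ)
    (h : ∀ n, 1 ≤ n → n ≤ y → f n = ∑ k ∈ s, γ k * F k n + f₂ n) :
    disc f y m = ∑ k ∈ s, γ k * disc (F k) y m + disc f₂ y m := by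
  rw [disc_eq_Wf, disc_eq_Wf f₂]
  simp only [disc_eq_Wf (F _)]
  have h1 : ∑ n ∈ Icc 1 y, f n * (Wf m n : ℂ) =
      ∑ n ∈ Icc 1 y, (∑ k ∈ s, γ k * (F k n * (Wf m n : ℂ)) + f₂ n * (Wf m n : ℂ)) := by
    refine sum_congr rfl fun n hn => ?_
    rw [mem_Icc] at hn
    rw [h n hn.1 hn.2, add_mul, sum_mul]
    congr 1
    refine sum_congr rfl fun k _ => ?_
    ring
  rw [h1, sum_add_distrib, sum_comm]
  simp only [← mul_sum]

theorem cpl_rough {u n Z : ℕ} (hn : 1 < n) (hu : u ≤ Z) : rough u n ↔ u ≤ min n.minFac Z := by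
  rw [le_min_iff]
  constructor
  · intro h
    exact ⟨h _ (Nat.minFac_prime (by omega)) (Nat.minFac_dvd n), hu⟩
  · rintro ⟨h, -⟩ p hp hpn
    exact h.trans (Nat.minFac_le_of_dvd hp.two_le hpn)

theorem cpl_norm_ez (q : ℕ) (a : ℤ) : ‖ez q a‖ = 1 := D.norm_e _

open Classical in
theorem disc_coupled_of (hbox : BoxH) (A C₁ : ℕ) : ∃ C : ℝ, 0 < C ∧ ∃ x₀ : ℕ, ∀ x ≥ x₀, ∀ ρ : ℝ,
    1 ≤ ρ ^ 4 * RR x → ρ ≤ 1 →
    0 < ρ → ∀ (S : Finset (ℕ × ℕ)) (c : ℕ × ℕ → ℝ), Dens x ρ C₁ S c → ∀ a : ℕ → ℂ, (∀ n, ‖a n‖ ≤ 1) →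
    Struct a → (∀ p : ℕ, p.Prime → a p = 0) →
    (∀ n, a n ≠ 0 → Dx x ≤ n ∧ n * Dx x ≤ x ∧ n.minFac ≤ Zc x) → ∀ y ≤ x,
    ‖∑ i ∈ S, (c i : ℂ) * disc (fun n => ∑ d ∈ n.divisors, a d * (if rough d.minFac (n / d) then 1 else 0)) y
      (i.1 * i.2)‖ ≤ C * ρ * x / Real.log x ^ A := by
  obtain ⟨C₀, hC₀, x₁, h₁⟩ := disc_conv_of hbox (A + 1) C₁
  obtain ⟨x₂, h₂⟩ := disc_small C₁
  obtain ⟨x₃, h₃⟩ := small_log A 1
  refine ⟨9 * C₀ + 1, by positivity, max (max x₁ x₂) (max x₃ 20), ?_⟩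
  intro x hx ρ hρR hρ1 hρ0 S c hD a ha hsa hap haD y hy
  simp only [ge_iff_le, max_le_iff] at hx
  obtain ⟨⟨hx₁, hx₂⟩, hx₃, hx20⟩ := hx
  have hx1 : 1 ≤ x := by omega
  have hxr : (20 : ℝ) ≤ x := by exact_mod_cast hx20
  have hx0 : (0 : ℝ) < x := by linarith
  have hlx : 1 ≤ Real.log x := by
    rw [Real.le_log_iff_exp_le hx0]
    have := Real.exp_one_lt_d9
    linarith
  have hR1 : 1 ≤ RR x := one_le_RR hx1
  have hR0 : 0 < RR x := by linarith
  set Z : ℕ := Zc x with hZ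
  set N : ℕ := 2 * Z + 2 with hN
  obtain ⟨γ, hγ, hγeq⟩ := fourier_le Z
  rw [← hN] at hγ hγeq
  -- the threshold
  have hex : ∃ n : ℕ, x ^ 2 ≤ n ^ 5 := ⟨x, Nat.pow_le_pow_right hx1 (by norm_num)⟩
  set A₀ : ℕ := Nat.find hex with hA₀
  have hA₀iff : ∀ n : ℕ, A₀ ≤ n ↔ x ^ 2 ≤ n ^ 5 := by
    intro n
    constructor
    · intro h
      exact (Nat.find_spec hex).trans (Nat.pow_le_pow_left h 5)
    · intro h
      exact Nat.find_min' hex h
  have hA₀2 : 2 ≤ A₀ := by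
    by_contra hcon
    have h4 : A₀ ≤ 1 := by omega
    have h5 : x ^ 2 ≤ 1 ^ 5 := (hA₀iff 1).1 h4
    nlinarith
  have hZr : (Z : ℝ) ≤ (x : ℝ) ^ (3 / 10 : ℝ) := Nat.floor_le (by positivity)
  have hZA : Z ≤ A₀ := by
    by_contra hcon
    push Not at hcon
    have h4 : x ^ 2 ≤ Z ^ 5 := (hA₀iff Z).1 hcon.le
    have h5 : (x : ℝ) ^ 2 ≤ (Z : ℝ) ^ 5 := by exact_mod_cast h4
    have h6 : (Z : ℝ) ^ 5 ≤ ((x : ℝ) ^ (3 / 10 : ℝ)) ^ 5 := pow_le_pow_left₀ (by positivity) hZr 5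
    have h7 : ((x : ℝ) ^ (3 / 10 : ℝ)) ^ 5 = (x : ℝ) ^ (3 / 2 : ℝ) := by
      rw [← Real.rpow_natCast, ← Real.rpow_mul hx0.le]
      norm_num
    have h8 : (x : ℝ) ^ (3 / 2 : ℝ) < (x : ℝ) ^ (2 : ℝ) :=
      Real.rpow_lt_rpow_of_exponent_lt (by linarith) (by norm_num)
    rw [Real.rpow_two] at h8
    linarith
  -- sizes of `Z`
  have hZx : (Z : ℝ) ≤ x := by
    refine hZr.trans ?_
    calc (x : ℝ) ^ (3 / 10 : ℝ) ≤ (x : ℝ) ^ (1 : ℝ) :=
          Real.rpow_le_rpow_of_exponent_le (by linarith) (by norm_num)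
      _ = x := Real.rpow_one _
  have hlogN : 3 * (1 + Real.log (2 * Z + 2)) ≤ 9 * Real.log x := by
    have h4 : Real.log (2 * Z + 2) ≤ 2 * Real.log x := by
      have h5 : 2 * Real.log x = Real.log ((x : ℝ) ^ 2) := by
        rw [Real.log_pow]; norm_num
      rw [h5]
      apply Real.log_le_log
      · positivity
      · nlinarith
    linarith
  -- the twisted sequences
  let b : ℕ → ℕ → ℂ := fun h n => if A₀ ≤ n then ez N (-((h : ℤ) * ((min n.minFac Z : ℕ) : ℤ))) else 0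
  let a' : ℕ → ℕ → ℂ := fun h n => a n * ez N ((h : ℤ) * (n.minFac : ℤ))
  let F : ℕ → ℕ → ℂ := fun h n => ∑ d ∈ n.divisors, a' h d * b h (n / d)
  let f₂ : ℕ → ℂ := fun n => ∑ d ∈ n.divisors,
    a d * (if n / d < A₀ ∧ rough d.minFac (n / d) then 1 else 0)
  have hb1 : ∀ h n, ‖b h n‖ ≤ 1 := by
    intro h n
    simp only [b]
    split_ifs
    · exact (cpl_norm_ez _ _).le
    · simp
  have ha1 : ∀ h n, ‖a' h n‖ ≤ 1 := by
    intro h n
    simp only [a']
    rw [norm_mul, cpl_norm_ez, mul_one]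
    exact ha n
  have hsb : ∀ h, Struct (b h) := fun h =>
    struct_cap (g := fun v => ez N (-((h : ℤ) * (v : ℤ)))) (fun v => (cpl_norm_ez _ _).le) hZA
  have hsa' : ∀ h, Struct (a' h) := fun h =>
    Struct.twist (g := fun v => ez N ((h : ℤ) * (v : ℤ))) hsa hap (fun v => (cpl_norm_ez _ _).le)
  have hbnz : ∀ h n, b h n ≠ 0 → x ^ 2 ≤ n ^ 5 := by
    intro h n hne
    rw [← hA₀iff]
    by_contra hcon
    apply hne
    simp only [b]
    rw [if_neg hcon]
  have hanz : ∀ h n, a' h n ≠ 0 → Dx x ≤ n ∧ n * Dx x ≤ x := by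
    intro h n hne
    have h4 : a n ≠ 0 := by
      intro h5
      apply hne
      simp only [a']
      rw [h5, zero_mul]
    exact ⟨(haD n h4).1, (haD n h4).2.1⟩
  have hconv : ∀ h, ‖∑ i ∈ S, (c i : ℂ) * disc (F h) y (i.1 * i.2)‖ ≤
      C₀ * ρ * x / Real.log x ^ (A + 1) := fun h =>
    h₁ x hx₁ ρ hρR hρ1 hρ0 S c hD (a' h) (b h) (ha1 h) (hb1 h) (hsa' h) (hsb h) (hanz h) (hbnz h) y hy
  -- the small part
  have hD5 := D_five x
  have hDR : RR x ≤ Dx x := RR_le_Dx hx1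
  have hD2 : 1 < Dx x := by
    have h4 : (1 : ℝ) < (Dx x : ℝ) := by
      refine lt_of_lt_of_le ?_ (Nat.le_ceil _)
      exact Real.one_lt_rpow (by linarith) (by norm_num)
    exact_mod_cast h4
  have hf₂1 : ∀ n, ‖f₂ n‖ ≤ n.divisors.card := by
    intro n
    simp only [f₂]
    refine (norm_sum_le _ _).trans ?_
    refine (sum_le_sum (g := fun _ => (1 : ℝ)) fun d _ => ?_).trans ?_
    · rw [norm_mul]
      refine mul_le_one₀ (ha d) (norm_nonneg _) ?_
      split_ifs <;> simp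
    · rw [sum_const, nsmul_eq_mul, mul_one]
  have hf₂2 : ∀ n, f₂ n ≠ 0 → 1 < n ∧ (n : ℝ) ≤ RR x ^ 999000 := by
    intro n hne
    obtain ⟨d, hd, hdne⟩ := exists_ne_zero_of_sum_ne_zero hne
    rw [Nat.mem_divisors] at hd
    have had : a d ≠ 0 := fun h4 => hdne (by rw [h4, zero_mul])
    have hcond : n / d < A₀ ∧ rough d.minFac (n / d) := by
      by_contra hcon
      apply hdne
      rw [if_neg hcon, mul_zero]
    obtain ⟨hDd, hdD, -⟩ := haD d had
    have hd0 : 0 < d := by omega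
    obtain ⟨n', hn'⟩ := hd.1
    have hn'd : n / d = n' := by rw [hn', Nat.mul_div_cancel_left _ hd0]
    have hn'0 : 0 < n' := by
      rcases Nat.eq_zero_or_pos n' with h4 | h4
      · rw [h4, mul_zero] at hn'
        exact absurd hn' hd.2
      · exact h4
    refine ⟨?_, ?_⟩
    · rw [hn']
      calc 1 < Dx x := hD2
        _ ≤ d := hDd
        _ = d * 1 := (mul_one d).symm
        _ ≤ d * n' := Nat.mul_le_mul_left d hn'0
    · have h4 : ¬ (x ^ 2 ≤ n' ^ 5) := by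
        rw [← hA₀iff, ← hn'd]
        exact not_le.2 hcond.1
      push Not at h4
      have h5 : (n' : ℝ) ^ 5 < (x : ℝ) ^ 2 := by exact_mod_cast h4
      have h6 : (n' : ℝ) * RR x ^ 1000 < Dx x := by
        by_contra hcon
        push Not at hcon
        have h7 : (Dx x : ℝ) ^ 5 ≤ ((n' : ℝ) * RR x ^ 1000) ^ 5 :=
          pow_le_pow_left₀ (by positivity) hcon 5
        have h8 : ((n' : ℝ) * RR x ^ 1000) ^ 5 = (n' : ℝ) ^ 5 * RR x ^ 5000 := by
          rw [mul_pow, ← pow_mul]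
        have h9 : (n' : ℝ) ^ 5 * RR x ^ 5000 < (x : ℝ) ^ 2 * RR x ^ 5000 :=
          mul_lt_mul_of_pos_right h5 (by positivity)
        linarith
      have h10 : (d : ℝ) * Dx x ≤ x := by exact_mod_cast hdD
      have hd0r : (0 : ℝ) < d := by exact_mod_cast hd0
      have h11 : (n : ℝ) * RR x ^ 1000 ≤ x := by
        rw [hn']
        push_cast
        calc (d : ℝ) * (n' : ℝ) * RR x ^ 1000 = (d : ℝ) * ((n' : ℝ) * RR x ^ 1000) := by ring
          _ ≤ (d : ℝ) * (Dx x : ℝ) := mul_le_mul_of_nonneg_left h6.le hd0r.le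
          _ ≤ (x : ℝ) := h10
      have h12 : (x : ℝ) = RR x ^ 999000 * RR x ^ 1000 := by
        rw [← pow_add]
        exact (RR_pow x).symm
      rw [h12] at h11
      exact le_of_mul_le_mul_right h11 (by positivity)
  have hsmall := h₂ x hx₂ ρ hρ0 hρ1 S c hD f₂ (RR x ^ 999000) (one_le_pow₀ hR1) hf₂1 hf₂2 y hy
  -- the pointwise identity
  have hpt : ∀ n, 1 ≤ n → n ≤ y →
      (∑ d ∈ n.divisors, a d * (if rough d.minFac (n / d) then 1 else 0)) =
      ∑ h ∈ range N, γ h * F h n + f₂ n := by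
    intro n hn _
    simp only [F, f₂, mul_sum]
    rw [sum_comm, ← sum_add_distrib]
    refine sum_congr rfl fun d hd => ?_
    rw [Nat.mem_divisors] at hd
    by_cases had : a d = 0
    · simp only [a', had, zero_mul, mul_zero, sum_const_zero, add_zero]
    · obtain ⟨hDd, -, hmin⟩ := haD d had
      by_cases hcase : A₀ ≤ n / d
      · have h4 : ¬ (n / d < A₀ ∧ rough d.minFac (n / d)) := fun h => absurd h.1 (not_lt.2 hcase)
        rw [if_neg h4, mul_zero, add_zero]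
        have h5 := hγeq d.minFac (min (n / d).minFac Z) hmin (min_le_right _ _)
        have h6 : (if rough d.minFac (n / d) then 1 else 0 : ℂ) =
            (if d.minFac ≤ min (n / d).minFac Z then 1 else 0 : ℂ) :=
          if_congr (cpl_rough (by omega) hmin) rfl rfl
        rw [h6, h5, mul_sum]
        refine sum_congr rfl fun h _ => ?_
        simp only [a', b]
        rw [if_pos hcase]
        ring
      · have h4 : ∀ h, b h (n / d) = 0 := by
          intro h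
          simp only [b]
          rw [if_neg hcase]
        simp only [h4, mul_zero, sum_const_zero, zero_add]
        congr 1
        refine if_congr ?_ rfl rfl
        constructor
        · intro h
          exact ⟨not_le.1 hcase, h⟩
        · intro h
          exact h.2
  have hdisc : ∀ i : ℕ × ℕ, disc (fun n => ∑ d ∈ n.divisors,
      a d * (if rough d.minFac (n / d) then 1 else 0)) y (i.1 * i.2) =
      ∑ h ∈ range N, γ h * disc (F h) y (i.1 * i.2) + disc f₂ y (i.1 * i.2) := fun i =>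
    cpl_disc (range N) γ F f₂ hpt
  have hsplit : ∑ i ∈ S, (c i : ℂ) * disc (fun n => ∑ d ∈ n.divisors,
      a d * (if rough d.minFac (n / d) then 1 else 0)) y (i.1 * i.2) =
      ∑ h ∈ range N, γ h * ∑ i ∈ S, (c i : ℂ) * disc (F h) y (i.1 * i.2) +
      ∑ i ∈ S, (c i : ℂ) * disc f₂ y (i.1 * i.2) := by
    have h4 : ∀ i ∈ S, (c i : ℂ) * disc (fun n => ∑ d ∈ n.divisors,
        a d * (if rough d.minFac (n / d) then 1 else 0)) y (i.1 * i.2) =
        ∑ h ∈ range N, γ h * ((c i : ℂ) * disc (F h) y (i.1 * i.2)) +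
          (c i : ℂ) * disc f₂ y (i.1 * i.2) := by
      intro i _
      rw [hdisc i, mul_add, mul_sum]
      congr 1
      refine sum_congr rfl fun h _ => ?_
      ring
    rw [sum_congr rfl h4, sum_add_distrib, sum_comm]
    simp only [← mul_sum]
  rw [hsplit]
  refine (norm_add_le _ _).trans ?_
  -- main part
  have hmain : ‖∑ h ∈ range N, γ h * ∑ i ∈ S, (c i : ℂ) * disc (F h) y (i.1 * i.2)‖ ≤
      9 * C₀ * ρ * x / Real.log x ^ A := by
    refine (norm_sum_le _ _).trans ?_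
    calc ∑ h ∈ range N, ‖γ h * ∑ i ∈ S, (c i : ℂ) * disc (F h) y (i.1 * i.2)‖
        ≤ ∑ h ∈ range N, ‖γ h‖ * (C₀ * ρ * x / Real.log x ^ (A + 1)) := by
          refine sum_le_sum fun h _ => ?_
          rw [norm_mul]
          exact mul_le_mul_of_nonneg_left (hconv h) (norm_nonneg _)
      _ = (∑ h ∈ range N, ‖γ h‖) * (C₀ * ρ * x / Real.log x ^ (A + 1)) := by rw [sum_mul]
      _ ≤ 9 * Real.log x * (C₀ * ρ * x / Real.log x ^ (A + 1)) :=
          mul_le_mul_of_nonneg_right (hγ.trans hlogN) (by positivity)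
      _ = 9 * C₀ * ρ * x / Real.log x ^ A := by
          have : Real.log x ≠ 0 := by linarith
          rw [pow_succ]
          field_simp
  -- small part
  have hsm : ‖∑ i ∈ S, (c i : ℂ) * disc f₂ y (i.1 * i.2)‖ ≤ 1 * ρ * x / Real.log x ^ A := by
    refine (norm_sum_le _ _).trans ?_
    have h4 : ∑ i ∈ S, ‖(c i : ℂ) * disc f₂ y (i.1 * i.2)‖ = ∑ i ∈ S, c i * ‖disc f₂ y (i.1 * i.2)‖ := by
      refine sum_congr rfl fun i hi => ?_
      rw [norm_mul, Complex.norm_real, Real.norm_of_nonneg (hD.nonneg i hi)]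
    rw [h4]
    refine hsmall.trans ?_
    rw [le_div_iff₀ (by positivity)]
    have h5 : Real.log x ^ A ≤ RR x := by
      have := h₃ x hx₃
      rwa [one_mul] at this
    have h6 : 1 ≤ ρ * RR x := by
      have h7 : ρ ^ 4 ≤ ρ := by
        calc ρ ^ 4 ≤ ρ ^ 1 := pow_le_pow_of_le_one hρ0.le hρ1 (by norm_num)
          _ = ρ := pow_one ρ
      exact hρR.trans (mul_le_mul_of_nonneg_right h7 hR0.le)
    have h8 : (x : ℝ) = RR x ^ 999999 * RR x := by
      rw [← pow_succ]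
      exact (RR_pow x).symm
    calc RR x ^ 999000 * RR x * Real.log x ^ A ≤ RR x ^ 999000 * RR x * RR x :=
          mul_le_mul_of_nonneg_left h5 (by positivity)
      _ = RR x ^ 999002 := by ring
      _ ≤ RR x ^ 999999 := pow_le_pow_right₀ hR1 (by norm_num)
      _ = 1 * RR x ^ 999999 := (one_mul _).symm
      _ ≤ (ρ * RR x) * RR x ^ 999999 := mul_le_mul_of_nonneg_right h6 (by positivity)
      _ = 1 * ρ * (RR x ^ 999999 * RR x) := by ring
      _ = 1 * ρ * x := by rw [← h8]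
  calc _ ≤ 9 * C₀ * ρ * x / Real.log x ^ A + 1 * ρ * x / Real.log x ^ A := add_le_add hmain hsm
    _ = (9 * C₀ + 1) * ρ * x / Real.log x ^ A := by ring

end Pool.Agent.ZH
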