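import Pool.Agent.Work.BV.Defs

/-!
# Cell ZH: primes `q ≡ 1` mod `m` for factorable moduli `m` beyond `x^(1/2)` (elementary dispersion method)

Definitions. All sizes are compared with powers of `R = x^(10^-6)`.
-/

namespace Pool.Agent.ZH

open Finset Pool.Agent.BV

noncomputable section

/-- `R = x^(10^-6)` -/
def RR (x : ℕ) : ℝ := (x : ℝ) ^ (1 / 1000000 : ℝ)

/-! ### Finite exponential sums -/

/-- `e(a / q)` -/
def ez (q : ℕ) (a : ℤ) : ℂ := e ((a : ℝ) / q)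

/-- an inverse of `a` modulo `q`, as an integer (junk if `a` is not prime to `q`) -/
def zinv (q : ℕ) (a : ℤ) : ℤ := (((a : ZMod q)⁻¹).val : ℤ)

/-- `F` has period `q` -/
def Per (q : ℕ) (F : ℤ → ℂ) : Prop := ∀ t, F (t + q) = F t

/-- the additive energy of a function of period `W` -/
def en (W : ℕ) (F : ℤ → ℂ) : ℝ :=
  ∑ h ∈ range W, ‖∑ t ∈ range W, F ((t : ℤ) + h) * (starRingEnd ℂ) (F t)‖ ^ 2

/-- the local function `e(A (t + r)⁻¹ / q)` -/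
def locf (q : ℕ) (A r t : ℤ) : ℂ := if IsCoprime (t + r) (q : ℤ) then ez q (A * zinv q (t + r)) else 0

/-- the residue `k` with `k l ≡ 1` mod `m a` and `k (l + m j) ≡ 1` mod `b` -/
def k0 (m a b : ℕ) (j l : ℤ) : ℤ :=
  zinv (m * a) l * (b * zinv (m * a) b) + zinv b (l + m * j) * ((m * a : ℕ) * zinv b (m * a : ℕ))

/-- the phase of the dispersion method -/
def Ph (m a b : ℕ) (j h l : ℤ) : ℂ :=
  if IsCoprime l ((m * a : ℕ) : ℤ) ∧ IsCoprime (l + m * j) (b : ℤ) then ez (m * a * b) (-(h * k0 m a b j l))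
  else 0

/-! ### The triangular weight -/

/-- the triangular weight with peak `2K` and support `(0, 4K)` -/
def tri (K : ℕ) (k : ℤ) : ℝ := max 0 (1 - |(k : ℝ) - 2 * K| / (2 * K))

/-- the Fourier coefficients of the triangular weight modulo `Q` -/
def gq (K Q : ℕ) (h : ℤ) : ℝ := ‖∑ a ∈ range (2 * K), ez Q (h * a)‖ ^ 2 / (2 * K * Q)

/-- the symmetric system of residues modulo `Q` -/
def HS (Q : ℕ) : Finset ℤ := Finset.Ico (-((Q / 2 : ℕ) : ℤ)) ((Q : ℤ) - (Q / 2 : ℕ))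

/-! ### Bilinear forms in arithmetic progressions -/

/-- the discrepancy of the bilinear form `∑ α(k) β(l)`, `k ∈ [K, 2K)`, `l ∈ [L, 2L)`, `k l ≡ 1` mod `q` -/
def Dab (α β : ℕ → ℂ) (K L q : ℕ) : ℂ :=
  ∑ k ∈ Ico K (2 * K), ∑ l ∈ Ico L (2 * L), α k * β l *
    ((if k * l ≡ 1 [MOD q] then 1 else 0) - (if Nat.Coprime (k * l) q then 1 / (q.totient : ℂ) else 0))

/-- `∑ β(l₁) conj β(l₂)` over `l₁ ≡ l₂` mod `m` prime to `m` -/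
def Sbb (β : ℕ → ℂ) (L m : ℕ) : ℂ :=
  ∑ l₁ ∈ Ico L (2 * L), ∑ l₂ ∈ Ico L (2 * L),
    if l₁ ≡ l₂ [MOD m] ∧ Nat.Coprime l₁ m then β l₁ * (starRingEnd ℂ) (β l₂) else 0

/-- `∑ β(l)` over `l` prime to `m` -/
def Bs (β : ℕ → ℂ) (L m : ℕ) : ℂ := ∑ l ∈ (Ico L (2 * L)).filter (fun l => Nat.Coprime l m), β l

/-- the variance of `β` in the reduced residue classes modulo `m` -/
def err (β : ℕ → ℂ) (L m : ℕ) : ℝ := (Sbb β L m).re - ‖Bs β L m‖ ^ 2 / m.totient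

/-- admissible factorizations `m u v` of the moduli -/
structure Good (x m u v : ℕ) : Prop where
  mpos : 0 < m
  vprime : v.Prime
  usq : Squarefree u
  upr : ∀ p : ℕ, p.Prime → p ∣ u → RR x ^ 100 ≤ (p : ℝ)
  vlo : RR x ^ 100 ≤ (v : ℝ)
  cop : Nat.Coprime m (u * v)
  cop' : Nat.Coprime u v
  sf : ∀ g : ℕ, g ^ 2 ∣ m → (g : ℝ) ≤ RR x

/-- the sizes in the type II theorem: `k ∈ [K, 2K)`, `l ∈ [L, 2L)`, modulus `m u v` with `m ∈ [M, 2M)`,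
`u ∈ [U, 2U)`, `v ∈ [V, 2V)` -/
structure Hyp (x K L M U V : ℕ) : Prop where
  pos : 0 < L ∧ 0 < M ∧ 0 < U ∧ 0 < V
  LK : L ≤ K
  KL : K * L ≤ x
  KL' : (x : ℝ) ≤ K * L * RR x ^ 12
  ML : (M : ℝ) * RR x ^ 10 ≤ L
  LM : (L : ℝ) ≤ M * RR x ^ 165
  V1 : RR x ^ 100 ≤ 2 * V
  V2 : (V : ℝ) ≤ RR x ^ 151
  MUV : ((M * U * V : ℕ) : ℝ) ^ 2 ≤ K * L * RR x ^ 16
  L5 : (x : ℝ) ^ 2 * RR x ^ 4900 ≤ (L : ℝ) ^ 5

/-- `β` depends on the largest prime factor only through an interval: for `p ≥ P⁺(n)`,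
`β (p n) = c(n)` if `lo n ≤ p < hi n`, and `0` otherwise -/
def Struct (β : ℕ → ℂ) : Prop :=
  ∃ (c : ℕ → ℂ) (lo : ℕ → ℕ) (hi : ℕ → ℕ∞), (∀ n, ‖c n‖ ≤ 1) ∧
    ∀ n p : ℕ, 0 < n → p.Prime → (∀ q : ℕ, q.Prime → q ∣ n → q ≤ p) →
      β (p * n) = if lo n ≤ p ∧ (p : ℕ∞) < hi n then c n else 0

/-! ### Moduli -/

/-- `m₁ m₂` is an admissible modulus -/
structure GoodPair (x m₁ m₂ : ℕ) : Prop where
  lo : x ≤ (m₁ * m₂) ^ 2
  hi : ((m₁ * m₂ : ℕ) : ℝ) ^ 2 ≤ x * RR x ^ 3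
  sf : ∀ g : ℕ, g ^ 2 ∣ m₁ * m₂ → (g : ℝ) ≤ RR x
  split : ∀ L : ℕ, (x : ℝ) ^ 2 * RR x ^ 4900 ≤ (L : ℝ) ^ 5 → L ^ 2 ≤ x →
    ∃ m' u v : ℕ, m₂ = m' * u * v ∧ Good x (m₁ * m') u v ∧ (v : ℝ) ≤ RR x ^ 150 ∧
      ((m₁ * m' : ℕ) : ℝ) * RR x ^ 11 ≤ L ∧ (L : ℝ) ≤ ((m₁ * m' : ℕ) : ℝ) * RR x ^ 163

/-- the weights `c` on the finite set `S` of pairs `(m₁, m₂)` have density about `ρ` (up to powers of
`log x`) in every factorization -/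
structure Dens (x : ℕ) (ρ : ℝ) (C₁ : ℕ) (S : Finset (ℕ × ℕ)) (c : ℕ × ℕ → ℝ) : Prop where
  nonneg : ∀ i ∈ S, 0 ≤ c i
  le_one : ∀ i ∈ S, c i ≤ 1
  good : ∀ i ∈ S, GoodPair x i.1 i.2
  total : ∑ i ∈ S, c i / ((i.1 * i.2 : ℕ) : ℝ) ≤ ρ * Real.log x ^ C₁
  fourth : ∀ M U V : ℕ, 0 < M → 0 < U → 0 < V → RR x ^ 99 ≤ ((U * V : ℕ) : ℝ) →
    ∑ i ∈ (Icc 1 x ×ˢ Icc 1 x).filter (fun i => M ≤ i.1 * i.2 ∧ i.1 * i.2 < 2 * M),
      (∑ u ∈ Ico U (2 * U), ∑ v ∈ Ico V (2 * V),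
        if (i.1, i.2 * u * v) ∈ S then c (i.1, i.2 * u * v) / ((u * v : ℕ) : ℝ) else 0) ^ 4 ≤
    M * ρ ^ 4 * Real.log x ^ C₁

/-- the discrepancy of `f` in the class of `1` modulo `m` -/
def disc (f : ℕ → ℂ) (x m : ℕ) : ℂ :=
  ∑ n ∈ (Icc 1 x).filter (fun n => n ≡ 1 [MOD m]), f n -
    (∑ n ∈ (Icc 1 x).filter (fun n => Nat.Coprime n m), f n) / (m.totient : ℂ)

/-! ### The combinatorial identity -/

/-- `D = x^0.401` -/
def Dx (x : ℕ) : ℕ := ⌈(x : ℝ) ^ (401 / 1000 : ℝ)⌉₊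
/-- `z = x / D²`, about `x^0.198` -/
def zx (x : ℕ) : ℕ := x / Dx x ^ 2
/-- `y`, just above `√x` -/
def yx (x : ℕ) : ℕ := Nat.sqrt x + 1
/-- the cap `x^0.3` for the smallest prime factors -/
def Zc (x : ℕ) : ℕ := ⌊(x : ℝ) ^ (3 / 10 : ℝ)⌋₊

/-- all prime factors of `n` are `≥ y` -/
def rough (y n : ℕ) : Prop := ∀ p : ℕ, p.Prime → p ∣ n → y ≤ p

/-- squarefree numbers with prime factors `< D`, at most one of them `≥ z` -/
def CC (z D c : ℕ) : Prop :=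
  Squarefree c ∧ (∀ p : ℕ, p.Prime → p ∣ c → p < D) ∧ (c.primeFactors.filter (fun p => z ≤ p)).card ≤ 1

/-- the minimal prefixes (in decreasing order of the primes) which are `≥ D` -/
def EE (z D n : ℕ) : Prop := CC z D n ∧ D ≤ n ∧ n / n.minFac < D

open Classical in
/-- type I part -/
def I1 (z D n : ℕ) : ℤ :=
  ∑ c ∈ n.divisors.filter (fun c => CC z D c ∧ c < D), ArithmeticFunction.moebius c

open Classical in
/-- type II part -/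
def I2 (z D n : ℕ) : ℤ :=
  ∑ d ∈ n.divisors.filter (fun d => EE z D d),
    ArithmeticFunction.moebius d * (if rough d.minFac (n / d) then 1 else 0)

open Classical in
/-- one prime factor in `[D, y)` -/
def T2 (D y n : ℕ) : ℤ :=
  ∑ p ∈ n.primeFactors.filter (fun p => D ≤ p ∧ p < y), if rough p (n / p) then 1 else 0

open Classical in
/-- two prime factors in `[z, D)` with a condition `P` on the pair -/
def T4 (P : ℕ → ℕ → Prop) (z D n : ℕ) : ℤ :=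
  ∑ p ∈ n.primeFactors.filter (fun p => z ≤ p ∧ p < D),
    ∑ q ∈ (n / p).primeFactors.filter (fun q => z ≤ q ∧ q < p ∧ P p q), if rough q (n / (p * q)) then 1 else 0

/-- ordered pairs of primes `≥ D` with product `n` -/
def I3 (D n : ℕ) : ℤ :=
  ((n.divisors.filter (fun d => d.Prime ∧ (n / d).Prime ∧ D ≤ d ∧ D ≤ n / d)).card : ℤ)

/-- number of primes `q ≤ x`, `q ≡ 1` mod `m` -/
def pi1 (x m : ℕ) : ℕ := ((Icc 1 x).filter (fun q => q.Prime ∧ q ≡ 1 [MOD m])).card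

/-- number of primes `≤ x` -/
def pix (x : ℕ) : ℕ := ((Icc 1 x).filter Nat.Prime).card

/-! ### The prime side -/

/-- `P = N^(1 + 10^-7)` -/
def PP (N : ℕ) : ℕ := ⌊(N : ℝ) ^ (1 + 1 / 10000000 : ℝ)⌋₊
/-- `x = P² / α` -/
def XX (N : ℕ) (α : ℝ) : ℕ := ⌊(PP N : ℝ) ^ 2 / α⌋₊

/-- the tuples: `p ≡ 1` mod `d`, `p ≡ -1` mod `m`, `d (p + 1) / m ∈ (N, 2N]`; the modulus is `m (p - 1) / d` -/
structure Tup (N : ℕ) (α ε : ℝ) (d m p : ℕ) : Prop where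
  dprime : d.Prime
  dlo : (N : ℝ) ^ (1 / 5 : ℝ) ≤ d
  pprime : p.Prime
  plo : PP N < p
  phi : (p : ℝ) ≤ (1 + ε) * PP N
  dvd₁ : d ∣ p - 1
  dvd₂ : m ∣ p + 1
  lo : N < d * ((p + 1) / m)
  hi : d * ((p + 1) / m) ≤ 2 * N
  good : GoodPair (XX N α) ((p - 1) / d) m

end

end Pool.Agent.ZH
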