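import Pool.Agent.Work.ZH.SWStruct
import Pool.Agent.Work.ZH.BDH

/-! # Barban-Davenport-Halberstam for structured sequences -/

namespace Pool.Agent.ZH

open Finset Pool.Agent.BV

theorem thm_C (A : ℕ) : ∃ C : ℝ, 0 < C ∧ ∃ x₀ : ℕ, ∀ x ≥ x₀, ∀ L M : ℕ, x ^ 2 ≤ L ^ 5 → L ≤ x →
    (M : ℝ) * RR x ^ 10 ≤ L → ∀ β : ℕ → ℂ, (∀ l, ‖β l‖ ≤ 1) → Struct β →
    ∑ m ∈ Ico M (2 * M), (m.divisors.card : ℝ) * err β L m ≤ C * (L : ℝ) ^ 2 / Real.log x ^ A :=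
  thm_C_of sw_struct A

end Pool.Agent.ZH
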