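import Pool.Agent.Work.ZH.Small

/-! # Cell ZH, module DensT: density of the moduli coming from primes `p` -/

namespace Pool.Agent.ZH

open Finset Pool.Agent.BV

namespace DensT

/-- the elementary facts about a tuple -/
structure Facts (N P d m p m₁ k : ℕ) : Prop where
  d0 : 0 < d
  m0 : 0 < m
  m10 : 0 < m₁
  hp : p = 1 + d * m₁
  hk : p + 1 = m * k
  lo : N < d * k
  hi : d * k ≤ 2 * N
  plo : P < p
  phi : p ≤ 2 * P

theorem facts {N : ℕ} {α ε : ℝ} {d m p : ℕ} (hε1 : ε ≤ 1) (h : Tup N α ε d m p) :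
    Facts N (PP N) d m p ((p - 1) / d) ((p + 1) / m) := by
  have hp1 : 1 < p := h.pprime.one_lt
  have hd := h.dprime.pos
  have hm : 0 < m := Nat.pos_of_dvd_of_pos h.dvd₂ (by omega)
  have e1 : d * ((p - 1) / d) = p - 1 := Nat.mul_div_cancel' h.dvd₁
  have e2 : m * ((p + 1) / m) = p + 1 := Nat.mul_div_cancel' h.dvd₂
  have hphi : (p : ℝ) ≤ 2 * (PP N : ℝ) := by
    refine h.phi.trans ?_
    have : (0 : ℝ) ≤ PP N := by positivity
    nlinarith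
  refine ⟨hd, hm, ?_, by omega, e2.symm, h.lo, h.hi, h.plo, by exact_mod_cast hphi⟩
  refine Nat.pos_of_ne_zero fun h0 => ?_
  rw [h0, mul_zero] at e1
  omega

theorem Facts.dP {N P d m p m₁ k : ℕ} (h : Facts N P d m p m₁ k) : d * P ≤ 2 * N * m := by
  have h1 : d * (m * k) ≤ 2 * N * m := by
    calc d * (m * k) = d * k * m := by ring
      _ ≤ 2 * N * m := Nat.mul_le_mul_right m h.hi
  have h2 : d * P ≤ d * (m * k) := Nat.mul_le_mul_left d (by have := h.hk; have := h.plo; omega)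
  exact h2.trans h1

theorem Facts.prod {N P d m p m₁ k : ℕ} (h : Facts N P d m p m₁ k) :
    m₁ * m * (d * k) = (d * m₁) * (d * m₁ + 2) := by
  have h1 := h.hp
  have h2 := h.hk
  have h3 : m * k = d * m₁ + 2 := by omega
  calc m₁ * m * (d * k) = d * m₁ * (m * k) := by ring
    _ = _ := by rw [h3]

/-- two solutions of `m₂ ∣ d m₁ + 2` -/
theorem dvd_two_mul_sub {m₁ m₂ d d' : ℕ} (h : m₂ ∣ d * m₁ + 2) (h' : m₂ ∣ d' * m₁ + 2) :
    (m₂ : ℤ) ∣ 2 * ((d : ℤ) - d') := by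
  have h1 : (m₂ : ℤ) ∣ (d : ℤ) * m₁ + 2 := by exact_mod_cast h
  have h2 : (m₂ : ℤ) ∣ (d' : ℤ) * m₁ + 2 := by exact_mod_cast h'
  have h3 : (m₂ : ℤ) ∣ ((d : ℤ) - d') * m₁ := by
    have := dvd_sub h1 h2
    have e : ((d : ℤ) * m₁ + 2) - ((d' : ℤ) * m₁ + 2) = ((d : ℤ) - d') * m₁ := by ring
    rwa [e] at this
  -- `2 (d - d') = ((d m₁ + 2) (d - d')) - d (m₁ (d - d'))`
  have e : 2 * ((d : ℤ) - d') = ((d : ℤ) * m₁ + 2) * ((d : ℤ) - d') - d * (((d : ℤ) - d') * m₁) := by ring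
  rw [e]
  exact dvd_sub (Dvd.dvd.mul_right h1 _) (Dvd.dvd.mul_left h3 _)

theorem card_D_le (m₁ m₂ Y : ℕ) :
    ((Icc 1 Y).filter (fun d => m₂ ∣ d * m₁ + 2)).card ≤ 2 * Y / m₂ + 1 := by
  rw [← card_range (2 * Y / m₂ + 1)]
  refine card_le_card_of_injOn (fun d => 2 * d / m₂) ?_ ?_
  · intro d hd
    simp only [coe_filter, mem_Icc, Set.mem_ofPred_eq] at hd
    simp only [coe_range, Set.mem_Iio]
    have : 2 * d / m₂ ≤ 2 * Y / m₂ := Nat.div_le_div_right (by omega)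
    omega
  · intro d hd d' hd' hdd
    simp only [coe_filter, mem_Icc, Set.mem_ofPred_eq] at hd hd'
    simp only at hdd
    have h1 := dvd_two_mul_sub hd.2 hd'.2
    have h2 : 2 * d ≡ 2 * d' [MOD m₂] := by
      rw [← Int.natCast_modEq_iff, Int.modEq_comm, Int.modEq_iff_dvd]
      push_cast
      rw [← mul_sub]
      exact h1
    have h3 : 2 * d % m₂ = 2 * d' % m₂ := h2
    have h4 := Nat.div_add_mod (2 * d) m₂
    have h5 := Nat.div_add_mod (2 * d') m₂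
    rw [hdd, h3, h5] at h4
    omega

/-- uniqueness -/
theorem unique {N P d m p m₁ k d' p' k' : ℕ} (hNP : 4 * N < P) (h : Facts N P d m p m₁ k)
    (h' : Facts N P d' m p' m₁ k') : d = d' ∧ p = p' := by
  have h1 : m ∣ d * m₁ + 2 := ⟨k, by have := h.hp; have := h.hk; omega⟩
  have h2 : m ∣ d' * m₁ + 2 := ⟨k', by have := h'.hp; have := h'.hk; omega⟩
  have h3 := dvd_two_mul_sub h1 h2
  have hb : ∀ e : ℕ, e * P ≤ 2 * N * m → 2 * e < m := by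
    intro e he
    by_contra hcon
    push Not at hcon
    have hm := h.m0
    have : m * P ≤ 4 * N * m := by
      calc m * P ≤ 2 * e * P := Nat.mul_le_mul_right P hcon
        _ = 2 * (e * P) := by ring
        _ ≤ 2 * (2 * N * m) := Nat.mul_le_mul_left 2 he
        _ = 4 * N * m := by ring
    have h5 : 4 * N * m < P * m := Nat.mul_lt_mul_of_pos_right hNP hm
    rw [mul_comm m P] at this
    omega
  have hd := hb d h.dP
  have hd' := hb d' h'.dP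
  have h4 : 2 * ((d : ℤ) - d') = 0 := by
    refine Int.eq_zero_of_abs_lt_dvd h3 ?_
    rw [abs_lt]
    constructor <;> omega
  have h5 : d = d' := by omega
  refine ⟨h5, ?_⟩
  rw [h.hp, h'.hp, h5]

/-- the inner sum -/
theorem inner_le (S : Finset (ℕ × ℕ)) (U V Y : ℕ) (hU : 0 < U) (hV : 0 < V) (m₁ m₂ : ℕ)
    (hS : ∀ u v : ℕ, u ∈ Ico U (2 * U) → v ∈ Ico V (2 * V) → (m₁, m₂ * u * v) ∈ S →
      ∃ d : ℕ, 1 ≤ d ∧ d ≤ Y ∧ m₂ * u * v ∣ d * m₁ + 2) :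
    ∑ u ∈ Ico U (2 * U), ∑ v ∈ Ico V (2 * V),
        (if (m₁, m₂ * u * v) ∈ S then 1 / ((u * v : ℕ) : ℝ) else 0) ≤
      1 / ((U : ℝ) * V) * ∑ d ∈ (Icc 1 Y).filter (fun d => m₂ ∣ d * m₁ + 2),
        ((d * m₁ + 2).divisors.card : ℝ) ^ 2 := by
  have hU' : (0 : ℝ) < U := by exact_mod_cast hU
  have hV' : (0 : ℝ) < V := by exact_mod_cast hV
  set D := (Icc 1 Y).filter (fun d => m₂ ∣ d * m₁ + 2) with hD
  have h1 : ∀ u ∈ Ico U (2 * U), ∀ v ∈ Ico V (2 * V),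
      (if (m₁, m₂ * u * v) ∈ S then 1 / ((u * v : ℕ) : ℝ) else 0) ≤
        1 / ((U : ℝ) * V) * ∑ d ∈ D, (if u ∣ d * m₁ + 2 then (1 : ℝ) else 0) *
          (if v ∣ d * m₁ + 2 then 1 else 0) := by
    intro u hu v hv
    have hn : ∀ d ∈ D, (0 : ℝ) ≤ (if u ∣ d * m₁ + 2 then (1 : ℝ) else 0) *
          (if v ∣ d * m₁ + 2 then 1 else 0) := by
      intro d _
      split_ifs <;> norm_num
    by_cases h : (m₁, m₂ * u * v) ∈ S
    · rw [if_pos h]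
      obtain ⟨d, hd1, hd2, hd3⟩ := hS u v hu hv h
      have hmem : d ∈ D := by
        rw [hD, mem_filter, mem_Icc]
        exact ⟨⟨hd1, hd2⟩, (Dvd.intro _ rfl : m₂ ∣ m₂ * u).trans ((Dvd.intro _ rfl).trans hd3)⟩
      have hu' : u ∣ d * m₁ + 2 := ((Dvd.intro_left _ rfl : u ∣ m₂ * u).trans (Dvd.intro _ rfl)).trans hd3
      have hv' : v ∣ d * m₁ + 2 := (Dvd.intro_left _ rfl : v ∣ m₂ * u * v).trans hd3
      have h2 : (1 : ℝ) ≤ ∑ d ∈ D, (if u ∣ d * m₁ + 2 then (1 : ℝ) else 0) *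
          (if v ∣ d * m₁ + 2 then 1 else 0) := by
        refine le_trans (le_of_eq ?_) (single_le_sum hn hmem)
        simp [hu', hv']
      have h3 : 1 / ((u * v : ℕ) : ℝ) ≤ 1 / ((U : ℝ) * V) := by
        refine one_div_le_one_div_of_le (by positivity) ?_
        have hu1 := (mem_Ico.1 hu).1
        have hv1 := (mem_Ico.1 hv).1
        have : U * V ≤ u * v := Nat.mul_le_mul hu1 hv1
        exact_mod_cast this
      calc 1 / ((u * v : ℕ) : ℝ) ≤ 1 / ((U : ℝ) * V) * 1 := by rw [mul_one]; exact h3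
        _ ≤ _ := by gcongr
    · rw [if_neg h]
      exact mul_nonneg (by positivity) (sum_nonneg hn)
  refine (sum_le_sum fun u hu => sum_le_sum fun v hv => h1 u hu v hv).trans ?_
  simp only [← mul_sum]
  refine mul_le_mul_of_nonneg_left ?_ (by positivity)
  have e1 : ∀ u ∈ Ico U (2 * U), ∑ v ∈ Ico V (2 * V), ∑ d ∈ D,
      (if u ∣ d * m₁ + 2 then (1 : ℝ) else 0) * (if v ∣ d * m₁ + 2 then 1 else 0) =
      ∑ d ∈ D, (if u ∣ d * m₁ + 2 then (1 : ℝ) else 0) *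
        ∑ v ∈ Ico V (2 * V), (if v ∣ d * m₁ + 2 then 1 else 0) := by
    intro u _
    rw [sum_comm]
    refine sum_congr rfl fun d _ => ?_
    rw [mul_sum]
  rw [sum_congr rfl e1, sum_comm]
  refine sum_le_sum fun d _ => ?_
  rw [← sum_mul, sq]
  have hc : ∀ W : ℕ, 0 < W → ∑ v ∈ Ico W (2 * W), (if v ∣ d * m₁ + 2 then (1 : ℝ) else 0) ≤
      ((d * m₁ + 2).divisors.card : ℝ) := by
    intro W hW
    rw [sum_boole]
    have : (Ico W (2 * W)).filter (fun v => v ∣ d * m₁ + 2) ⊆ (d * m₁ + 2).divisors := by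
      intro v hv
      rw [mem_filter] at hv
      exact Nat.mem_divisors.2 ⟨hv.2, by omega⟩
    exact_mod_cast card_le_card this
  exact mul_le_mul (hc U hU) (hc V hV) (sum_nonneg fun _ _ => by split_ifs <;> norm_num) (by positivity)

/-- fourth powers by two Cauchy-Schwarz -/
theorem fourth_le {ι : Type*} (D : Finset ι) (f : ι → ℝ) :
    (∑ i ∈ D, f i) ^ 4 ≤ (D.card : ℝ) ^ 3 * ∑ i ∈ D, f i ^ 4 := by
  have h1 : (∑ i ∈ D, f i) ^ 2 ≤ (D.card : ℝ) * ∑ i ∈ D, f i ^ 2 := sq_sum_le_card_mul_sum_sq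
  have h2 : (∑ i ∈ D, f i ^ 2) ^ 2 ≤ (D.card : ℝ) * ∑ i ∈ D, (f i ^ 2) ^ 2 := sq_sum_le_card_mul_sum_sq
  calc (∑ i ∈ D, f i) ^ 4 = ((∑ i ∈ D, f i) ^ 2) ^ 2 := by ring
    _ ≤ ((D.card : ℝ) * ∑ i ∈ D, f i ^ 2) ^ 2 := pow_le_pow_left₀ (by positivity) h1 2
    _ = (D.card : ℝ) ^ 2 * (∑ i ∈ D, f i ^ 2) ^ 2 := by ring
    _ ≤ (D.card : ℝ) ^ 2 * ((D.card : ℝ) * ∑ i ∈ D, (f i ^ 2) ^ 2) := by gcongr
    _ = (D.card : ℝ) ^ 3 * ∑ i ∈ D, f i ^ 4 := by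
        rw [sum_congr rfl fun i _ => (by ring : (f i ^ 2) ^ 2 = f i ^ 4)]
        ring

/-- summation over `(m₁, m₂, d)` -/
theorem triple_le (I : Finset (ℕ × ℕ)) (hI : ∀ i ∈ I, 0 < i.1) (D : ℕ × ℕ → Finset ℕ) (X : ℕ)
    (hD : ∀ i ∈ I, ∀ d ∈ D i, 1 ≤ d ∧ d * i.1 ≤ X ∧ i.2 ∣ d * i.1 + 2) (F : ℕ → ℝ) (hF : ∀ n, 0 ≤ F n) :
    ∑ i ∈ I, ∑ d ∈ D i, F (d * i.1) ≤
      ∑ n ∈ Icc 1 X, (n.divisors.card : ℝ) * ((n + 2).divisors.card : ℝ) * F n := by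
  classical
  have h1 : ∑ n ∈ Icc 1 X, (n.divisors.card : ℝ) * ((n + 2).divisors.card : ℝ) * F n =
      ∑ b ∈ (Icc 1 X).sigma (fun n => n.divisors ×ˢ (n + 2).divisors), F b.1 := by
    rw [sum_sigma]
    refine sum_congr rfl fun n _ => ?_
    simp only [sum_const, card_product, nsmul_eq_mul]
    push_cast
    ring
  rw [h1, sum_sigma' I D]
  let φ : (Σ _ : ℕ × ℕ, ℕ) → (Σ _ : ℕ, ℕ × ℕ) := fun a => ⟨a.2 * a.1.1, a.1⟩
  have hinj : Set.InjOn φ (I.sigma D : Finset (Σ _ : ℕ × ℕ, ℕ)) := by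
    rintro ⟨i, d⟩ ha ⟨i', d'⟩ ha' h
    rw [mem_coe, mem_sigma] at ha ha'
    simp only [φ, Sigma.mk.injEq, heq_eq_eq] at h
    obtain ⟨h2, h3⟩ := h
    subst h3
    have h4 := Nat.eq_of_mul_eq_mul_right (hI i ha.1) h2
    rw [h4]
  have h2 : ∑ a ∈ I.sigma D, F (a.2 * a.1.1) = ∑ b ∈ (I.sigma D).image φ, F b.1 := by
    rw [sum_image hinj]
  rw [h2]
  refine sum_le_sum_of_subset_of_nonneg ?_ fun _ _ _ => hF _
  intro b hb
  rw [mem_image] at hb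
  obtain ⟨⟨i, d⟩, ha, rfl⟩ := hb
  rw [mem_sigma] at ha
  obtain ⟨h3, h4, h5⟩ := hD i ha.1 d ha.2
  have h6 := hI i ha.1
  have h7 : 0 < d * i.1 := Nat.mul_pos h3 h6
  simp only [φ, mem_sigma, mem_Icc, mem_product, Nat.mem_divisors]
  refine ⟨⟨h7, h4⟩, ⟨Dvd.intro_left _ rfl, h7.ne'⟩, h5, by omega⟩

/-- sizes for large `N` -/
theorem large (α K : ℝ) (hα : 1 ≤ α) : ∃ N₀ : ℕ, ∀ N ≥ N₀, 1 ≤ N ∧ 4 * N < PP N ∧ 64 * PP N ≤ XX N α ∧
    K ≤ Real.log (XX N α) ∧ 1 ≤ ((N : ℝ) / PP N) ^ 4 * RR (XX N α) := by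
  have t1 : Filter.Tendsto (fun N : ℕ => (N : ℝ) ^ (1 / 10000000 : ℝ)) Filter.atTop Filter.atTop :=
    (tendsto_rpow_atTop (by norm_num)).comp tendsto_natCast_atTop_atTop
  have t2 : Filter.Tendsto (fun N : ℕ => Real.log N) Filter.atTop Filter.atTop :=
    Real.tendsto_log_atTop.comp tendsto_natCast_atTop_atTop
  have e1 := t1.eventually_ge_atTop 9
  have e2 := t2.eventually_ge_atTop K
  have e3 := (tendsto_natCast_atTop_atTop (R := ℝ)).eventually_ge_atTop (65 * α)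
  obtain ⟨N₀, h⟩ := Filter.eventually_atTop.1 (e1.and (e2.and e3))
  refine ⟨max N₀ 1, fun N hN => ?_⟩
  obtain ⟨h1, h2, h3⟩ := h N (le_trans (le_max_left _ _) hN)
  have hN1 : 1 ≤ N := le_trans (le_max_right _ _) hN
  have hN1' : (1 : ℝ) ≤ N := by exact_mod_cast hN1
  have hN0 : (0 : ℝ) < N := by linarith
  have hpow : (N : ℝ) ^ (1 + 1 / 10000000 : ℝ) = N * (N : ℝ) ^ (1 / 10000000 : ℝ) := by
    rw [Real.rpow_add hN0, Real.rpow_one]
  have hPle : (PP N : ℝ) ≤ (N : ℝ) ^ (1 + 1 / 10000000 : ℝ) := Nat.floor_le (by positivity)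
  have hPge : (N : ℝ) ^ (1 + 1 / 10000000 : ℝ) < PP N + 1 := Nat.lt_floor_add_one _
  have hP : (4 : ℝ) * N < PP N := by
    rw [hpow] at hPge
    nlinarith
  have hP0 : (0 : ℝ) < PP N := by linarith
  have hx : (64 : ℝ) * PP N ≤ XX N α := by
    have h4 : (PP N : ℝ) ^ 2 / α < XX N α + 1 := Nat.lt_floor_add_one _
    have h5 : 65 * (PP N : ℝ) ≤ (PP N : ℝ) ^ 2 / α := by
      rw [le_div_iff₀ (by linarith)]
      nlinarith
    linarith
  have hNx : (N : ℝ) ≤ XX N α := by linarith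
  refine ⟨hN1, by exact_mod_cast hP, by exact_mod_cast hx, ?_, ?_⟩
  · exact h2.trans (Real.log_le_log hN0 hNx)
  · have h6 : (N : ℝ) ^ (-(1 / 10000000 : ℝ)) ≤ (N : ℝ) / PP N := by
      rw [le_div_iff₀ hP0]
      calc (N : ℝ) ^ (-(1 / 10000000 : ℝ)) * PP N ≤
          (N : ℝ) ^ (-(1 / 10000000 : ℝ)) * (N : ℝ) ^ (1 + 1 / 10000000 : ℝ) := by gcongr
        _ = N := by
            rw [← Real.rpow_add hN0]
            norm_num
    have h7 : (N : ℝ) ^ (1 / 1000000 : ℝ) ≤ RR (XX N α) := by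
      unfold RR
      exact Real.rpow_le_rpow hN0.le hNx (by norm_num)
    have h8 : (1 : ℝ) ≤ ((N : ℝ) ^ (-(1 / 10000000 : ℝ))) ^ 4 * (N : ℝ) ^ (1 / 1000000 : ℝ) := by
      rw [← Real.rpow_natCast, ← Real.rpow_mul hN0.le, ← Real.rpow_add hN0]
      exact Real.one_le_rpow hN1' (by norm_num)
    calc (1 : ℝ) ≤ _ := h8
      _ ≤ _ := by gcongr

/-- the total mass -/
theorem total_le {N P : ℕ} {α ε : ℝ} (T : Finset (ℕ × ℕ × ℕ)) (hP : P = PP N) (hε1 : ε ≤ 1)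
    (hT : ∀ t ∈ T, Tup N α ε t.1 t.2.1 t.2.2) :
    (T.card : ℝ) ≤ ∑ n ∈ Icc 1 (2 * P), (n.divisors.card : ℝ) * ((n + 2).divisors.card : ℝ) := by
  classical
  have h1 : (T.image (fun t => (t.2.1, t.1, (t.2.2 - 1) / t.1))).card = T.card := by
    refine card_image_of_injOn ?_
    rintro ⟨d, m, p⟩ ht ⟨d', m', p'⟩ ht' h
    have f := facts hε1 (hT _ ht)
    have f' := facts hε1 (hT _ ht')
    simp only [Prod.mk.injEq] at h f f'
    obtain ⟨h1, h2, h3⟩ := h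
    have e1 := f.hp
    have e2 := f'.hp
    rw [h3, h2] at e1
    rw [h1, h2]
    simp only [Prod.mk.injEq, true_and]
    omega
  have h2 : ∑ n ∈ Icc 1 (2 * P), (n.divisors.card : ℝ) * ((n + 2).divisors.card : ℝ) =
      (((Icc 1 (2 * P)).sigma (fun n => n.divisors ×ˢ (n + 2).divisors)).card : ℝ) := by
    rw [card_sigma]
    push_cast
    refine sum_congr rfl fun n _ => ?_
    rw [card_product]
    push_cast
    ring
  rw [h2, ← h1]
  have h3 : (T.image (fun t => (t.2.1, t.1, (t.2.2 - 1) / t.1))).card ≤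
      ((Icc 1 (2 * P)).sigma (fun n => n.divisors ×ˢ (n + 2).divisors)).card := by
    refine card_le_card_of_injOn (fun s => ⟨s.2.1 * s.2.2, (s.2.1, s.1)⟩) ?_ ?_
    · intro s hs
      rw [mem_coe, mem_image] at hs
      obtain ⟨t, ht, rfl⟩ := hs
      have f := facts hε1 (hT t ht)
      have g1 := f.hp
      have g2 := f.hk
      have g3 := f.phi
      have g4 : 0 < t.1 * ((t.2.2 - 1) / t.1) := Nat.mul_pos f.d0 f.m10
      simp only [coe_sigma, Set.mem_sigma_iff, mem_coe, mem_Icc, mem_product, Nat.mem_divisors]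
      refine ⟨⟨g4, by rw [hP]; omega⟩, ⟨Dvd.intro _ rfl, g4.ne'⟩, ⟨(t.2.2 + 1) / t.2.1, by omega⟩, by omega⟩
    · intro s hs s' hs' h
      rw [mem_coe, mem_image] at hs hs'
      obtain ⟨t, ht, rfl⟩ := hs
      obtain ⟨t', ht', rfl⟩ := hs'
      have f := facts hε1 (hT t ht)
      simp only [Sigma.mk.injEq, heq_eq_eq, Prod.mk.injEq] at h ⊢
      obtain ⟨h4, h5, h6⟩ := h
      refine ⟨h6, h5, ?_⟩
      rw [← h5] at h4
      rw [← h5]
      exact Nat.eq_of_mul_eq_mul_left f.d0 h4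
  exact_mod_cast h3

/-- one pair `(m₁, m₂)` -/
theorem step_le (S : Finset (ℕ × ℕ)) (U V Y : ℕ) (hU : 0 < U) (hV : 0 < V) (m₁ m₂ : ℕ) (κ : ℝ)
    (hκ : (((Icc 1 Y).filter (fun d => m₂ ∣ d * m₁ + 2)).card : ℝ) ≤ κ)
    (hS : ∀ u v : ℕ, u ∈ Ico U (2 * U) → v ∈ Ico V (2 * V) → (m₁, m₂ * u * v) ∈ S →
      ∃ d : ℕ, 1 ≤ d ∧ d ≤ Y ∧ m₂ * u * v ∣ d * m₁ + 2) :
    (∑ u ∈ Ico U (2 * U), ∑ v ∈ Ico V (2 * V),
        (if (m₁, m₂ * u * v) ∈ S then 1 / ((u * v : ℕ) : ℝ) else 0)) ^ 4 ≤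
      (1 / ((U : ℝ) * V)) ^ 4 * (κ ^ 3 * ∑ d ∈ (Icc 1 Y).filter (fun d => m₂ ∣ d * m₁ + 2),
        ((d * m₁ + 2).divisors.card : ℝ) ^ 8) := by
  have h1 := inner_le S U V Y hU hV m₁ m₂ hS
  have h0 : 0 ≤ ∑ u ∈ Ico U (2 * U), ∑ v ∈ Ico V (2 * V),
      (if (m₁, m₂ * u * v) ∈ S then 1 / ((u * v : ℕ) : ℝ) else 0) :=
    sum_nonneg fun u _ => sum_nonneg fun v _ => by split_ifs <;> positivity
  generalize (Icc 1 Y).filter (fun d => m₂ ∣ d * m₁ + 2) = D at *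
  have h2 := pow_le_pow_left₀ h0 h1 4
  refine h2.trans ?_
  rw [mul_pow]
  refine mul_le_mul_of_nonneg_left ?_ (by positivity)
  refine (fourth_le D _).trans ?_
  have e : ∑ d ∈ D, (((d * m₁ + 2).divisors.card : ℝ) ^ 2) ^ 4 =
      ∑ d ∈ D, ((d * m₁ + 2).divisors.card : ℝ) ^ 8 :=
    sum_congr rfl fun d _ => by rw [← pow_mul]
  rw [e]
  exact mul_le_mul_of_nonneg_right (pow_le_pow_left₀ (by positivity) hκ 3) (by positivity)

theorem tau_sum {C : ℝ} {B : ℕ} (hC0 : 0 < C) (hC : ∀ x : ℕ, 3 ≤ x →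
    ∑ n ∈ Icc 1 x, (n.divisors.card : ℝ) ^ 9 * ((n + 2).divisors.card : ℝ) ^ 9 ≤ C * x * Real.log x ^ B)
    {x : ℕ} {Z : ℝ} (hZ3 : 3 ≤ Z) (hZx : Z ≤ x) :
    ∑ n ∈ Icc 1 ⌊Z⌋₊, (n.divisors.card : ℝ) * ((n + 2).divisors.card : ℝ) *
      ((n + 2).divisors.card : ℝ) ^ 8 ≤ C * Z * Real.log x ^ B := by
  have hX3 : 3 ≤ ⌊Z⌋₊ := Nat.le_floor (by exact_mod_cast hZ3)
  have h3 : (⌊Z⌋₊ : ℝ) ≤ Z := Nat.floor_le (by linarith)
  have h1 : ∑ n ∈ Icc 1 ⌊Z⌋₊, (n.divisors.card : ℝ) * ((n + 2).divisors.card : ℝ) *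
      ((n + 2).divisors.card : ℝ) ^ 8 ≤
      ∑ n ∈ Icc 1 ⌊Z⌋₊, (n.divisors.card : ℝ) ^ 9 * ((n + 2).divisors.card : ℝ) ^ 9 := by
    refine sum_le_sum fun n hn => ?_
    have hn0 := (mem_Icc.1 hn).1
    have a1 : (1 : ℝ) ≤ n.divisors.card := by
      exact_mod_cast card_pos.2 ⟨1, Nat.one_mem_divisors.2 (by omega)⟩
    rw [mul_assoc, ← pow_succ']
    exact mul_le_mul_of_nonneg_right (le_self_pow₀ a1 (by norm_num)) (by positivity)
  have h2 := hC _ hX3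
  have h4 : Real.log ⌊Z⌋₊ ≤ Real.log x :=
    Real.log_le_log (by exact_mod_cast (by omega : 0 < ⌊Z⌋₊)) (h3.trans hZx)
  have h5 : 0 ≤ Real.log (⌊Z⌋₊ : ℝ) := Real.log_natCast_nonneg _
  refine (h1.trans h2).trans ?_
  gcongr

theorem fourth_bound {N P x B : ℕ} {C : ℝ} (hC0 : 0 < C) (hC : ∀ x : ℕ, 3 ≤ x →
    ∑ n ∈ Icc 1 x, (n.divisors.card : ℝ) ^ 9 * ((n + 2).divisors.card : ℝ) ^ 9 ≤ C * x * Real.log x ^ B)
    (hN1 : 1 ≤ N) (hNP : 4 * N < P) (hPx : 64 * P ≤ x) (hlog : 17 ^ 3 * 16 * C ≤ Real.log x)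
    (S : Finset (ℕ × ℕ)) (hS : ∀ i ∈ S, ∃ d p k : ℕ, Facts N P d i.2 p i.1 k) {M U V : ℕ} (hM : 0 < M)
    (hU : 0 < U) (hV : 0 < V) {ρ : ℝ} (hρdef : ρ = (N : ℝ) / P) (hρUV : 1 ≤ ρ * ((U : ℝ) * V)) :
    ∑ i ∈ (Icc 1 x ×ˢ Icc 1 x).filter (fun i => M ≤ i.1 * i.2 ∧ i.1 * i.2 < 2 * M),
      (∑ u ∈ Ico U (2 * U), ∑ v ∈ Ico V (2 * V),
        if (i.1, i.2 * u * v) ∈ S then 1 / ((u * v : ℕ) : ℝ) else 0) ^ 4 ≤
    M * ρ ^ 4 * Real.log x ^ (B + 1) := by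
  have hN1' : (1 : ℝ) ≤ N := by exact_mod_cast hN1
  have hNP' : (4 : ℝ) * N < P := by exact_mod_cast hNP
  have hP0 : (0 : ℝ) < P := by linarith
  have hN0 : (0 : ℝ) < N := by linarith
  have hρ0 : 0 < ρ := by rw [hρdef]; positivity
  have hlog0 : 0 ≤ Real.log x := le_trans (by positivity) hlog
  have hM' : (0 : ℝ) < M := by exact_mod_cast hM
  have hU' : (0 : ℝ) < U := by exact_mod_cast hU
  have hV' : (0 : ℝ) < V := by exact_mod_cast hV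
  have hM1 : (1 : ℝ) ≤ M := by exact_mod_cast hM
  set I := (Icc 1 x ×ˢ Icc 1 x).filter (fun i => M ≤ i.1 * i.2 ∧ i.1 * i.2 < 2 * M) with hI
  have hIpos : ∀ i ∈ I, 0 < i.1 ∧ 0 < i.2 ∧ i.1 * i.2 < 2 * M ∧ M ≤ i.1 * i.2 := by
    intro i hi
    rw [hI, mem_filter, mem_product, mem_Icc, mem_Icc] at hi
    exact ⟨by omega, by omega, hi.2.2, hi.2.1⟩
  clear_value I
  clear hI
  have hRHS : 0 ≤ (M : ℝ) * ρ ^ 4 * Real.log x ^ (B + 1) := by positivity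
  by_cases hne : ∃ i ∈ I, ∃ u ∈ Ico U (2 * U), ∃ v ∈ Ico V (2 * V), (i.1, i.2 * u * v) ∈ S
  swap
  · push Not at hne
    have h0 : ∑ i ∈ I, (∑ u ∈ Ico U (2 * U), ∑ v ∈ Ico V (2 * V),
        if (i.1, i.2 * u * v) ∈ S then 1 / ((u * v : ℕ) : ℝ) else 0) ^ 4 = 0 := by
      refine sum_eq_zero fun i hi => ?_
      have : ∑ u ∈ Ico U (2 * U), ∑ v ∈ Ico V (2 * V),
        (if (i.1, i.2 * u * v) ∈ S then 1 / ((u * v : ℕ) : ℝ) else 0) = 0 :=
        sum_eq_zero fun u hu => sum_eq_zero fun v hv => by rw [if_neg (hne i hi u hu v hv)]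
      rw [this]
      norm_num
    rw [h0]
    exact hRHS
  have hsize : 16 * ρ * ((M : ℝ) * (U * V)) ≤ x := by
    obtain ⟨i, hi, u, hu, v, hv, hiS⟩ := hne
    obtain ⟨d, p, k, f⟩ := hS _ hiS
    have f1 := f.prod
    simp only at f f1
    have g1 : M * (U * V) ≤ i.1 * (i.2 * u * v) := by
      have := (hIpos i hi).2.2.2
      calc M * (U * V) ≤ (i.1 * i.2) * (u * v) :=
            Nat.mul_le_mul this (Nat.mul_le_mul (mem_Ico.1 hu).1 (mem_Ico.1 hv).1)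
        _ = _ := by ring
    have g2 : M * (U * V) * N ≤ (2 * P) * (2 * P) := by
      calc M * (U * V) * N ≤ i.1 * (i.2 * u * v) * (d * k) := Nat.mul_le_mul g1 f.lo.le
        _ = (d * i.1) * (d * i.1 + 2) := f1
        _ ≤ (2 * P) * (2 * P) := by
            have g3 := f.hp
            have g4 := f.phi
            have g5 : d * i.1 + 1 ≤ 2 * P := by omega
            generalize d * i.1 = w at *
            nlinarith
    have g2' : (M : ℝ) * (U * V) * N ≤ (2 * P) * (2 * P) := by exact_mod_cast g2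
    have g3 : 16 * ρ * ((M : ℝ) * (U * V)) ≤ 64 * P := by
      rw [hρdef, mul_div_assoc', div_mul_eq_mul_div, div_le_iff₀ hP0]
      nlinarith
    have g4 : (64 : ℝ) * P ≤ x := by exact_mod_cast hPx
    linarith
  set Y : ℕ × ℕ → ℕ := fun i => ⌊8 * ρ * (i.2 * (U * V))⌋₊ with hY
  have hYle : ∀ i, (Y i : ℝ) ≤ 8 * ρ * (i.2 * (U * V)) := fun i => Nat.floor_le (by positivity)
  have hstep : ∀ i ∈ I, (∑ u ∈ Ico U (2 * U), ∑ v ∈ Ico V (2 * V),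
      if (i.1, i.2 * u * v) ∈ S then 1 / ((u * v : ℕ) : ℝ) else 0) ^ 4 ≤
      (1 / ((U : ℝ) * V)) ^ 4 * ((17 * (ρ * (U * V))) ^ 3 *
        ∑ d ∈ (Icc 1 (Y i)).filter (fun d => i.2 ∣ d * i.1 + 2),
          ((d * i.1 + 2).divisors.card : ℝ) ^ 8) := by
    intro i hi
    refine step_le S U V (Y i) hU hV i.1 i.2 _ ?_ ?_
    · have h1 := card_D_le i.1 i.2 (Y i)
      have h2 : (((Icc 1 (Y i)).filter (fun d => i.2 ∣ d * i.1 + 2)).card : ℝ) ≤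
          ((2 * Y i / i.2 : ℕ) : ℝ) + 1 := by exact_mod_cast h1
      have hi2 : (0 : ℝ) < i.2 := by exact_mod_cast (hIpos i hi).2.1
      have h3 : ((2 * Y i / i.2 : ℕ) : ℝ) ≤ 16 * (ρ * (U * V)) := by
        refine Nat.cast_div_le.trans ?_
        rw [div_le_iff₀ hi2]
        push_cast
        have := hYle i
        linarith
      linarith
    · intro u v hu hv hiS
      obtain ⟨d, p, k, f⟩ := hS _ hiS
      simp only at f
      refine ⟨d, f.d0, ?_, ⟨k, by have := f.hp; have := f.hk; omega⟩⟩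
      refine Nat.le_floor ?_
      have g1 : (d : ℝ) * P ≤ 2 * N * ((i.2 * u * v : ℕ) : ℝ) := by exact_mod_cast f.dP
      have g2 : ((u * v : ℕ) : ℝ) ≤ 4 * (U * V) := by
        have : u * v ≤ 2 * U * (2 * V) := Nat.mul_le_mul (mem_Ico.1 hu).2.le (mem_Ico.1 hv).2.le
        have : ((u * v : ℕ) : ℝ) ≤ ((2 * U * (2 * V) : ℕ) : ℝ) := by exact_mod_cast this
        push_cast at this ⊢
        linarith
      rw [hρdef, mul_div_assoc', div_mul_eq_mul_div, le_div_iff₀ hP0]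
      push_cast at g1 g2
      calc (d : ℝ) * P ≤ 2 * N * (i.2 * u * v) := g1
        _ = 2 * N * i.2 * (u * v) := by ring
        _ ≤ 2 * N * i.2 * (4 * (U * V)) := by gcongr
        _ = _ := by ring
  have htr : ∑ i ∈ I, ∑ d ∈ (Icc 1 (Y i)).filter (fun d => i.2 ∣ d * i.1 + 2),
      ((d * i.1 + 2).divisors.card : ℝ) ^ 8 ≤
      ∑ n ∈ Icc 1 ⌊16 * ρ * ((M : ℝ) * (U * V))⌋₊, (n.divisors.card : ℝ) * ((n + 2).divisors.card : ℝ) *
        ((n + 2).divisors.card : ℝ) ^ 8 := by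
    refine triple_le I (fun i hi => (hIpos i hi).1)
      (fun i => (Icc 1 (Y i)).filter (fun d => i.2 ∣ d * i.1 + 2)) _ ?_
      (fun n => ((n + 2).divisors.card : ℝ) ^ 8) (fun n => by positivity)
    intro i hi d hd
    simp only [mem_filter, mem_Icc] at hd
    refine ⟨hd.1.1, ?_, hd.2⟩
    refine Nat.le_floor ?_
    have h1 : (d : ℝ) ≤ 8 * ρ * (i.2 * (U * V)) :=
      le_trans (by exact_mod_cast hd.1.2) (hYle i)
    have h2 : ((i.1 * i.2 : ℕ) : ℝ) ≤ 2 * M := by exact_mod_cast (hIpos i hi).2.2.1.le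
    push_cast at h2 ⊢
    calc (d : ℝ) * i.1 ≤ 8 * ρ * (i.2 * (U * V)) * i.1 := by gcongr
      _ = 8 * ρ * (U * V) * (i.1 * i.2) := by ring
      _ ≤ 8 * ρ * (U * V) * (2 * M) := by gcongr
      _ = _ := by ring
  have hZ3 : 3 ≤ 16 * ρ * ((M : ℝ) * (U * V)) := by
    have : 1 * 1 ≤ (M : ℝ) * (ρ * ((U : ℝ) * V)) := mul_le_mul hM1 hρUV (by norm_num) hM'.le
    nlinarith
  have htau := tau_sum hC0 hC hZ3 hsize
  refine (sum_le_sum hstep).trans ?_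
  rw [← mul_sum, ← mul_sum]
  have h1 := htr.trans htau
  calc _ ≤ (1 / ((U : ℝ) * V)) ^ 4 * ((17 * (ρ * (U * V))) ^ 3 *
        (C * (16 * ρ * ((M : ℝ) * (U * V))) * Real.log x ^ B)) := by
        refine mul_le_mul_of_nonneg_left (mul_le_mul_of_nonneg_left h1 ?_) ?_ <;> positivity
    _ = (M : ℝ) * ρ ^ 4 * ((17 ^ 3 * 16 * C) * Real.log x ^ B) := by
        field_simp
    _ ≤ (M : ℝ) * ρ ^ 4 * (Real.log x * Real.log x ^ B) := by
        refine mul_le_mul_of_nonneg_left (mul_le_mul_of_nonneg_right hlog (by positivity)) (by positivity)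
    _ = _ := by rw [pow_succ]; ring

end DensT

open DensT in
theorem dens_T (α ε : ℝ) (hα : 1 ≤ α) (hε : 0 < ε) (hε1 : ε ≤ 1) : ∃ C₁ N₀ : ℕ, ∀ N ≥ N₀,
    ∀ T : Finset (ℕ × ℕ × ℕ), (∀ t ∈ T, Tup N α ε t.1 t.2.1 t.2.2) →
    Set.InjOn (fun t : ℕ × ℕ × ℕ => ((t.2.2 - 1) / t.1, t.2.1)) T ∧
    Dens (XX N α) (N / PP N) C₁ (T.image (fun t => ((t.2.2 - 1) / t.1, t.2.1))) (fun _ => 1) ∧
    1 ≤ ((N : ℝ) / PP N) ^ 4 * RR (XX N α) ∧ (N : ℝ) / PP N ≤ 1 := by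
  classical
  obtain ⟨C, hC0, B, hC⟩ := sum_tau_shift 9
  have hK : ∃ K : ℝ, 1 ≤ K ∧ 4 * C ≤ K ∧ 17 ^ 3 * 16 * C ≤ K := by
    refine ⟨max 1 (17 ^ 3 * 16 * C), le_max_left _ _, ?_, le_max_right _ _⟩
    refine le_trans ?_ (le_max_right _ _)
    nlinarith
  obtain ⟨K, hK1, hK2, hK3⟩ := hK
  obtain ⟨N₀, hlarge⟩ := large α K hα
  refine ⟨B + 1, N₀, fun N hN T hT => ?_⟩
  obtain ⟨hN1, hNP, hPx, hlogK, hρ⟩ := hlarge N hN
  set P := PP N with hPdef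
  set x := XX N α with hxdef
  have hN1' : (1 : ℝ) ≤ N := by exact_mod_cast hN1
  have hNP' : (4 : ℝ) * N < P := by exact_mod_cast hNP
  have hP0 : (0 : ℝ) < P := by linarith
  have hN0 : (0 : ℝ) < N := by linarith
  set ρ : ℝ := (N : ℝ) / P with hρdef
  have hρ0 : 0 < ρ := by positivity
  have hρ1 : ρ ≤ 1 := by rw [hρdef, div_le_one hP0]; linarith
  have hx1 : 1 ≤ x := by omega
  have hlog1 : 1 ≤ Real.log x := hK1.trans hlogK
  have hinj : Set.InjOn (fun t : ℕ × ℕ × ℕ => ((t.2.2 - 1) / t.1, t.2.1)) T := by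
    rintro ⟨d, m, p⟩ ht ⟨d', m', p'⟩ ht' h
    have f := facts hε1 (hT _ ht)
    have f' := facts hε1 (hT _ ht')
    simp only [Prod.mk.injEq] at h f f'
    obtain ⟨h1, h2⟩ := h
    subst h2
    rw [← h1] at f'
    obtain ⟨h3, h4⟩ := unique hNP f f'
    rw [h3, h4]
  refine ⟨hinj, ?_, hρ, hρ1⟩
  refine ⟨fun _ _ => by norm_num, fun _ _ => by norm_num, ?_, ?_, ?_⟩
  · intro i hi
    rw [mem_image] at hi
    obtain ⟨t, ht, rfl⟩ := hi
    exact (hT t ht).good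
  · -- total
    rw [sum_image hinj]
    have h1 : ∀ t ∈ T, 1 / ((((t.2.2 - 1) / t.1) * t.2.1 : ℕ) : ℝ) ≤ 2 * N / (P : ℝ) ^ 2 := by
      intro t ht
      have f := facts hε1 (hT t ht)
      set m₁ := (t.2.2 - 1) / t.1
      set k := (t.2.2 + 1) / t.2.1
      have f1 := f.prod
      have f2 : P * P ≤ m₁ * t.2.1 * (2 * N) := by
        calc P * P ≤ (t.1 * m₁) * (t.1 * m₁ + 2) := by
              have := f.plo
              have := f.hp
              exact Nat.mul_le_mul (by omega) (by omega)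
          _ = m₁ * t.2.1 * (t.1 * k) := f1.symm
          _ ≤ _ := Nat.mul_le_mul_left _ f.hi
      have f3 : (0 : ℝ) < ((m₁ * t.2.1 : ℕ) : ℝ) := by
        exact_mod_cast Nat.mul_pos f.m10 f.m0
      have f4 : (P : ℝ) * P ≤ ((m₁ * t.2.1 : ℕ) : ℝ) * (2 * N) := by exact_mod_cast f2
      rw [div_le_div_iff₀ f3 (by positivity)]
      nlinarith
    refine (sum_le_sum h1).trans ?_
    rw [sum_const, nsmul_eq_mul]
    have h2 := total_le T hPdef hε1 hT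
    have h3 : ∑ n ∈ Icc 1 (2 * P), (n.divisors.card : ℝ) * ((n + 2).divisors.card : ℝ) ≤
        ∑ n ∈ Icc 1 (2 * P), (n.divisors.card : ℝ) ^ 9 * ((n + 2).divisors.card : ℝ) ^ 9 := by
      refine sum_le_sum fun n hn => ?_
      have hn0 := (mem_Icc.1 hn).1
      have a1 : (1 : ℝ) ≤ n.divisors.card := by
        exact_mod_cast card_pos.2 ⟨1, Nat.one_mem_divisors.2 (by omega)⟩
      have a2 : (1 : ℝ) ≤ (n + 2).divisors.card := by
        exact_mod_cast card_pos.2 ⟨1, Nat.one_mem_divisors.2 (by omega)⟩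
      exact mul_le_mul (le_self_pow₀ a1 (by norm_num)) (le_self_pow₀ a2 (by norm_num)) (by positivity)
        (by positivity)
    have h4 := hC (2 * P) (by omega)
    have h5 : Real.log ((2 * P : ℕ) : ℝ) ≤ Real.log x := by
      refine Real.log_le_log (by push_cast; positivity) ?_
      exact_mod_cast (by omega : 2 * P ≤ x)
    have h6 : 0 ≤ Real.log ((2 * P : ℕ) : ℝ) := Real.log_natCast_nonneg _
    have h7 : (T.card : ℝ) ≤ C * (2 * P) * Real.log x ^ B := by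
      refine (h2.trans (h3.trans h4)).trans ?_
      push_cast at h5 h6 ⊢
      gcongr
    calc (T.card : ℝ) * (2 * N / (P : ℝ) ^ 2) ≤ (C * (2 * P) * Real.log x ^ B) * (2 * N / (P : ℝ) ^ 2) := by
          gcongr
      _ = ρ * ((4 * C) * Real.log x ^ B) := by
          rw [hρdef]; field_simp; ring
      _ ≤ ρ * (Real.log x * Real.log x ^ B) := by
          gcongr
          linarith
      _ = ρ * Real.log x ^ (B + 1) := by rw [pow_succ]; ring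
  · -- fourth powers
    intro M U V hM hU hV hUV
    refine fourth_bound hC0 hC hN1 hNP hPx (hK3.trans hlogK) _ ?_ hM hU hV hρdef ?_
    · intro i hi
      rw [mem_image] at hi
      obtain ⟨t, ht, rfl⟩ := hi
      exact ⟨_, _, _, facts hε1 (hT t ht)⟩
    · have h1 : 1 ≤ RR x := one_le_RR hx1
      have h2 : RR x ≤ RR x ^ 99 := le_self_pow₀ h1 (by norm_num)
      have h3 : RR x ≤ (U : ℝ) * V := by
        push_cast at hUV
        exact h2.trans hUV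
      have h4 : ρ ^ 4 ≤ ρ := by
        calc ρ ^ 4 = ρ * ρ ^ 3 := by ring
          _ ≤ ρ * 1 := mul_le_mul_of_nonneg_left (pow_le_one₀ hρ0.le hρ1) hρ0.le
          _ = ρ := mul_one _
      calc (1 : ℝ) ≤ ρ ^ 4 * RR x := hρ
        _ ≤ ρ * ((U : ℝ) * V) := mul_le_mul h4 h3 (by linarith) hρ0.le

end Pool.Agent.ZH
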