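import Pool.Agent.Work.ZH.Defs

/-! Section D5: the discrepancy of a short type I sum. -/

set_option linter.style.longLine false

open Finset

namespace Pool.Agent.ZH

theorem typeI_period {p : ℕ → Prop} [DecidablePred p] {m : ℕ} (hm : 0 < m) (hp : Function.Periodic p m) (Y : ℕ) :
    Y / m * m.count p ≤ ((Icc 1 Y).filter p).card ∧ ((Icc 1 Y).filter p).card ≤ (Y / m + 1) * m.count p := by
  have key : ∀ k : ℕ, ((Ico 1 (1 + m * k)).filter p).card = k * m.count p := by
    intro k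
    induction k with
    | zero => simp
    | succ k ih =>
      have h1 : Ico 1 (1 + m * (k + 1)) = Ico 1 (1 + m * k) ∪ Ico (1 + m * k) (1 + m * k + m) := by
        rw [Ico_union_Ico_eq_Ico (by omega) (by omega)]
        congr 1
        ring
      rw [h1, filter_union, card_union_of_disjoint, ih, Nat.filter_Ico_card_eq_of_periodic _ _ _ hp]
      · ring
      · exact disjoint_filter_filter (Ico_disjoint_Ico_consecutive _ _ _)
  constructor
  · rw [← key]
    apply card_le_card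
    apply filter_subset_filter
    intro n hn
    rw [mem_Ico] at hn
    rw [mem_Icc]
    have := Nat.mul_div_le Y m
    omega
  · rw [← key]
    apply card_le_card
    apply filter_subset_filter
    intro n hn
    rw [mem_Icc] at hn
    rw [mem_Ico]
    have := Nat.lt_mul_div_succ Y hm
    omega

theorem typeI_card_mul (P : ℕ → Prop) [DecidablePred P] {d : ℕ} (hd : 0 < d) (y : ℕ) :
    ((Icc 1 y).filter (fun n => P n ∧ d ∣ n)).card = ((Icc 1 (y / d)).filter (fun k => P (d * k))).card := by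
  symm
  refine card_bij (fun k _ => d * k) ?_ ?_ ?_
  · intro k hk
    rw [mem_filter, mem_Icc] at hk ⊢
    refine ⟨⟨Nat.mul_pos hd hk.1.1, ?_⟩, hk.2, dvd_mul_right _ _⟩
    rw [mul_comm]; exact (Nat.le_div_iff_mul_le hd).1 hk.1.2
  · intro k _ l _ h
    exact Nat.eq_of_mul_eq_mul_left hd h
  · intro n hn
    rw [mem_filter, mem_Icc] at hn
    obtain ⟨k, rfl⟩ := hn.2.2
    refine ⟨k, ?_, rfl⟩
    rw [mem_filter, mem_Icc]
    refine ⟨⟨Nat.pos_of_mul_pos_left hn.1.1 , ?_⟩, hn.2.1⟩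
    rw [Nat.le_div_iff_mul_le hd, mul_comm]; exact hn.1.2

theorem typeI_one {d m : ℕ} (hd : 0 < d) (hm : 0 < m) (y : ℕ) :
    |((((Icc 1 y).filter (fun n => n ≡ 1 [MOD m] ∧ d ∣ n)).card : ℝ) -
      (((Icc 1 y).filter (fun n => Nat.Coprime n m ∧ d ∣ n)).card : ℝ) / m.totient)| ≤ 1 := by
  by_cases hc : Nat.Coprime d m
  · rw [typeI_card_mul (fun n => n ≡ 1 [MOD m]) hd, typeI_card_mul (fun n => Nat.Coprime n m) hd]
    set Y := y / d
    have hφ : 0 < m.totient := Nat.totient_pos.2 hm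
    have hφR : (0 : ℝ) < m.totient := by exact_mod_cast hφ
    -- the class
    obtain ⟨d', hd'⟩ : ∃ d' : ℕ, d * d' ≡ 1 [MOD m] := by
      rcases (show m = 1 ∨ 1 < m by omega) with h1 | h1
      · subst h1; exact ⟨0, Nat.modEq_one⟩
      · obtain ⟨d', _, h⟩ := Nat.exists_mul_mod_eq_one_of_coprime hc h1
        refine ⟨d', ?_⟩
        unfold Nat.ModEq
        rw [h, Nat.mod_eq_of_lt h1]
    have e1 : ∀ k, d * k ≡ 1 [MOD m] ↔ k ≡ d' [MOD m] := by
      intro k
      constructor
      · intro h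
        exact Nat.ModEq.cancel_left_of_coprime (Nat.Coprime.symm hc) (h.trans hd'.symm)
      · intro h
        exact (h.mul_left d).trans hd'
    have hp1 : Function.Periodic (fun k => d * k ≡ 1 [MOD m]) m := by
      intro k
      simp only [eq_iff_iff]
      rw [mul_add]
      constructor
      · intro h
        have : d * k + d * m ≡ d * k + 0 [MOD m] := Nat.ModEq.add_left _ ((Nat.modEq_zero_iff_dvd).2 (dvd_mul_left _ _))
        exact (this.symm.trans h)
      · intro h
        have : d * k + d * m ≡ d * k + 0 [MOD m] := Nat.ModEq.add_left _ ((Nat.modEq_zero_iff_dvd).2 (dvd_mul_left _ _))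
        exact this.trans h
    have hp2 : Function.Periodic (fun k => Nat.Coprime (d * k) m) m := by
      intro k
      simp only [eq_iff_iff]
      rw [Nat.coprime_mul_iff_left, Nat.coprime_mul_iff_left, Nat.coprime_add_self_left]
    have c1 : m.count (fun k => d * k ≡ 1 [MOD m]) = 1 := by
      rw [Nat.count_eq_card_filter_range, filter_congr (fun k _ => e1 k), ← Nat.count_eq_card_filter_range,
        Nat.count_modEq_card m hm d', Nat.mod_self, Nat.div_self hm, if_neg (Nat.not_lt_zero _)]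
    have c2 : m.count (fun k => Nat.Coprime (d * k) m) = m.totient := by
      rw [Nat.count_eq_card_filter_range, Nat.totient_eq_card_coprime]
      congr 1
      apply filter_congr
      intro k _
      rw [Nat.coprime_mul_iff_left, Nat.coprime_comm (m := k)]
      exact ⟨fun h => h.2, fun h => ⟨hc, h⟩⟩
    obtain ⟨l1, u1⟩ := typeI_period hm hp1 Y
    obtain ⟨l2, u2⟩ := typeI_period hm hp2 Y
    rw [c1, mul_one] at l1 u1
    rw [c2] at l2 u2
    have l1' : ((Y / m : ℕ) : ℝ) ≤ (((Icc 1 Y).filter (fun k => d * k ≡ 1 [MOD m])).card : ℝ) := by exact_mod_cast l1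
    have u1' : (((Icc 1 Y).filter (fun k => d * k ≡ 1 [MOD m])).card : ℝ) ≤ ((Y / m : ℕ) : ℝ) + 1 := by exact_mod_cast u1
    have l2' : ((Y / m : ℕ) : ℝ) ≤ (((Icc 1 Y).filter (fun k => Nat.Coprime (d * k) m)).card : ℝ) / m.totient := by
      rw [le_div_iff₀ hφR]; exact_mod_cast l2
    have u2' : (((Icc 1 Y).filter (fun k => Nat.Coprime (d * k) m)).card : ℝ) / m.totient ≤ ((Y / m : ℕ) : ℝ) + 1 := by
      rw [div_le_iff₀ hφR]; exact_mod_cast u2
    rw [abs_le]
    constructor <;> linarith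
  · have h1 : (Icc 1 y).filter (fun n => n ≡ 1 [MOD m] ∧ d ∣ n) = ∅ := by
      rw [filter_eq_empty_iff]
      rintro n _ ⟨h, hdn⟩
      apply hc
      have : Nat.Coprime n m := by
        have := Nat.ModEq.gcd_eq h
        rw [Nat.Coprime, this]; simp
      exact Nat.Coprime.coprime_dvd_left hdn this
    have h2 : (Icc 1 y).filter (fun n => Nat.Coprime n m ∧ d ∣ n) = ∅ := by
      rw [filter_eq_empty_iff]
      rintro n _ ⟨h, hdn⟩
      exact hc (Nat.Coprime.coprime_dvd_left hdn h)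
    rw [h1, h2]; simp

theorem typeI_swap {a : ℕ → ℂ} {D : ℕ} (hD : ∀ n, a n ≠ 0 → n < D) (P : ℕ → Prop) [DecidablePred P] (y : ℕ) :
    ∑ n ∈ (Icc 1 y).filter P, ∑ d ∈ n.divisors, a d =
      ∑ d ∈ Ico 1 D, a d * (((Icc 1 y).filter (fun n => P n ∧ d ∣ n)).card : ℂ) := by
  have h1 : ∀ n ∈ (Icc 1 y).filter P, ∑ d ∈ n.divisors, a d = ∑ d ∈ Ico 1 D, if d ∣ n then a d else 0 := by
    intro n hn
    rw [mem_filter, mem_Icc] at hn
    rw [← sum_filter]
    symm
    apply sum_subset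
    · intro d hd
      rw [mem_filter] at hd
      rw [Nat.mem_divisors]
      exact ⟨hd.2, by omega⟩
    · intro d hd hd'
      rw [Nat.mem_divisors] at hd
      by_contra h
      apply hd'
      rw [mem_filter, mem_Ico]
      exact ⟨⟨Nat.pos_of_dvd_of_pos hd.1 (by omega), hD d h⟩, hd.1⟩
  rw [sum_congr rfl h1, sum_comm]
  apply sum_congr rfl
  intro d _
  rw [← sum_filter, sum_const, nsmul_eq_mul, mul_comm, filter_filter]

theorem disc_typeI {a : ℕ → ℂ} (ha : ∀ n, ‖a n‖ ≤ 1) {D : ℕ} (hD : ∀ n, a n ≠ 0 → n < D) {y m : ℕ}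
    (hm : 0 < m) : ‖disc (fun n => ∑ d ∈ n.divisors, a d) y m‖ ≤ 2 * D * m.divisors.card := by
  have hτ : (1 : ℝ) ≤ m.divisors.card := by
    have : 0 < m.divisors.card := card_pos.2 ⟨1, Nat.one_mem_divisors.2 hm.ne'⟩
    exact_mod_cast this
  unfold disc
  rw [typeI_swap hD, typeI_swap hD, sum_div, ← sum_sub_distrib]
  calc ‖∑ d ∈ Ico 1 D, (a d * (((Icc 1 y).filter (fun n => n ≡ 1 [MOD m] ∧ d ∣ n)).card : ℂ) -
        a d * (((Icc 1 y).filter (fun n => Nat.Coprime n m ∧ d ∣ n)).card : ℂ) / (m.totient : ℂ))‖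
      ≤ ∑ d ∈ Ico 1 D, ‖(a d * (((Icc 1 y).filter (fun n => n ≡ 1 [MOD m] ∧ d ∣ n)).card : ℂ) -
        a d * (((Icc 1 y).filter (fun n => Nat.Coprime n m ∧ d ∣ n)).card : ℂ) / (m.totient : ℂ))‖ := norm_sum_le _ _
    _ ≤ ∑ d ∈ Ico 1 D, (1 : ℝ) := by
        apply sum_le_sum
        intro d hd
        rw [mem_Ico] at hd
        have e : (a d * (((Icc 1 y).filter (fun n => n ≡ 1 [MOD m] ∧ d ∣ n)).card : ℂ) -
          a d * (((Icc 1 y).filter (fun n => Nat.Coprime n m ∧ d ∣ n)).card : ℂ) / (m.totient : ℂ)) =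
          a d * (((((Icc 1 y).filter (fun n => n ≡ 1 [MOD m] ∧ d ∣ n)).card : ℝ) -
      (((Icc 1 y).filter (fun n => Nat.Coprime n m ∧ d ∣ n)).card : ℝ) / m.totient : ℝ) : ℂ) := by
          push_cast; ring
        rw [e, norm_mul, Complex.norm_real, Real.norm_eq_abs]
        calc ‖a d‖ * _ ≤ 1 * 1 := mul_le_mul (ha d) (typeI_one (by omega) hm y) (abs_nonneg _) zero_le_one
          _ = 1 := one_mul _
    _ = ((D - 1 : ℕ) : ℝ) := by simp
    _ ≤ D := by exact_mod_cast Nat.sub_le _ _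
    _ ≤ 2 * D * m.divisors.card := by
        have : (0 : ℝ) ≤ D := Nat.cast_nonneg _
        nlinarith

end Pool.Agent.ZH
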