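import Pool.Agent.Work.ZH.Boxes
import Pool.Agent.Work.ZH.TypeOne

/-!
# Cell ZH (MP_d3dd4c_nt), module Q: primes `≡ 1` modulo the `m_i` on average, lower bound

`EQ_of : EqPrime → EqMain → EqConv → EqCoup → EqPix → StN → (statement of thm_EQ)`.
-/

namespace Pool.Agent.ZH

open Finset Pool.Agent.BV

/-- statement of `pointwise_prime` -/
def EqPrime : Prop := ∃ x₀ : ℕ, ∀ x ≥ x₀, ∀ n : ℕ, yx x ≤ n → n ≤ x →
    2 * I1 (zx x) (Dx x) n + 2 * I2 (zx x) (Dx x) n - I3 (Dx x) n +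
      2 * T4 (fun p q => Dx x ≤ p * q ∧ p * q * Dx x ≤ x) (zx x) (Dx x) n ≤
    (if n.Prime then 2 else 0) + (if IsSquare n then 1 else 0)

/-- statement of `pointwise_main` -/
def EqMain : Prop := ∃ x₀ : ℕ, ∀ x ≥ x₀, ∀ n : ℕ, yx x ≤ n → n ≤ x →
    (if n.Prime then 2 else 0) - 2 * T4 (fun p q => ¬ (Dx x ≤ p * q ∧ p * q * Dx x ≤ x)) (zx x) (Dx x) n ≤
    2 * I1 (zx x) (Dx x) n + 2 * I2 (zx x) (Dx x) n - I3 (Dx x) n +
      2 * T4 (fun p q => Dx x ≤ p * q ∧ p * q * Dx x ≤ x) (zx x) (Dx x) n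

/-- statement of `disc_conv` -/
def EqConv : Prop := ∀ (A C₁ : ℕ), ∃ C : ℝ, 0 < C ∧ ∃ x₀ : ℕ, ∀ x ≥ x₀, ∀ ρ : ℝ, 1 ≤ ρ ^ 4 * RR x → ρ ≤ 1 →
    0 < ρ → ∀ (S : Finset (ℕ × ℕ)) (c : ℕ × ℕ → ℝ), Dens x ρ C₁ S c → ∀ a b : ℕ → ℂ, (∀ n, ‖a n‖ ≤ 1) →
    (∀ n, ‖b n‖ ≤ 1) → Struct a → Struct b → (∀ n, a n ≠ 0 → Dx x ≤ n ∧ n * Dx x ≤ x) →
    (∀ n, b n ≠ 0 → x ^ 2 ≤ n ^ 5) → ∀ y ≤ x,
    ‖∑ i ∈ S, (c i : ℂ) * disc (fun n => ∑ d ∈ n.divisors, a d * b (n / d)) y (i.1 * i.2)‖ ≤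
      C * ρ * x / Real.log x ^ A

open Classical in
/-- statement of `disc_coupled` -/
def EqCoup : Prop := ∀ (A C₁ : ℕ), ∃ C : ℝ, 0 < C ∧ ∃ x₀ : ℕ, ∀ x ≥ x₀, ∀ ρ : ℝ, 1 ≤ ρ ^ 4 * RR x → ρ ≤ 1 →
    0 < ρ → ∀ (S : Finset (ℕ × ℕ)) (c : ℕ × ℕ → ℝ), Dens x ρ C₁ S c → ∀ a : ℕ → ℂ, (∀ n, ‖a n‖ ≤ 1) →
    Struct a → (∀ p : ℕ, p.Prime → a p = 0) →
    (∀ n, a n ≠ 0 → Dx x ≤ n ∧ n * Dx x ≤ x ∧ n.minFac ≤ Zc x) → ∀ y ≤ x,
    ‖∑ i ∈ S, (c i : ℂ) * disc (fun n => ∑ d ∈ n.divisors, a d * (if rough d.minFac (n / d) then 1 else 0)) y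
      (i.1 * i.2)‖ ≤ C * ρ * x / Real.log x ^ A

/-- statement of `pix_bounds` -/
def EqPix : Prop := ∀ (ε κ : ℝ) (_ : 0 < ε) (_ : 0 ≤ κ) (_ : κ < 1), ∃ x₀ : ℝ, ∀ x : ℝ, x₀ ≤ x →
    (1 - ε) * (1 - κ) * x / Real.log x ≤ (pix ⌊x⌋₊ : ℝ) - pix ⌊κ * x⌋₊ ∧
    (pix ⌊x⌋₊ : ℝ) - pix ⌊κ * x⌋₊ ≤ (1 + ε) * (1 - κ) * x / Real.log x

/-- statement of `thm_N` -/
def EqN : Prop := ∀ (κ : ℝ) (_ : 0 < κ) (_ : κ < 1), ∃ x₀ : ℕ, ∀ x ≥ x₀,
    ((∑ n ∈ Ioc ⌊κ * x⌋₊ x, T4 (fun p q => ¬ (Dx x ≤ p * q ∧ p * q * Dx x ≤ x)) (zx x) (Dx x) n : ℤ) : ℝ) ≤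
      53 / 100 * (1 - κ) * x / Real.log x

/-! ### the sifting function -/

/-- the lower bound sieve function -/
noncomputable def eq_FF (x n : ℕ) : ℤ :=
  2 * I1 (zx x) (Dx x) n + 2 * I2 (zx x) (Dx x) n - I3 (Dx x) n +
      2 * T4 (fun p q => Dx x ≤ p * q ∧ p * q * Dx x ≤ x) (zx x) (Dx x) n

open Classical in
/-- coefficients of `I1` -/
noncomputable def eq_a1 (z D n : ℕ) : ℂ :=
  if CC z D n ∧ n < D then ((ArithmeticFunction.moebius n : ℤ) : ℂ) else 0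

theorem eq_norm_moebius (n : ℕ) : ‖((ArithmeticFunction.moebius n : ℤ) : ℂ)‖ ≤ 1 := by
  have h : |(ArithmeticFunction.moebius n : ℤ)| ≤ 1 := ArithmeticFunction.abs_moebius_le_one
  have h2 : ‖((ArithmeticFunction.moebius n : ℤ) : ℂ)‖ = |((ArithmeticFunction.moebius n : ℤ) : ℝ)| := by
    rw [Complex.norm_intCast]
  rw [h2]
  exact_mod_cast h

theorem eq_norm_a1 (z D n : ℕ) : ‖eq_a1 z D n‖ ≤ 1 := by
  unfold eq_a1
  split_ifs
  · exact eq_norm_moebius n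
  · simp

theorem eq_norm_a2 (z D n : ℕ) : ‖a2 z D n‖ ≤ 1 := by
  unfold a2
  split_ifs
  · exact eq_norm_moebius n
  · simp

theorem eq_norm_a3 (D X n : ℕ) : ‖a3 D X n‖ ≤ 1 := by
  unfold a3
  split_ifs <;> simp

theorem eq_norm_a4 (z D X n : ℕ) : ‖a4 z D X n‖ ≤ 1 := by
  unfold a4
  split_ifs <;> simp

theorem eq_I1 (z D n : ℕ) : (I1 z D n : ℂ) = ∑ d ∈ n.divisors, eq_a1 z D d := by
  classical
  unfold I1 eq_a1
  push_cast
  rw [Finset.sum_filter]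

open Classical in
theorem eq_disc_FF {x y m : ℕ} (hz : 2 ≤ zx x) (hD : 0 < Dx x) (hy : y ≤ x) :
    disc (fun n => ((eq_FF x n : ℤ) : ℂ)) y m =
      2 * disc (fun n => ∑ d ∈ n.divisors, eq_a1 (zx x) (Dx x) d) y m +
      2 * disc (fun n => ∑ d ∈ n.divisors, a2 (zx x) (Dx x) d *
        (if rough d.minFac (n / d) then 1 else 0)) y m -
      disc (fun n => ∑ d ∈ n.divisors, a3 (Dx x) (x / Dx x) d * a3 (Dx x) (x / Dx x) (n / d)) y m +
      2 * disc (fun n => ∑ d ∈ n.divisors, a4 (zx x) (Dx x) (x / Dx x) d *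
        (if rough d.minFac (n / d) then 1 else 0)) y m := by
  simp only [disc_eq_Wf, Finset.mul_sum, ← Finset.sum_add_distrib, ← Finset.sum_sub_distrib]
  refine Finset.sum_congr rfl fun n hn => ?_
  rw [mem_Icc] at hn
  have h1 := eq_I1 (zx x) (Dx x) n
  have h2 := I2_eq (zx x) (Dx x) n
  have h3 := I3_eq (D := Dx x) (x := x) (n := n) hD (hn.2.trans hy)
  have h4 := T4_eq (z := zx x) (D := Dx x) (x := x) (n := n) hz hD
  unfold eq_FF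
  push_cast
  rw [h1, h2, h3, h4]
  ring

/-! ### sizes -/

theorem eq_rho {x : ℕ} {ρ : ℝ} (h1 : 1 ≤ ρ ^ 4 * RR x) (h2 : ρ ≤ 1) (h3 : 0 < ρ) : 1 ≤ ρ * RR x := by
  have hR : 0 ≤ RR x := by unfold RR; positivity
  have h4 : ρ ^ 4 ≤ ρ := by
    calc ρ ^ 4 ≤ ρ ^ 1 := pow_le_pow_of_le_one h3.le h2 (by norm_num)
      _ = ρ := pow_one ρ
  calc (1 : ℝ) ≤ ρ ^ 4 * RR x := h1
    _ ≤ ρ * RR x := mul_le_mul_of_nonneg_right h4 hR

/-- `m ≤ x^(1/2) R^2` for an admissible modulus -/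
theorem eq_mod_le {x m₁ m₂ : ℕ} (hx : 1 ≤ x) (h : GoodPair x m₁ m₂) :
    ((m₁ * m₂ : ℕ) : ℝ) ≤ √(x : ℝ) * RR x ^ 2 := by
  have hR := one_le_RR hx
  have h1 := h.hi
  have h2 : ((m₁ * m₂ : ℕ) : ℝ) ^ 2 ≤ (√(x : ℝ) * RR x ^ 2) ^ 2 := by
    rw [mul_pow, Real.sq_sqrt (Nat.cast_nonneg x)]
    refine h1.trans ?_
    have : RR x ^ 3 ≤ (RR x ^ 2) ^ 2 := by
      rw [← pow_mul]
      exact pow_le_pow_right₀ hR (by norm_num)
    gcongr
  exact le_of_sq_le_sq h2 (by positivity)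

theorem eq_mod_pos {x m₁ m₂ : ℕ} (hx : 1 ≤ x) (h : GoodPair x m₁ m₂) : 0 < m₁ * m₂ := by
  have h1 := h.lo
  rcases Nat.eq_zero_or_pos (m₁ * m₂) with h0 | h0
  · rw [h0] at h1
    omega
  · exact h0

/-- `∑ c_i ≤ ρ x^(1/2) R^2 (log x)^C₁` -/
theorem eq_sum_c {x C₁ : ℕ} {ρ : ℝ} {S : Finset (ℕ × ℕ)} {c : ℕ × ℕ → ℝ} (hx : 1 ≤ x)
    (hS : Dens x ρ C₁ S c) : ∑ i ∈ S, c i ≤ (√(x : ℝ) * RR x ^ 2) * (ρ * Real.log x ^ C₁) := by
  have hR := one_le_RR hx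
  calc ∑ i ∈ S, c i ≤ ∑ i ∈ S, (√(x : ℝ) * RR x ^ 2) * (c i / ((i.1 * i.2 : ℕ) : ℝ)) := by
        refine sum_le_sum fun i hi => ?_
        have h1 := eq_mod_le hx (hS.good i hi)
        have h2 : (0 : ℝ) < ((i.1 * i.2 : ℕ) : ℝ) := by exact_mod_cast eq_mod_pos hx (hS.good i hi)
        have h3 := hS.nonneg i hi
        rw [mul_div_assoc', le_div_iff₀ h2]
        calc c i * ((i.1 * i.2 : ℕ) : ℝ) ≤ c i * (√(x : ℝ) * RR x ^ 2) := by gcongr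
          _ = (√(x : ℝ) * RR x ^ 2) * c i := by ring
    _ = (√(x : ℝ) * RR x ^ 2) * ∑ i ∈ S, c i / ((i.1 * i.2 : ℕ) : ℝ) := by rw [Finset.mul_sum]
    _ ≤ (√(x : ℝ) * RR x ^ 2) * (ρ * Real.log x ^ C₁) := by
        have := hS.total
        gcongr

theorem eq_ev_log (B : ℝ) : ∃ x₀ : ℕ, ∀ x ≥ x₀, B ≤ Real.log x := by
  have h := (Real.tendsto_log_atTop.comp tendsto_natCast_atTop_atTop).eventually_ge_atTop B
  obtain ⟨x₀, h0⟩ := Filter.eventually_atTop.1 h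
  exact ⟨x₀, fun x hx => h0 x hx⟩

theorem eq_absorb {x A : ℕ} {C ρ B : ℝ} (hx : 0 ≤ Real.log x) (hlog : 16 * C ≤ Real.log x)
    (hlog1 : 1 ≤ Real.log x) (hρ : 0 ≤ ρ) (h : B ≤ C * ρ * x / Real.log x ^ (A + 1)) :
    B ≤ 1 / 16 * (ρ * x / Real.log x ^ A) := by
  have hl : 0 < Real.log x := by linarith
  refine h.trans ?_
  have h1 : C * ρ * x / Real.log x ^ (A + 1) = (C / Real.log x) * (ρ * x / Real.log x ^ A) := by
    rw [pow_succ]
    field_simp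
  rw [h1]
  refine mul_le_mul_of_nonneg_right ?_ (by positivity)
  rw [div_le_iff₀ hl]
  linarith

/-- the discrepancy of the sieve function -/
theorem eq_E (hconv : EqConv) (hcoup : EqCoup) (A C₁ : ℕ) : ∃ x₀ : ℕ, ∀ x ≥ x₀, ∀ ρ : ℝ,
    1 ≤ ρ ^ 4 * RR x → ρ ≤ 1 → 0 < ρ → ∀ (S : Finset (ℕ × ℕ)) (c : ℕ × ℕ → ℝ), Dens x ρ C₁ S c →
    ∀ y ≤ x, ‖∑ i ∈ S, (c i : ℂ) * disc (fun n => ((eq_FF x n : ℤ) : ℂ)) y (i.1 * i.2)‖ ≤
      1 / 2 * (ρ * x / Real.log x ^ A) := by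
  classical
  obtain ⟨Cv, hCv, xv, hv⟩ := hconv (A + 1) C₁
  obtain ⟨Cc, hCc, xc, hc⟩ := hcoup (A + 1) C₁
  obtain ⟨xs, hs⟩ := a_supports
  obtain ⟨xl1, hl1⟩ := eq_ev_log (16 * Cv)
  obtain ⟨xl2, hl2⟩ := eq_ev_log (16 * Cc)
  obtain ⟨xl3, hl3⟩ := eq_ev_log 1
  obtain ⟨xt, ht⟩ := small_tau 1
  obtain ⟨xm, hm⟩ := small_log (C₁ + A) 64
  refine ⟨xv + xc + xs + xl1 + xl2 + xl3 + xt + xm + 1, ?_⟩
  intro x hx ρ hρ1 hρ2 hρ3 S c hS y hy
  obtain ⟨hs2, hs4, hs3, hsp, hz2, -, -, -, hD5⟩ := hs x (by omega)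
  have hx1 : 1 ≤ x := by omega
  have hx1r : (1 : ℝ) ≤ x := by exact_mod_cast hx1
  have hlog1 : 1 ≤ Real.log x := hl3 x (by omega)
  have hlog0 : 0 ≤ Real.log x := by linarith
  have hR := one_le_RR hx1
  have hDpos : 0 < Dx x := by
    unfold Dx
    rw [Nat.ceil_pos]
    positivity
  have hDle : (Dx x : ℝ) ≤ 2 * (x : ℝ) ^ (401 / 1000 : ℝ) := by
    unfold Dx
    have h1 := Nat.ceil_lt_add_one (show (0 : ℝ) ≤ (x : ℝ) ^ (401 / 1000 : ℝ) by positivity)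
    have h2 : (1 : ℝ) ≤ (x : ℝ) ^ (401 / 1000 : ℝ) := Real.one_le_rpow hx1r (by norm_num)
    linarith
  -- the four parts
  have p2 := eq_absorb hlog0 (hl2 x (by omega)) hlog1 hρ3.le
    (hc x (by omega) ρ hρ1 hρ2 hρ3 S c hS (a2 (zx x) (Dx x)) (fun n => eq_norm_a2 _ _ n)
      (struct_a2 _ _) (fun p hp => (hsp p hp).1) hs2 y hy)
  have p4 := eq_absorb hlog0 (hl2 x (by omega)) hlog1 hρ3.le
    (hc x (by omega) ρ hρ1 hρ2 hρ3 S c hS (a4 (zx x) (Dx x) (x / Dx x)) (fun n => eq_norm_a4 _ _ _ n)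
      (struct_a4 _ _ _) (fun p hp => (hsp p hp).2) hs4 y hy)
  have p3 := eq_absorb hlog0 (hl1 x (by omega)) hlog1 hρ3.le
    (hv x (by omega) ρ hρ1 hρ2 hρ3 S c hS (a3 (Dx x) (x / Dx x)) (a3 (Dx x) (x / Dx x))
      (fun n => eq_norm_a3 _ _ n) (fun n => eq_norm_a3 _ _ n) (struct_a3 _ _) (struct_a3 _ _) hs3
      (fun n hn => hD5.trans (Nat.pow_le_pow_left (hs3 n hn).1 5)) y hy)
  have p1 : ‖∑ i ∈ S, (c i : ℂ) * disc (fun n => ∑ d ∈ n.divisors, eq_a1 (zx x) (Dx x) d) y (i.1 * i.2)‖ ≤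
      1 / 16 * (ρ * x / Real.log x ^ A) := by
    have hlogA : 0 < Real.log x ^ A := by positivity
    have h1 : ∀ i ∈ S, ‖(c i : ℂ) * disc (fun n => ∑ d ∈ n.divisors, eq_a1 (zx x) (Dx x) d) y (i.1 * i.2)‖ ≤
        c i * (4 * (x : ℝ) ^ (401 / 1000 : ℝ) * RR x) := by
      intro i hi
      have hci := hS.nonneg i hi
      have hmp := eq_mod_pos hx1 (hS.good i hi)
      rw [norm_mul, Complex.norm_real, Real.norm_of_nonneg hci]
      have h2 := disc_typeI (a := eq_a1 (zx x) (Dx x)) (fun n => eq_norm_a1 _ _ n) (D := Dx x)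
        (fun n hn => by
          unfold eq_a1 at hn
          by_contra hcon
          exact hn (if_neg (fun h => hcon h.2))) (y := y) hmp
      have h3 : (((i.1 * i.2).divisors.card : ℕ) : ℝ) ≤ RR x := by
        have h4 := ht x (by omega) (i.1 * i.2) hmp (by
          have h5 := (hS.good i hi).hi
          have h6 : ((i.1 * i.2 : ℕ) : ℝ) ^ 2 ≤ (x : ℝ) ^ 2 * (x : ℝ) ^ 2 := by
            refine h5.trans ?_
            have h7 : RR x ^ 3 ≤ x := by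
              calc RR x ^ 3 ≤ RR x ^ 1000000 := pow_le_pow_right₀ hR (by norm_num)
                _ = x := RR_pow x
            have hxx : (x : ℝ) * RR x ^ 3 ≤ x * x := by gcongr
            have hx2 : (1 : ℝ) ≤ (x : ℝ) ^ 2 := one_le_pow₀ hx1r
            calc (x : ℝ) * RR x ^ 3 ≤ x * x := hxx
              _ = (x : ℝ) ^ 2 * 1 := by ring
              _ ≤ (x : ℝ) ^ 2 * (x : ℝ) ^ 2 := by gcongr
          have h8 : ((i.1 * i.2 : ℕ) : ℝ) ≤ (x : ℝ) ^ 2 := by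
            refine le_of_sq_le_sq ?_ (by positivity)
            rw [← sq] at h6
            exact h6
          have h9 : i.1 * i.2 ≤ x ^ 2 := by exact_mod_cast h8
          exact h9.trans (Nat.pow_le_pow_right hx1 (by norm_num)))
        rw [pow_one] at h4
        exact h4
      have hRR0 : 0 ≤ RR x := by linarith
      refine mul_le_mul_of_nonneg_left (h2.trans ?_) hci
      calc 2 * (Dx x : ℝ) * (((i.1 * i.2).divisors.card : ℕ) : ℝ)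
          ≤ 2 * (2 * (x : ℝ) ^ (401 / 1000 : ℝ)) * RR x := by gcongr
        _ = 4 * (x : ℝ) ^ (401 / 1000 : ℝ) * RR x := by ring
    have h2 := eq_sum_c hx1 hS
    have h3 : 64 * Real.log x ^ (C₁ + A) ≤ RR x := hm x (by omega)
    have hRR0 : 0 ≤ RR x := by linarith
    -- the powers of `x`
    have hpow : √(x : ℝ) * (x : ℝ) ^ (401 / 1000 : ℝ) * RR x ^ 4 ≤ x := by
      rw [Real.sqrt_eq_rpow, RR_pow_eq, ← Real.rpow_add (by linarith), ← Real.rpow_add (by linarith)]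
      calc (x : ℝ) ^ ((1 : ℝ) / 2 + 401 / 1000 + ((4 : ℕ) : ℝ) / 1000000) ≤ (x : ℝ) ^ (1 : ℝ) :=
            Real.rpow_le_rpow_of_exponent_le hx1r (by norm_num)
        _ = x := Real.rpow_one _
    rw [← mul_div_assoc, le_div_iff₀ hlogA]
    calc ‖∑ i ∈ S, (c i : ℂ) * disc (fun n => ∑ d ∈ n.divisors, eq_a1 (zx x) (Dx x) d) y (i.1 * i.2)‖ *
          Real.log x ^ A
        ≤ (∑ i ∈ S, c i * (4 * (x : ℝ) ^ (401 / 1000 : ℝ) * RR x)) * Real.log x ^ A := by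
          gcongr
          exact (norm_sum_le _ _).trans (sum_le_sum h1)
      _ = (∑ i ∈ S, c i) * (4 * (x : ℝ) ^ (401 / 1000 : ℝ) * RR x) * Real.log x ^ A := by
          rw [← Finset.sum_mul]
      _ ≤ ((√(x : ℝ) * RR x ^ 2) * (ρ * Real.log x ^ C₁)) * (4 * (x : ℝ) ^ (401 / 1000 : ℝ) * RR x) *
            Real.log x ^ A := by gcongr
      _ = ρ / 16 * (√(x : ℝ) * (x : ℝ) ^ (401 / 1000 : ℝ) * RR x ^ 3) *
            (64 * Real.log x ^ (C₁ + A)) := by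
          rw [pow_add]
          ring
      _ ≤ ρ / 16 * (√(x : ℝ) * (x : ℝ) ^ (401 / 1000 : ℝ) * RR x ^ 3) * RR x := by gcongr
      _ = ρ / 16 * (√(x : ℝ) * (x : ℝ) ^ (401 / 1000 : ℝ) * RR x ^ 4) := by ring
      _ ≤ ρ / 16 * x := by gcongr
      _ = 1 / 16 * (ρ * x) := by ring
  -- combine
  have hsum : ∑ i ∈ S, (c i : ℂ) * disc (fun n => ((eq_FF x n : ℤ) : ℂ)) y (i.1 * i.2) =
      2 * ∑ i ∈ S, (c i : ℂ) * disc (fun n => ∑ d ∈ n.divisors, eq_a1 (zx x) (Dx x) d) y (i.1 * i.2) +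
      2 * ∑ i ∈ S, (c i : ℂ) * disc (fun n => ∑ d ∈ n.divisors, a2 (zx x) (Dx x) d *
        (if rough d.minFac (n / d) then 1 else 0)) y (i.1 * i.2) -
      ∑ i ∈ S, (c i : ℂ) * disc (fun n => ∑ d ∈ n.divisors, a3 (Dx x) (x / Dx x) d *
        a3 (Dx x) (x / Dx x) (n / d)) y (i.1 * i.2) +
      2 * ∑ i ∈ S, (c i : ℂ) * disc (fun n => ∑ d ∈ n.divisors, a4 (zx x) (Dx x) (x / Dx x) d *
        (if rough d.minFac (n / d) then 1 else 0)) y (i.1 * i.2) := by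
    rw [Finset.mul_sum, Finset.mul_sum, Finset.mul_sum, ← Finset.sum_add_distrib,
      ← Finset.sum_sub_distrib, ← Finset.sum_add_distrib]
    refine sum_congr rfl fun i _ => ?_
    rw [eq_disc_FF hz2 hDpos hy]
    ring
  rw [hsum]
  set w1 := ∑ i ∈ S, (c i : ℂ) * disc (fun n => ∑ d ∈ n.divisors, eq_a1 (zx x) (Dx x) d) y (i.1 * i.2)
  set w2 := ∑ i ∈ S, (c i : ℂ) * disc (fun n => ∑ d ∈ n.divisors, a2 (zx x) (Dx x) d *
        (if rough d.minFac (n / d) then 1 else 0)) y (i.1 * i.2)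
  set w3 := ∑ i ∈ S, (c i : ℂ) * disc (fun n => ∑ d ∈ n.divisors, a3 (Dx x) (x / Dx x) d *
        a3 (Dx x) (x / Dx x) (n / d)) y (i.1 * i.2)
  set w4 := ∑ i ∈ S, (c i : ℂ) * disc (fun n => ∑ d ∈ n.divisors, a4 (zx x) (Dx x) (x / Dx x) d *
        (if rough d.minFac (n / d) then 1 else 0)) y (i.1 * i.2)
  have hn : ‖2 * w1 + 2 * w2 - w3 + 2 * w4‖ ≤ 2 * ‖w1‖ + 2 * ‖w2‖ + ‖w3‖ + 2 * ‖w4‖ := by
    calc ‖2 * w1 + 2 * w2 - w3 + 2 * w4‖ ≤ ‖2 * w1 + 2 * w2 - w3‖ + ‖2 * w4‖ := norm_add_le _ _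
      _ ≤ (‖2 * w1 + 2 * w2‖ + ‖w3‖) + ‖2 * w4‖ := by gcongr; exact norm_sub_le _ _
      _ ≤ ((‖2 * w1‖ + ‖2 * w2‖) + ‖w3‖) + ‖2 * w4‖ := by gcongr; exact norm_add_le _ _
      _ = 2 * ‖w1‖ + 2 * ‖w2‖ + ‖w3‖ + 2 * ‖w4‖ := by
          rw [norm_mul, norm_mul, norm_mul]
          norm_num
  have hE0 : 0 ≤ ρ * x / Real.log x ^ A := by positivity
  linarith


/-! ### from the sieve function to the primes -/

/-- the real discrepancy of an integer valued function -/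
noncomputable def eq_dz (f : ℕ → ℤ) (y m : ℕ) : ℝ :=
  ∑ n ∈ (Icc 1 y).filter (fun n => n ≡ 1 [MOD m]), (f n : ℝ) -
    (∑ n ∈ (Icc 1 y).filter (fun n => Nat.Coprime n m), (f n : ℝ)) / (m.totient : ℝ)

theorem eq_disc_dz (f : ℕ → ℤ) (y m : ℕ) : disc (fun n => ((f n : ℤ) : ℂ)) y m = ((eq_dz f y m : ℝ) : ℂ) := by
  unfold disc eq_dz
  push_cast
  rfl

theorem eq_split {y₀ x : ℕ} (h : y₀ ≤ x) (P : ℕ → Prop) [DecidablePred P] (g : ℕ → ℝ) :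
    ∑ n ∈ (Icc 1 x).filter P, g n - ∑ n ∈ (Icc 1 y₀).filter P, g n =
      ∑ n ∈ (Ioc y₀ x).filter P, g n := by
  have h1 : (Icc 1 x).filter P = (Icc 1 y₀).filter P ∪ (Ioc y₀ x).filter P := by
    ext n
    simp only [mem_union, mem_filter, mem_Icc, mem_Ioc]
    constructor
    · rintro ⟨⟨h1, h2⟩, h3⟩
      rcases Nat.lt_or_ge y₀ n with h4 | h4
      · exact Or.inr ⟨⟨h4, h2⟩, h3⟩
      · exact Or.inl ⟨⟨h1, h4⟩, h3⟩
    · rintro (⟨⟨h1, h2⟩, h3⟩ | ⟨⟨h1, h2⟩, h3⟩)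
      · exact ⟨⟨h1, h2.trans h⟩, h3⟩
      · exact ⟨⟨by omega, h2⟩, h3⟩
  have h2 : Disjoint ((Icc 1 y₀).filter P) ((Ioc y₀ x).filter P) := by
    rw [Finset.disjoint_left]
    intro n hn hn'
    rw [mem_filter, mem_Icc] at hn
    rw [mem_filter, mem_Ioc] at hn'
    omega
  rw [h1, sum_union h2]
  ring

theorem eq_dz_sub {y₀ x : ℕ} (h : y₀ ≤ x) (f : ℕ → ℤ) (m : ℕ) :
    eq_dz f x m - eq_dz f y₀ m = ∑ n ∈ (Ioc y₀ x).filter (fun n => n ≡ 1 [MOD m]), (f n : ℝ) -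
      (∑ n ∈ (Ioc y₀ x).filter (fun n => Nat.Coprime n m), (f n : ℝ)) / (m.totient : ℝ) := by
  rw [← eq_split h, ← eq_split h]
  unfold eq_dz
  ring

/-- number of squares `≡ 1` mod `m_i`, on average -/
theorem eq_squares : ∃ x₀ : ℕ, ∀ x ≥ x₀, ∀ (S : Finset (ℕ × ℕ)) (c : ℕ × ℕ → ℝ),
    (∀ i ∈ S, 0 ≤ c i) → (∀ i ∈ S, c i ≤ 1) → ∀ y₀ : ℕ, 1 ≤ y₀ →
    ∑ i ∈ S, c i * (((Ioc y₀ x).filter (fun n => n ≡ 1 [MOD i.1 * i.2] ∧ IsSquare n)).card : ℝ) ≤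
      √(x : ℝ) * RR x := by
  classical
  obtain ⟨xt, ht⟩ := small_tau 2
  refine ⟨max xt 1, fun x hx S c hc0 hc1 y₀ hy₀ => ?_⟩
  have hx1 : 1 ≤ x := (le_max_right _ _).trans hx
  have h1 : ∀ i ∈ S, c i * (((Ioc y₀ x).filter (fun n => n ≡ 1 [MOD i.1 * i.2] ∧ IsSquare n)).card : ℝ) ≤
      ∑ s ∈ Icc 2 (Nat.sqrt x), (if i.1 * i.2 ∣ s ^ 2 - 1 then (1 : ℝ) else 0) := by
    intro i hi
    have h2 : (((Ioc y₀ x).filter (fun n => n ≡ 1 [MOD i.1 * i.2] ∧ IsSquare n)).card : ℝ) ≤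
        ∑ s ∈ Icc 2 (Nat.sqrt x), (if i.1 * i.2 ∣ s ^ 2 - 1 then (1 : ℝ) else 0) := by
      rw [Finset.sum_boole]
      have h3 : (Ioc y₀ x).filter (fun n => n ≡ 1 [MOD i.1 * i.2] ∧ IsSquare n) ⊆
          ((Icc 2 (Nat.sqrt x)).filter (fun s => i.1 * i.2 ∣ s ^ 2 - 1)).image (fun s => s ^ 2) := by
        intro n hn
        rw [mem_filter, mem_Ioc] at hn
        obtain ⟨⟨h4, h5⟩, h6, s, h7⟩ := hn
        rw [mem_image]
        refine ⟨s, ?_, by rw [h7, sq]⟩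
        rw [mem_filter, mem_Icc]
        have h8 : 2 ≤ s := by
          by_contra hcon
          have : s ≤ 1 := by omega
          have : s * s ≤ 1 * 1 := Nat.mul_le_mul this this
          omega
        refine ⟨⟨h8, Nat.le_sqrt.2 (by rw [← h7]; exact h5)⟩, ?_⟩
        have h9 : 1 ≤ n := by omega
        have h10 := (Nat.modEq_iff_dvd' h9).1 h6.symm
        rw [h7, ← sq] at h10
        exact h10
      have h4 := (card_le_card h3).trans card_image_le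
      exact_mod_cast h4
    have h3 : (0 : ℝ) ≤ (((Ioc y₀ x).filter (fun n => n ≡ 1 [MOD i.1 * i.2] ∧ IsSquare n)).card : ℝ) := by
      positivity
    calc c i * (((Ioc y₀ x).filter (fun n => n ≡ 1 [MOD i.1 * i.2] ∧ IsSquare n)).card : ℝ)
        ≤ 1 * (((Ioc y₀ x).filter (fun n => n ≡ 1 [MOD i.1 * i.2] ∧ IsSquare n)).card : ℝ) :=
          mul_le_mul_of_nonneg_right (hc1 i hi) h3
      _ ≤ _ := by rw [one_mul]; exact h2
  refine (sum_le_sum h1).trans ?_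
  rw [Finset.sum_comm]
  have h2 : ∀ s ∈ Icc 2 (Nat.sqrt x), ∑ i ∈ S, (if i.1 * i.2 ∣ s ^ 2 - 1 then (1 : ℝ) else 0) ≤ RR x := by
    intro s hs
    rw [mem_Icc] at hs
    have hs2 : s ^ 2 ≤ x := by
      rw [sq]
      exact Nat.le_sqrt.1 hs.2
    have hpos : 0 < s ^ 2 - 1 := by
      have : 2 ^ 2 ≤ s ^ 2 := Nat.pow_le_pow_left hs.1 2
      omega
    have h3 := ht x ((le_max_left _ _).trans hx) (s ^ 2 - 1) hpos (by
      calc s ^ 2 - 1 ≤ x := by omega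
        _ = x ^ 1 := (pow_one x).symm
        _ ≤ x ^ 4 := Nat.pow_le_pow_right hx1 (by norm_num))
    refine le_trans ?_ h3
    rw [Finset.sum_boole]
    have h4 : S.filter (fun i => i.1 * i.2 ∣ s ^ 2 - 1) ⊆ (s ^ 2 - 1).divisors ×ˢ (s ^ 2 - 1).divisors := by
      intro i hi
      rw [mem_filter] at hi
      rw [mem_product, Nat.mem_divisors, Nat.mem_divisors]
      exact ⟨⟨dvd_of_mul_right_dvd hi.2, hpos.ne'⟩, ⟨dvd_of_mul_left_dvd hi.2, hpos.ne'⟩⟩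
    have h5 := card_le_card h4
    rw [card_product, ← sq] at h5
    exact_mod_cast h5
  refine (sum_le_sum h2).trans ?_
  rw [sum_const, nsmul_eq_mul]
  have hR := one_le_RR hx1
  refine mul_le_mul_of_nonneg_right ?_ (by linarith)
  rw [Nat.card_Icc]
  have h3 : ((Nat.sqrt x + 1 - 2 : ℕ) : ℝ) ≤ (Nat.sqrt x : ℝ) := by
    exact_mod_cast (by omega : Nat.sqrt x + 1 - 2 ≤ Nat.sqrt x)
  refine h3.trans ?_
  exact Real.nat_sqrt_le_real_sqrt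

/-- primes coprime to `m` -/
theorem eq_primes_coprime {y₀ x m : ℕ} (h : y₀ ≤ x) (hm : 0 < m) :
    (pix x : ℝ) - pix y₀ - m.divisors.card ≤
      ∑ n ∈ (Ioc y₀ x).filter (fun n => Nat.Coprime n m), (if n.Prime then (1 : ℝ) else 0) := by
  classical
  have h1 : (pix x : ℝ) - pix y₀ = (((Ioc y₀ x).filter Nat.Prime).card : ℝ) := by
    have h2 := eq_split h Nat.Prime (fun _ => (1 : ℝ))
    simp only [sum_const, nsmul_eq_mul, mul_one] at h2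
    unfold pix
    exact h2
  have h2 : (Ioc y₀ x).filter Nat.Prime ⊆
      (((Ioc y₀ x).filter (fun n => Nat.Coprime n m)).filter Nat.Prime) ∪ m.divisors := by
    intro n hn
    rw [mem_filter] at hn
    rw [mem_union, mem_filter, mem_filter, Nat.mem_divisors]
    by_cases hc : Nat.Coprime n m
    · exact Or.inl ⟨⟨hn.1, hc⟩, hn.2⟩
    · right
      refine ⟨?_, hm.ne'⟩
      by_contra hcon
      exact hc ((Nat.Prime.coprime_iff_not_dvd hn.2).2 hcon)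
  have h3 := (card_le_card h2).trans (card_union_le _ _)
  rw [Finset.sum_boole, h1]
  have h4 : (((Ioc y₀ x).filter Nat.Prime).card : ℝ) ≤
      ((((Ioc y₀ x).filter (fun n => Nat.Coprime n m)).filter Nat.Prime).card : ℝ) +
        (m.divisors.card : ℝ) := by exact_mod_cast h3
  linarith

theorem eq_pi1 {y₀ x m : ℕ} (h : y₀ ≤ x) :
    (pi1 x m : ℝ) - pi1 y₀ m =
      ∑ n ∈ (Ioc y₀ x).filter (fun n => n ≡ 1 [MOD m]), (if n.Prime then (1 : ℝ) else 0) := by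
  classical
  have h2 := eq_split h (fun q => q.Prime ∧ q ≡ 1 [MOD m]) (fun _ => (1 : ℝ))
  simp only [sum_const, nsmul_eq_mul, mul_one] at h2
  unfold pi1
  rw [h2, Finset.sum_boole, Finset.filter_filter]
  congr 2
  ext n
  simp only [mem_filter]
  tauto

theorem eq_T4_nonneg (P : ℕ → ℕ → Prop) (z D n : ℕ) : 0 ≤ T4 P z D n := by
  classical
  unfold T4
  refine sum_nonneg fun p _ => sum_nonneg fun q _ => ?_
  split_ifs <;> norm_num

/-- the theorem, modulo the other modules -/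
theorem EQ_of (hpr : EqPrime) (hma : EqMain) (hconv : EqConv) (hcoup : EqCoup) (hpix : EqPix)
    (hN : EqN) (A C₁ : ℕ) (κ : ℝ) (hκ : 0 < κ) (hκ1 : κ < 1) : ∃ x₀ : ℕ, ∀ x ≥ x₀, ∀ ρ : ℝ,
    1 ≤ ρ ^ 4 * RR x → ρ ≤ 1 → 0 < ρ → ∀ (S : Finset (ℕ × ℕ)) (c : ℕ × ℕ → ℝ), Dens x ρ C₁ S c →
    9 / 20 * (1 - κ) * (x / Real.log x) * ∑ i ∈ S, c i / ((i.1 * i.2).totient : ℝ) - ρ * x / Real.log x ^ A ≤
      ∑ i ∈ S, c i * ((pi1 x (i.1 * i.2) : ℝ) - pi1 ⌊κ * x⌋₊ (i.1 * i.2)) := by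
  classical
  obtain ⟨x1, h1⟩ := hpr
  obtain ⟨x2, h2⟩ := hma
  obtain ⟨x3, h3⟩ := eq_E hconv hcoup A C₁
  obtain ⟨x4, h4⟩ := hpix (1 / 100) κ (by norm_num) hκ.le hκ1
  obtain ⟨x5, h5⟩ := hN κ hκ hκ1
  obtain ⟨x6, h6⟩ := eq_squares
  obtain ⟨x7, h7⟩ := small_tau 1
  obtain ⟨x8, h8⟩ := small_log A 1
  obtain ⟨x9, h9⟩ := eq_ev_log 1
  -- `RR x ≤ (1-κ)/100 x / log x`
  obtain ⟨x10, h10⟩ := small_log 1 (100 / (1 - κ))
  -- `κ x ≥ √x + 3`
  obtain ⟨x11, h11⟩ : ∃ x₁₁ : ℕ, ∀ x : ℕ, x ≥ x₁₁ → √(x : ℝ) + 3 ≤ κ * x := by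
    have hlim := (tendsto_rpow_atTop (show (0 : ℝ) < 1 / 2 by norm_num)).comp
      tendsto_natCast_atTop_atTop
    have hev := hlim.eventually_ge_atTop (4 / κ)
    obtain ⟨N, hN⟩ := Filter.eventually_atTop.1 hev
    refine ⟨max N 1, fun x hx => ?_⟩
    have hx1 : 1 ≤ x := (le_max_right _ _).trans hx
    have ha : 4 / κ ≤ (x : ℝ) ^ (1 / 2 : ℝ) := hN x ((le_max_left _ _).trans hx)
    rw [← Real.sqrt_eq_rpow] at ha
    have hs1 : 1 ≤ √(x : ℝ) := by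
      rw [Real.one_le_sqrt]
      exact_mod_cast hx1
    have hb : 4 ≤ κ * √(x : ℝ) := by
      rw [div_le_iff₀ hκ] at ha
      linarith
    have hc : √(x : ℝ) * √(x : ℝ) = x := Real.mul_self_sqrt (Nat.cast_nonneg x)
    calc √(x : ℝ) + 3 ≤ 4 * √(x : ℝ) := by linarith
      _ ≤ (κ * √(x : ℝ)) * √(x : ℝ) := by gcongr
      _ = κ * x := by rw [mul_assoc, hc]
  refine ⟨x1 + x2 + x3 + ⌈x4⌉₊ + x5 + x6 + x7 + x8 + x9 + x10 + x11 + 1, ?_⟩
  intro x hx ρ hρ1 hρ2 hρ3 S c hS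
  have hx1 : 1 ≤ x := by omega
  have hx1r : (1 : ℝ) ≤ x := by exact_mod_cast hx1
  have hx0r : (0 : ℝ) < x := by linarith
  have hlog1 : 1 ≤ Real.log x := h9 x (by omega)
  have hlog0 : 0 < Real.log x := by linarith
  have hlogA : 0 < Real.log x ^ A := by positivity
  have hR := one_le_RR hx1
  have hκ' : 0 < 1 - κ := by linarith
  set y₀ := ⌊κ * x⌋₊ with hy₀
  have hy₀x : y₀ ≤ x := by
    have : (y₀ : ℝ) ≤ x := by
      refine (Nat.floor_le (by positivity)).trans ?_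
      nlinarith
    exact_mod_cast this
  have hy₀big : yx x ≤ y₀ := by
    unfold yx
    rw [hy₀, Nat.le_floor_iff (by positivity)]
    push_cast
    have h := h11 x (by omega)
    have h' : (Nat.sqrt x : ℝ) ≤ √(x : ℝ) := Real.nat_sqrt_le_real_sqrt
    linarith
  have hy₀1 : 1 ≤ y₀ := by
    refine le_trans ?_ hy₀big
    unfold yx
    omega
  -- notation
  set m : ℕ × ℕ → ℕ := fun i => i.1 * i.2 with hm
  set P : ℝ := (x : ℝ) / Real.log x with hP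
  have hP0 : 0 < P := by positivity
  -- the main term for every modulus
  have hmain : ∀ i ∈ S, 2 * (9 / 20 * (1 - κ) * P) ≤
      ∑ n ∈ (Ioc y₀ x).filter (fun n => Nat.Coprime n (m i)), ((eq_FF x n : ℤ) : ℝ) := by
    intro i hi
    have hmp : 0 < m i := eq_mod_pos hx1 (hS.good i hi)
    have e1 : ∀ n ∈ (Ioc y₀ x).filter (fun n => Nat.Coprime n (m i)),
        2 * (if n.Prime then (1 : ℝ) else 0) -
          2 * ((T4 (fun p q => ¬ (Dx x ≤ p * q ∧ p * q * Dx x ≤ x)) (zx x) (Dx x) n : ℤ) : ℝ) ≤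
        ((eq_FF x n : ℤ) : ℝ) := by
      intro n hn
      rw [mem_filter, mem_Ioc] at hn
      have h := h2 x (by omega) n (hy₀big.trans hn.1.1.le) hn.1.2
      have h' : (((if n.Prime then 2 else 0) -
          2 * T4 (fun p q => ¬ (Dx x ≤ p * q ∧ p * q * Dx x ≤ x)) (zx x) (Dx x) n : ℤ) : ℝ) ≤
          ((eq_FF x n : ℤ) : ℝ) := by
        unfold eq_FF
        exact_mod_cast h
      refine le_trans (le_of_eq ?_) h'
      push_cast
      split_ifs <;> ring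
    have e2 := sum_le_sum e1
    rw [Finset.sum_sub_distrib, ← Finset.mul_sum, ← Finset.mul_sum] at e2
    have e3 := eq_primes_coprime (y₀ := y₀) (x := x) (m := m i) hy₀x hmp
    have e4 : ∑ n ∈ (Ioc y₀ x).filter (fun n => Nat.Coprime n (m i)),
        ((T4 (fun p q => ¬ (Dx x ≤ p * q ∧ p * q * Dx x ≤ x)) (zx x) (Dx x) n : ℤ) : ℝ) ≤
        53 / 100 * (1 - κ) * P := by
      have h := h5 x (by omega)
      rw [← hy₀] at h
      have h' : ∑ n ∈ (Ioc y₀ x).filter (fun n => Nat.Coprime n (m i)),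
          ((T4 (fun p q => ¬ (Dx x ≤ p * q ∧ p * q * Dx x ≤ x)) (zx x) (Dx x) n : ℤ) : ℝ) ≤
          ∑ n ∈ Ioc y₀ x,
          ((T4 (fun p q => ¬ (Dx x ≤ p * q ∧ p * q * Dx x ≤ x)) (zx x) (Dx x) n : ℤ) : ℝ) :=
        sum_le_sum_of_subset_of_nonneg (filter_subset _ _) fun n _ _ => by
          exact_mod_cast eq_T4_nonneg _ _ _ _
      refine h'.trans ?_
      push_cast at h
      refine h.trans (le_of_eq ?_)
      rw [hP]
      ring
    have e5 := (h4 x (by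
      have : (⌈x4⌉₊ : ℝ) ≤ x := by exact_mod_cast (by omega : ⌈x4⌉₊ ≤ x)
      exact (Nat.le_ceil x4).trans this)).1
    rw [Nat.floor_natCast, ← hy₀] at e5
    have e6 : (((m i).divisors.card : ℕ) : ℝ) ≤ 1 / 100 * (1 - κ) * P := by
      have h := h7 x (by omega) (m i) hmp (by
        have h12 := eq_mod_le hx1 (hS.good i hi)
        have h13 : √(x : ℝ) * RR x ^ 2 ≤ (x : ℝ) ^ 4 := by
          have h14 : RR x ^ 2 ≤ x := by
            calc RR x ^ 2 ≤ RR x ^ 1000000 := pow_le_pow_right₀ hR (by norm_num)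
              _ = x := RR_pow x
          have h15 : √(x : ℝ) ≤ x := by
            rw [Real.sqrt_le_left hx0r.le]
            nlinarith
          calc √(x : ℝ) * RR x ^ 2 ≤ x * x := by gcongr
            _ = (x : ℝ) ^ 2 := by ring
            _ ≤ (x : ℝ) ^ 4 := pow_le_pow_right₀ hx1r (by norm_num)
        exact_mod_cast h12.trans h13)
      rw [pow_one] at h
      refine h.trans ?_
      have h12 := h10 x (by omega)
      rw [pow_one] at h12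
      -- RR * log * 100/(1-κ) ≤ RR * RR ≤ x
      have h13 : RR x * RR x ≤ x := by
        calc RR x * RR x = RR x ^ 2 := by ring
          _ ≤ RR x ^ 1000000 := pow_le_pow_right₀ hR (by norm_num)
          _ = x := RR_pow x
      have h14 : RR x * (100 / (1 - κ) * Real.log x) ≤ x :=
        (mul_le_mul_of_nonneg_left h12 (by linarith)).trans h13
      rw [hP, mul_div_assoc', le_div_iff₀ hlog0]
      have h15 : RR x * Real.log x * 100 ≤ (1 - κ) * x := by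
        have h16 : RR x * (100 / (1 - κ) * Real.log x) * (1 - κ) ≤ x * (1 - κ) :=
          mul_le_mul_of_nonneg_right h14 hκ'.le
        have h17 : RR x * (100 / (1 - κ) * Real.log x) * (1 - κ) = RR x * Real.log x * 100 := by
          field_simp
        linarith
      linarith
    have e7 : (1 - 1 / 100) * (1 - κ) * (x : ℝ) / Real.log x = 99 / 100 * (1 - κ) * P := by
      rw [hP]
      ring
    rw [e7] at e5
    have e8 : 99 / 100 * ((1 - κ) * P) - 1 / 100 * ((1 - κ) * P) - 53 / 100 * ((1 - κ) * P) =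
        9 / 20 * ((1 - κ) * P) := by ring
    linarith
  -- the upper bound for every modulus
  have hupper : ∀ i ∈ S, ∑ n ∈ (Ioc y₀ x).filter (fun n => n ≡ 1 [MOD m i]), ((eq_FF x n : ℤ) : ℝ) ≤
      2 * ((pi1 x (m i) : ℝ) - pi1 y₀ (m i)) +
        (((Ioc y₀ x).filter (fun n => n ≡ 1 [MOD i.1 * i.2] ∧ IsSquare n)).card : ℝ) := by
    intro i hi
    have e1 : ∀ n ∈ (Ioc y₀ x).filter (fun n => n ≡ 1 [MOD m i]), ((eq_FF x n : ℤ) : ℝ) ≤
        2 * (if n.Prime then (1 : ℝ) else 0) + (if IsSquare n then (1 : ℝ) else 0) := by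
      intro n hn
      rw [mem_filter, mem_Ioc] at hn
      have h := h1 x (by omega) n (hy₀big.trans hn.1.1.le) hn.1.2
      have h' : ((eq_FF x n : ℤ) : ℝ) ≤
          (((if n.Prime then 2 else 0) + (if IsSquare n then 1 else 0) : ℤ) : ℝ) := by
        unfold eq_FF
        exact_mod_cast h
      refine h'.trans (le_of_eq ?_)
      push_cast
      split_ifs <;> ring
    have e2 := sum_le_sum e1
    rw [Finset.sum_add_distrib, ← Finset.mul_sum, ← eq_pi1 hy₀x, Finset.sum_boole,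
      Finset.filter_filter] at e2
    exact e2
  -- the discrepancies
  have hdisc : ∀ y ≤ x, |∑ i ∈ S, c i * eq_dz (eq_FF x) y (m i)| ≤ 1 / 2 * (ρ * x / Real.log x ^ A) := by
    intro y hy
    have h := h3 x (by omega) ρ hρ1 hρ2 hρ3 S c hS y hy
    have h' : ∑ i ∈ S, (c i : ℂ) * disc (fun n => ((eq_FF x n : ℤ) : ℂ)) y (i.1 * i.2) =
        ((∑ i ∈ S, c i * eq_dz (eq_FF x) y (m i) : ℝ) : ℂ) := by
      push_cast
      refine sum_congr rfl fun i _ => ?_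
      rw [eq_disc_dz]
    rw [h', Complex.norm_real, Real.norm_eq_abs] at h
    exact h
  have hd1 := hdisc x le_rfl
  have hd2 := hdisc y₀ hy₀x
  -- squares
  have hsq := h6 x (by omega) S c hS.nonneg hS.le_one y₀ hy₀1
  have hsq2 : √(x : ℝ) * RR x ≤ ρ * x / Real.log x ^ A := by
    rw [le_div_iff₀ hlogA]
    have e1 := h8 x (by omega)
    rw [one_mul] at e1
    have e2 := eq_rho hρ1 hρ2 hρ3
    have e3 : √(x : ℝ) * RR x ^ 3 ≤ x := by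
      rw [Real.sqrt_eq_rpow, RR_pow_eq, ← Real.rpow_add hx0r]
      calc (x : ℝ) ^ ((1 : ℝ) / 2 + ((3 : ℕ) : ℝ) / 1000000) ≤ (x : ℝ) ^ (1 : ℝ) :=
            Real.rpow_le_rpow_of_exponent_le hx1r (by norm_num)
        _ = x := Real.rpow_one _
    have hR0 : 0 ≤ RR x := by linarith
    calc √(x : ℝ) * RR x * Real.log x ^ A ≤ √(x : ℝ) * RR x * RR x := by gcongr
      _ ≤ (ρ * RR x) * (√(x : ℝ) * RR x * RR x) := by
          have : 0 ≤ √(x : ℝ) * RR x * RR x := by positivity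
          nlinarith
      _ = ρ * (√(x : ℝ) * RR x ^ 3) := by ring
      _ ≤ ρ * x := by gcongr
  -- the sum over the moduli
  have hA1 : ∑ i ∈ S, c i * eq_dz (eq_FF x) x (m i) - ∑ i ∈ S, c i * eq_dz (eq_FF x) y₀ (m i) =
      ∑ i ∈ S, c i * ∑ n ∈ (Ioc y₀ x).filter (fun n => n ≡ 1 [MOD m i]), ((eq_FF x n : ℤ) : ℝ) -
      ∑ i ∈ S, c i * ((∑ n ∈ (Ioc y₀ x).filter (fun n => Nat.Coprime n (m i)), ((eq_FF x n : ℤ) : ℝ)) /
        ((m i).totient : ℝ)) := by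
    rw [← Finset.sum_sub_distrib, ← Finset.sum_sub_distrib]
    refine sum_congr rfl fun i _ => ?_
    rw [← mul_sub, ← mul_sub, eq_dz_sub hy₀x]
  have hA2 : ∑ i ∈ S, c i * ∑ n ∈ (Ioc y₀ x).filter (fun n => n ≡ 1 [MOD m i]), ((eq_FF x n : ℤ) : ℝ) ≤
      2 * ∑ i ∈ S, c i * ((pi1 x (m i) : ℝ) - pi1 y₀ (m i)) +
        ∑ i ∈ S, c i * (((Ioc y₀ x).filter (fun n => n ≡ 1 [MOD i.1 * i.2] ∧ IsSquare n)).card : ℝ) := by
    rw [Finset.mul_sum, ← Finset.sum_add_distrib]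
    refine sum_le_sum fun i hi => ?_
    have e1 := mul_le_mul_of_nonneg_left (hupper i hi) (hS.nonneg i hi)
    linarith
  have hA3 : 2 * (9 / 20 * (1 - κ) * P) * ∑ i ∈ S, c i / ((i.1 * i.2).totient : ℝ) ≤
      ∑ i ∈ S, c i * ((∑ n ∈ (Ioc y₀ x).filter (fun n => Nat.Coprime n (m i)), ((eq_FF x n : ℤ) : ℝ)) /
        ((m i).totient : ℝ)) := by
    rw [Finset.mul_sum]
    refine sum_le_sum fun i hi => ?_
    have e1 : (0 : ℝ) ≤ ((m i).totient : ℝ) := by positivity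
    have e2 := hmain i hi
    have e3 := hS.nonneg i hi
    calc 2 * (9 / 20 * (1 - κ) * P) * (c i / ((i.1 * i.2).totient : ℝ))
        = c i * (2 * (9 / 20 * (1 - κ) * P) / ((m i).totient : ℝ)) := by
          rw [hm]
          ring
      _ ≤ _ := by gcongr
  rw [abs_le] at hd1 hd2
  have hfin : (x : ℝ) / Real.log x = P := hP.symm
  linarith [hd1.1, hd1.2, hd2.1, hd2.2]

end Pool.Agent.ZH
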