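import Pool.Agent.Work.ZH.Shapes

/-!
# Cell ZH, module D1: the combinatorial identity
-/

namespace Pool.Agent.ZH

open Finset Pool.Agent.BV

/-! ### rough numbers -/

theorem identity_rough_iff {t n : ℕ} (hn : n ≠ 1) : rough t n ↔ t ≤ n.minFac := by
  constructor
  · intro h
    exact h _ (Nat.minFac_prime hn) (Nat.minFac_dvd n)
  · intro h p hp hpn
    exact h.trans (Nat.minFac_le_of_dvd hp.two_le hpn)

theorem identity_rough_one (t : ℕ) : rough t 1 := fun _ hp h =>
  absurd (Nat.dvd_one.1 h) hp.one_lt.ne'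

theorem identity_rough_div {n p : ℕ} (hp : p.Prime) (hpn : p ∣ n) :
    rough p (n / p) ↔ p = n.minFac := by
  have hn1 : n ≠ 1 := by
    rintro rfl
    exact hp.one_lt.ne' (Nat.dvd_one.1 hpn)
  have hq := Nat.minFac_prime hn1
  constructor
  · intro h
    by_contra hne
    have h1 : n.minFac ∣ p * (n / p) := by
      rw [Nat.mul_div_cancel' hpn]
      exact Nat.minFac_dvd n
    rcases hq.dvd_mul.1 h1 with h2 | h2
    · exact hne ((Nat.prime_dvd_prime_iff_eq hq hp).1 h2).symm
    · have h3 := h _ hq h2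
      have h4 := Nat.minFac_le_of_dvd hp.two_le hpn
      omega
  · intro h q hq1 hqn
    rw [h]
    exact Nat.minFac_le_of_dvd hq1.two_le (hqn.trans (Nat.div_dvd_of_dvd hpn))

open Classical in
theorem identity_sum_minFac {n : ℕ} (hn : 0 < n) (P : ℕ → Prop) [DecidablePred P] :
    (∑ p ∈ n.primeFactors.filter P, if rough p (n / p) then 1 else 0 : ℤ) =
      if n ≠ 1 ∧ P n.minFac then 1 else 0 := by
  have h1 : (∑ p ∈ n.primeFactors.filter P, if rough p (n / p) then 1 else 0 : ℤ) =
      ∑ p ∈ n.primeFactors.filter P, if n.minFac = p then 1 else 0 := by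
    refine Finset.sum_congr rfl fun p hp => ?_
    rw [Finset.mem_filter, Nat.mem_primeFactors] at hp
    have h2 := identity_rough_div hp.1.1 hp.1.2.1
    by_cases h : p = n.minFac
    · rw [if_pos (h2.2 h), if_pos h.symm]
    · rw [if_neg fun h3 => h (h2.1 h3), if_neg fun h3 => h h3.symm]
  rw [h1, Finset.sum_ite_eq]
  have h3 : n.minFac ∈ n.primeFactors.filter P ↔ n ≠ 1 ∧ P n.minFac := by
    rw [Finset.mem_filter, Nat.mem_primeFactors]
    constructor
    · rintro ⟨⟨h, -, -⟩, h'⟩
      refine ⟨?_, h'⟩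
      rintro rfl
      rw [Nat.minFac_one] at h
      exact absurd h (by norm_num)
    · rintro ⟨h, h'⟩
      exact ⟨⟨Nat.minFac_prime h, Nat.minFac_dvd n, hn.ne'⟩, h'⟩
  by_cases h : n ≠ 1 ∧ P n.minFac
  · rw [if_pos (h3.2 h), if_pos h]
  · rw [if_neg fun h4 => h (h3.1 h4), if_neg h]

open Classical in
/-- Buchstab's identity -/
theorem identity_buchstab {z y n : ℕ} (hzy : z ≤ y) (hn : 0 < n) :
    (if rough y n then 1 else 0 : ℤ) = (if rough z n then 1 else 0) -
      ∑ p ∈ n.primeFactors.filter (fun p => z ≤ p ∧ p < y), if rough p (n / p) then 1 else 0 := by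
  rw [identity_sum_minFac hn]
  by_cases h1 : n = 1
  · subst h1
    rw [if_pos (identity_rough_one y), if_pos (identity_rough_one z), if_neg]
    · norm_num
    · exact fun h => h.1 rfl
  · rw [show rough y n ↔ y ≤ n.minFac from identity_rough_iff h1,
      show rough z n ↔ z ≤ n.minFac from identity_rough_iff h1]
    by_cases h2 : y ≤ n.minFac
    · rw [if_pos h2, if_pos (hzy.trans h2), if_neg]
      · norm_num
      · rintro ⟨-, -, h3⟩
        omega
    · rw [if_neg h2]
      by_cases h3 : z ≤ n.minFac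
      · rw [if_pos h3, if_pos ⟨h1, h3, by omega⟩]
        norm_num
      · rw [if_neg h3, if_neg]
        · norm_num
        · exact fun h => h3 h.2.1

/-! ### Legendre -/

theorem identity_moebius_mul {p c : ℕ} (hp : p.Prime) (h : ¬ p ∣ c) :
    ArithmeticFunction.moebius (p * c) = - ArithmeticFunction.moebius c := by
  rw [ArithmeticFunction.isMultiplicative_moebius.map_mul_of_coprime
    ((Nat.Prime.coprime_iff_not_dvd hp).2 h), ArithmeticFunction.moebius_apply_prime hp]
  ring

theorem identity_sq_not_dvd {p c : ℕ} (hp : p.Prime) (h : Squarefree c) (hpc : p ∣ c) :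
    ¬ p ∣ c / p := by
  rintro ⟨k, hk⟩
  have h1 : c = p * p * k := by
    rw [mul_assoc, ← hk, Nat.mul_div_cancel' hpc]
  have h2 := h p ⟨k, h1⟩
  rw [Nat.isUnit_iff] at h2
  exact hp.one_lt.ne' h2

open Classical in
/-- squarefree divisors with all primes `< t` -/
noncomputable def smd (t N : ℕ) : Finset ℕ :=
  N.divisors.filter (fun f => Squarefree f ∧ ∀ p : ℕ, p.Prime → p ∣ f → p < t)

theorem mem_smd {t N f : ℕ} : f ∈ smd t N ↔
    (f ∣ N ∧ N ≠ 0) ∧ Squarefree f ∧ ∀ p : ℕ, p.Prime → p ∣ f → p < t := by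
  classical
  rw [smd, Finset.mem_filter, Nat.mem_divisors]

open Classical in
theorem identity_legendre (t : ℕ) {N : ℕ} (hN : 0 < N) :
    ∑ f ∈ smd t N, ArithmeticFunction.moebius f = if rough t N then 1 else 0 := by
  by_cases h : rough t N
  · rw [if_pos h]
    have h1 : smd t N = {1} := by
      ext f
      rw [mem_smd, Finset.mem_singleton]
      constructor
      · rintro ⟨⟨h2, -⟩, -, h3⟩
        by_contra h4
        have h5 := Nat.minFac_prime h4
        have h6 := h3 _ h5 (Nat.minFac_dvd f)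
        have h7 := h _ h5 ((Nat.minFac_dvd f).trans h2)
        omega
      · rintro rfl
        exact ⟨⟨one_dvd _, hN.ne'⟩, squarefree_one, fun p hp h =>
          absurd (Nat.dvd_one.1 h) hp.one_lt.ne'⟩
    rw [h1, Finset.sum_singleton, ArithmeticFunction.moebius_apply_one]
  · rw [if_neg h]
    unfold rough at h
    push Not at h
    obtain ⟨p, hp, hpN, hpt⟩ := h
    have hp1 := hp.one_lt
    refine Finset.sum_involution (fun f _ => if p ∣ f then f / p else p * f) ?_ ?_ ?_ ?_
    · intro f hf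
      rw [mem_smd] at hf
      by_cases h : p ∣ f
      · simp only [if_pos h]
        have h1 := identity_moebius_mul hp (identity_sq_not_dvd hp hf.2.1 h)
        rw [Nat.mul_div_cancel' h] at h1
        rw [h1]
        ring
      · simp only [if_neg h]
        rw [identity_moebius_mul hp h]
        ring
    · intro f hf _
      rw [mem_smd] at hf
      have hf0 : 0 < f := Nat.pos_of_dvd_of_pos hf.1.1 hN
      by_cases h : p ∣ f
      · simp only [if_pos h]
        exact (Nat.div_lt_self hf0 hp1).ne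
      · simp only [if_neg h]
        nlinarith
    · intro f hf
      rw [mem_smd] at hf
      by_cases h : p ∣ f
      · simp only [if_pos h]
        rw [mem_smd]
        have h1 : f / p ∣ f := Nat.div_dvd_of_dvd h
        exact ⟨⟨h1.trans hf.1.1, hf.1.2⟩, hf.2.1.squarefree_of_dvd h1,
          fun q hq hqf => hf.2.2 q hq (hqf.trans h1)⟩
      · simp only [if_neg h]
        rw [mem_smd]
        have hcop : Nat.Coprime p f := (Nat.Prime.coprime_iff_not_dvd hp).2 h
        refine ⟨⟨hcop.mul_dvd_of_dvd_of_dvd hpN hf.1.1, hf.1.2⟩,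
          (Nat.squarefree_mul hcop).2 ⟨hp.squarefree, hf.2.1⟩, fun q hq hqf => ?_⟩
        rcases hq.dvd_mul.1 hqf with h1 | h1
        · rw [(Nat.prime_dvd_prime_iff_eq hq hp).1 h1]
          exact hpt
        · exact hf.2.2 q hq h1
    · intro f hf
      rw [mem_smd] at hf
      by_cases h : p ∣ f
      · simp only [if_pos h]
        rw [if_neg (identity_sq_not_dvd hp hf.2.1 h), Nat.mul_div_cancel' h]
      · simp only [if_neg h]
        rw [if_pos (Dvd.intro f rfl), Nat.mul_div_cancel_left f hp.pos]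

/-! ### the part with at most one large prime -/

open Classical in
theorem identity_CC {z D n : ℕ} (hzD : z ≤ D) (hn : 0 < n) :
    (∑ c ∈ n.divisors.filter (fun c => CC z D c), ArithmeticFunction.moebius c : ℤ) =
      (if rough z n then 1 else 0) -
        ∑ p ∈ n.primeFactors.filter (fun p => z ≤ p ∧ p < D), if rough z (n / p) then 1 else 0 := by
  have h1 : ∀ c, c ∈ smd z n ↔ c ∈ n.divisors.filter (fun c => CC z D c) ∧
      ∀ p : ℕ, p.Prime → p ∣ c → p < z := by
    intro c
    rw [mem_smd, Finset.mem_filter, Nat.mem_divisors]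
    constructor
    · rintro ⟨h1, h2, h3⟩
      refine ⟨⟨h1, h2, fun p hp hpc => (h3 p hp hpc).trans_le hzD, ?_⟩, h3⟩
      rw [Finset.filter_eq_empty_iff.2, Finset.card_empty]
      · exact Nat.zero_le _
      · intro p hp
        have := h3 p (Nat.prime_of_mem_primeFactors hp) (Nat.dvd_of_mem_primeFactors hp)
        omega
    · rintro ⟨⟨h1, h2⟩, h3⟩
      exact ⟨h1, h2.1, h3⟩
  have h2 : smd z n = (n.divisors.filter (fun c => CC z D c)).filter
      (fun c => ∀ p : ℕ, p.Prime → p ∣ c → p < z) := by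
    ext c
    rw [h1]
    simp only [Finset.mem_filter]
  rw [← Finset.sum_filter_add_sum_filter_not (n.divisors.filter (fun c => CC z D c))
    (fun c => ∀ p : ℕ, p.Prime → p ∣ c → p < z), ← h2, identity_legendre z hn, sub_eq_add_neg]
  congr 1
  have h3 : ∀ p ∈ n.primeFactors.filter (fun p => z ≤ p ∧ p < D),
      (if rough z (n / p) then 1 else 0 : ℤ) =
        ∑ c ∈ smd z (n / p), ArithmeticFunction.moebius c := by
    intro p hp
    rw [Finset.mem_filter, Nat.mem_primeFactors] at hp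
    rw [identity_legendre z (Nat.div_pos (Nat.le_of_dvd hn hp.1.2.1) hp.1.1.pos)]
  rw [Finset.sum_congr rfl h3, ← Finset.sum_neg_distrib]
  simp only [← Finset.sum_neg_distrib]
  rw [Finset.sum_sigma']
  symm
  have hndvd : ∀ a ∈ (n.primeFactors.filter (fun p => z ≤ p ∧ p < D)).sigma
      (fun p => smd z (n / p)), ¬ a.1 ∣ a.2 := by
    rintro ⟨p, c⟩ ha h
    rw [Finset.mem_sigma, Finset.mem_filter, Nat.mem_primeFactors, mem_smd] at ha
    have := ha.2.2.2 p ha.1.1.1 h
    have := ha.1.2.1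
    simp only at *
    omega
  refine Finset.sum_nbij (fun a => a.1 * a.2) ?_ ?_ ?_ ?_
  · rintro ⟨p, c⟩ ha
    have hnd := hndvd _ ha
    rw [Finset.mem_sigma, Finset.mem_filter, Nat.mem_primeFactors, mem_smd] at ha
    obtain ⟨⟨⟨hp, hpn, -⟩, hzp, hpD⟩, ⟨hcn, -⟩, hsq, hc⟩ := ha
    simp only at *
    have hcop : Nat.Coprime p c := (Nat.Prime.coprime_iff_not_dvd hp).2 hnd
    rw [Finset.mem_filter, Finset.mem_filter, Nat.mem_divisors]
    have hdv : p * c ∣ n := by
      have := Nat.mul_dvd_mul_left p hcn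
      rwa [Nat.mul_div_cancel' hpn] at this
    refine ⟨⟨⟨hdv, hn.ne'⟩, (Nat.squarefree_mul hcop).2 ⟨hp.squarefree, hsq⟩, ?_, ?_⟩, ?_⟩
    · intro q hq hqc
      rcases hq.dvd_mul.1 hqc with h | h
      · rw [(Nat.prime_dvd_prime_iff_eq hq hp).1 h]
        exact hpD
      · exact (hc q hq h).trans_le hzD
    · have h4 : (p * c).primeFactors.filter (fun q => z ≤ q) ⊆ {p} := by
        intro q hq
        rw [Finset.mem_filter, Nat.mem_primeFactors] at hq
        rw [Finset.mem_singleton]
        rcases hq.1.1.dvd_mul.1 hq.1.2.1 with h | h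
        · exact (Nat.prime_dvd_prime_iff_eq hq.1.1 hp).1 h
        · have := hc q hq.1.1 h
          omega
      exact (Finset.card_le_card h4).trans (Finset.card_singleton p).le
    · intro h
      have := h p hp (Dvd.intro c rfl)
      omega
  · rintro ⟨p, c⟩ ha ⟨p', c'⟩ ha' h
    rw [Finset.mem_coe] at ha ha'
    rw [Finset.mem_sigma, Finset.mem_filter, Nat.mem_primeFactors, mem_smd] at ha ha'
    simp only at *
    have h4 : p = p' := by
      have h5 : p ∣ p' * c' := h ▸ Dvd.intro c rfl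
      rcases ha.1.1.1.dvd_mul.1 h5 with h6 | h6
      · exact (Nat.prime_dvd_prime_iff_eq ha.1.1.1 ha'.1.1.1).1 h6
      · have := ha'.2.2.2 p ha.1.1.1 h6
        have := ha.1.2.1
        omega
    subst h4
    have h5 : c = c' := Nat.eq_of_mul_eq_mul_left ha.1.1.1.pos h
    rw [h5]
  · intro c hc
    rw [Finset.mem_coe, Finset.mem_filter, Finset.mem_filter, Nat.mem_divisors] at hc
    obtain ⟨⟨⟨hcn, -⟩, hsq, hcD, hcard⟩, hnot⟩ := hc
    push Not at hnot
    obtain ⟨p, hp, hpc, hzp⟩ := hnot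
    refine ⟨⟨p, c / p⟩, ?_, Nat.mul_div_cancel' hpc⟩
    rw [Finset.mem_coe, Finset.mem_sigma, Finset.mem_filter, Nat.mem_primeFactors, mem_smd]
    have hc0 : 0 < c := Nat.pos_of_dvd_of_pos hcn hn
    have hpn := hpc.trans hcn
    refine ⟨⟨⟨hp, hpn, hn.ne'⟩, hzp, hcD p hp hpc⟩, ⟨Nat.div_dvd_div hpc hcn,
      (Nat.div_pos (Nat.le_of_dvd hn hpn) hp.pos).ne'⟩,
      hsq.squarefree_of_dvd (Nat.div_dvd_of_dvd hpc), ?_⟩
    intro q hq hqc
    by_contra hcon
    push Not at hcon
    have hq1 : q ∈ c.primeFactors.filter (fun p => z ≤ p) := by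
      rw [Finset.mem_filter, Nat.mem_primeFactors]
      exact ⟨⟨hq, hqc.trans (Nat.div_dvd_of_dvd hpc), hc0.ne'⟩, hcon⟩
    have hp1 : p ∈ c.primeFactors.filter (fun p => z ≤ p) := by
      rw [Finset.mem_filter, Nat.mem_primeFactors]
      exact ⟨⟨hp, hpc, hc0.ne'⟩, hzp⟩
    have h4 := Finset.card_le_one.1 hcard q hq1 p hp1
    rw [h4] at hqc
    exact identity_sq_not_dvd hp hsq hpc hqc
  · rintro ⟨p, c⟩ ha
    have hnd := hndvd _ ha
    rw [Finset.mem_sigma, Finset.mem_filter, Nat.mem_primeFactors] at ha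
    exact (identity_moebius_mul ha.1.1.1 hnd).symm

/-! ### the minimal initial factors -/

/-- `e` is the minimal initial factor `≥ D` of `c` (in decreasing order of the primes) -/
structure Pref (D e c : ℕ) : Prop where
  dvd : e ∣ c
  le : D ≤ e
  lt : e / e.minFac < D
  small : ∀ p : ℕ, p.Prime → p ∣ c / e → p < e.minFac

theorem Pref.dvd_of_le {D e e' c : ℕ} (h : Pref D e c) (h' : Pref D e' c)
    (hle : e.minFac ≤ e'.minFac) : e' ∣ e := by
  have h1 : Nat.Coprime e' (c / e) := by
    rw [Nat.coprime_iff_gcd_eq_one]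
    by_contra hcon
    obtain ⟨p, hp, hpd⟩ := Nat.exists_prime_and_dvd hcon
    have h2 := h.small p hp (hpd.trans (Nat.gcd_dvd_right _ _))
    have h3 := Nat.minFac_le_of_dvd hp.two_le (hpd.trans (Nat.gcd_dvd_left e' (c / e)))
    omega
  have h2 : e' ∣ e * (c / e) := by
    rw [Nat.mul_div_cancel' h.dvd]
    exact h'.dvd
  exact h1.dvd_of_dvd_mul_right h2

theorem Pref.unique_aux {D e e' c : ℕ} (hD : 2 ≤ D) (h : Pref D e c)
    (h' : Pref D e' c) (hle : e.minFac ≤ e'.minFac) : e = e' := by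
  have h1 := h.dvd_of_le h' hle
  have he0 : 0 < e := by have := h.le; omega
  have he1 : e ≠ 1 := by have := h.le; omega
  have he'1 : e' ≠ 1 := by have := h'.le; omega
  rcases hle.eq_or_lt with h2 | h2
  · exact Nat.dvd_antisymm (h'.dvd_of_le h h2.ge) h1
  · exfalso
    have hq := Nat.minFac_prime he1
    have h3 : Nat.Coprime e' e.minFac := by
      rw [Nat.coprime_comm, Nat.Prime.coprime_iff_not_dvd hq]
      intro h4
      have := Nat.minFac_le_of_dvd hq.two_le h4
      omega
    have h4 : e' ∣ e.minFac * (e / e.minFac) := by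
      rw [Nat.mul_div_cancel' (Nat.minFac_dvd e)]
      exact h1
    have h5 := h3.dvd_of_dvd_mul_left h4
    have h6 := Nat.le_of_dvd (Nat.div_pos (Nat.minFac_le he0) hq.pos) h5
    have := h.lt
    have := h'.le
    omega

theorem Pref.unique {D e e' c : ℕ} (hD : 2 ≤ D) (h : Pref D e c)
    (h' : Pref D e' c) : e = e' := by
  rcases le_total e.minFac e'.minFac with h1 | h1
  · exact h.unique_aux hD h' h1
  · exact (h'.unique_aux hD h h1).symm

theorem exists_pref {D : ℕ} (hD : 2 ≤ D) : ∀ c : ℕ, Squarefree c → D ≤ c → ∃ e, Pref D e c := by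
  intro c
  induction c using Nat.strong_induction_on with
  | _ c ih =>
    intro hc hDc
    have hc1 : c ≠ 1 := by omega
    have hc0 : 0 < c := by omega
    have hq := Nat.minFac_prime hc1
    by_cases h : c / c.minFac < D
    · refine ⟨c, dvd_rfl, hDc, h, fun p hp hpc => ?_⟩
      rw [Nat.div_self hc0] at hpc
      exact absurd (Nat.dvd_one.1 hpc) hp.one_lt.ne'
    · push Not at h
      have hdv := Nat.div_dvd_of_dvd (Nat.minFac_dvd c)
      obtain ⟨e, he⟩ := ih _ (Nat.div_lt_self hc0 hq.one_lt) (hc.squarefree_of_dvd hdv) h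
      have he1 : e ≠ 1 := by have := he.le; omega
      have hmin : c.minFac < e.minFac := by
        have h1 : e.minFac ∣ c / c.minFac := (Nat.minFac_dvd e).trans he.dvd
        have h2 := Nat.minFac_le_of_dvd (Nat.minFac_prime he1).two_le (h1.trans hdv)
        rcases h2.eq_or_lt with h3 | h3
        · exfalso
          rw [← h3] at h1
          exact identity_sq_not_dvd hq hc (Nat.minFac_dvd c) h1
        · exact h3
      refine ⟨e, he.dvd.trans hdv, he.le, he.lt, fun p hp hpc => ?_⟩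
      have h1 : c / e = c.minFac * (c / c.minFac / e) := by
        obtain ⟨k, hk⟩ := he.dvd
        have he0 : 0 < e := by have := he.le; omega
        have h2 : c = e * (c.minFac * k) := by
          conv_lhs => rw [← Nat.mul_div_cancel' (Nat.minFac_dvd c), hk]
          ring
        rw [hk, Nat.mul_div_cancel_left k he0]
        conv_lhs => rw [h2]
        rw [Nat.mul_div_cancel_left _ he0]
      rw [h1] at hpc
      rcases hp.dvd_mul.1 hpc with h2 | h2
      · rw [(Nat.prime_dvd_prime_iff_eq hp hq).1 h2]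
        exact hmin
      · exact he.small p hp h2

open Classical in
theorem identity_EE {z D n : ℕ} (hz : 2 ≤ z) (hzD : z ≤ D) (hn : 0 < n) :
    (∑ c ∈ n.divisors.filter (fun c => CC z D c ∧ ¬ c < D), ArithmeticFunction.moebius c : ℤ) =
      I2 z D n := by
  have hD : 2 ≤ D := hz.trans hzD
  rw [I2]
  have h3 : ∀ d ∈ n.divisors.filter (fun d => EE z D d),
      ArithmeticFunction.moebius d * (if rough d.minFac (n / d) then 1 else 0 : ℤ) =
        ∑ f ∈ smd d.minFac (n / d), ArithmeticFunction.moebius (d * f) := by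
    intro d hd
    rw [Finset.mem_filter, Nat.mem_divisors] at hd
    have hd0 : 0 < d := Nat.pos_of_dvd_of_pos hd.1.1 hn
    rw [← identity_legendre d.minFac (Nat.div_pos (Nat.le_of_dvd hn hd.1.1) hd0), Finset.mul_sum]
    refine Finset.sum_congr rfl fun f hf => ?_
    rw [mem_smd] at hf
    rw [ArithmeticFunction.isMultiplicative_moebius.map_mul_of_coprime]
    by_contra hcon
    obtain ⟨p, hp, hpd⟩ := Nat.exists_prime_and_dvd hcon
    have h4 := hf.2.2 p hp (hpd.trans (Nat.gcd_dvd_right _ _))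
    have h5 := Nat.minFac_le_of_dvd hp.two_le (hpd.trans (Nat.gcd_dvd_left d f))
    omega
  rw [Finset.sum_congr rfl h3, Finset.sum_sigma']
  symm
  have key : ∀ a ∈ (n.divisors.filter (fun d => EE z D d)).sigma
      (fun d => smd d.minFac (n / d)), 0 < a.1 ∧ Nat.Coprime a.1 a.2 ∧ Pref D a.1 (a.1 * a.2) ∧
        Squarefree (a.1 * a.2) := by
    rintro ⟨d, f⟩ ha
    rw [Finset.mem_sigma, Finset.mem_filter, Nat.mem_divisors, mem_smd] at ha
    obtain ⟨⟨⟨hdn, -⟩, ⟨hdsq, hdD, hdc⟩, hDd, hlt⟩, ⟨hfn, -⟩, hfsq, hf⟩ := ha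
    simp only at *
    have hd0 : 0 < d := Nat.pos_of_dvd_of_pos hdn hn
    have hcop : Nat.Coprime d f := by
      rw [Nat.coprime_iff_gcd_eq_one]
      by_contra hcon
      obtain ⟨p, hp, hpd⟩ := Nat.exists_prime_and_dvd hcon
      have h4 := hf p hp (hpd.trans (Nat.gcd_dvd_right _ _))
      have h5 := Nat.minFac_le_of_dvd hp.two_le (hpd.trans (Nat.gcd_dvd_left d f))
      omega
    refine ⟨hd0, hcop, ⟨Dvd.intro f rfl, hDd, hlt, ?_⟩, (Nat.squarefree_mul hcop).2 ⟨hdsq, hfsq⟩⟩
    intro p hp hpd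
    rw [Nat.mul_div_cancel_left f hd0] at hpd
    exact hf p hp hpd
  refine Finset.sum_nbij (fun a => a.1 * a.2) ?_ ?_ ?_ ?_
  · rintro ⟨d, f⟩ ha
    obtain ⟨hd0, hcop, hpref, hsq⟩ := key _ ha
    rw [Finset.mem_sigma, Finset.mem_filter, Nat.mem_divisors, mem_smd] at ha
    obtain ⟨⟨⟨hdn, -⟩, ⟨hdsq, hdD, hdc⟩, hDd, hlt⟩, ⟨hfn, -⟩, hfsq, hf⟩ := ha
    simp only at *
    have hd1 : d ≠ 1 := by omega
    have hmz : d.minFac < z := by
      by_contra hcon
      push Not at hcon
      have h4 : d.primeFactors.filter (fun p => z ≤ p) = d.primeFactors := by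
        rw [Finset.filter_true_of_mem]
        intro p hp
        exact hcon.trans (Nat.minFac_le_of_dvd (Nat.prime_of_mem_primeFactors hp).two_le
          (Nat.dvd_of_mem_primeFactors hp))
      rw [h4] at hdc
      have h5 : d = d.minFac := by
        have h6 : d.primeFactors = {d.minFac} := by
          refine Finset.eq_singleton_iff_unique_mem.2 ⟨?_, fun p hp => ?_⟩
          · exact Nat.mem_primeFactors.2 ⟨Nat.minFac_prime hd1, Nat.minFac_dvd d, hd0.ne'⟩
          · exact Finset.card_le_one.1 hdc p hp _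
              (Nat.mem_primeFactors.2 ⟨Nat.minFac_prime hd1, Nat.minFac_dvd d, hd0.ne'⟩)
        have h7 := Nat.prod_primeFactors_of_squarefree hdsq
        rw [h6, Finset.prod_singleton] at h7
        exact h7.symm
      have h6 := hdD d.minFac (Nat.minFac_prime hd1) (Nat.minFac_dvd d)
      rw [← h5] at h6
      omega
    have hdv : d * f ∣ n := by
      have := Nat.mul_dvd_mul_left d hfn
      rwa [Nat.mul_div_cancel' hdn] at this
    rw [Finset.mem_filter, Nat.mem_divisors]
    refine ⟨⟨hdv, hn.ne'⟩, ⟨hsq, ?_, ?_⟩, ?_⟩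
    · intro q hq hqd
      rcases hq.dvd_mul.1 hqd with h | h
      · exact hdD q hq h
      · have := hf q hq h
        omega
    · refine (Finset.card_le_card ?_).trans hdc
      intro q hq
      rw [Finset.mem_filter, Nat.mem_primeFactors] at hq ⊢
      rcases hq.1.1.dvd_mul.1 hq.1.2.1 with h | h
      · exact ⟨⟨hq.1.1, h, hd0.ne'⟩, hq.2⟩
      · have := hf q hq.1.1 h
        omega
    · have hf0 : 0 < f := Nat.pos_of_ne_zero hfsq.ne_zero
      have := Nat.le_mul_of_pos_right d hf0
      omega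
  · rintro ⟨d, f⟩ ha ⟨d', f'⟩ ha' h
    obtain ⟨hd0, -, hpref, hsq⟩ := key _ ha
    obtain ⟨-, -, hpref', -⟩ := key _ ha'
    simp only at *
    rw [← h] at hpref'
    have h4 := hpref.unique hD hpref'
    subst h4
    have h5 : f = f' := Nat.eq_of_mul_eq_mul_left hd0 h
    rw [h5]
  · intro c hc
    rw [Finset.mem_coe, Finset.mem_filter, Nat.mem_divisors] at hc
    obtain ⟨⟨hcn, -⟩, ⟨hsq, hcD, hcard⟩, hDc⟩ := hc
    push Not at hDc
    obtain ⟨e, he⟩ := exists_pref hD c hsq hDc
    have hc0 : 0 < c := by omega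
    have he0 : 0 < e := by have := he.le; omega
    refine ⟨⟨e, c / e⟩, ?_, Nat.mul_div_cancel' he.dvd⟩
    rw [Finset.mem_coe, Finset.mem_sigma, Finset.mem_filter, Nat.mem_divisors, mem_smd]
    refine ⟨⟨⟨he.dvd.trans hcn, hn.ne'⟩, ⟨hsq.squarefree_of_dvd he.dvd,
      fun p hp hpe => hcD p hp (hpe.trans he.dvd), ?_⟩, he.le, he.lt⟩,
      ⟨Nat.div_dvd_div he.dvd hcn,
        (Nat.div_pos (Nat.le_of_dvd hn (he.dvd.trans hcn)) he0).ne'⟩,
      hsq.squarefree_of_dvd (Nat.div_dvd_of_dvd he.dvd), he.small⟩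
    refine (Finset.card_le_card ?_).trans hcard
    intro q hq
    rw [Finset.mem_filter, Nat.mem_primeFactors] at hq ⊢
    exact ⟨⟨hq.1.1, hq.1.2.1.trans he.dvd, hc0.ne'⟩, hq.2⟩
  · rintro ⟨d, f⟩ _
    rfl

/-! ### the identity -/

theorem T4_nonneg (P : ℕ → ℕ → Prop) (z D n : ℕ) : 0 ≤ T4 P z D n := by
  classical
  unfold T4
  refine Finset.sum_nonneg fun p _ => Finset.sum_nonneg fun q _ => ?_
  split_ifs <;> norm_num

theorem T4_split (P : ℕ → ℕ → Prop) (z D n : ℕ) :
    T4 (fun _ _ => True) z D n = T4 P z D n + T4 (fun p q => ¬ P p q) z D n := by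
  classical
  unfold T4
  rw [← Finset.sum_add_distrib]
  refine Finset.sum_congr rfl fun p _ => ?_
  simp only [Finset.sum_filter]
  rw [← Finset.sum_add_distrib]
  refine Finset.sum_congr rfl fun q _ => ?_
  by_cases h1 : z ≤ q <;> by_cases h2 : q < p <;> by_cases h3 : P p q <;>
    simp [h1, h2, h3]

open Classical in
theorem identity {z D y n : ℕ} (hz : 2 ≤ z) (hzD : z ≤ D) (hDy : D ≤ y) (hn : 0 < n) :
    (if rough y n then 1 else 0 : ℤ) = I1 z D n + I2 z D n - T2 D y n +
      T4 (fun _ _ => True) z D n := by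
  -- the part with `p < D`
  have h1 := identity_buchstab hDy hn
  have h2 := identity_buchstab hzD hn
  have h3 : ∀ p ∈ n.primeFactors.filter (fun p => z ≤ p ∧ p < D),
      (if rough p (n / p) then 1 else 0 : ℤ) = (if rough z (n / p) then 1 else 0) -
        ∑ q ∈ (n / p).primeFactors.filter (fun q => z ≤ q ∧ q < p ∧ True),
          if rough q (n / (p * q)) then 1 else 0 := by
    intro p hp
    rw [Finset.mem_filter, Nat.mem_primeFactors] at hp
    rw [identity_buchstab hp.2.1 (Nat.div_pos (Nat.le_of_dvd hn hp.1.2.1) hp.1.1.pos)]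
    congr 1
    refine Finset.sum_congr ?_ fun q _ => ?_
    · ext q
      simp only [Finset.mem_filter]
      tauto
    · rw [Nat.div_div_eq_div_mul]
  rw [Finset.sum_congr rfl h3, Finset.sum_sub_distrib] at h2
  have h4 := identity_CC hzD hn
  have h5 : (∑ c ∈ n.divisors.filter (fun c => CC z D c), ArithmeticFunction.moebius c : ℤ) =
      I1 z D n + I2 z D n := by
    rw [← identity_EE hz hzD hn, I1, ← Finset.sum_filter_add_sum_filter_not
      (n.divisors.filter (fun c => CC z D c)) (fun c => c < D), Finset.filter_filter,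
      Finset.filter_filter]
  rw [h5] at h4
  have h6 : T4 (fun _ _ => True) z D n = ∑ p ∈ n.primeFactors.filter (fun p => z ≤ p ∧ p < D),
      ∑ q ∈ (n / p).primeFactors.filter (fun q => z ≤ q ∧ q < p ∧ True),
        if rough q (n / (p * q)) then 1 else 0 := by
    unfold T4
    refine Finset.sum_congr rfl fun p _ => Finset.sum_congr ?_ fun _ _ => rfl
    ext q
    simp only [Finset.mem_filter]
  rw [T2, h6, h1, h2, h4]
  ring

theorem identity_yx {x n : ℕ} (hn : n ≤ x) : n < yx x * yx x := by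
  have : x < (Nat.sqrt x + 1) * (Nat.sqrt x + 1) := Nat.lt_succ_sqrt x
  unfold yx
  omega

theorem prime_of_rough {x n : ℕ} (h1 : 1 < n) (hn : n ≤ x) (h : rough (yx x) n) : n.Prime := by
  by_contra hcon
  have h2 := Nat.minFac_sq_le_self (by omega) hcon
  have h3 := (identity_rough_iff h1.ne').1 h
  have h4 := identity_yx hn
  have h5 := Nat.mul_le_mul h3 h3
  rw [sq] at h2
  omega

open Classical in
theorem T2_eq {D y n : ℕ} (hn : 0 < n) :
    T2 D y n = if n ≠ 1 ∧ D ≤ n.minFac ∧ n.minFac < y then 1 else 0 := by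
  rw [T2, identity_sum_minFac hn]

/-- the cofactor of the smallest prime factor -/
theorem identity_cofactor {D x n : ℕ} (hD : x < D ^ 3) (hn0 : 0 < n) (hn : n ≤ x) (h1 : n ≠ 1)
    (hDn : D ≤ n.minFac) : n / n.minFac = 1 ∨ (n / n.minFac).Prime := by
  by_contra hcon
  rw [not_or] at hcon
  have hq := Nat.minFac_prime h1
  have hm0 : 0 < n / n.minFac := Nat.div_pos (Nat.minFac_le hn0) hq.pos
  have h2 := Nat.minFac_sq_le_self hm0 hcon.2
  have h3 : D ≤ (n / n.minFac).minFac := by
    refine hDn.trans (Nat.minFac_le_of_dvd (Nat.minFac_prime hcon.1).two_le ?_)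
    exact (Nat.minFac_dvd _).trans (Nat.div_dvd_of_dvd (Nat.minFac_dvd n))
  have h4 : D ^ 2 ≤ n / n.minFac := (Nat.pow_le_pow_left h3 2).trans h2
  have h5 : n.minFac * (n / n.minFac) = n := Nat.mul_div_cancel' (Nat.minFac_dvd n)
  have h6 : D * D ^ 2 ≤ n := by
    calc D * D ^ 2 ≤ n.minFac * (n / n.minFac) := Nat.mul_le_mul hDn h4
      _ = n := h5
  have h7 : D ^ 3 = D * D ^ 2 := by ring
  omega

open Classical in
/-- `2 T2(n) ≤ I3(n) + 1_{n square} + 2 · 1_{n < y}` -/
theorem two_T2_le {D x n : ℕ} (hD : x < D ^ 3) (hn0 : 0 < n) (hn : n ≤ x) :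
    2 * T2 D (yx x) n ≤ I3 D n + (if IsSquare n then 1 else 0) + (if n < yx x then 2 else 0) := by
  have hI : (0 : ℤ) ≤ I3 D n := by unfold I3; exact_mod_cast Nat.zero_le _
  have hS : (0 : ℤ) ≤ (if IsSquare n then 1 else 0) := by split_ifs <;> norm_num
  have hY : (0 : ℤ) ≤ (if n < yx x then 2 else 0) := by split_ifs <;> norm_num
  rw [T2_eq hn0]
  by_cases h : n ≠ 1 ∧ D ≤ n.minFac ∧ n.minFac < yx x
  · rw [if_pos h]
    obtain ⟨h1, h2, h3⟩ := h
    have hq := Nat.minFac_prime h1
    have h5 : n.minFac * (n / n.minFac) = n := Nat.mul_div_cancel' (Nat.minFac_dvd n)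
    rcases identity_cofactor hD hn0 hn h1 h2 with h4 | h4
    · rw [h4, mul_one] at h5
      rw [h5] at h3
      rw [if_pos h3]
      linarith
    · have h6 : n.minFac ≤ n / n.minFac :=
        Nat.minFac_le_of_dvd h4.two_le (Nat.div_dvd_of_dvd (Nat.minFac_dvd n))
      have hdd : n / (n / n.minFac) = n.minFac := Nat.div_div_self (Nat.minFac_dvd n) hn0.ne'
      have hsub : ({n.minFac, n / n.minFac} : Finset ℕ) ⊆
          n.divisors.filter (fun d => d.Prime ∧ (n / d).Prime ∧ D ≤ d ∧ D ≤ n / d) := by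
        intro d hd
        rw [Finset.mem_insert, Finset.mem_singleton] at hd
        rw [Finset.mem_filter, Nat.mem_divisors]
        rcases hd with rfl | rfl
        · exact ⟨⟨Nat.minFac_dvd n, hn0.ne'⟩, hq, h4, h2, h2.trans h6⟩
        · rw [hdd]
          exact ⟨⟨Nat.div_dvd_of_dvd (Nat.minFac_dvd n), hn0.ne'⟩, h4, hq, h2.trans h6, h2⟩
      by_cases h7 : n.minFac = n / n.minFac
      · have h8 : IsSquare n := ⟨n.minFac, by
          conv_lhs => rw [← h5, ← h7]⟩
        rw [if_pos h8]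
        have h9 : (1 : ℤ) ≤ I3 D n := by
          unfold I3
          have : 0 < (n.divisors.filter (fun d => d.Prime ∧ (n / d).Prime ∧ D ≤ d ∧
              D ≤ n / d)).card :=
            Finset.card_pos.2 ⟨n.minFac, hsub (Finset.mem_insert_self _ _)⟩
          exact_mod_cast this
        linarith
      · have h9 : (2 : ℤ) ≤ I3 D n := by
          unfold I3
          have h10 := Finset.card_le_card hsub
          rw [Finset.card_pair h7] at h10
          exact_mod_cast h10
        linarith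
  · rw [if_neg h]
    linarith

theorem I3_le {D x n : ℕ} (hn0 : 0 < n) (hn : n ≤ x) : I3 D n ≤ 2 * T2 D (yx x) n := by
  classical
  rw [T2_eq hn0]
  by_cases he : (n.divisors.filter (fun d => d.Prime ∧ (n / d).Prime ∧ D ≤ d ∧ D ≤ n / d)) = ∅
  · unfold I3
    rw [he, Finset.card_empty]
    split_ifs <;> norm_num
  · obtain ⟨d, hd⟩ := Finset.nonempty_iff_ne_empty.2 he
    rw [Finset.mem_filter, Nat.mem_divisors] at hd
    obtain ⟨⟨hdn, -⟩, hd1, hd2, hd3, hd4⟩ := hd
    have hn1 : n ≠ 1 := by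
      rintro rfl
      exact hd1.one_lt.ne' (Nat.dvd_one.1 hdn)
    have hq := Nat.minFac_prime hn1
    have hdd : d * (n / d) = n := Nat.mul_div_cancel' hdn
    -- the divisors in the filter
    have hdiv : ∀ p : ℕ, p.Prime → p ∣ n → p = d ∨ p = n / d := by
      intro p hp hpn
      rw [← hdd] at hpn
      rcases hp.dvd_mul.1 hpn with h | h
      · exact Or.inl ((Nat.prime_dvd_prime_iff_eq hp hd1).1 h)
      · exact Or.inr ((Nat.prime_dvd_prime_iff_eq hp hd2).1 h)
    have hcard : (n.divisors.filter (fun d => d.Prime ∧ (n / d).Prime ∧ D ≤ d ∧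
        D ≤ n / d)).card ≤ 2 := by
      refine (Finset.card_le_card (t := {d, n / d}) ?_).trans Finset.card_le_two
      intro p hp
      rw [Finset.mem_filter, Nat.mem_divisors] at hp
      rw [Finset.mem_insert, Finset.mem_singleton]
      exact hdiv p hp.2.1 hp.1.1
    have hDm : D ≤ n.minFac := by
      rcases hdiv _ hq (Nat.minFac_dvd n) with h | h <;> rw [h]
      · exact hd3
      · exact hd4
    have hlt : n.minFac < yx x := by
      by_contra hcon
      push Not at hcon
      have h1 := Nat.minFac_le_of_dvd hd1.two_le hdn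
      have h2 := Nat.minFac_le_of_dvd hd2.two_le (Nat.div_dvd_of_dvd hdn)
      have h3 := Nat.mul_le_mul (hcon.trans h1) (hcon.trans h2)
      rw [hdd] at h3
      have := identity_yx hn
      omega
    rw [if_pos ⟨hn1, hDm, hlt⟩]
    unfold I3
    exact_mod_cast hcard

theorem identity_yx_two {x : ℕ} (hx : 1 ≤ x) : 2 ≤ yx x := by
  unfold yx
  have : 0 < Nat.sqrt x := Nat.sqrt_pos.2 hx
  omega

/-- pointwise lower bound used for `n ≡ 1` mod `m` -/
theorem pointwise_prime : ∃ x₀ : ℕ, ∀ x ≥ x₀, ∀ n : ℕ, yx x ≤ n → n ≤ x →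
    2 * I1 (zx x) (Dx x) n + 2 * I2 (zx x) (Dx x) n - I3 (Dx x) n +
      2 * T4 (fun p q => Dx x ≤ p * q ∧ p * q * Dx x ≤ x) (zx x) (Dx x) n ≤
    (if n.Prime then 2 else 0) + (if IsSquare n then 1 else 0) := by
  classical
  obtain ⟨x₀, h₀⟩ := a_supports
  refine ⟨max x₀ 1, fun x hx n hyn hnx => ?_⟩
  obtain ⟨-, -, -, -, hz, hzD, hDy, hD3, -⟩ := h₀ x ((le_max_left _ _).trans hx)
  have hx1 : 1 ≤ x := (le_max_right _ _).trans hx
  have hy2 := identity_yx_two hx1
  have hn0 : 0 < n := by omega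
  have h1 := identity hz hzD hDy hn0
  rw [T4_split (fun p q => Dx x ≤ p * q ∧ p * q * Dx x ≤ x)] at h1
  have h2 := two_T2_le hD3 hn0 hnx
  rw [if_neg (not_lt.2 hyn)] at h2
  have h3 := T4_nonneg (fun p q => ¬ (Dx x ≤ p * q ∧ p * q * Dx x ≤ x)) (zx x) (Dx x) n
  have h4 : 2 * (if rough (yx x) n then 1 else 0 : ℤ) ≤ (if n.Prime then 2 else 0) := by
    by_cases h : rough (yx x) n
    · rw [if_pos h, if_pos (prime_of_rough (by omega) hnx h)]
      norm_num
    · rw [if_neg h]
      split_ifs <;> norm_num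
  have h5 : (if IsSquare n then 1 else 0 : ℤ) = @ite ℤ (IsSquare n) (Classical.propDecidable _) 1 0 := by
    congr
  rw [h5]
  linarith

/-- pointwise lower bound used for the main term -/
theorem pointwise_main : ∃ x₀ : ℕ, ∀ x ≥ x₀, ∀ n : ℕ, yx x ≤ n → n ≤ x →
    (if n.Prime then 2 else 0) - 2 * T4 (fun p q => ¬ (Dx x ≤ p * q ∧ p * q * Dx x ≤ x)) (zx x) (Dx x) n ≤
    2 * I1 (zx x) (Dx x) n + 2 * I2 (zx x) (Dx x) n - I3 (Dx x) n +
      2 * T4 (fun p q => Dx x ≤ p * q ∧ p * q * Dx x ≤ x) (zx x) (Dx x) n := by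
  classical
  obtain ⟨x₀, h₀⟩ := a_supports
  refine ⟨max x₀ 1, fun x hx n hyn hnx => ?_⟩
  obtain ⟨-, -, -, -, hz, hzD, hDy, hD3, -⟩ := h₀ x ((le_max_left _ _).trans hx)
  have hx1 : 1 ≤ x := (le_max_right _ _).trans hx
  have hy2 := identity_yx_two hx1
  have hn0 : 0 < n := by omega
  have h1 := identity hz hzD hDy hn0
  rw [T4_split (fun p q => Dx x ≤ p * q ∧ p * q * Dx x ≤ x)] at h1
  have h2 := I3_le (D := Dx x) hn0 hnx
  have h4 : (if n.Prime then 2 else 0 : ℤ) ≤ 2 * (if rough (yx x) n then 1 else 0 : ℤ) := by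
    by_cases h : n.Prime
    · have h5 : rough (yx x) n := by
        intro p hp hpn
        rw [(Nat.prime_dvd_prime_iff_eq hp h).1 hpn]
        exact hyn
      rw [if_pos h, if_pos h5]
      norm_num
    · rw [if_neg h]
      split_ifs <;> norm_num
  linarith

end Pool.Agent.ZH
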