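import Pool.Agent.Work.ZH.Defs
import Pool.Agent.Work.MP_713a1e_co.E.SieveOne
import Pool.Agent.Work.MP_92f640_nt.HS.VLow
import Pool.Agent.Work.Shared.PNT.Tauber

/-!
# Cell ZH, module N: the numerical part (prime number theorem, Mertens, Selberg's sieve)
-/

namespace Pool.Agent.ZH

open Finset Filter Topology

/-! ## Prime number theorem -/

theorem numeric_pix_eq (n : ℕ) : pix n = Nat.primeCounting n := by
  unfold pix
  rw [Nat.primeCounting, Nat.primeCounting', Nat.count_eq_card_filter_range]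
  congr 1
  ext p
  simp only [mem_filter, mem_Icc, mem_range]
  constructor
  · rintro ⟨⟨h1, h2⟩, h3⟩
    exact ⟨by omega, h3⟩
  · rintro ⟨h1, h3⟩
    exact ⟨⟨h3.one_lt.le, by omega⟩, h3⟩

theorem numeric_pnt :
    Tendsto (fun x : ℝ => (Nat.primeCounting ⌊x⌋₊ : ℝ) * Real.log x / x) atTop (𝓝 1) := by
  obtain ⟨C, hC, h1⟩ := Pool.Agent.Work.Shared.PNT.theta_sub_self_le 1
  obtain ⟨c, h2⟩ := Chebyshev.primeCounting_sub_theta_div_log_isBigO.bound
  rw [tendsto_iff_norm_sub_tendsto_zero]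
  have hlim : Tendsto (fun x : ℝ => (c + C) * (Real.log x)⁻¹) atTop (𝓝 0) := by
    simpa using (tendsto_inv_atTop_zero.comp Real.tendsto_log_atTop).const_mul (c + C)
  refine squeeze_zero' (Eventually.of_forall fun x => norm_nonneg _) ?_ hlim
  filter_upwards [h2, eventually_ge_atTop 2] with x hx hx2
  have hx0 : 0 < x := by linarith
  have hl : 0 < Real.log x := Real.log_pos (by linarith)
  have h3 := h1 x hx2
  rw [Real.rpow_one] at h3
  rw [Real.norm_eq_abs, Real.norm_eq_abs, abs_of_nonneg (show 0 ≤ x / Real.log x ^ 2 by positivity)] at hx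
  rw [Real.norm_eq_abs]
  have e : (Nat.primeCounting ⌊x⌋₊ : ℝ) * Real.log x / x - 1 =
      ((Nat.primeCounting ⌊x⌋₊ : ℝ) - Chebyshev.theta x / Real.log x) * (Real.log x / x) +
        (Chebyshev.theta x - x) / x := by
    field_simp
    ring
  rw [e]
  refine (abs_add_le _ _).trans ?_
  rw [abs_mul, abs_of_pos (show 0 < Real.log x / x by positivity), abs_div, abs_of_pos hx0]
  have h4 : |(Nat.primeCounting ⌊x⌋₊ : ℝ) - Chebyshev.theta x / Real.log x| * (Real.log x / x) ≤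
      c * (x / Real.log x ^ 2) * (Real.log x / x) :=
    mul_le_mul_of_nonneg_right hx (by positivity)
  have h5 : |Chebyshev.theta x - x| / x ≤ C * x / Real.log x / x :=
    div_le_div_of_nonneg_right h3 hx0.le
  have e4 : c * (x / Real.log x ^ 2) * (Real.log x / x) = c * (Real.log x)⁻¹ := by
    field_simp
  have e5 : C * x / Real.log x / x = C * (Real.log x)⁻¹ := by
    field_simp
  rw [e4] at h4
  rw [e5] at h5
  linarith

theorem numeric_pnt_kappa (κ : ℝ) (hκ : 0 ≤ κ) :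
    Tendsto (fun x : ℝ => (Nat.primeCounting ⌊κ * x⌋₊ : ℝ) * Real.log x / x) atTop (𝓝 κ) := by
  rcases hκ.eq_or_lt with h0 | h0
  · rw [← h0]
    simp
  · have hm : Tendsto (fun x : ℝ => κ * x) atTop atTop := tendsto_id.const_mul_atTop h0
    have h1 := numeric_pnt.comp hm
    have h2 : Tendsto (fun x : ℝ => (1 + Real.log κ * (Real.log x)⁻¹)⁻¹) atTop (𝓝 1) := by
      have h3 : Tendsto (fun x : ℝ => 1 + Real.log κ * (Real.log x)⁻¹) atTop (𝓝 1) := by
        simpa using ((tendsto_inv_atTop_zero.comp Real.tendsto_log_atTop).const_mul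
          (Real.log κ)).const_add 1
      simpa using h3.inv₀ one_ne_zero
    have h4 := (h1.mul h2).mul_const κ
    simp only [one_mul] at h4
    refine h4.congr' ?_
    filter_upwards [eventually_gt_atTop 1, hm.eventually (eventually_gt_atTop 1)] with x hx hx1
    have hx0 : 0 < x := by linarith
    have hl : 0 < Real.log x := Real.log_pos hx
    have hl1 : 0 < Real.log (κ * x) := Real.log_pos hx1
    have e : Real.log (κ * x) = Real.log κ + Real.log x := Real.log_mul h0.ne' hx0.ne'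
    simp only [Function.comp]
    have e2 : (1 + Real.log κ * (Real.log x)⁻¹)⁻¹ = Real.log x / Real.log (κ * x) := by
      rw [e] at hl1 ⊢
      have : 1 + Real.log κ * (Real.log x)⁻¹ = (Real.log κ + Real.log x) / Real.log x := by
        field_simp
        ring
      rw [this, inv_div]
    rw [e2]
    field_simp

/-- prime number theorem in the form needed -/
theorem pix_bounds (ε κ : ℝ) (hε : 0 < ε) (hκ : 0 ≤ κ) (hκ1 : κ < 1) : ∃ x₀ : ℝ, ∀ x : ℝ, x₀ ≤ x →
    (1 - ε) * (1 - κ) * x / Real.log x ≤ (pix ⌊x⌋₊ : ℝ) - pix ⌊κ * x⌋₊ ∧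
    (pix ⌊x⌋₊ : ℝ) - pix ⌊κ * x⌋₊ ≤ (1 + ε) * (1 - κ) * x / Real.log x := by
  have h1 := numeric_pnt.sub (numeric_pnt_kappa κ hκ)
  have hpos : 0 < ε * (1 - κ) := mul_pos hε (by linarith)
  have h2 := (Metric.tendsto_nhds.1 h1) _ hpos
  obtain ⟨x₀, hx₀⟩ := eventually_atTop.1 (h2.and (eventually_gt_atTop 1))
  refine ⟨x₀, fun x hx => ?_⟩
  obtain ⟨h3, h4⟩ := hx₀ x hx
  have hx0 : 0 < x := by linarith
  have hl : 0 < Real.log x := Real.log_pos h4
  rw [numeric_pix_eq, numeric_pix_eq]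
  rw [Real.dist_eq, abs_lt] at h3
  set A := (Nat.primeCounting ⌊x⌋₊ : ℝ)
  set B := (Nat.primeCounting ⌊κ * x⌋₊ : ℝ)
  have e : A * Real.log x / x - B * Real.log x / x = (A - B) * Real.log x / x := by ring
  rw [e] at h3
  have h5 : (1 - ε) * (1 - κ) ≤ (A - B) * Real.log x / x := by linarith [h3.1]
  have h6 : (A - B) * Real.log x / x ≤ (1 + ε) * (1 - κ) := by linarith [h3.2]
  rw [le_div_iff₀ hx0] at h5
  rw [div_le_iff₀ hx0] at h6
  rw [div_le_iff₀ hl, le_div_iff₀ hl]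
  exact ⟨h5, h6⟩

/-! ## Selberg's sieve for rough numbers -/

section Sieve

open Pool.Agent.Work.MP_92f640_nt Pool.Agent.Work.MP_713a1e_co.E

open Classical in
theorem numeric_rough {R X Y q : ℕ} (hR : 1 ≤ R) (hq : R < q) :
    (((Ioc X (X + Y)).filter (fun n => rough q n)).card : ℝ) ≤
      (Y : ℝ) / Real.log (R + 1) + (R : ℝ) ^ 2 := by
  have hG := Gsum_pos (D := 1) hR
  have h1 : (((Ioc X (X + Y)).filter (fun n => rough q n)).card : ℝ)
      ≤ ∑ n ∈ (Ioc X (X + Y)).filter (fun n => n ≡ 0 [MOD 1]),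
        (∑ d ∈ sqf 1 R, if d ∣ n then lam 1 R d else 0) ^ 2 := by
    have h2 : (((Ioc X (X + Y)).filter (fun n => rough q n)).card : ℝ)
        = ∑ n ∈ (Ioc X (X + Y)).filter (fun n => rough q n),
        (∑ d ∈ sqf 1 R, if d ∣ n then lam 1 R d else 0) ^ 2 := by
      rw [Finset.card_eq_sum_ones]
      push_cast
      apply Finset.sum_congr rfl
      intro n hn
      rw [Finset.mem_filter, Finset.mem_Ioc] at hn
      obtain ⟨⟨hp1, hp2⟩, hp3⟩ := hn
      have : ∑ d ∈ sqf 1 R, (if d ∣ n then lam 1 R d else 0) = 1 := by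
        rw [Finset.sum_eq_single 1]
        · simp [lam_one hR]
        · intro d hd hd1
          rw [if_neg]
          intro hdp
          have hd2 := (mem_sqf.1 hd).1
          have h5 := hp3 d.minFac (Nat.minFac_prime hd1) ((Nat.minFac_dvd d).trans hdp)
          have h6 := Nat.minFac_le (n := d) (by omega)
          omega
        · intro h
          exact absurd (one_mem_sqf hR) h
      rw [this]; norm_num
    rw [h2]
    apply Finset.sum_le_sum_of_subset_of_nonneg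
    · intro p hp
      rw [Finset.mem_filter] at hp ⊢
      exact ⟨hp.1, Nat.modEq_one⟩
    · intro i _ _; positivity
  refine h1.trans ?_
  have h3 : ∑ n ∈ (Ioc X (X + Y)).filter (fun n => n ≡ 0 [MOD 1]),
        (∑ d ∈ sqf 1 R, if d ∣ n then lam 1 R d else 0) ^ 2
      = ∑ d ∈ sqf 1 R, ∑ e ∈ sqf 1 R, lam 1 R d * lam 1 R e *
        (((Ioc X (X + Y)).filter (fun n => n ≡ 0 [MOD 1] ∧ Nat.lcm d e ∣ n)).card : ℝ) := by
    have h4 : ∀ n, (∑ d ∈ sqf 1 R, if d ∣ n then lam 1 R d else 0) ^ 2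
        = ∑ d ∈ sqf 1 R, ∑ e ∈ sqf 1 R,
          (if Nat.lcm d e ∣ n then lam 1 R d * lam 1 R e else 0) := by
      intro n
      rw [sq, Finset.sum_mul_sum]
      apply Finset.sum_congr rfl; intro d _
      apply Finset.sum_congr rfl; intro e _
      by_cases h5 : d ∣ n <;> by_cases h6 : e ∣ n <;> simp [h5, h6, Nat.lcm_dvd_iff]
    simp_rw [h4]
    rw [Finset.sum_comm]
    apply Finset.sum_congr rfl; intro d _
    rw [Finset.sum_comm]
    apply Finset.sum_congr rfl; intro e _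
    rw [← Finset.sum_filter, Finset.filter_filter, Finset.sum_const, nsmul_eq_mul]
    ring
  rw [h3]
  have h5 : ∀ d ∈ sqf 1 R, ∀ e ∈ sqf 1 R, lam 1 R d * lam 1 R e *
        (((Ioc X (X + Y)).filter (fun n => n ≡ 0 [MOD 1] ∧ Nat.lcm d e ∣ n)).card : ℝ)
      ≤ (Y : ℝ) * (lam 1 R d * lam 1 R e / (Nat.lcm d e : ℝ)) + |lam 1 R d| * |lam 1 R e| := by
    intro d hd e he
    have hl0 : 0 < Nat.lcm d e := Nat.lcm_pos (mem_sqf.1 hd).1.1 (mem_sqf.1 he).1.1
    have h6 := abs_card_modEq_dvd_sub' X Y 1 (Nat.lcm d e) 0 one_pos hl0 (Nat.coprime_one_left _)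
    set c : ℝ := (((Ioc X (X + Y)).filter (fun n => n ≡ 0 [MOD 1] ∧
      Nat.lcm d e ∣ n)).card : ℝ)
    rw [Nat.cast_one, one_mul] at h6
    have h7 : lam 1 R d * lam 1 R e * c
        = (Y : ℝ) * (lam 1 R d * lam 1 R e / (Nat.lcm d e : ℝ))
          + lam 1 R d * lam 1 R e * (c - (Y : ℝ) / (Nat.lcm d e : ℝ)) := by
      have : (Nat.lcm d e : ℝ) ≠ 0 := by positivity
      field_simp
      ring
    rw [h7]
    have h8 : lam 1 R d * lam 1 R e * (c - (Y : ℝ) / (Nat.lcm d e : ℝ))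
        ≤ |lam 1 R d| * |lam 1 R e| := by
      calc lam 1 R d * lam 1 R e * (c - (Y : ℝ) / (Nat.lcm d e : ℝ))
          ≤ |lam 1 R d * lam 1 R e * (c - (Y : ℝ) / (Nat.lcm d e : ℝ))| := le_abs_self _
        _ = |lam 1 R d| * |lam 1 R e| * |c - (Y : ℝ) / (Nat.lcm d e : ℝ)| := by
            rw [abs_mul, abs_mul]
        _ ≤ |lam 1 R d| * |lam 1 R e| * 1 := by gcongr
        _ = |lam 1 R d| * |lam 1 R e| := by ring
    linarith
  have h9 : ∑ d ∈ sqf 1 R, ∑ e ∈ sqf 1 R, lam 1 R d * lam 1 R e *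
        (((Ioc X (X + Y)).filter (fun n => n ≡ 0 [MOD 1] ∧ Nat.lcm d e ∣ n)).card : ℝ)
      ≤ (Y : ℝ) * (Gsum 1 R)⁻¹ + (R : ℝ) ^ 2 := by
    calc _ ≤ ∑ d ∈ sqf 1 R, ∑ e ∈ sqf 1 R,
          ((Y : ℝ) * (lam 1 R d * lam 1 R e / (Nat.lcm d e : ℝ)) + |lam 1 R d| * |lam 1 R e|) :=
          Finset.sum_le_sum (fun d hd => Finset.sum_le_sum (fun e he => h5 d hd e he))
      _ = (Y : ℝ) * (∑ d ∈ sqf 1 R, ∑ e ∈ sqf 1 R, lam 1 R d * lam 1 R e / (Nat.lcm d e : ℝ))
          + (∑ d ∈ sqf 1 R, |lam 1 R d|) * (∑ d ∈ sqf 1 R, |lam 1 R d|) := by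
          simp_rw [Finset.sum_add_distrib]
          rw [Finset.sum_mul_sum]
          simp_rw [Finset.mul_sum]
      _ ≤ (Y : ℝ) * (Gsum 1 R)⁻¹ + (R : ℝ) ^ 2 := by
          rw [main_sum hR]
          have h8 := sum_abs_lam_le' (D := 1) hR
          have h9 : 0 ≤ ∑ d ∈ sqf 1 R, |lam 1 R d| := Finset.sum_nonneg (fun _ _ => abs_nonneg _)
          have h10 : (∑ d ∈ sqf 1 R, |lam 1 R d|) * (∑ d ∈ sqf 1 R, |lam 1 R d|) ≤ (R : ℝ) ^ 2 := by
            calc _ ≤ (R : ℝ) * (R : ℝ) := by gcongr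
              _ = (R : ℝ) ^ 2 := by ring
          linarith
  refine h9.trans ?_
  have hR' : (1 : ℝ) ≤ R := by exact_mod_cast hR
  have hlog : 0 < Real.log (R + 1) := Real.log_pos (by linarith)
  have h10 := Gsum_ge (R := R) (D := 1) one_pos
  rw [Nat.totient_one, Nat.cast_one, div_one, one_mul] at h10
  have : (Y : ℝ) * (Gsum 1 R)⁻¹ ≤ (Y : ℝ) / Real.log (R + 1) := by
    rw [← div_eq_mul_inv]
    exact div_le_div_of_nonneg_left (by positivity) hlog h10
  linarith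

end Sieve

/-! ## The counts of one pair -/

open Classical in
/-- the number of `n ∈ (κ x, x]` divisible by `p q` with `q`-rough quotient -/
noncomputable def numeric_NN (κ : ℝ) (x p q : ℕ) : ℕ :=
  ((Ioc ⌊κ * x⌋₊ x).filter (fun n => p * q ∣ n ∧ rough q (n / (p * q)))).card

open Classical in
theorem numeric_NN_le (κ : ℝ) {x p q : ℕ} (hpq : 0 < p * q) : numeric_NN κ x p q ≤
    ((Ioc (⌊κ * x⌋₊ / (p * q)) (x / (p * q))).filter (fun m => rough q m)).card := by
  unfold numeric_NN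
  apply Finset.card_le_card_of_injOn (fun n => n / (p * q))
  · intro n hn
    simp only [coe_filter, Set.mem_ofPred_eq, mem_Ioc] at hn ⊢
    obtain ⟨⟨h1, h2⟩, h3, h4⟩ := hn
    refine ⟨⟨?_, Nat.div_le_div_right h2⟩, h4⟩
    rw [Nat.div_lt_iff_lt_mul hpq, Nat.div_mul_cancel h3]
    exact h1
  · intro a ha b hb hab
    simp only [coe_filter, Set.mem_ofPred_eq, mem_Ioc] at ha hb hab
    rw [← Nat.div_mul_cancel ha.2.1, ← Nat.div_mul_cancel hb.2.1, hab]

open Classical in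
theorem numeric_swap (κ : ℝ) (x z D : ℕ) (P : ℕ → ℕ → Prop) :
    ∑ n ∈ Ioc ⌊κ * x⌋₊ x, T4 P z D n ≤
      ((∑ p ∈ (Icc z D).filter (fun p => p.Prime ∧ p < D),
        ∑ q ∈ (Icc z D).filter (fun q => q.Prime ∧ q < p ∧ P p q), numeric_NN κ x p q : ℕ) : ℤ) := by
  have h1 : ∀ n ∈ Ioc ⌊κ * x⌋₊ x, T4 P z D n ≤
      ∑ p ∈ (Icc z D).filter (fun p => p.Prime ∧ p < D),
        ∑ q ∈ (Icc z D).filter (fun q => q.Prime ∧ q < p ∧ P p q),
          (if p * q ∣ n ∧ rough q (n / (p * q)) then 1 else 0 : ℤ) := by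
    intro n _
    unfold T4
    have hsub : n.primeFactors.filter (fun p => z ≤ p ∧ p < D) ⊆
        (Icc z D).filter (fun p => p.Prime ∧ p < D) := by
      intro p hp
      simp only [mem_filter, Nat.mem_primeFactors, mem_Icc] at hp ⊢
      exact ⟨⟨hp.2.1, hp.2.2.le⟩, hp.1.1, hp.2.2⟩
    refine le_trans (Finset.sum_le_sum ?_)
      (Finset.sum_le_sum_of_subset_of_nonneg hsub fun i _ _ =>
        Finset.sum_nonneg fun j _ => by split_ifs <;> simp)
    intro p hp
    simp only [mem_filter, Nat.mem_primeFactors] at hp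
    have hsub2 : (n / p).primeFactors.filter (fun q => z ≤ q ∧ q < p ∧ P p q) ⊆
        (Icc z D).filter (fun q => q.Prime ∧ q < p ∧ P p q) := by
      intro q hq
      simp only [mem_filter, Nat.mem_primeFactors, mem_Icc] at hq ⊢
      exact ⟨⟨hq.2.1, by omega⟩, hq.1.1, hq.2.2⟩
    refine le_trans (Finset.sum_le_sum ?_)
      (Finset.sum_le_sum_of_subset_of_nonneg hsub2 fun i _ _ => by split_ifs <;> simp)
    intro q hq
    simp only [mem_filter, Nat.mem_primeFactors] at hq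
    have hdvd : p * q ∣ n := by
      obtain ⟨m, hm⟩ := hp.1.2.1
      have : n / p = m := by rw [hm, Nat.mul_div_cancel_left _ hp.1.1.pos]
      rw [this] at hq
      rw [hm]
      exact Nat.mul_dvd_mul_left p hq.1.2.1
    by_cases hr : rough q (n / (p * q))
    · simp [hr, hdvd]
    · simp [hr]
  refine (Finset.sum_le_sum h1).trans (le_of_eq ?_)
  rw [Finset.sum_comm]
  push_cast
  apply Finset.sum_congr rfl
  intro p _
  rw [Finset.sum_comm]
  apply Finset.sum_congr rfl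
  intro q _
  rw [numeric_NN, ← Finset.sum_filter, Finset.sum_const, nsmul_eq_mul, mul_one]

/-- the set of the primes in `[x^a, x^b]` -/
noncomputable def numeric_PI (x : ℕ) (a b : ℝ) : Finset ℕ :=
  (Icc ⌈(x : ℝ) ^ a⌉₊ ⌊(x : ℝ) ^ b⌋₊).filter Nat.Prime

theorem numeric_mem_PI {x : ℕ} {a b : ℝ} {p : ℕ} :
    p ∈ numeric_PI x a b ↔ ((x : ℝ) ^ a ≤ p ∧ (p : ℝ) ≤ (x : ℝ) ^ b) ∧ p.Prime := by
  unfold numeric_PI
  rw [mem_filter, mem_Icc, Nat.ceil_le, Nat.le_floor_iff (by positivity)]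

theorem numeric_card_PI (x : ℕ) (a b : ℝ) : ((numeric_PI x a b).card : ℝ) ≤ (x : ℝ) ^ b := by
  have h1 : (numeric_PI x a b).card ≤ (Icc 1 ⌊(x : ℝ) ^ b⌋₊).card := by
    apply Finset.card_le_card
    intro p hp
    have h2 := numeric_mem_PI.1 hp
    rw [mem_Icc]
    exact ⟨h2.2.one_lt.le, Nat.le_floor h2.1.2⟩
  rw [Nat.card_Icc, Nat.add_sub_cancel] at h1
  calc ((numeric_PI x a b).card : ℝ) ≤ (⌊(x : ℝ) ^ b⌋₊ : ℝ) := by exact_mod_cast h1
    _ ≤ (x : ℝ) ^ b := Nat.floor_le (by positivity)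

open Classical in
/-- the bound for one pair in one region -/
noncomputable def numeric_bnd (x : ℕ) (a b a' b' c e : ℝ) (p q : ℕ) : ℝ :=
  if p ∈ numeric_PI x a b ∧ q ∈ numeric_PI x a' b' then c / (p * q) + e else 0

theorem numeric_bnd_nonneg {x : ℕ} {a b a' b' c e : ℝ} (hc : 0 ≤ c) (he : 0 ≤ e) (p q : ℕ) :
    0 ≤ numeric_bnd x a b a' b' c e p q := by
  unfold numeric_bnd
  split_ifs
  · positivity
  · exact le_rfl

theorem numeric_sum_bnd {x : ℕ} {a b a' b' c e : ℝ} (hc : 0 ≤ c) (he : 0 ≤ e) (U : Finset ℕ)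
    (V : ℕ → Finset ℕ) : ∑ p ∈ U, ∑ q ∈ V p, numeric_bnd x a b a' b' c e p q ≤
      c * ((∑ p ∈ numeric_PI x a b, (1 : ℝ) / p) * ∑ q ∈ numeric_PI x a' b', (1 : ℝ) / q) +
        e * ((x : ℝ) ^ b * (x : ℝ) ^ b') := by
  classical
  have h1 : ∀ p ∈ U, ∑ q ∈ V p, numeric_bnd x a b a' b' c e p q ≤
      if p ∈ numeric_PI x a b then ∑ q ∈ numeric_PI x a' b', (c / (p * q) + e) else 0 := by
    intro p _
    by_cases hp : p ∈ numeric_PI x a b
    · rw [if_pos hp]
      unfold numeric_bnd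
      simp only [hp, true_and]
      rw [← Finset.sum_filter]
      apply Finset.sum_le_sum_of_subset_of_nonneg
      · intro q hq
        exact (mem_filter.1 hq).2
      · intro q _ _
        positivity
    · rw [if_neg hp]
      unfold numeric_bnd
      simp [hp]
  refine (Finset.sum_le_sum h1).trans ?_
  rw [← Finset.sum_filter]
  have h2 : ∑ p ∈ U.filter (fun p => p ∈ numeric_PI x a b),
      ∑ q ∈ numeric_PI x a' b', (c / (p * q) + e) ≤
      ∑ p ∈ numeric_PI x a b, ∑ q ∈ numeric_PI x a' b', (c / (p * q) + e) := by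
    apply Finset.sum_le_sum_of_subset_of_nonneg
    · intro q hq
      exact (mem_filter.1 hq).2
    · intro p _ _
      exact Finset.sum_nonneg fun q _ => by positivity
  refine h2.trans ?_
  have h3 : ∑ p ∈ numeric_PI x a b, ∑ q ∈ numeric_PI x a' b', (c / (p * q) + e) =
      c * ((∑ p ∈ numeric_PI x a b, (1 : ℝ) / p) * ∑ q ∈ numeric_PI x a' b', (1 : ℝ) / q) +
        e * ((numeric_PI x a b).card * (numeric_PI x a' b').card) := by
    simp_rw [Finset.sum_add_distrib]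
    rw [Finset.sum_mul_sum, Finset.mul_sum]
    congr 1
    · apply Finset.sum_congr rfl
      intro p _
      rw [Finset.mul_sum]
      apply Finset.sum_congr rfl
      intro q _
      rw [one_div, one_div, div_eq_mul_inv, mul_inv]
    · simp only [Finset.sum_const, nsmul_eq_mul]
      ring
  rw [h3]
  have h4 := numeric_card_PI x a b
  have h5 := numeric_card_PI x a' b'
  gcongr

theorem numeric_pix_Ioc {a b : ℕ} (hab : a ≤ b) :
    (((Ioc a b).filter Nat.Prime).card : ℝ) = (pix b : ℝ) - pix a := by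
  have h : pix b = pix a + ((Ioc a b).filter Nat.Prime).card := by
    unfold pix
    rw [← Finset.card_union_of_disjoint]
    · congr 1
      ext p
      simp only [mem_union, mem_filter, mem_Icc, mem_Ioc]
      constructor
      · rintro ⟨h1, h2⟩
        by_cases h3 : p ≤ a
        · exact Or.inl ⟨⟨h1.1, h3⟩, h2⟩
        · exact Or.inr ⟨⟨by omega, h1.2⟩, h2⟩
      · rintro (⟨h1, h2⟩ | ⟨h1, h2⟩)
        · exact ⟨⟨h1.1, by omega⟩, h2⟩
        · exact ⟨⟨h2.one_lt.le, h1.2⟩, h2⟩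
    · rw [Finset.disjoint_left]
      intro p hp hp'
      simp only [mem_filter, mem_Icc, mem_Ioc] at hp hp'
      omega
  rw [h]
  push_cast
  ring

theorem numeric_sieve {κ : ℝ} (hκ : 0 < κ) (hκ1 : κ < 1) {x p q R : ℕ} (hR : 1 ≤ R) (hq : R < q)
    (hp : 0 < p) : (numeric_NN κ x p q : ℝ) ≤
      ((1 - κ) * x / (p * q) + 1) / Real.log (R + 1) + (R : ℝ) ^ 2 := by
  classical
  have hw : 0 < p * q := Nat.mul_pos hp (by omega)
  have h1 := numeric_NN_le κ (x := x) hw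
  have hle : ⌊κ * x⌋₊ ≤ x := by
    have : κ * x ≤ x := by nlinarith [(Nat.cast_nonneg x : (0 : ℝ) ≤ x)]
    exact_mod_cast (Nat.floor_le (by positivity)).trans this
  have hle2 : ⌊κ * x⌋₊ / (p * q) ≤ x / (p * q) := Nat.div_le_div_right hle
  obtain ⟨Y, hY⟩ := Nat.exists_eq_add_of_le hle2
  rw [hY] at h1
  have h2 := numeric_rough (X := ⌊κ * x⌋₊ / (p * q)) (Y := Y) hR hq
  have h3 : (numeric_NN κ x p q : ℝ) ≤ (((Ioc (⌊κ * x⌋₊ / (p * q)) (⌊κ * x⌋₊ / (p * q) + Y)).filter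
      (fun n => rough q n)).card : ℝ) := by exact_mod_cast h1
  refine (h3.trans h2).trans ?_
  have hR' : (1 : ℝ) ≤ R := by exact_mod_cast hR
  have hlog : 0 < Real.log (R + 1) := Real.log_pos (by linarith)
  have hY2 : (Y : ℝ) ≤ (1 - κ) * x / (p * q) + 1 := by
    have e1 : (⌊κ * x⌋₊ / (p * q) : ℕ) = ⌊κ * x / ((p * q : ℕ) : ℝ)⌋₊ := by
      rw [Nat.floor_div_natCast]
    have e2 : (x / (p * q) : ℕ) = ⌊(x : ℝ) / ((p * q : ℕ) : ℝ)⌋₊ := by
      rw [Nat.floor_div_eq_div]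
    have h4 : (Y : ℝ) = ((x / (p * q) : ℕ) : ℝ) - ((⌊κ * x⌋₊ / (p * q) : ℕ) : ℝ) := by
      rw [hY]
      push_cast
      ring
    rw [h4, e1, e2]
    have h5 := Nat.floor_le (show (0 : ℝ) ≤ (x : ℝ) / ((p * q : ℕ) : ℝ) by positivity)
    have h6 := Nat.lt_floor_add_one (κ * x / ((p * q : ℕ) : ℝ))
    have h7 : (1 - κ) * x / (p * q) = (x : ℝ) / ((p * q : ℕ) : ℝ) - κ * x / ((p * q : ℕ) : ℝ) := by
      push_cast
      ring
    rw [h7]
    linarith
  have := div_le_div_of_nonneg_right hY2 hlog.le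
  linarith

theorem numeric_primes {κ : ℝ} (hκ : 0 < κ) (hκ1 : κ < 1) {x p q : ℕ} (hp : 0 < p) (hq : 0 < q)
    (h1 : 1 ≤ κ * ((x : ℝ) / (p * q))) (h2 : x < p * q * (q * q)) :
    (numeric_NN κ x p q : ℝ) ≤
      (pix ⌊(x : ℝ) / (p * q)⌋₊ : ℝ) - pix ⌊κ * ((x : ℝ) / (p * q))⌋₊ ∧
    (numeric_NN κ x p q ≠ 0 → p * q * q ≤ x) := by
  classical
  have hw : 0 < p * q := Nat.mul_pos hp hq
  have h3 := numeric_NN_le κ (x := x) hw
  have e1 : (⌊κ * x⌋₊ / (p * q) : ℕ) = ⌊κ * ((x : ℝ) / (p * q))⌋₊ := by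
    rw [← Nat.floor_div_natCast]
    congr 1
    push_cast
    ring
  have e2 : (x / (p * q) : ℕ) = ⌊(x : ℝ) / (p * q)⌋₊ := by
    rw [← Nat.cast_mul, Nat.floor_div_eq_div]
  have hle : ⌊κ * x⌋₊ / (p * q) ≤ x / (p * q) := by
    apply Nat.div_le_div_right
    have : κ * x ≤ x := by nlinarith [(Nat.cast_nonneg x : (0 : ℝ) ≤ x)]
    exact_mod_cast (Nat.floor_le (by positivity)).trans this
  have hge : 1 ≤ ⌊κ * x⌋₊ / (p * q) := by
    rw [e1]
    exact Nat.le_floor (by exact_mod_cast h1)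
  have h4 : ∀ m ∈ (Ioc (⌊κ * x⌋₊ / (p * q)) (x / (p * q))).filter (fun m => rough q m),
      m.Prime ∧ q ≤ m ∧ m ≤ x / (p * q) := by
    intro m hm
    rw [mem_filter, mem_Ioc] at hm
    obtain ⟨⟨h5, h6⟩, h7⟩ := hm
    have h8 : m < q * q := by
      have : x / (p * q) < q * q := by
        rw [Nat.div_lt_iff_lt_mul hw]
        linarith [mul_comm (q * q) (p * q)]
      omega
    have hprime : m.Prime := by
      by_contra hcon
      have h9 := Nat.minFac_sq_le_self (n := m) (by omega) hcon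
      have h10 := h7 m.minFac (Nat.minFac_prime (by omega)) (Nat.minFac_dvd m)
      nlinarith
    exact ⟨hprime, h7 m hprime dvd_rfl, h6⟩
  constructor
  · rw [← e1, ← e2, ← numeric_pix_Ioc hle]
    have h5 : ((Ioc (⌊κ * x⌋₊ / (p * q)) (x / (p * q))).filter (fun m => rough q m)).card ≤
        ((Ioc (⌊κ * x⌋₊ / (p * q)) (x / (p * q))).filter Nat.Prime).card := by
      apply Finset.card_le_card
      intro m hm
      rw [mem_filter]
      exact ⟨(mem_filter.1 hm).1, (h4 m hm).1⟩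
    exact_mod_cast h3.trans h5
  · intro h5
    have h6 : 0 < ((Ioc (⌊κ * x⌋₊ / (p * q)) (x / (p * q))).filter (fun m => rough q m)).card := by
      omega
    obtain ⟨m, hm⟩ := Finset.card_pos.1 h6
    obtain ⟨h7, h8, h9⟩ := h4 m hm
    have h10 : q ≤ x / (p * q) := h8.trans h9
    rw [Nat.le_div_iff_mul_le hw] at h10
    linarith [mul_comm q (p * q)]

/-! ## Sizes -/

theorem numeric_evt_rpow (s C : ℝ) (hs : 0 < s) : ∀ᶠ x : ℕ in atTop, C ≤ (x : ℝ) ^ s :=
  ((tendsto_rpow_atTop hs).comp tendsto_natCast_atTop_atTop).eventually_ge_atTop C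

theorem numeric_evt_log (C : ℝ) : ∀ᶠ x : ℕ in atTop, C ≤ Real.log x :=
  (Real.tendsto_log_atTop.comp tendsto_natCast_atTop_atTop).eventually_ge_atTop C

theorem numeric_sizes : ∀ᶠ x : ℕ in atTop, (Dx x : ℝ) ≤ (x : ℝ) ^ (4011 / 10000 : ℝ) ∧
    (x : ℝ) ^ (197 / 1000 : ℝ) ≤ zx x := by
  filter_upwards [numeric_evt_rpow (1 / 10000) 2 (by norm_num), eventually_ge_atTop 1] with x h1 h2
  have hx1 : (1 : ℝ) ≤ x := by exact_mod_cast h2
  have hx0 : (0 : ℝ) < x := by linarith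
  have hD : (Dx x : ℝ) ≤ (x : ℝ) ^ (4011 / 10000 : ℝ) := by
    have h3 : (Dx x : ℝ) < (x : ℝ) ^ (401 / 1000 : ℝ) + 1 := Nat.ceil_lt_add_one (by positivity)
    have h4 : (1 : ℝ) ≤ (x : ℝ) ^ (401 / 1000 : ℝ) := Real.one_le_rpow hx1 (by norm_num)
    have h5 : (x : ℝ) ^ (4011 / 10000 : ℝ) =
        (x : ℝ) ^ (401 / 1000 : ℝ) * (x : ℝ) ^ (1 / 10000 : ℝ) := by
      rw [← Real.rpow_add hx0]
      norm_num
    rw [h5]
    nlinarith
  refine ⟨hD, ?_⟩
  have hDpos : 0 < Dx x := Nat.ceil_pos.2 (by positivity)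
  have h3 : x < (zx x + 1) * (Dx x ^ 2) := by
    unfold zx
    have := Nat.lt_div_mul_add (a := x) (b := Dx x ^ 2) (by positivity)
    nlinarith
  have h4 : (x : ℝ) < ((zx x : ℝ) + 1) * (Dx x : ℝ) ^ 2 := by exact_mod_cast h3
  have h5 : (Dx x : ℝ) ^ 2 ≤ (x : ℝ) ^ (8022 / 10000 : ℝ) := by
    have e : (x : ℝ) ^ (8022 / 10000 : ℝ) =
        (x : ℝ) ^ (4011 / 10000 : ℝ) * (x : ℝ) ^ (4011 / 10000 : ℝ) := by
      rw [← Real.rpow_add hx0]
      norm_num
    rw [e, ← sq]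
    gcongr
  have h6 : (x : ℝ) < ((zx x : ℝ) + 1) * (x : ℝ) ^ (8022 / 10000 : ℝ) :=
    h4.trans_le (mul_le_mul_of_nonneg_left h5 (by positivity))
  have e1 : (x : ℝ) = (x : ℝ) ^ (1978 / 10000 : ℝ) * (x : ℝ) ^ (8022 / 10000 : ℝ) := by
    rw [← Real.rpow_add hx0]
    norm_num
  have h7 : (x : ℝ) ^ (1978 / 10000 : ℝ) < (zx x : ℝ) + 1 := by
    have hpos : 0 < (x : ℝ) ^ (8022 / 10000 : ℝ) := by positivity
    by_contra hcon
    push Not at hcon
    have := mul_le_mul_of_nonneg_right hcon hpos.le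
    rw [← e1] at this
    linarith
  have h8 : (1 : ℝ) ≤ (x : ℝ) ^ (197 / 1000 : ℝ) := Real.one_le_rpow hx1 (by norm_num)
  have h9 : 2 * (x : ℝ) ^ (197 / 1000 : ℝ) ≤ (x : ℝ) ^ (1978 / 10000 : ℝ) := by
    have e2 : (x : ℝ) ^ (1978 / 10000 : ℝ) =
        (x : ℝ) ^ (197 / 1000 : ℝ) * (x : ℝ) ^ (8 / 10000 : ℝ) := by
      rw [← Real.rpow_add hx0]
      norm_num
    have h10 : (x : ℝ) ^ (1 / 10000 : ℝ) ≤ (x : ℝ) ^ (8 / 10000 : ℝ) :=
      Real.rpow_le_rpow_of_exponent_le hx1 (by norm_num)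
    rw [e2]
    nlinarith
  linarith

/-- the sieve bound for one pair -/
theorem numeric_sieve_x {κ : ℝ} (hκ : 0 < κ) (hκ1 : κ < 1) : ∀ᶠ x : ℕ in atTop, ∀ p q : ℕ,
    0 < p → (x : ℝ) ^ (197 / 1000 : ℝ) ≤ q → (numeric_NN κ x p q : ℝ) ≤
      (1 - κ) * x / (19 / 100 * Real.log x) / (p * q) + (x : ℝ) ^ (39 / 100 : ℝ) := by
  filter_upwards [numeric_evt_rpow (1 / 10000) 2 (by norm_num), eventually_ge_atTop 1,
    numeric_evt_log 6] with x h1 h2 h3 p q hp hq
  have hx1 : (1 : ℝ) ≤ x := by exact_mod_cast h2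
  have hx0 : (0 : ℝ) < x := by linarith
  have hl : 0 < Real.log x := by linarith
  have hq0 : (0 : ℝ) < q := lt_of_lt_of_le (by positivity) hq
  have hp0 : (0 : ℝ) < p := by exact_mod_cast hp
  have h4 : (1 : ℝ) ≤ (x : ℝ) ^ (19 / 100 : ℝ) := Real.one_le_rpow hx1 (by norm_num)
  have hR1 : 1 ≤ ⌊(x : ℝ) ^ (19 / 100 : ℝ)⌋₊ := Nat.le_floor (by exact_mod_cast h4)
  have hR2 : (⌊(x : ℝ) ^ (19 / 100 : ℝ)⌋₊ : ℝ) ≤ (x : ℝ) ^ (19 / 100 : ℝ) :=
    Nat.floor_le (by positivity)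
  have hR3 : (x : ℝ) ^ (19 / 100 : ℝ) < ⌊(x : ℝ) ^ (19 / 100 : ℝ)⌋₊ + 1 := Nat.lt_floor_add_one _
  have hRq : ⌊(x : ℝ) ^ (19 / 100 : ℝ)⌋₊ < q := by
    have h5 : (x : ℝ) ^ (19 / 100 : ℝ) < (x : ℝ) ^ (197 / 1000 : ℝ) := by
      have e : (x : ℝ) ^ (197 / 1000 : ℝ) =
          (x : ℝ) ^ (19 / 100 : ℝ) * (x : ℝ) ^ (7 / 1000 : ℝ) := by
        rw [← Real.rpow_add hx0]
        norm_num
      have h10 : (x : ℝ) ^ (1 / 10000 : ℝ) ≤ (x : ℝ) ^ (7 / 1000 : ℝ) :=
        Real.rpow_le_rpow_of_exponent_le hx1 (by norm_num)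
      rw [e]
      nlinarith
    exact_mod_cast (hR2.trans_lt h5).trans_le hq
  have h5 := numeric_sieve hκ hκ1 (x := x) hR1 hRq hp
  refine h5.trans ?_
  have hlogR : 19 / 100 * Real.log x ≤ Real.log (⌊(x : ℝ) ^ (19 / 100 : ℝ)⌋₊ + 1) := by
    rw [← Real.log_rpow hx0]
    exact Real.log_le_log (by positivity) hR3.le
  have h6 : ((1 - κ) * x / (p * q) + 1) / Real.log (⌊(x : ℝ) ^ (19 / 100 : ℝ)⌋₊ + 1) ≤
      ((1 - κ) * x / (p * q) + 1) / (19 / 100 * Real.log x) := by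
    apply div_le_div_of_nonneg_left _ (by positivity) hlogR
    have : 0 ≤ 1 - κ := by linarith
    positivity
  have h7 : (⌊(x : ℝ) ^ (19 / 100 : ℝ)⌋₊ : ℝ) ^ 2 ≤ (x : ℝ) ^ (38 / 100 : ℝ) := by
    have e : (x : ℝ) ^ (38 / 100 : ℝ) =
        (x : ℝ) ^ (19 / 100 : ℝ) * (x : ℝ) ^ (19 / 100 : ℝ) := by
      rw [← Real.rpow_add hx0]
      norm_num
    rw [e, ← sq]
    gcongr
  have h8 : 1 / (19 / 100 * Real.log x) ≤ (x : ℝ) ^ (38 / 100 : ℝ) := by
    have h9 : (1 : ℝ) ≤ (x : ℝ) ^ (38 / 100 : ℝ) := Real.one_le_rpow hx1 (by norm_num)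
    have h10 : 1 / (19 / 100 * Real.log x) ≤ 1 := by
      rw [div_le_one (by positivity)]
      linarith
    linarith
  have h9 : 2 * (x : ℝ) ^ (38 / 100 : ℝ) ≤ (x : ℝ) ^ (39 / 100 : ℝ) := by
    have e2 : (x : ℝ) ^ (39 / 100 : ℝ) =
        (x : ℝ) ^ (38 / 100 : ℝ) * (x : ℝ) ^ (1 / 100 : ℝ) := by
      rw [← Real.rpow_add hx0]
      norm_num
    have h10 : (x : ℝ) ^ (1 / 10000 : ℝ) ≤ (x : ℝ) ^ (1 / 100 : ℝ) :=
      Real.rpow_le_rpow_of_exponent_le hx1 (by norm_num)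
    have h11 : (0 : ℝ) < (x : ℝ) ^ (38 / 100 : ℝ) := by positivity
    rw [e2]
    nlinarith
  have e3 : ((1 - κ) * x / (p * q) + 1) / (19 / 100 * Real.log x) =
      (1 - κ) * x / (19 / 100 * Real.log x) / (p * q) + 1 / (19 / 100 * Real.log x) := by
    field_simp
  rw [e3] at h6
  linarith

/-- the bound for one pair -/
theorem numeric_point {κ : ℝ} (hκ : 0 < κ) (hκ1 : κ < 1) {ε : ℝ} (hε : 0 < ε) :
    ∀ᶠ x : ℕ in atTop, ∀ p q : ℕ, p.Prime → q.Prime → zx x ≤ q → q < p → p < Dx x →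
    ¬ (Dx x ≤ p * q ∧ p * q * Dx x ≤ x) → (numeric_NN κ x p q : ℝ) ≤
      numeric_bnd x (197 / 1000) (2041 / 10000) (197 / 1000) (2041 / 10000)
        ((1 - κ) * x / (19 / 100 * Real.log x)) ((x : ℝ) ^ (39 / 100 : ℝ)) p q +
      numeric_bnd x (3979 / 10000) (4011 / 10000) (197 / 1000) (201 / 1000)
        ((1 - κ) * x / (19 / 100 * Real.log x)) ((x : ℝ) ^ (39 / 100 : ℝ)) p q +
      numeric_bnd x (3322 / 10000) (4011 / 10000) (201 / 1000) (4 / 15)
        ((1 + ε) * (1 - κ) * x / (3322 / 10000 * Real.log x)) 0 p q +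
      numeric_bnd x (4 / 15) (4011 / 10000) (4 / 15) (1 / 3)
        ((1 + ε) * (1 - κ) * x / (4 / 15 * Real.log x)) 0 p q := by
  obtain ⟨X₀, hX₀⟩ := pix_bounds ε κ hε hκ.le hκ1
  filter_upwards [numeric_sizes, numeric_sieve_x hκ hκ1, eventually_ge_atTop 2,
    numeric_evt_rpow (1978 / 10000) (1 / κ) (by norm_num),
    numeric_evt_rpow (1978 / 10000) X₀ (by norm_num)]
    with x hsz hsv hx2 hev1 hev2 p q hp hq hzq hqp hpD hnot
  obtain ⟨hD, hz⟩ := hsz
  have hx1' : (1 : ℝ) < x := by exact_mod_cast hx2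
  have hx1 : (1 : ℝ) ≤ x := hx1'.le
  have hx0 : (0 : ℝ) < x := by linarith
  have hl : 0 < Real.log x := Real.log_pos hx1'
  have hp0 : (0 : ℝ) < p := by exact_mod_cast hp.pos
  have hq0 : (0 : ℝ) < q := by exact_mod_cast hq.pos
  have hqp' : (q : ℝ) < p := by exact_mod_cast hqp
  have hq1 : (x : ℝ) ^ (197 / 1000 : ℝ) ≤ q := hz.trans (by exact_mod_cast hzq)
  have hpD' : (p : ℝ) ≤ (x : ℝ) ^ (4011 / 10000 : ℝ) := by
    have : (p : ℝ) < Dx x := by exact_mod_cast hpD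
    linarith
  have hκ' : 0 < 1 - κ := by linarith
  have hadd : ∀ a b : ℝ, (x : ℝ) ^ a * (x : ℝ) ^ b = (x : ℝ) ^ (a + b) := fun a b =>
    (Real.rpow_add hx0 a b).symm
  have hmono : ∀ a b : ℝ, a ≤ b → (x : ℝ) ^ a ≤ (x : ℝ) ^ b := fun a b h =>
    Real.rpow_le_rpow_of_exponent_le hx1 h
  have hpow : ∀ a : ℝ, 0 < (x : ℝ) ^ a := fun a => Real.rpow_pos_of_pos hx0 a
  have n1 : 0 ≤ numeric_bnd x (197 / 1000) (2041 / 10000) (197 / 1000) (2041 / 10000)
        ((1 - κ) * x / (19 / 100 * Real.log x)) ((x : ℝ) ^ (39 / 100 : ℝ)) p q :=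
    numeric_bnd_nonneg (by positivity) (hpow _).le p q
  have n2 : 0 ≤ numeric_bnd x (3979 / 10000) (4011 / 10000) (197 / 1000) (201 / 1000)
        ((1 - κ) * x / (19 / 100 * Real.log x)) ((x : ℝ) ^ (39 / 100 : ℝ)) p q :=
    numeric_bnd_nonneg (by positivity) (hpow _).le p q
  have n3 : 0 ≤ numeric_bnd x (3322 / 10000) (4011 / 10000) (201 / 1000) (4 / 15)
        ((1 + ε) * (1 - κ) * x / (3322 / 10000 * Real.log x)) 0 p q :=
    numeric_bnd_nonneg (by positivity) le_rfl p q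
  have n4 : 0 ≤ numeric_bnd x (4 / 15) (4011 / 10000) (4 / 15) (1 / 3)
        ((1 + ε) * (1 - κ) * x / (4 / 15 * Real.log x)) 0 p q :=
    numeric_bnd_nonneg (by positivity) le_rfl p q
  by_cases hA : p * q < Dx x
  · -- region A
    have hpq : (p : ℝ) * q ≤ (x : ℝ) ^ (4011 / 10000 : ℝ) := by
      have : (p : ℝ) * q < Dx x := by exact_mod_cast hA
      linarith
    have hpb : (p : ℝ) ≤ (x : ℝ) ^ (2041 / 10000 : ℝ) := by
      by_contra hcon
      push Not at hcon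
      have h1 : (x : ℝ) ^ (2041 / 10000 : ℝ) * (x : ℝ) ^ (197 / 1000 : ℝ) < p * q :=
        mul_lt_mul hcon hq1 (hpow _) hp0.le
      rw [hadd] at h1
      norm_num at h1
      norm_num at hpq
      linarith
    have h1 := hsv p q hp.pos hq1
    have h2 : numeric_bnd x (197 / 1000) (2041 / 10000) (197 / 1000) (2041 / 10000)
        ((1 - κ) * x / (19 / 100 * Real.log x)) ((x : ℝ) ^ (39 / 100 : ℝ)) p q =
        (1 - κ) * x / (19 / 100 * Real.log x) / (p * q) + (x : ℝ) ^ (39 / 100 : ℝ) := by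
      unfold numeric_bnd
      rw [if_pos]
      rw [numeric_mem_PI, numeric_mem_PI]
      exact ⟨⟨⟨by linarith, hpb⟩, hp⟩, ⟨⟨hq1, by linarith⟩, hq⟩⟩
    linarith
  · have hB : x < p * q * Dx x := by
      by_contra hcon
      exact hnot ⟨by omega, by omega⟩
    have hB' : (x : ℝ) < p * q * (x : ℝ) ^ (4011 / 10000 : ℝ) := by
      have h1 : (x : ℝ) < p * q * Dx x := by exact_mod_cast hB
      exact h1.trans_le (mul_le_mul_of_nonneg_left hD (by positivity))
    have hx1e : (x : ℝ) = (x : ℝ) ^ (1 : ℝ) := (Real.rpow_one _).symm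
    by_cases hq2 : (q : ℝ) ≤ (x : ℝ) ^ (201 / 1000 : ℝ)
    · -- region B1
      have hpa : (x : ℝ) ^ (3979 / 10000 : ℝ) ≤ p := by
        by_contra hcon
        push Not at hcon
        have h1 : (p : ℝ) * q * (x : ℝ) ^ (4011 / 10000 : ℝ) ≤
            (x : ℝ) ^ (3979 / 10000 : ℝ) * (x : ℝ) ^ (201 / 1000 : ℝ) *
              (x : ℝ) ^ (4011 / 10000 : ℝ) := by
          gcongr
        rw [hadd, hadd] at h1
        norm_num at h1
        norm_num at hB'
        linarith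
      have h1 := hsv p q hp.pos hq1
      have h2 : numeric_bnd x (3979 / 10000) (4011 / 10000) (197 / 1000) (201 / 1000)
          ((1 - κ) * x / (19 / 100 * Real.log x)) ((x : ℝ) ^ (39 / 100 : ℝ)) p q =
          (1 - κ) * x / (19 / 100 * Real.log x) / (p * q) + (x : ℝ) ^ (39 / 100 : ℝ) := by
        unfold numeric_bnd
        rw [if_pos]
        rw [numeric_mem_PI, numeric_mem_PI]
        exact ⟨⟨⟨hpa, hpD'⟩, hp⟩, ⟨⟨hq1, hq2⟩, hq⟩⟩
      linarith
    · -- region B2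
      push Not at hq2
      have hpq2 : (p : ℝ) * q ≤ (x : ℝ) ^ (8022 / 10000 : ℝ) := by
        have h1 : (p : ℝ) * q ≤ (x : ℝ) ^ (4011 / 10000 : ℝ) * (x : ℝ) ^ (4011 / 10000 : ℝ) := by
          have : (q : ℝ) ≤ (x : ℝ) ^ (4011 / 10000 : ℝ) := by linarith
          gcongr
        rw [hadd] at h1
        norm_num at h1 ⊢
        exact h1
      have hw0 : (0 : ℝ) < (p : ℝ) * q := by positivity
      have hY : (x : ℝ) ^ (1978 / 10000 : ℝ) ≤ (x : ℝ) / (p * q) := by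
        rw [le_div_iff₀ hw0]
        calc (x : ℝ) ^ (1978 / 10000 : ℝ) * (p * q) ≤
            (x : ℝ) ^ (1978 / 10000 : ℝ) * (x : ℝ) ^ (8022 / 10000 : ℝ) := by gcongr
          _ = x := by
            rw [hadd]
            norm_num
      have h1 : 1 ≤ κ * ((x : ℝ) / (p * q)) := by
        have h2 : 1 / κ ≤ (x : ℝ) / (p * q) := hev1.trans hY
        rw [div_le_iff₀ hκ] at h2
        linarith
      have h2 : x < p * q * (q * q) := by
        have h3 : (x : ℝ) < p * q * (q * q) := by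
          have h4 : (x : ℝ) ^ (4011 / 10000 : ℝ) ≤ q * q := by
            calc (x : ℝ) ^ (4011 / 10000 : ℝ) ≤
                (x : ℝ) ^ (201 / 1000 + 201 / 1000 : ℝ) := hmono _ _ (by norm_num)
              _ = (x : ℝ) ^ (201 / 1000 : ℝ) * (x : ℝ) ^ (201 / 1000 : ℝ) := (hadd _ _).symm
              _ ≤ q * q := by gcongr
          exact hB'.trans_le (mul_le_mul_of_nonneg_left h4 hw0.le)
        exact_mod_cast h3
      obtain ⟨h3, h4⟩ := numeric_primes hκ hκ1 hp.pos hq.pos h1 h2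
      have h5 := (hX₀ ((x : ℝ) / (p * q)) (hev2.trans hY)).2
      have h6 : (numeric_NN κ x p q : ℝ) ≤
          (1 + ε) * (1 - κ) * ((x : ℝ) / (p * q)) / Real.log ((x : ℝ) / (p * q)) := h3.trans h5
      have hlogc : ∀ c : ℝ, 0 < c → (x : ℝ) ^ c ≤ (x : ℝ) / (p * q) →
          (numeric_NN κ x p q : ℝ) ≤ (1 + ε) * (1 - κ) * x / (c * Real.log x) / (p * q) + 0 := by
        intro c hc hcx
        have h7 : c * Real.log x ≤ Real.log ((x : ℝ) / (p * q)) := by
          rw [← Real.log_rpow hx0]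
          exact Real.log_le_log (hpow _) hcx
        have h8 : (1 + ε) * (1 - κ) * ((x : ℝ) / (p * q)) / Real.log ((x : ℝ) / (p * q)) ≤
            (1 + ε) * (1 - κ) * ((x : ℝ) / (p * q)) / (c * Real.log x) :=
          div_le_div_of_nonneg_left (by positivity) (by positivity) h7
        have e : (1 + ε) * (1 - κ) * ((x : ℝ) / (p * q)) / (c * Real.log x) =
            (1 + ε) * (1 - κ) * x / (c * Real.log x) / (p * q) := by
          field_simp
        rw [← e]
        linarith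
      by_cases hq3 : (q : ℝ) ≤ (x : ℝ) ^ (4 / 15 : ℝ)
      · -- region (i)
        have hpa : (x : ℝ) ^ (3322 / 10000 : ℝ) ≤ p := by
          by_contra hcon
          push Not at hcon
          have h1 : (p : ℝ) * q * (x : ℝ) ^ (4011 / 10000 : ℝ) ≤
              (x : ℝ) ^ (3322 / 10000 : ℝ) * (x : ℝ) ^ (4 / 15 : ℝ) *
                (x : ℝ) ^ (4011 / 10000 : ℝ) := by
            gcongr
          rw [hadd, hadd] at h1
          have h2 := hmono (3322 / 10000 + 4 / 15 + 4011 / 10000) 1 (by norm_num)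
          rw [← hx1e] at h2
          linarith
        have hc : (x : ℝ) ^ (3322 / 10000 : ℝ) ≤ (x : ℝ) / (p * q) := by
          rw [le_div_iff₀ hw0]
          calc (x : ℝ) ^ (3322 / 10000 : ℝ) * (p * q) ≤
              (x : ℝ) ^ (3322 / 10000 : ℝ) * ((x : ℝ) ^ (4011 / 10000 : ℝ) *
                (x : ℝ) ^ (4 / 15 : ℝ)) := by gcongr
            _ ≤ x := by
              rw [hadd, hadd]
              have h2 := hmono (3322 / 10000 + (4011 / 10000 + 4 / 15)) 1 (by norm_num)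
              rw [← hx1e] at h2
              exact h2
        have h7 := hlogc _ (by norm_num) hc
        have h8 : numeric_bnd x (3322 / 10000) (4011 / 10000) (201 / 1000) (4 / 15)
            ((1 + ε) * (1 - κ) * x / (3322 / 10000 * Real.log x)) 0 p q =
            (1 + ε) * (1 - κ) * x / (3322 / 10000 * Real.log x) / (p * q) + 0 := by
          unfold numeric_bnd
          rw [if_pos]
          rw [numeric_mem_PI, numeric_mem_PI]
          exact ⟨⟨⟨hpa, hpD'⟩, hp⟩, ⟨⟨hq2.le, hq3⟩, hq⟩⟩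
        linarith
      · -- region (ii)
        push Not at hq3
        by_cases hN : numeric_NN κ x p q = 0
        · rw [hN]
          push_cast
          linarith
        · have h7 := h4 hN
          have h7' : (p : ℝ) * q * q ≤ x := by exact_mod_cast h7
          have hc : (x : ℝ) ^ (4 / 15 : ℝ) ≤ (x : ℝ) / (p * q) := by
            rw [le_div_iff₀ hw0]
            nlinarith
          have hq4 : (q : ℝ) ≤ (x : ℝ) ^ (1 / 3 : ℝ) := by
            by_contra hcon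
            push Not at hcon
            have h8 : (x : ℝ) ^ (1 / 3 : ℝ) * (x : ℝ) ^ (1 / 3 : ℝ) * (x : ℝ) ^ (1 / 3 : ℝ) <
                p * q * q := by
              have : (x : ℝ) ^ (1 / 3 : ℝ) < p := by linarith
              have h0 := hpow (1 / 3)
              gcongr
            rw [hadd, hadd] at h8
            norm_num at h8
            linarith
          have h8 := hlogc _ (by norm_num) hc
          have h9 : numeric_bnd x (4 / 15) (4011 / 10000) (4 / 15) (1 / 3)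
              ((1 + ε) * (1 - κ) * x / (4 / 15 * Real.log x)) 0 p q =
              (1 + ε) * (1 - κ) * x / (4 / 15 * Real.log x) / (p * q) + 0 := by
            unfold numeric_bnd
            rw [if_pos]
            rw [numeric_mem_PI, numeric_mem_PI]
            exact ⟨⟨⟨by linarith, hpD'⟩, hp⟩, ⟨⟨hq3.le, hq4⟩, hq⟩⟩
          linarith

/-! ## The theorem -/

theorem numeric_log_le {t b : ℝ} (ht : 0 < t) (hb : 0 ≤ b)
    (h : t ≤ ∑ i ∈ range 7, b ^ i / (i.factorial : ℝ)) : Real.log t ≤ b := by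
  rw [Real.log_le_iff_le_exp ht]
  exact h.trans (Real.sum_le_exp_of_nonneg hb 7)

theorem numeric_S (a b s : ℝ) (ha : 0 < a) (hab : a ≤ b) (hb : b ≤ 1) (hs0 : 0 ≤ s)
    (h : b / a ≤ ∑ i ∈ range 7, s ^ i / (i.factorial : ℝ)) : ∀ᶠ x : ℕ in atTop,
    ∑ p ∈ numeric_PI x a b, (1 : ℝ) / p ≤ s + 1 / 10000 := by
  obtain ⟨x₁, hx₁⟩ := Pool.Agent.HS.mertens_int a b ha hab hb (1 / 10000) (by norm_num)
  filter_upwards [eventually_ge_atTop x₁] with x hx
  have h1 := hx₁ x hx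
  have h2 := numeric_log_le (div_pos (ha.trans_le hab) ha) hs0 h
  rw [abs_le] at h1
  unfold numeric_PI
  linarith [h1.2]

theorem numeric_err {κ : ℝ} (hκ1 : κ < 1) : ∀ᶠ x : ℕ in atTop,
    (x : ℝ) ^ (39 / 100 : ℝ) * ((x : ℝ) ^ (2041 / 10000 : ℝ) * (x : ℝ) ^ (2041 / 10000 : ℝ)) +
    (x : ℝ) ^ (39 / 100 : ℝ) * ((x : ℝ) ^ (4011 / 10000 : ℝ) * (x : ℝ) ^ (201 / 1000 : ℝ)) ≤
      1 / 100 * ((1 - κ) * x / Real.log x) := by
  have h0 : 0 < (1 - κ) / 200 := by linarith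
  have h1 := (isLittleO_log_rpow_atTop (show (0 : ℝ) < 7 / 1000 by norm_num)).bound h0
  have h2 := tendsto_natCast_atTop_atTop (R := ℝ) |>.eventually h1
  filter_upwards [h2, eventually_ge_atTop 2] with x h3 hx2
  have hx1' : (1 : ℝ) < x := by exact_mod_cast hx2
  have hx0 : (0 : ℝ) < x := by linarith
  have hl : 0 < Real.log x := Real.log_pos hx1'
  rw [Real.norm_eq_abs, Real.norm_eq_abs, abs_of_pos hl, abs_of_pos (by positivity)] at h3
  have hadd : ∀ a b : ℝ, (x : ℝ) ^ a * (x : ℝ) ^ b = (x : ℝ) ^ (a + b) := fun a b =>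
    (Real.rpow_add hx0 a b).symm
  have hmono : ∀ a b : ℝ, a ≤ b → (x : ℝ) ^ a ≤ (x : ℝ) ^ b := fun a b h =>
    Real.rpow_le_rpow_of_exponent_le hx1'.le h
  rw [hadd, hadd, hadd, hadd]
  have h4 := hmono (39 / 100 + (2041 / 10000 + 2041 / 10000)) (993 / 1000) (by norm_num)
  have h5 := hmono (39 / 100 + (4011 / 10000 + 201 / 1000)) (993 / 1000) (by norm_num)
  have h6 : 2 * (x : ℝ) ^ (993 / 1000 : ℝ) ≤ 1 / 100 * ((1 - κ) * x / Real.log x) := by
    rw [← mul_div_assoc, le_div_iff₀ hl]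
    have e : (x : ℝ) = (x : ℝ) ^ (993 / 1000 : ℝ) * (x : ℝ) ^ (7 / 1000 : ℝ) := by
      rw [hadd]
      norm_num
    have h7 : 0 < (x : ℝ) ^ (993 / 1000 : ℝ) := by positivity
    calc 2 * (x : ℝ) ^ (993 / 1000 : ℝ) * Real.log x ≤
        2 * (x : ℝ) ^ (993 / 1000 : ℝ) * ((1 - κ) / 200 * (x : ℝ) ^ (7 / 1000 : ℝ)) := by gcongr
      _ = 1 / 100 * ((1 - κ) * ((x : ℝ) ^ (993 / 1000 : ℝ) * (x : ℝ) ^ (7 / 1000 : ℝ))) := by ring
      _ = 1 / 100 * ((1 - κ) * x) := by rw [← e]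
  linarith

theorem thm_N (κ : ℝ) (hκ : 0 < κ) (hκ1 : κ < 1) : ∃ x₀ : ℕ, ∀ x ≥ x₀,
    ((∑ n ∈ Ioc ⌊κ * x⌋₊ x, T4 (fun p q => ¬ (Dx x ≤ p * q ∧ p * q * Dx x ≤ x)) (zx x) (Dx x) n : ℤ) : ℝ) ≤
      53 / 100 * (1 - κ) * x / Real.log x := by
  have sA := numeric_S (197 / 1000) (2041 / 10000) (361 / 10000) (by norm_num) (by norm_num)
    (by norm_num) (by norm_num) (by norm_num [Finset.sum_range_succ, Nat.factorial])
  have sB := numeric_S (3979 / 10000) (4011 / 10000) (81 / 10000) (by norm_num) (by norm_num)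
    (by norm_num) (by norm_num) (by norm_num [Finset.sum_range_succ, Nat.factorial])
  have sB' := numeric_S (197 / 1000) (201 / 1000) (202 / 10000) (by norm_num) (by norm_num)
    (by norm_num) (by norm_num) (by norm_num [Finset.sum_range_succ, Nat.factorial])
  have sC := numeric_S (3322 / 10000) (4011 / 10000) (1886 / 10000) (by norm_num) (by norm_num)
    (by norm_num) (by norm_num) (by norm_num [Finset.sum_range_succ, Nat.factorial])
  have sC' := numeric_S (201 / 1000) (4 / 15) (2828 / 10000) (by norm_num) (by norm_num)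
    (by norm_num) (by norm_num) (by norm_num [Finset.sum_range_succ, Nat.factorial])
  have sD := numeric_S (4 / 15) (4011 / 10000) (4083 / 10000) (by norm_num) (by norm_num)
    (by norm_num) (by norm_num) (by norm_num [Finset.sum_range_succ, Nat.factorial])
  have sD' := numeric_S (4 / 15) (1 / 3) (2232 / 10000) (by norm_num) (by norm_num)
    (by norm_num) (by norm_num) (by norm_num [Finset.sum_range_succ, Nat.factorial])
  have hall : ∀ᶠ x : ℕ in atTop,
      ((∑ n ∈ Ioc ⌊κ * x⌋₊ x, T4 (fun p q => ¬ (Dx x ≤ p * q ∧ p * q * Dx x ≤ x)) (zx x) (Dx x) n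
        : ℤ) : ℝ) ≤ 53 / 100 * (1 - κ) * x / Real.log x := by
    filter_upwards [sA, sB, sB', sC, sC', sD, sD', numeric_err hκ1,
      numeric_point hκ hκ1 (show (0 : ℝ) < 1 / 200 by norm_num), eventually_ge_atTop 2]
      with x a1 a2 a3 a4 a5 a6 a7 herr hpt hx2
    have hx1' : (1 : ℝ) < x := by exact_mod_cast hx2
    have hx0 : (0 : ℝ) < x := by linarith
    have hl : 0 < Real.log x := Real.log_pos hx1'
    have hκ' : 0 < 1 - κ := by linarith
    have h1 := numeric_swap κ x (zx x) (Dx x) (fun p q => ¬ (Dx x ≤ p * q ∧ p * q * Dx x ≤ x))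
    have h2 := (Int.cast_le (R := ℝ)).2 h1
    refine h2.trans ?_
    push_cast
    set U := (Icc (zx x) (Dx x)).filter (fun p => p.Prime ∧ p < Dx x)
    classical
    set V : ℕ → Finset ℕ := fun p => (Icc (zx x) (Dx x)).filter
      (fun q => q.Prime ∧ q < p ∧ ¬ (Dx x ≤ p * q ∧ p * q * Dx x ≤ x)) with hV
    have h3 : ∀ p ∈ U, ∀ q ∈ V p, (numeric_NN κ x p q : ℝ) ≤
        numeric_bnd x (197 / 1000) (2041 / 10000) (197 / 1000) (2041 / 10000)
          ((1 - κ) * x / (19 / 100 * Real.log x)) ((x : ℝ) ^ (39 / 100 : ℝ)) p q +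
        numeric_bnd x (3979 / 10000) (4011 / 10000) (197 / 1000) (201 / 1000)
          ((1 - κ) * x / (19 / 100 * Real.log x)) ((x : ℝ) ^ (39 / 100 : ℝ)) p q +
        numeric_bnd x (3322 / 10000) (4011 / 10000) (201 / 1000) (4 / 15)
          ((1 + 1 / 200) * (1 - κ) * x / (3322 / 10000 * Real.log x)) 0 p q +
        numeric_bnd x (4 / 15) (4011 / 10000) (4 / 15) (1 / 3)
          ((1 + 1 / 200) * (1 - κ) * x / (4 / 15 * Real.log x)) 0 p q := by
      intro p hp q hq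
      simp only [U, V, mem_filter, mem_Icc] at hp hq
      exact hpt p q hp.2.1 hq.2.1 hq.1.1 hq.2.2.1 hp.2.2 hq.2.2.2
    have h4 := Finset.sum_le_sum fun p hp => Finset.sum_le_sum fun q hq => h3 p hp q hq
    have h5 : ∑ p ∈ U, ∑ q ∈ V p, (numeric_NN κ x p q : ℝ) ≤
        53 / 100 * (1 - κ) * x / Real.log x := by
      refine h4.trans ?_
      simp only [Finset.sum_add_distrib]
      have hc1 : 0 ≤ (1 - κ) * x / (19 / 100 * Real.log x) := by positivity
      have hc2 : 0 ≤ (1 + 1 / 200) * (1 - κ) * x / (3322 / 10000 * Real.log x) := by positivity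
      have hc3 : 0 ≤ (1 + 1 / 200) * (1 - κ) * x / (4 / 15 * Real.log x) := by positivity
      have he : 0 ≤ (x : ℝ) ^ (39 / 100 : ℝ) := by positivity
      have b1 := numeric_sum_bnd (x := x) (a := 197 / 1000) (b := 2041 / 10000) (a' := 197 / 1000)
        (b' := 2041 / 10000) hc1 he U V
      have b2 := numeric_sum_bnd (x := x) (a := 3979 / 10000) (b := 4011 / 10000)
        (a' := 197 / 1000) (b' := 201 / 1000) hc1 he U V
      have b3 := numeric_sum_bnd (x := x) (a := 3322 / 10000) (b := 4011 / 10000)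
        (a' := 201 / 1000) (b' := 4 / 15) hc2 le_rfl U V
      have b4 := numeric_sum_bnd (x := x) (a := 4 / 15) (b := 4011 / 10000)
        (a' := 4 / 15) (b' := 1 / 3) hc3 le_rfl U V
      have nn : ∀ a b : ℝ, 0 ≤ ∑ p ∈ numeric_PI x a b, (1 : ℝ) / p := fun a b =>
        Finset.sum_nonneg fun _ _ => by positivity
      have m1 : (∑ p ∈ numeric_PI x (197 / 1000) (2041 / 10000), (1 : ℝ) / p) *
          ∑ q ∈ numeric_PI x (197 / 1000) (2041 / 10000), (1 : ℝ) / q ≤ 132 / 100000 := by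
        refine (mul_le_mul a1 a1 (nn _ _) (by norm_num)).trans (by norm_num)
      have m2 : (∑ p ∈ numeric_PI x (3979 / 10000) (4011 / 10000), (1 : ℝ) / p) *
          ∑ q ∈ numeric_PI x (197 / 1000) (201 / 1000), (1 : ℝ) / q ≤ 17 / 100000 := by
        refine (mul_le_mul a2 a3 (nn _ _) (by norm_num)).trans (by norm_num)
      have m3 : (∑ p ∈ numeric_PI x (3322 / 10000) (4011 / 10000), (1 : ℝ) / p) *
          ∑ q ∈ numeric_PI x (201 / 1000) (4 / 15), (1 : ℝ) / q ≤ 5340 / 100000 := by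
        refine (mul_le_mul a4 a5 (nn _ _) (by norm_num)).trans (by norm_num)
      have m4 : (∑ p ∈ numeric_PI x (4 / 15) (4011 / 10000), (1 : ℝ) / p) *
          ∑ q ∈ numeric_PI x (4 / 15) (1 / 3), (1 : ℝ) / q ≤ 9121 / 100000 := by
        refine (mul_le_mul a6 a7 (nn _ _) (by norm_num)).trans (by norm_num)
      set K : ℝ := (1 - κ) * x / Real.log x with hK
      have hK0 : 0 ≤ K := by positivity
      have e1 : (1 - κ) * x / (19 / 100 * Real.log x) = K * (100 / 19) := by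
        rw [hK]
        field_simp
      have e2 : (1 + 1 / 200) * (1 - κ) * x / (3322 / 10000 * Real.log x) =
          K * ((201 / 200) * (10000 / 3322)) := by
        rw [hK]
        field_simp
        ring
      have e3 : (1 + 1 / 200) * (1 - κ) * x / (4 / 15 * Real.log x) =
          K * ((201 / 200) * (15 / 4)) := by
        rw [hK]
        field_simp
        ring
      have e4 : 53 / 100 * (1 - κ) * x / Real.log x = 53 / 100 * K := by
        rw [hK]
        ring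
      have c1 := mul_le_mul_of_nonneg_left m1 hc1
      have c2 := mul_le_mul_of_nonneg_left m2 hc1
      have c3 := mul_le_mul_of_nonneg_left m3 hc2
      have c4 := mul_le_mul_of_nonneg_left m4 hc3
      rw [e1] at c1 c2
      rw [e2] at c3
      rw [e3] at c4
      rw [e1] at b1 b2
      rw [e2] at b3
      rw [e3] at b4
      rw [e1, e2, e3, e4]
      linarith
    refine le_trans (le_of_eq ?_) h5
    refine Finset.sum_congr rfl fun p _ => Finset.sum_congr ?_ fun _ _ => rfl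
    ext q
    simp only [V, mem_filter]
  exact eventually_atTop.1 hall

end Pool.Agent.ZH
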