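import Pool.Agent.Work.ZH.EQOf
import Pool.Agent.Work.ZH.Coupled
import Pool.Agent.Work.ZH.Boxes
import Pool.Agent.Work.ZH.Identity
import Pool.Agent.Work.ZH.Numeric

/-!
# Cell ZH, module Q: `thm_EQ` from the box theorem
-/

namespace Pool.Agent.ZH

open Finset Pool.Agent.BV

/-- `thm_EQ` from the box theorem, the identity and the numeric module -/
theorem EQ_of_box (hbox : BoxH) (hprime : PrimeH) (hmain : MainH) (hpix : PixH)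
    (hbad : BadH) (A C₁ : ℕ) (κ : ℝ) (hκ : 0 < κ) (hκ1 : κ < 1) : ∃ x₀ : ℕ, ∀ x ≥ x₀, ∀ ρ : ℝ,
    1 ≤ ρ ^ 4 * RR x → ρ ≤ 1 → 0 < ρ → ∀ (S : Finset (ℕ × ℕ)) (c : ℕ × ℕ → ℝ), Dens x ρ C₁ S c →
    9 / 20 * (1 - κ) * (x / Real.log x) * ∑ i ∈ S, c i / ((i.1 * i.2).totient : ℝ) -
      ρ * x / Real.log x ^ A ≤
      ∑ i ∈ S, c i * ((pi1 x (i.1 * i.2) : ℝ) - pi1 ⌊κ * x⌋₊ (i.1 * i.2)) :=
  EQ_of_hyp (disc_conv_of hbox) (disc_coupled_of hbox) hprime hmain hpix hbad A C₁ κ hκ hκ1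

/-- `thm_EQ` from the box theorem -/
theorem thm_EQ_of (hbox : BoxH) (A C₁ : ℕ) (κ : ℝ) (hκ : 0 < κ) (hκ1 : κ < 1) : ∃ x₀ : ℕ, ∀ x ≥ x₀, ∀ ρ : ℝ,
    1 ≤ ρ ^ 4 * RR x → ρ ≤ 1 → 0 < ρ → ∀ (S : Finset (ℕ × ℕ)) (c : ℕ × ℕ → ℝ), Dens x ρ C₁ S c →
    9 / 20 * (1 - κ) * (x / Real.log x) * ∑ i ∈ S, c i / ((i.1 * i.2).totient : ℝ) -
      ρ * x / Real.log x ^ A ≤
      ∑ i ∈ S, c i * ((pi1 x (i.1 * i.2) : ℝ) - pi1 ⌊κ * x⌋₊ (i.1 * i.2)) :=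
  EQ_of_box hbox pointwise_prime pointwise_main pix_bounds thm_N A C₁ κ hκ hκ1

end Pool.Agent.ZH
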