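import Pool.Agent.Work.ZH.Shapes
import Pool.Agent.Work.ZH.TypeOne
import Pool.Agent.Work.ZH.Small

/-!
# Cell ZH, module Q: the lower bound for primes in progressions to the moduli `m₁ m₂`

`EQ_of_hyp` derives the statement of `thm_EQ` from the statements of the modules D1, D3, D4, N.
-/

namespace Pool.Agent.ZH

open Finset Pool.Agent.BV

/-! ### The statements of the other modules -/

/-- the statement of `disc_conv` -/
def ConvH : Prop := ∀ A C₁ : ℕ, ∃ C : ℝ, 0 < C ∧ ∃ x₀ : ℕ, ∀ x ≥ x₀, ∀ ρ : ℝ, 1 ≤ ρ ^ 4 * RR x → ρ ≤ 1 →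
    0 < ρ → ∀ (S : Finset (ℕ × ℕ)) (c : ℕ × ℕ → ℝ), Dens x ρ C₁ S c → ∀ a b : ℕ → ℂ, (∀ n, ‖a n‖ ≤ 1) →
    (∀ n, ‖b n‖ ≤ 1) → Struct a → Struct b → (∀ n, a n ≠ 0 → Dx x ≤ n ∧ n * Dx x ≤ x) →
    (∀ n, b n ≠ 0 → x ^ 2 ≤ n ^ 5) → ∀ y ≤ x,
    ‖∑ i ∈ S, (c i : ℂ) * disc (fun n => ∑ d ∈ n.divisors, a d * b (n / d)) y (i.1 * i.2)‖ ≤
      C * ρ * x / Real.log x ^ A

open Classical in
/-- the statement of `disc_coupled` -/
def CoupH : Prop := ∀ A C₁ : ℕ, ∃ C : ℝ, 0 < C ∧ ∃ x₀ : ℕ, ∀ x ≥ x₀, ∀ ρ : ℝ, 1 ≤ ρ ^ 4 * RR x → ρ ≤ 1 →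
    0 < ρ → ∀ (S : Finset (ℕ × ℕ)) (c : ℕ × ℕ → ℝ), Dens x ρ C₁ S c → ∀ a : ℕ → ℂ, (∀ n, ‖a n‖ ≤ 1) →
    Struct a → (∀ p : ℕ, p.Prime → a p = 0) →
    (∀ n, a n ≠ 0 → Dx x ≤ n ∧ n * Dx x ≤ x ∧ n.minFac ≤ Zc x) → ∀ y ≤ x,
    ‖∑ i ∈ S, (c i : ℂ) * disc (fun n => ∑ d ∈ n.divisors, a d * (if rough d.minFac (n / d) then 1 else 0)) y
      (i.1 * i.2)‖ ≤ C * ρ * x / Real.log x ^ A

/-- the statement of `pointwise_prime` -/
def PrimeH : Prop := ∃ x₀ : ℕ, ∀ x ≥ x₀, ∀ n : ℕ, yx x ≤ n → n ≤ x →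
    2 * I1 (zx x) (Dx x) n + 2 * I2 (zx x) (Dx x) n - I3 (Dx x) n +
      2 * T4 (fun p q => Dx x ≤ p * q ∧ p * q * Dx x ≤ x) (zx x) (Dx x) n ≤
    (if n.Prime then 2 else 0) + (if IsSquare n then 1 else 0)

/-- the statement of `pointwise_main` -/
def MainH : Prop := ∃ x₀ : ℕ, ∀ x ≥ x₀, ∀ n : ℕ, yx x ≤ n → n ≤ x →
    (if n.Prime then 2 else 0) - 2 * T4 (fun p q => ¬ (Dx x ≤ p * q ∧ p * q * Dx x ≤ x)) (zx x) (Dx x) n ≤
    2 * I1 (zx x) (Dx x) n + 2 * I2 (zx x) (Dx x) n - I3 (Dx x) n +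
      2 * T4 (fun p q => Dx x ≤ p * q ∧ p * q * Dx x ≤ x) (zx x) (Dx x) n

/-- the statement of `pix_bounds` -/
def PixH : Prop := ∀ ε κ : ℝ, 0 < ε → 0 ≤ κ → κ < 1 → ∃ x₀ : ℝ, ∀ x : ℝ, x₀ ≤ x →
    (1 - ε) * (1 - κ) * x / Real.log x ≤ (pix ⌊x⌋₊ : ℝ) - pix ⌊κ * x⌋₊ ∧
    (pix ⌊x⌋₊ : ℝ) - pix ⌊κ * x⌋₊ ≤ (1 + ε) * (1 - κ) * x / Real.log x

/-- the statement of `thm_N` -/
def BadH : Prop := ∀ κ : ℝ, 0 < κ → κ < 1 → ∃ x₀ : ℕ, ∀ x ≥ x₀,
    ((∑ n ∈ Ioc ⌊κ * x⌋₊ x, T4 (fun p q => ¬ (Dx x ≤ p * q ∧ p * q * Dx x ≤ x)) (zx x) (Dx x) n : ℤ) : ℝ) ≤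
      53 / 100 * (1 - κ) * x / Real.log x

namespace EQ

/-- the combination of the pieces -/
noncomputable def G (x n : ℕ) : ℤ :=
  2 * I1 (zx x) (Dx x) n + 2 * I2 (zx x) (Dx x) n - I3 (Dx x) n +
      2 * T4 (fun p q => Dx x ≤ p * q ∧ p * q * Dx x ≤ x) (zx x) (Dx x) n

/-- the bad pairs -/
noncomputable def B (x n : ℕ) : ℤ :=
  T4 (fun p q => ¬ (Dx x ≤ p * q ∧ p * q * Dx x ≤ x)) (zx x) (Dx x) n

theorem B_nonneg (x n : ℕ) : 0 ≤ B x n := by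
  unfold B T4
  refine sum_nonneg fun p _ => sum_nonneg fun q _ => ?_
  split_ifs <;> norm_num

/-- the real discrepancy -/
noncomputable def dR (f : ℕ → ℤ) (y m : ℕ) : ℝ :=
  ∑ n ∈ (Icc 1 y).filter (fun n => n ≡ 1 [MOD m]), (f n : ℝ) -
    (∑ n ∈ (Icc 1 y).filter (fun n => Nat.Coprime n m), (f n : ℝ)) / (m.totient : ℝ)

theorem disc_eq (f : ℕ → ℤ) (y m : ℕ) : disc (fun n => ((f n : ℤ) : ℂ)) y m = ((dR f y m : ℝ) : ℂ) := by
  unfold disc dR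
  push_cast
  rfl

theorem disc_congr {f g : ℕ → ℂ} {y : ℕ} (h : ∀ n, 1 ≤ n → n ≤ y → f n = g n) (m : ℕ) :
    disc f y m = disc g y m := by
  unfold disc
  congr 1
  · refine sum_congr rfl fun n hn => ?_
    rw [mem_filter, mem_Icc] at hn
    exact h n hn.1.1 hn.1.2
  · congr 1
    refine sum_congr rfl fun n hn => ?_
    rw [mem_filter, mem_Icc] at hn
    exact h n hn.1.1 hn.1.2

theorem abs_sum_eq (S : Finset (ℕ × ℕ)) (c : ℕ × ℕ → ℝ) (f : ℕ → ℤ) (y : ℕ) :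
    |∑ i ∈ S, c i * dR f y (i.1 * i.2)| =
      ‖∑ i ∈ S, (c i : ℂ) * disc (fun n => ((f n : ℤ) : ℂ)) y (i.1 * i.2)‖ := by
  simp_rw [disc_eq]
  have h1 : ∑ i ∈ S, (c i : ℂ) * ((dR f y (i.1 * i.2) : ℝ) : ℂ) =
      ((∑ i ∈ S, c i * dR f y (i.1 * i.2) : ℝ) : ℂ) := by
    push_cast
    rfl
  rw [h1, Complex.norm_real, Real.norm_eq_abs]

theorem dR_G (x y m : ℕ) : dR (G x) y m = 2 * dR (fun n => I1 (zx x) (Dx x) n) y m +
    2 * dR (fun n => I2 (zx x) (Dx x) n) y m - dR (fun n => I3 (Dx x) n) y m +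
    2 * dR (fun n => T4 (fun p q => Dx x ≤ p * q ∧ p * q * Dx x ≤ x) (zx x) (Dx x) n) y m := by
  unfold dR G
  push_cast
  simp only [sum_add_distrib, sum_sub_distrib, ← mul_sum]
  ring

theorem sum_Ioc {Y x : ℕ} (hY : Y ≤ x) (f : ℕ → ℝ) (p : ℕ → Prop) [DecidablePred p] :
    ∑ n ∈ (Icc 1 x).filter p, f n - ∑ n ∈ (Icc 1 Y).filter p, f n = ∑ n ∈ (Ioc Y x).filter p, f n := by
  rw [sum_filter, sum_filter, sum_filter]
  have h1 : ∀ z : ℕ, Icc 1 z = Ioc 0 z := fun z => by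
    ext n
    simp only [mem_Icc, mem_Ioc]
    omega
  rw [h1, h1, ← sum_Ioc_consecutive _ (Nat.zero_le Y) hY]
  ring

theorem pi1_sub {Y x : ℕ} (hY : Y ≤ x) (m : ℕ) : (pi1 x m : ℝ) - pi1 Y m =
    (((Ioc Y x).filter (fun q => q.Prime ∧ q ≡ 1 [MOD m])).card : ℝ) := by
  have h := sum_Ioc hY (fun _ => (1 : ℝ)) (fun q => q.Prime ∧ q ≡ 1 [MOD m])
  simp only [sum_const, nsmul_eq_mul, mul_one] at h
  unfold pi1
  exact h

theorem pix_sub {Y x : ℕ} (hY : Y ≤ x) : (pix x : ℝ) - pix Y =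
    (((Ioc Y x).filter Nat.Prime).card : ℝ) := by
  have h := sum_Ioc hY (fun _ => (1 : ℝ)) Nat.Prime
  simp only [sum_const, nsmul_eq_mul, mul_one] at h
  unfold pix
  exact h

theorem dR_sub {Y x : ℕ} (hY : Y ≤ x) (f : ℕ → ℤ) (m : ℕ) : dR f x m - dR f Y m =
    ∑ n ∈ (Ioc Y x).filter (fun n => n ≡ 1 [MOD m]), (f n : ℝ) -
    (∑ n ∈ (Ioc Y x).filter (fun n => Nat.Coprime n m), (f n : ℝ)) / (m.totient : ℝ) := by
  rw [← sum_Ioc hY, ← sum_Ioc hY]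
  unfold dR
  ring

/-- the squares -/
noncomputable def sq (Y x m : ℕ) : ℝ :=
  (((Ioc Y x).filter (fun n => IsSquare n ∧ n ≡ 1 [MOD m])).card : ℝ)

theorem up {Y x m : ℕ} (hY : Y ≤ x)
    (hpt : ∀ n, Y < n → n ≤ x → G x n ≤ (if n.Prime then 2 else 0) + (if IsSquare n then 1 else 0)) :
    ∑ n ∈ (Ioc Y x).filter (fun n => n ≡ 1 [MOD m]), (G x n : ℝ) ≤
      2 * ((pi1 x m : ℝ) - pi1 Y m) + sq Y x m := by
  rw [pi1_sub hY, sq]
  have h1 : ∀ n ∈ (Ioc Y x).filter (fun n => n ≡ 1 [MOD m]), (G x n : ℝ) ≤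
      (if n.Prime then 2 else 0) + (if IsSquare n then 1 else 0) := by
    intro n hn
    rw [mem_filter, mem_Ioc] at hn
    have := hpt n hn.1.1 hn.1.2
    have h2 : (G x n : ℝ) ≤ (((if n.Prime then 2 else 0) + (if IsSquare n then 1 else 0) : ℤ) : ℝ) := by
      exact_mod_cast this
    refine h2.trans_eq ?_
    push_cast
    split_ifs <;> norm_num
  refine (sum_le_sum h1).trans_eq ?_
  rw [sum_add_distrib]
  congr 1
  · rw [← sum_filter, filter_filter, sum_const, nsmul_eq_mul, mul_comm]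
    congr 3
    ext n
    simp only [mem_filter]
    tauto
  · rw [← sum_filter, filter_filter, sum_const, nsmul_eq_mul, mul_one]
    congr 2
    ext n
    simp only [mem_filter]
    tauto

theorem low {Y x m : ℕ} (hm : 0 < m) (hY : Y ≤ x)
    (hpt : ∀ n, Y < n → n ≤ x → (if n.Prime then 2 else 0) - 2 * B x n ≤ G x n) :
    2 * ((pix x : ℝ) - pix Y) - 2 * m.primeFactors.card - 2 * ((∑ n ∈ Ioc Y x, B x n : ℤ) : ℝ) ≤
      ∑ n ∈ (Ioc Y x).filter (fun n => Nat.Coprime n m), (G x n : ℝ) := by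
  have h1 : ∀ n ∈ (Ioc Y x).filter (fun n => Nat.Coprime n m),
      (if n.Prime then 2 else 0) - 2 * (B x n : ℝ) ≤ (G x n : ℝ) := by
    intro n hn
    rw [mem_filter, mem_Ioc] at hn
    have := hpt n hn.1.1 hn.1.2
    have h2 : (((if n.Prime then 2 else 0) - 2 * B x n : ℤ) : ℝ) ≤ (G x n : ℝ) := by
      exact_mod_cast this
    refine le_trans (le_of_eq ?_) h2
    push_cast
    split_ifs <;> norm_num
  refine le_trans ?_ (sum_le_sum h1)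
  rw [sum_sub_distrib, ← mul_sum]
  have h2 : ∑ n ∈ (Ioc Y x).filter (fun n => Nat.Coprime n m), (B x n : ℝ) ≤
      ((∑ n ∈ Ioc Y x, B x n : ℤ) : ℝ) := by
    push_cast
    refine sum_le_sum_of_subset_of_nonneg (filter_subset _ _) fun n _ _ => ?_
    exact_mod_cast B_nonneg x n
  have h3 : 2 * ((pix x : ℝ) - pix Y) - 2 * m.primeFactors.card ≤
      ∑ n ∈ (Ioc Y x).filter (fun n => Nat.Coprime n m), (if n.Prime then 2 else 0 : ℝ) := by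
    rw [← sum_filter, filter_filter, sum_const, nsmul_eq_mul, pix_sub hY]
    have h4 : (Ioc Y x).filter Nat.Prime ⊆
        (Ioc Y x).filter (fun n => Nat.Coprime n m ∧ n.Prime) ∪ m.primeFactors := by
      intro n hn
      rw [mem_filter] at hn
      rw [mem_union, mem_filter]
      by_cases hc : Nat.Coprime n m
      · exact Or.inl ⟨hn.1, hc, hn.2⟩
      · right
        rw [Nat.mem_primeFactors]
        exact ⟨hn.2, (Nat.Prime.dvd_iff_not_coprime hn.2).2 hc, hm.ne'⟩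
    have h5 := (card_le_card h4).trans (card_union_le _ _)
    have h6 : (((Ioc Y x).filter Nat.Prime).card : ℝ) ≤
        ((Ioc Y x).filter (fun n => Nat.Coprime n m ∧ n.Prime)).card + m.primeFactors.card := by
      exact_mod_cast h5
    linarith
  linarith

/-- the combination over the moduli -/
theorem combine {Y x : ℕ} (hY : Y ≤ x) {S : Finset (ℕ × ℕ)} {c : ℕ × ℕ → ℝ} (hc : ∀ i ∈ S, 0 ≤ c i)
    (hm : ∀ i ∈ S, 0 < i.1 * i.2)
    (hp : ∀ n, Y < n → n ≤ x → G x n ≤ (if n.Prime then 2 else 0) + (if IsSquare n then 1 else 0))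
    (hl : ∀ n, Y < n → n ≤ x → (if n.Prime then 2 else 0) - 2 * B x n ≤ G x n) {V E₁ E₂ E₃ : ℝ}
    (hV : ∀ i ∈ S, V ≤ ((pix x : ℝ) - pix Y) - (i.1 * i.2).primeFactors.card -
      ((∑ n ∈ Ioc Y x, B x n : ℤ) : ℝ))
    (h₁ : |∑ i ∈ S, c i * dR (G x) x (i.1 * i.2)| ≤ E₁)
    (h₂ : |∑ i ∈ S, c i * dR (G x) Y (i.1 * i.2)| ≤ E₂)
    (h₃ : ∑ i ∈ S, c i * sq Y x (i.1 * i.2) ≤ E₃) :
    V * ∑ i ∈ S, c i / ((i.1 * i.2).totient : ℝ) - (E₁ + E₂ + E₃) / 2 ≤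
      ∑ i ∈ S, c i * ((pi1 x (i.1 * i.2) : ℝ) - pi1 Y (i.1 * i.2)) := by
  have h4 : ∀ i ∈ S, c i * (2 * V / ((i.1 * i.2).totient : ℝ)) + c i * dR (G x) x (i.1 * i.2) -
      c i * dR (G x) Y (i.1 * i.2) - c i * sq Y x (i.1 * i.2) ≤
      2 * (c i * ((pi1 x (i.1 * i.2) : ℝ) - pi1 Y (i.1 * i.2))) := by
    intro i hi
    have h5 := up (m := i.1 * i.2) hY hp
    have h6 := low (hm i hi) hY hl
    have h7 := dR_sub hY (G x) (i.1 * i.2)
    have h8 := hV i hi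
    have ht : (0 : ℝ) < ((i.1 * i.2).totient : ℝ) := by
      exact_mod_cast Nat.totient_pos.2 (hm i hi)
    have h9 : 2 * V / ((i.1 * i.2).totient : ℝ) ≤
        (∑ n ∈ (Ioc Y x).filter (fun n => Nat.Coprime n (i.1 * i.2)), (G x n : ℝ)) /
          ((i.1 * i.2).totient : ℝ) := by
      gcongr
      linarith
    have h10 : 2 * V / ((i.1 * i.2).totient : ℝ) + dR (G x) x (i.1 * i.2) -
        dR (G x) Y (i.1 * i.2) - sq Y x (i.1 * i.2) ≤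
        2 * ((pi1 x (i.1 * i.2) : ℝ) - pi1 Y (i.1 * i.2)) := by linarith
    have h11 := mul_le_mul_of_nonneg_left h10 (hc i hi)
    linarith
  have h5 := sum_le_sum h4
  rw [sum_sub_distrib, sum_sub_distrib, sum_add_distrib, ← mul_sum] at h5
  have h6 : ∑ i ∈ S, c i * (2 * V / ((i.1 * i.2).totient : ℝ)) =
      2 * (V * ∑ i ∈ S, c i / ((i.1 * i.2).totient : ℝ)) := by
    rw [mul_sum, mul_sum]
    refine sum_congr rfl fun i _ => ?_
    ring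
  rw [h6] at h5
  have h7 := abs_le.1 h₁
  have h8 := abs_le.1 h₂
  linarith [h7.1, h8.2]

/-! ### The bounds for the pieces -/

theorem norm_mu (n : ℕ) : ‖((ArithmeticFunction.moebius n : ℤ) : ℂ)‖ ≤ 1 := by
  have h1 : |ArithmeticFunction.moebius n| ≤ 1 := ArithmeticFunction.abs_moebius_le_one
  have h2 : ‖((ArithmeticFunction.moebius n : ℤ) : ℂ)‖ = ((|ArithmeticFunction.moebius n| : ℤ) : ℝ) := by
    rw [Complex.norm_intCast]
    push_cast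
    rfl
  rw [h2]
  exact_mod_cast h1

theorem norm_a2 (z D n : ℕ) : ‖a2 z D n‖ ≤ 1 := by
  unfold a2
  split_ifs
  · exact norm_mu n
  · simp

theorem norm_a3 (D X n : ℕ) : ‖a3 D X n‖ ≤ 1 := by
  unfold a3
  split_ifs <;> simp

theorem norm_a4 (z D X n : ℕ) : ‖a4 z D X n‖ ≤ 1 := by
  unfold a4
  split_ifs <;> simp

/-- a bound for the weighted discrepancies of an integer valued function -/
def Bd (F : ℕ → ℕ → ℤ) (A C₁ : ℕ) : Prop := ∃ C : ℝ, 0 < C ∧ ∃ x₀ : ℕ, ∀ x ≥ x₀, ∀ ρ : ℝ,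
    1 ≤ ρ ^ 4 * RR x → ρ ≤ 1 → 0 < ρ → ∀ (S : Finset (ℕ × ℕ)) (c : ℕ × ℕ → ℝ), Dens x ρ C₁ S c →
    ∀ y ≤ x, |∑ i ∈ S, c i * dR (F x) y (i.1 * i.2)| ≤ C * ρ * x / Real.log x ^ A

theorem bd_I2 (h : CoupH) (A C₁ : ℕ) : Bd (fun x n => I2 (zx x) (Dx x) n) A C₁ := by
  obtain ⟨C, hC, x₁, h₁⟩ := h A C₁
  obtain ⟨x₂, h₂⟩ := a_supports
  refine ⟨C, hC, max x₁ x₂, fun x hx ρ hρ hρ1 hρ0 S c hD y hy => ?_⟩
  obtain ⟨s1, s2, s3, s4, s5, s6, s7, s8, s9⟩ := h₂ x (le_trans (le_max_right _ _) hx)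
  have h3 := h₁ x (le_trans (le_max_left _ _) hx) ρ hρ hρ1 hρ0 S c hD (a2 (zx x) (Dx x)) (norm_a2 _ _)
    (struct_a2 _ _) (fun p hp => (s4 p hp).1) s1 y hy
  rw [abs_sum_eq]
  simp_rw [I2_eq]
  exact h3

theorem bd_T4 (h : CoupH) (A C₁ : ℕ) :
    Bd (fun x n => T4 (fun p q => Dx x ≤ p * q ∧ p * q * Dx x ≤ x) (zx x) (Dx x) n) A C₁ := by
  obtain ⟨C, hC, x₁, h₁⟩ := h A C₁
  obtain ⟨x₂, h₂⟩ := a_supports
  refine ⟨C, hC, max x₁ x₂, fun x hx ρ hρ hρ1 hρ0 S c hD y hy => ?_⟩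
  obtain ⟨s1, s2, s3, s4, s5, s6, s7, s8, s9⟩ := h₂ x (le_trans (le_max_right _ _) hx)
  have h3 := h₁ x (le_trans (le_max_left _ _) hx) ρ hρ hρ1 hρ0 S c hD (a4 (zx x) (Dx x) (x / Dx x))
    (norm_a4 _ _ _) (struct_a4 _ _ _) (fun p hp => (s4 p hp).2) s2 y hy
  have hD0 : 0 < Dx x := by omega
  rw [abs_sum_eq]
  have h4 : (fun n => ((T4 (fun p q => Dx x ≤ p * q ∧ p * q * Dx x ≤ x) (zx x) (Dx x) n : ℤ) : ℂ)) =
      fun n => ∑ d ∈ n.divisors, a4 (zx x) (Dx x) (x / Dx x) d *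
        (open Classical in if rough d.minFac (n / d) then 1 else 0) := by
    funext n
    exact T4_eq s5 hD0
  rw [h4]
  exact h3

theorem bd_I3 (h : ConvH) (A C₁ : ℕ) : Bd (fun x n => I3 (Dx x) n) A C₁ := by
  obtain ⟨C, hC, x₁, h₁⟩ := h A C₁
  obtain ⟨x₂, h₂⟩ := a_supports
  refine ⟨C, hC, max x₁ x₂, fun x hx ρ hρ hρ1 hρ0 S c hD y hy => ?_⟩
  obtain ⟨s1, s2, s3, s4, s5, s6, s7, s8, s9⟩ := h₂ x (le_trans (le_max_right _ _) hx)
  have h3 := h₁ x (le_trans (le_max_left _ _) hx) ρ hρ hρ1 hρ0 S c hD (a3 (Dx x) (x / Dx x))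
    (a3 (Dx x) (x / Dx x)) (norm_a3 _ _) (norm_a3 _ _) (struct_a3 _ _) (struct_a3 _ _) s3
    (fun n hn => s9.trans (Nat.pow_le_pow_left (s3 n hn).1 5)) y hy
  have hD0 : 0 < Dx x := by omega
  rw [abs_sum_eq]
  have h4 : ∀ m, disc (fun n => ((I3 (Dx x) n : ℤ) : ℂ)) y m =
      disc (fun n => ∑ d ∈ n.divisors, a3 (Dx x) (x / Dx x) d * a3 (Dx x) (x / Dx x) (n / d)) y m := by
    intro m
    refine disc_congr (fun n _ hn => ?_) m
    exact I3_eq hD0 (hn.trans hy)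
  simp_rw [h4]
  exact h3

open Classical in
/-- the coefficients of `I1` -/
noncomputable def a1 (z D n : ℕ) : ℂ :=
  if CC z D n ∧ n < D then ((ArithmeticFunction.moebius n : ℤ) : ℂ) else 0

theorem norm_a1 (z D n : ℕ) : ‖a1 z D n‖ ≤ 1 := by
  unfold a1
  split_ifs
  · exact norm_mu n
  · simp

theorem I1_eq (z D n : ℕ) : (I1 z D n : ℂ) = ∑ d ∈ n.divisors, a1 z D d := by
  classical
  unfold I1 a1
  push_cast
  rw [sum_filter]

theorem Dx_le {x : ℕ} (hx : 1 ≤ x) : (Dx x : ℝ) ≤ 2 * RR x ^ 401000 := by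
  have hx1 : (1 : ℝ) ≤ x := by exact_mod_cast hx
  have h1 : (Dx x : ℝ) ≤ (x : ℝ) ^ (401 / 1000 : ℝ) + 1 := (Nat.ceil_lt_add_one (by positivity)).le
  have h2 : RR x ^ 401000 = (x : ℝ) ^ (401 / 1000 : ℝ) := by
    rw [RR_pow_eq]
    norm_num
  have h3 : 1 ≤ (x : ℝ) ^ (401 / 1000 : ℝ) := Real.one_le_rpow hx1 (by norm_num)
  rw [h2]
  linarith

theorem m_pos {x : ℕ} (hx : 1 ≤ x) {m₁ m₂ : ℕ} (h : GoodPair x m₁ m₂) : 0 < m₁ * m₂ := by
  by_contra h0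
  have h1 := h.lo
  rw [show m₁ * m₂ = 0 by omega] at h1
  simp at h1
  omega

theorem m_le {x : ℕ} (hx : 1 ≤ x) {m₁ m₂ : ℕ} (h : GoodPair x m₁ m₂) :
    ((m₁ * m₂ : ℕ) : ℝ) ≤ RR x ^ 500002 := by
  have h1 := h.hi
  have hR : 1 ≤ RR x := one_le_RR hx
  have h2 : ((m₁ * m₂ : ℕ) : ℝ) ^ 2 ≤ (RR x ^ 500002) ^ 2 := by
    calc ((m₁ * m₂ : ℕ) : ℝ) ^ 2 ≤ x * RR x ^ 3 := h1
      _ = RR x ^ 1000003 := by
        conv_lhs => rw [← RR_pow x]
        rw [← pow_add]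
      _ ≤ RR x ^ 1000004 := pow_le_pow_right₀ hR (by norm_num)
      _ = (RR x ^ 500002) ^ 2 := by rw [← pow_mul]
  exact le_of_pow_le_pow_left₀ (by norm_num) (by positivity) h2

theorem m_le' {x : ℕ} (hx : 1 ≤ x) {m₁ m₂ : ℕ} (h : GoodPair x m₁ m₂) : m₁ * m₂ ≤ x := by
  have h1 := m_le hx h
  have hR : 1 ≤ RR x := one_le_RR hx
  have h2 : ((m₁ * m₂ : ℕ) : ℝ) ≤ (x : ℝ) := by
    calc ((m₁ * m₂ : ℕ) : ℝ) ≤ RR x ^ 500002 := h1
      _ ≤ RR x ^ 1000000 := pow_le_pow_right₀ hR (by norm_num)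
      _ = x := RR_pow x
  exact_mod_cast h2

theorem sum_c {x : ℕ} (hx : 1 ≤ x) {ρ : ℝ} {C₁ : ℕ} {S : Finset (ℕ × ℕ)} {c : ℕ × ℕ → ℝ}
    (h : Dens x ρ C₁ S c) : ∑ i ∈ S, c i ≤ RR x ^ 500002 * (ρ * Real.log x ^ C₁) := by
  calc ∑ i ∈ S, c i ≤ ∑ i ∈ S, RR x ^ 500002 * (c i / ((i.1 * i.2 : ℕ) : ℝ)) := by
        refine sum_le_sum fun i hi => ?_
        have h1 := m_le hx (h.good i hi)
        have h2 : (0 : ℝ) < ((i.1 * i.2 : ℕ) : ℝ) := by exact_mod_cast m_pos hx (h.good i hi)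
        have h3 := h.nonneg i hi
        calc c i = ((i.1 * i.2 : ℕ) : ℝ) * (c i / ((i.1 * i.2 : ℕ) : ℝ)) := by field_simp
          _ ≤ _ := by gcongr
    _ = RR x ^ 500002 * ∑ i ∈ S, c i / ((i.1 * i.2 : ℕ) : ℝ) := by rw [mul_sum]
    _ ≤ _ := by
        have := h.total
        have hR : 0 ≤ RR x := zero_le_one.trans (one_le_RR hx)
        gcongr

theorem bd_I1 (A C₁ : ℕ) : Bd (fun x n => I1 (zx x) (Dx x) n) A C₁ := by
  obtain ⟨x₁, h₁⟩ := small_tau 1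
  obtain ⟨x₂, h₂⟩ := small_log (A + C₁) 4
  refine ⟨1, one_pos, max (max x₁ x₂) 3, fun x hx ρ hρ hρ1 hρ0 S c hD y hy => ?_⟩
  have hx1 : x₁ ≤ x := le_trans (le_trans (le_max_left _ _) (le_max_left _ _)) hx
  have hx2 : x₂ ≤ x := le_trans (le_trans (le_max_right _ _) (le_max_left _ _)) hx
  have hx3 : 3 ≤ x := le_trans (le_max_right _ _) hx
  have hx0 : 1 ≤ x := by omega
  have hR : 1 ≤ RR x := one_le_RR hx0
  have hlog : 0 < Real.log x := Real.log_pos (by exact_mod_cast (show 1 < x by omega))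
  have h4 : ∀ i ∈ S, |c i * dR (fun n => I1 (zx x) (Dx x) n) y (i.1 * i.2)| ≤
      c i * (2 * (2 * RR x ^ 401000) * RR x) := by
    intro i hi
    have hmp := m_pos hx0 (hD.good i hi)
    have hml := m_le' hx0 (hD.good i hi)
    rw [abs_mul, abs_of_nonneg (hD.nonneg i hi)]
    refine mul_le_mul_of_nonneg_left ?_ (hD.nonneg i hi)
    have h5 := disc_typeI (a := a1 (zx x) (Dx x)) (norm_a1 _ _) (D := Dx x) (fun n hn => by
      unfold a1 at hn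
      by_contra h
      rw [if_neg (fun h' => h h'.2)] at hn
      exact hn rfl) (y := y) hmp
    have h6 : (fun n => ((I1 (zx x) (Dx x) n : ℤ) : ℂ)) =
        fun n => ∑ d ∈ n.divisors, a1 (zx x) (Dx x) d := by
      funext n
      exact I1_eq _ _ n
    rw [← h6, disc_eq, Complex.norm_real, Real.norm_eq_abs] at h5
    have h7 : ((i.1 * i.2).divisors.card : ℝ) ≤ RR x := by
      have := h₁ x hx1 (i.1 * i.2) hmp (hml.trans (Nat.le_self_pow (by norm_num) x))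
      rwa [pow_one] at this
    have h8 := Dx_le hx0
    calc |dR (fun n => I1 (zx x) (Dx x) n) y (i.1 * i.2)| ≤
          2 * (Dx x : ℝ) * (i.1 * i.2).divisors.card := h5
      _ ≤ 2 * (2 * RR x ^ 401000) * RR x := by gcongr
  have h5 := h₂ x hx2
  have hL : 0 < Real.log x ^ A := by positivity
  rw [one_mul, le_div_iff₀ hL]
  calc |∑ i ∈ S, c i * dR (fun n => I1 (zx x) (Dx x) n) y (i.1 * i.2)| * Real.log x ^ A
      ≤ (∑ i ∈ S, c i * (2 * (2 * RR x ^ 401000) * RR x)) * Real.log x ^ A := by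
        gcongr
        exact (abs_sum_le_sum_abs _ _).trans (sum_le_sum h4)
    _ = (∑ i ∈ S, c i) * (2 * (2 * RR x ^ 401000) * RR x) * Real.log x ^ A := by rw [← sum_mul]
    _ ≤ (RR x ^ 500002 * (ρ * Real.log x ^ C₁)) * (2 * (2 * RR x ^ 401000) * RR x) *
          Real.log x ^ A := by
        gcongr
        exact sum_c hx0 hD
    _ = ρ * (RR x ^ 901003 * (4 * Real.log x ^ (A + C₁))) := by ring
    _ ≤ ρ * (RR x ^ 901003 * RR x) := by gcongr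
    _ = ρ * RR x ^ 901004 := by ring
    _ ≤ ρ * RR x ^ 1000000 :=
        mul_le_mul_of_nonneg_left (pow_le_pow_right₀ hR (by norm_num)) hρ0.le
    _ = ρ * x := by rw [RR_pow]

theorem bd_G (h : ConvH) (h' : CoupH) (A C₁ : ℕ) : Bd G A C₁ := by
  obtain ⟨K₁, hK₁, x₁, h₁⟩ := bd_I1 A C₁
  obtain ⟨K₂, hK₂, x₂, h₂⟩ := bd_I2 h' A C₁
  obtain ⟨K₃, hK₃, x₃, h₃⟩ := bd_I3 h A C₁
  obtain ⟨K₄, hK₄, x₄, h₄⟩ := bd_T4 h' A C₁
  refine ⟨2 * K₁ + 2 * K₂ + K₃ + 2 * K₄, by positivity, max (max x₁ x₂) (max x₃ x₄),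
    fun x hx ρ hρ hρ1 hρ0 S c hD y hy => ?_⟩
  have hx1 : x₁ ≤ x := le_trans (le_trans (le_max_left _ _) (le_max_left _ _)) hx
  have hx2 : x₂ ≤ x := le_trans (le_trans (le_max_right _ _) (le_max_left _ _)) hx
  have hx3 : x₃ ≤ x := le_trans (le_trans (le_max_left _ _) (le_max_right _ _)) hx
  have hx4 : x₄ ≤ x := le_trans (le_trans (le_max_right _ _) (le_max_right _ _)) hx
  have e1 := h₁ x hx1 ρ hρ hρ1 hρ0 S c hD y hy
  have e2 := h₂ x hx2 ρ hρ hρ1 hρ0 S c hD y hy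
  have e3 := h₃ x hx3 ρ hρ hρ1 hρ0 S c hD y hy
  have e4 := h₄ x hx4 ρ hρ hρ1 hρ0 S c hD y hy
  have h5 : ∑ i ∈ S, c i * dR (G x) y (i.1 * i.2) =
      2 * ∑ i ∈ S, c i * dR (fun n => I1 (zx x) (Dx x) n) y (i.1 * i.2) +
      2 * ∑ i ∈ S, c i * dR (fun n => I2 (zx x) (Dx x) n) y (i.1 * i.2) -
      ∑ i ∈ S, c i * dR (fun n => I3 (Dx x) n) y (i.1 * i.2) +
      2 * ∑ i ∈ S, c i * dR (fun n => T4 (fun p q => Dx x ≤ p * q ∧ p * q * Dx x ≤ x) (zx x)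
        (Dx x) n) y (i.1 * i.2) := by
    rw [mul_sum, mul_sum, mul_sum, ← sum_add_distrib, ← sum_sub_distrib, ← sum_add_distrib]
    refine sum_congr rfl fun i _ => ?_
    rw [dR_G]
    ring
  have hK : (2 * K₁ + 2 * K₂ + K₃ + 2 * K₄) * ρ * x / Real.log x ^ A =
      2 * (K₁ * ρ * x / Real.log x ^ A) + 2 * (K₂ * ρ * x / Real.log x ^ A) +
      K₃ * ρ * x / Real.log x ^ A + 2 * (K₄ * ρ * x / Real.log x ^ A) := by ring
  rw [h5, hK, abs_le]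
  have a1' := abs_le.1 e1
  have a2' := abs_le.1 e2
  have a3' := abs_le.1 e3
  have a4' := abs_le.1 e4
  constructor <;> linarith [a1'.1, a1'.2, a2'.1, a2'.2, a3'.1, a3'.2, a4'.1, a4'.2]

/-- the squares are negligible -/
theorem bd_sq (A C₁ : ℕ) : ∃ x₀ : ℕ, ∀ x ≥ x₀, ∀ ρ : ℝ,
    1 ≤ ρ ^ 4 * RR x → ρ ≤ 1 → 0 < ρ → ∀ (S : Finset (ℕ × ℕ)) (c : ℕ × ℕ → ℝ), Dens x ρ C₁ S c →
    ∀ Y : ℕ, 1 ≤ Y → ∑ i ∈ S, c i * sq Y x (i.1 * i.2) ≤ ρ * x / Real.log x ^ A := by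
  obtain ⟨x₁, h₁⟩ := small_tau 2
  obtain ⟨x₂, h₂⟩ := small_log A 1
  refine ⟨max (max x₁ x₂) 3, fun x hx ρ hρ hρ1 hρ0 S c hD Y hY => ?_⟩
  have hx1 : x₁ ≤ x := le_trans (le_trans (le_max_left _ _) (le_max_left _ _)) hx
  have hx2 : x₂ ≤ x := le_trans (le_trans (le_max_right _ _) (le_max_left _ _)) hx
  have hx3 : 3 ≤ x := le_trans (le_max_right _ _) hx
  have hx0 : 1 ≤ x := by omega
  have hR : 1 ≤ RR x := one_le_RR hx0
  have hlog : 0 < Real.log x := Real.log_pos (by exact_mod_cast (show 1 < x by omega))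
  have hL : 0 < Real.log x ^ A := by positivity
  -- exchange of the summations
  have h3 : ∑ i ∈ S, c i * sq Y x (i.1 * i.2) ≤
      ∑ n ∈ (Ioc Y x).filter IsSquare, ((S.filter fun i => n ≡ 1 [MOD i.1 * i.2]).card : ℝ) := by
    calc ∑ i ∈ S, c i * sq Y x (i.1 * i.2) ≤ ∑ i ∈ S, sq Y x (i.1 * i.2) := by
          refine sum_le_sum fun i hi => ?_
          have h4 := hD.le_one i hi
          have h5 : 0 ≤ sq Y x (i.1 * i.2) := Nat.cast_nonneg _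
          calc c i * sq Y x (i.1 * i.2) ≤ 1 * sq Y x (i.1 * i.2) := by gcongr
            _ = _ := one_mul _
      _ = ∑ i ∈ S, ∑ n ∈ (Ioc Y x).filter IsSquare, (if n ≡ 1 [MOD i.1 * i.2] then (1 : ℝ) else 0) := by
          refine sum_congr rfl fun i _ => ?_
          rw [sq, ← filter_filter, card_filter]
          push_cast
          rfl
      _ = ∑ n ∈ (Ioc Y x).filter IsSquare, ∑ i ∈ S, (if n ≡ 1 [MOD i.1 * i.2] then (1 : ℝ) else 0) :=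
          sum_comm
      _ = _ := by
          refine sum_congr rfl fun n _ => ?_
          rw [card_filter]
          push_cast
          rfl
      _ ≤ _ := le_rfl
  -- the number of pairs
  have h4 : ∀ n ∈ (Ioc Y x).filter IsSquare,
      ((S.filter fun i => n ≡ 1 [MOD i.1 * i.2]).card : ℝ) ≤ RR x := by
    intro n hn
    rw [mem_filter, mem_Ioc] at hn
    obtain ⟨⟨hn1, hn2⟩, -⟩ := hn
    have hn0 : 0 < n - 1 := by omega
    have h5 : (S.filter fun i => n ≡ 1 [MOD i.1 * i.2]) ⊆ (n - 1).divisors ×ˢ (n - 1).divisors := by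
      intro i hi
      rw [mem_filter] at hi
      have h6 : i.1 * i.2 ∣ n - 1 := (Nat.modEq_iff_dvd' (by omega)).1 hi.2.symm
      rw [mem_product, Nat.mem_divisors, Nat.mem_divisors]
      exact ⟨⟨(Dvd.intro _ rfl).trans h6, hn0.ne'⟩, ⟨(Dvd.intro_left _ rfl).trans h6, hn0.ne'⟩⟩
    have h6 := card_le_card h5
    rw [card_product] at h6
    have h7 := h₁ x hx1 (n - 1) hn0 (by
      calc n - 1 ≤ x := by omega
        _ ≤ x ^ 4 := Nat.le_self_pow (by norm_num) x)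
    calc ((S.filter fun i => n ≡ 1 [MOD i.1 * i.2]).card : ℝ) ≤
          ((n - 1).divisors.card * (n - 1).divisors.card : ℕ) := by exact_mod_cast h6
      _ = ((n - 1).divisors.card : ℝ) ^ 2 := by push_cast; ring
      _ ≤ RR x := h7
  -- the number of squares
  have h5 : (((Ioc Y x).filter IsSquare).card : ℝ) ≤ RR x ^ 500000 := by
    have h6 : (Ioc Y x).filter IsSquare ⊆ (Icc 1 (Nat.sqrt x)).image fun s => s * s := by
      intro n hn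
      rw [mem_filter, mem_Ioc] at hn
      obtain ⟨⟨hn1, hn2⟩, s, hs⟩ := hn
      rw [mem_image]
      refine ⟨s, ?_, hs.symm⟩
      rw [mem_Icc]
      constructor
      · rcases Nat.eq_zero_or_pos s with h | h
        · rw [h] at hs
          omega
        · exact h
      · rw [Nat.le_sqrt, ← hs]
        exact hn2
    have h7 := (card_le_card h6).trans card_image_le
    rw [Nat.card_Icc, Nat.add_sub_cancel] at h7
    have h8 : ((Nat.sqrt x : ℕ) : ℝ) ≤ RR x ^ 500000 := by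
      have h9 : ((Nat.sqrt x : ℕ) : ℝ) ^ 2 ≤ (RR x ^ 500000) ^ 2 := by
        rw [← pow_mul, RR_pow]
        have := Nat.sqrt_le' x
        exact_mod_cast this
      exact le_of_pow_le_pow_left₀ (by norm_num) (by positivity) h9
    exact le_trans (by exact_mod_cast h7) h8
  have h6 := h₂ x hx2
  have h7 : 1 ≤ ρ * RR x := by
    have h8 : ρ ^ 4 ≤ ρ := by
      calc ρ ^ 4 ≤ ρ ^ 1 := pow_le_pow_of_le_one hρ0.le hρ1 (by norm_num)
        _ = ρ := pow_one _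
    calc 1 ≤ ρ ^ 4 * RR x := hρ
      _ ≤ ρ * RR x := by gcongr
  rw [le_div_iff₀ hL]
  calc (∑ i ∈ S, c i * sq Y x (i.1 * i.2)) * Real.log x ^ A
      ≤ (∑ n ∈ (Ioc Y x).filter IsSquare, RR x) * Real.log x ^ A := by
        gcongr
        exact h3.trans (sum_le_sum h4)
    _ = ((Ioc Y x).filter IsSquare).card * RR x * Real.log x ^ A := by
        rw [sum_const, nsmul_eq_mul]
    _ ≤ RR x ^ 500000 * RR x * RR x := by
        gcongr
        linarith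
    _ = RR x ^ 500002 := by ring
    _ ≤ (ρ * RR x) * RR x ^ 500002 := le_mul_of_one_le_left (by positivity) h7
    _ = ρ * RR x ^ 500003 := by ring
    _ ≤ ρ * RR x ^ 1000000 :=
        mul_le_mul_of_nonneg_left (pow_le_pow_right₀ hR (by norm_num)) hρ0.le
    _ = ρ * x := by rw [RR_pow]

end EQ

/-- `thm_EQ` from the other modules -/
theorem EQ_of_hyp (hconv : ConvH) (hcoup : CoupH) (hprime : PrimeH) (hmain : MainH) (hpix : PixH)
    (hbad : BadH) (A C₁ : ℕ) (κ : ℝ) (hκ : 0 < κ) (hκ1 : κ < 1) : ∃ x₀ : ℕ, ∀ x ≥ x₀, ∀ ρ : ℝ,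
    1 ≤ ρ ^ 4 * RR x → ρ ≤ 1 → 0 < ρ → ∀ (S : Finset (ℕ × ℕ)) (c : ℕ × ℕ → ℝ), Dens x ρ C₁ S c →
    9 / 20 * (1 - κ) * (x / Real.log x) * ∑ i ∈ S, c i / ((i.1 * i.2).totient : ℝ) -
      ρ * x / Real.log x ^ A ≤
      ∑ i ∈ S, c i * ((pi1 x (i.1 * i.2) : ℝ) - pi1 ⌊κ * x⌋₊ (i.1 * i.2)) := by
  obtain ⟨K, hK, x₁, h₁⟩ := EQ.bd_G hconv hcoup (A + 1) C₁
  obtain ⟨x₂, h₂⟩ := EQ.bd_sq (A + 1) C₁
  obtain ⟨x₃, h₃⟩ := hprime
  obtain ⟨x₄, h₄⟩ := hmain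
  obtain ⟨x₅, h₅⟩ := hpix (1 / 100) κ (by norm_num) hκ.le hκ1
  obtain ⟨x₆, h₆⟩ := hbad κ hκ hκ1
  obtain ⟨x₇, h₇⟩ := small_omega 2 (by norm_num)
  obtain ⟨x₈, h₈⟩ := small_log 1 (100 / (1 - κ))
  have hk : 0 < 1 - κ := by linarith
  -- large `x`
  obtain ⟨x₉, h₉⟩ : ∃ x₉ : ℕ, ∀ x ≥ x₉, 2 * K + 1 ≤ Real.log x := by
    refine ⟨⌈Real.exp (2 * K + 1)⌉₊, fun x hx => ?_⟩
    have h : Real.exp (2 * K + 1) ≤ x := (Nat.le_ceil _).trans (by exact_mod_cast hx)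
    calc 2 * K + 1 = Real.log (Real.exp (2 * K + 1)) := (Real.log_exp _).symm
      _ ≤ Real.log x := Real.log_le_log (Real.exp_pos _) h
  refine ⟨max (max (max x₁ x₂) (max x₃ x₄)) (max (max (max ⌈x₅⌉₊ x₆) (max x₇ x₈))
    (max x₉ (max 3 (⌈1 / κ⌉₊ ^ 2)))), fun x hx ρ hρ hρ1 hρ0 S c hD => ?_⟩
  simp only [ge_iff_le, max_le_iff] at hx
  obtain ⟨⟨⟨hx1, hx2⟩, hx3, hx4⟩, ⟨⟨hx5, hx6⟩, hx7, hx8⟩, hx9, hx10, hx11⟩ := hx
  have hx0 : 1 ≤ x := by omega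
  have hR : 1 ≤ RR x := one_le_RR hx0
  have hxR : (0 : ℝ) < x := by exact_mod_cast hx0
  have hlog1 : 1 ≤ Real.log x := by
    have := h₉ x hx9
    linarith
  have hlog : 0 < Real.log x := by linarith
  set Y := ⌊κ * x⌋₊ with hYdef
  have hYx : Y ≤ x := by
    have h : κ * x ≤ x := by nlinarith
    calc Y ≤ ⌊(x : ℝ)⌋₊ := Nat.floor_le_floor h
      _ = x := Nat.floor_natCast x
  have hsq : Nat.sqrt x ≤ Y := by
    apply Nat.le_floor
    have h10 : ⌈1 / κ⌉₊ ≤ Nat.sqrt x := by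
      rw [Nat.le_sqrt']
      exact hx11
    have h11 : 1 / κ ≤ (Nat.sqrt x : ℕ) := (Nat.le_ceil _).trans (by exact_mod_cast h10)
    have h12 : 1 ≤ κ * (Nat.sqrt x : ℕ) := by
      rw [div_le_iff₀ hκ] at h11
      linarith
    have h13 : ((Nat.sqrt x : ℕ) : ℝ) * (Nat.sqrt x : ℕ) ≤ x := by
      have := Nat.sqrt_le x
      exact_mod_cast this
    have h14 : (0 : ℝ) ≤ (Nat.sqrt x : ℕ) := Nat.cast_nonneg _
    calc ((Nat.sqrt x : ℕ) : ℝ) = 1 * (Nat.sqrt x : ℕ) := (one_mul _).symm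
      _ ≤ (κ * (Nat.sqrt x : ℕ)) * (Nat.sqrt x : ℕ) := by gcongr
      _ = κ * ((Nat.sqrt x : ℕ) * (Nat.sqrt x : ℕ)) := by ring
      _ ≤ κ * x := by gcongr
  have hyx : ∀ n, Y < n → yx x ≤ n := fun n hn => by
    unfold yx
    omega
  have hY1 : 1 ≤ Y := by
    have : 1 ≤ Nat.sqrt x := Nat.sqrt_pos.2 (by omega)
    omega
  -- the main value
  have hpi := (h₅ (x : ℝ) ((Nat.le_ceil _).trans (by exact_mod_cast hx5))).1
  rw [Nat.floor_natCast] at hpi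
  have hbd := h₆ x hx6
  have hV : ∀ i ∈ S, 9 / 20 * (1 - κ) * (x / Real.log x) ≤ ((pix x : ℝ) - pix Y) -
      (i.1 * i.2).primeFactors.card - ((∑ n ∈ Ioc Y x, EQ.B x n : ℤ) : ℝ) := by
    intro i hi
    have hmp := EQ.m_pos hx0 (hD.good i hi)
    have hml := EQ.m_le' hx0 (hD.good i hi)
    have h10 : ((i.1 * i.2).primeFactors.card : ℝ) ≤ 1 / 100 * (1 - κ) * (x / Real.log x) := by
      have h11 := h₇ x hx7 (i.1 * i.2) hmp (hml.trans (Nat.le_self_pow (by norm_num) x))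
      have h12 : ((i.1 * i.2).primeFactors.card : ℝ) ≤ 2 ^ (i.1 * i.2).primeFactors.card := by
        exact_mod_cast Nat.lt_two_pow_self.le
      have h13 := h₈ x hx8
      rw [pow_one] at h13
      have h14 : RR x * RR x ≤ x := by
        calc RR x * RR x = RR x ^ 2 := by ring
          _ ≤ RR x ^ 1000000 := pow_le_pow_right₀ hR (by norm_num)
          _ = x := RR_pow x
      calc ((i.1 * i.2).primeFactors.card : ℝ) ≤ RR x := h12.trans h11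
        _ ≤ 1 / 100 * (1 - κ) * (x / Real.log x) := by
          rw [← mul_div_assoc, le_div_iff₀ hlog]
          have h15 : 100 * Real.log x ≤ (1 - κ) * RR x := by
            rw [div_mul_eq_mul_div, div_le_iff₀ hk] at h13
            linarith
          nlinarith
    have h11 : (∑ n ∈ Ioc Y x, EQ.B x n : ℤ) = ∑ n ∈ Ioc ⌊κ * x⌋₊ x,
        T4 (fun p q => ¬ (Dx x ≤ p * q ∧ p * q * Dx x ≤ x)) (zx x) (Dx x) n := rfl
    rw [h11]
    have e1 : (1 - 1 / 100) * (1 - κ) * x / Real.log x = 99 / 100 * (1 - κ) * (x / Real.log x) := by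
      ring
    have e2 : 53 / 100 * (1 - κ) * x / Real.log x = 53 / 100 * (1 - κ) * (x / Real.log x) := by ring
    rw [e1] at hpi
    rw [e2] at hbd
    linarith
  have hmain := EQ.combine hYx hD.nonneg (fun i hi => EQ.m_pos hx0 (hD.good i hi))
    (fun n hn hn' => h₃ x hx3 n (hyx n hn) hn') (fun n hn hn' => h₄ x hx4 n (hyx n hn) hn') hV
    (h₁ x hx1 ρ hρ hρ1 hρ0 S c hD x le_rfl) (h₁ x hx1 ρ hρ hρ1 hρ0 S c hD Y hYx)
    (h₂ x hx2 ρ hρ hρ1 hρ0 S c hD Y hY1)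
  refine le_trans ?_ hmain
  have h10 : (K * ρ * x / Real.log x ^ (A + 1) + K * ρ * x / Real.log x ^ (A + 1) +
      ρ * x / Real.log x ^ (A + 1)) / 2 ≤ ρ * x / Real.log x ^ A := by
    have h11 := h₉ x hx9
    have h12 : 0 < Real.log x ^ A := by positivity
    have h13 : (K * ρ * x / Real.log x ^ (A + 1) + K * ρ * x / Real.log x ^ (A + 1) +
        ρ * x / Real.log x ^ (A + 1)) / 2 =
        (ρ * x / Real.log x ^ A) * ((2 * K + 1) / (2 * Real.log x)) := by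
      rw [pow_succ]
      field_simp
      ring
    rw [h13]
    have h14 : (2 * K + 1) / (2 * Real.log x) ≤ 1 := by
      rw [div_le_one (by positivity)]
      linarith
    exact mul_le_of_le_one_right (by positivity) h14
  linarith

end Pool.Agent.ZH
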