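import Pool.Agent.Work.ZH.Defs
import Pool.Agent.Work.MP_713a1e_co.E.SievePair

/-!
# S1: `1 + a m` and `1 + a n` both prime (Selberg's sieve in dimension two)
-/

namespace Pool.Agent.ZH

open Finset Pool.Agent.BV

open Pool.Agent.Work.MP_713a1e_co.E Pool.Agent.Work.MP_92f640_nt

theorem PairSieve_modEq {A m : ℕ} (hA : 0 < A) (h : Nat.Coprime A m) :
    ∃ α : ℕ, ∀ a : ℕ, A ∣ 1 + a * m ↔ a ≡ α [MOD A] := by
  obtain ⟨α, hα⟩ : ∃ α : ℕ, A ∣ 1 + α * m := by
    obtain ⟨t, ht⟩ := (Nat.isCoprime_iff_coprime.2 h.symm)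
    obtain ⟨s, hs⟩ := ht
    -- `t * m + s * A = 1`
    refine ⟨((-t) % (A : ℤ)).toNat, ?_⟩
    have hA' : (0 : ℤ) < A := by exact_mod_cast hA
    have h0 : 0 ≤ (-t) % (A : ℤ) := Int.emod_nonneg _ hA'.ne'
    have h1 : ((A : ℤ)) ∣ ((1 + ((-t) % (A : ℤ)).toNat * m : ℕ) : ℤ) := by
      push_cast
      rw [Int.toNat_of_nonneg h0]
      have h2 : (A : ℤ) ∣ (-t) % (A : ℤ) - (-t) := by
        rw [Int.emod_def]
        exact ⟨-((-t) / A), by ring⟩
      obtain ⟨w, hw⟩ := h2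
      refine ⟨s + w * m, ?_⟩
      have h3 : (-t) % (A : ℤ) = -t + A * w := by linarith
      rw [h3]
      linear_combination -hs
    exact_mod_cast h1
  refine ⟨α, fun a => ?_⟩
  rw [Nat.modEq_iff_dvd]
  have h1 : (A ∣ 1 + a * m) ↔ ((A : ℤ) ∣ ((1 + α * m : ℕ) : ℤ) - ((1 + a * m : ℕ) : ℤ)) := by
    constructor
    · intro h2
      exact dvd_sub (by exact_mod_cast hα) (by exact_mod_cast h2)
    · intro h2
      have h3 : (A : ℤ) ∣ ((1 + a * m : ℕ) : ℤ) := by
        have h4 : (A : ℤ) ∣ ((1 + α * m : ℕ) : ℤ) := by exact_mod_cast hα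
        have := dvd_sub h4 h2
        rwa [sub_sub_cancel] at this
      exact_mod_cast h3
  rw [h1]
  have h2 : ((1 + α * m : ℕ) : ℤ) - ((1 + a * m : ℕ) : ℤ) = ((α : ℤ) - a) * m := by
    push_cast; ring
  rw [h2]
  constructor
  · intro h3
    exact IsCoprime.dvd_of_dvd_mul_right (Nat.isCoprime_iff_coprime.2 h) h3
  · intro h3
    exact h3.mul_right _

theorem PairSieve_class {Y A B m n : ℕ} (hA : 0 < A) (hB : 0 < B) (hAB : Nat.Coprime A B)
    (hAm : Nat.Coprime A m) (hBn : Nat.Coprime B n) :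
    |(((Ioc 0 (0 + Y)).filter (fun a => A ∣ 1 + a * m ∧ B ∣ 1 + a * n)).card : ℝ)
      - (Y : ℝ) / ((A * B : ℕ) : ℝ)| ≤ 1 := by
  obtain ⟨α, hα⟩ := PairSieve_modEq hA hAm
  obtain ⟨β, hβ⟩ := PairSieve_modEq hB hBn
  obtain ⟨c, hc1, hc2⟩ := Nat.chineseRemainder hAB α β
  have hset : (Ioc 0 (0 + Y)).filter (fun a => A ∣ 1 + a * m ∧ B ∣ 1 + a * n)
      = (Ioc 0 (0 + Y)).filter (fun a => a ≡ c [MOD (A * B)]) := by
    apply Finset.filter_congr
    intro a _
    rw [hα, hβ, ← Nat.modEq_and_modEq_iff_modEq_mul hAB]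
    constructor
    · rintro ⟨h1, h2⟩
      exact ⟨h1.trans hc1.symm, h2.trans hc2.symm⟩
    · rintro ⟨h1, h2⟩
      exact ⟨h1.trans hc1, h2.trans hc2⟩
  rw [hset]
  exact abs_card_Ioc_modEq 0 Y (A * B) c (Nat.mul_pos hA hB)

theorem PairSieve_rho {m n k : ℕ} (hmn : m < n) (hk : Nat.Coprime k (m * n)) :
    selRho (pairR (2 * (n - m))) k = selRho (pairR (n - m)) k := by
  unfold selRho
  apply Finset.prod_congr rfl
  intro p hp
  have hpp := Nat.prime_of_mem_primeFactors hp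
  have hpk := Nat.dvd_of_mem_primeFactors hp
  have hiff : p ∣ 2 * (n - m) ↔ p ∣ n - m := by
    constructor
    · intro h
      rcases (Nat.Prime.dvd_mul hpp).1 h with h2 | h2
      · have hp2 : p = 2 := (Nat.prime_dvd_prime_iff_eq hpp Nat.prime_two).1 h2
        subst hp2
        have h3 : ¬ 2 ∣ m * n := by
          intro h4
          exact Nat.not_coprime_of_dvd_of_dvd (by norm_num) hpk h4 hk
        have h4 : ¬ 2 ∣ m := fun h5 => h3 (h5.mul_right n)
        have h5 : ¬ 2 ∣ n := fun h6 => h3 (h6.mul_left m)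
        omega
      · exact h2
    · intro h
      exact h.mul_left 2
  unfold pairR
  simp only [hiff]

theorem PairSieve_card {Y m n k : ℕ} (hmn : m < n) (hk : Squarefree k)
    (hkmn : Nat.Coprime k (m * n)) :
    |((((Ioc 0 (0 + Y)).filter (fun a => k ∣ (1 + a * m) * (1 + a * n))).card : ℕ) : ℝ)
      - (Y : ℝ) / selI (pairR (2 * (n - m))) k| ≤ selRho (pairR (2 * (n - m))) k := by
  set T := k.divisors.filter (fun A => Nat.gcd k (n - m) ∣ A) with hT
  have hk0 : k ≠ 0 := hk.ne_zero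
  have hkm : Nat.Coprime k m := Nat.Coprime.coprime_mul_right_right hkmn
  have hkn : Nat.Coprime k n := Nat.Coprime.coprime_mul_left_right hkmn
  have hsub : ∀ a : ℕ, 1 + a * n = (1 + a * m) + a * (n - m) := by
    intro a
    obtain ⟨t, rfl⟩ := Nat.exists_eq_add_of_lt hmn
    rw [show m + t + 1 - m = t + 1 by omega]
    ring
  have hmaps : ∀ a ∈ (Ioc 0 (0 + Y)).filter (fun a => k ∣ (1 + a * m) * (1 + a * n)),
      Nat.gcd k (1 + a * m) ∈ T := by
    intro a ha
    rw [Finset.mem_filter] at ha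
    obtain ⟨_, ha3⟩ := ha
    rw [hT, Finset.mem_filter, Nat.mem_divisors]
    refine ⟨⟨Nat.gcd_dvd_left k _, hk0⟩, ?_⟩
    apply Nat.dvd_gcd (Nat.gcd_dvd_left k _)
    have hsq : Squarefree (Nat.gcd k (n - m)) := hk.squarefree_of_dvd (Nat.gcd_dvd_left k _)
    rw [← Nat.prod_primeFactors_of_squarefree hsq]
    apply Finset.prod_primes_dvd
    · intro p hp
      exact (Nat.prime_of_mem_primeFactors hp).prime
    · intro p hp
      have hpp := Nat.prime_of_mem_primeFactors hp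
      have hpg := Nat.dvd_of_mem_primeFactors hp
      have hpm := hpg.trans (Nat.gcd_dvd_left k _)
      have hpS := hpg.trans (Nat.gcd_dvd_right k _)
      rcases (Nat.Prime.dvd_mul hpp).1 (hpm.trans ha3) with h | h
      · exact h
      · rw [hsub a] at h
        exact (Nat.dvd_add_left (hpS.mul_left a)).1 h
  rw [Finset.card_eq_sum_card_fiberwise hmaps]
  have hfib : ∀ A ∈ T, ((Ioc 0 (0 + Y)).filter (fun a => k ∣ (1 + a * m) * (1 + a * n))).filter
      (fun a => Nat.gcd k (1 + a * m) = A)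
      = (Ioc 0 (0 + Y)).filter (fun a => A ∣ 1 + a * m ∧ (k / A) ∣ 1 + a * n) := by
    intro A hA
    rw [hT, Finset.mem_filter, Nat.mem_divisors] at hA
    obtain ⟨⟨hA1, _⟩, hA2⟩ := hA
    obtain ⟨B, rfl⟩ := hA1
    have hA0 : 0 < A := by
      rcases Nat.eq_zero_or_pos A with h | h
      · rw [h, zero_mul] at hk0; exact absurd rfl hk0
      · exact h
    rw [Nat.mul_div_cancel_left B hA0]
    have hcop : Nat.Coprime A B := Nat.coprime_of_squarefree_mul hk
    ext a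
    simp only [Finset.mem_filter, Finset.mem_Ioc]
    constructor
    · rintro ⟨⟨h1, h3⟩, h4⟩
      refine ⟨h1, h4 ▸ Nat.gcd_dvd_right _ _, ?_⟩
      have h5 : Nat.Coprime B (1 + a * m) := by
        have h6 : Nat.gcd B (1 + a * m) ∣ A := by
          rw [← h4]
          exact Nat.dvd_gcd ((Nat.gcd_dvd_left B _).trans (Dvd.intro_left A rfl))
            (Nat.gcd_dvd_right B _)
        have h7 : Nat.gcd B (1 + a * m) ∣ Nat.gcd A B := Nat.dvd_gcd h6 (Nat.gcd_dvd_left B _)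
        rw [hcop] at h7
        exact Nat.dvd_one.1 h7
      have h8 : B ∣ (1 + a * m) * (1 + a * n) := (Dvd.intro_left A rfl : B ∣ A * B).trans h3
      exact Nat.Coprime.dvd_of_dvd_mul_left h5 h8
    · rintro ⟨h1, h3, h4⟩
      refine ⟨⟨h1, Nat.mul_dvd_mul h3 h4⟩, ?_⟩
      have h5 : Nat.Coprime B (1 + a * m) := by
        have h6 : Nat.gcd B (1 + a * m) ∣ n - m := by
          have h9 : Nat.gcd B (1 + a * m) ∣ a * (n - m) := by
            have h10 : Nat.gcd B (1 + a * m) ∣ 1 + a * n := (Nat.gcd_dvd_left B _).trans h4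
            rw [hsub a] at h10
            exact (Nat.dvd_add_right (Nat.gcd_dvd_right B _)).1 h10
          have h11 : Nat.Coprime (Nat.gcd B (1 + a * m)) a := by
            apply Nat.Coprime.coprime_dvd_left (Nat.gcd_dvd_right B _)
            have : Nat.Coprime (1 + a * m) a := by
              rw [Nat.coprime_add_mul_left_left]
              exact Nat.coprime_one_left a
            exact this
          exact Nat.Coprime.dvd_of_dvd_mul_left h11 h9
        have h7 : Nat.gcd B (1 + a * m) ∣ A :=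
          (Nat.dvd_gcd ((Nat.gcd_dvd_left B _).trans (Dvd.intro_left A rfl)) h6).trans hA2
        have h8 : Nat.gcd B (1 + a * m) ∣ Nat.gcd A B := Nat.dvd_gcd h7 (Nat.gcd_dvd_left B _)
        rw [hcop] at h8
        exact Nat.dvd_one.1 h8
      rw [Nat.Coprime.gcd_mul_right_cancel A h5]
      exact Nat.gcd_eq_left h3
  have hfib' : ∀ A ∈ T, |((((Ioc 0 (0 + Y)).filter
      (fun a => k ∣ (1 + a * m) * (1 + a * n))).filter
      (fun a => Nat.gcd k (1 + a * m) = A)).card : ℝ) - (Y : ℝ) / k| ≤ 1 := by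
    intro A hA
    rw [hfib A hA]
    rw [hT, Finset.mem_filter, Nat.mem_divisors] at hA
    obtain ⟨⟨hA1, _⟩, hA2⟩ := hA
    obtain ⟨B, hB⟩ := hA1
    have hA0 : 0 < A := by
      rcases Nat.eq_zero_or_pos A with h | h
      · rw [h, zero_mul] at hB; exact absurd hB hk0
      · exact h
    have hB0 : 0 < B := by
      rcases Nat.eq_zero_or_pos B with h | h
      · rw [h, mul_zero] at hB; exact absurd hB hk0
      · exact h
    have hAB : Nat.Coprime A B := by
      rw [hB] at hk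
      exact Nat.coprime_of_squarefree_mul hk
    have hdiv : k / A = B := by rw [hB, Nat.mul_div_cancel_left B hA0]
    rw [hdiv]
    have h1 := PairSieve_class (Y := Y) hA0 hB0 hAB
      (Nat.Coprime.coprime_dvd_left (Dvd.intro B hB.symm) hkm)
      (Nat.Coprime.coprime_dvd_left (Dvd.intro_left A hB.symm) hkn)
    rw [← hB] at h1
    exact h1
  have hrho := card_parts (S := n - m) hk
  rw [← hT] at hrho
  rw [← PairSieve_rho hmn hkmn] at hrho
  have hmain : (Y : ℝ) / selI (pairR (2 * (n - m))) k = ∑ A ∈ T, (Y : ℝ) / k := by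
    rw [selI_eq (pairR (2 * (n - m))) hk, Finset.sum_const, nsmul_eq_mul, hrho]
    have h2 : (0 : ℝ) < k := by exact_mod_cast Nat.pos_of_ne_zero hk0
    have h3 := one_le_selRho (pairR_adm (even_two_mul (n - m))) k
    field_simp
  rw [hmain]
  push_cast
  rw [← Finset.sum_sub_distrib]
  calc _ ≤ ∑ A ∈ T, |((((Ioc 0 (0 + Y)).filter
      (fun a => k ∣ (1 + a * m) * (1 + a * n))).filter
      (fun a => Nat.gcd k (1 + a * m) = A)).card : ℝ) - (Y : ℝ) / k| :=
        Finset.abs_sum_le_sum_abs _ _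
    _ ≤ ∑ A ∈ T, (1 : ℝ) := Finset.sum_le_sum hfib'
    _ = selRho (pairR (2 * (n - m))) k := by rw [Finset.sum_const, nsmul_eq_mul, mul_one, hrho]

theorem PairSieve_bound {Y m n R : ℕ} (hm : 0 < m) (hmn : m < n) (hR : 2 ≤ R) :
    (((Icc 1 Y).filter (fun a => (1 + a * m).Prime ∧ (1 + a * n).Prime)).card : ℝ) ≤
      R + (2 * (Y : ℝ) * (((m * n : ℕ) : ℝ) / Nat.totient (m * n)) ^ 2 *
        (((2 * (n - m) : ℕ) : ℝ) / Nat.totient (2 * (n - m))) / (Real.log R) ^ 2
        + ((R : ℝ) * (1 + Real.log R)) ^ 2) := by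
  have hr := pairR_adm (even_two_mul (n - m))
  have hR1 : 1 ≤ R := by omega
  have hS0 : 0 < 2 * (n - m) := by omega
  have hu : 0 < m * n := Nat.mul_pos hm (by omega)
  set S := 2 * (n - m) with hS
  set P : ℕ → ℕ := fun a => (1 + a * m) * (1 + a * n) with hP
  have hb := selberg_bound (r := pairR S) hr (D := m * n) hR1 (Ioc 0 (0 + Y)) P (Y : ℝ)
    (fun k hk hkmn => PairSieve_card hmn hk hkmn)
  have hsplit : (((Icc 1 Y).filter (fun a => (1 + a * m).Prime ∧ (1 + a * n).Prime)).card : ℝ)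
      ≤ R + (((Ioc 0 (0 + Y)).filter
        (fun a => R < a ∧ (1 + a * m).Prime ∧ (1 + a * n).Prime)).card : ℝ) := by
    have h1 : (Icc 1 Y).filter (fun a => (1 + a * m).Prime ∧ (1 + a * n).Prime)
        ⊆ Icc 1 R ∪ (Ioc 0 (0 + Y)).filter
        (fun a => R < a ∧ (1 + a * m).Prime ∧ (1 + a * n).Prime) := by
      intro a ha
      rw [Finset.mem_filter, Finset.mem_Icc] at ha
      rw [Finset.mem_union, Finset.mem_Icc, Finset.mem_filter, Finset.mem_Ioc]
      by_cases h : a ≤ R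
      · exact Or.inl ⟨ha.1.1, h⟩
      · exact Or.inr ⟨⟨by omega, by omega⟩, by omega, ha.2⟩
    have h2 := (Finset.card_le_card h1).trans (Finset.card_union_le _ _)
    rw [Nat.card_Icc, Nat.add_sub_cancel] at h2
    exact_mod_cast h2
  have h1 : (((Ioc 0 (0 + Y)).filter
        (fun a => R < a ∧ (1 + a * m).Prime ∧ (1 + a * n).Prime)).card : ℝ)
      ≤ ∑ a ∈ Ioc 0 (0 + Y),
        (∑ d ∈ sqf (m * n) R, if d ∣ P a then selLam (pairR S) (m * n) R d else 0) ^ 2 := by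
    have h2 : (((Ioc 0 (0 + Y)).filter
        (fun a => R < a ∧ (1 + a * m).Prime ∧ (1 + a * n).Prime)).card : ℝ)
        = ∑ a ∈ (Ioc 0 (0 + Y)).filter
        (fun a => R < a ∧ (1 + a * m).Prime ∧ (1 + a * n).Prime),
        (∑ d ∈ sqf (m * n) R, if d ∣ P a then selLam (pairR S) (m * n) R d else 0) ^ 2 := by
      rw [Finset.card_eq_sum_ones]
      push_cast
      apply Finset.sum_congr rfl
      intro q hq
      rw [Finset.mem_filter] at hq
      obtain ⟨_, hq3, hq4, hq5⟩ := hq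
      have : ∑ d ∈ sqf (m * n) R,
          (if d ∣ P q then selLam (pairR S) (m * n) R d else 0) = 1 := by
        rw [Finset.sum_eq_single 1]
        · simp [selLam_one hr hR1]
        · intro d hd hd1
          rw [if_neg]
          intro hdq
          obtain ⟨p, hp, hpd⟩ := Nat.exists_prime_and_dvd hd1
          have hd' := (mem_sqf.1 hd).1
          have hpR : p ≤ R := (Nat.le_of_dvd hd'.1 hpd).trans hd'.2
          have hqm : q ≤ q * m := Nat.le_mul_of_pos_right q hm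
          have hqn : q ≤ q * n := Nat.le_mul_of_pos_right q (by omega)
          rcases (Nat.Prime.dvd_mul hp).1 (hpd.trans hdq) with h | h
          · have := (Nat.prime_dvd_prime_iff_eq hp hq4).1 h
            omega
          · have := (Nat.prime_dvd_prime_iff_eq hp hq5).1 h
            omega
        · intro h
          exact absurd (one_mem_sqf hR1) h
      rw [this]; norm_num
    rw [h2]
    apply Finset.sum_le_sum_of_subset_of_nonneg (Finset.filter_subset _ _)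
    intro i _ _; positivity
  refine hsplit.trans ?_
  gcongr
  refine h1.trans (hb.trans ?_)
  have hlog : 0 < Real.log R := Real.log_pos (by exact_mod_cast hR)
  have hu' : (0 : ℝ) < ((m * n : ℕ) : ℝ) := by exact_mod_cast hu
  have hS' : (0 : ℝ) < (S : ℝ) := by exact_mod_cast hS0
  have hφu : (0 : ℝ) < Nat.totient (m * n) := by exact_mod_cast Nat.totient_pos.2 hu
  have hφS : (0 : ℝ) < Nat.totient S := by exact_mod_cast Nat.totient_pos.2 hS0
  have hG := selG_ge (u := m * n) (R := R) hu (even_two_mul (n - m)) hS0 hR1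
  rw [← hS] at hG
  have hG0 : 0 < ((Nat.totient (m * n) : ℝ) / ((m * n : ℕ) : ℝ)) ^ 2 *
      ((Nat.totient S : ℝ) / S) * (Real.log R) ^ 2 / 2 := by positivity
  apply add_le_add
  · calc (Y : ℝ) / selG (pairR S) (m * n) R
        ≤ (Y : ℝ) / (((Nat.totient (m * n) : ℝ) / ((m * n : ℕ) : ℝ)) ^ 2 *
          ((Nat.totient S : ℝ) / S) * (Real.log R) ^ 2 / 2) := by gcongr
      _ = 2 * (Y : ℝ) * (((m * n : ℕ) : ℝ) / Nat.totient (m * n)) ^ 2 *
        ((S : ℝ) / Nat.totient S) / (Real.log R) ^ 2 := by field_simp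
  · have h3 := sum_selRho_le (S := S) (u := m * n) (R := R)
    have h4 : 0 ≤ ∑ d ∈ sqf (m * n) R, selRho (pairR S) d :=
      Finset.sum_nonneg (fun d _ => by have := one_le_selRho hr d; linarith)
    gcongr

theorem PairSieve_one_le {a : ℕ} (ha : 0 < a) : (1 : ℝ) ≤ (a : ℝ) / a.totient := by
  have h : (0 : ℝ) < a.totient := by exact_mod_cast Nat.totient_pos.2 ha
  rw [le_div_iff₀ h, one_mul]
  exact_mod_cast Nat.totient_le a

theorem PairSieve_mul_le {a b : ℕ} (ha : 0 < a) (hb : 0 < b) :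
    ((a * b : ℕ) : ℝ) / (a * b).totient ≤ ((a : ℝ) / a.totient) * ((b : ℝ) / b.totient) := by
  have h1 : (0 : ℝ) < a.totient := by exact_mod_cast Nat.totient_pos.2 ha
  have h2 : (0 : ℝ) < b.totient := by exact_mod_cast Nat.totient_pos.2 hb
  have h3 : ((a.totient : ℝ)) * b.totient ≤ (a * b).totient := by
    exact_mod_cast Nat.totient_super_multiplicative a b
  rw [div_mul_div_comm]
  push_cast
  gcongr

/-- S1. `1 + a m` and `1 + a n` are both prime for few `a`. -/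
theorem pair_sieve : ∃ C : ℝ, 0 < C ∧ ∃ N₀ : ℕ, ∀ N ≥ N₀, ∀ m n : ℕ, 0 < m → m < n → n ≤ N ^ 3 →
    (((Icc 1 (2 * N)).filter (fun a => (1 + a * m).Prime ∧ (1 + a * n).Prime)).card : ℝ) ≤
      C * N / Real.log N ^ 2 * ((m : ℝ) / m.totient) ^ 2 * ((n : ℝ) / n.totient) ^ 2 *
        (((n - m : ℕ) : ℝ) / (n - m).totient) := by
  refine ⟨512 + 8 * 8 ^ 4, by norm_num, 16, ?_⟩
  intro N hN m n hm hmn _
  set R := Nat.sqrt (Nat.sqrt N) with hRdef
  have hR4 : R ^ 4 ≤ N := by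
    have h1 : R * R ≤ Nat.sqrt N := Nat.sqrt_le _
    have h2 : Nat.sqrt N * Nat.sqrt N ≤ N := Nat.sqrt_le _
    calc R ^ 4 = (R * R) * (R * R) := by ring
      _ ≤ Nat.sqrt N * Nat.sqrt N := Nat.mul_le_mul h1 h1
      _ ≤ N := h2
  have hR4' : N < (R + 1) ^ 4 := by
    have h1 : Nat.sqrt N < (R + 1) * (R + 1) := Nat.lt_succ_sqrt _
    have h2 : N < (Nat.sqrt N + 1) * (Nat.sqrt N + 1) := Nat.lt_succ_sqrt _
    calc N < (Nat.sqrt N + 1) * (Nat.sqrt N + 1) := h2
      _ ≤ ((R + 1) * (R + 1)) * ((R + 1) * (R + 1)) := Nat.mul_le_mul h1 h1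
      _ = (R + 1) ^ 4 := by ring
  have hR : 2 ≤ R := by
    by_contra h
    have h1 : R + 1 ≤ 2 := by omega
    have h2 : (R + 1) ^ 4 ≤ 2 ^ 4 := Nat.pow_le_pow_left h1 4
    omega
  have hNr : (16 : ℝ) ≤ N := by exact_mod_cast hN
  have hRr : (2 : ℝ) ≤ R := by exact_mod_cast hR
  have hL1 : (1 : ℝ) ≤ Real.log N := by
    rw [Real.le_log_iff_exp_le (by linarith)]
    have := Real.exp_one_lt_d9
    linarith
  have hlogR : Real.log N / 8 ≤ Real.log R := by
    have h1 : Real.log N ≤ Real.log (((R : ℝ) ^ 2) ^ 4) := by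
      apply Real.log_le_log (by linarith)
      have h2 : ((N : ℕ) : ℝ) ≤ ((R : ℝ) + 1) ^ 4 := by exact_mod_cast hR4'.le
      have h3 : (R : ℝ) + 1 ≤ (R : ℝ) ^ 2 := by nlinarith
      exact h2.trans (by gcongr)
    rw [Real.log_pow, Real.log_pow] at h1
    push_cast at h1
    linarith
  have hlogR' : Real.log R ≤ Real.log N := by
    apply Real.log_le_log (by linarith)
    have h1 : R ≤ R ^ 4 := Nat.le_self_pow (by norm_num) R
    exact_mod_cast h1.trans hR4
  have hlogR0 : 0 < Real.log R := lt_of_lt_of_le (by linarith) hlogR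
  have hφm := PairSieve_one_le hm
  have hφn := PairSieve_one_le (show 0 < n by omega)
  have hφd := PairSieve_one_le (show 0 < n - m by omega)
  set a : ℝ := (m : ℝ) / m.totient with ha
  set b : ℝ := (n : ℝ) / n.totient with hb
  set c : ℝ := ((n - m : ℕ) : ℝ) / (n - m).totient with hc
  have h0 := PairSieve_bound (Y := 2 * N) hm hmn hR
  have hmain1 : ((m * n : ℕ) : ℝ) / Nat.totient (m * n) ≤ a * b :=
    PairSieve_mul_le hm (by omega)
  have hmain2 : ((2 * (n - m) : ℕ) : ℝ) / Nat.totient (2 * (n - m)) ≤ 2 * c := by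
    have h1 := PairSieve_mul_le (show 0 < 2 by norm_num) (show 0 < n - m by omega)
    refine h1.trans ?_
    rw [Nat.totient_two]
    norm_num
    exact le_refl _
  -- the error term
  have herr : (R : ℝ) + ((R : ℝ) * (1 + Real.log R)) ^ 2 ≤ 8 * 8 ^ 4 * N / Real.log N ^ 2 := by
    have h1 : (R : ℝ) ≤ ((R : ℝ) * (1 + Real.log R)) ^ 2 := by
      have h2 : (1 : ℝ) ≤ 1 + Real.log R := by linarith
      have h3 : (R : ℝ) ≤ (R : ℝ) * (1 + Real.log R) := by nlinarith
      nlinarith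
    have h2 : ((R : ℝ) * (1 + Real.log R)) ^ 2 ≤ (R : ℝ) ^ 2 * (4 * Real.log N ^ 2) := by
      rw [mul_pow]
      have h3 : (1 + Real.log R) ^ 2 ≤ (2 * Real.log N) ^ 2 := by
        apply pow_le_pow_left₀ (by linarith)
        linarith
      nlinarith [sq_nonneg (R : ℝ)]
    have hR2 : (R : ℝ) ^ 2 ≤ (N : ℝ) ^ (1 / 2 : ℝ) := by
      have h3 : ((R : ℝ) ^ 2) ^ 2 ≤ N := by
        rw [← pow_mul]
        exact_mod_cast hR4
      have h4 : (R : ℝ) ^ 2 ≤ Real.sqrt N := Real.le_sqrt_of_sq_le h3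
      rwa [Real.sqrt_eq_rpow] at h4
    have hlog8 : Real.log N ^ 4 ≤ 8 ^ 4 * (N : ℝ) ^ (1 / 2 : ℝ) := by
      have h3 : Real.log N ≤ (N : ℝ) ^ (1 / 8 : ℝ) / (1 / 8 : ℝ) :=
        Real.log_le_rpow_div (by linarith) (by norm_num)
      have h4 : Real.log N ≤ 8 * (N : ℝ) ^ (1 / 8 : ℝ) := by linarith
      have h5 : Real.log N ^ 4 ≤ (8 * (N : ℝ) ^ (1 / 8 : ℝ)) ^ 4 :=
        pow_le_pow_left₀ (by linarith) h4 4
      rw [mul_pow, ← Real.rpow_natCast ((N : ℝ) ^ (1 / 8 : ℝ)) 4, ← Real.rpow_mul (by linarith)] at h5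
      norm_num at h5 ⊢
      exact h5
    have hNN : (N : ℝ) ^ (1 / 2 : ℝ) * (N : ℝ) ^ (1 / 2 : ℝ) = N := by
      rw [← Real.rpow_add (by linarith)]
      norm_num
    have hs0 : 0 ≤ (N : ℝ) ^ (1 / 2 : ℝ) := Real.rpow_nonneg (by linarith) _
    rw [le_div_iff₀ (by positivity)]
    calc ((R : ℝ) + ((R : ℝ) * (1 + Real.log R)) ^ 2) * Real.log N ^ 2
        ≤ (2 * ((R : ℝ) ^ 2 * (4 * Real.log N ^ 2))) * Real.log N ^ 2 := by
          gcongr
          linarith
      _ = 8 * (R : ℝ) ^ 2 * Real.log N ^ 4 := by ring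
      _ ≤ 8 * (N : ℝ) ^ (1 / 2 : ℝ) * (8 ^ 4 * (N : ℝ) ^ (1 / 2 : ℝ)) := by
          gcongr
      _ = 8 * 8 ^ 4 * ((N : ℝ) ^ (1 / 2 : ℝ) * (N : ℝ) ^ (1 / 2 : ℝ)) := by ring
      _ = 8 * 8 ^ 4 * N := by rw [hNN]
  have hmain : 2 * ((2 * N : ℕ) : ℝ) * (((m * n : ℕ) : ℝ) / Nat.totient (m * n)) ^ 2 *
        (((2 * (n - m) : ℕ) : ℝ) / Nat.totient (2 * (n - m))) / (Real.log R) ^ 2
      ≤ 512 * N / Real.log N ^ 2 * a ^ 2 * b ^ 2 * c := by
    calc 2 * ((2 * N : ℕ) : ℝ) * (((m * n : ℕ) : ℝ) / Nat.totient (m * n)) ^ 2 *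
        (((2 * (n - m) : ℕ) : ℝ) / Nat.totient (2 * (n - m))) / (Real.log R) ^ 2
        ≤ 2 * ((2 * N : ℕ) : ℝ) * (a * b) ^ 2 * (2 * c) / (Real.log N / 8) ^ 2 := by
          gcongr
      _ = 512 * N / Real.log N ^ 2 * a ^ 2 * b ^ 2 * c := by
          push_cast
          field_simp
          ring
  have hone : (1 : ℝ) ≤ a ^ 2 * b ^ 2 * c := by
    have h1 : (1 : ℝ) ≤ a ^ 2 := one_le_pow₀ hφm
    have h2 : (1 : ℝ) ≤ b ^ 2 := one_le_pow₀ hφn
    exact one_le_mul_of_one_le_of_one_le (one_le_mul_of_one_le_of_one_le h1 h2) hφd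
  have herr2 : 8 * 8 ^ 4 * N / Real.log N ^ 2
      ≤ 8 * 8 ^ 4 * N / Real.log N ^ 2 * (a ^ 2 * b ^ 2 * c) := by
    apply le_mul_of_one_le_right _ hone
    positivity
  calc _ ≤ _ := h0
    _ = ((R : ℝ) + ((R : ℝ) * (1 + Real.log R)) ^ 2) +
        2 * ((2 * N : ℕ) : ℝ) * (((m * n : ℕ) : ℝ) / Nat.totient (m * n)) ^ 2 *
        (((2 * (n - m) : ℕ) : ℝ) / Nat.totient (2 * (n - m))) / (Real.log R) ^ 2 := by ring
    _ ≤ 8 * 8 ^ 4 * N / Real.log N ^ 2 * (a ^ 2 * b ^ 2 * c) +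
        512 * N / Real.log N ^ 2 * a ^ 2 * b ^ 2 * c := by
        linarith
    _ = (512 + 8 * 8 ^ 4) * N / Real.log N ^ 2 * a ^ 2 * b ^ 2 * c := by ring

end Pool.Agent.ZH
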