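import Pool.Agent.Work.ZH.TupH

/-! # Cell ZH, module Tuples: the set of triples -/

namespace Pool.Agent.ZH

open Finset Pool.Agent.BV Pool.Agent.Work.MP_b30479_gt.Mertens
open scoped Classical

/-- the triples `((m, d), p)` before the removal -/
noncomputable def tupT (N : ℕ) (α : ℝ) (P₂ : ℕ) : Finset ((Σ _ : ℕ, ℕ) × ℕ) :=
  (tupPairs N α ×ˢ Ioc (PP N) P₂).filter
    (fun t => t.2.Prime ∧ t.1.2 ∣ t.2 - 1 ∧ t.1.1 ∣ t.2 + 1)

/-- `p` is bad if a large square divides `p² - 1` -/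
def tupBad (R : ℝ) (p : ℕ) : Prop := ∃ g : ℕ, R < g ∧ g ^ 2 ∣ (p - 1) * (p + 1)

lemma tupT_card (N : ℕ) (α : ℝ) (P₂ : ℕ) : ((tupT N α P₂).card : ℝ) =
    ∑ m ∈ tupM (RR (XX N α)), ∑ d ∈ tupD N m, (tupN (PP N) P₂ m d : ℝ) := by
  have h1 : (tupT N α P₂).card = ∑ q ∈ tupPairs N α, tupN (PP N) P₂ q.1 q.2 := by
    unfold tupT tupN
    rw [card_filter, sum_product]
    refine sum_congr rfl fun q _ => ?_
    rw [card_filter]
  rw [h1, tupPairs, sum_sigma]
  push_cast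
  rfl

lemma tupT_bad {N : ℕ} {α : ℝ} {P₂ : ℕ} {R V : ℝ} (hR : 2 ≤ R) (hV : 0 ≤ V)
    (h : ∀ p ∈ Ioc (PP N) P₂, p.Prime →
      ((p - 1).divisors.card : ℝ) * ((p + 1).divisors.card : ℝ) ≤ V) :
    (((tupT N α P₂).filter (fun t => tupBad R t.2)).card : ℝ) ≤
      V * (12 * (P₂ + 1) / Real.sqrt R) := by
  set B := (tupT N α P₂).filter (fun t => tupBad R t.2) with hB
  have h1 : B.card ≤ ⌊V⌋₊ * (B.image (fun t => t.2)).card := by
    refine card_le_mul_card_image B ⌊V⌋₊ fun p hp => ?_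
    obtain ⟨t₀, ht₀, rfl⟩ := mem_image.1 hp
    rw [hB, mem_filter, tupT, mem_filter, mem_product] at ht₀
    obtain ⟨⟨⟨_, hpI⟩, hpp, _, _⟩, _⟩ := ht₀
    refine Nat.le_floor (le_trans ?_ (h _ hpI hpp))
    have h2 : (B.filter (fun t => t.2 = t₀.2)).card ≤
        ((t₀.2 - 1).divisors ×ˢ (t₀.2 + 1).divisors).card := by
      refine card_le_card_of_injOn (fun t => (t.1.2, t.1.1)) ?_ ?_
      · intro t ht
        rw [mem_coe, mem_filter, hB, mem_filter, tupT, mem_filter] at ht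
        obtain ⟨⟨⟨_, _, hd, hm⟩, _⟩, he⟩ := ht
        rw [he] at hd hm
        simp only [coe_product, Set.mem_prod, mem_coe, Nat.mem_divisors]
        have := hpp.one_lt
        exact ⟨⟨hd, by omega⟩, ⟨hm, by omega⟩⟩
      · rintro ⟨⟨m, d⟩, p⟩ ht ⟨⟨m', d'⟩, p'⟩ ht' heq
        rw [mem_coe, mem_filter] at ht ht'
        have e1 : p = p' := ht.2.trans ht'.2.symm
        simp only [Prod.mk.injEq] at heq
        obtain ⟨e2, e3⟩ := heq
        subst e1; subst e2; subst e3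
        rfl
    rw [card_product] at h2
    exact_mod_cast h2
  have h2 : (B.image (fun t => t.2)).card ≤
      ((Icc 1 P₂).filter (fun p : ℕ => p.Prime ∧ ∃ g : ℕ, R < g ∧ g ^ 2 ∣ (p - 1) * (p + 1))).card := by
    refine card_le_card fun p hp => ?_
    obtain ⟨t, ht, rfl⟩ := mem_image.1 hp
    rw [hB, mem_filter, tupT, mem_filter, mem_product, mem_Ioc] at ht
    obtain ⟨⟨⟨_, hpI⟩, hpp, _, _⟩, hbad⟩ := ht
    rw [mem_filter, mem_Icc]
    exact ⟨⟨by have := hpp.pos; omega, hpI.2⟩, hpp, hbad⟩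
  have h3 : ((B.image (fun t => t.2)).card : ℝ) ≤ 12 * (P₂ + 1) / Real.sqrt R := by
    refine le_trans ?_ (tup_bad_count P₂ R hR)
    have h4 : ((B.image (fun t => t.2)).card : ℝ) ≤
      (((Icc 1 P₂).filter (fun p : ℕ => p.Prime ∧ ∃ g : ℕ, R < g ∧
        g ^ 2 ∣ (p - 1) * (p + 1))).card : ℝ) := by exact_mod_cast h2
    convert h4
  calc (B.card : ℝ) ≤ ((⌊V⌋₊ * (B.image (fun t => t.2)).card : ℕ) : ℝ) := by exact_mod_cast h1
    _ = (⌊V⌋₊ : ℝ) * ((B.image (fun t => t.2)).card : ℝ) := by push_cast; rfl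
    _ ≤ V * (12 * (P₂ + 1) / Real.sqrt R) :=
        mul_le_mul (Nat.floor_le hV) h3 (Nat.cast_nonneg _) hV

theorem thm_P (α ε : ℝ) (hα : 1 ≤ α) (hε : 0 < ε) (hε1 : ε ≤ 1) : ∃ c : ℝ, 0 < c ∧ ∃ N₀ : ℕ,
    ∀ N ≥ N₀, ∃ T : Finset (ℕ × ℕ × ℕ), (∀ t ∈ T, Tup N α ε t.1 t.2.1 t.2.2) ∧
      c * PP N / Real.log N ≤ (T.card : ℝ) := by
  obtain ⟨ε', hε'0, hε'ε, hε'5⟩ : ∃ ε' : ℝ, 0 < ε' ∧ ε' ≤ ε ∧ ε' ≤ 1 / 5 :=
    ⟨min ε (1 / 5), lt_min hε (by norm_num), min_le_left _ _, min_le_right _ _⟩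
  obtain ⟨c, hc, N₁, hmain⟩ := tup_main α ε' hα hε'0 hε'5
  obtain ⟨x₀, htau⟩ := small_tau 8
  obtain ⟨K, hK4, hKα, hKx, hKc⟩ : ∃ K : ℝ, 4 ≤ K ∧ α ≤ K ∧ (x₀ : ℝ) ≤ K ∧
      2304000000 / c ≤ K :=
    ⟨max (max 4 α) (max (x₀ : ℝ) (2304000000 / c)), le_trans (le_max_left _ _) (le_max_left _ _),
      le_trans (le_max_right _ _) (le_max_left _ _), le_trans (le_max_left _ _) (le_max_right _ _),
      le_trans (le_max_right _ _) (le_max_right _ _)⟩
  obtain ⟨N₂, hsz⟩ := tup_sizes α hα K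
  refine ⟨c / 2, by positivity, max N₁ N₂, fun N hN => ?_⟩
  have hS := hsz N (le_trans (le_max_right _ _) hN)
  have hm := hmain N (le_trans (le_max_left _ _) hN)
  clear hmain hsz
  obtain ⟨P₂, hP₂⟩ : ∃ P₂ : ℕ, P₂ = ⌊(1 + ε') * (PP N : ℝ)⌋₊ := ⟨_, rfl⟩
  rw [← hP₂, ← tupT_card] at hm
  have hR1 := tup_R_pos hS hK4
  have hlR := hS.logR
  have hlN := hS.logN
  have hNP := hS.NP
  have hlNR := hS.logNR
  have hxlo := hS.xlo
  obtain ⟨R, hR⟩ : ∃ R : ℝ, R = RR (XX N α) := ⟨_, rfl⟩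
  -- the good triples
  set G := (tupT N α P₂).filter (fun t => ¬ tupBad (RR (XX N α)) t.2) with hG
  have hGok : ∀ t ∈ G, Tup N α ε t.1.2 t.1.1 t.2 := by
    intro t ht
    rw [hG, mem_filter, tupT, mem_filter, mem_product, mem_Ioc, tupPairs, mem_sigma] at ht
    obtain ⟨⟨⟨⟨hmm, hd⟩, hlo, hhi⟩, hp, h1, h2⟩, hbad⟩ := ht
    have hphi : (t.2 : ℝ) ≤ (1 + ε') * PP N := by
      have h3 : (t.2 : ℝ) ≤ P₂ := by exact_mod_cast hhi
      refine h3.trans ?_
      rw [hP₂]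
      exact Nat.floor_le (mul_nonneg (by linarith) (Nat.cast_nonneg _))
    refine tup_ok hS hK4 hε'ε hε'5 hmm hd hp hlo hphi h1 h2 fun g hg => ?_
    by_contra hcon
    push Not at hcon
    exact hbad ⟨g, hcon, hg⟩
  refine ⟨G.image (fun t => (t.1.2, t.1.1, t.2)), ?_, ?_⟩
  · intro t ht
    obtain ⟨s, hs, rfl⟩ := mem_image.1 ht
    exact hGok s hs
  have hcard : (G.image (fun t => (t.1.2, t.1.1, t.2))).card = G.card := by
    refine card_image_of_injective _ ?_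
    rintro ⟨⟨m, d⟩, p⟩ ⟨⟨m', d'⟩, p'⟩ heq
    simp only [Prod.mk.injEq] at heq
    obtain ⟨e1, e2, e3⟩ := heq
    subst e1; subst e2; subst e3
    rfl
  rw [hcard]
  clear hcard hGok hS
  have hsplit : ((tupT N α P₂).card : ℝ) =
      (((tupT N α P₂).filter (fun t => tupBad (RR (XX N α)) t.2)).card : ℝ) + (G.card : ℝ) := by
    have := card_filter_add_card_filter_not (s := tupT N α P₂)
      (fun t : (Σ _ : ℕ, ℕ) × ℕ => tupBad (RR (XX N α)) t.2)
    rw [hG]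
    exact_mod_cast this.symm
  -- numbers
  have hNR : (0 : ℝ) < N := by
    rcases Nat.eq_zero_or_pos N with h | h
    · rw [h] at hlN; simp at hlN; linarith
    · exact_mod_cast h
  have hNlog : Real.log N + 1 ≤ N := by
    have := Real.log_le_sub_one_of_pos hNR
    linarith
  have hP0 : (0 : ℝ) < PP N := by linarith
  have hP20 : (20 : ℝ) ≤ PP N := by linarith
  have hP2hi : (P₂ : ℝ) + 1 ≤ 3 * PP N := by
    have h1 : (P₂ : ℝ) ≤ (1 + ε') * PP N := by
      rw [hP₂]; exact Nat.floor_le (by positivity)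
    nlinarith
  have hxP : (PP N : ℝ) ≤ XX N α := by
    refine le_trans ?_ hxlo
    rw [le_div_iff₀ (by linarith)]
    have : 2 * α ≤ PP N := by linarith
    nlinarith
  rw [← hR] at hsplit hR1 hlR hlNR
  have hlR4 : 4 ≤ Real.log R := hK4.trans hlR
  have hRlog : Real.log R + 1 ≤ R := by
    have := Real.log_le_sub_one_of_pos (by linarith : 0 < R)
    linarith
  have hx1 : (1 : ℝ) ≤ XX N α := by linarith
  have hRx : R ≤ XX N α := by
    rw [hR]
    unfold RR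
    calc (XX N α : ℝ) ^ (1 / 1000000 : ℝ) ≤ (XX N α : ℝ) ^ (1 : ℝ) :=
          Real.rpow_le_rpow_of_exponent_le hx1 (by norm_num)
      _ = _ := Real.rpow_one _
  have hx0x : x₀ ≤ XX N α := by
    have : (x₀ : ℝ) ≤ XX N α := by linarith
    exact_mod_cast this
  have hsize : ∀ n : ℕ, n ≤ P₂ + 1 → n ≤ XX N α ^ 4 := by
    intro n hn
    have h1 : (n : ℝ) ≤ P₂ + 1 := by exact_mod_cast hn
    have h2 : (n : ℝ) ≤ (XX N α : ℝ) ^ 4 := by
      have h3 : (20 : ℝ) ≤ XX N α := by linarith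
      have h4 : (3 : ℝ) * PP N ≤ 20 * XX N α := by linarith
      have h5 : (20 : ℝ) * XX N α ≤ (XX N α : ℝ) ^ 4 := by
        have h6 : (20 : ℝ) * XX N α ≤ (XX N α : ℝ) ^ 2 := by nlinarith
        refine h6.trans (pow_le_pow_right₀ hx1 (by norm_num))
      linarith
    exact_mod_cast h2
  -- the bound for the multiplicity
  set V : ℝ := Real.sqrt (Real.sqrt R) with hV
  have hR0 : 0 ≤ R := by linarith
  have hV0 : 0 < V := Real.sqrt_pos.2 (Real.sqrt_pos.2 (by linarith))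
  have hV2 : V ^ 2 = Real.sqrt R := Real.sq_sqrt (Real.sqrt_nonneg R)
  have hV4 : V ^ 4 = R := by
    calc V ^ 4 = (V ^ 2) ^ 2 := by ring
      _ = R := by rw [hV2, Real.sq_sqrt hR0]
  have hmult : ∀ p ∈ Ioc (PP N) P₂, p.Prime →
      ((p - 1).divisors.card : ℝ) * ((p + 1).divisors.card : ℝ) ≤ V := by
    intro p hp hpp
    have hp2 := (mem_Ioc.1 hp).2
    have h1 := htau (XX N α) hx0x (p - 1) (by have := hpp.one_lt; omega) (hsize _ (by omega))
    have h2 := htau (XX N α) hx0x (p + 1) (by omega) (hsize _ (by omega))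
    rw [← hR] at h1 h2
    have h3 : (((p - 1).divisors.card : ℝ) * ((p + 1).divisors.card : ℝ)) ^ 8 ≤ V ^ 8 := by
      rw [mul_pow]
      calc ((p - 1).divisors.card : ℝ) ^ 8 * ((p + 1).divisors.card : ℝ) ^ 8 ≤ R * R :=
            mul_le_mul h1 h2 (by positivity) hR0
        _ = V ^ 8 := by rw [← hV4]; ring
    exact le_of_pow_le_pow_left₀ (by norm_num) hV0.le h3
  have hbad := tupT_bad (N := N) (α := α) (P₂ := P₂) (R := R) (V := V) (by linarith) hV0.le hmult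
  -- V ≥ (log R)² / 32
  have hlV : Real.log V = Real.log R / 4 := by
    have : Real.log R = 4 * Real.log V := by
      rw [← hV4, Real.log_pow]; norm_num
    linarith
  have hVlow : Real.log R ^ 2 / 32 ≤ V := by
    have h1 := Real.quadratic_le_exp_of_nonneg (x := Real.log V) (by rw [hlV]; linarith)
    rw [Real.exp_log hV0, hlV] at h1
    nlinarith
  have hbad2 : V * (12 * (P₂ + 1) / Real.sqrt R) ≤ 36 * PP N / V := by
    rw [← hV2, mul_div_assoc', div_le_div_iff₀ (by positivity) hV0]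
    calc V * (12 * ((P₂ : ℝ) + 1)) * V ≤ V * (12 * (3 * PP N)) * V := by gcongr
      _ = _ := by ring
  have hlN0 : 0 < Real.log N := by linarith
  have hfin : 36 * PP N / V ≤ c / 2 * PP N / Real.log N := by
    rw [div_le_div_iff₀ hV0 hlN0]
    have h1 : 2304000000 ≤ c * Real.log R := by
      have h2 : 2304000000 / c ≤ Real.log R := hKc.trans hlR
      rw [div_le_iff₀ hc] at h2
      linarith
    calc 36 * (PP N : ℝ) * Real.log N ≤ 36 * PP N * (1000000 * Real.log R) := by gcongr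
      _ = 2304000000 * Real.log R * (PP N / 64) := by ring
      _ ≤ (c * Real.log R) * Real.log R * (PP N / 64) := by gcongr
      _ = c / 2 * PP N * (Real.log R ^ 2 / 32) := by ring
      _ ≤ c / 2 * PP N * V := by gcongr
  have hmm : c * (PP N : ℝ) / Real.log N = c / 2 * PP N / Real.log N + c / 2 * PP N / Real.log N := by
    ring
  rw [hmm] at hm
  linarith

end Pool.Agent.ZH
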