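import Pool.Agent.Work.ZH.ThmSOf
import Pool.Agent.Work.ZH.EQ2
import Pool.Agent.Work.ZH.D.Box
import Pool.Agent.Work.ZH.Tuples
import Pool.Agent.Work.ZH.DensT
import Pool.Agent.Work.ZH.PairSieve
import Pool.Agent.Work.ZH.AvgG

/-! Section F: the theorem. -/

namespace Pool.Agent.ZH

theorem thm_S : StS := thm_S_of pair_sieve avg_G

theorem thm_Q : StQ := fun A C₁ κ hκ hκ1 => thm_EQ_of thm_box A C₁ κ hκ hκ1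

theorem final (α β : ℝ) (hα : 1 ≤ α) (hαβ : α < β) : ∃ c : ℝ, 0 < c ∧ ∃ N₀ : ℕ, ∀ N ≥ N₀,
    c * (N : ℝ) ^ 2 ≤ (Set.ncard {r : ℚ | α < r ∧ (r : ℝ) < β ∧ r.num ≤ N ∧
      ∃ F : Finset (ℕ × ℕ), (N : ℝ) ^ (1 / 1000000000 : ℝ) ≤ F.card ∧
        ∀ t ∈ F, t.1.Prime ∧ t.2.Prime ∧ r = ((t.1 : ℚ) ^ 2 - 1) / ((t.2 : ℚ) - 1)} : ℝ) :=
  final_of thm_P dens_T thm_Q thm_S α β hα hαβ

end Pool.Agent.ZH
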