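import Pool.Agent.Work.ZH.Defs

/-! Section F: the final assembly. The statements of `thm_P`, `dens_T`, `thm_EQ`, `thm_S` enter as the hypotheses
`StP`, `StD`, `StQ`, `StS`; the theorem `final` is `final_of thm_P dens_T thm_EQ thm_S`. -/

set_option linter.style.longLine false
set_option linter.unusedVariables false

open Finset

namespace Pool.Agent.ZH

/-- statement of `thm_P` -/
def StP : Prop := ∀ (α ε : ℝ) (hα : 1 ≤ α) (hε : 0 < ε) (hε1 : ε ≤ 1), ∃ c : ℝ, 0 < c ∧ ∃ N₀ : ℕ, ∀ N ≥ N₀,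
    ∃ T : Finset (ℕ × ℕ × ℕ), (∀ t ∈ T, Tup N α ε t.1 t.2.1 t.2.2) ∧
      c * PP N / Real.log N ≤ (T.card : ℝ)

/-- statement of `dens_T` -/
def StD : Prop := ∀ (α ε : ℝ) (hα : 1 ≤ α) (hε : 0 < ε) (hε1 : ε ≤ 1), ∃ C₁ N₀ : ℕ, ∀ N ≥ N₀,
    ∀ T : Finset (ℕ × ℕ × ℕ), (∀ t ∈ T, Tup N α ε t.1 t.2.1 t.2.2) →
    Set.InjOn (fun t : ℕ × ℕ × ℕ => ((t.2.2 - 1) / t.1, t.2.1)) T ∧
    Dens (XX N α) (N / PP N) C₁ (T.image (fun t => ((t.2.2 - 1) / t.1, t.2.1))) (fun _ => 1) ∧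
    1 ≤ ((N : ℝ) / PP N) ^ 4 * RR (XX N α) ∧ (N : ℝ) / PP N ≤ 1

/-- statement of `thm_EQ` -/
def StQ : Prop := ∀ (A C₁ : ℕ) (κ : ℝ) (hκ : 0 < κ) (hκ1 : κ < 1), ∃ x₀ : ℕ, ∀ x ≥ x₀, ∀ ρ : ℝ,
    1 ≤ ρ ^ 4 * RR x → ρ ≤ 1 → 0 < ρ → ∀ (S : Finset (ℕ × ℕ)) (c : ℕ × ℕ → ℝ), Dens x ρ C₁ S c →
    9 / 20 * (1 - κ) * (x / Real.log x) * ∑ i ∈ S, c i / ((i.1 * i.2).totient : ℝ) - ρ * x / Real.log x ^ A ≤
      ∑ i ∈ S, c i * ((pi1 x (i.1 * i.2) : ℝ) - pi1 ⌊κ * x⌋₊ (i.1 * i.2))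

/-- statement of `thm_S` -/
def StS : Prop := ∃ C : ℝ, 0 < C ∧ ∃ N₀ : ℕ, ∀ N ≥ N₀, ∀ S : ℕ → Finset ℕ,
    (∀ d, ∀ p ∈ S d, p.Prime ∧ PP N < p ∧ p ≤ 2 * PP N ∧
      ∃ d₁ : ℕ, d₁.Prime ∧ (N : ℝ) ^ (1 / 5 : ℝ) ≤ d₁ ∧ d₁ ∣ d ∧ d₁ ∣ p - 1 ∧ (d / d₁) ∣ p + 1) →
    ∑ d ∈ Ioc N (2 * N), ∑ a ∈ Icc 1 (2 * N),
      (((S d).filter (fun p => (1 + a * ((p ^ 2 - 1) / d)).Prime)).card : ℝ) ^ 2 ≤
      C * (PP N : ℝ) ^ 2 / Real.log N ^ 4

/-! ### arithmetic of the tuples -/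

/-- `b = d (p + 1) / m` -/
def tb (t : ℕ × ℕ × ℕ) : ℕ := t.1 * ((t.2.2 + 1) / t.2.1)
/-- the modulus -/
def tM (t : ℕ × ℕ × ℕ) : ℕ := (t.2.2 - 1) / t.1 * t.2.1

theorem tb_mul_tM {N : ℕ} {α ε : ℝ} {t : ℕ × ℕ × ℕ} (h : Tup N α ε t.1 t.2.1 t.2.2) : tb t * tM t = t.2.2 ^ 2 - 1 := by
  have h1 : t.1 * ((t.2.2 - 1) / t.1) = t.2.2 - 1 := Nat.mul_div_cancel' h.dvd₁
  have h2 : t.2.1 * ((t.2.2 + 1) / t.2.1) = t.2.2 + 1 := Nat.mul_div_cancel' h.dvd₂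
  have h3 : t.2.2 ^ 2 - 1 = (t.2.2 + 1) * (t.2.2 - 1) := by
    have := Nat.sq_sub_sq t.2.2 1
    simpa using this
  unfold tb tM
  rw [h3, ← h2, ← h1]
  rw [h1, h2]
  calc t.1 * ((t.2.2 + 1) / t.2.1) * ((t.2.2 - 1) / t.1 * t.2.1)
      = (t.2.1 * ((t.2.2 + 1) / t.2.1)) * (t.1 * ((t.2.2 - 1) / t.1)) := by ring
    _ = (t.2.2 + 1) * (t.2.2 - 1) := by rw [h1, h2]

theorem tb_pos {N : ℕ} {α ε : ℝ} {t : ℕ × ℕ × ℕ} (h : Tup N α ε t.1 t.2.1 t.2.2) : 0 < tb t :=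
  lt_of_le_of_lt (Nat.zero_le _) h.lo

theorem tb_div {N : ℕ} {α ε : ℝ} {t : ℕ × ℕ × ℕ} (h : Tup N α ε t.1 t.2.1 t.2.2) :
    (t.2.2 ^ 2 - 1) / tb t = tM t := by
  rw [← tb_mul_tM h]; exact Nat.mul_div_cancel_left _ (tb_pos h)

theorem tb_mem {N : ℕ} {α ε : ℝ} {t : ℕ × ℕ × ℕ} (h : Tup N α ε t.1 t.2.1 t.2.2) : tb t ∈ Ioc N (2 * N) := by
  rw [mem_Ioc]; exact ⟨h.lo, h.hi⟩

theorem tp_le {N : ℕ} {α ε : ℝ} (hε1 : ε ≤ 1) {t : ℕ × ℕ × ℕ} (h : Tup N α ε t.1 t.2.1 t.2.2) :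
    t.2.2 ≤ 2 * PP N := by
  have h1 := h.phi
  have h2 : (0 : ℝ) ≤ PP N := Nat.cast_nonneg _
  have : (t.2.2 : ℝ) ≤ 2 * PP N := by nlinarith
  exact_mod_cast this

theorem tM_pos {N : ℕ} {α ε : ℝ} {t : ℕ × ℕ × ℕ} (h : Tup N α ε t.1 t.2.1 t.2.2) : 0 < tM t := by
  have h1 := tb_mul_tM h
  have h2 : 0 < t.2.2 ^ 2 - 1 := by
    have := h.pprime.one_lt
    have : 1 < t.2.2 ^ 2 := Nat.one_lt_pow two_ne_zero this
    omega
  rw [← h1] at h2
  exact Nat.pos_of_mul_pos_left h2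

/-- `M ≤ 4 P² / N` -/
theorem tM_le {N : ℕ} {α ε : ℝ} (hε1 : ε ≤ 1) {t : ℕ × ℕ × ℕ} (h : Tup N α ε t.1 t.2.1 t.2.2) :
    N * tM t ≤ 4 * PP N ^ 2 := by
  have h1 := tb_mul_tM h
  have h2 := tp_le hε1 h
  calc N * tM t ≤ tb t * tM t := Nat.mul_le_mul_right _ (mem_Ioc.1 (tb_mem h)).1.le
    _ = t.2.2 ^ 2 - 1 := h1
    _ ≤ t.2.2 ^ 2 := Nat.sub_le _ _
    _ ≤ (2 * PP N) ^ 2 := Nat.pow_le_pow_left h2 2
    _ = 4 * PP N ^ 2 := by ring

/-- few large prime divisors -/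
theorem few_large {N b : ℕ} (hN : 32 < N) (hb : 0 < b) (hb2 : b ≤ 2 * N) :
    (b.primeFactors.filter (fun d : ℕ => (N : ℝ) ^ (1 / 5 : ℝ) ≤ d)).card ≤ 5 := by
  by_contra hcon
  push Not at hcon
  set F := b.primeFactors.filter (fun d : ℕ => (N : ℝ) ^ (1 / 5 : ℝ) ≤ d) with hF
  have hN0 : (0 : ℝ) < N := by exact_mod_cast (by omega : 0 < N)
  have hN1 : (1 : ℝ) ≤ N := by exact_mod_cast (by omega : 1 ≤ N)
  have h1 : ∏ d ∈ F, d ∣ b := by
    have h2 : ∏ d ∈ F, d ∣ ∏ d ∈ b.primeFactors, d := prod_dvd_prod_of_subset _ _ _ (filter_subset _ _)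
    exact h2.trans (Nat.prod_primeFactors_dvd b)
  have h3 : ((N : ℝ) ^ (1 / 5 : ℝ)) ^ F.card ≤ ∏ d ∈ F, (d : ℝ) := by
    rw [← prod_const]
    apply prod_le_prod
    · intro _ _; positivity
    · intro d hd
      exact (mem_filter.1 hd).2
  have h4 : (∏ d ∈ F, (d : ℝ)) ≤ 2 * N := by
    have := Nat.le_of_dvd hb h1
    have h5 : ∏ d ∈ F, d ≤ 2 * N := this.trans hb2
    calc (∏ d ∈ F, (d : ℝ)) = ((∏ d ∈ F, d : ℕ) : ℝ) := by push_cast; rfl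
      _ ≤ ((2 * N : ℕ) : ℝ) := by exact_mod_cast h5
      _ = 2 * N := by push_cast; ring
  have h6 : ((N : ℝ) ^ (1 / 5 : ℝ)) ^ 6 ≤ ((N : ℝ) ^ (1 / 5 : ℝ)) ^ F.card :=
    pow_le_pow_right₀ (Real.one_le_rpow hN1 (by norm_num)) hcon
  have h7 : ((N : ℝ) ^ (1 / 5 : ℝ)) ^ 5 = N := by
    rw [← Real.rpow_natCast, ← Real.rpow_mul hN0.le]; norm_num
  have h8 : (2 : ℝ) < (N : ℝ) ^ (1 / 5 : ℝ) := by
    by_contra h
    push Not at h
    have h9 : ((N : ℝ) ^ (1 / 5 : ℝ)) ^ 5 ≤ 2 ^ 5 := pow_le_pow_left₀ (by positivity) h 5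
    rw [h7] at h9
    have h10 : (N : ℝ) ≤ 32 := by linarith
    have h11 : N ≤ 32 := by exact_mod_cast h10
    omega
  have h12 : ((N : ℝ) ^ (1 / 5 : ℝ)) ^ 6 = N * (N : ℝ) ^ (1 / 5 : ℝ) := by
    rw [pow_succ, h7]
  nlinarith

/-- few tuples for given `b`, `p` -/
theorem fiber_le {N : ℕ} {α ε : ℝ} (hN : 32 < N) (T : Finset (ℕ × ℕ × ℕ)) (hT : ∀ t ∈ T, Tup N α ε t.1 t.2.1 t.2.2)
    (b p : ℕ) : (T.filter (fun t => (tb t, t.2.2) = (b, p))).card ≤ 5 := by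
  by_cases hb : b ∈ Ioc N (2 * N)
  · rw [mem_Ioc] at hb
    refine le_trans ?_ (few_large hN (by omega : 0 < b) hb.2)
    apply card_le_card_of_injOn (fun t => t.1)
    · intro t ht
      simp only [coe_filter, Set.mem_ofPred_eq, mem_filter, Prod.mk.injEq] at ht ⊢
      have h := hT t ht.1
      refine ⟨?_, h.dlo⟩
      rw [Nat.mem_primeFactors]
      refine ⟨h.dprime, ?_, by omega⟩
      rw [← ht.2.1]
      exact dvd_mul_right _ _
    · intro t ht s hs hts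
      simp only [coe_filter, Set.mem_ofPred_eq, Prod.mk.injEq] at ht hs
      obtain ⟨d, m, p'⟩ := t
      obtain ⟨d', m', p''⟩ := s
      have h := hT _ ht.1
      have h' := hT _ hs.1
      simp only at hts ht hs h h'
      subst hts
      obtain ⟨_, hb1, rfl⟩ := ht
      obtain ⟨_, hb2, rfl⟩ := hs
      unfold tb at hb1 hb2
      simp only at hb1 hb2
      have e1 : (p'' + 1) / m = (p'' + 1) / m' := by
        have : d * ((p'' + 1) / m) = d * ((p'' + 1) / m') := by rw [hb1, hb2]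
        exact Nat.eq_of_mul_eq_mul_left h.dprime.pos this
      have e2 : m = (p'' + 1) / ((p'' + 1) / m) := (Nat.div_div_self h.dvd₂ (by omega)).symm
      have e3 : m' = (p'' + 1) / ((p'' + 1) / m') := (Nat.div_div_self h'.dvd₂ (by omega)).symm
      have e4 : m = m' := by rw [e2, e1, ← e3]
      rw [e4]
  · have : T.filter (fun t => (tb t, t.2.2) = (b, p)) = ∅ := by
      rw [filter_eq_empty_iff]
      intro t ht he
      simp only [Prod.mk.injEq] at he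
      exact hb (he.1 ▸ tb_mem (hT t ht))
    rw [this]; simp

/-! ### the first moment -/

/-- the primes `p` of the tuples with given `b` -/
def SS (T : Finset (ℕ × ℕ × ℕ)) (b : ℕ) : Finset ℕ := (T.filter (fun t => tb t = b)).image (fun t => t.2.2)

/-- `q = 1 + a (p² - 1) / b` is a prime in `(k, x]` -/
def Qc (k x b a p : ℕ) : Prop :=
  (1 + a * ((p ^ 2 - 1) / b)).Prime ∧ k < 1 + a * ((p ^ 2 - 1) / b) ∧ 1 + a * ((p ^ 2 - 1) / b) ≤ x

open Classical in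
/-- number of `a` -/
noncomputable def HH (N k x b p : ℕ) : ℕ := ((Icc 1 (2 * N)).filter (fun a => Qc k x b a p)).card

open Classical in
/-- number of `p` -/
noncomputable def gg (T : Finset (ℕ × ℕ × ℕ)) (k x b a : ℕ) : ℕ := ((SS T b).filter (fun p => Qc k x b a p)).card

theorem sum_gg (T : Finset (ℕ × ℕ × ℕ)) (N k x : ℕ) :
    ∑ b ∈ Ioc N (2 * N), ∑ a ∈ Icc 1 (2 * N), gg T k x b a = ∑ b ∈ Ioc N (2 * N), ∑ p ∈ SS T b, HH N k x b p := by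
  classical
  apply sum_congr rfl
  intro b _
  unfold gg HH
  simp only [card_filter]
  exact sum_comm

theorem pi1_le_HH {N k : ℕ} {α ε : ℝ} (hα : 1 ≤ α) {t : ℕ × ℕ × ℕ} (h : Tup N α ε t.1 t.2.1 t.2.2) :
    pi1 (XX N α) (tM t) ≤ pi1 k (tM t) + HH N k (XX N α) (tb t) t.2.2 := by
  classical
  unfold HH Qc
  rw [tb_div h]
  unfold pi1
  have hM := tM_pos h
  have hsub : (Icc 1 (XX N α)).filter (fun q => q.Prime ∧ q ≡ 1 [MOD tM t]) ⊆
      (Icc 1 k).filter (fun q => q.Prime ∧ q ≡ 1 [MOD tM t]) ∪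
      ((Icc 1 (2 * N)).filter (fun a => (1 + a * tM t).Prime ∧ k < 1 + a * tM t ∧ 1 + a * tM t ≤ XX N α)).image
        (fun a => 1 + a * tM t) := by
    intro q hq
    rw [mem_filter, mem_Icc] at hq
    rw [mem_union]
    by_cases hk : q ≤ k
    · left
      rw [mem_filter, mem_Icc]
      exact ⟨⟨hq.1.1, hk⟩, hq.2⟩
    · right
      rw [mem_image]
      have hd : tM t ∣ q - 1 := (Nat.modEq_iff_dvd' hq.1.1).1 hq.2.2.symm
      obtain ⟨a, ha⟩ := hd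
      have hq2 := hq.2.1.two_le
      have e : 1 + a * tM t = q := by rw [mul_comm, ← ha]; omega
      refine ⟨a, ?_, e⟩
      rw [mem_filter, mem_Icc, e]
      refine ⟨⟨?_, ?_⟩, hq.2.1, by omega, hq.1.2⟩
      · rcases Nat.eq_zero_or_pos a with h0 | h0
        · rw [h0, mul_zero] at ha; omega
        · exact h0
      · -- `a M < p² - 1 = b M`
        have h1 : a * tM t < tb t * tM t := by
          rw [tb_mul_tM h]
          have h2 : a * tM t = q - 1 := by omega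
          have h3 : q ≤ PP N ^ 2 := by
            have h4 : (XX N α : ℝ) ≤ (PP N : ℝ) ^ 2 / α := Nat.floor_le (by positivity)
            have h5 : (PP N : ℝ) ^ 2 / α ≤ (PP N : ℝ) ^ 2 := div_le_self (by positivity) hα
            have h6 : ((XX N α : ℕ) : ℝ) ≤ ((PP N ^ 2 : ℕ) : ℝ) := by push_cast; linarith
            exact hq.1.2.trans (by exact_mod_cast h6)
          have h7 : PP N ^ 2 < t.2.2 ^ 2 := Nat.pow_lt_pow_left h.plo two_ne_zero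
          omega
        have h8 := lt_of_mul_lt_mul_right h1 (Nat.zero_le _)
        have h9 := (mem_Ioc.1 (tb_mem h)).2
        omega
  refine (card_le_card hsub).trans ((card_union_le _ _).trans ?_)
  refine (Nat.add_le_add_left card_image_le _).trans (le_of_eq ?_)
  congr!

theorem sum_HH_le {N k x : ℕ} {α ε : ℝ} (hN : 32 < N) (T : Finset (ℕ × ℕ × ℕ))
    (hT : ∀ t ∈ T, Tup N α ε t.1 t.2.1 t.2.2) :
    ∑ t ∈ T, HH N k x (tb t) t.2.2 ≤ 5 * ∑ b ∈ Ioc N (2 * N), ∑ p ∈ SS T b, HH N k x b p := by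
  classical
  have h1 : ∑ t ∈ T, HH N k x (tb t) t.2.2 =
      ∑ y ∈ T.image (fun t => (tb t, t.2.2)), (T.filter (fun t => (tb t, t.2.2) = y)).card * HH N k x y.1 y.2 := by
    rw [sum_comp (fun y : ℕ × ℕ => HH N k x y.1 y.2) (fun t : ℕ × ℕ × ℕ => (tb t, t.2.2))]
    rfl
  have h2 : ∑ y ∈ T.image (fun t => (tb t, t.2.2)), HH N k x y.1 y.2 =
      ∑ b ∈ Ioc N (2 * N), ∑ p ∈ SS T b, HH N k x b p := by
    rw [← sum_fiberwise_of_maps_to (s := T.image (fun t => (tb t, t.2.2))) (t := Ioc N (2 * N)) (g := fun y => y.1)]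
    · apply sum_congr rfl
      intro b _
      have e : SS T b = ((T.image (fun t => (tb t, t.2.2))).filter (fun y => y.1 = b)).image (fun y => y.2) := by
        ext p
        simp only [SS, mem_image, mem_filter, Prod.exists]
        constructor
        · rintro ⟨d, m, p', ⟨h3, h4⟩, h5⟩
          exact ⟨b, p, ⟨⟨d, m, p', h3, by rw [h4]; exact congrArg (Prod.mk b) h5⟩, rfl⟩, rfl⟩
        · rintro ⟨b', p', ⟨⟨d, m, p'', h3, h4⟩, h5⟩, h6⟩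
          simp only [Prod.mk.injEq] at h4
          refine ⟨d, m, p'', ⟨h3, ?_⟩, ?_⟩
          · rw [h4.1]; exact h5
          · exact h4.2.trans h6
      rw [e, sum_image]
      · apply sum_congr rfl
        intro y hy
        rw [(mem_filter.1 hy).2]
      · intro y hy z hz hyz
        simp only [coe_filter, Set.mem_ofPred_eq] at hy hz
        exact Prod.ext (hy.2.trans hz.2.symm) hyz
    · intro y hy
      rw [mem_image] at hy
      obtain ⟨t, ht, rfl⟩ := hy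
      exact tb_mem (hT t ht)
  rw [h1, ← h2, mul_sum]
  apply sum_le_sum
  intro y _
  exact Nat.mul_le_mul_right _ (fiber_le hN T hT y.1 y.2)

/-- the combinatorial part of the first moment -/
theorem first_moment_comb {N k : ℕ} {α ε : ℝ} (hα : 1 ≤ α) (hN : 32 < N) (T : Finset (ℕ × ℕ × ℕ))
    (hT : ∀ t ∈ T, Tup N α ε t.1 t.2.1 t.2.2) :
    ∑ t ∈ T, ((pi1 (XX N α) (tM t) : ℝ) - pi1 k (tM t)) ≤
      5 * ∑ b ∈ Ioc N (2 * N), ∑ a ∈ Icc 1 (2 * N), (gg T k (XX N α) b a : ℝ) := by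
  have h1 : ∑ t ∈ T, ((pi1 (XX N α) (tM t) : ℝ) - pi1 k (tM t)) ≤
      ((∑ t ∈ T, HH N k (XX N α) (tb t) t.2.2 : ℕ) : ℝ) := by
    push_cast
    apply sum_le_sum
    intro t ht
    have := pi1_le_HH (k := k) hα (hT t ht)
    have h2 : (pi1 (XX N α) (tM t) : ℝ) ≤ pi1 k (tM t) + HH N k (XX N α) (tb t) t.2.2 := by exact_mod_cast this
    linarith
  have h3 := sum_HH_le (k := k) (x := XX N α) hN T hT
  rw [← sum_gg] at h3
  calc _ ≤ _ := h1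
    _ ≤ ((5 * ∑ b ∈ Ioc N (2 * N), ∑ a ∈ Icc 1 (2 * N), gg T k (XX N α) b a : ℕ) : ℝ) := by exact_mod_cast h3
    _ = _ := by push_cast; ring

/-- the hypotheses of the second moment -/
theorem SS_spec {N : ℕ} {α ε : ℝ} (hε1 : ε ≤ 1) (T : Finset (ℕ × ℕ × ℕ)) (hT : ∀ t ∈ T, Tup N α ε t.1 t.2.1 t.2.2) :
    ∀ d, ∀ p ∈ SS T d, p.Prime ∧ PP N < p ∧ p ≤ 2 * PP N ∧
      ∃ d₁ : ℕ, d₁.Prime ∧ (N : ℝ) ^ (1 / 5 : ℝ) ≤ d₁ ∧ d₁ ∣ d ∧ d₁ ∣ p - 1 ∧ (d / d₁) ∣ p + 1 := by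
  intro b p hp
  unfold SS at hp
  rw [mem_image] at hp
  obtain ⟨t, ht, rfl⟩ := hp
  rw [mem_filter] at ht
  obtain ⟨ht, rfl⟩ := ht
  have h := hT t ht
  refine ⟨h.pprime, h.plo, tp_le hε1 h, t.1, h.dprime, h.dlo, dvd_mul_right _ _, h.dvd₁, ?_⟩
  unfold tb
  rw [Nat.mul_div_cancel_left _ h.dprime.pos]
  exact Nat.div_dvd_of_dvd h.dvd₂

theorem gg_le (T : Finset (ℕ × ℕ × ℕ)) (k x b a : ℕ) :
    gg T k x b a ≤ ((SS T b).filter (fun p => (1 + a * ((p ^ 2 - 1) / b)).Prime)).card := by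
  classical
  unfold gg
  apply card_le_card
  intro p hp
  rw [mem_filter] at hp ⊢
  exact ⟨hp.1, hp.2.1⟩

/-! ### numerics -/

theorem PP_bounds_final : ∃ N₀ : ℕ, ∀ N ≥ N₀, N ≤ PP N ∧ PP N ≤ N ^ 2 ∧
    1 / 2 * (N : ℝ) ^ (1 + 1 / 10000000 : ℝ) ≤ PP N := by
  refine ⟨2, fun N hN => ?_⟩
  have hN1 : (1 : ℝ) ≤ N := by exact_mod_cast (by omega : 1 ≤ N)
  have hN2 : (2 : ℝ) ≤ N := by exact_mod_cast hN
  have h1 : (N : ℝ) ≤ (N : ℝ) ^ (1 + 1 / 10000000 : ℝ) := by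
    calc (N : ℝ) = (N : ℝ) ^ (1 : ℝ) := (Real.rpow_one _).symm
      _ ≤ _ := Real.rpow_le_rpow_of_exponent_le hN1 (by norm_num)
  have h2 : (N : ℝ) ^ (1 + 1 / 10000000 : ℝ) ≤ (N : ℝ) ^ 2 := by
    rw [← Real.rpow_natCast]
    exact Real.rpow_le_rpow_of_exponent_le hN1 (by norm_num)
  refine ⟨?_, ?_, ?_⟩
  · unfold PP
    exact Nat.le_floor h1
  · have h3 : (PP N : ℝ) ≤ (N : ℝ) ^ 2 := (Nat.floor_le (by positivity)).trans h2
    exact_mod_cast h3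
  · have h4 : (N : ℝ) ^ (1 + 1 / 10000000 : ℝ) < PP N + 1 := Nat.lt_floor_add_one _
    linarith

theorem XX_bounds (α : ℝ) (hα : 1 ≤ α) (x₀ : ℕ) (B : ℝ) : ∃ N₀ : ℕ, ∀ N ≥ N₀,
    x₀ ≤ XX N α ∧ (PP N : ℝ) ^ 2 / (2 * α) ≤ XX N α ∧ (XX N α : ℝ) ≤ (PP N : ℝ) ^ 2 / α ∧
    Real.log N ≤ Real.log (XX N α) ∧ Real.log (XX N α) ≤ 4 * Real.log N ∧ B ≤ Real.log N ∧ 0 < Real.log N ∧
    0 < PP N ∧ B ≤ PP N := by
  obtain ⟨N₁, h₁⟩ := PP_bounds_final
  have hlog : Filter.Tendsto (fun N : ℕ => Real.log N) Filter.atTop Filter.atTop :=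
    Real.tendsto_log_atTop.comp tendsto_natCast_atTop_atTop
  obtain ⟨N₂, h₂⟩ := Filter.eventually_atTop.1 (hlog.eventually_ge_atTop B)
  obtain ⟨N₃, h₃⟩ := Filter.eventually_atTop.1
    ((tendsto_natCast_atTop_atTop (R := ℝ)).eventually_ge_atTop (max B (2 * α * (x₀ + 1))))
  refine ⟨max (max N₁ N₂) (max N₃ 3), fun N hN => ?_⟩
  have hN1 : N₁ ≤ N := le_trans (le_trans (le_max_left _ _) (le_max_left _ _)) hN
  have hN2 : N₂ ≤ N := le_trans (le_trans (le_max_right _ _) (le_max_left _ _)) hN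
  have hN3 : N₃ ≤ N := le_trans (le_trans (le_max_left _ _) (le_max_right _ _)) hN
  have hN4 : 3 ≤ N := le_trans (le_trans (le_max_right _ _) (le_max_right _ _)) hN
  obtain ⟨hP1, hP2, hP3⟩ := h₁ N hN1
  have hB := h₂ N hN2
  have hα0 : (0 : ℝ) < α := by linarith
  have h4 := h₃ N hN3
  have h5 : 2 * α * ((x₀ : ℝ) + 1) ≤ N := (le_max_right _ _).trans h4
  have hNB : B ≤ N := (le_max_left _ _).trans h4
  have hPN : (N : ℝ) ≤ PP N := by exact_mod_cast hP1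
  have hPN2 : (PP N : ℝ) ≤ (N : ℝ) ^ 2 := by exact_mod_cast hP2
  have hN1' : (1 : ℝ) < N := by exact_mod_cast (by omega : 1 < N)
  have hP0 : (0 : ℝ) < PP N := by linarith
  have hL : 0 < Real.log N := Real.log_pos hN1'
  have h6 : (2 * α * ((x₀ : ℝ) + 1)) * N ≤ (PP N : ℝ) ^ 2 := by
    have h7 : (2 * α * ((x₀ : ℝ) + 1)) * N ≤ N * N := mul_le_mul_of_nonneg_right h5 (by positivity)
    have h8 : (N : ℝ) * N ≤ PP N * PP N := mul_le_mul hPN hPN (by positivity) hP0.le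
    nlinarith
  have h7 : ((x₀ : ℝ) + 1) * N ≤ (PP N : ℝ) ^ 2 / (2 * α) := by
    rw [le_div_iff₀ (by positivity)]; linarith
  have h8 : (PP N : ℝ) ^ 2 / α < XX N α + 1 := Nat.lt_floor_add_one _
  have h9 : (PP N : ℝ) ^ 2 / α = 2 * ((PP N : ℝ) ^ 2 / (2 * α)) := by field_simp
  have hx0 : (0 : ℝ) ≤ x₀ := Nat.cast_nonneg _
  have h10 : (x₀ : ℝ) + 1 ≤ ((x₀ : ℝ) + 1) * N := by nlinarith
  have h11 : (PP N : ℝ) ^ 2 / (2 * α) ≤ XX N α := by linarith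
  have h12 : (XX N α : ℝ) ≤ (PP N : ℝ) ^ 2 / α := Nat.floor_le (by positivity)
  have h13 : (N : ℝ) ≤ XX N α := by
    have : (1 : ℝ) * N ≤ ((x₀ : ℝ) + 1) * N := mul_le_mul_of_nonneg_right (by linarith) (by positivity)
    linarith
  refine ⟨?_, h11, h12, ?_, ?_, hB, hL, by exact_mod_cast hP0, hNB.trans hPN⟩
  · have : (x₀ : ℝ) ≤ XX N α := by linarith
    exact_mod_cast this
  · exact Real.log_le_log (by linarith) h13
  · have h14 : (XX N α : ℝ) ≤ (N : ℝ) ^ 4 := by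
      calc (XX N α : ℝ) ≤ (PP N : ℝ) ^ 2 / α := h12
        _ ≤ (PP N : ℝ) ^ 2 := div_le_self (by positivity) hα
        _ ≤ ((N : ℝ) ^ 2) ^ 2 := pow_le_pow_left₀ hP0.le hPN2 2
        _ = (N : ℝ) ^ 4 := by ring
    calc Real.log (XX N α) ≤ Real.log ((N : ℝ) ^ 4) := Real.log_le_log (by linarith) h14
      _ = 4 * Real.log N := by rw [Real.log_pow]; norm_num

/-- the first moment -/
theorem first_moment (hP : StP) (hD : StD) (hQ : StQ) (α ε κ : ℝ) (hα : 1 ≤ α) (hε : 0 < ε) (hε1 : ε ≤ 1)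
    (hκ : 0 < κ) (hκ1 : κ < 1) : ∃ c : ℝ, 0 < c ∧ ∃ N₀ : ℕ, ∀ N ≥ N₀,
    ∃ T : Finset (ℕ × ℕ × ℕ), (∀ t ∈ T, Tup N α ε t.1 t.2.1 t.2.2) ∧
      c * (N * PP N / Real.log N ^ 2) ≤
        ∑ b ∈ Ioc N (2 * N), ∑ a ∈ Icc 1 (2 * N), (gg T ⌊κ * XX N α⌋₊ (XX N α) b a : ℝ) := by
  obtain ⟨c, hc, N₁, hP⟩ := hP α ε hα hε hε1
  obtain ⟨C₁, N₂, hD⟩ := hD α ε hα hε hε1
  obtain ⟨x₀, hQ⟩ := hQ 3 C₁ κ hκ hκ1
  have hα0 : (0 : ℝ) < α := by linarith
  have h1κ : 0 < 1 - κ := by linarith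
  set c₁ : ℝ := 9 / 20 * (1 - κ) * c / (32 * α) with hc₁
  have hc₁0 : 0 < c₁ := by positivity
  obtain ⟨N₃, h₃⟩ := XX_bounds α hα x₀ (2 / c₁)
  refine ⟨c₁ / 10, by positivity, max (max N₁ N₂) (max N₃ 33), fun N hN => ?_⟩
  have hN1 : N₁ ≤ N := le_trans (le_trans (le_max_left _ _) (le_max_left _ _)) hN
  have hN2 : N₂ ≤ N := le_trans (le_trans (le_max_right _ _) (le_max_left _ _)) hN
  have hN3 : N₃ ≤ N := le_trans (le_trans (le_max_left _ _) (le_max_right _ _)) hN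
  have hN4 : 33 ≤ N := le_trans (le_trans (le_max_right _ _) (le_max_right _ _)) hN
  obtain ⟨T, hT, hTc⟩ := hP N hN1
  obtain ⟨hinj, hDens, hρ, hρ1⟩ := hD N hN2 T hT
  obtain ⟨hx, hXlo, hXhi, hlog1, hlog2, hB, hL, hP0, -⟩ := h₃ N hN3
  have hN0 : (0 : ℝ) < N := by exact_mod_cast (by omega : 0 < N)
  have hP0R : (0 : ℝ) < PP N := by exact_mod_cast hP0
  have hq := hQ (XX N α) hx (N / PP N) hρ hρ1 (by positivity) _ _ hDens
  rw [sum_image hinj, sum_image hinj] at hq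
  refine ⟨T, hT, ?_⟩
  have hcomb := first_moment_comb (k := ⌊κ * XX N α⌋₊) hα (by omega) T hT
  have hq' : 9 / 20 * (1 - κ) * (XX N α / Real.log (XX N α)) * ∑ t ∈ T, 1 / ((tM t).totient : ℝ) -
      (N / PP N : ℝ) * XX N α / Real.log (XX N α) ^ 3 ≤
      ∑ t ∈ T, ((pi1 (XX N α) (tM t) : ℝ) - pi1 ⌊κ * XX N α⌋₊ (tM t)) := by
    refine le_trans hq (le_of_eq ?_)
    apply sum_congr rfl
    intro t _
    rw [one_mul]; rfl
  -- the sum of `1/φ`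
  have hφ : (T.card : ℝ) * (N / (4 * PP N ^ 2)) ≤ ∑ t ∈ T, 1 / ((tM t).totient : ℝ) := by
    rw [← nsmul_eq_mul, ← sum_const]
    apply sum_le_sum
    intro t ht
    have h := hT t ht
    have hM := tM_pos h
    have h1 : (0 : ℝ) < (tM t).totient := by exact_mod_cast Nat.totient_pos.2 hM
    have h2 : ((tM t).totient : ℝ) ≤ tM t := by exact_mod_cast Nat.totient_le _
    have h3 : (N : ℝ) * tM t ≤ 4 * PP N ^ 2 := by exact_mod_cast tM_le hε1 h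
    rw [div_le_div_iff₀ (by positivity) h1]
    nlinarith
  set L := Real.log N with hLdef
  set X : ℝ := (XX N α : ℝ) with hX
  set P : ℝ := (PP N : ℝ) with hPdef
  have hlogX : 0 < Real.log X := lt_of_lt_of_le hL hlog1
  have hXL : P ^ 2 / (8 * α * L) ≤ X / Real.log X := by
    rw [div_le_div_iff₀ (by positivity) hlogX]
    calc P ^ 2 * Real.log X ≤ P ^ 2 * (4 * L) := mul_le_mul_of_nonneg_left hlog2 (by positivity)
      _ = P ^ 2 / (2 * α) * (8 * α * L) := by field_simp; ring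
      _ ≤ X * (8 * α * L) := mul_le_mul_of_nonneg_right hXlo (by positivity)
  have hmain : 2 * (c₁ / 2 * (N * P / L ^ 2)) ≤
      9 / 20 * (1 - κ) * (X / Real.log X) * ∑ t ∈ T, 1 / ((tM t).totient : ℝ) := by
    have h1 : c * P / L * (N / (4 * P ^ 2)) ≤ ∑ t ∈ T, 1 / ((tM t).totient : ℝ) :=
      le_trans (mul_le_mul_of_nonneg_right hTc (by positivity)) hφ
    have h2 : P ^ 2 / (8 * α * L) * (c * P / L * (N / (4 * P ^ 2))) ≤
        X / Real.log X * ∑ t ∈ T, 1 / ((tM t).totient : ℝ) :=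
      mul_le_mul hXL h1 (by positivity) (by positivity)
    calc 2 * (c₁ / 2 * (N * P / L ^ 2)) = 9 / 20 * (1 - κ) * (P ^ 2 / (8 * α * L) * (c * P / L * (N / (4 * P ^ 2)))) := by
          rw [hc₁]; field_simp; ring
      _ ≤ 9 / 20 * (1 - κ) * (X / Real.log X * ∑ t ∈ T, 1 / ((tM t).totient : ℝ)) :=
          mul_le_mul_of_nonneg_left h2 (by positivity)
      _ = _ := by ring
  have herr : (N / P : ℝ) * X / Real.log X ^ 3 ≤ c₁ / 2 * (N * P / L ^ 2) := by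
    have h1 : (N / P : ℝ) * X ≤ N * P := by
      calc (N / P : ℝ) * X ≤ (N / P : ℝ) * (P ^ 2 / α) := mul_le_mul_of_nonneg_left hXhi (by positivity)
        _ = N * P / α := by field_simp
        _ ≤ N * P := div_le_self (by positivity) hα
    have h2 : L ^ 3 ≤ Real.log X ^ 3 := pow_le_pow_left₀ hL.le hlog1 3
    have h3 : (N / P : ℝ) * X / Real.log X ^ 3 ≤ N * P / L ^ 3 :=
      div_le_div₀ (by positivity) h1 (by positivity) h2
    refine h3.trans ?_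
    have h4 : 1 ≤ c₁ / 2 * L := by
      have := (div_le_iff₀ hc₁0).1 hB
      linarith
    calc N * P / L ^ 3 = N * P / L ^ 2 * (1 / L) := by field_simp
      _ ≤ N * P / L ^ 2 * (c₁ / 2) := by
          apply mul_le_mul_of_nonneg_left _ (by positivity)
          rw [div_le_iff₀ hL]; exact h4
      _ = c₁ / 2 * (N * P / L ^ 2) := by ring
  linarith

/-- Paley-Zygmund -/
theorem paley {ι : Type*} (E : Finset ι) (f : ι → ℝ) (hf : ∀ i ∈ E, 0 ≤ f i) {A B τ : ℝ} (hA : A ≤ ∑ i ∈ E, f i)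
    (hA0 : 0 ≤ A) (hτ : τ * E.card ≤ A / 2) (hτ0 : 0 ≤ τ) (hB : ∑ i ∈ E, f i ^ 2 ≤ B) :
    A ^ 2 / 4 ≤ B * ((E.filter (fun i => τ ≤ f i)).card : ℝ) := by
  have h1 : ∑ i ∈ E.filter (fun i => ¬ τ ≤ f i), f i ≤ τ * E.card := by
    calc ∑ i ∈ E.filter (fun i => ¬ τ ≤ f i), f i ≤ ∑ i ∈ E.filter (fun i => ¬ τ ≤ f i), τ := by
          apply sum_le_sum
          intro i hi
          exact (not_le.1 (mem_filter.1 hi).2).le
      _ = τ * ((E.filter (fun i => ¬ τ ≤ f i)).card : ℝ) := by rw [sum_const, nsmul_eq_mul, mul_comm]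
      _ ≤ τ * E.card := mul_le_mul_of_nonneg_left (by exact_mod_cast card_filter_le _ _) hτ0
  have h2 := sum_filter_add_sum_filter_not E (fun i => τ ≤ f i) f
  have h3 : A / 2 ≤ ∑ i ∈ E.filter (fun i => τ ≤ f i), f i := by linarith
  have h4 : (∑ i ∈ E.filter (fun i => τ ≤ f i), f i) ^ 2 ≤
      ((E.filter (fun i => τ ≤ f i)).card : ℝ) * ∑ i ∈ E.filter (fun i => τ ≤ f i), f i ^ 2 :=
    sq_sum_le_card_mul_sum_sq
  have h5 : ∑ i ∈ E.filter (fun i => τ ≤ f i), f i ^ 2 ≤ B :=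
    (sum_le_sum_of_subset_of_nonneg (filter_subset _ _) (fun _ _ _ => sq_nonneg _)).trans hB
  calc A ^ 2 / 4 = (A / 2) ^ 2 := by ring
    _ ≤ (∑ i ∈ E.filter (fun i => τ ≤ f i), f i) ^ 2 := pow_le_pow_left₀ (by linarith) h3 2
    _ ≤ _ := h4
    _ ≤ ((E.filter (fun i => τ ≤ f i)).card : ℝ) * B := mul_le_mul_of_nonneg_left h5 (Nat.cast_nonneg _)
    _ = _ := by ring

/-- many pairs `(b, a)` -/
theorem many_pairs (hP : StP) (hD : StD) (hQ : StQ) (hS : StS) (α ε κ : ℝ) (hα : 1 ≤ α) (hε : 0 < ε) (hε1 : ε ≤ 1)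
    (hκ : 0 < κ) (hκ1 : κ < 1) : ∃ c : ℝ, 0 < c ∧ ∃ N₀ : ℕ, ∀ N ≥ N₀,
    ∃ T : Finset (ℕ × ℕ × ℕ), (∀ t ∈ T, Tup N α ε t.1 t.2.1 t.2.2) ∧
      c * (N : ℝ) ^ 2 ≤ (((Ioc N (2 * N) ×ˢ Icc 1 (2 * N)).filter
        (fun i => (N : ℝ) ^ (1 / 100000000 : ℝ) ≤ gg T ⌊κ * XX N α⌋₊ (XX N α) i.1 i.2)).card : ℝ) := by
  obtain ⟨c₂, hc₂, N₁, h₁⟩ := first_moment hP hD hQ α ε κ hα hε hε1 hκ hκ1
  obtain ⟨C, hC, N₂, h₂⟩ := hS
  obtain ⟨N₃, h₃⟩ := XX_bounds α hα 0 0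
  obtain ⟨N₄, h₄⟩ := PP_bounds_final
  -- `8 (log N)² N^(10^-8) ≤ c₂ N^(10^-7)`
  obtain ⟨N₅, h₅⟩ : ∃ N₅ : ℕ, ∀ N ≥ N₅, 8 * Real.log N ^ 2 ≤ c₂ * (N : ℝ) ^ (9 / 100000000 : ℝ) := by
    have h := (isLittleO_log_rpow_rpow_atTop (s := 9 / 100000000) 2 (by norm_num)).comp_tendsto
      (tendsto_natCast_atTop_atTop (R := ℝ))
    have h' := h.bound (show 0 < c₂ / 8 by positivity)
    obtain ⟨N₅, h5⟩ := Filter.eventually_atTop.1 h'
    refine ⟨max N₅ 1, fun N hN => ?_⟩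
    have h6 := h5 N (le_trans (le_max_left _ _) hN)
    have hN1 : (1 : ℝ) ≤ N := by exact_mod_cast le_trans (le_max_right _ _) hN
    simp only [Function.comp] at h6
    rw [Real.norm_of_nonneg (by have := Real.log_nonneg hN1; positivity), Real.norm_of_nonneg (by positivity)] at h6
    have h7 : Real.log N ^ (2 : ℝ) = Real.log N ^ 2 := by rw [← Real.rpow_natCast]; norm_num
    rw [h7] at h6
    linarith
  refine ⟨c₂ ^ 2 / (4 * C), by positivity, max (max N₁ N₂) (max (max N₃ N₄) (max N₅ 2)), fun N hN => ?_⟩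
  have hN1 : N₁ ≤ N := le_trans (le_trans (le_max_left _ _) (le_max_left _ _)) hN
  have hN2 : N₂ ≤ N := le_trans (le_trans (le_max_right _ _) (le_max_left _ _)) hN
  have hN3 : N₃ ≤ N := le_trans (le_trans (le_trans (le_max_left _ _) (le_max_left _ _)) (le_max_right _ _)) hN
  have hN4 : N₄ ≤ N := le_trans (le_trans (le_trans (le_max_right _ _) (le_max_left _ _)) (le_max_right _ _)) hN
  have hN5 : N₅ ≤ N := le_trans (le_trans (le_trans (le_max_left _ _) (le_max_right _ _)) (le_max_right _ _)) hN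
  have hN6 : 2 ≤ N := le_trans (le_trans (le_trans (le_max_right _ _) (le_max_right _ _)) (le_max_right _ _)) hN
  obtain ⟨T, hT, hsum⟩ := h₁ N hN1
  obtain ⟨-, -, -, -, -, -, hL, hP0, -⟩ := h₃ N hN3
  obtain ⟨-, -, hPlo⟩ := h₄ N hN4
  have hlg := h₅ N hN5
  refine ⟨T, hT, ?_⟩
  have hN0 : (0 : ℝ) < N := by exact_mod_cast (by omega : 0 < N)
  have hP0R : (0 : ℝ) < PP N := by exact_mod_cast hP0
  set k := ⌊κ * XX N α⌋₊
  set x := XX N α
  set L := Real.log N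
  set P : ℝ := (PP N : ℝ)
  have hsec : ∑ i ∈ Ioc N (2 * N) ×ˢ Icc 1 (2 * N), ((gg T k x i.1 i.2 : ℝ)) ^ 2 ≤ C * P ^ 2 / L ^ 4 := by
    rw [sum_product]
    refine le_trans ?_ (h₂ N hN2 (SS T) (SS_spec hε1 T hT))
    apply sum_le_sum
    intro b _
    apply sum_le_sum
    intro a _
    apply pow_le_pow_left₀ (Nat.cast_nonneg _)
    exact_mod_cast gg_le T k x b a
  have hcard : ((Ioc N (2 * N) ×ˢ Icc 1 (2 * N)).card : ℝ) = 2 * N ^ 2 := by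
    rw [card_product, Nat.card_Ioc, Nat.card_Icc]
    have : (2 * N - N) * (2 * N + 1 - 1) = 2 * N ^ 2 := by
      have h1 : 2 * N - N = N := by omega
      have h2 : 2 * N + 1 - 1 = 2 * N := by omega
      rw [h1, h2]; ring
    rw [this]; push_cast; ring
  have hpz := paley (Ioc N (2 * N) ×ˢ Icc 1 (2 * N)) (fun i => (gg T k x i.1 i.2 : ℝ)) (fun _ _ => Nat.cast_nonneg _)
    (A := c₂ * (N * P / L ^ 2)) (B := C * P ^ 2 / L ^ 4) (τ := c₂ * P / (4 * N * L ^ 2))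
    (by rw [sum_product]; exact hsum) (by positivity)
    (by rw [hcard]; apply le_of_eq; field_simp; ring) (by positivity) hsec
  have hτ : (N : ℝ) ^ (1 / 100000000 : ℝ) ≤ c₂ * P / (4 * N * L ^ 2) := by
    rw [le_div_iff₀ (by positivity)]
    have e1 : (N : ℝ) ^ (1 + 1 / 10000000 : ℝ) =
        N * ((N : ℝ) ^ (1 / 100000000 : ℝ) * (N : ℝ) ^ (9 / 100000000 : ℝ)) := by
      rw [← Real.rpow_add hN0]
      nth_rewrite 2 [← Real.rpow_one (N : ℝ)]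
      rw [← Real.rpow_add hN0]; congr 1; norm_num
    rw [e1] at hPlo
    have h6 : (N : ℝ) ^ (1 / 100000000 : ℝ) * (8 * L ^ 2) ≤
        (N : ℝ) ^ (1 / 100000000 : ℝ) * (c₂ * (N : ℝ) ^ (9 / 100000000 : ℝ)) :=
      mul_le_mul_of_nonneg_left hlg (by positivity)
    calc (N : ℝ) ^ (1 / 100000000 : ℝ) * (4 * N * L ^ 2)
        = N / 2 * ((N : ℝ) ^ (1 / 100000000 : ℝ) * (8 * L ^ 2)) := by ring
      _ ≤ N / 2 * ((N : ℝ) ^ (1 / 100000000 : ℝ) * (c₂ * (N : ℝ) ^ (9 / 100000000 : ℝ))) :=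
          mul_le_mul_of_nonneg_left h6 (by positivity)
      _ = c₂ * (1 / 2 * (N * ((N : ℝ) ^ (1 / 100000000 : ℝ) * (N : ℝ) ^ (9 / 100000000 : ℝ)))) := by ring
      _ ≤ c₂ * P := mul_le_mul_of_nonneg_left hPlo hc₂.le
  have hsub : (((Ioc N (2 * N) ×ˢ Icc 1 (2 * N)).filter
      (fun i => c₂ * P / (4 * N * L ^ 2) ≤ (gg T k x i.1 i.2 : ℝ))).card : ℝ) ≤
      (((Ioc N (2 * N) ×ˢ Icc 1 (2 * N)).filter
        (fun i => (N : ℝ) ^ (1 / 100000000 : ℝ) ≤ gg T k x i.1 i.2)).card : ℝ) := by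
    exact_mod_cast card_le_card (monotone_filter_right _ (fun i _ hi => hτ.trans hi))
  have h7 : c₂ ^ 2 / (4 * C) * (N : ℝ) ^ 2 * (C * P ^ 2 / L ^ 4) = (c₂ * (N * P / L ^ 2)) ^ 2 / 4 := by
    field_simp
  have h8 : c₂ ^ 2 / (4 * C) * (N : ℝ) ^ 2 * (C * P ^ 2 / L ^ 4) ≤ (((Ioc N (2 * N) ×ˢ Icc 1 (2 * N)).filter
      (fun i => c₂ * P / (4 * N * L ^ 2) ≤ (gg T k x i.1 i.2 : ℝ))).card : ℝ) * (C * P ^ 2 / L ^ 4) := by
    rw [h7]; linarith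
  exact (le_of_mul_le_mul_right h8 (by positivity)).trans hsub

/-! ### the rationals -/

theorem mem_SS {T : Finset (ℕ × ℕ × ℕ)} {b p : ℕ} (h : p ∈ SS T b) : ∃ t ∈ T, tb t = b ∧ t.2.2 = p := by
  unfold SS at h
  rw [mem_image] at h
  obtain ⟨t, ht, hp⟩ := h
  rw [mem_filter] at ht
  exact ⟨t, ht.1, ht.2, hp⟩

/-- `b * M = p² - 1` -/
theorem SS_mul {N : ℕ} {α ε : ℝ} {T : Finset (ℕ × ℕ × ℕ)} (hT : ∀ t ∈ T, Tup N α ε t.1 t.2.1 t.2.2) {b p : ℕ}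
    (h : p ∈ SS T b) : b * ((p ^ 2 - 1) / b) = p ^ 2 - 1 ∧ 0 < b ∧ 0 < (p ^ 2 - 1) / b := by
  obtain ⟨t, ht, rfl, rfl⟩ := mem_SS h
  have h1 := hT t ht
  rw [tb_div h1]
  exact ⟨tb_mul_tM h1, tb_pos h1, tM_pos h1⟩

theorem ratio_eq {b p a M : ℕ} (h : b * M = p ^ 2 - 1) (hb : 0 < b) (hM : 0 < M) (ha : 0 < a) (hp : 1 ≤ p) :
    (b : ℚ) / a = ((p : ℚ) ^ 2 - 1) / (((1 + a * M : ℕ) : ℚ) - 1) := by
  have h1 : (b : ℚ) * M = (p : ℚ) ^ 2 - 1 := by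
    have h2 : 1 ≤ p ^ 2 := Nat.one_le_pow _ _ hp
    have h3 : b * M + 1 = p ^ 2 := by omega
    have h4 : ((b * M + 1 : ℕ) : ℚ) = ((p ^ 2 : ℕ) : ℚ) := by rw [h3]
    push_cast at h4
    linarith
  rw [← h1]
  have ha' : (a : ℚ) ≠ 0 := by exact_mod_cast ha.ne'
  have hM' : (M : ℚ) ≠ 0 := by exact_mod_cast hM.ne'
  push_cast
  rw [add_sub_cancel_left]
  field_simp

/-- choice of the parameters -/
theorem choose_params {α β : ℝ} (hα : 1 ≤ α) (hαβ : α < β) : ∃ ε κ : ℝ, 0 < ε ∧ ε ≤ 1 ∧ 0 < κ ∧ κ < 1 ∧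
    (1 + ε) ^ 2 * α < β * κ := by
  have hα0 : 0 < α := by linarith
  have hβ0 : 0 < β := by linarith
  set t := β / α with ht
  have ht1 : 1 < t := by rw [ht, one_lt_div hα0]; exact hαβ
  set ε := min 1 ((t - 1) / 6) with hε
  have h1 : ε ≤ 1 := min_le_left _ _
  have h2 : ε ≤ (t - 1) / 6 := min_le_right _ _
  have h3 : 0 < ε := lt_min one_pos (by linarith)
  have h4 : (1 + ε) ^ 2 < t := by nlinarith
  set κ := ((1 + ε) ^ 2 / t + 1) / 2 with hκ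
  have h5 : (1 + ε) ^ 2 / t < 1 := by rw [div_lt_one (by linarith)]; exact h4
  have h6 : 0 < (1 + ε) ^ 2 / t := by positivity
  refine ⟨ε, κ, h3, h1, by rw [hκ]; linarith, by rw [hκ]; linarith, ?_⟩
  have h7 : (1 + ε) ^ 2 / t < κ := by rw [hκ]; linarith
  rw [div_lt_iff₀ (by linarith)] at h7
  calc (1 + ε) ^ 2 * α < κ * t * α := mul_lt_mul_of_pos_right h7 hα0
    _ = β * κ := by rw [ht]; field_simp

/-- the bounds for `b / a` -/
theorem r_bounds {N : ℕ} {α β ε κ : ℝ} (hα : 1 ≤ α) (hαβ : α < β) (hε : 0 < ε) (hκ : 0 < κ) (hκ1 : κ < 1)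
    (hpar : (1 + ε) ^ 2 * α < β * κ) (hP : 2 * α * β / (β * κ - (1 + ε) ^ 2 * α) ≤ PP N) (hP1 : 0 < PP N)
    {p q : ℕ} (hp : PP N < p) (hp2 : (p : ℝ) ≤ (1 + ε) * PP N) (hq : ⌊κ * XX N α⌋₊ < q) (hq2 : q ≤ XX N α)
    (hq1 : 1 < q) :
    α < ((p : ℝ) ^ 2 - 1) / ((q : ℝ) - 1) ∧ ((p : ℝ) ^ 2 - 1) / ((q : ℝ) - 1) < β := by
  have hα0 : 0 < α := by linarith
  have hβ0 : 0 < β := by linarith
  set P : ℝ := (PP N : ℝ) with hPdef
  set x : ℝ := (XX N α : ℝ) with hx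
  have hP0 : (1 : ℝ) ≤ P := by rw [hPdef]; exact_mod_cast hP1
  have hxhi : x ≤ P ^ 2 / α := Nat.floor_le (by positivity)
  have hxlo : P ^ 2 / α < x + 1 := Nat.lt_floor_add_one _
  have hqR : (q : ℝ) ≤ x := by rw [hx]; exact_mod_cast hq2
  have hq1R : (1 : ℝ) < q := by exact_mod_cast hq1
  have hpR : P + 1 ≤ p := by rw [hPdef]; exact_mod_cast hp
  have hq0 : (0 : ℝ) < (q : ℝ) - 1 := by linarith
  constructor
  · rw [lt_div_iff₀ hq0]
    have h1 : α * ((q : ℝ) - 1) ≤ P ^ 2 - α := by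
      have h2 : α * (q : ℝ) ≤ α * (P ^ 2 / α) := mul_le_mul_of_nonneg_left (hqR.trans hxhi) hα0.le
      have h3 : α * (P ^ 2 / α) = P ^ 2 := by field_simp
      linarith
    nlinarith
  · rw [div_lt_iff₀ hq0]
    have h1 : κ * x < ⌊κ * x⌋₊ + 1 := Nat.lt_floor_add_one _
    have h2 : ((⌊κ * x⌋₊ : ℕ) : ℝ) + 1 ≤ q := by exact_mod_cast hq
    have h3 : κ * x - 1 ≤ (q : ℝ) - 1 := by linarith
    have h4 : κ * (P ^ 2 / α) < κ * x + κ := by nlinarith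
    have h5 : κ * (P ^ 2 / α) - 2 < (q : ℝ) - 1 := by linarith
    set D := β * κ - (1 + ε) ^ 2 * α with hD
    have hD0 : 0 < D := by rw [hD]; linarith
    have h6 : 2 * α * β ≤ P * D := by
      have := (div_le_iff₀ hD0).1 hP
      linarith
    have h7 : 2 * α * β ≤ P ^ 2 * D := by nlinarith [mul_nonneg (by linarith : (0:ℝ) ≤ P - 1) (mul_nonneg (by linarith : (0:ℝ) ≤ P) hD0.le)]
    have h8 : (p : ℝ) ^ 2 ≤ (1 + ε) ^ 2 * P ^ 2 := by
      have : (p : ℝ) ^ 2 ≤ ((1 + ε) * P) ^ 2 := pow_le_pow_left₀ (by positivity) hp2 2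
      linarith [mul_pow (1 + ε) P 2]
    have h9 : (1 + ε) ^ 2 * P ^ 2 ≤ β * (κ * (P ^ 2 / α) - 2) := by
      have h10 : β * (κ * (P ^ 2 / α) - 2) - (1 + ε) ^ 2 * P ^ 2 = (P ^ 2 * D - 2 * α * β) / α := by
        rw [hD]; field_simp; ring
      have h11 : 0 ≤ (P ^ 2 * D - 2 * α * β) / α := div_nonneg (by linarith) hα0.le
      linarith
    have h12 : β * (κ * (P ^ 2 / α) - 2) < β * ((q : ℝ) - 1) := mul_lt_mul_of_pos_left h5 hβ0
    linarith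

/-- pairs with a large common divisor are few -/
theorem gcd_large (n K : ℕ) (hK : 0 < K) :
    (((Icc 1 n ×ˢ Icc 1 n).filter (fun i : ℕ × ℕ => K < Nat.gcd i.1 i.2)).card : ℝ) ≤ n ^ 2 / K := by
  have hsub : (Icc 1 n ×ˢ Icc 1 n).filter (fun i : ℕ × ℕ => K < Nat.gcd i.1 i.2) ⊆
      (Ioc K n).biUnion (fun g => (Icc 1 (n / g) ×ˢ Icc 1 (n / g)).image (fun i => (g * i.1, g * i.2))) := by
    intro i hi
    rw [mem_filter, mem_product, mem_Icc, mem_Icc] at hi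
    obtain ⟨⟨⟨h1, h2⟩, h3, h4⟩, h5⟩ := hi
    rw [mem_biUnion]
    have hg0 : 0 < Nat.gcd i.1 i.2 := by omega
    refine ⟨Nat.gcd i.1 i.2, ?_, ?_⟩
    · rw [mem_Ioc]
      exact ⟨h5, (Nat.le_of_dvd (by omega) (Nat.gcd_dvd_left _ _)).trans h2⟩
    · rw [mem_image]
      refine ⟨(i.1 / Nat.gcd i.1 i.2, i.2 / Nat.gcd i.1 i.2), ?_, ?_⟩
      · rw [mem_product, mem_Icc, mem_Icc]
        refine ⟨⟨?_, Nat.div_le_div_right h2⟩, ?_, Nat.div_le_div_right h4⟩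
        · exact Nat.div_pos (Nat.le_of_dvd (by omega) (Nat.gcd_dvd_left _ _)) hg0
        · exact Nat.div_pos (Nat.le_of_dvd (by omega) (Nat.gcd_dvd_right _ _)) hg0
      · exact Prod.ext (Nat.mul_div_cancel' (Nat.gcd_dvd_left _ _)) (Nat.mul_div_cancel' (Nat.gcd_dvd_right _ _))
  have hK0 : (0 : ℝ) < K := by exact_mod_cast hK
  calc (((Icc 1 n ×ˢ Icc 1 n).filter (fun i : ℕ × ℕ => K < Nat.gcd i.1 i.2)).card : ℝ)
      ≤ ((∑ g ∈ Ioc K n, ((Icc 1 (n / g) ×ˢ Icc 1 (n / g)).image (fun i => (g * i.1, g * i.2))).card : ℕ) : ℝ) := by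
        exact_mod_cast (card_le_card hsub).trans card_biUnion_le
    _ ≤ ∑ g ∈ Ioc K n, (n : ℝ) ^ 2 * (1 / (g : ℝ) ^ 2) := by
        push_cast
        apply sum_le_sum
        intro g hg
        rw [mem_Ioc] at hg
        have hg0 : (0 : ℝ) < g := by exact_mod_cast (by omega : 0 < g)
        have h1 : (((Icc 1 (n / g) ×ˢ Icc 1 (n / g)).image (fun i : ℕ × ℕ => (g * i.1, g * i.2))).card : ℝ) ≤
            ((n / g : ℕ) : ℝ) ^ 2 := by
          have : ((Icc 1 (n / g) ×ˢ Icc 1 (n / g)).image (fun i : ℕ × ℕ => (g * i.1, g * i.2))).card ≤ (n / g) ^ 2 := by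
            refine card_image_le.trans ?_
            rw [card_product, Nat.card_Icc]
            simp [sq]
          exact_mod_cast this
        have h2 : ((n / g : ℕ) : ℝ) ≤ n / g := Nat.cast_div_le
        calc _ ≤ ((n / g : ℕ) : ℝ) ^ 2 := h1
          _ ≤ ((n : ℝ) / g) ^ 2 := pow_le_pow_left₀ (Nat.cast_nonneg _) h2 2
          _ = _ := by rw [div_pow]; ring
    _ = (n : ℝ) ^ 2 * ∑ g ∈ Ioc K n, 1 / (g : ℝ) ^ 2 := by rw [mul_sum]
    _ ≤ (n : ℝ) ^ 2 * (1 / K) := by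
        apply mul_le_mul_of_nonneg_left _ (by positivity)
        by_cases hKn : K ≤ n
        · have := sum_Ioc_inv_sq_le_sub (α := ℝ) (k := K) (n := n) (by omega) hKn
          calc ∑ g ∈ Ioc K n, 1 / (g : ℝ) ^ 2 = ∑ g ∈ Ioc K n, ((g : ℝ) ^ 2)⁻¹ := by
                apply sum_congr rfl; intro g _; rw [one_div]
            _ ≤ (K : ℝ)⁻¹ - (n : ℝ)⁻¹ := this
            _ ≤ 1 / K := by rw [one_div]; linarith [inv_nonneg.2 (Nat.cast_nonneg (α := ℝ) n)]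
        · rw [Ioc_eq_empty (by omega), sum_empty]; positivity
    _ = _ := by ring

/-- from many pairs to many rationals -/
theorem many_rat {c : ℝ} (hc : 0 < c) : ∃ c' : ℝ, 0 < c' ∧ ∀ (N : ℕ) (G : Finset (ℕ × ℕ)), G ⊆ Icc 1 (2 * N) ×ˢ Icc 1 (2 * N) →
    c * (N : ℝ) ^ 2 ≤ (G.card : ℝ) → c' * (N : ℝ) ^ 2 ≤ ((G.image (fun i => (i.1 : ℚ) / i.2)).card : ℝ) := by
  obtain ⟨K, hK⟩ := exists_nat_gt (8 / c)
  have hK0 : (0 : ℝ) < K := lt_trans (by positivity) hK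
  have hK0' : 0 < K := by exact_mod_cast hK0
  refine ⟨c / (2 * K), by positivity, fun N G hG hcard => ?_⟩
  have h1 := gcd_large (2 * N) K hK0'
  set G1 := G.filter (fun i : ℕ × ℕ => ¬ K < Nat.gcd i.1 i.2) with hG1
  have h2 : (G.filter (fun i : ℕ × ℕ => K < Nat.gcd i.1 i.2)).card ≤
      ((Icc 1 (2 * N) ×ˢ Icc 1 (2 * N)).filter (fun i : ℕ × ℕ => K < Nat.gcd i.1 i.2)).card :=
    card_le_card (filter_subset_filter _ hG)
  have h3 : (G.filter (fun i : ℕ × ℕ => K < Nat.gcd i.1 i.2)).card + G1.card = G.card := by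
    rw [hG1]; exact card_filter_add_card_filter_not _
  have h4 : G1.card ≤ K * (G1.image (fun i => (i.1 : ℚ) / i.2)).card := by
    apply card_le_mul_card_image
    intro r _
    calc (G1.filter (fun i => (i.1 : ℚ) / i.2 = r)).card ≤ (Icc 1 K).card := by
          apply card_le_card_of_injOn (fun i => Nat.gcd i.1 i.2)
          · intro i hi
            simp only [coe_filter, Set.mem_ofPred_eq] at hi
            have h5 := hi.1
            rw [hG1, mem_filter] at h5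
            have h6 := hG h5.1
            rw [mem_product, mem_Icc, mem_Icc] at h6
            rw [mem_coe, mem_Icc]
            exact ⟨Nat.gcd_pos_of_pos_left _ (by omega), not_lt.1 h5.2⟩
          · intro i hi j hj hij
            simp only [coe_filter, Set.mem_ofPred_eq] at hi hj
            have h5 := hi.1
            have h5' := hj.1
            rw [hG1, mem_filter] at h5 h5'
            have h6 := hG h5.1
            have h6' := hG h5'.1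
            rw [mem_product, mem_Icc, mem_Icc] at h6 h6'
            simp only at hij
            -- `i = g (num, den)`
            have key : ∀ i : ℕ × ℕ, 1 ≤ i.1 → 1 ≤ i.2 → (i.1 : ℚ) / i.2 = r →
                i.1 = Nat.gcd i.1 i.2 * r.num.natAbs ∧ i.2 = Nat.gcd i.1 i.2 * r.den := by
              intro i hi1 hi2 hr
              have hg : 0 < Nat.gcd i.1 i.2 := Nat.gcd_pos_of_pos_left _ (by omega)
              obtain ⟨u, v, huv, hu, hv⟩ := Nat.exists_coprime i.1 i.2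
              have hv0 : 0 < v := by
                rcases Nat.eq_zero_or_pos v with h0 | h0
                · rw [h0, zero_mul] at hv; omega
                · exact h0
              have hg' : ((Nat.gcd i.1 i.2 : ℕ) : ℚ) ≠ 0 := by exact_mod_cast hg.ne'
              have hv' : (v : ℚ) ≠ 0 := by exact_mod_cast hv0.ne'
              have e2 := Rat.num_div_eq_of_coprime (a := (u : ℤ)) (b := (v : ℤ)) (by exact_mod_cast hv0) (by simpa using huv)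
              have e3 := Rat.den_div_eq_of_coprime (a := (u : ℤ)) (b := (v : ℤ)) (by exact_mod_cast hv0) (by simpa using huv)
              have e4 : ((u : ℤ) : ℚ) / ((v : ℤ) : ℚ) = r := by
                have e5 : (i.1 : ℚ) = u * (Nat.gcd i.1 i.2 : ℕ) := by exact_mod_cast hu
                have e6 : (i.2 : ℚ) = v * (Nat.gcd i.1 i.2 : ℕ) := by exact_mod_cast hv
                rw [← hr, e5, e6]
                push_cast
                field_simp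
              rw [e4] at e2 e3
              constructor
              · have : r.num.natAbs = u := by rw [e2]; simp
                rw [this, mul_comm]; exact hu
              · have : r.den = v := by exact_mod_cast e3
                rw [this, mul_comm]; exact hv
            obtain ⟨k1, k2⟩ := key i h6.1.1 h6.2.1 hi.2
            obtain ⟨k3, k4⟩ := key j h6'.1.1 h6'.2.1 hj.2
            apply Prod.ext
            · rw [k1, k3, hij]
            · rw [k2, k4, hij]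
      _ = K := by rw [Nat.card_Icc]; omega
  have h5 : (G1.image (fun i => (i.1 : ℚ) / i.2)).card ≤ (G.image (fun i => (i.1 : ℚ) / i.2)).card :=
    card_le_card (image_subset_image (filter_subset _ _))
  have h6 : (G1.card : ℝ) ≤ K * ((G.image (fun i => (i.1 : ℚ) / i.2)).card : ℝ) := by
    exact_mod_cast h4.trans (Nat.mul_le_mul_left _ h5)
  have h7 : ((G.filter (fun i : ℕ × ℕ => K < Nat.gcd i.1 i.2)).card : ℝ) ≤ (2 * N) ^ 2 / K := by
    have : ((G.filter (fun i : ℕ × ℕ => K < Nat.gcd i.1 i.2)).card : ℝ) ≤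
      (((Icc 1 (2 * N) ×ˢ Icc 1 (2 * N)).filter (fun i : ℕ × ℕ => K < Nat.gcd i.1 i.2)).card : ℝ) := by exact_mod_cast h2
    refine this.trans (h1.trans (le_of_eq ?_))
    push_cast; ring
  have h8 : ((G.filter (fun i : ℕ × ℕ => K < Nat.gcd i.1 i.2)).card : ℝ) + (G1.card : ℝ) = G.card := by exact_mod_cast h3
  have h9 : (2 * (N : ℝ)) ^ 2 / K ≤ c / 2 * N ^ 2 := by
    rw [div_le_iff₀ hK0]
    have h10 : 8 ≤ c * K := by
      have := (div_lt_iff₀ hc).1 hK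
      linarith
    have hN2 : (0 : ℝ) ≤ (N : ℝ) ^ 2 := by positivity
    nlinarith
  have h10 : c / 2 * (N : ℝ) ^ 2 ≤ K * ((G.image (fun i => (i.1 : ℚ) / i.2)).card : ℝ) := by linarith
  have h11 : c / (2 * K) * (N : ℝ) ^ 2 = c / 2 * N ^ 2 / K := by field_simp
  rw [h11, div_le_iff₀ hK0]
  linarith

/-- the set of the rationals in question -/
def RS (α β : ℝ) (δ : ℝ) (N : ℕ) : Set ℚ := {r : ℚ | α < r ∧ (r : ℝ) < β ∧ r.num ≤ N ∧
      ∃ F : Finset (ℕ × ℕ), (N : ℝ) ^ δ ≤ F.card ∧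
        ∀ t ∈ F, t.1.Prime ∧ t.2.Prime ∧ r = ((t.1 : ℚ) ^ 2 - 1) / ((t.2 : ℚ) - 1)}

theorem RS_finite {α β δ : ℝ} (hα : 1 ≤ α) (N : ℕ) : (RS α β δ N).Finite := by
  have hsub : RS α β δ N ⊆ ((Icc 1 N ×ˢ Icc 1 N).image (fun i : ℕ × ℕ => (i.1 : ℚ) / i.2) : Finset ℚ) := by
    intro r hr
    obtain ⟨h1, -, h3, -⟩ := hr
    have hr1 : (1 : ℝ) < r := lt_of_le_of_lt hα h1
    have hr1' : (1 : ℚ) < r := by exact_mod_cast hr1
    have hr0 : (0 : ℚ) < r := by linarith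
    have hnum : 0 < r.num := Rat.num_pos.2 hr0
    have hden : (r.den : ℤ) ≤ r.num := by
      have h4 : (1 : ℚ) < r.num / r.den := by rw [Rat.num_div_den]; exact hr1'
      have hd0 : (0 : ℚ) < r.den := by exact_mod_cast r.den_pos
      rw [lt_div_iff₀ hd0, one_mul] at h4
      have h5 : (r.den : ℤ) < r.num := by exact_mod_cast h4
      exact h5.le
    rw [mem_coe, mem_image]
    refine ⟨(r.num.toNat, r.den), ?_, ?_⟩
    · rw [mem_product, mem_Icc, mem_Icc]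
      have := r.den_pos
      refine ⟨⟨?_, ?_⟩, ?_, ?_⟩ <;> simp only <;> omega
    · have h6 : ((r.num.toNat : ℕ) : ℚ) = (r.num : ℚ) := by
        have : ((r.num.toNat : ℕ) : ℤ) = r.num := Int.toNat_of_nonneg hnum.le
        exact_mod_cast this
      simp only [h6]
      exact Rat.num_div_den r
  exact (Finset.finite_toSet _).subset hsub

theorem final_of (hP : StP) (hD : StD) (hQ : StQ) (hS : StS) (α β : ℝ) (hα : 1 ≤ α) (hαβ : α < β) :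
    ∃ c : ℝ, 0 < c ∧ ∃ N₀ : ℕ, ∀ N ≥ N₀,
    c * (N : ℝ) ^ 2 ≤ (Set.ncard {r : ℚ | α < r ∧ (r : ℝ) < β ∧ r.num ≤ N ∧
      ∃ F : Finset (ℕ × ℕ), (N : ℝ) ^ (1 / 1000000000 : ℝ) ≤ F.card ∧
        ∀ t ∈ F, t.1.Prime ∧ t.2.Prime ∧ r = ((t.1 : ℚ) ^ 2 - 1) / ((t.2 : ℚ) - 1)} : ℝ) := by
  obtain ⟨ε, κ, hε, hε1, hκ, hκ1, hpar⟩ := choose_params hα hαβ
  obtain ⟨c, hc, N₁, h₁⟩ := many_pairs hP hD hQ hS α ε κ hα hε hε1 hκ hκ1
  obtain ⟨c', hc', h₂⟩ := many_rat hc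
  obtain ⟨N₃, h₃⟩ := XX_bounds α hα 0 (2 * α * β / (β * κ - (1 + ε) ^ 2 * α))
  refine ⟨c' / 9, by positivity, 2 * max (max N₁ N₃) 3 + 1, fun N hN => ?_⟩
  set M := N / 2 with hM
  have hMge : max (max N₁ N₃) 3 ≤ M := by omega
  have hM1 : N₁ ≤ M := le_trans (le_trans (le_max_left _ _) (le_max_left _ _)) hMge
  have hM3 : N₃ ≤ M := le_trans (le_trans (le_max_right _ _) (le_max_left _ _)) hMge
  have hM4 : 3 ≤ M := le_trans (le_max_right _ _) hMge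
  have hM2N : 2 * M ≤ N := by omega
  have hN3M : N ≤ 3 * M := by omega
  obtain ⟨T, hT, hcard⟩ := h₁ M hM1
  obtain ⟨-, -, -, -, -, -, -, hP0, hPB⟩ := h₃ M hM3
  set k := ⌊κ * XX M α⌋₊ with hk
  set x := XX M α with hx
  set G := (Ioc M (2 * M) ×ˢ Icc 1 (2 * M)).filter
        (fun i => (M : ℝ) ^ (1 / 100000000 : ℝ) ≤ gg T k x i.1 i.2) with hG
  have hGsub : G ⊆ Icc 1 (2 * M) ×ˢ Icc 1 (2 * M) := by
    intro i hi
    rw [hG, mem_filter, mem_product, mem_Ioc, mem_Icc] at hi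
    rw [mem_product, mem_Icc, mem_Icc]
    exact ⟨⟨by omega, hi.1.1.2⟩, hi.1.2⟩
  have h4 := h₂ M G hGsub hcard
  have hM0 : (0 : ℝ) < M := by exact_mod_cast (by omega : 0 < M)
  have hMR : (3 : ℝ) ≤ M := by exact_mod_cast hM4
  have hNR : (N : ℝ) ≤ 3 * M := by exact_mod_cast hN3M
  -- the exponents
  have hexp : (N : ℝ) ^ (1 / 1000000000 : ℝ) ≤ (M : ℝ) ^ (1 / 100000000 : ℝ) := by
    have h5 : (N : ℝ) ≤ (M : ℝ) ^ (2 : ℝ) := by
      rw [Real.rpow_two]; nlinarith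
    calc (N : ℝ) ^ (1 / 1000000000 : ℝ) ≤ ((M : ℝ) ^ (2 : ℝ)) ^ (1 / 1000000000 : ℝ) :=
          Real.rpow_le_rpow (Nat.cast_nonneg _) h5 (by norm_num)
      _ = (M : ℝ) ^ (2 / 1000000000 : ℝ) := by rw [← Real.rpow_mul hM0.le]; norm_num
      _ ≤ (M : ℝ) ^ (1 / 100000000 : ℝ) := Real.rpow_le_rpow_of_exponent_le (by linarith) (by norm_num)
  have himg : ((G.image (fun i => (i.1 : ℚ) / i.2) : Finset ℚ) : Set ℚ) ⊆ RS α β (1 / 1000000000) N := by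
    classical
    intro r hr
    rw [mem_coe, mem_image] at hr
    obtain ⟨⟨b, a⟩, hi, rfl⟩ := hr
    rw [hG, mem_filter, mem_product, mem_Ioc, mem_Icc] at hi
    obtain ⟨⟨⟨hb1, hb2⟩, ha1, ha2⟩, hg⟩ := hi
    simp only at hb1 hb2 ha1 ha2 hg ⊢
    set W := (SS T b).filter (fun p => Qc k x b a p) with hW
    have hWc : W.card = gg T k x b a := rfl
    -- every `p ∈ W` gives a representation
    have hrep : ∀ p ∈ W, p.Prime ∧ (1 + a * ((p ^ 2 - 1) / b)).Prime ∧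
        (b : ℚ) / a = ((p : ℚ) ^ 2 - 1) / (((1 + a * ((p ^ 2 - 1) / b) : ℕ) : ℚ) - 1) := by
      intro p hp
      rw [hW, mem_filter] at hp
      obtain ⟨e1, e2, e3⟩ := SS_mul hT hp.1
      obtain ⟨t, ht, -, htp⟩ := mem_SS hp.1
      have hpp : p.Prime := htp ▸ (hT t ht).pprime
      exact ⟨hpp, hp.2.1, ratio_eq e1 e2 e3 (by omega) hpp.one_lt.le⟩
    -- there is one
    have hne : 0 < W.card := by
      have h6 : (0 : ℝ) < gg T k x b a := lt_of_lt_of_le (by positivity) hg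
      rw [hWc]; exact_mod_cast h6
    obtain ⟨p, hp⟩ := card_pos.1 hne
    have hp' := hp
    rw [hW, mem_filter] at hp'
    obtain ⟨t, ht, -, htp⟩ := mem_SS hp'.1
    have hTup := hT t ht
    rw [← htp] at hp'
    obtain ⟨-, ⟨hq1, hq2, hq3⟩⟩ := hp'
    have hb := r_bounds (N := M) hα hαβ hε hκ hκ1 hpar hPB hP0 hTup.plo hTup.phi hq2 hq3 hq1.one_lt
    obtain ⟨-, -, hratio⟩ := hrep p hp
    rw [← htp] at hratio
    have hratioR : (((b : ℚ) / a : ℚ) : ℝ) = ((t.2.2 : ℝ) ^ 2 - 1) / (((1 + a * ((t.2.2 ^ 2 - 1) / b) : ℕ) : ℝ) - 1) := by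
      rw [hratio]; push_cast; rfl
    refine ⟨by rw [hratioR]; exact hb.1, by rw [hratioR]; exact hb.2, ?_, ?_⟩
    · -- numerator
      have h7 : ((b : ℚ) / a).num ≤ b := by
        have h8 : ((b : ℚ) / a) = (((b : ℤ)) : ℚ) / ((a : ℤ) : ℚ) := by push_cast; rfl
        rw [h8, ← Rat.divInt_eq_div]
        have h9 := Rat.num_dvd (b : ℤ) (b := (a : ℤ)) (by omega)
        exact Int.le_of_dvd (by omega) h9
      omega
    · refine ⟨W.image (fun p => (p, 1 + a * ((p ^ 2 - 1) / b))), ?_, ?_⟩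
      · rw [card_image_of_injective _ (fun p p' h => (Prod.mk.inj h).1), hWc]
        exact hexp.trans hg
      · intro s hs
        rw [mem_image] at hs
        obtain ⟨p', hp', rfl⟩ := hs
        exact hrep p' hp'
  have h5 : ((G.image (fun i => (i.1 : ℚ) / i.2)).card : ℝ) ≤ ((RS α β (1 / 1000000000) N).ncard : ℝ) := by
    rw [← Set.ncard_coe_finset]
    exact_mod_cast Set.ncard_le_ncard himg (RS_finite hα N)
  calc c' / 9 * (N : ℝ) ^ 2 ≤ c' / 9 * (3 * M) ^ 2 := by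
        apply mul_le_mul_of_nonneg_left _ (by positivity)
        exact pow_le_pow_left₀ (Nat.cast_nonneg _) hNR 2
    _ = c' * (M : ℝ) ^ 2 := by ring
    _ ≤ _ := h4
    _ ≤ _ := h5

end Pool.Agent.ZH
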