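import Pool.Agent.Work.ZH.Defs
import Pool.Agent.Work.MP_92f640_nt.HS.SwFB
import Pool.Agent.Work.MP_92f640_nt.HS.Rankin

/-! # Siegel-Walfisz for structured sequences -/

namespace Pool.Agent.ZH

open Finset Filter Pool.Agent.BV
open Pool.Agent.HS (y0 prime_sum_char evt_y0 rankin card_primeFactors_le)
open Pool.Agent.HL (evt_log evt_pow)

noncomputable section

/-- the largest prime factor -/
def SWgp (n : ℕ) : ℕ := n.primeFactors.sup id

theorem SWgp_mem {n : ℕ} (h : 2 ≤ n) : SWgp n ∈ n.primeFactors := by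
  unfold SWgp
  obtain ⟨p, hp, hpd⟩ := Nat.exists_prime_and_dvd (show n ≠ 1 by omega)
  have hne : n.primeFactors.Nonempty := ⟨p, Nat.mem_primeFactors.2 ⟨hp, hpd, by omega⟩⟩
  obtain ⟨q, hq, he⟩ := Finset.exists_mem_eq_sup n.primeFactors hne id
  rw [he]
  exact hq

theorem le_SWgp {n p : ℕ} (hp : p.Prime) (hd : p ∣ n) (hn : n ≠ 0) : p ≤ SWgp n :=
  Finset.le_sup (f := id) (Nat.mem_primeFactors.2 ⟨hp, hd, hn⟩)

theorem SWgp_le_iff {n p : ℕ} (hn : n ≠ 0) :
    SWgp n ≤ p ↔ ∀ s : ℕ, s.Prime → s ∣ n → s ≤ p := by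
  constructor
  · intro h s hs hsd
    exact (le_SWgp hs hsd hn).trans h
  · intro h
    unfold SWgp
    refine Finset.sup_le fun s hs => ?_
    exact h s (Nat.prime_of_mem_primeFactors hs) (Nat.dvd_of_mem_primeFactors hs)

theorem SWgp_eq {n p : ℕ} (hp : p.Prime) (hn : 0 < n) (h : ∀ q : ℕ, q.Prime → q ∣ n → q ≤ p) :
    SWgp (p * n) = p := by
  have hpn : p * n ≠ 0 := Nat.mul_ne_zero hp.ne_zero hn.ne'
  apply le_antisymm
  · unfold SWgp
    refine Finset.sup_le fun q hq => ?_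
    have hqp := Nat.prime_of_mem_primeFactors hq
    rcases (hqp.dvd_mul).1 (Nat.dvd_of_mem_primeFactors hq) with h1 | h1
    · exact ((Nat.prime_dvd_prime_iff_eq hqp hp).1 h1).le
    · exact h q hqp h1
  · exact le_SWgp hp (Nat.dvd_mul_right p n) hpn

/-- few integers have only prime factors `< y0 X` -/
theorem SWStruct_smooth (B : ℕ) : ∀ᶠ X : ℕ in atTop, ∀ s : Finset ℕ, s ⊆ Icc 1 X →
    (∀ l ∈ s, ∀ p : ℕ, p.Prime → p ∣ l → p < y0 X) →
    (s.card : ℝ) ≤ 2 * (X / (Real.log X) ^ B) := by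
  classical
  obtain ⟨x₁, hx₁⟩ := rankin (1 / 4) (by norm_num) B
  filter_upwards [eventually_ge_atTop x₁, evt_pow 4 B (1 / 4) (by norm_num), evt_log 1,
    eventually_ge_atTop 1] with X hX hlp hl1 hX1 s hs hsm
  have hX1' : (1 : ℝ) ≤ X := by exact_mod_cast hX1
  have hX0 : (0 : ℝ) < X := by linarith
  have h1 := hx₁ X hX
  set S1 := (Icc 1 X).filter (fun n => ∃ d : ℕ, d ∣ n ∧ Squarefree d ∧
    (∀ p : ℕ, p.Prime → p ∣ d → p < y0 X) ∧ (X : ℝ) ^ (1 / 4 : ℝ) ≤ d) with hS1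
  set D : ℕ := ⌊(X : ℝ) ^ (1 / 4 : ℝ)⌋₊ + 1 with hD
  set T : ℕ := Nat.sqrt X + 1 with hT
  set S2 := (range D ×ˢ range T).image (fun a => a.2 ^ 2 * a.1) with hS2
  have hsub : s ⊆ S1 ∪ S2 := by
    intro l hl
    have hlX := mem_Icc.1 (hs hl)
    obtain ⟨d, t, hd0, ht0, hdt, hsq⟩ := Nat.sq_mul_squarefree_of_pos (show 0 < l by omega)
    rw [mem_union]
    by_cases hbig : (X : ℝ) ^ (1 / 4 : ℝ) ≤ d
    · left
      rw [hS1, mem_filter]
      have hdl : d ∣ l := Dvd.intro_left _ hdt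
      exact ⟨hs hl, d, hdl, hsq, fun p hp hpd => hsm l hl p hp (hpd.trans hdl), hbig⟩
    · right
      rw [hS2, mem_image]
      refine ⟨(d, t), ?_, hdt⟩
      rw [mem_product, mem_range, mem_range]
      constructor
      · rw [not_le] at hbig
        have : d ≤ ⌊(X : ℝ) ^ (1 / 4 : ℝ)⌋₊ := Nat.le_floor hbig.le
        show d < D
        omega
      · have : t ≤ Nat.sqrt X := by
          rw [Nat.le_sqrt']
          calc t ^ 2 ≤ t ^ 2 * d := Nat.le_mul_of_pos_right _ hd0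
            _ = l := hdt
            _ ≤ X := hlX.2
        show t < T
        omega
  have hX4 : 1 ≤ (X : ℝ) ^ (1 / 4 : ℝ) := Real.one_le_rpow hX1' (by norm_num)
  have hX2 : 1 ≤ (X : ℝ) ^ (1 / 2 : ℝ) := Real.one_le_rpow hX1' (by norm_num)
  have hDle : (D : ℝ) ≤ 2 * (X : ℝ) ^ (1 / 4 : ℝ) := by
    rw [hD]
    push_cast
    have := Nat.floor_le (show (0 : ℝ) ≤ (X : ℝ) ^ (1 / 4 : ℝ) by positivity)
    linarith
  have hTle : (T : ℝ) ≤ 2 * (X : ℝ) ^ (1 / 2 : ℝ) := by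
    rw [hT]
    push_cast
    have h2 : ((Nat.sqrt X : ℕ) : ℝ) ≤ Real.sqrt X := Real.nat_sqrt_le_real_sqrt
    rw [Real.sqrt_eq_rpow] at h2
    linarith
  have hS2c : (S2.card : ℝ) ≤ X / (Real.log X) ^ B := by
    have h3 : S2.card ≤ D * T := by
      refine card_image_le.trans ?_
      rw [card_product, card_range, card_range]
    have h4 : (S2.card : ℝ) ≤ D * T := by exact_mod_cast h3
    have hlB : 0 < (Real.log X) ^ B := by positivity
    rw [le_div_iff₀ hlB]
    have h0 : (0 : ℝ) ≤ D * T := by positivity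
    calc (S2.card : ℝ) * Real.log X ^ B ≤ (D * T) * Real.log X ^ B := by gcongr
      _ ≤ ((2 * (X : ℝ) ^ (1 / 4 : ℝ)) * (2 * (X : ℝ) ^ (1 / 2 : ℝ))) * Real.log X ^ B := by
          gcongr
      _ = ((X : ℝ) ^ (1 / 4 : ℝ) * (X : ℝ) ^ (1 / 2 : ℝ)) * (4 * Real.log X ^ B) := by ring
      _ ≤ ((X : ℝ) ^ (1 / 4 : ℝ) * (X : ℝ) ^ (1 / 2 : ℝ)) * (X : ℝ) ^ (1 / 4 : ℝ) := by gcongr
      _ = X := by
          rw [← Real.rpow_add hX0, ← Real.rpow_add hX0]
          norm_num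
  have h5 : s.card ≤ S1.card + S2.card := (card_le_card hsub).trans (card_union_le _ _)
  have h6 : (s.card : ℝ) ≤ S1.card + S2.card := by exact_mod_cast h5
  linarith

/-- the decomposition by the largest prime factor -/
theorem SWStruct_decomp (L q y : ℕ) (hy : 2 ≤ y) (f : ℕ → ℂ) :
    ∑ l ∈ ((Ico L (2 * L)).filter (fun l => Nat.Coprime l q)).filter (fun l => y ≤ SWgp l), f l =
      ∑ n ∈ Icc 1 (2 * L / y), ∑ p ∈ (Ico y (2 * L)).filter Nat.Prime,
        if SWgp n ≤ p ∧ L ≤ p * n ∧ p * n < 2 * L ∧ Nat.Coprime (p * n) q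
          then f (p * n) else 0 := by
  classical
  rw [← Finset.sum_product', ← Finset.sum_filter]
  apply Finset.sum_nbij' (fun l => (l / SWgp l, SWgp l)) (fun a => a.2 * a.1)
  · intro l hl
    rw [mem_filter, mem_filter, mem_Ico] at hl
    obtain ⟨⟨⟨h1, h2⟩, h3⟩, h4⟩ := hl
    have hl2 : 2 ≤ l := by
      by_contra hcon
      have : l = 1 := by omega
      rw [this] at h4
      have : SWgp 1 = 0 := by simp [SWgp]
      omega
    have hmem := SWgp_mem hl2
    have hpp := Nat.prime_of_mem_primeFactors hmem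
    have hpd := Nat.dvd_of_mem_primeFactors hmem
    have he : SWgp l * (l / SWgp l) = l := Nat.mul_div_cancel' hpd
    have hpl : SWgp l ≤ l := Nat.le_of_dvd (by omega) hpd
    rw [mem_filter, mem_product, mem_Icc, mem_filter, mem_Ico]
    refine ⟨⟨⟨?_, ?_⟩, ⟨h4, ?_⟩, hpp⟩, ?_, ?_, ?_, ?_⟩
    · exact Nat.div_pos hpl hpp.pos
    · rw [Nat.le_div_iff_mul_le (by omega)]
      calc l / SWgp l * y ≤ l / SWgp l * SWgp l := Nat.mul_le_mul_left _ h4
        _ = l := by rw [mul_comm]; exact he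
        _ ≤ 2 * L := h2.le
    · exact lt_of_le_of_lt hpl h2
    · have hne : l / SWgp l ≠ 0 := (Nat.div_pos hpl hpp.pos).ne'
      rw [SWgp_le_iff hne]
      intro s hs hsd
      exact le_SWgp hs (hsd.trans (Nat.div_dvd_of_dvd hpd)) (by omega)
    · simp only [he]
      exact h1
    · simp only [he]
      exact h2
    · simp only [he]
      exact h3
  · intro a ha
    rw [mem_filter, mem_product, mem_Icc, mem_filter, mem_Ico] at ha
    obtain ⟨⟨⟨h1, h2⟩, ⟨h3, h4⟩, h5⟩, h6, h7, h8, h9⟩ := ha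
    rw [mem_filter, mem_filter, mem_Ico,
      SWgp_eq h5 h1 ((SWgp_le_iff (by omega)).1 h6)]
    exact ⟨⟨⟨h7, h8⟩, h9⟩, h3⟩
  · intro l hl
    rw [mem_filter, mem_filter, mem_Ico] at hl
    obtain ⟨⟨⟨h1, h2⟩, h3⟩, h4⟩ := hl
    have hl2 : 2 ≤ l := by
      by_contra hcon
      have : l = 1 := by omega
      rw [this] at h4
      have : SWgp 1 = 0 := by simp [SWgp]
      omega
    exact Nat.mul_div_cancel' (Nat.dvd_of_mem_primeFactors (SWgp_mem hl2))
  · intro a ha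
    rw [mem_filter, mem_product, mem_Icc, mem_filter, mem_Ico] at ha
    obtain ⟨⟨⟨h1, h2⟩, ⟨h3, h4⟩, h5⟩, h6, h7, h8, h9⟩ := ha
    simp only [SWgp_eq h5 h1 ((SWgp_le_iff (by omega)).1 h6)]
    rw [Nat.mul_div_cancel_left _ h5.pos]
  · intro l hl
    rw [mem_filter, mem_filter, mem_Ico] at hl
    obtain ⟨⟨⟨h1, h2⟩, h3⟩, h4⟩ := hl
    have hl2 : 2 ≤ l := by
      by_contra hcon
      have : l = 1 := by omega
      rw [this] at h4
      have : SWgp 1 = 0 := by simp [SWgp]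
      omega
    rw [Nat.mul_div_cancel' (Nat.dvd_of_mem_primeFactors (SWgp_mem hl2))]

/-- the inner sum over the largest prime factor -/
theorem SWStruct_inner {r : ℕ} (χ : DirichletCharacter ℂ r) (L q y n : ℕ) (hn : 1 ≤ n)
    (hq : 0 < q) (β c : ℕ → ℂ) (lo hi : ℕ → ℕ) (hc : ∀ n, ‖c n‖ ≤ 1)
    (hβ : ∀ n p : ℕ, 0 < n → p.Prime → p < 2 * L → (∀ q : ℕ, q.Prime → q ∣ n → q ≤ p) →
      β (p * n) = if lo n ≤ p ∧ p < hi n then c n else 0) (E : ℝ) (hE : 0 ≤ E)
    (hsum : ∀ a b : ℕ, y ≤ a → b ≤ 2 * L / n + 1 →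
      ‖∑ p ∈ (Ico a b).filter Nat.Prime, χ (p : ZMod r)‖ ≤ E) :
    ‖∑ p ∈ (Ico y (2 * L)).filter Nat.Prime,
        (if SWgp n ≤ p ∧ L ≤ p * n ∧ p * n < 2 * L ∧ Nat.Coprime (p * n) q
          then β (p * n) * χ ((p * n : ℕ) : ZMod r) else 0)‖ ≤ E + q.primeFactors.card := by
  classical
  have hcard0 : (0 : ℝ) ≤ q.primeFactors.card := Nat.cast_nonneg _
  by_cases hnq : Nat.Coprime n q
  swap
  · rw [sum_eq_zero]
    · rw [norm_zero]
      positivity
    · intro p _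
      rw [if_neg]
      rintro ⟨_, _, _, h⟩
      exact hnq (Nat.Coprime.coprime_mul_left h)
  set a : ℕ := max y (max (SWgp n) (max ((L + n - 1) / n) (lo n))) with ha
  set b : ℕ := min ((2 * L + n - 1) / n) (hi n) with hb
  have hcl : ∀ K p : ℕ, (K + n - 1) / n ≤ p ↔ K ≤ p * n := by
    intro K p
    have h1 : (K + n - 1) / n < p + 1 ↔ K + n - 1 < (p + 1) * n :=
      Nat.div_lt_iff_lt_mul (by omega)
    rw [← Nat.lt_succ_iff, Nat.succ_eq_add_one, h1, add_mul, one_mul]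
    omega
  have h1 : ∑ p ∈ (Ico y (2 * L)).filter Nat.Prime,
        (if SWgp n ≤ p ∧ L ≤ p * n ∧ p * n < 2 * L ∧ Nat.Coprime (p * n) q
          then β (p * n) * χ ((p * n : ℕ) : ZMod r) else 0) =
      c n * χ (n : ZMod r) * ∑ p ∈ (Ico a b).filter Nat.Prime,
        (χ (p : ZMod r) - if Nat.Coprime p q then 0 else χ (p : ZMod r)) := by
    rw [mul_sum]
    have h2 : ∀ p ∈ (Ico y (2 * L)).filter Nat.Prime,
        (if SWgp n ≤ p ∧ L ≤ p * n ∧ p * n < 2 * L ∧ Nat.Coprime (p * n) q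
          then β (p * n) * χ ((p * n : ℕ) : ZMod r) else 0) =
        if a ≤ p ∧ p < b then c n * χ (n : ZMod r) *
          (χ (p : ZMod r) - if Nat.Coprime p q then 0 else χ (p : ZMod r)) else 0 := by
      intro p hp
      rw [mem_filter, mem_Ico] at hp
      obtain ⟨⟨hp1, hp2⟩, hpp⟩ := hp
      by_cases h3 : SWgp n ≤ p
      swap
      · rw [if_neg (fun h => h3 h.1), if_neg]
        rintro ⟨h4, _⟩
        exact h3 (le_trans (by simp [ha]) h4)
      have hβ' := hβ n p hn hpp hp2 ((SWgp_le_iff (by omega)).1 h3)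
      by_cases h4 : L ≤ p * n ∧ p * n < 2 * L
      swap
      · rw [if_neg (fun h => h4 ⟨h.2.1, h.2.2.1⟩), if_neg]
        rintro ⟨h5, h6⟩
        apply h4
        have h7 : (L + n - 1) / n ≤ p := le_trans (by simp [ha]) h5
        have h8 : p < (2 * L + n - 1) / n := lt_of_lt_of_le h6 (min_le_left _ _)
        refine ⟨(hcl L p).1 h7, ?_⟩
        by_contra h9
        exact absurd ((hcl (2 * L) p).2 (not_lt.1 h9)) (not_le.2 h8)
      have h7 : (L + n - 1) / n ≤ p := (hcl L p).2 h4.1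
      have h8 : p < (2 * L + n - 1) / n := by
        by_contra h9
        exact absurd ((hcl (2 * L) p).1 (not_lt.1 h9)) (not_le.2 h4.2)
      have hab : (a ≤ p ∧ p < b) ↔ (lo n ≤ p ∧ p < hi n) := by
        rw [ha, hb]
        simp only [max_le_iff, lt_min_iff]
        constructor
        · rintro ⟨⟨_, _, _, h10⟩, _, h11⟩
          exact ⟨h10, h11⟩
        · rintro ⟨h10, h11⟩
          exact ⟨⟨hp1, h3, h7, h10⟩, h8, h11⟩
      have hcop : Nat.Coprime (p * n) q ↔ Nat.Coprime p q := by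
        rw [Nat.coprime_mul_iff_left]
        exact ⟨fun h => h.1, fun h => ⟨h, hnq⟩⟩
      by_cases h12 : Nat.Coprime p q
      · rw [if_pos ⟨h3, h4.1, h4.2, hcop.2 h12⟩, hβ', if_pos h12, sub_zero]
        by_cases h13 : lo n ≤ p ∧ p < hi n
        · rw [if_pos h13, if_pos (hab.2 h13), Nat.cast_mul, map_mul]
          ring
        · rw [if_neg h13, if_neg (fun h => h13 (hab.1 h)), zero_mul]
      · rw [if_neg (fun h => h12 (hcop.1 h.2.2.2)), if_neg h12, sub_self, mul_zero]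
        split_ifs <;> rfl
    rw [sum_congr rfl h2, ← sum_filter, filter_filter]
    refine sum_congr ?_ fun _ _ => rfl
    ext p
    rw [mem_filter, mem_filter, mem_Ico, mem_Ico]
    constructor
    · rintro ⟨⟨_, _⟩, hpp, h3, h4⟩
      exact ⟨⟨h3, h4⟩, hpp⟩
    · rintro ⟨⟨h3, h4⟩, hpp⟩
      have h5 : p < (2 * L + n - 1) / n := lt_of_lt_of_le h4 (min_le_left _ _)
      have h6 : p * n < 2 * L := by
        by_contra h9
        exact absurd ((hcl (2 * L) p).2 (not_lt.1 h9)) (not_le.2 h5)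
      have h7 : p ≤ p * n := Nat.le_mul_of_pos_right p (by omega)
      exact ⟨⟨le_trans (by simp [ha]) h3, by omega⟩, hpp, h3, h4⟩
  rw [h1, norm_mul, norm_mul, sum_sub_distrib]
  have hb' : b ≤ 2 * L / n + 1 := by
    refine (min_le_left _ _).trans ?_
    calc (2 * L + n - 1) / n ≤ (2 * L + n) / n := Nat.div_le_div_right (by omega)
      _ = 2 * L / n + 1 := Nat.add_div_right _ (by omega)
  have h3 := hsum a b (le_max_left _ _) hb'
  have h4 : ‖∑ p ∈ (Ico a b).filter Nat.Prime,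
      (if Nat.Coprime p q then 0 else χ (p : ZMod r))‖ ≤ q.primeFactors.card := by
    calc ‖∑ p ∈ (Ico a b).filter Nat.Prime, (if Nat.Coprime p q then 0 else χ (p : ZMod r))‖
        ≤ ∑ p ∈ (Ico a b).filter Nat.Prime, (if p ∈ q.primeFactors then (1 : ℝ) else 0) := by
          refine (norm_sum_le _ _).trans (sum_le_sum fun p hp => ?_)
          have hpp := (mem_filter.1 hp).2
          by_cases h5 : Nat.Coprime p q
          · rw [if_pos h5, norm_zero]
            split_ifs <;> norm_num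
          · have h6 : p ∈ q.primeFactors :=
              Nat.mem_primeFactors.2 ⟨hpp, by
                by_contra h7
                exact h5 ((Nat.Prime.coprime_iff_not_dvd hpp).2 h7), hq.ne'⟩
            rw [if_neg h5, if_pos h6]
            exact DirichletCharacter.norm_le_one _ _
      _ = (((Ico a b).filter Nat.Prime).filter (fun p => p ∈ q.primeFactors)).card := by
          rw [sum_boole]
      _ ≤ _ := by
          have : ((Ico a b).filter Nat.Prime).filter (fun p => p ∈ q.primeFactors) ⊆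
              q.primeFactors := fun p hp => (mem_filter.1 hp).2
          exact_mod_cast card_le_card this
  have h5 : ‖c n‖ * ‖χ (n : ZMod r)‖ ≤ 1 := by
    calc ‖c n‖ * ‖χ (n : ZMod r)‖ ≤ 1 * 1 := by
          gcongr
          · exact hc n
          · exact DirichletCharacter.norm_le_one _ _
      _ = 1 := one_mul 1
  have h6 : ‖∑ p ∈ (Ico a b).filter Nat.Prime, χ (p : ZMod r) -
      ∑ p ∈ (Ico a b).filter Nat.Prime, (if Nat.Coprime p q then 0 else χ (p : ZMod r))‖ ≤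
      E + q.primeFactors.card := (norm_sub_le _ _).trans (add_le_add h3 h4)
  calc ‖c n‖ * ‖χ (n : ZMod r)‖ * _ ≤ 1 * (E + q.primeFactors.card) :=
        mul_le_mul h5 h6 (norm_nonneg _) zero_le_one
    _ = _ := one_mul _

/-- Siegel-Walfisz for structured sequences -/
theorem sw_struct (A B : ℕ) : ∃ C : ℝ, 0 < C ∧ ∃ x₀ : ℕ, ∀ x ≥ x₀, ∀ L : ℕ, x ^ 2 ≤ L ^ 5 → L ≤ x →
    ∀ β : ℕ → ℂ, (∀ l, ‖β l‖ ≤ 1) → Struct β → ∀ r : ℕ, 1 < r → (r : ℝ) ≤ Real.log x ^ B →
    ∀ χ ∈ prim r, ∀ q : ℕ, 0 < q → q ≤ x →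
    ‖∑ l ∈ (Ico L (2 * L)).filter (fun l => Nat.Coprime l q), β l * χ (l : ZMod r)‖ ≤
      C * L / Real.log x ^ A := by
  classical
  obtain ⟨X₀, hX₀⟩ := eventually_atTop.1 ((SWStruct_smooth (A + 1)).and
    ((prime_sum_char (B + 1) (A + 3)).and ((evt_y0 5 (A + 2)).and
      ((evt_log (1 + (5 / 2) ^ B)).and (evt_y0 2 0)))))
  refine ⟨10 * (5 / 2) ^ A, by positivity, (X₀ + 1) ^ 3, ?_⟩
  intro x hx L hxL hLx β hβ hst r hr hrx χ hχ q hq hqx
  obtain ⟨c, lo, hi₀, hc, hβs₀⟩ := hst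
  set hi : ℕ → ℕ := fun n => (min (hi₀ n) ((2 * L : ℕ) : ℕ∞)).toNat with hhi
  have hβs : ∀ n p : ℕ, 0 < n → p.Prime → p < 2 * L → (∀ q : ℕ, q.Prime → q ∣ n → q ≤ p) →
      β (p * n) = if lo n ≤ p ∧ p < hi n then c n else 0 := by
    intro n p hn hp hpL hq'
    rw [hβs₀ n p hn hp hq']
    have h1 : ((hi n : ℕ) : ℕ∞) = min (hi₀ n) ((2 * L : ℕ) : ℕ∞) := by
      rw [hhi]
      apply ENat.natCast_toNat
      exact ne_top_of_le_ne_top (ENat.natCast_ne_top _) (min_le_right _ _)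
    have h2 : p < hi n ↔ (p : ℕ∞) < hi₀ n := by
      rw [← Nat.cast_lt (α := ℕ∞), h1, lt_min_iff]
      constructor
      · exact fun h => h.1
      · exact fun h => ⟨h, by exact_mod_cast hpL⟩
    simp only [h2]
  -- sizes
  have hx1 : 1 ≤ x := le_trans (Nat.one_le_pow _ _ (by omega)) hx
  have hL1 : 1 ≤ L := by
    by_contra hcon
    have : L = 0 := by omega
    rw [this] at hxL
    have := Nat.one_le_pow 2 x hx1
    omega
  have hXL : X₀ ≤ 2 * L := by
    by_contra hcon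
    have h1 : L < X₀ + 1 := by omega
    have h2 : L ^ 5 < (X₀ + 1) ^ 6 := by
      calc L ^ 5 < (X₀ + 1) ^ 5 := Nat.pow_lt_pow_left h1 (by norm_num)
        _ ≤ (X₀ + 1) ^ 6 := Nat.pow_le_pow_right (by omega) (by norm_num)
    have h3 : ((X₀ + 1) ^ 3) ^ 2 ≤ x ^ 2 := Nat.pow_le_pow_left hx 2
    rw [← pow_mul, show 3 * 2 = 6 by norm_num] at h3
    omega
  obtain ⟨hsm, hpc, hy5, hl1, hy2⟩ := hX₀ (2 * L) hXL
  set X : ℕ := 2 * L with hX
  set ℓ : ℝ := Real.log X with hℓ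
  set y : ℕ := y0 X with hy
  have h52 : (0 : ℝ) < (5 / 2) ^ B := by positivity
  have hℓ1 : 1 ≤ ℓ := by linarith
  have hℓ0 : 0 < ℓ := by linarith
  have hX0 : (0 : ℝ) < X := by
    have : 0 < X := by omega
    exact_mod_cast this
  have hy2' : 2 ≤ y := by
    rw [pow_zero, mul_one] at hy2
    exact_mod_cast hy2
  have hy0 : (0 : ℝ) < y := by exact_mod_cast (by omega : 0 < y)
  have hlx0 : 0 ≤ Real.log x := Real.log_natCast_nonneg x
  have hlog : Real.log x ≤ 5 / 2 * ℓ := by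
    have h1 : (x : ℝ) ^ 2 ≤ (X : ℝ) ^ 5 := by
      have h2 : x ^ 2 ≤ X ^ 5 := hxL.trans (Nat.pow_le_pow_left (by omega) 5)
      exact_mod_cast h2
    have h3 := Real.log_le_log (by
      have : (0 : ℝ) < x := by exact_mod_cast hx1
      positivity) h1
    rw [Real.log_pow, Real.log_pow] at h3
    push_cast at h3
    linarith
  have hr' : (r : ℝ) ≤ ℓ ^ (B + 1) := by
    calc (r : ℝ) ≤ Real.log x ^ B := hrx
      _ ≤ (5 / 2 * ℓ) ^ B := by gcongr
      _ = (5 / 2) ^ B * ℓ ^ B := mul_pow _ _ _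
      _ ≤ ℓ * ℓ ^ B := by
          gcongr
          linarith
      _ = ℓ ^ (B + 1) := by ring
  have hω : (q.primeFactors.card : ℝ) ≤ 5 * ℓ := by
    have h1 := card_primeFactors_le q hq.ne'
    have h2 : Real.log q ≤ Real.log x :=
      Real.log_le_log (by exact_mod_cast hq) (by exact_mod_cast hqx)
    linarith
  -- the two parts
  set f : ℕ → ℂ := fun l => β l * χ (l : ZMod r) with hf
  rw [← Finset.sum_filter_add_sum_filter_not ((Ico L (2 * L)).filter (fun l => Nat.Coprime l q))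
    (fun l => y ≤ SWgp l)]
  have hpart2 : ‖∑ l ∈ ((Ico L (2 * L)).filter (fun l => Nat.Coprime l q)).filter
      (fun l => ¬ y ≤ SWgp l), β l * χ (l : ZMod r)‖ ≤ 2 * (X / ℓ ^ (A + 1)) := by
    refine le_trans ?_ (hsm (((Ico L (2 * L)).filter (fun l => Nat.Coprime l q)).filter
      (fun l => ¬ y ≤ SWgp l)) ?_ ?_)
    · rw [← nsmul_one, ← sum_const]
      refine (norm_sum_le _ _).trans (sum_le_sum fun l _ => ?_)
      rw [norm_mul]
      calc ‖β l‖ * ‖χ (l : ZMod r)‖ ≤ 1 * 1 := by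
            gcongr
            · exact hβ l
            · exact DirichletCharacter.norm_le_one _ _
        _ = 1 := one_mul 1
    · intro l hl
      rw [mem_filter, mem_filter, mem_Ico] at hl
      rw [mem_Icc]
      omega
    · intro l hl p hp hpd
      rw [mem_filter, mem_filter, mem_Ico] at hl
      have h1 := le_SWgp hp hpd (by omega)
      omega
  have hpart1 : ‖∑ l ∈ ((Ico L (2 * L)).filter (fun l => Nat.Coprime l q)).filter
      (fun l => y ≤ SWgp l), β l * χ (l : ZMod r)‖ ≤ 3 * (X / ℓ ^ (A + 1)) := by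
    rw [SWStruct_decomp L q y hy2' (fun l => β l * χ (l : ZMod r))]
    have h1 : ∀ n ∈ Icc 1 (2 * L / y), ‖∑ p ∈ (Ico y (2 * L)).filter Nat.Prime,
        (if SWgp n ≤ p ∧ L ≤ p * n ∧ p * n < 2 * L ∧ Nat.Coprime (p * n) q
          then β (p * n) * χ ((p * n : ℕ) : ZMod r) else 0)‖ ≤
        X / ℓ ^ (A + 3) * (1 / n) + 5 * ℓ := by
      intro n hn
      rw [mem_Icc] at hn
      have hn0 : (0 : ℝ) < n := by exact_mod_cast hn.1
      have hyn : y ≤ 2 * L / n := by
        rw [Nat.le_div_iff_mul_le (by omega)]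
        have := (Nat.le_div_iff_mul_le (by omega : 0 < y)).1 hn.2
        rw [mul_comm]
        exact this
      have h2 := SWStruct_inner χ L q y n hn.1 hq β c lo hi hc hβs
        (((2 * L / n : ℕ) : ℝ) / ℓ ^ (A + 3)) (by positivity)
        (fun a b ha hb => hpc r hr hr' χ hχ (2 * L / n) a b ha hb hyn)
      refine h2.trans (add_le_add ?_ hω)
      have h3 : ((2 * L / n : ℕ) : ℝ) ≤ X / n := Nat.cast_div_le
      calc ((2 * L / n : ℕ) : ℝ) / ℓ ^ (A + 3) ≤ (X / n) / ℓ ^ (A + 3) := by gcongr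
        _ = X / ℓ ^ (A + 3) * (1 / n) := by ring
    refine (norm_sum_le _ _).trans ((sum_le_sum h1).trans ?_)
    rw [sum_add_distrib, ← mul_sum, sum_const, nsmul_eq_mul, Nat.card_Icc, Nat.add_sub_cancel]
    have hharm : ∑ n ∈ Icc 1 (2 * L / y), 1 / (n : ℝ) ≤ 2 * ℓ := by
      have h4 := LBound_harm (2 * L / y)
      have h5 : Ioc 0 (2 * L / y) = Icc 1 (2 * L / y) := by
        ext n
        rw [mem_Ioc, mem_Icc]
        omega
      rw [h5] at h4
      have h6 : Real.log ((2 * L / y : ℕ) : ℝ) ≤ ℓ := by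
        rcases Nat.eq_zero_or_pos (2 * L / y) with h7 | h7
        · rw [h7, Nat.cast_zero, Real.log_zero]
          exact hℓ0.le
        · exact Real.log_le_log (by exact_mod_cast h7) (by exact_mod_cast Nat.div_le_self _ _)
      linarith
    have hcardM : ((2 * L / y : ℕ) : ℝ) ≤ X / y := Nat.cast_div_le
    have t1 : X / ℓ ^ (A + 3) * ∑ n ∈ Icc 1 (2 * L / y), 1 / (n : ℝ) ≤ 2 * (X / ℓ ^ (A + 1)) := by
      calc X / ℓ ^ (A + 3) * ∑ n ∈ Icc 1 (2 * L / y), 1 / (n : ℝ) ≤ X / ℓ ^ (A + 3) * (2 * ℓ) := by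
            gcongr
        _ = 2 * (X / ℓ ^ (A + 1)) * (1 / ℓ) := by
            field_simp
            ring
        _ ≤ 2 * (X / ℓ ^ (A + 1)) * 1 := by
            gcongr
            rw [div_le_one hℓ0]
            exact hℓ1
        _ = _ := mul_one _
    have t2 : ((2 * L / y : ℕ) : ℝ) * (5 * ℓ) ≤ X / ℓ ^ (A + 1) := by
      calc ((2 * L / y : ℕ) : ℝ) * (5 * ℓ) ≤ X / y * (5 * ℓ) := by gcongr
        _ ≤ X / (5 * ℓ ^ (A + 2)) * (5 * ℓ) := by gcongr
        _ = X / ℓ ^ (A + 1) := by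
            field_simp
            ring
    linarith
  refine (norm_add_le _ _).trans ((add_le_add hpart1 hpart2).trans ?_)
  have hXr : (X : ℝ) = 2 * L := by
    rw [hX]
    push_cast
    ring
  have hlx : 0 < Real.log x := by
    have h1 : (X : ℝ) ≤ 2 * x := by
      rw [hXr]
      have : (L : ℝ) ≤ x := by exact_mod_cast hLx
      linarith
    have h2 : 2 ≤ x := by
      by_contra hcon
      have h3 : x = 1 := by omega
      have h4 : ℓ ≤ Real.log 2 := by
        rw [h3] at h1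
        exact Real.log_le_log hX0 (by simpa using h1)
      have := Real.log_two_lt_d9
      linarith
    exact Real.log_pos (by exact_mod_cast (by omega : 1 < x))
  rw [le_div_iff₀ (by positivity)]
  have h7 : Real.log x ^ A ≤ (5 / 2) ^ A * ℓ ^ A := by
    rw [← mul_pow]
    gcongr
  calc (3 * (X / ℓ ^ (A + 1)) + 2 * (X / ℓ ^ (A + 1))) * Real.log x ^ A
      ≤ (3 * (X / ℓ ^ (A + 1)) + 2 * (X / ℓ ^ (A + 1))) * ((5 / 2) ^ A * ℓ ^ A) := by gcongr
    _ = 5 * X * (5 / 2) ^ A * (1 / ℓ) := by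
        field_simp
        ring
    _ ≤ 5 * X * (5 / 2) ^ A * 1 := by
        gcongr
        rw [div_le_one hℓ0]
        exact hℓ1
    _ = 10 * (5 / 2) ^ A * L := by
        rw [hXr]
        ring

end

end Pool.Agent.ZH
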