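import Pool.Agent.Work.ZH.FinalOf

/-! Section S3: the second moment. The statements of `pair_sieve` and `avg_G` enter as the hypotheses `StS1`, `StS2`;
`thm_S` is `thm_S_of pair_sieve avg_G`. -/

set_option linter.style.longLine false
set_option linter.unusedVariables false

open Finset

namespace Pool.Agent.ZH

/-- statement of `pair_sieve` -/
def StS1 : Prop := ∃ C : ℝ, 0 < C ∧ ∃ N₀ : ℕ, ∀ N ≥ N₀, ∀ m n : ℕ, 0 < m → m < n → n ≤ N ^ 3 →
    (((Icc 1 (2 * N)).filter (fun a => (1 + a * m).Prime ∧ (1 + a * n).Prime)).card : ℝ) ≤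
      C * N / Real.log N ^ 2 * ((m : ℝ) / m.totient) ^ 2 * ((n : ℝ) / n.totient) ^ 2 *
        (((n - m : ℕ) : ℝ) / (n - m).totient)

/-- statement of `avg_G` -/
def StS2 : Prop := ∀ (κ : ℕ), ∃ C : ℝ, 0 < C ∧ ∃ N₀ : ℕ, ∀ N ≥ N₀, ∀ d c : ℕ, N < d → d ≤ 2 * N → Nat.Coprime c d →
    ∀ r : ℤ, |(r : ℝ)| ≤ (N : ℝ) ^ 2 →
    ∑ p ∈ (Ioc (PP N) (2 * PP N)).filter (fun p => p.Prime ∧ p ≡ c [MOD d] ∧ (p : ℤ) ≠ r),
      (∏ l ∈ ((p : ℤ) - r).natAbs.primeFactors.filter (fun l => ¬ l ∣ d), (1 - 1 / (l : ℝ))⁻¹) ^ κ ≤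
    C * PP N / (d.totient * Real.log N)

/-! ### the function `n / φ(n)` -/

/-- the local factor -/
noncomputable def gl (l : ℕ) : ℝ := (1 - 1 / (l : ℝ))⁻¹

theorem gl_ge_one {l : ℕ} (h : 2 ≤ l) : 1 ≤ gl l := by
  unfold gl
  have h1 : (2 : ℝ) ≤ l := by exact_mod_cast h
  have h2 : 0 < 1 / (l : ℝ) := by positivity
  have h3 : 1 / (l : ℝ) ≤ 1 / 2 := one_div_le_one_div_of_le (by norm_num) h1
  rw [one_le_inv₀ (by linarith)]
  linarith

theorem gl_le_two {l : ℕ} (h : 2 ≤ l) : gl l ≤ 2 := by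
  unfold gl
  have h1 : (2 : ℝ) ≤ l := by exact_mod_cast h
  have h3 : 1 / (l : ℝ) ≤ 1 / 2 := one_div_le_one_div_of_le (by norm_num) h1
  rw [inv_le_comm₀ (by linarith) (by norm_num)]
  linarith

theorem prod_gl_ge_one {F : Finset ℕ} (hF : ∀ l ∈ F, 2 ≤ l) : 1 ≤ ∏ l ∈ F, gl l := by
  calc (1 : ℝ) = ∏ l ∈ F, (1 : ℝ) := by simp
    _ ≤ _ := prod_le_prod (fun _ _ => zero_le_one) (fun l hl => gl_ge_one (hF l hl))

theorem prod_gl_mono {F G : Finset ℕ} (hFG : F ⊆ G) (hG : ∀ l ∈ G, 2 ≤ l) : ∏ l ∈ F, gl l ≤ ∏ l ∈ G, gl l := by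
  rw [← prod_sdiff hFG]
  exact le_mul_of_one_le_left (zero_le_one.trans (prod_gl_ge_one (fun l hl => hG l (hFG hl))))
    (prod_gl_ge_one (fun l hl => hG l (mem_sdiff.1 hl).1))

theorem div_totient_eq {n : ℕ} (hn : 0 < n) : (n : ℝ) / n.totient = ∏ l ∈ n.primeFactors, gl l := by
  have h := Nat.totient_eq_mul_prod_factors n
  have h' : (n.totient : ℝ) = n * ∏ p ∈ n.primeFactors, (1 - (p : ℝ)⁻¹) := by
    have := congrArg (fun q : ℚ => (q : ℝ)) h
    push_cast at this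
    exact this
  have h1 : ∏ l ∈ n.primeFactors, gl l = (∏ p ∈ n.primeFactors, (1 - (p : ℝ)⁻¹))⁻¹ := by
    rw [← prod_inv_distrib]
    apply prod_congr rfl
    intro l _
    rw [gl, one_div]
  have hn0 : (n : ℝ) ≠ 0 := by exact_mod_cast hn.ne'
  rw [h', h1, div_mul_eq_div_div, div_self hn0, one_div]

theorem one_le_div_totient {n : ℕ} (hn : 0 < n) : 1 ≤ (n : ℝ) / n.totient := by
  rw [div_totient_eq hn]
  exact prod_gl_ge_one (fun l hl => (Nat.prime_of_mem_primeFactors hl).two_le)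

/-- pointwise bound for the powers of `n / φ(n)` -/
theorem div_totient_pow_le (k : ℕ) : ∃ C : ℝ, 0 < C ∧ ∀ n : ℕ, 0 < n →
    ((n : ℝ) / n.totient) ^ k ≤ C * ∑ e ∈ n.divisors, 1 / Real.sqrt e := by
  set l₀ := 4 * k ^ 2 + 2 * k + 2 with hl₀
  refine ⟨(2 ^ k) ^ l₀, by positivity, fun n hn => ?_⟩
  rw [div_totient_eq hn, ← prod_pow]
  have hprime : ∀ l ∈ n.primeFactors, 2 ≤ l := fun l hl => (Nat.prime_of_mem_primeFactors hl).two_le
  -- pointwise: large primes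
  have hbig : ∀ l : ℕ, l₀ ≤ l → gl l ^ k ≤ 1 + 1 / Real.sqrt l := by
    intro l hl
    have hlR : (l₀ : ℝ) ≤ l := by exact_mod_cast hl
    have hl₀R : (l₀ : ℝ) = 4 * k ^ 2 + 2 * k + 2 := by rw [hl₀]; push_cast; ring
    have hk0 : (0 : ℝ) ≤ k := Nat.cast_nonneg _
    have hl0 : (0 : ℝ) < l := by nlinarith
    have h1 : 1 - (k : ℝ) / l ≤ (1 - 1 / (l : ℝ)) ^ k := by
      have h2 := one_add_mul_le_pow (a := -(1 / (l : ℝ))) (by
        have : 1 / (l : ℝ) ≤ 1 := by rw [div_le_one hl0]; nlinarith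
        linarith) k
      calc 1 - (k : ℝ) / l = 1 + k * -(1 / (l : ℝ)) := by ring
        _ ≤ (1 + -(1 / (l : ℝ))) ^ k := h2
        _ = _ := by rw [← sub_eq_add_neg]
    have h3 : (k : ℝ) / l ≤ 1 / 2 := by
      rw [div_le_iff₀ hl0]; nlinarith
    have h4 : gl l ^ k ≤ (1 - (k : ℝ) / l)⁻¹ := by
      unfold gl
      rw [inv_pow]
      exact inv_anti₀ (by linarith) h1
    have h5 : (1 - (k : ℝ) / l)⁻¹ ≤ 1 + 2 * k / l := by
      rw [inv_le_iff_one_le_mul₀ (by linarith)]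
      have h6 : 0 ≤ (k : ℝ) / l := by positivity
      have h7 : 2 * (k : ℝ) / l = 2 * (k / l) := by ring
      rw [h7]; nlinarith
    have h8 : 2 * (k : ℝ) / l ≤ 1 / Real.sqrt l := by
      rw [div_le_div_iff₀ hl0 (Real.sqrt_pos.2 hl0)]
      have h9 : 2 * (k : ℝ) ≤ Real.sqrt l := by
        apply Real.le_sqrt_of_sq_le
        nlinarith
      have h10 : Real.sqrt l * Real.sqrt l = l := Real.mul_self_sqrt hl0.le
      nlinarith [Real.sqrt_nonneg (l : ℝ)]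
    linarith
  -- product bound
  have h11 : ∏ l ∈ n.primeFactors, gl l ^ k ≤
      (∏ l ∈ n.primeFactors, (if l < l₀ then (2 : ℝ) ^ k else 1)) * ∏ l ∈ n.primeFactors, (1 + 1 / Real.sqrt l) := by
    rw [← prod_mul_distrib]
    apply prod_le_prod
    · intro l hl
      exact pow_nonneg (zero_le_one.trans (gl_ge_one (hprime l hl))) _
    · intro l hl
      have h12 : (0 : ℝ) ≤ 1 / Real.sqrt l := by positivity
      split_ifs with h
      · calc gl l ^ k ≤ 2 ^ k := pow_le_pow_left₀ (zero_le_one.trans (gl_ge_one (hprime l hl))) (gl_le_two (hprime l hl)) k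
          _ ≤ 2 ^ k * (1 + 1 / Real.sqrt l) := by
              have : (0 : ℝ) < 2 ^ k := by positivity
              nlinarith
      · rw [one_mul]; exact hbig l (not_lt.1 h)
  have h13 : ∏ l ∈ n.primeFactors, (if l < l₀ then (2 : ℝ) ^ k else 1) ≤ (2 ^ k) ^ l₀ := by
    rw [← prod_filter, prod_const]
    apply pow_le_pow_right₀ (one_le_pow₀ (by norm_num))
    calc (n.primeFactors.filter (fun l => l < l₀)).card ≤ (range l₀).card := by
          apply card_le_card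
          intro l hl
          rw [mem_range]; exact (mem_filter.1 hl).2
      _ = l₀ := card_range _
  have h14 : ∏ l ∈ n.primeFactors, (1 + 1 / Real.sqrt l) ≤ ∑ e ∈ n.divisors, 1 / Real.sqrt e := by
    rw [prod_one_add]
    have h15 : ∀ t ∈ n.primeFactors.powerset, ∏ l ∈ t, (1 / Real.sqrt (l : ℝ)) = 1 / Real.sqrt ((∏ l ∈ t, l : ℕ) : ℝ) := by
      intro t _
      rw [prod_div_distrib, prod_const_one]
      push_cast
      rw [Real.sqrt_prod]
      intro i _; positivity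
    rw [sum_congr rfl h15]
    have hinj : Set.InjOn (fun t : Finset ℕ => ∏ l ∈ t, l) (n.primeFactors.powerset : Set (Finset ℕ)) := by
      intro s hs t ht hst
      rw [mem_coe, mem_powerset] at hs ht
      have e1 : (∏ l ∈ s, l).primeFactors = s := Nat.primeFactors_prod (fun l hl => Nat.prime_of_mem_primeFactors (hs hl))
      have e2 : (∏ l ∈ t, l).primeFactors = t := Nat.primeFactors_prod (fun l hl => Nat.prime_of_mem_primeFactors (ht hl))
      rw [← e1, ← e2]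
      simp only at hst
      rw [hst]
    rw [← sum_image (f := fun e : ℕ => 1 / Real.sqrt (e : ℝ)) hinj]
    apply sum_le_sum_of_subset_of_nonneg
    · intro e he
      rw [mem_image] at he
      obtain ⟨t, ht, rfl⟩ := he
      rw [mem_powerset] at ht
      rw [Nat.mem_divisors]
      exact ⟨(prod_dvd_prod_of_subset _ _ _ ht).trans (Nat.prod_primeFactors_dvd n), hn.ne'⟩
    · intro _ _ _; positivity
  calc ∏ l ∈ n.primeFactors, gl l ^ k ≤ _ := h11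
    _ ≤ (2 ^ k) ^ l₀ * ∑ e ∈ n.divisors, 1 / Real.sqrt e :=
        mul_le_mul h13 h14 (prod_nonneg (fun _ _ => by positivity)) (by positivity)

theorem sum_div_totient_pow (k : ℕ) : ∃ C : ℝ, 0 < C ∧ ∀ X : ℕ,
    ∑ n ∈ Icc 1 X, ((n : ℝ) / n.totient) ^ k ≤ C * X := by
  obtain ⟨C, hC, h⟩ := div_totient_pow_le k
  have hs : Summable (fun e : ℕ => 1 / (e : ℝ) ^ (3 / 2 : ℝ)) := Real.summable_one_div_nat_rpow.2 (by norm_num)
  refine ⟨C * (∑' e : ℕ, 1 / (e : ℝ) ^ (3 / 2 : ℝ) + 1), by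
    have : 0 ≤ ∑' e : ℕ, 1 / (e : ℝ) ^ (3 / 2 : ℝ) := tsum_nonneg (fun _ => by positivity)
    positivity, fun X => ?_⟩
  have h1 : ∑ n ∈ Icc 1 X, ∑ e ∈ n.divisors, 1 / Real.sqrt e = ∑ e ∈ Icc 1 X, ((X / e : ℕ) : ℝ) * (1 / Real.sqrt e) := by
    have h2 : ∀ n ∈ Icc 1 X, ∑ e ∈ n.divisors, 1 / Real.sqrt (e : ℝ) = ∑ e ∈ Icc 1 X, if e ∣ n then 1 / Real.sqrt (e : ℝ) else 0 := by
      intro n hn
      rw [mem_Icc] at hn
      rw [← sum_filter]
      apply sum_congr _ (fun _ _ => rfl)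
      ext e
      rw [Nat.mem_divisors, mem_filter, mem_Icc]
      constructor
      · rintro ⟨h3, h4⟩
        exact ⟨⟨Nat.pos_of_dvd_of_pos h3 (by omega), (Nat.le_of_dvd (by omega) h3).trans hn.2⟩, h3⟩
      · rintro ⟨_, h3⟩
        exact ⟨h3, by omega⟩
    rw [sum_congr rfl h2, sum_comm]
    apply sum_congr rfl
    intro e _
    rw [← sum_filter, sum_const, nsmul_eq_mul]
    congr 2
    rw [← Nat.Ioc_filter_dvd_card_eq_div X e]
    congr 1
  calc ∑ n ∈ Icc 1 X, ((n : ℝ) / n.totient) ^ k ≤ ∑ n ∈ Icc 1 X, C * ∑ e ∈ n.divisors, 1 / Real.sqrt e :=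
        sum_le_sum (fun n hn => h n (mem_Icc.1 hn).1)
    _ = C * ∑ e ∈ Icc 1 X, ((X / e : ℕ) : ℝ) * (1 / Real.sqrt e) := by rw [← mul_sum, h1]
    _ ≤ C * ∑ e ∈ Icc 1 X, (X : ℝ) * (1 / (e : ℝ) ^ (3 / 2 : ℝ)) := by
        apply mul_le_mul_of_nonneg_left _ hC.le
        apply sum_le_sum
        intro e he
        rw [mem_Icc] at he
        have he0 : (0 : ℝ) < e := by exact_mod_cast he.1
        have h3 : ((X / e : ℕ) : ℝ) ≤ X / e := Nat.cast_div_le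
        calc ((X / e : ℕ) : ℝ) * (1 / Real.sqrt e) ≤ X / e * (1 / Real.sqrt e) :=
              mul_le_mul_of_nonneg_right h3 (by positivity)
          _ = X * (1 / (e : ℝ) ^ (3 / 2 : ℝ)) := by
              have e1 : (e : ℝ) ^ (3 / 2 : ℝ) = e * Real.sqrt e := by
                rw [Real.sqrt_eq_rpow]
                nth_rewrite 2 [← Real.rpow_one (e : ℝ)]
                rw [← Real.rpow_add he0]; norm_num
              rw [e1]; field_simp
    _ = C * (∑ e ∈ Icc 1 X, 1 / (e : ℝ) ^ (3 / 2 : ℝ)) * X := by rw [← mul_sum]; ring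
    _ ≤ C * (∑' e : ℕ, 1 / (e : ℝ) ^ (3 / 2 : ℝ) + 1) * X := by
        apply mul_le_mul_of_nonneg_right _ (Nat.cast_nonneg _)
        apply mul_le_mul_of_nonneg_left _ hC.le
        have := hs.sum_le_tsum (Icc 1 X) (fun _ _ => by positivity)
        linarith

/-! ### the factors for one `d` -/

/-- `g(n)`: the primes dividing `n` and not `d` -/
noncomputable def Hd (d : ℕ) (n : ℤ) : ℝ := ∏ l ∈ n.natAbs.primeFactors.filter (fun l => ¬ l ∣ d), gl l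

theorem Hd_ge_one (d : ℕ) (n : ℤ) : 1 ≤ Hd d n :=
  prod_gl_ge_one (fun l hl => (Nat.prime_of_mem_primeFactors (mem_filter.1 hl).1).two_le)

/-- if the primes of `m` divide `u v` then `m / φ(m) ≤ (d / φ(d)) g(u) g(v)` -/
theorem div_totient_le {m d : ℕ} {u v : ℤ} (hm : 0 < m) (hd : 0 < d) (hu : u ≠ 0) (hv : v ≠ 0) (h : (m : ℤ) ∣ u * v) :
    (m : ℝ) / m.totient ≤ (d : ℝ) / d.totient * Hd d u * Hd d v := by
  rw [div_totient_eq hm, div_totient_eq hd]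
  unfold Hd
  set F1 := u.natAbs.primeFactors.filter (fun l => ¬ l ∣ d)
  set F2 := v.natAbs.primeFactors.filter (fun l => ¬ l ∣ d)
  have hp1 : ∀ l ∈ d.primeFactors, 2 ≤ l := fun l hl => (Nat.prime_of_mem_primeFactors hl).two_le
  have hp2 : ∀ l ∈ F1, 2 ≤ l := fun l hl => (Nat.prime_of_mem_primeFactors (mem_filter.1 hl).1).two_le
  have hp3 : ∀ l ∈ F2, 2 ≤ l := fun l hl => (Nat.prime_of_mem_primeFactors (mem_filter.1 hl).1).two_le
  have hunion : ∀ A B : Finset ℕ, (∀ l ∈ A, 2 ≤ l) → (∀ l ∈ B, 2 ≤ l) →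
      ∏ l ∈ A ∪ B, gl l ≤ (∏ l ∈ A, gl l) * ∏ l ∈ B, gl l := by
    intro A B hA hB
    rw [← prod_union_inter]
    apply le_mul_of_one_le_right (zero_le_one.trans (prod_gl_ge_one _)) (prod_gl_ge_one _)
    · intro l hl
      rcases mem_union.1 hl with h | h
      · exact hA l h
      · exact hB l h
    · intro l hl; exact hA l (mem_inter.1 hl).1
  have hsub : m.primeFactors ⊆ (d.primeFactors ∪ F1) ∪ F2 := by
    intro l hl
    rw [Nat.mem_primeFactors] at hl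
    obtain ⟨hl1, hl2, _⟩ := hl
    have hlu : (l : ℤ) ∣ u * v := (Int.natCast_dvd_natCast.2 hl2).trans h
    rw [mem_union, mem_union]
    by_cases hld : l ∣ d
    · left; left
      rw [Nat.mem_primeFactors]; exact ⟨hl1, hld, hd.ne'⟩
    · rcases (Nat.prime_iff_prime_int.1 hl1).dvd_or_dvd hlu with h1 | h1
      · left; right
        rw [mem_filter, Nat.mem_primeFactors]
        exact ⟨⟨hl1, Int.natCast_dvd.1 h1, Int.natAbs_ne_zero.2 hu⟩, hld⟩
      · right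
        rw [mem_filter, Nat.mem_primeFactors]
        exact ⟨⟨hl1, Int.natCast_dvd.1 h1, Int.natAbs_ne_zero.2 hv⟩, hld⟩
  have hU : ∀ l ∈ d.primeFactors ∪ F1, 2 ≤ l := by
    intro l hl
    rcases mem_union.1 hl with h | h
    · exact hp1 l h
    · exact hp2 l h
  calc ∏ l ∈ m.primeFactors, gl l ≤ ∏ l ∈ (d.primeFactors ∪ F1) ∪ F2, gl l := by
        apply prod_gl_mono hsub
        intro l hl
        rcases mem_union.1 hl with h | h
        · exact hU l h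
        · exact hp3 l h
    _ ≤ (∏ l ∈ d.primeFactors ∪ F1, gl l) * ∏ l ∈ F2, gl l := hunion _ _ hU hp3
    _ ≤ ((∏ l ∈ d.primeFactors, gl l) * ∏ l ∈ F1, gl l) * ∏ l ∈ F2, gl l :=
        mul_le_mul_of_nonneg_right (hunion _ _ hp1 hp2) (zero_le_one.trans (prod_gl_ge_one hp3))

/-- six factors -/
theorem six_le {a b c d e f : ℝ} (ha : 1 ≤ a) (hb : 1 ≤ b) (hc : 1 ≤ c) (hd : 1 ≤ d) (he : 1 ≤ e) (hf : 1 ≤ f) :
    (a * b) ^ 2 * (c * d) ^ 2 * (e * f) ≤ a ^ 12 + b ^ 12 + c ^ 12 + d ^ 12 + e ^ 12 + f ^ 12 := by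
  set M := max (max (max a b) (max c d)) (max e f) with hM
  have h1 : a ≤ M := (le_max_left _ _).trans ((le_max_left _ _).trans (le_max_left _ _))
  have h2 : b ≤ M := (le_max_right _ _).trans ((le_max_left _ _).trans (le_max_left _ _))
  have h3 : c ≤ M := (le_max_left _ _).trans ((le_max_right _ _).trans (le_max_left _ _))
  have h4 : d ≤ M := (le_max_right _ _).trans ((le_max_right _ _).trans (le_max_left _ _))
  have h5 : e ≤ M := (le_max_left _ _).trans (le_max_right _ _)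
  have h6 : f ≤ M := (le_max_right _ _).trans (le_max_right _ _)
  have hM1 : 1 ≤ M := ha.trans h1
  have h7 : (a * b) ^ 2 * (c * d) ^ 2 * (e * f) ≤ M ^ 10 := by
    calc (a * b) ^ 2 * (c * d) ^ 2 * (e * f) ≤ (M * M) ^ 2 * (M * M) ^ 2 * (M * M) := by gcongr
      _ = M ^ 10 := by ring
  have h8 : M ^ 10 ≤ M ^ 12 := pow_le_pow_right₀ hM1 (by norm_num)
  have h9 : M ^ 12 ≤ a ^ 12 + b ^ 12 + c ^ 12 + d ^ 12 + e ^ 12 + f ^ 12 := by
    have p1 : 0 ≤ a ^ 12 := by positivity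
    have p2 : 0 ≤ b ^ 12 := by positivity
    have p3 : 0 ≤ c ^ 12 := by positivity
    have p4 : 0 ≤ d ^ 12 := by positivity
    have p5 : 0 ≤ e ^ 12 := by positivity
    have p6 : 0 ≤ f ^ 12 := by positivity
    rcases max_choice (max (max a b) (max c d)) (max e f) with h | h <;>
      rcases max_choice (max a b) (max c d) with h' | h' <;>
      rcases max_choice a b with h'' | h'' <;> rcases max_choice c d with h3' | h3' <;>
      rcases max_choice e f with h4' | h4' <;>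
      rw [hM, h] <;> (try rw [h']) <;> (try rw [h'']) <;> (try rw [h3']) <;> (try rw [h4']) <;> linarith
  linarith

theorem two_lt_rpow {N : ℕ} (hN : 32 < N) : (2 : ℝ) < (N : ℝ) ^ (1 / 5 : ℝ) := by
  have hN0 : (0 : ℝ) < N := by exact_mod_cast (by omega : 0 < N)
  have h7 : ((N : ℝ) ^ (1 / 5 : ℝ)) ^ 5 = N := by
    rw [← Real.rpow_natCast, ← Real.rpow_mul hN0.le]; norm_num
  by_contra h
  push Not at h
  have h9 : ((N : ℝ) ^ (1 / 5 : ℝ)) ^ 5 ≤ 2 ^ 5 := pow_le_pow_left₀ (by positivity) h 5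
  rw [h7] at h9
  have h10 : (N : ℝ) ≤ 32 := by linarith
  have h11 : N ≤ 32 := by exact_mod_cast h10
  omega

/-- the hypothesis on the primes of one `d` -/
def Sp (N d p : ℕ) : Prop := p.Prime ∧ PP N < p ∧ p ≤ 2 * PP N ∧
      ∃ d₁ : ℕ, d₁.Prime ∧ (N : ℝ) ^ (1 / 5 : ℝ) ≤ d₁ ∧ d₁ ∣ d ∧ d₁ ∣ p - 1 ∧ (d / d₁) ∣ p + 1

/-- the average hypothesis for one `d` -/
def Av (N d : ℕ) (C₀ : ℝ) : Prop := ∀ c : ℕ, Nat.Coprime c d → ∀ r : ℤ, |(r : ℝ)| ≤ (N : ℝ) ^ 2 →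
      ∑ p ∈ (Ioc (PP N) (2 * PP N)).filter (fun p => p.Prime ∧ p ≡ c [MOD d] ∧ (p : ℤ) ≠ r), Hd d ((p : ℤ) - r) ^ 12 ≤
      C₀ * PP N / (d.totient * Real.log N)

theorem avg_S {N d : ℕ} {C₀ : ℝ} (hC₀ : 0 < C₀) (hN : 32 < N) (hd1 : N < d) (hd2 : d ≤ 2 * N)
    (havg : Av N d C₀) {Sd : Finset ℕ} (hS : ∀ p ∈ Sd, Sp N d p) (r : ℤ) (hr : |(r : ℝ)| ≤ (N : ℝ) ^ 2) :
    ∑ p ∈ Sd.filter (fun p : ℕ => (p : ℤ) ≠ r), Hd d ((p : ℤ) - r) ^ 12 ≤
      5 * (C₀ * PP N / (d.totient * Real.log N)) := by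
  classical
  have hd0 : 0 < d := by omega
  have hN1 : (1 : ℝ) < N := by exact_mod_cast (by omega : 1 < N)
  have hL : 0 < Real.log N := Real.log_pos hN1
  have hφ : (0 : ℝ) < d.totient := by exact_mod_cast Nat.totient_pos.2 hd0
  set Y : ℝ := C₀ * PP N / (d.totient * Real.log N) with hY
  have hY0 : 0 ≤ Y := by positivity
  set Fd := d.primeFactors.filter (fun l : ℕ => (N : ℝ) ^ (1 / 5 : ℝ) ≤ l) with hFd
  have hcard : Fd.card ≤ 5 := few_large hN hd0 hd2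
  set A := Sd.filter (fun p : ℕ => (p : ℤ) ≠ r) with hA
  have hH0 : ∀ p : ℕ, 0 ≤ Hd d ((p : ℤ) - r) ^ 12 := fun p => pow_nonneg (zero_le_one.trans (Hd_ge_one d _)) _
  have h1 : ∑ p ∈ A, Hd d ((p : ℤ) - r) ^ 12 ≤
      ∑ p ∈ A, ∑ d₁ ∈ Fd, (if d₁ ∣ p - 1 ∧ (d / d₁) ∣ p + 1 then Hd d ((p : ℤ) - r) ^ 12 else 0) := by
    apply sum_le_sum
    intro p hp
    obtain ⟨hpp, _, _, d₁, h2, h3, h4, h5, h6⟩ := hS p (mem_filter.1 hp).1
    have hmem : d₁ ∈ Fd := by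
      rw [hFd, mem_filter, Nat.mem_primeFactors]
      exact ⟨⟨h2, h4, hd0.ne'⟩, h3⟩
    have h7 : (if d₁ ∣ p - 1 ∧ (d / d₁) ∣ p + 1 then Hd d ((p : ℤ) - r) ^ 12 else 0) ≤
        ∑ d₁ ∈ Fd, (if d₁ ∣ p - 1 ∧ (d / d₁) ∣ p + 1 then Hd d ((p : ℤ) - r) ^ 12 else 0) :=
      single_le_sum (f := fun d₁ => (if d₁ ∣ p - 1 ∧ (d / d₁) ∣ p + 1 then Hd d ((p : ℤ) - r) ^ 12 else 0))
        (fun i _ => by split_ifs; exacts [hH0 p, le_rfl]) hmem
    rw [if_pos ⟨h5, h6⟩] at h7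
    exact h7
  have h2 : ∀ d₁ ∈ Fd, ∑ p ∈ A, (if d₁ ∣ p - 1 ∧ (d / d₁) ∣ p + 1 then Hd d ((p : ℤ) - r) ^ 12 else 0) ≤ Y := by
    intro d₁ hd₁
    rw [hFd, mem_filter, Nat.mem_primeFactors] at hd₁
    obtain ⟨⟨hp1, hdvd, _⟩, hlarge⟩ := hd₁
    have hd₁2 : 2 < d₁ := by
      have := (two_lt_rpow hN).trans_le hlarge
      exact_mod_cast this
    rw [← sum_filter]
    rcases (A.filter (fun p => d₁ ∣ p - 1 ∧ (d / d₁) ∣ p + 1)).eq_empty_or_nonempty with he | ⟨p₀, hp₀⟩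
    · rw [he, sum_empty]; exact hY0
    · have hp₀' := hp₀
      rw [mem_filter, hA, mem_filter] at hp₀'
      obtain ⟨⟨hp₀S, _⟩, h5, h6⟩ := hp₀'
      have hp₀p : p₀.Prime := (hS p₀ hp₀S).1
      have hdd : d₁ * (d / d₁) = d := Nat.mul_div_cancel' hdvd
      have hcop1 : Nat.Coprime p₀ d₁ := by
        rw [Nat.coprime_comm, hp1.coprime_iff_not_dvd]
        intro h
        have h8 : d₁ ∣ p₀ - (p₀ - 1) := Nat.dvd_sub h h5
        have h9 : p₀ - (p₀ - 1) = 1 := by have := hp₀p.two_le; omega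
        rw [h9] at h8
        have := Nat.le_of_dvd one_pos h8
        omega
      have hcop2 : Nat.Coprime p₀ (d / d₁) := by
        have h8 : Nat.gcd p₀ (d / d₁) ∣ (p₀ + 1) - p₀ :=
          Nat.dvd_sub ((Nat.gcd_dvd_right _ _).trans h6) (Nat.gcd_dvd_left _ _)
        have h9 : p₀ + 1 - p₀ = 1 := by omega
        rw [h9] at h8
        exact Nat.dvd_one.1 h8
      have hcop : Nat.Coprime p₀ d := by rw [← hdd]; exact Nat.Coprime.mul_right hcop1 hcop2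
      have hcop3 : Nat.Coprime d₁ (d / d₁) := by
        rw [hp1.coprime_iff_not_dvd]
        intro h
        have h8 : d₁ ∣ (p₀ + 1) - (p₀ - 1) := Nat.dvd_sub (h.trans h6) h5
        have h9 : p₀ + 1 - (p₀ - 1) = 2 := by have := hp₀p.two_le; omega
        rw [h9] at h8
        have := Nat.le_of_dvd two_pos h8
        omega
      refine le_trans (sum_le_sum_of_subset_of_nonneg ?_ (fun p _ _ => hH0 p)) (havg p₀ hcop r hr)
      intro p hp
      rw [mem_filter, hA, mem_filter] at hp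
      obtain ⟨⟨hpS, hpr⟩, h10, h11⟩ := hp
      obtain ⟨hpp, hp3, hp4, _⟩ := hS p hpS
      rw [mem_filter, mem_Ioc]
      refine ⟨⟨hp3, hp4⟩, hpp, ?_, hpr⟩
      -- congruence
      have e1 : p ≡ p₀ [MOD d₁] := by
        have e2 : (p : ℤ) ≡ p₀ [ZMOD d₁] := by
          have k1 : (d₁ : ℤ) ∣ (p : ℤ) - 1 := by
            have := Int.natCast_dvd_natCast.2 h10
            rw [Nat.cast_sub hpp.one_lt.le] at this; simpa using this
          have k2 : (d₁ : ℤ) ∣ (p₀ : ℤ) - 1 := by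
            have := Int.natCast_dvd_natCast.2 h5
            rw [Nat.cast_sub hp₀p.one_lt.le] at this; simpa using this
          apply Int.modEq_iff_dvd.2
          have := dvd_sub k2 k1
          have e : (p₀ : ℤ) - p = (p₀ : ℤ) - 1 - ((p : ℤ) - 1) := by ring
          rw [e]; exact this
        exact (Int.natCast_modEq_iff).1 e2
      have e3 : p ≡ p₀ [MOD (d / d₁)] := by
        have e2 : (p : ℤ) ≡ p₀ [ZMOD ((d / d₁ : ℕ) : ℤ)] := by
          have k1 : ((d / d₁ : ℕ) : ℤ) ∣ (p : ℤ) + 1 := by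
            have := Int.natCast_dvd_natCast.2 h11
            simpa using this
          have k2 : ((d / d₁ : ℕ) : ℤ) ∣ (p₀ : ℤ) + 1 := by
            have := Int.natCast_dvd_natCast.2 h6
            simpa using this
          apply Int.modEq_iff_dvd.2
          have := dvd_sub k2 k1
          have e : (p₀ : ℤ) - p = (p₀ : ℤ) + 1 - ((p : ℤ) + 1) := by ring
          rw [e]; exact this
        exact (Int.natCast_modEq_iff).1 e2
      have := (Nat.modEq_and_modEq_iff_modEq_mul hcop3).1 ⟨e1, e3⟩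
      rwa [hdd] at this
  calc ∑ p ∈ A, Hd d ((p : ℤ) - r) ^ 12 ≤ _ := h1
    _ = ∑ d₁ ∈ Fd, ∑ p ∈ A, (if d₁ ∣ p - 1 ∧ (d / d₁) ∣ p + 1 then Hd d ((p : ℤ) - r) ^ 12 else 0) := sum_comm
    _ ≤ ∑ d₁ ∈ Fd, Y := sum_le_sum h2
    _ = Fd.card * Y := by rw [sum_const, nsmul_eq_mul]
    _ ≤ 5 * Y := mul_le_mul_of_nonneg_right (by exact_mod_cast hcard) hY0

/-! ### the pairs of one `d` -/

/-- the modulus -/
def mq (d p : ℕ) : ℕ := (p ^ 2 - 1) / d

theorem sq_sub_one (p : ℕ) : p ^ 2 - 1 = (p + 1) * (p - 1) := by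
  have := Nat.sq_sub_sq p 1
  simpa using this

theorem Sp_dvd {N d p : ℕ} (h : Sp N d p) : d * mq d p = p ^ 2 - 1 := by
  obtain ⟨_, _, _, d₁, _, _, h4, h5, h6⟩ := h
  apply Nat.mul_div_cancel'
  rw [sq_sub_one, ← Nat.mul_div_cancel' h4, mul_comm (d₁)]
  exact Nat.mul_dvd_mul h6 h5

/-- counting -/
def cnt (N m m' : ℕ) : ℕ := ((Icc 1 (2 * N)).filter (fun a => (1 + a * m).Prime ∧ (1 + a * m').Prime)).card

theorem cnt_comm (N m m' : ℕ) : cnt N m m' = cnt N m' m := by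
  unfold cnt
  congr 1
  apply filter_congr
  intro a _
  exact and_comm

theorem cnt_le (N m m' : ℕ) : cnt N m m' ≤ 2 * N := by
  unfold cnt
  refine (card_filter_le _ _).trans ?_
  rw [Nat.card_Icc]; omega

theorem sq_sum_cnt (N : ℕ) (Sd : Finset ℕ) (m : ℕ → ℕ) :
    ∑ a ∈ Icc 1 (2 * N), ((Sd.filter (fun p => (1 + a * m p).Prime)).card : ℝ) ^ 2 =
      ∑ p ∈ Sd, ∑ p' ∈ Sd, (cnt N (m p) (m p') : ℝ) := by
  have h1 : ∀ a ∈ Icc 1 (2 * N), ((Sd.filter (fun p => (1 + a * m p).Prime)).card : ℝ) ^ 2 =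
      ∑ p ∈ Sd, ∑ p' ∈ Sd, (if (1 + a * m p).Prime ∧ (1 + a * m p').Prime then (1 : ℝ) else 0) := by
    intro a _
    rw [card_filter, sq]
    push_cast
    rw [sum_mul_sum]
    apply sum_congr rfl
    intro p _
    apply sum_congr rfl
    intro p' _
    by_cases h : (1 + a * m p).Prime
    · by_cases h' : (1 + a * m p').Prime
      · simp [h, h']
      · simp [h, h']
    · simp [h]
  rw [sum_congr rfl h1, sum_comm]
  apply sum_congr rfl
  intro p _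
  rw [sum_comm]
  apply sum_congr rfl
  intro p' _
  unfold cnt
  rw [card_filter]
  push_cast
  rfl

/-- one off-diagonal pair -/
theorem cnt_pair {N d : ℕ} {C₁ : ℝ} (hC₁ : 0 < C₁) (hN : 32 < N) (hPN : 4 * PP N ^ 2 ≤ N ^ 4)
    (hS1 : ∀ m n : ℕ, 0 < m → m < n → n ≤ N ^ 3 →
    (cnt N m n : ℝ) ≤ C₁ * N / Real.log N ^ 2 * ((m : ℝ) / m.totient) ^ 2 * ((n : ℝ) / n.totient) ^ 2 *
        (((n - m : ℕ) : ℝ) / (n - m).totient))
    (hd : N < d) {p p' : ℕ} (hp : Sp N d p) (hp' : Sp N d p') (hlt : p < p') :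
    (cnt N (mq d p) (mq d p') : ℝ) ≤ C₁ * N / Real.log N ^ 2 * ((d : ℝ) / d.totient) ^ 5 *
      (Hd d ((p : ℤ) - 1) ^ 12 + Hd d ((p : ℤ) - (-1)) ^ 12 + Hd d ((p' : ℤ) - 1) ^ 12 + Hd d ((p' : ℤ) - (-1)) ^ 12 +
        Hd d ((p : ℤ) - p') ^ 12 + Hd d ((p : ℤ) - (-p')) ^ 12) := by
  have hd0 : 0 < d := by omega
  have e1 := Sp_dvd hp
  have e2 := Sp_dvd hp'
  have hpp := hp.1.two_le
  have hpp' := hp'.1.two_le
  have hsq : p ^ 2 < p' ^ 2 := Nat.pow_lt_pow_left hlt two_ne_zero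
  have hsq1 : 4 ≤ p ^ 2 := by
    calc 4 = 2 ^ 2 := by norm_num
      _ ≤ p ^ 2 := Nat.pow_le_pow_left hpp 2
  set m := mq d p with hm
  set n := mq d p' with hn
  have hm0 : 0 < m := by
    rcases Nat.eq_zero_or_pos m with h0 | h0
    · rw [h0, mul_zero] at e1; omega
    · exact h0
  have hmn : m < n := by
    have : d * m < d * n := by omega
    exact lt_of_mul_lt_mul_left this (Nat.zero_le _)
  have hnN : n ≤ N ^ 3 := by
    have h1 : N * n ≤ N * N ^ 3 := by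
      calc N * n ≤ d * n := Nat.mul_le_mul_right _ hd.le
        _ = p' ^ 2 - 1 := e2
        _ ≤ p' ^ 2 := Nat.sub_le _ _
        _ ≤ (2 * PP N) ^ 2 := Nat.pow_le_pow_left hp'.2.2.1 2
        _ = 4 * PP N ^ 2 := by ring
        _ ≤ N ^ 4 := hPN
        _ = N * N ^ 3 := by ring
    exact Nat.le_of_mul_le_mul_left h1 (by omega)
  -- in the integers
  have i1 : (d : ℤ) * m = ((p : ℤ) - 1) * ((p : ℤ) - (-1)) := by
    have h1 : d * m + 1 = p ^ 2 := by omega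
    have h2 : ((d * m + 1 : ℕ) : ℤ) = ((p ^ 2 : ℕ) : ℤ) := by rw [h1]
    push_cast at h2
    linear_combination h2
  have i2 : (d : ℤ) * n = ((p' : ℤ) - 1) * ((p' : ℤ) - (-1)) := by
    have h1 : d * n + 1 = p' ^ 2 := by omega
    have h2 : ((d * n + 1 : ℕ) : ℤ) = ((p' ^ 2 : ℕ) : ℤ) := by rw [h1]
    push_cast at h2
    linear_combination h2
  have i3 : (d : ℤ) * ((n - m : ℕ) : ℤ) = -(((p : ℤ) - p') * ((p : ℤ) - (-p'))) := by
    rw [Nat.cast_sub hmn.le]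
    linear_combination i2 - i1
  have a1 : (m : ℝ) / m.totient ≤ (d : ℝ) / d.totient * Hd d ((p : ℤ) - 1) * Hd d ((p : ℤ) - (-1)) :=
    div_totient_le hm0 hd0 (by omega) (by omega) (by rw [← i1]; exact dvd_mul_left _ _)
  have a2 : (n : ℝ) / n.totient ≤ (d : ℝ) / d.totient * Hd d ((p' : ℤ) - 1) * Hd d ((p' : ℤ) - (-1)) :=
    div_totient_le (by omega) hd0 (by omega) (by omega) (by rw [← i2]; exact dvd_mul_left _ _)
  have a3 : ((n - m : ℕ) : ℝ) / (n - m).totient ≤ (d : ℝ) / d.totient * Hd d ((p : ℤ) - p') * Hd d ((p : ℤ) - (-p')) :=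
    div_totient_le (by omega) hd0 (by omega) (by omega) (by
      rw [← dvd_neg, ← i3]; exact dvd_mul_left _ _)
  have b1 := Hd_ge_one d ((p : ℤ) - 1)
  have b2 := Hd_ge_one d ((p : ℤ) - (-1))
  have b3 := Hd_ge_one d ((p' : ℤ) - 1)
  have b4 := Hd_ge_one d ((p' : ℤ) - (-1))
  have b5 := Hd_ge_one d ((p : ℤ) - p')
  have b6 := Hd_ge_one d ((p : ℤ) - (-p'))
  have hsix := six_le b1 b2 b3 b4 b5 b6
  set A := Hd d ((p : ℤ) - 1)
  set B := Hd d ((p : ℤ) - (-1))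
  set A' := Hd d ((p' : ℤ) - 1)
  set B' := Hd d ((p' : ℤ) - (-1))
  set E := Hd d ((p : ℤ) - p')
  set F := Hd d ((p : ℤ) - (-p'))
  have hh := one_le_div_totient hd0
  have hm1 := one_le_div_totient hm0
  have hn1 := one_le_div_totient (show 0 < n by omega)
  have hmn1 := one_le_div_totient (show 0 < n - m by omega)
  set h := (d : ℝ) / d.totient
  have hN1 : (1 : ℝ) < N := by exact_mod_cast (by omega : 1 < N)
  have hL : 0 < Real.log N := Real.log_pos hN1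
  have hK : 0 ≤ C₁ * N / Real.log N ^ 2 := by positivity
  calc (cnt N m n : ℝ) ≤ C₁ * N / Real.log N ^ 2 * ((m : ℝ) / m.totient) ^ 2 * ((n : ℝ) / n.totient) ^ 2 *
        (((n - m : ℕ) : ℝ) / (n - m).totient) := hS1 m n hm0 hmn hnN
    _ = C₁ * N / Real.log N ^ 2 * (((m : ℝ) / m.totient) ^ 2 * ((n : ℝ) / n.totient) ^ 2 *
        (((n - m : ℕ) : ℝ) / (n - m).totient)) := by ring
    _ ≤ C₁ * N / Real.log N ^ 2 * ((h * A * B) ^ 2 * (h * A' * B') ^ 2 * (h * E * F)) := by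
        apply mul_le_mul_of_nonneg_left _ hK
        apply mul_le_mul
        · apply mul_le_mul
          · exact pow_le_pow_left₀ (by linarith) a1 2
          · exact pow_le_pow_left₀ (by linarith) a2 2
          · positivity
          · positivity
        · exact a3
        · linarith
        · positivity
    _ = C₁ * N / Real.log N ^ 2 * h ^ 5 * ((A * B) ^ 2 * (A' * B') ^ 2 * (E * F)) := by ring
    _ ≤ _ := by
        apply mul_le_mul_of_nonneg_left hsix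
        have : 0 ≤ h ^ 5 := by positivity
        positivity

theorem Hd_neg (d : ℕ) (n : ℤ) : Hd d (-n) = Hd d n := by
  unfold Hd
  rw [Int.natAbs_neg]

/-- the six terms -/
noncomputable def Six (d p p' : ℕ) : ℝ :=
  Hd d ((p : ℤ) - 1) ^ 12 + Hd d ((p : ℤ) - (-1)) ^ 12 + Hd d ((p' : ℤ) - 1) ^ 12 + Hd d ((p' : ℤ) - (-1)) ^ 12 +
        Hd d ((p : ℤ) - p') ^ 12 + Hd d ((p : ℤ) - (-p')) ^ 12

theorem Six_comm (d p p' : ℕ) : Six d p p' = Six d p' p := by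
  unfold Six
  have e1 : (p : ℤ) - p' = -((p' : ℤ) - p) := by ring
  have e2 : (p : ℤ) - (-p') = (p' : ℤ) - (-p) := by ring
  rw [e1, Hd_neg, e2]
  ring

theorem per_d {N d : ℕ} {C₀ C₁ : ℝ} (hC₀ : 0 < C₀) (hC₁ : 0 < C₁) (hN : 32 < N) (hPN : 4 * PP N ^ 2 ≤ N ^ 4)
    (hS1 : ∀ m n : ℕ, 0 < m → m < n → n ≤ N ^ 3 →
    (cnt N m n : ℝ) ≤ C₁ * N / Real.log N ^ 2 * ((m : ℝ) / m.totient) ^ 2 * ((n : ℝ) / n.totient) ^ 2 *
        (((n - m : ℕ) : ℝ) / (n - m).totient))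
    (hd1 : N < d) (hd2 : d ≤ 2 * N) (havg : Av N d C₀) {Sd : Finset ℕ} (hS : ∀ p ∈ Sd, Sp N d p) :
    ∑ a ∈ Icc 1 (2 * N), ((Sd.filter (fun p => (1 + a * mq d p).Prime)).card : ℝ) ^ 2 ≤
      2 * N * (5 * (C₀ * PP N / (d.totient * Real.log N))) +
      C₁ * N / Real.log N ^ 2 * ((d : ℝ) / d.totient) ^ 5 * (6 * (5 * (C₀ * PP N / (d.totient * Real.log N))) ^ 2) := by
  have hd0 : 0 < d := by omega
  have hN1 : (1 : ℝ) < N := by exact_mod_cast (by omega : 1 < N)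
  have hL : 0 < Real.log N := Real.log_pos hN1
  have hφ : (0 : ℝ) < d.totient := by exact_mod_cast Nat.totient_pos.2 hd0
  set Y : ℝ := 5 * (C₀ * PP N / (d.totient * Real.log N)) with hY
  have hY0 : 0 ≤ Y := by positivity
  set K : ℝ := C₁ * N / Real.log N ^ 2 * ((d : ℝ) / d.totient) ^ 5 with hK
  have hK0 : 0 ≤ K := by positivity
  have hH0 : ∀ n : ℤ, 0 ≤ Hd d n ^ 12 := fun n => pow_nonneg (zero_le_one.trans (Hd_ge_one d n)) _
  have hH1 : ∀ n : ℤ, 1 ≤ Hd d n ^ 12 := fun n => one_le_pow₀ (Hd_ge_one d n)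
  -- the range of the shifts
  have hP2 : (2 * PP N : ℝ) ≤ (N : ℝ) ^ 2 := by
    have h1 : (2 * PP N) ^ 2 ≤ (N ^ 2) ^ 2 := by
      calc (2 * PP N) ^ 2 = 4 * PP N ^ 2 := by ring
        _ ≤ N ^ 4 := hPN
        _ = (N ^ 2) ^ 2 := by ring
    have h2 : 2 * PP N ≤ N ^ 2 := (Nat.pow_le_pow_iff_left two_ne_zero).1 h1
    exact_mod_cast h2
  have hr1 : |((1 : ℤ) : ℝ)| ≤ (N : ℝ) ^ 2 := by
    push_cast; rw [abs_one]; nlinarith
  have hr2 : |((-1 : ℤ) : ℝ)| ≤ (N : ℝ) ^ 2 := by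
    push_cast; rw [abs_neg, abs_one]; nlinarith
  have hr3 : ∀ p ∈ Sd, |(((p : ℤ)) : ℝ)| ≤ (N : ℝ) ^ 2 := by
    intro p hp
    have h1 : (p : ℝ) ≤ 2 * PP N := by exact_mod_cast (hS p hp).2.2.1
    push_cast
    rw [abs_of_nonneg (Nat.cast_nonneg _)]; linarith
  have hr4 : ∀ p ∈ Sd, |((-(p : ℤ) : ℤ) : ℝ)| ≤ (N : ℝ) ^ 2 := by
    intro p hp
    have := hr3 p hp
    rw [Int.cast_neg, abs_neg]; exact this
  have hne1 : ∀ p ∈ Sd, (p : ℤ) ≠ 1 := by
    intro p hp; have := (hS p hp).1.two_le; omega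
  have hfull : ∀ r : ℤ, |(r : ℝ)| ≤ (N : ℝ) ^ 2 → (∀ p ∈ Sd, (p : ℤ) ≠ r) → ∑ p ∈ Sd, Hd d ((p : ℤ) - r) ^ 12 ≤ Y := by
    intro r hr hne
    have := avg_S hC₀ hN hd1 hd2 havg hS r hr
    rwa [filter_true_of_mem hne] at this
  have s1 := hfull 1 hr1 hne1
  have s2 := hfull (-1) hr2 (fun p hp => by omega)
  have hcard : (Sd.card : ℝ) ≤ Y := by
    calc (Sd.card : ℝ) = ∑ p ∈ Sd, (1 : ℝ) := by simp
      _ ≤ ∑ p ∈ Sd, Hd d ((p : ℤ) - 1) ^ 12 := sum_le_sum (fun p _ => hH1 _)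
      _ ≤ Y := s1
  -- the sum of the six terms
  have hsix : ∑ p ∈ Sd, ∑ p' ∈ Sd, (if p = p' then 0 else Six d p p') ≤ 6 * Y ^ 2 := by
    have t1 : ∑ p ∈ Sd, ∑ p' ∈ Sd, Hd d ((p : ℤ) - 1) ^ 12 ≤ Y ^ 2 := by
      simp only [sum_const, nsmul_eq_mul]
      rw [← mul_sum, sq]
      exact mul_le_mul hcard s1 (sum_nonneg (fun _ _ => hH0 _)) hY0
    have t2 : ∑ p ∈ Sd, ∑ p' ∈ Sd, Hd d ((p : ℤ) - (-1)) ^ 12 ≤ Y ^ 2 := by
      simp only [sum_const, nsmul_eq_mul]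
      rw [← mul_sum, sq]
      exact mul_le_mul hcard s2 (sum_nonneg (fun _ _ => hH0 _)) hY0
    have t3 : ∑ p ∈ Sd, ∑ p' ∈ Sd, Hd d ((p' : ℤ) - 1) ^ 12 ≤ Y ^ 2 := by
      rw [sum_const, nsmul_eq_mul, sq]
      exact mul_le_mul hcard s1 (sum_nonneg (fun _ _ => hH0 _)) hY0
    have t4 : ∑ p ∈ Sd, ∑ p' ∈ Sd, Hd d ((p' : ℤ) - (-1)) ^ 12 ≤ Y ^ 2 := by
      rw [sum_const, nsmul_eq_mul, sq]
      exact mul_le_mul hcard s2 (sum_nonneg (fun _ _ => hH0 _)) hY0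
    have t5 : ∑ p ∈ Sd, ∑ p' ∈ Sd, (if p = p' then 0 else Hd d ((p : ℤ) - p') ^ 12) ≤ Y ^ 2 := by
      rw [sum_comm]
      calc ∑ p' ∈ Sd, ∑ p ∈ Sd, (if p = p' then 0 else Hd d ((p : ℤ) - p') ^ 12) ≤ ∑ p' ∈ Sd, Y := by
            apply sum_le_sum
            intro p' hp'
            have := avg_S hC₀ hN hd1 hd2 havg hS (p' : ℤ) (hr3 p' hp')
            refine le_trans (le_of_eq ?_) this
            rw [sum_filter]
            apply sum_congr rfl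
            intro p _
            by_cases h : p = p'
            · rw [if_pos h, if_neg (by rw [h]; exact fun h => h rfl)]
            · rw [if_neg h, if_pos (by exact_mod_cast h)]
        _ = Sd.card * Y := by rw [sum_const, nsmul_eq_mul]
        _ ≤ Y * Y := mul_le_mul_of_nonneg_right hcard hY0
        _ = Y ^ 2 := (sq Y).symm
    have t6 : ∑ p ∈ Sd, ∑ p' ∈ Sd, Hd d ((p : ℤ) - (-p')) ^ 12 ≤ Y ^ 2 := by
      rw [sum_comm]
      calc ∑ p' ∈ Sd, ∑ p ∈ Sd, Hd d ((p : ℤ) - (-p')) ^ 12 ≤ ∑ p' ∈ Sd, Y := by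
            apply sum_le_sum
            intro p' hp'
            exact hfull (-(p' : ℤ)) (hr4 p' hp') (fun p hp => by
              have := (hS p hp).1.two_le
              omega)
        _ = Sd.card * Y := by rw [sum_const, nsmul_eq_mul]
        _ ≤ Y * Y := mul_le_mul_of_nonneg_right hcard hY0
        _ = Y ^ 2 := (sq Y).symm
    calc ∑ p ∈ Sd, ∑ p' ∈ Sd, (if p = p' then 0 else Six d p p')
        ≤ ∑ p ∈ Sd, ∑ p' ∈ Sd, (Hd d ((p : ℤ) - 1) ^ 12 + Hd d ((p : ℤ) - (-1)) ^ 12 + Hd d ((p' : ℤ) - 1) ^ 12 +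
          Hd d ((p' : ℤ) - (-1)) ^ 12 + (if p = p' then 0 else Hd d ((p : ℤ) - p') ^ 12) + Hd d ((p : ℤ) - (-p')) ^ 12) := by
          apply sum_le_sum; intro p _
          apply sum_le_sum; intro p' _
          have q1 := hH0 ((p : ℤ) - 1)
          have q2 := hH0 ((p : ℤ) - (-1))
          have q3 := hH0 ((p' : ℤ) - 1)
          have q4 := hH0 ((p' : ℤ) - (-1))
          have q6 := hH0 ((p : ℤ) - (-p'))
          split_ifs
          · positivity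
          · unfold Six; exact le_rfl
      _ ≤ 6 * Y ^ 2 := by
          simp only [sum_add_distrib]
          linarith
  have hmain := sq_sum_cnt N Sd (fun p => mq d p)
  rw [hmain]
  have hpt : ∀ p ∈ Sd, ∀ p' ∈ Sd, (cnt N (mq d p) (mq d p') : ℝ) ≤ (if p = p' then 2 * (N : ℝ) else 0) +
      K * (if p = p' then 0 else Six d p p') := by
    intro p hp p' hp'
    rcases lt_trichotomy p p' with h | h | h
    · rw [if_neg h.ne, if_neg h.ne, zero_add]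
      exact cnt_pair hC₁ hN hPN hS1 hd1 (hS p hp) (hS p' hp') h
    · rw [if_pos h, if_pos h, mul_zero, add_zero]
      exact_mod_cast cnt_le N _ _
    · rw [if_neg h.ne', if_neg h.ne', zero_add, cnt_comm, Six_comm]
      exact cnt_pair hC₁ hN hPN hS1 hd1 (hS p' hp') (hS p hp) h
  calc ∑ p ∈ Sd, ∑ p' ∈ Sd, (cnt N (mq d p) (mq d p') : ℝ)
      ≤ ∑ p ∈ Sd, ∑ p' ∈ Sd, ((if p = p' then 2 * (N : ℝ) else 0) + K * (if p = p' then 0 else Six d p p')) :=
        sum_le_sum (fun p hp => sum_le_sum (fun p' hp' => hpt p hp p' hp'))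
    _ = 2 * N * Sd.card + K * ∑ p ∈ Sd, ∑ p' ∈ Sd, (if p = p' then 0 else Six d p p') := by
        simp only [sum_add_distrib, ← mul_sum]
        congr 1
        have : ∀ p ∈ Sd, ∑ p' ∈ Sd, (if p = p' then 2 * (N : ℝ) else 0) = 2 * N := by
          intro p hp
          rw [sum_ite_eq, if_pos hp]
        rw [sum_congr rfl this, sum_const, nsmul_eq_mul]; ring
    _ ≤ 2 * N * Y + K * (6 * Y ^ 2) := by
        have h1 : 2 * (N : ℝ) * Sd.card ≤ 2 * N * Y := mul_le_mul_of_nonneg_left hcard (by positivity)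
        have h2 := mul_le_mul_of_nonneg_left hsix hK0
        linarith

theorem PP_sq_le : ∃ N₀ : ℕ, ∀ N ≥ N₀, 4 * PP N ^ 2 ≤ N ^ 4 := by
  refine ⟨4, fun N hN => ?_⟩
  have hN1 : (1 : ℝ) ≤ N := by exact_mod_cast (by omega : 1 ≤ N)
  have hN0 : (0 : ℝ) < N := by linarith
  have h1 : (PP N : ℝ) ≤ (N : ℝ) ^ (3 / 2 : ℝ) :=
    (Nat.floor_le (by positivity)).trans (Real.rpow_le_rpow_of_exponent_le hN1 (by norm_num))
  have h2 : (PP N : ℝ) ^ 2 ≤ (N : ℝ) ^ 3 := by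
    calc (PP N : ℝ) ^ 2 ≤ ((N : ℝ) ^ (3 / 2 : ℝ)) ^ 2 := pow_le_pow_left₀ (Nat.cast_nonneg _) h1 2
      _ = (N : ℝ) ^ 3 := by
          rw [← Real.rpow_natCast, ← Real.rpow_mul hN0.le, ← Real.rpow_natCast]; norm_num
  have h3 : PP N ^ 2 ≤ N ^ 3 := by exact_mod_cast h2
  calc 4 * PP N ^ 2 ≤ N * N ^ 3 := Nat.mul_le_mul hN h3
    _ = N ^ 4 := by ring

/-- the second moment -/
theorem thm_S_of (h1 : StS1) (h2 : StS2) : StS := by
  obtain ⟨C₁, hC₁, N₁, hS1⟩ := h1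
  obtain ⟨C₀, hC₀, N₂, hS2⟩ := h2 12
  obtain ⟨C₂, hC₂, hmom⟩ := sum_div_totient_pow 7
  obtain ⟨N₃, hPsq⟩ := PP_sq_le
  obtain ⟨N₄, hPB⟩ := PP_bounds_final
  -- `20 C₂ C₀ N (log N)³ ≤ P`
  obtain ⟨N₅, h₅⟩ : ∃ N₅ : ℕ, ∀ N ≥ N₅, 20 * C₂ * C₀ * Real.log N ^ 3 ≤ 1 / 2 * (N : ℝ) ^ (1 / 10000000 : ℝ) := by
    have h := (isLittleO_log_rpow_rpow_atTop (s := 1 / 10000000) 3 (by norm_num)).comp_tendsto
      (tendsto_natCast_atTop_atTop (R := ℝ))
    have h' := h.bound (show 0 < 1 / (40 * C₂ * C₀) by positivity)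
    obtain ⟨N₅, h5⟩ := Filter.eventually_atTop.1 h'
    refine ⟨max N₅ 1, fun N hN => ?_⟩
    have h6 := h5 N (le_trans (le_max_left _ _) hN)
    have hN1 : (1 : ℝ) ≤ N := by exact_mod_cast le_trans (le_max_right _ _) hN
    simp only [Function.comp] at h6
    rw [Real.norm_of_nonneg (by have := Real.log_nonneg hN1; positivity), Real.norm_of_nonneg (by positivity)] at h6
    have h7 : Real.log N ^ (3 : ℝ) = Real.log N ^ 3 := by rw [← Real.rpow_natCast]; norm_num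
    rw [h7] at h6
    calc 20 * C₂ * C₀ * Real.log N ^ 3 ≤ 20 * C₂ * C₀ * (1 / (40 * C₂ * C₀) * (N : ℝ) ^ (1 / 10000000 : ℝ)) :=
          mul_le_mul_of_nonneg_left h6 (by positivity)
      _ = _ := by field_simp; norm_num
  refine ⟨1 + 300 * C₂ * C₀ ^ 2 * C₁, by positivity, max (max N₁ N₂) (max (max N₃ N₄) (max N₅ 33)), fun N hN S hS => ?_⟩
  have hN1 : N₁ ≤ N := le_trans (le_trans (le_max_left _ _) (le_max_left _ _)) hN
  have hN2 : N₂ ≤ N := le_trans (le_trans (le_max_right _ _) (le_max_left _ _)) hN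
  have hN3 : N₃ ≤ N := le_trans (le_trans (le_trans (le_max_left _ _) (le_max_left _ _)) (le_max_right _ _)) hN
  have hN4 : N₄ ≤ N := le_trans (le_trans (le_trans (le_max_right _ _) (le_max_left _ _)) (le_max_right _ _)) hN
  have hN5 : N₅ ≤ N := le_trans (le_trans (le_trans (le_max_left _ _) (le_max_right _ _)) (le_max_right _ _)) hN
  have hN6 : 33 ≤ N := le_trans (le_trans (le_trans (le_max_right _ _) (le_max_right _ _)) (le_max_right _ _)) hN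
  have hN1' : (1 : ℝ) < N := by exact_mod_cast (by omega : 1 < N)
  have hN0 : (0 : ℝ) < N := by linarith
  have hL : 0 < Real.log N := Real.log_pos hN1'
  have hlg := h₅ N hN5
  obtain ⟨hP1, -, hP3⟩ := hPB N hN4
  have hP0 : (0 : ℝ) < PP N := by
    have : (N : ℝ) ≤ PP N := by exact_mod_cast hP1
    linarith
  set L := Real.log N with hLdef
  set P : ℝ := (PP N : ℝ) with hPdef
  have hd : ∀ d ∈ Ioc N (2 * N), ∑ a ∈ Icc 1 (2 * N), (((S d).filter (fun p => (1 + a * ((p ^ 2 - 1) / d)).Prime)).card : ℝ) ^ 2 ≤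
      10 * C₀ * P / L * ((d : ℝ) / d.totient) ^ 7 + 150 * C₀ ^ 2 * C₁ * P ^ 2 / (L ^ 4 * N) * ((d : ℝ) / d.totient) ^ 7 := by
    intro d hd
    rw [mem_Ioc] at hd
    have hd0 : 0 < d := by omega
    have hd0R : (0 : ℝ) < d := by exact_mod_cast hd0
    have hφ : (0 : ℝ) < d.totient := by exact_mod_cast Nat.totient_pos.2 hd0
    have hdN : (N : ℝ) ≤ d := by exact_mod_cast hd.1.le
    have havg : Av N d C₀ := fun c hc r hr => hS2 N hN2 d c hd.1 hd.2 hc r hr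
    have hh := one_le_div_totient hd0
    refine (per_d hC₀ hC₁ (by omega) (hPsq N hN3) (fun m n h1 h2 h3 => hS1 N hN1 m n h1 h2 h3) hd.1 hd.2 havg
      (fun p hp => hS d p hp)).trans ?_
    have e1 : (1 : ℝ) / d.totient ≤ ((d : ℝ) / d.totient) ^ 7 / N := by
      have : (1 : ℝ) / d.totient = (d : ℝ) / d.totient / d := by field_simp
      rw [this]
      apply div_le_div₀ (by positivity) _ hN0 hdN
      exact le_self_pow₀ hh (by norm_num)
    have e2 : ((d : ℝ) / d.totient) ^ 5 * (1 / (d.totient : ℝ)) ^ 2 ≤ ((d : ℝ) / d.totient) ^ 7 / N ^ 2 := by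
      have : ((d : ℝ) / d.totient) ^ 5 * (1 / (d.totient : ℝ)) ^ 2 = ((d : ℝ) / d.totient) ^ 7 / d ^ 2 := by field_simp
      rw [this]
      exact div_le_div_of_nonneg_left (by positivity) (by positivity) (pow_le_pow_left₀ hN0.le hdN 2)
    have e3 : 2 * (N : ℝ) * (5 * (C₀ * P / (d.totient * L))) = 10 * C₀ * P / L * (N * (1 / d.totient)) := by
      field_simp; ring
    have e4 : C₁ * N / L ^ 2 * ((d : ℝ) / d.totient) ^ 5 * (6 * (5 * (C₀ * P / (d.totient * L))) ^ 2) =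
        150 * C₀ ^ 2 * C₁ * P ^ 2 / (L ^ 4 * N) * (N ^ 2 * (((d : ℝ) / d.totient) ^ 5 * (1 / (d.totient : ℝ)) ^ 2)) := by
      field_simp; ring
    rw [e3, e4]
    apply add_le_add
    · apply mul_le_mul_of_nonneg_left _ (by positivity)
      calc N * (1 / (d.totient : ℝ)) ≤ N * (((d : ℝ) / d.totient) ^ 7 / N) := mul_le_mul_of_nonneg_left e1 hN0.le
        _ = _ := by field_simp
    · apply mul_le_mul_of_nonneg_left _ (by positivity)
      calc (N : ℝ) ^ 2 * (((d : ℝ) / d.totient) ^ 5 * (1 / (d.totient : ℝ)) ^ 2) ≤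
            N ^ 2 * (((d : ℝ) / d.totient) ^ 7 / N ^ 2) := mul_le_mul_of_nonneg_left e2 (by positivity)
        _ = _ := by field_simp
  have hmom' : ∑ d ∈ Ioc N (2 * N), ((d : ℝ) / d.totient) ^ 7 ≤ 2 * C₂ * N := by
    calc ∑ d ∈ Ioc N (2 * N), ((d : ℝ) / d.totient) ^ 7 ≤ ∑ d ∈ Icc 1 (2 * N), ((d : ℝ) / d.totient) ^ 7 := by
          apply sum_le_sum_of_subset_of_nonneg
          · intro d hd
            rw [mem_Ioc] at hd
            rw [mem_Icc]; omega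
          · intro _ _ _; positivity
      _ ≤ C₂ * ((2 * N : ℕ) : ℝ) := hmom (2 * N)
      _ = 2 * C₂ * N := by push_cast; ring
  refine le_trans (sum_le_sum hd) ?_
  rw [sum_add_distrib, ← mul_sum, ← mul_sum]
  refine le_trans (add_le_add (mul_le_mul_of_nonneg_left hmom' (by positivity)) (mul_le_mul_of_nonneg_left hmom' (by positivity))) ?_
  have k1 : 10 * C₀ * P / L * (2 * C₂ * N) = 20 * C₂ * C₀ * L ^ 3 * N * (P / L ^ 4) := by
    field_simp; norm_num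
  have k2 : 150 * C₀ ^ 2 * C₁ * P ^ 2 / (L ^ 4 * N) * (2 * C₂ * N) = 300 * C₂ * C₀ ^ 2 * C₁ * (P ^ 2 / L ^ 4) := by
    field_simp; norm_num
  rw [k1, k2]
  have e1 : (N : ℝ) ^ (1 + 1 / 10000000 : ℝ) = N * (N : ℝ) ^ (1 / 10000000 : ℝ) := by
    rw [Real.rpow_add hN0, Real.rpow_one]
  rw [e1] at hP3
  have k3 : 20 * C₂ * C₀ * L ^ 3 * N ≤ P := by
    have := mul_le_mul_of_nonneg_right hlg hN0.le
    linarith
  have k4 : 20 * C₂ * C₀ * L ^ 3 * N * (P / L ^ 4) ≤ P * (P / L ^ 4) :=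
    mul_le_mul_of_nonneg_right k3 (by positivity)
  have k5 : P * (P / L ^ 4) = P ^ 2 / L ^ 4 := by rw [sq, mul_div_assoc]
  rw [k5] at k4
  have k6 : (1 + 300 * C₂ * C₀ ^ 2 * C₁) * P ^ 2 / L ^ 4 =
      P ^ 2 / L ^ 4 + 300 * C₂ * C₀ ^ 2 * C₁ * (P ^ 2 / L ^ 4) := by rw [mul_div_assoc, add_mul, one_mul]
  rw [k6]
  exact add_le_add k4 le_rfl

end Pool.Agent.ZH
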