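import Pool.Agent.Work.ZH.Small

/-! # Cell ZH, module Tuples, part A: the pairs `(m₁, m₂)` built from primes of size `R^101` are good -/

namespace Pool.Agent.ZH

open Finset

/-- `m₂ = s_0 ⋯ s_{K-1} m₃`, `K ≥ 1000` -/
theorem goodPair_of {x m₁ m₃ K : ℕ} {s : ℕ → ℕ} (hK : 1000 ≤ K) (hx : 2 ≤ x) (hm1 : 0 < m₁) (hm3 : 0 < m₃)
    (hs : ∀ i < K, (s i).Prime) (hslo : ∀ i < K, RR x ^ 101 ≤ (s i : ℝ))
    (hshi : ∀ i < K, (s i : ℝ) ≤ RR x ^ 102)
    (hlo : x ≤ (m₁ * ((∏ i ∈ range K, s i) * m₃)) ^ 2)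
    (hhi : ((m₁ * ((∏ i ∈ range K, s i) * m₃) : ℕ) : ℝ) ^ 2 ≤ x * RR x ^ 3)
    (hsf : ∀ g : ℕ, g ^ 2 ∣ m₁ * ((∏ i ∈ range K, s i) * m₃) → (g : ℝ) ≤ RR x) :
    GoodPair x m₁ ((∏ i ∈ range K, s i) * m₃) := by
  have hxR : (1 : ℝ) < x := by exact_mod_cast (by omega : 1 < x)
  have hR1 : 1 < RR x := Real.one_lt_rpow hxR (by norm_num)
  have hR0 : 0 < RR x := by linarith
  obtain ⟨M, hM⟩ : ∃ M : ℕ, M = m₁ * ((∏ i ∈ range K, s i) * m₃) := ⟨_, rfl⟩
  rw [← hM] at hlo hhi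
  simp only [← hM] at hsf
  refine ⟨by rwa [← hM], by rwa [← hM], by simpa only [← hM] using hsf, ?_⟩
  intro L hL5 hL2
  have hL0 : 0 < L := by
    rcases Nat.eq_zero_or_pos L with h | h
    · rw [h] at hL5
      have : (0 : ℝ) < (x : ℝ) ^ 2 * RR x ^ 4900 := by positivity
      simp at hL5
      linarith
    · exact h
  have hLR : (0 : ℝ) < L := by exact_mod_cast hL0
  -- the chain of divisors
  obtain ⟨f, hf⟩ : ∃ f : ℕ → ℕ, f = fun i => m₁ * ((∏ j ∈ Ico i K, s j) * m₃) := ⟨_, rfl⟩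
  have hspos : ∀ i < K, 0 < s i := fun i hi => (hs i hi).pos
  have hf0 : f 0 = M := by
    rw [hf, hM]
    simp only
    rw [← Finset.range_eq_Ico]
  have hfs : ∀ i < K, f i = f (i + 1) * s i := by
    intro i hi
    rw [hf]
    simp only
    rw [Finset.prod_eq_prod_Ico_succ_bot hi]
    ring
  have hfpos : ∀ i, 0 < f i := by
    intro i
    rw [hf]
    have : 0 < ∏ j ∈ Ico i K, s j :=
      Finset.prod_pos fun j hj => hspos j (mem_Ico.1 hj).2
    positivity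
  have hprod : ∀ i ≤ K, M = f i * ∏ j ∈ range i, s j := by
    intro i hi
    rw [hM, hf]
    simp only
    rw [Finset.range_eq_Ico, ← Finset.prod_Ico_consecutive _ (Nat.zero_le i) hi,
      ← Finset.range_eq_Ico]
    ring
  -- a prime whose square divides M is small
  have hsq : ∀ p : ℕ, p * p ∣ M → ¬ RR x ^ 101 ≤ (p : ℝ) := by
    intro p hp hp'
    have h1 := hsf p (by rw [pow_two]; exact hp)
    have h2 : RR x < RR x ^ 101 := lt_self_pow₀ hR1 (by norm_num)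
    linarith
  -- existence of the index
  have hend : (f K : ℝ) * RR x ^ 11 ≤ L := by
    have h1 : (M : ℝ) = f K * ∏ j ∈ range K, (s j : ℝ) := by
      have := hprod K le_rfl
      rw [this]; push_cast; rfl
    have h2 : RR x ^ 101000 ≤ ∏ j ∈ range K, (s j : ℝ) := by
      calc RR x ^ 101000 ≤ RR x ^ (101 * K) := pow_le_pow_right₀ hR1.le (by omega)
        _ = ∏ j ∈ range K, RR x ^ 101 := by
            rw [Finset.prod_const, card_range, ← pow_mul]
        _ ≤ _ := Finset.prod_le_prod (fun _ _ => by positivity) fun j hj => hslo j (mem_range.1 hj)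
    have hf1 : (0 : ℝ) < f K := by exact_mod_cast hfpos K
    have h3 : (f K : ℝ) * RR x ^ 101000 ≤ M := by
      rw [h1]; exact mul_le_mul_of_nonneg_left h2 hf1.le
    have h4 : ((f K : ℝ) * RR x ^ 101000) ^ 2 ≤ x * RR x ^ 3 :=
      (pow_le_pow_left₀ (by positivity) h3 2).trans hhi
    -- compare tenth powers
    have h5 : ((f K : ℝ) * RR x ^ 11) ^ 10 ≤ (L : ℝ) ^ 10 := by
      have e1 : ((f K : ℝ) * RR x ^ 11) ^ 10 * RR x ^ 1009890 =
          (((f K : ℝ) * RR x ^ 101000) ^ 2) ^ 5 := by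
        rw [mul_pow, mul_pow, ← pow_mul, ← pow_mul, mul_pow, ← pow_mul, ← pow_mul, mul_assoc,
          ← pow_add]
      have e2 : (((f K : ℝ) * RR x ^ 101000) ^ 2) ^ 5 ≤ (x * RR x ^ 3) ^ 5 :=
        pow_le_pow_left₀ (by positivity) h4 5
      have e3 : ((x : ℝ) * RR x ^ 3) ^ 5 = (x : ℝ) ^ 4 * RR x ^ 1000015 := by
        have : (x : ℝ) = RR x ^ 1000000 := (RR_pow x).symm
        calc ((x : ℝ) * RR x ^ 3) ^ 5 = (x : ℝ) ^ 4 * ((x : ℝ) * RR x ^ 15) := by ring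
          _ = (x : ℝ) ^ 4 * (RR x ^ 1000000 * RR x ^ 15) := by rw [← this]
          _ = _ := by rw [← pow_add]
      have e4 : (x : ℝ) ^ 4 * RR x ^ 1000015 ≤ (L : ℝ) ^ 10 * RR x ^ 1009890 := by
        have g1 : ((x : ℝ) ^ 2 * RR x ^ 4900) ^ 2 ≤ ((L : ℝ) ^ 5) ^ 2 :=
          pow_le_pow_left₀ (by positivity) hL5 2
        have g2 : (x : ℝ) ^ 4 ≤ (L : ℝ) ^ 10 := by
          calc (x : ℝ) ^ 4 ≤ (x : ℝ) ^ 4 * RR x ^ 9800 :=
                le_mul_of_one_le_right (by positivity) (one_le_pow₀ hR1.le)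
            _ = ((x : ℝ) ^ 2 * RR x ^ 4900) ^ 2 := by rw [mul_pow, ← pow_mul, ← pow_mul]
            _ ≤ ((L : ℝ) ^ 5) ^ 2 := g1
            _ = (L : ℝ) ^ 10 := by rw [← pow_mul]
        have g3 : RR x ^ 1000015 ≤ RR x ^ 1009890 := pow_le_pow_right₀ hR1.le (by norm_num)
        exact mul_le_mul g2 g3 (by positivity) (by positivity)
      have e5 := (e1.le.trans (e2.trans (e3.le.trans e4)))
      exact le_of_mul_le_mul_right e5 (by positivity)
    exact le_of_pow_le_pow_left₀ (by norm_num) hLR.le h5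
  -- minimal index
  classical
  have hex : ∃ i, (f i : ℝ) * RR x ^ 11 ≤ L := ⟨K, hend⟩
  set i := Nat.find hex with hi
  have hi1 : (f i : ℝ) * RR x ^ 11 ≤ L := Nat.find_spec hex
  have hi1000 : i ≤ K := Nat.find_min' hex hend
  have hi0 : i ≠ 0 := by
    intro h0
    rw [h0, hf0] at hi1
    have h1 : (L : ℝ) ^ 2 ≤ (M : ℝ) ^ 2 := by
      exact_mod_cast hL2.trans hlo
    have h2 : (L : ℝ) ≤ M := le_of_pow_le_pow_left₀ (by norm_num) (by positivity) h1
    have h3 : (1 : ℝ) < RR x ^ 11 := one_lt_pow₀ hR1 (by norm_num)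
    have hM0 : (0 : ℝ) < M := lt_of_lt_of_le hLR h2
    nlinarith
  obtain ⟨k, hk⟩ := Nat.exists_eq_succ_of_ne_zero hi0
  have hk1000 : k < K := by omega
  have hkmin : ¬ (f k : ℝ) * RR x ^ 11 ≤ L := Nat.find_min hex (by omega)
  push Not at hkmin
  rw [hk] at hi1
  have hMuv : M = f (k + 1) * ((∏ j ∈ range k, s j) * s k) := by
    rw [hprod (k + 1) (by omega), Finset.prod_range_succ]
  refine ⟨(∏ j ∈ Ico (k + 1) K, s j) * m₃, ∏ j ∈ range k, s j, s k, ?_, ?_, ?_, ?_, ?_⟩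
  · have h1 := Finset.prod_Ico_consecutive s (Nat.zero_le (k + 1)) (by omega : k + 1 ≤ K)
    rw [← Finset.range_eq_Ico, ← Finset.range_eq_Ico] at h1
    rw [← h1, Finset.prod_range_succ]
    ring
  · have hdvd : m₁ * ((∏ j ∈ Ico (k + 1) K, s j) * m₃) = f (k + 1) := by rw [hf]
    rw [hdvd]
    have hprime : ∀ p : ℕ, p.Prime → p ∣ ∏ j ∈ range k, s j → ∃ j < k, p = s j := by
      intro p hp hpd
      obtain ⟨j, hj, hpj⟩ := (Prime.dvd_finsetProd_iff hp.prime s).1 hpd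
      have hj' := mem_range.1 hj
      exact ⟨j, hj', (Nat.prime_dvd_prime_iff_eq hp (hs j (by omega))).1 hpj⟩
    refine ⟨hfpos _, hs k hk1000, ?_, ?_, ?_, ?_, ?_, ?_⟩
    · rw [Nat.squarefree_iff_prime_squarefree]
      intro p hp hpp
      obtain ⟨j, hj, rfl⟩ := hprime p hp ((Dvd.intro _ rfl).trans hpp)
      refine hsq (s j) ?_ (hslo j (by omega))
      rw [hMuv]
      exact (hpp.trans (Dvd.intro _ rfl)).trans (Dvd.intro_left _ rfl)
    · intro p hp hpd
      obtain ⟨j, hj, rfl⟩ := hprime p hp hpd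
      exact (pow_le_pow_right₀ hR1.le (by norm_num)).trans (hslo j (by omega))
    · exact (pow_le_pow_right₀ hR1.le (by norm_num)).trans (hslo k hk1000)
    · -- coprimality
      rw [Nat.coprime_iff_gcd_eq_one]
      by_contra hg
      obtain ⟨p, hp, hpd⟩ := Nat.exists_prime_and_dvd hg
      have h1 : p ∣ f (k + 1) := hpd.trans (Nat.gcd_dvd_left _ _)
      have h2 : p ∣ (∏ j ∈ range k, s j) * s k := hpd.trans (Nat.gcd_dvd_right _ _)
      have h3 : ∃ j < K, p = s j := by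
        rcases (hp.dvd_mul).1 h2 with h | h
        · obtain ⟨j, hj, h⟩ := hprime p hp h
          exact ⟨j, by omega, h⟩
        · exact ⟨k, hk1000, (Nat.prime_dvd_prime_iff_eq hp (hs k hk1000)).1 h⟩
      obtain ⟨j, hj, rfl⟩ := h3
      refine hsq (s j) ?_ (hslo j hj)
      rw [hMuv]
      exact Nat.mul_dvd_mul h1 h2
    · rw [Nat.coprime_iff_gcd_eq_one]
      by_contra hg
      obtain ⟨p, hp, hpd⟩ := Nat.exists_prime_and_dvd hg
      have h1 : p ∣ ∏ j ∈ range k, s j := hpd.trans (Nat.gcd_dvd_left _ _)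
      have h2 : p ∣ s k := hpd.trans (Nat.gcd_dvd_right _ _)
      have h3 : p = s k := (Nat.prime_dvd_prime_iff_eq hp (hs k hk1000)).1 h2
      refine hsq p ?_ (by rw [h3]; exact hslo k hk1000)
      rw [hMuv]
      exact (Nat.mul_dvd_mul h1 h2).trans (Dvd.intro_left _ rfl)
    · intro g hg
      refine hsf g (hg.trans ?_)
      rw [hMuv]
      exact Dvd.intro _ rfl
  · exact (hshi k hk1000).trans (pow_le_pow_right₀ hR1.le (by norm_num))
  · rw [show m₁ * ((∏ j ∈ Ico (k + 1) K, s j) * m₃) = f (k + 1) by rw [hf]]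
    exact hi1
  · rw [show m₁ * ((∏ j ∈ Ico (k + 1) K, s j) * m₃) = f (k + 1) by rw [hf]]
    have h1 : (f k : ℝ) = f (k + 1) * s k := by
      have := hfs k hk1000
      rw [this]; push_cast; rfl
    have h2 : (0 : ℝ) < f (k + 1) := by exact_mod_cast hfpos (k + 1)
    calc (L : ℝ) ≤ (f k : ℝ) * RR x ^ 11 := hkmin.le
      _ = f (k + 1) * s k * RR x ^ 11 := by rw [h1]
      _ ≤ f (k + 1) * RR x ^ 102 * RR x ^ 11 := by
          have := hshi k hk1000
          gcongr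
      _ = f (k + 1) * RR x ^ 113 := by rw [mul_assoc, ← pow_add]
      _ ≤ f (k + 1) * RR x ^ 163 := by
          have : RR x ^ 113 ≤ RR x ^ 163 := pow_le_pow_right₀ hR1.le (by norm_num)
          gcongr

end Pool.Agent.ZH
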