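import Pool.Agent.Work.ZH.Small
import Pool.Agent.Work.MP_92f640_nt.HS.DensP
import Pool.Agent.Work.MP_b30479_gt.Mertens

/-! # Cell ZH, module Tuples, part B: the family of the `m₂`, sums over primes -/

namespace Pool.Agent.ZH

open Finset Pool.Agent.BV Pool.Agent.Work.MP_b30479_gt.Mertens

/-- products `s_{k-1} ⋯ s_0 m₃`, `s_i ∈ J i`, `m₃ ∈ M₃` -/
def TupFam (J : ℕ → Finset ℕ) (M₃ : Finset ℕ) : ℕ → Finset ℕ
  | 0 => M₃
  | k + 1 => (J k ×ˢ TupFam J M₃ k).image (fun q => q.1 * q.2)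

/-- the hypotheses on the family -/
structure TupJ (J : ℕ → Finset ℕ) (M₃ : Finset ℕ) (T : ℕ → ℝ) : Prop where
  prime : ∀ k, ∀ s ∈ J k, s.Prime
  lo : ∀ k, ∀ s ∈ J k, T k < s
  hi : ∀ k, ∀ s ∈ J k, (s : ℝ) ≤ T (k + 1)
  mono : ∀ k, T k ≤ T (k + 1)
  pos₃ : ∀ m ∈ M₃, 0 < m
  hi₃ : ∀ m ∈ M₃, ∀ p : ℕ, p.Prime → p ∣ m → (p : ℝ) ≤ T 0

lemma TupFam_pos {J : ℕ → Finset ℕ} {M₃ : Finset ℕ} {T : ℕ → ℝ} (h : TupJ J M₃ T) (k : ℕ) :
    ∀ m ∈ TupFam J M₃ k, 0 < m ∧ ∀ p : ℕ, p.Prime → p ∣ m → (p : ℝ) ≤ T k := by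
  induction k with
  | zero => exact fun m hm => ⟨h.pos₃ m hm, h.hi₃ m hm⟩
  | succ k ih =>
    intro m hm
    obtain ⟨⟨s, m'⟩, hq, rfl⟩ := mem_image.1 hm
    rw [mem_product] at hq
    obtain ⟨h1, h2⟩ := hq
    simp only at h1 h2 ⊢
    obtain ⟨h3, h4⟩ := ih m' h2
    refine ⟨Nat.mul_pos (h.prime k s h1).pos h3, fun p hp hpd => ?_⟩
    rcases (hp.dvd_mul).1 hpd with h5 | h5
    · rw [(Nat.prime_dvd_prime_iff_eq hp (h.prime k s h1)).1 h5]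
      exact h.hi k s h1
    · exact (h4 p hp h5).trans (h.mono k)

lemma TupFam_inj {J : ℕ → Finset ℕ} {M₃ : Finset ℕ} {T : ℕ → ℝ} (h : TupJ J M₃ T) (k : ℕ) :
    Set.InjOn (fun q : ℕ × ℕ => q.1 * q.2) (J k ×ˢ TupFam J M₃ k : Finset (ℕ × ℕ)) := by
  rintro ⟨s, m⟩ hq ⟨s', m'⟩ hq' heq
  rw [coe_product, Set.mem_prod] at hq hq'
  simp only [mem_coe] at hq hq' heq
  have hs := h.prime k s hq.1
  have hs' := h.prime k s' hq'.1
  have h1 : s = s' := by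
    by_contra hne
    have h2 : s ∣ s' * m' := by rw [← heq]; exact Dvd.intro _ rfl
    rcases (hs.dvd_mul).1 h2 with h3 | h3
    · exact hne ((Nat.prime_dvd_prime_iff_eq hs hs').1 h3)
    · have h4 := (TupFam_pos h k m' hq'.2).2 s hs h3
      have h5 := h.lo k s hq.1
      linarith
  subst h1
  have h2 : m = m' := Nat.eq_of_mul_eq_mul_left hs.pos heq
  rw [h2]

lemma TupFam_sum {J : ℕ → Finset ℕ} {M₃ : Finset ℕ} {T : ℕ → ℝ} (h : TupJ J M₃ T) (k : ℕ) :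
    ∑ m ∈ TupFam J M₃ (k + 1), (1 : ℝ) / m =
      (∑ s ∈ J k, (1 : ℝ) / s) * ∑ m ∈ TupFam J M₃ k, (1 : ℝ) / m := by
  rw [show TupFam J M₃ (k + 1) = (J k ×ˢ TupFam J M₃ k).image (fun q => q.1 * q.2) from rfl,
    sum_image (fun a ha b hb hab => TupFam_inj h k ha hb hab), sum_product, sum_mul]
  refine sum_congr rfl fun s _ => ?_
  rw [mul_sum]
  refine sum_congr rfl fun m _ => ?_
  push_cast
  rw [one_div_mul_one_div]

lemma TupFam_lower {J : ℕ → Finset ℕ} {M₃ : Finset ℕ} {T : ℕ → ℝ} (h : TupJ J M₃ T) (c : ℝ)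
    (hc : 0 ≤ c) (k : ℕ) (hJ : ∀ i < k, c ≤ ∑ s ∈ J i, (1 : ℝ) / s) :
    c ^ k * ∑ m ∈ M₃, (1 : ℝ) / m ≤ ∑ m ∈ TupFam J M₃ k, (1 : ℝ) / m := by
  induction k with
  | zero => simp [TupFam]
  | succ k ih =>
    rw [TupFam_sum h, pow_succ]
    have h1 := ih fun i hi => hJ i (by omega)
    have h2 := hJ k (by omega)
    have h3 : 0 ≤ ∑ m ∈ M₃, (1 : ℝ) / m := by positivity
    calc c ^ k * c * ∑ m ∈ M₃, (1 : ℝ) / m = c * (c ^ k * ∑ m ∈ M₃, (1 : ℝ) / m) := by ring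
      _ ≤ (∑ s ∈ J k, (1 : ℝ) / s) * ∑ m ∈ TupFam J M₃ k, (1 : ℝ) / m :=
          mul_le_mul h2 h1 (by positivity) (hc.trans h2)

lemma TupFam_exists {J : ℕ → Finset ℕ} {M₃ : Finset ℕ} (k : ℕ) :
    ∀ m ∈ TupFam J M₃ k, ∃ s : ℕ → ℕ, ∃ m₃ ∈ M₃, m = (∏ i ∈ range k, s i) * m₃ ∧
      ∀ i < k, s i ∈ J i := by
  induction k with
  | zero => exact fun m hm => ⟨fun _ => 1, m, hm, by simp, fun i hi => absurd hi (by omega)⟩
  | succ k ih =>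
    intro m hm
    obtain ⟨⟨p, m'⟩, hq, rfl⟩ := mem_image.1 hm
    rw [mem_product] at hq
    obtain ⟨s, m₃, h3, h4, h5⟩ := ih m' hq.2
    refine ⟨fun i => if i = k then p else s i, m₃, h3, ?_, ?_⟩
    · simp only
      rw [prod_range_succ, if_pos rfl, h4]
      have : ∏ i ∈ range k, (if i = k then p else s i) = ∏ i ∈ range k, s i := by
        refine prod_congr rfl fun i hi => ?_
        rw [if_neg (by have := mem_range.1 hi; omega)]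
      rw [this]
      ring
    · intro i hi
      by_cases h : i = k
      · simp only [h, if_true]; exact hq.1
      · simp only [h, if_false]; exact h5 i (by omega)

/-! ### sums over primes -/

/-- the end points `R^(101 + k/2000)` -/
noncomputable def TT0 (R : ℝ) (k : ℕ) : ℝ := R ^ (101 + (k : ℝ) / 2000)

lemma TT0_mono {R : ℝ} (hR : 1 ≤ R) {k l : ℕ} (h : k ≤ l) : TT0 R k ≤ TT0 R l := by
  unfold TT0
  have : (k : ℝ) ≤ l := by exact_mod_cast h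
  exact Real.rpow_le_rpow_of_exponent_le hR (by linarith)

lemma log_TT0 {R : ℝ} (hR : 1 ≤ R) (k : ℕ) : Real.log (TT0 R k) = (101 + (k : ℝ) / 2000) * Real.log R := by
  unfold TT0
  rw [Real.log_rpow (by linarith)]

lemma one_le_TT0 {R : ℝ} (hR : 1 ≤ R) (k : ℕ) : 1 ≤ TT0 R k := by
  unfold TT0
  exact Real.one_le_rpow hR (by positivity)

/-- each interval contributes a constant -/
theorem tup_sum_J : ∃ K₀ : ℝ, 0 < K₀ ∧ ∀ R : ℝ, 1 ≤ R → K₀ ≤ Real.log R → ∀ k < 1000,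
    1 / 500000 ≤ ∑ p ∈ PB (TT0 R k) (TT0 R (k + 1)), (1 : ℝ) / p := by
  obtain ⟨C, hC, h⟩ := sum_log_bounds
  refine ⟨4000 * C, by positivity, fun R hR hK k hk => ?_⟩
  have hl : 0 < Real.log R := by linarith
  have h1 := h (TT0 R k) (TT0 R (k + 1)) (one_le_TT0 hR k) (TT0_mono hR (by omega))
  rw [log_TT0 hR, log_TT0 hR] at h1
  have h2 := (abs_le.1 h1).1
  push_cast at h2
  have h3 : Real.log R / 4000 ≤ ∑ p ∈ PB (TT0 R k) (TT0 R (k + 1)), Real.log p / p := by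
    have : ((101 + ((k : ℝ) + 1) / 2000) * Real.log R - (101 + (k : ℝ) / 2000) * Real.log R)
        = Real.log R / 2000 := by ring
    rw [this] at h2
    linarith
  have h4 : ∑ p ∈ PB (TT0 R k) (TT0 R (k + 1)), Real.log p / p ≤
      (102 * Real.log R) * ∑ p ∈ PB (TT0 R k) (TT0 R (k + 1)), (1 : ℝ) / p := by
    rw [mul_sum]
    refine sum_le_sum fun p hp => ?_
    have hp' := (mem_PB (by have := one_le_TT0 hR k; linarith)
      (by have := one_le_TT0 hR (k + 1); linarith)).1 hp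
    have hp0 : (0 : ℝ) < p := by exact_mod_cast hp'.1.pos
    have h5 : Real.log p ≤ 102 * Real.log R := by
      have h6 := Real.log_le_log hp0 hp'.2.2
      rw [log_TT0 hR] at h6
      have h7 : ((k + 1 : ℕ) : ℝ) / 2000 ≤ 1 := by
        have : ((k + 1 : ℕ) : ℝ) ≤ 1000 := by exact_mod_cast hk
        linarith
      nlinarith
    rw [mul_one_div]
    gcongr
  have h5 : Real.log R / 4000 ≤
      (102 * Real.log R) * ∑ p ∈ PB (TT0 R k) (TT0 R (k + 1)), (1 : ℝ) / p := h3.trans h4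
  have h6 : 1 / 4000 ≤ 102 * ∑ p ∈ PB (TT0 R k) (TT0 R (k + 1)), (1 : ℝ) / p := by
    by_contra hcon
    push Not at hcon
    nlinarith
  linarith

/-- differences of `θ` -/
theorem theta_diff (κ : ℝ) (hκ : 0 < κ) : ∃ y₀ : ℝ, ∀ y : ℝ, y₀ ≤ y →
    κ * y / 2 ≤ theta ⌊(1 + κ) * y⌋₊ - theta ⌊y⌋₊ := by
  obtain ⟨C, hC, h⟩ := Pool.Agent.HS.theta_pnt 1
  -- log ⌊y⌋ ≥ 8 C (2 + κ) / κ
  refine ⟨max (max 4 (8 / κ)) (2 * Real.exp (8 * C * (2 + κ) / κ)), fun y hy => ?_⟩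
  have hy4 : 4 ≤ y := le_trans (le_trans (le_max_left _ _) (le_max_left _ _)) hy
  have hyκ : 8 / κ ≤ y := le_trans (le_trans (le_max_right _ _) (le_max_left _ _)) hy
  have hyE : 2 * Real.exp (8 * C * (2 + κ) / κ) ≤ y := le_trans (le_max_right _ _) hy
  have hκy : 8 ≤ κ * y := by
    rw [div_le_iff₀ hκ] at hyκ; linarith
  have hfl : y / 2 ≤ ((⌊y⌋₊ : ℕ) : ℝ) := by
    have := Nat.lt_floor_add_one y
    linarith
  have hfl2 : ((⌊y⌋₊ : ℕ) : ℝ) ≤ y := Nat.floor_le (by linarith)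
  have hfl3 : (3 : ℕ) ≤ ⌊y⌋₊ := Nat.le_floor (by push_cast; linarith)
  have hlog1 : 8 * C * (2 + κ) / κ ≤ Real.log ((⌊y⌋₊ : ℕ) : ℝ) := by
    rw [Real.le_log_iff_exp_le (by linarith)]
    linarith
  have hb : 0 < 8 * C * (2 + κ) / κ := by positivity
  have hyy : y ≤ (1 + κ) * y := by nlinarith
  have hgl : ((⌊y⌋₊ : ℕ) : ℝ) ≤ ((⌊(1 + κ) * y⌋₊ : ℕ) : ℝ) := by
    exact_mod_cast Nat.floor_le_floor hyy
  have hgl2 : ((⌊(1 + κ) * y⌋₊ : ℕ) : ℝ) ≤ (1 + κ) * y := Nat.floor_le (by positivity)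
  have hgl3 : (1 + κ) * y - 1 ≤ ((⌊(1 + κ) * y⌋₊ : ℕ) : ℝ) := by
    have := Nat.lt_floor_add_one ((1 + κ) * y)
    linarith
  have hgl4 : (3 : ℕ) ≤ ⌊(1 + κ) * y⌋₊ := hfl3.trans (Nat.floor_le_floor hyy)
  have hlog2 : 8 * C * (2 + κ) / κ ≤ Real.log ((⌊(1 + κ) * y⌋₊ : ℕ) : ℝ) :=
    hlog1.trans (Real.log_le_log (by linarith) hgl)
  have e1 := (abs_le.1 (h _ hfl3)).2
  have e2 := (abs_le.1 (h _ hgl4)).1
  rw [pow_one] at e1 e2
  have e3 : C * ((⌊y⌋₊ : ℕ) : ℝ) / Real.log ((⌊y⌋₊ : ℕ) : ℝ) ≤ κ * y / 8 := by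
    rw [div_le_iff₀ (by linarith)]
    have g1 : 8 * C * (2 + κ) ≤ κ * Real.log ((⌊y⌋₊ : ℕ) : ℝ) := by
      rw [div_le_iff₀ hκ] at hlog1; linarith
    have g2 : C * ((⌊y⌋₊ : ℕ) : ℝ) ≤ C * y := by gcongr
    have g3 : C * y ≤ y / 8 * (8 * C * (2 + κ)) := by
      have : 0 < C * y := by positivity
      nlinarith [mul_pos (mul_pos hC (by linarith : 0 < y)) hκ]
    have g4 : y / 8 * (8 * C * (2 + κ)) ≤ y / 8 * (κ * Real.log ((⌊y⌋₊ : ℕ) : ℝ)) :=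
      mul_le_mul_of_nonneg_left g1 (by linarith)
    linarith
  have e4 : C * ((⌊(1 + κ) * y⌋₊ : ℕ) : ℝ) / Real.log ((⌊(1 + κ) * y⌋₊ : ℕ) : ℝ) ≤ κ * y / 8 := by
    rw [div_le_iff₀ (by linarith)]
    have g1 : 8 * C * (2 + κ) ≤ κ * Real.log ((⌊(1 + κ) * y⌋₊ : ℕ) : ℝ) := by
      rw [div_le_iff₀ hκ] at hlog2; linarith
    have g2 : C * ((⌊(1 + κ) * y⌋₊ : ℕ) : ℝ) ≤ C * ((1 + κ) * y) := by gcongr
    have g3 : C * ((1 + κ) * y) ≤ y / 8 * (8 * C * (2 + κ)) := by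
      have : 0 < C * y := by positivity
      nlinarith
    have g4 : y / 8 * (8 * C * (2 + κ)) ≤ y / 8 * (κ * Real.log ((⌊(1 + κ) * y⌋₊ : ℕ) : ℝ)) :=
      mul_le_mul_of_nonneg_left g1 (by linarith)
    linarith
  linarith

lemma theta_sub_eq (a b : ℕ) (h : a ≤ b) :
    theta b - theta a = ∑ p ∈ (Ioc a b).filter Nat.Prime, Real.log p := by
  unfold theta
  have h1 : (Icc 1 b).filter Nat.Prime = (Icc 1 a).filter Nat.Prime ∪ (Ioc a b).filter Nat.Prime := by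
    ext n
    simp only [mem_union, mem_filter, mem_Icc, mem_Ioc]
    constructor
    · rintro ⟨⟨h1, h2⟩, h3⟩
      by_cases h4 : n ≤ a
      · exact Or.inl ⟨⟨h1, h4⟩, h3⟩
      · exact Or.inr ⟨⟨by omega, h2⟩, h3⟩
    · rintro (⟨⟨h1, h2⟩, h3⟩ | ⟨⟨h1, h2⟩, h3⟩)
      · exact ⟨⟨h1, by omega⟩, h3⟩
      · exact ⟨⟨by omega, h2⟩, h3⟩
  rw [h1, sum_union]
  · ring
  · rw [disjoint_left]
    intro n hn hn'
    simp only [mem_filter, mem_Icc, mem_Ioc] at hn hn'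
    omega

/-- primes in `(y, 1.6 y]` -/
theorem tup_sum_d : ∃ y₀ : ℝ, 2 ≤ y₀ ∧ ∀ y : ℝ, y₀ ≤ y →
    1 / (16 * Real.log y) ≤ ∑ p ∈ PB y ((1 + 3 / 5) * y), (1 : ℝ) / p := by
  obtain ⟨y₀, h⟩ := theta_diff (3 / 5) (by norm_num)
  refine ⟨max y₀ 2, le_max_right _ _, fun y hy => ?_⟩
  have hy0 : y₀ ≤ y := le_trans (le_max_left _ _) hy
  have hy2 : 2 ≤ y := le_trans (le_max_right _ _) hy
  have hlog : 0 < Real.log y := Real.log_pos (by linarith)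
  have h1 := h y hy0
  rw [theta_sub_eq _ _ (Nat.floor_le_floor (by nlinarith))] at h1
  have h2 : ∑ p ∈ (Ioc ⌊y⌋₊ ⌊(1 + 3 / 5) * y⌋₊).filter Nat.Prime, Real.log p ≤
      ((1 + 3 / 5) * y) * (2 * Real.log y) * ∑ p ∈ PB y ((1 + 3 / 5) * y), (1 : ℝ) / p := by
    rw [mul_sum]
    unfold PB
    refine sum_le_sum fun p hp => ?_
    have hp' := (mem_PB (a := y) (b := (1 + 3 / 5) * y) (by linarith) (by linarith)).1 hp
    have hp0 : (0 : ℝ) < p := by exact_mod_cast hp'.1.pos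
    have h3 : Real.log p ≤ 2 * Real.log y := by
      have h4 : (p : ℝ) ≤ y ^ 2 := by nlinarith [hp'.2.2]
      have := Real.log_le_log hp0 h4
      rwa [Real.log_pow] at this
    have h5 : 1 ≤ ((1 + 3 / 5) * y) * (1 / (p : ℝ)) := by
      rw [mul_one_div, le_div_iff₀ hp0]
      linarith [hp'.2.2]
    calc Real.log p ≤ 2 * Real.log y := h3
      _ = 1 * (2 * Real.log y) := by ring
      _ ≤ (((1 + 3 / 5) * y) * (1 / (p : ℝ))) * (2 * Real.log y) := by gcongr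
      _ = _ := by ring
  have h3 := h1.trans h2
  rw [div_le_iff₀ (by positivity)]
  have h4 : (3 / 5 : ℝ) / 2 ≤ (1 + 3 / 5) * (2 * Real.log y) * ∑ p ∈ PB y ((1 + 3 / 5) * y), (1 : ℝ) / p := by
    by_contra hcon
    push Not at hcon
    nlinarith
  linarith

end Pool.Agent.ZH
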