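import Pool.Agent.Work.ZH.Small

/-! # Cell ZH, module Tuples, part C: sizes -/

namespace Pool.Agent.ZH

open Finset Filter

lemma PP_bounds : ∃ N₀ : ℕ, ∀ N ≥ N₀, (1 + 1 / 10000000 : ℝ) * Real.log N - 1 ≤ Real.log (PP N) ∧
    Real.log (PP N) ≤ (1 + 1 / 10000000 : ℝ) * Real.log N ∧ 1 ≤ PP N := by
  refine ⟨2, fun N hN => ?_⟩
  have hNR : (2 : ℝ) ≤ N := by exact_mod_cast hN
  have h1 : (2 : ℝ) ≤ (N : ℝ) ^ (1 + 1 / 10000000 : ℝ) := by
    calc (2 : ℝ) ≤ (N : ℝ) ^ (1 : ℝ) := by rwa [Real.rpow_one]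
      _ ≤ _ := Real.rpow_le_rpow_of_exponent_le (by linarith) (by norm_num)
  have h2 : ((PP N : ℕ) : ℝ) ≤ (N : ℝ) ^ (1 + 1 / 10000000 : ℝ) := Nat.floor_le (by linarith)
  have h3 : (N : ℝ) ^ (1 + 1 / 10000000 : ℝ) / 2 ≤ ((PP N : ℕ) : ℝ) := by
    have := Nat.lt_floor_add_one ((N : ℝ) ^ (1 + 1 / 10000000 : ℝ))
    unfold PP
    linarith
  have h4 : 1 ≤ PP N := by
    have : (1 : ℝ) ≤ PP N := by linarith
    exact_mod_cast this
  have h5 : (0 : ℝ) < PP N := by exact_mod_cast h4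
  have h6 : Real.log ((N : ℝ) ^ (1 + 1 / 10000000 : ℝ)) = (1 + 1 / 10000000 : ℝ) * Real.log N :=
    Real.log_rpow (by linarith) _
  refine ⟨?_, ?_, h4⟩
  · have := Real.log_le_log (by positivity) h3
    rw [Real.log_div (by positivity) (by norm_num), h6] at this
    have h7 := Real.log_two_lt_d9
    linarith
  · have := Real.log_le_log h5 h2
    rwa [h6] at this

lemma tendsto_log_nat : Tendsto (fun N : ℕ => Real.log N) atTop atTop :=
  Real.tendsto_log_atTop.comp tendsto_natCast_atTop_atTop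

lemma exp_log_pow {x : ℕ} (hx : 1 ≤ x) (k : ℕ) :
    RR x ^ k = Real.exp ((k : ℝ) / 1000000 * Real.log x) := by
  have : (0 : ℝ) < x := by exact_mod_cast hx
  rw [RR_pow_eq, Real.rpow_def_of_pos this]
  congr 1; ring

structure TupSizes (N : ℕ) (α K : ℝ) : Prop where
  logN : K ≤ Real.log N
  NP : 4 * (N : ℝ) ≤ PP N
  logP : Real.log (PP N) ≤ 2 * Real.log N
  xlo : (PP N : ℝ) ^ 2 / (2 * α) ≤ XX N α
  xhi : (XX N α : ℝ) ≤ (PP N : ℝ) ^ 2
  logR : K ≤ Real.log (RR (XX N α))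
  logNR : Real.log N ≤ 1000000 * Real.log (RR (XX N α))
  dlo : (N : ℝ) ^ (1 / 5 : ℝ) * PP N ≤ RR (XX N α) ^ 101000 * N
  level : 8 / 5 * (RR (XX N α) ^ 101550) ^ 2 ≤ (PP N : ℝ) ^ (4 / 9 : ℝ)
  hi : 9 / 4 * (PP N : ℝ) ^ 4 ≤ (N : ℝ) ^ 2 * XX N α * RR (XX N α) ^ 3
  logm : Real.log (RR (XX N α) ^ 101550) ≤ Real.log N
  small : RR (XX N α) ^ 102 ≤ (N : ℝ) ^ (1 / 5 : ℝ)

theorem tup_sizes (α : ℝ) (hα : 1 ≤ α) (K : ℝ) : ∃ N₀ : ℕ, ∀ N ≥ N₀, TupSizes N α K := by
  obtain ⟨N₁, h₁⟩ := PP_bounds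
  set c : ℝ := 2 + Real.log (2 * α) with hc
  have hlogα : 0 ≤ Real.log (2 * α) := Real.log_nonneg (by linarith)
  have hc0 : 2 ≤ c := by linarith
  obtain ⟨N₂, h₂⟩ := eventually_atTop.1
    (tendsto_log_nat.eventually_ge_atTop (max (1000000 * |K|) (100000000 * c)))
  refine ⟨max (max N₁ N₂) 2, fun N hN => ?_⟩
  have hN1 : N₁ ≤ N := le_trans (le_trans (le_max_left _ _) (le_max_left _ _)) hN
  have hN2 : N₂ ≤ N := le_trans (le_trans (le_max_right _ _) (le_max_left _ _)) hN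
  have hN3 : 2 ≤ N := le_trans (le_max_right _ _) hN
  obtain ⟨p1, p2, p3⟩ := h₁ N hN1
  have hl := h₂ N hN2
  have hl1 : 1000000 * |K| ≤ Real.log N := le_trans (le_max_left _ _) hl
  have hl2 : 100000000 * c ≤ Real.log N := le_trans (le_max_right _ _) hl
  have hK1 : K ≤ |K| := le_abs_self K
  have hK0 : 0 ≤ |K| := abs_nonneg K
  have hNR : (0 : ℝ) < N := by exact_mod_cast (by omega : 0 < N)
  have hPR : (0 : ℝ) < PP N := by exact_mod_cast p3
  set lam := Real.log N with hlam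
  set lP := Real.log (PP N) with hlP
  have eN : (N : ℝ) = Real.exp lam := (Real.exp_log hNR).symm
  have eP : (PP N : ℝ) = Real.exp lP := (Real.exp_log hPR).symm
  -- x
  have hP2 : 2 * α ≤ (PP N : ℝ) ^ 2 := by
    have h1 : 2 * α = Real.exp (Real.log (2 * α)) := (Real.exp_log (by linarith)).symm
    rw [h1, eP, ← Real.exp_nat_mul]
    apply Real.exp_le_exp.2
    push_cast
    linarith
  have hq : (2 : ℝ) ≤ (PP N : ℝ) ^ 2 / α := by
    rw [le_div_iff₀ (by linarith)]; exact hP2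
  have xhi' : (XX N α : ℝ) ≤ (PP N : ℝ) ^ 2 / α := Nat.floor_le (by positivity)
  have xhi : (XX N α : ℝ) ≤ (PP N : ℝ) ^ 2 :=
    xhi'.trans (div_le_self (by positivity) hα)
  have xlo : (PP N : ℝ) ^ 2 / (2 * α) ≤ XX N α := by
    have h1 := Nat.lt_floor_add_one ((PP N : ℝ) ^ 2 / α)
    have h2 : (PP N : ℝ) ^ 2 / (2 * α) = ((PP N : ℝ) ^ 2 / α) / 2 := by
      rw [div_div, mul_comm]
    rw [h2]
    unfold XX
    linarith
  have hx1 : 1 ≤ XX N α := by
    have : (1 : ℝ) ≤ XX N α := by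
      refine le_trans ?_ xlo
      rw [le_div_iff₀ (by linarith), one_mul]; exact hP2
    exact_mod_cast this
  have hxR : (0 : ℝ) < XX N α := by exact_mod_cast hx1
  set lx := Real.log (XX N α) with hlx
  have ex : (XX N α : ℝ) = Real.exp lx := (Real.exp_log hxR).symm
  have lxhi : lx ≤ 2 * lP := by
    have := Real.log_le_log hxR xhi
    rw [Real.log_pow] at this
    push_cast at this
    linarith
  have lxlo : 2 * lP - Real.log (2 * α) ≤ lx := by
    have := Real.log_le_log (by positivity) xlo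
    rw [Real.log_div (by positivity) (by positivity), Real.log_pow] at this
    push_cast at this
    linarith
  have hRlog : Real.log (RR (XX N α)) = 1 / 1000000 * lx := by
    unfold RR
    rw [Real.log_rpow hxR]
  have hlam0 : 0 ≤ lam := by linarith [hl2]
  refine ⟨by linarith, ?_, by linarith, xlo, xhi, ?_, ?_, ?_, ?_, ?_, ?_, ?_⟩
  · have h4 : (4 : ℝ) ≤ Real.exp 2 := by
      have := Real.add_one_le_exp (2 : ℝ)
      have h5 : Real.exp 2 = Real.exp 1 * Real.exp 1 := by rw [← Real.exp_add]; norm_num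
      have h6 := Real.exp_one_gt_d9
      nlinarith
    calc 4 * (N : ℝ) ≤ Real.exp 2 * Real.exp lam := by rw [← eN]; gcongr
      _ = Real.exp (2 + lam) := by rw [Real.exp_add]
      _ ≤ Real.exp lP := Real.exp_le_exp.2 (by linarith)
      _ = PP N := eP.symm
  · rw [hRlog]; linarith
  · rw [hRlog]; linarith
  · rw [exp_log_pow hx1, eP, ← hlx]
    rw [show (N : ℝ) ^ (1 / 5 : ℝ) = Real.exp (lam * (1 / 5)) by
      rw [Real.rpow_def_of_pos hNR]]
    conv_rhs => rw [eN]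
    rw [← Real.exp_add, ← Real.exp_add]
    apply Real.exp_le_exp.2
    push_cast
    linarith
  · rw [exp_log_pow hx1, ← hlx, ← Real.exp_nat_mul, Real.rpow_def_of_pos hPR, ← hlP]
    have h5 : (8 / 5 : ℝ) ≤ Real.exp 1 := by have := Real.exp_one_gt_d9; linarith
    calc (8 / 5 : ℝ) * Real.exp ((2 : ℕ) * (((101550 : ℕ) : ℝ) / 1000000 * lx))
        ≤ Real.exp 1 * Real.exp ((2 : ℕ) * (((101550 : ℕ) : ℝ) / 1000000 * lx)) := by gcongr
      _ = Real.exp (1 + (2 : ℕ) * (((101550 : ℕ) : ℝ) / 1000000 * lx)) := by rw [Real.exp_add]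
      _ ≤ _ := Real.exp_le_exp.2 (by push_cast; linarith)
  · rw [exp_log_pow hx1, ← hlx]
    have h5 : (9 / 4 : ℝ) ≤ Real.exp 1 := by have := Real.exp_one_gt_d9; linarith
    have e1 : (PP N : ℝ) ^ 4 = Real.exp (4 * lP) := by
      rw [eP, ← Real.exp_nat_mul]; norm_num
    have e2 : (N : ℝ) ^ 2 = Real.exp (2 * lam) := by
      rw [eN, ← Real.exp_nat_mul]; norm_num
    rw [e1, e2]
    conv_rhs => rw [ex]
    rw [← Real.exp_add, ← Real.exp_add]
    calc (9 / 4 : ℝ) * Real.exp (4 * lP) ≤ Real.exp 1 * Real.exp (4 * lP) := by gcongr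
      _ = Real.exp (1 + 4 * lP) := by rw [Real.exp_add]
      _ ≤ _ := Real.exp_le_exp.2 (by push_cast; linarith)
  · rw [exp_log_pow hx1, Real.log_exp, ← hlx]
    push_cast
    linarith
  · rw [exp_log_pow hx1, ← hlx, Real.rpow_def_of_pos hNR, ← hlam]
    apply Real.exp_le_exp.2
    push_cast
    linarith

end Pool.Agent.ZH
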