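import Pool.Agent.Work.ZH.Small

/-! # Cell ZH, module Tuples, part D: primes `p` such that `p² - 1` has a large square divisor -/

namespace Pool.Agent.ZH

open Finset

lemma tup_coprime_sq {a b g : ℕ} (hab : Nat.Coprime a b) (h : a * b = g ^ 2) :
    ∃ s t : ℕ, a = s ^ 2 ∧ b = t ^ 2 ∧ g = s * t := by
  have h1 : IsUnit (gcd a b) := by
    rw [Nat.isUnit_iff]; exact hab
  obtain ⟨s, hs⟩ := exists_eq_pow_of_mul_eq_pow h1 h
  have h2 : IsUnit (gcd b a) := by
    rw [Nat.isUnit_iff]; exact hab.symm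
  obtain ⟨t, ht⟩ := exists_eq_pow_of_mul_eq_pow h2 (by rw [mul_comm]; exact h)
  refine ⟨s, t, hs, ht, ?_⟩
  have : g ^ 2 = (s * t) ^ 2 := by rw [← h, hs, ht, mul_pow]
  exact Nat.pow_left_injective (by norm_num : 2 ≠ 0) this

lemma tup_sq_dvd {p g : ℕ} (hg : g ^ 2 ∣ (p - 1) * (p + 1)) (hp1 : 1 < p) :
    ∃ h : ℕ, g ≤ 2 * h ^ 2 ∧ 0 < h ∧ (h ^ 2 ∣ p - 1 ∨ h ^ 2 ∣ p + 1) := by
  rcases Nat.eq_zero_or_pos g with h0 | hg0
  · exact ⟨1, by omega, one_pos, Or.inl (by simp)⟩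
  obtain ⟨d₁, d₂, h1, h2, h3⟩ := (Nat.dvd_mul).1 hg
  -- h1 : d₁ ∣ p - 1
  have hmax : ∀ s t : ℕ, 0 < s * t → s * t ≤ s ^ 2 ∨ s * t ≤ t ^ 2 := by
    intro s t _
    rcases le_total s t with h | h
    · right; rw [pow_two]; exact Nat.mul_le_mul_right t h
    · left; rw [pow_two]; exact Nat.mul_le_mul_left s h
  have hgcd : Nat.gcd d₁ d₂ ∣ 2 := by
    have e1 : Nat.gcd d₁ d₂ ∣ p - 1 := (Nat.gcd_dvd_left _ _).trans h1
    have e2 : Nat.gcd d₁ d₂ ∣ p + 1 := (Nat.gcd_dvd_right _ _).trans h2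
    have e3 := Nat.dvd_sub e2 e1
    have e4 : p + 1 - (p - 1) = 2 := by omega
    rwa [e4] at e3
  rcases (Nat.dvd_prime Nat.prime_two).1 hgcd with hc | hc
  · obtain ⟨s, t, rfl, rfl, rfl⟩ := tup_coprime_sq hc h3
    rcases hmax s t hg0 with h | h
    · refine ⟨s, by omega, Nat.pos_of_mul_pos_right hg0, Or.inl h1⟩
    · refine ⟨t, by omega, Nat.pos_of_mul_pos_left hg0, Or.inr h2⟩
  · obtain ⟨e₁, he₁⟩ : 2 ∣ d₁ := by rw [← hc]; exact Nat.gcd_dvd_left _ _
    obtain ⟨e₂, he₂⟩ : 2 ∣ d₂ := by rw [← hc]; exact Nat.gcd_dvd_right _ _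
    have hcop : Nat.Coprime e₁ e₂ := by
      have : Nat.gcd (2 * e₁) (2 * e₂) = 2 := by rw [← he₁, ← he₂]; exact hc
      rw [Nat.gcd_mul_left] at this
      unfold Nat.Coprime
      omega
    have h4 : 4 * (e₁ * e₂) = g ^ 2 := by rw [← h3, he₁, he₂]; ring
    have h5 : 2 ∣ g := by
      have : 2 ∣ g ^ 2 := ⟨2 * (e₁ * e₂), by rw [← h4]; ring⟩
      exact Nat.prime_two.dvd_of_dvd_pow this
    obtain ⟨g', rfl⟩ := h5
    have h6 : e₁ * e₂ = g' ^ 2 := by
      have : 4 * (e₁ * e₂) = 4 * g' ^ 2 := by rw [h4]; ring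
      omega
    obtain ⟨s, t, hs, ht, rfl⟩ := tup_coprime_sq hcop h6
    have hst : 0 < s * t := by
      rcases Nat.eq_zero_or_pos (s * t) with h | h
      · rw [h] at hg0; simp at hg0
      · exact h
    rcases hmax s t hst with h | h
    · refine ⟨s, by omega, Nat.pos_of_mul_pos_right hst, Or.inl ?_⟩
      rw [← hs]; exact (Dvd.intro_left 2 he₁.symm).trans h1
    · refine ⟨t, by omega, Nat.pos_of_mul_pos_left hst, Or.inr ?_⟩
      rw [← ht]; exact (Dvd.intro_left 2 he₂.symm).trans h2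

open Classical in
/-- the number of primes `p ≤ X` with a large square divisor of `p² - 1` -/
theorem tup_bad_count (X : ℕ) (R : ℝ) (hR : 2 ≤ R) :
    (((Icc 1 X).filter (fun p : ℕ => p.Prime ∧ ∃ g : ℕ, R < g ∧ g ^ 2 ∣ (p - 1) * (p + 1))).card : ℝ) ≤
      12 * (X + 1) / Real.sqrt R := by
  set B := (Icc 1 X).filter (fun p : ℕ => p.Prime ∧ ∃ g : ℕ, R < g ∧ g ^ 2 ∣ (p - 1) * (p + 1)) with hB
  set k : ℕ := ⌊Real.sqrt (R / 2)⌋₊ with hk
  have hsq1 : 1 ≤ Real.sqrt (R / 2) := by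
    rw [Real.one_le_sqrt]; linarith
  set F : ℕ → Finset ℕ := fun h => (Icc 1 X).filter (fun p => p.Prime ∧ (h ^ 2 ∣ p - 1 ∨ h ^ 2 ∣ p + 1)) with hF
  have hsub : B ⊆ (Ioo (k - 1) (X + 2)).biUnion F := by
    intro p hp
    rw [hB, mem_filter, mem_Icc] at hp
    obtain ⟨⟨hp1, hpX⟩, hpp, g, hg, hgd⟩ := hp
    obtain ⟨h, h1, h2, h3⟩ := tup_sq_dvd hgd hpp.one_lt
    have hh : Real.sqrt (R / 2) < h := by
      rw [Real.sqrt_lt' (by exact_mod_cast h2)]
      have : (g : ℝ) ≤ 2 * (h : ℝ) ^ 2 := by exact_mod_cast h1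
      linarith
    have hhk : k - 1 < h := by
      have : (k : ℝ) ≤ Real.sqrt (R / 2) := Nat.floor_le (by linarith)
      have h4 : (k : ℝ) < h := by linarith
      have h5 : k < h := by exact_mod_cast h4
      omega
    have hhX : h < X + 2 := by
      have h5 : h ^ 2 ≤ X + 1 := by
        rcases h3 with h3 | h3
        · have := Nat.le_of_dvd (by have := hpp.one_lt; omega) h3
          omega
        · have := Nat.le_of_dvd (by omega) h3
          omega
      nlinarith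
    rw [mem_biUnion]
    refine ⟨h, mem_Ioo.2 ⟨hhk, hhX⟩, ?_⟩
    rw [hF]
    simp only
    rw [mem_filter, mem_Icc]
    exact ⟨⟨hp1, hpX⟩, hpp, h3⟩
  have hcardF : ∀ h ∈ Ioo (k - 1) (X + 2), ((F h).card : ℝ) ≤ 2 * (X + 1) * ((h : ℝ) ^ 2)⁻¹ := by
    intro h hh
    have hh0 : 0 < h := by have := (mem_Ioo.1 hh).1; omega
    have hh2 : 0 < h ^ 2 := by positivity
    have h1 : (F h).card ≤ 2 * ((X + 1) / h ^ 2) := by
      have hsub2 : F h ⊆ ((Icc 1 ((X + 1) / h ^ 2)).image (fun j => h ^ 2 * j + 1)) ∪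
          ((Icc 1 ((X + 1) / h ^ 2)).image (fun j => h ^ 2 * j - 1)) := by
        intro p hp
        rw [hF] at hp
        simp only at hp
        rw [mem_filter, mem_Icc] at hp
        obtain ⟨⟨hp1, hpX⟩, hpp, h3⟩ := hp
        have hp2 := hpp.one_lt
        rw [mem_union, mem_image, mem_image]
        rcases h3 with ⟨j, hj⟩ | ⟨j, hj⟩
        · left
          refine ⟨j, mem_Icc.2 ⟨?_, ?_⟩, by omega⟩
          · rcases Nat.eq_zero_or_pos j with h0 | h0
            · rw [h0] at hj; omega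
            · exact h0
          · rw [Nat.le_div_iff_mul_le hh2, mul_comm, ← hj]; omega
        · right
          refine ⟨j, mem_Icc.2 ⟨?_, ?_⟩, by omega⟩
          · rcases Nat.eq_zero_or_pos j with h0 | h0
            · rw [h0] at hj; omega
            · exact h0
          · rw [Nat.le_div_iff_mul_le hh2, mul_comm, ← hj]; omega
      refine (card_le_card hsub2).trans ((card_union_le _ _).trans ?_)
      have e1 := card_image_le (s := Icc 1 ((X + 1) / h ^ 2)) (f := fun j => h ^ 2 * j + 1)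
      have e2 := card_image_le (s := Icc 1 ((X + 1) / h ^ 2)) (f := fun j => h ^ 2 * j - 1)
      rw [Nat.card_Icc] at e1 e2
      omega
    have h2 : (((X + 1) / h ^ 2 : ℕ) : ℝ) ≤ (X + 1) * ((h : ℝ) ^ 2)⁻¹ := by
      rw [← div_eq_mul_inv]
      have := @Nat.cast_div_le ℝ _ _ _ (X + 1) (h ^ 2)
      push_cast at this
      exact this
    calc ((F h).card : ℝ) ≤ 2 * (((X + 1) / h ^ 2 : ℕ) : ℝ) := by exact_mod_cast h1
      _ ≤ 2 * ((X + 1) * ((h : ℝ) ^ 2)⁻¹) := by gcongr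
      _ = _ := by ring
  calc (B.card : ℝ) ≤ (((Ioo (k - 1) (X + 2)).biUnion F).card : ℝ) := by
        exact_mod_cast card_le_card hsub
    _ ≤ ∑ h ∈ Ioo (k - 1) (X + 2), ((F h).card : ℝ) := by exact_mod_cast card_biUnion_le
    _ ≤ ∑ h ∈ Ioo (k - 1) (X + 2), 2 * (X + 1) * ((h : ℝ) ^ 2)⁻¹ := sum_le_sum hcardF
    _ = 2 * (X + 1) * ∑ h ∈ Ioo (k - 1) (X + 2), ((h : ℝ) ^ 2)⁻¹ := by rw [mul_sum]
    _ ≤ 2 * (X + 1) * (2 / ((k - 1 : ℕ) + 1)) := by
        refine mul_le_mul_of_nonneg_left ?_ (by positivity)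
        exact sum_Ioo_inv_sq_le (α := ℝ) (k - 1) (X + 2)
    _ ≤ 12 * (X + 1) / Real.sqrt R := by
        have hk1 : 1 ≤ k := Nat.le_floor (by simpa using hsq1)
        have h1 : ((k - 1 : ℕ) : ℝ) + 1 = k := by
          have : (k - 1) + 1 = k := by omega
          exact_mod_cast this
        rw [h1]
        have hR0 : 0 < Real.sqrt R := Real.sqrt_pos.2 (by linarith)
        have hkR : (1 : ℝ) ≤ k := by exact_mod_cast hk1
        have h2 : Real.sqrt (R / 2) < k + 1 := Nat.lt_floor_add_one _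
        have h3 : Real.sqrt R ≤ 3 * k := by
          have h4 : Real.sqrt R ≤ 3 / 2 * Real.sqrt (R / 2) := by
            rw [show (3 / 2 : ℝ) = Real.sqrt (9 / 4) by
              rw [show (9 / 4 : ℝ) = (3 / 2) ^ 2 by norm_num, Real.sqrt_sq (by norm_num)],
              ← Real.sqrt_mul (by norm_num)]
            exact Real.sqrt_le_sqrt (by linarith)
          nlinarith
        rw [mul_div_assoc', div_le_div_iff₀ (by linarith) hR0]
        have h5 : (0 : ℝ) ≤ (X : ℝ) + 1 := by positivity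
        nlinarith

end Pool.Agent.ZH
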