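import Pool.Agent.Work.ZH.TupA
import Pool.Agent.Work.ZH.TupB
import Pool.Agent.Work.ZH.TupC

/-! # Cell ZH, module Tuples, part E: the triples `(d, m, p)` are admissible -/

namespace Pool.Agent.ZH

open Finset Pool.Agent.BV Pool.Agent.Work.MP_b30479_gt.Mertens

/-- the intervals of primes -/
noncomputable def tupJ (R : ℝ) (k : ℕ) : Finset ℕ := PB (TT0 R k) (TT0 R (k + 1))

/-- the free integers -/
noncomputable def tupM3 (R : ℝ) : Finset ℕ := Icc 1 ⌊R ^ 50⌋₊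

/-- the `m₂` -/
noncomputable def tupM (R : ℝ) : Finset ℕ := TupFam (tupJ R) (tupM3 R) 1000

lemma tupJ_ok {R : ℝ} (hR : 1 ≤ R) : TupJ (tupJ R) (tupM3 R) (TT0 R) where
  prime := fun k s hs => ((mem_PB (by have := one_le_TT0 hR k; linarith)
      (by have := one_le_TT0 hR (k + 1); linarith)).1 hs).1
  lo := fun k s hs => ((mem_PB (by have := one_le_TT0 hR k; linarith)
      (by have := one_le_TT0 hR (k + 1); linarith)).1 hs).2.1
  hi := fun k s hs => ((mem_PB (by have := one_le_TT0 hR k; linarith)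
      (by have := one_le_TT0 hR (k + 1); linarith)).1 hs).2.2
  mono := fun k => TT0_mono hR (by omega)
  pos₃ := fun m hm => (mem_Icc.1 hm).1
  hi₃ := by
    intro m hm p _ hpm
    have h1 := mem_Icc.1 hm
    have h2 : p ≤ m := Nat.le_of_dvd h1.1 hpm
    have h3 : (p : ℝ) ≤ R ^ 50 := by
      have h4 : (p : ℝ) ≤ ⌊R ^ 50⌋₊ := by exact_mod_cast h2.trans h1.2
      exact h4.trans (Nat.floor_le (by positivity))
    refine h3.trans ?_
    unfold TT0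
    rw [← Real.rpow_natCast]
    exact Real.rpow_le_rpow_of_exponent_le hR (by norm_num)

lemma tupM_spec {R : ℝ} (hR : 1 ≤ R) : ∀ m ∈ tupM R, ∃ s : ℕ → ℕ, ∃ m₃ : ℕ, 0 < m₃ ∧
    (m₃ : ℝ) ≤ R ^ 50 ∧ m = (∏ i ∈ range 1000, s i) * m₃ ∧
    ∀ i < 1000, (s i).Prime ∧ R ^ 101 ≤ (s i : ℝ) ∧ (s i : ℝ) ≤ R ^ (203 / 2 : ℝ) := by
  intro m hm
  obtain ⟨s, m₃, h1, h2, h3⟩ := TupFam_exists 1000 m hm
  have hm3 := mem_Icc.1 h1
  refine ⟨s, m₃, hm3.1, ?_, h2, fun i hi => ?_⟩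
  · have h4 : (m₃ : ℝ) ≤ ⌊R ^ 50⌋₊ := by exact_mod_cast hm3.2
    exact h4.trans (Nat.floor_le (by positivity))
  · have hJ := tupJ_ok hR
    refine ⟨hJ.prime i _ (h3 i hi), ?_, ?_⟩
    · refine le_trans ?_ (hJ.lo i _ (h3 i hi)).le
      unfold TT0
      rw [← Real.rpow_natCast]
      refine Real.rpow_le_rpow_of_exponent_le hR ?_
      push_cast
      have : (0 : ℝ) ≤ i := by positivity
      linarith
    · refine (hJ.hi i _ (h3 i hi)).trans ?_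
      unfold TT0
      refine Real.rpow_le_rpow_of_exponent_le hR ?_
      have : ((i + 1 : ℕ) : ℝ) ≤ 1000 := by exact_mod_cast hi
      linarith

lemma tup_prod_bounds (K : ℕ) (s : ℕ → ℕ) (lo hi : ℝ) (h0 : 0 ≤ lo)
    (h : ∀ i < K, lo ≤ (s i : ℝ) ∧ (s i : ℝ) ≤ hi) :
    lo ^ K ≤ ∏ i ∈ range K, (s i : ℝ) ∧ ∏ i ∈ range K, (s i : ℝ) ≤ hi ^ K := by
  constructor
  · calc lo ^ K = ∏ i ∈ range K, lo := by rw [Finset.prod_const, card_range]
      _ ≤ ∏ i ∈ range K, (s i : ℝ) :=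
          Finset.prod_le_prod (fun _ _ => h0) fun i hi => (h i (mem_range.1 hi)).1
  · calc ∏ i ∈ range K, (s i : ℝ) ≤ ∏ i ∈ range K, hi :=
          Finset.prod_le_prod (fun _ _ => by positivity) fun i hi => (h i (mem_range.1 hi)).2
      _ = hi ^ K := by rw [Finset.prod_const, card_range]

lemma tupM_bounds {R : ℝ} (hR : 1 ≤ R) {m : ℕ} (hm : m ∈ tupM R) :
    0 < m ∧ R ^ 101000 ≤ (m : ℝ) ∧ (m : ℝ) ≤ R ^ 101550 := by
  obtain ⟨s, m₃, h1, h2, rfl, h4⟩ := tupM_spec hR m hm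
  have hm3R : (1 : ℝ) ≤ m₃ := by exact_mod_cast h1
  have hpos : 0 < ∏ i ∈ range 1000, s i :=
    Finset.prod_pos fun i hi => (h4 i (mem_range.1 hi)).1.pos
  have hR0 : 0 ≤ R := by linarith
  obtain ⟨b1, b2⟩ := tup_prod_bounds 1000 s (R ^ 101) (R ^ (203 / 2 : ℝ)) (pow_nonneg hR0 _)
    (fun i hi => (h4 i hi).2)
  have c1 : (R ^ 101) ^ 1000 = R ^ 101000 := by rw [← pow_mul]
  have c2 : (R ^ (203 / 2 : ℝ)) ^ 1000 = R ^ 101500 := by
    rw [← Real.rpow_natCast, ← Real.rpow_mul hR0, ← Real.rpow_natCast]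
    norm_num
  have c3 : R ^ 101500 * R ^ 50 = R ^ 101550 := by rw [← pow_add]
  rw [c1] at b1
  rw [c2] at b2
  have hP : (((∏ i ∈ range 1000, s i) * m₃ : ℕ) : ℝ) = (∏ i ∈ range 1000, (s i : ℝ)) * m₃ := by
    rw [Nat.cast_mul, Nat.cast_prod]
  rw [hP, ← c3]
  have hQ0 : 0 ≤ ∏ i ∈ range 1000, (s i : ℝ) := Finset.prod_nonneg fun _ _ => Nat.cast_nonneg _
  refine ⟨Nat.mul_pos hpos h1, b1.trans (le_mul_of_one_le_right hQ0 hm3R), ?_⟩
  exact mul_le_mul b2 h2 (Nat.cast_nonneg _) (pow_nonneg hR0 _)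

/-- the primes `d` -/
noncomputable def tupD (N m : ℕ) : Finset ℕ :=
  PB ((m : ℝ) * N / PP N) ((1 + 3 / 5) * ((m : ℝ) * N / PP N))

theorem tup_ok {N d m p : ℕ} {α ε ε' K : ℝ} (hS : TupSizes N α K) (hK : 4 ≤ K) (hε' : ε' ≤ ε)
    (hε5 : ε' ≤ 1 / 5)
    (hm : m ∈ tupM (RR (XX N α))) (hd : d ∈ tupD N m) (hp : p.Prime) (hplo : PP N < p)
    (hphi : (p : ℝ) ≤ (1 + ε') * PP N) (h1 : d ∣ p - 1) (h2 : m ∣ p + 1)
    (hsf : ∀ g : ℕ, g ^ 2 ∣ (p - 1) * (p + 1) → (g : ℝ) ≤ RR (XX N α)) :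
    Tup N α ε d m p := by
  have hlogN : 4 ≤ Real.log N := hK.trans hS.logN
  have hN0 : 0 < N := by
    rcases Nat.eq_zero_or_pos N with h | h
    · rw [h] at hlogN; simp at hlogN; linarith
    · exact h
  have hNR : (0 : ℝ) < N := by exact_mod_cast hN0
  have hN5 : (5 : ℝ) ≤ N := by
    have := Real.log_le_sub_one_of_pos hNR
    linarith
  have hPR : (20 : ℝ) ≤ PP N := by have := hS.NP; linarith
  have hP0 : (0 : ℝ) < PP N := by linarith
  have hR1 : 1 ≤ RR (XX N α) := by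
    have h3 := hK.trans hS.logR
    by_contra hcon
    push Not at hcon
    have h4 : 0 ≤ RR (XX N α) := by unfold RR; positivity
    have := Real.log_nonpos h4 hcon.le
    linarith
  have hx2 : 2 ≤ XX N α := by
    by_contra hcon
    push Not at hcon
    have h4 : RR (XX N α) ≤ 1 := by
      unfold RR
      have : (XX N α : ℝ) ≤ 1 := by exact_mod_cast (by omega : XX N α ≤ 1)
      exact Real.rpow_le_one (by positivity) this (by norm_num)
    have h5 := Real.log_nonpos (by linarith) h4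
    have h6 := hK.trans hS.logR
    linarith
  obtain ⟨hm0, hmlo, _⟩ := tupM_bounds hR1 hm
  have hmR : (0 : ℝ) < m := by exact_mod_cast hm0
  have hy0 : 0 < (m : ℝ) * N / PP N := div_pos (mul_pos hmR hNR) hP0
  have hd5 : (N : ℝ) ^ (1 / 5 : ℝ) ≤ (m : ℝ) * N / PP N := by
    rw [le_div_iff₀ hP0]
    exact hS.dlo.trans (mul_le_mul_of_nonneg_right hmlo hNR.le)
  clear hmlo
  obtain ⟨hdp, hdlo, hdhi⟩ := (mem_PB (a := (m : ℝ) * N / PP N)
    (b := (1 + 3 / 5) * ((m : ℝ) * N / PP N)) hy0.le (by positivity)).1 hd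
  have hdR : (0 : ℝ) < d := by exact_mod_cast hdp.pos
  have hp1 : 1 < p := hp.one_lt
  -- exact quotients
  obtain ⟨m₁, hm₁⟩ := h1
  obtain ⟨w, hw⟩ := h2
  have hq1 : (p - 1) / d = m₁ := by rw [hm₁]; exact Nat.mul_div_cancel_left _ hdp.pos
  have hq2 : (p + 1) / m = w := by rw [hw]; exact Nat.mul_div_cancel_left _ hm0
  have hm1pos : 0 < m₁ := by
    rcases Nat.eq_zero_or_pos m₁ with h | h
    · rw [h] at hm₁; omega
    · exact h
  have hkD : (m₁ * m) * (d * w) = (p - 1) * (p + 1) := by rw [hm₁, hw]; ring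
  have hwR : (w : ℝ) = ((p : ℝ) + 1) / m := by
    rw [eq_div_iff hmR.ne']
    have : ((m * w : ℕ) : ℝ) = ((p + 1 : ℕ) : ℝ) := by rw [← hw]
    push_cast at this
    linarith
  have hpR : (PP N : ℝ) < p := by exact_mod_cast hplo
  have hDlo : (N : ℝ) < d * w := by
    rw [hwR]
    calc (N : ℝ) = (m : ℝ) * N / PP N * (PP N / m) := by field_simp
      _ < d * (((p : ℝ) + 1) / m) := by
        apply mul_lt_mul'' hdlo _ hy0.le (by positivity)
        exact div_lt_div_of_pos_right (by linarith) hmR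
  have hDhi : (d : ℝ) * w ≤ 2 * N := by
    rw [hwR]
    have e1 : (p : ℝ) + 1 ≤ 5 / 4 * PP N := by nlinarith
    calc (d : ℝ) * (((p : ℝ) + 1) / m) ≤ ((1 + 3 / 5) * ((m : ℝ) * N / PP N)) * ((5 / 4 * PP N) / m) := by
          gcongr
      _ = 2 * N := by field_simp; norm_num
  have hDhi' : d * w ≤ 2 * N := by exact_mod_cast hDhi
  have hDlo' : N < d * w := by exact_mod_cast hDlo
  -- sizes of k
  have hkDR : ((m₁ * m : ℕ) : ℝ) * ((d : ℝ) * w) = ((p : ℝ) - 1) * ((p : ℝ) + 1) := by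
    have : (((m₁ * m) * (d * w) : ℕ) : ℝ) = (((p - 1) * (p + 1) : ℕ) : ℝ) := by rw [hkD]
    rw [Nat.cast_mul (p - 1), Nat.cast_sub hp1.le] at this
    push_cast at this ⊢
    exact this
  have hp1R : (PP N : ℝ) + 1 ≤ p := by exact_mod_cast hplo
  set k : ℝ := ((m₁ * m : ℕ) : ℝ) with hk
  have hk0 : 0 ≤ k := by positivity
  have hklo : 2 * (PP N : ℝ) ≤ k := by
    have e1 : (PP N : ℝ) ^ 2 ≤ k * (2 * N) := by
      calc (PP N : ℝ) ^ 2 ≤ ((p : ℝ) - 1) * ((p : ℝ) + 1) := by nlinarith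
        _ = k * ((d : ℝ) * w) := hkDR.symm
        _ ≤ k * (2 * N) := by gcongr
    have e2 := hS.NP
    by_contra hcon
    push Not at hcon
    nlinarith
  have hkhi : k * N ≤ 36 / 25 * (PP N : ℝ) ^ 2 := by
    calc k * N ≤ k * ((d : ℝ) * w) := by gcongr
      _ = ((p : ℝ) - 1) * ((p : ℝ) + 1) := hkDR
      _ ≤ (p : ℝ) ^ 2 := by nlinarith
      _ ≤ (6 / 5 * PP N) ^ 2 := by
        have : (p : ℝ) ≤ 6 / 5 * PP N := by nlinarith
        gcongr
      _ = _ := by ring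
  have hlo : XX N α ≤ (m₁ * m) ^ 2 := by
    have e1 : (XX N α : ℝ) ≤ k ^ 2 := by
      calc (XX N α : ℝ) ≤ (PP N : ℝ) ^ 2 := hS.xhi
        _ ≤ k ^ 2 := pow_le_pow_left₀ hP0.le (by linarith) 2
    rw [hk] at e1
    exact_mod_cast e1
  have hhi : k ^ 2 ≤ XX N α * RR (XX N α) ^ 3 := by
    have e1 : k ^ 2 * (N : ℝ) ^ 2 ≤ (N : ℝ) ^ 2 * XX N α * RR (XX N α) ^ 3 := by
      calc k ^ 2 * (N : ℝ) ^ 2 = (k * N) ^ 2 := by ring
        _ ≤ (36 / 25 * (PP N : ℝ) ^ 2) ^ 2 :=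
          pow_le_pow_left₀ (mul_nonneg hk0 hNR.le) hkhi 2
        _ ≤ 9 / 4 * (PP N : ℝ) ^ 4 := by
          have h4 : 0 ≤ (PP N : ℝ) ^ 4 := pow_nonneg hP0.le 4
          have h5 : (36 / 25 * (PP N : ℝ) ^ 2) ^ 2 = 1296 / 625 * (PP N : ℝ) ^ 4 := by ring
          rw [h5]
          linarith
        _ ≤ _ := hS.hi
    have e2 : (0 : ℝ) < (N : ℝ) ^ 2 := by positivity
    refine le_of_mul_le_mul_right (e1.trans (le_of_eq (by ring)) :
      k ^ 2 * (N : ℝ) ^ 2 ≤ (XX N α * RR (XX N α) ^ 3) * (N : ℝ) ^ 2) e2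
  have hgood : GoodPair (XX N α) m₁ m := by
    obtain ⟨s, m₃, g1, g2, g3, g4⟩ := tupM_spec hR1 m hm
    rw [g3]
    refine goodPair_of (K := 1000) le_rfl hx2 hm1pos g1 (fun i hi => (g4 i hi).1)
      (fun i hi => (g4 i hi).2.1) (fun i hi => (g4 i hi).2.2.trans ?_) ?_ ?_ ?_
    · rw [← Real.rpow_natCast]
      exact Real.rpow_le_rpow_of_exponent_le hR1 (by norm_num)
    · rw [← g3]; exact hlo
    · rw [← g3]; exact hhi
    · rw [← g3]
      intro g hg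
      refine hsf g (hg.trans ?_)
      rw [← hkD]
      exact Dvd.intro _ rfl
  refine ⟨hdp, ?_, hp, hplo, ?_, ⟨m₁, hm₁⟩, ⟨w, hw⟩, ?_, ?_, ?_⟩
  · exact hd5.trans hdlo.le
  · refine hphi.trans ?_
    gcongr
  · rw [hq2]; exact hDlo'
  · rw [hq2]; exact hDhi'
  · rw [hq1]; exact hgood

end Pool.Agent.ZH
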