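import Pool.Agent.Work.ZH.TupE
import Pool.Agent.Work.ZH.TupD
import Pool.Agent.Work.BV.Primes

/-! # Cell ZH, module Tuples, part F: the number of triples (Bombieri-Vinogradov) -/

namespace Pool.Agent.ZH

open Finset Pool.Agent.BV Pool.Agent.Work.MP_b30479_gt.Mertens

/-- largest prime factor -/
def tupS (q : ℕ) : ℕ := q.primeFactors.sup id

/-- the residue class modulo `q` : `1` mod the largest prime factor, `-1` mod the cofactor -/
def tupR (q : ℕ) : ℕ :=
  if h : Nat.Coprime (tupS q) (q / tupS q) then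
    (Nat.chineseRemainder h 1 (q / tupS q - 1) : ℕ) else 1

lemma tupS_mem {q : ℕ} (hq : 2 ≤ q) : tupS q ∈ q.primeFactors := by
  have hne : q.primeFactors.Nonempty := Nat.nonempty_primeFactors.2 hq
  obtain ⟨p, hp, h⟩ := Finset.exists_mem_eq_sup _ hne id
  unfold tupS
  rw [h]; exact hp

lemma tupR_coprime (q : ℕ) (hq : 1 ≤ q) : (tupR q).Coprime q := by
  unfold tupR
  split_ifs with h
  · rcases Nat.lt_or_ge q 2 with h2 | h2
    · have : q = 1 := by omega
      subst this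
      exact Nat.coprime_one_right _
    · have hd := tupS_mem h2
      set d := tupS q with hdd
      have hdp := Nat.prime_of_mem_primeFactors hd
      have hdq := Nat.dvd_of_mem_primeFactors hd
      set m := q / d with hm
      have hqm : q = d * m := (Nat.mul_div_cancel' hdq).symm
      have hm0 : 0 < m := Nat.div_pos (Nat.le_of_dvd (by omega) hdq) hdp.pos
      have e1 := (Nat.chineseRemainder h 1 (m - 1)).2.1
      have e2 := (Nat.chineseRemainder h 1 (m - 1)).2.2
      set a : ℕ := (Nat.chineseRemainder h 1 (m - 1) : ℕ) with ha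
      have hfin : Nat.Coprime a (d * m) := by
        rw [Nat.coprime_mul_iff_right]
        constructor
        · have := Nat.ModEq.gcd_eq e1
          unfold Nat.Coprime
          rw [this]; exact Nat.gcd_one_left d
        · have := Nat.ModEq.gcd_eq e2
          unfold Nat.Coprime
          rw [this]
          have h3 : Nat.Coprime (m - 1) (m - 1 + 1) := Nat.coprime_self_add_right.2 (Nat.coprime_one_right _)
          rwa [Nat.sub_add_cancel hm0] at h3
      rwa [← hqm] at hfin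
  · exact Nat.coprime_one_left q

lemma tupS_mul {d m : ℕ} (hd : d.Prime) (hm : 0 < m) (hlt : ∀ p : ℕ, p.Prime → p ∣ m → p < d) :
    tupS (d * m) = d := by
  unfold tupS
  apply le_antisymm
  · refine Finset.sup_le fun p hp => ?_
    have h1 := Nat.prime_of_mem_primeFactors hp
    have h2 := Nat.dvd_of_mem_primeFactors hp
    rcases (h1.dvd_mul).1 h2 with h | h
    · exact ((Nat.prime_dvd_prime_iff_eq h1 hd).1 h).le
    · exact (hlt p h1 h).le
  · exact Finset.le_sup (f := id) (Nat.mem_primeFactors.2 ⟨hd, Dvd.intro _ rfl, by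
      have := hd.pos; positivity⟩)

lemma tupR_spec {d m p : ℕ} (hd : d.Prime) (hm : 0 < m) (hlt : ∀ p : ℕ, p.Prime → p ∣ m → p < d)
    (hp : 1 ≤ p) (h : p ≡ tupR (d * m) [MOD d * m]) : d ∣ p - 1 ∧ m ∣ p + 1 := by
  have hS := tupS_mul hd hm hlt
  have hq : d * m / tupS (d * m) = m := by rw [hS]; exact Nat.mul_div_cancel_left _ hd.pos
  have hcop : Nat.Coprime d m := by
    rw [hd.coprime_iff_not_dvd]
    intro hdm
    exact lt_irrefl _ (hlt d hd hdm)
  have hcop' : Nat.Coprime (tupS (d * m)) (d * m / tupS (d * m)) := by rw [hq, hS]; exact hcop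
  unfold tupR at h
  rw [dif_pos hcop'] at h
  have e1 := (Nat.chineseRemainder hcop' 1 (d * m / tupS (d * m) - 1)).2.1
  have e2 := (Nat.chineseRemainder hcop' 1 (d * m / tupS (d * m) - 1)).2.2
  set a : ℕ := (Nat.chineseRemainder hcop' 1 (d * m / tupS (d * m) - 1) : ℕ) with ha
  rw [hS] at e1
  rw [hq] at e2
  have f1 : p ≡ 1 [MOD d] := (h.of_dvd (Dvd.intro _ rfl)).trans e1
  have f2 : p ≡ m - 1 [MOD m] := (h.of_dvd (Dvd.intro_left _ rfl)).trans e2
  refine ⟨(Nat.modEq_iff_dvd' hp).1 f1.symm, ?_⟩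
  have f3 : p + 1 ≡ m - 1 + 1 [MOD m] := f2.add_right 1
  rw [Nat.sub_add_cancel hm] at f3
  exact (Nat.modEq_zero_iff_dvd).1 (f3.trans (by
    show m % m = 0 % m
    simp))

/-- the number of `p` for a pair `(m, d)` -/
def tupN (P P₂ m d : ℕ) : ℕ :=
  ((Ioc P P₂).filter (fun p => p.Prime ∧ d ∣ p - 1 ∧ m ∣ p + 1)).card

lemma tup_theta_le {P P₂ d m : ℕ} (hd : d.Prime) (hm : 0 < m)
    (hlt : ∀ p : ℕ, p.Prime → p ∣ m → p < d) (hP : P ≤ P₂) :
    thetaA (d * m) (tupR (d * m)) P₂ - thetaA (d * m) (tupR (d * m)) P ≤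
      Real.log P₂ * tupN P P₂ m d := by
  have h1 : thetaA (d * m) (tupR (d * m)) P₂ - thetaA (d * m) (tupR (d * m)) P =
      ∑ p ∈ (Ioc P P₂).filter (fun p => p.Prime ∧ p ≡ tupR (d * m) [MOD d * m]), Real.log p := by
    unfold thetaA
    have h1 : (Icc 1 P₂).filter (fun p => p.Prime ∧ p ≡ tupR (d * m) [MOD d * m]) =
        (Icc 1 P).filter (fun p => p.Prime ∧ p ≡ tupR (d * m) [MOD d * m]) ∪
        (Ioc P P₂).filter (fun p => p.Prime ∧ p ≡ tupR (d * m) [MOD d * m]) := by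
      rw [← filter_union]
      congr 1
      ext n
      simp only [mem_union, mem_Icc, mem_Ioc]
      omega
    rw [h1, sum_union]
    · ring
    · rw [disjoint_left]
      intro n hn hn'
      simp only [mem_filter, mem_Icc, mem_Ioc] at hn hn'
      omega
  rw [h1]
  calc ∑ p ∈ (Ioc P P₂).filter (fun p => p.Prime ∧ p ≡ tupR (d * m) [MOD d * m]), Real.log p
      ≤ ∑ p ∈ (Ioc P P₂).filter (fun p => p.Prime ∧ d ∣ p - 1 ∧ m ∣ p + 1), Real.log p := by
        refine sum_le_sum_of_subset_of_nonneg ?_ (fun p _ _ => Real.log_natCast_nonneg p)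
        intro p hp
        rw [mem_filter] at hp ⊢
        exact ⟨hp.1, hp.2.1, tupR_spec hd hm hlt hp.2.1.one_lt.le hp.2.2⟩
    _ ≤ ∑ p ∈ (Ioc P P₂).filter (fun p => p.Prime ∧ d ∣ p - 1 ∧ m ∣ p + 1), Real.log P₂ := by
        refine sum_le_sum fun p hp => ?_
        rw [mem_filter, mem_Ioc] at hp
        exact Real.log_le_log (by exact_mod_cast hp.2.1.pos) (by exact_mod_cast hp.1.2)
    _ = Real.log P₂ * tupN P P₂ m d := by
        rw [sum_const, nsmul_eq_mul, mul_comm]; rfl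

/-- facts on the pairs `(m, d)` -/
lemma tup_pair {N : ℕ} {α K : ℝ} (hS : TupSizes N α K) (hK : 4 ≤ K) {m d : ℕ}
    (hm : m ∈ tupM (RR (XX N α))) (hd : d ∈ tupD N m) :
    0 < m ∧ d.Prime ∧ (∀ p : ℕ, p.Prime → p ∣ m → p < d) ∧
      ((d * m : ℕ) : ℝ) ≤ (PP N : ℝ) ^ (4 / 9 : ℝ) ∧ (N : ℝ) ^ (1 / 5 : ℝ) ≤ (m : ℝ) * N / PP N ∧
      Real.log ((m : ℝ) * N / PP N) ≤ Real.log N := by
  have hlogN : 4 ≤ Real.log N := hK.trans hS.logN
  have hN0 : 0 < N := by
    rcases Nat.eq_zero_or_pos N with h | h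
    · rw [h] at hlogN; simp at hlogN; linarith
    · exact h
  have hNR : (0 : ℝ) < N := by exact_mod_cast hN0
  have hP0 : (0 : ℝ) < PP N := by have := hS.NP; linarith
  have hR0 : 0 < RR (XX N α) := by
    have h3 := hK.trans hS.logR
    have h4 : 0 ≤ RR (XX N α) := by unfold RR; positivity
    rcases h4.eq_or_lt with h | h
    · rw [← h] at h3; simp at h3; linarith
    · exact h
  have hR1 : 1 ≤ RR (XX N α) := by
    have h3 := hK.trans hS.logR
    by_contra hcon
    push Not at hcon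
    have := Real.log_nonpos hR0.le hcon.le
    linarith
  obtain ⟨hm0, hmlo, hmhi⟩ := tupM_bounds hR1 hm
  have hmR : (0 : ℝ) < m := by exact_mod_cast hm0
  have hy0 : 0 < (m : ℝ) * N / PP N := div_pos (mul_pos hmR hNR) hP0
  have hd5 : (N : ℝ) ^ (1 / 5 : ℝ) ≤ (m : ℝ) * N / PP N := by
    rw [le_div_iff₀ hP0]
    exact hS.dlo.trans (mul_le_mul_of_nonneg_right hmlo hNR.le)
  have hNP : (N : ℝ) / PP N ≤ 1 := by
    rw [div_le_one hP0]; have := hS.NP; linarith
  have hym : (m : ℝ) * N / PP N ≤ m := by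
    rw [mul_div_assoc]
    exact mul_le_of_le_one_right hmR.le hNP
  obtain ⟨hdp, hdlo, hdhi⟩ := (mem_PB (a := (m : ℝ) * N / PP N)
    (b := (1 + 3 / 5) * ((m : ℝ) * N / PP N)) hy0.le (mul_nonneg (by norm_num) hy0.le)).1 hd
  refine ⟨hm0, hdp, ?_, ?_, hd5, ?_⟩
  · intro p hp hpm
    have h1 := (TupFam_pos (tupJ_ok hR1) 1000 m hm).2 p hp hpm
    have h2 : TT0 (RR (XX N α)) 1000 ≤ RR (XX N α) ^ 102 := by
      unfold TT0
      rw [← Real.rpow_natCast]
      exact Real.rpow_le_rpow_of_exponent_le hR1 (by norm_num)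
    have h3 : (p : ℝ) < d := lt_of_le_of_lt (h1.trans (h2.trans (hS.small.trans hd5))) hdlo
    exact_mod_cast h3
  · refine le_trans ?_ hS.level
    have h1 : (d : ℝ) ≤ 8 / 5 * m := by linarith
    have h2 : ((d * m : ℕ) : ℝ) ≤ 8 / 5 * (m : ℝ) ^ 2 := by
      push_cast
      calc (d : ℝ) * m ≤ (8 / 5 * m) * m := mul_le_mul_of_nonneg_right h1 hmR.le
        _ = _ := by ring
    refine h2.trans ?_
    refine mul_le_mul_of_nonneg_left ?_ (by norm_num)
    exact pow_le_pow_left₀ hmR.le hmhi 2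
  · exact (Real.log_le_log hy0 hym).trans ((Real.log_le_log hmR hmhi).trans hS.logm)

end Pool.Agent.ZH
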