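import Pool.Agent.Work.ZH.TupF

/-! # Cell ZH, module Tuples, part G: the lower bound for the number of triples before the removal -/

namespace Pool.Agent.ZH

open Finset Pool.Agent.BV Pool.Agent.Work.MP_b30479_gt.Mertens

lemma tup_R_pos {N : ℕ} {α K : ℝ} (hS : TupSizes N α K) (hK : 4 ≤ K) : 1 ≤ RR (XX N α) := by
  have h3 := hK.trans hS.logR
  have h4 : 0 ≤ RR (XX N α) := by unfold RR; positivity
  by_contra hcon
  push Not at hcon
  have := Real.log_nonpos h4 hcon.le
  linarith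

lemma tup_sum_M3 {R : ℝ} (hR : 1 ≤ R) : 50 * Real.log R ≤ ∑ m ∈ tupM3 R, (1 : ℝ) / m := by
  have h1 : Real.log (R ^ 50) = 50 * Real.log R := by rw [Real.log_pow]; norm_num
  rw [← h1]
  have h2 : 0 < R ^ 50 := by positivity
  have h3 := Nat.lt_floor_add_one (R ^ 50)
  have h4 := log_add_one_le_harmonic ⌊R ^ 50⌋₊
  have h5 : (harmonic ⌊R ^ 50⌋₊ : ℝ) = ∑ m ∈ tupM3 R, (1 : ℝ) / m := by
    unfold tupM3
    rw [harmonic_eq_sum_Icc]
    push_cast
    exact sum_congr rfl fun m _ => by rw [one_div]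
  rw [← h5]
  refine le_trans (Real.log_le_log h2 h3.le) ?_
  exact_mod_cast h4

/-- the mass of the pairs -/
theorem tup_sum_pairs : ∃ c : ℝ, 0 < c ∧ ∃ K₁ : ℝ, 4 ≤ K₁ ∧ ∀ (N : ℕ) (α : ℝ),
    TupSizes N α K₁ → c ≤ ∑ m ∈ tupM (RR (XX N α)), ∑ d ∈ tupD N m,
      (1 : ℝ) / ((d * m).totient : ℝ) := by
  obtain ⟨K₀, hK₀, hJ⟩ := tup_sum_J
  obtain ⟨y₀, hy₀, hd⟩ := tup_sum_d
  obtain ⟨c₀, hc₀⟩ : ∃ c₀ : ℝ, c₀ = (1 / 500000 : ℝ) ^ 1000 := ⟨_, rfl⟩
  have hc₀0 : 0 < c₀ := by rw [hc₀]; positivity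
  refine ⟨c₀ * (50 / 1000000) / 16, by positivity, max (max 4 K₀) (5 * Real.log y₀ + 5),
    le_trans (le_max_left _ _) (le_max_left _ _), fun N α hS => ?_⟩
  have hK4 : 4 ≤ max (max 4 K₀) (5 * Real.log y₀ + 5) := le_trans (le_max_left _ _) (le_max_left _ _)
  have hR1 := tup_R_pos hS hK4
  have hlR : K₀ ≤ Real.log (RR (XX N α)) :=
    le_trans (le_trans (le_max_right _ _) (le_max_left _ _)) hS.logR
  have hlN : 5 * Real.log y₀ + 5 ≤ Real.log N := le_trans (le_max_right _ _) hS.logN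
  have hlN4 : 4 ≤ Real.log N := hK4.trans hS.logN
  have hN0 : 0 < N := by
    rcases Nat.eq_zero_or_pos N with h | h
    · rw [h] at hlN4; simp at hlN4; linarith
    · exact h
  have hNR : (0 : ℝ) < N := by exact_mod_cast hN0
  -- the sum over m
  have hM : c₀ * (50 / 1000000 * Real.log N) ≤ ∑ m ∈ tupM (RR (XX N α)), (1 : ℝ) / m := by
    have h1 := TupFam_lower (tupJ_ok hR1) (1 / 500000) (by norm_num) 1000
      (fun i hi => hJ _ hR1 hlR i hi)
    rw [← hc₀] at h1
    refine le_trans ?_ h1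
    have h2 := tup_sum_M3 hR1
    have h3 := hS.logNR
    exact mul_le_mul_of_nonneg_left (by linarith) hc₀0.le
  have hm : ∀ m ∈ tupM (RR (XX N α)), (1 : ℝ) / m * (1 / (16 * Real.log N)) ≤
      ∑ d ∈ tupD N m, (1 : ℝ) / ((d * m).totient : ℝ) := by
    intro m hm
    have hy5 : (N : ℝ) ^ (1 / 5 : ℝ) ≤ (m : ℝ) * N / PP N ∧ 0 < m ∧
        Real.log ((m : ℝ) * N / PP N) ≤ Real.log N := by
      obtain ⟨hm0, hmlo, hmhi⟩ := tupM_bounds hR1 hm
      have hP0 : (0 : ℝ) < PP N := by have := hS.NP; linarith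
      have hmR : (0 : ℝ) < m := by exact_mod_cast hm0
      refine ⟨?_, hm0, ?_⟩
      · rw [le_div_iff₀ hP0]
        exact hS.dlo.trans (mul_le_mul_of_nonneg_right hmlo hNR.le)
      · have hym : (m : ℝ) * N / PP N ≤ m := by
          rw [mul_div_assoc]
          refine mul_le_of_le_one_right hmR.le ?_
          rw [div_le_one hP0]; have := hS.NP; linarith
        exact (Real.log_le_log (div_pos (mul_pos hmR hNR) hP0) hym).trans
          ((Real.log_le_log hmR hmhi).trans hS.logm)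
    obtain ⟨h5, hm0, hlog⟩ := hy5
    have hmR : (0 : ℝ) < m := by exact_mod_cast hm0
    set y : ℝ := (m : ℝ) * N / PP N with hy
    have hy0 : y₀ ≤ y := by
      refine le_trans ?_ h5
      rw [Real.rpow_def_of_pos hNR]
      calc y₀ = Real.exp (Real.log y₀) := (Real.exp_log (by linarith)).symm
        _ ≤ _ := Real.exp_le_exp.2 (by linarith)
    have hly : 0 < Real.log y := Real.log_pos (by linarith)
    have h6 := hd y hy0
    have h7 : 1 / (16 * Real.log N) ≤ 1 / (16 * Real.log y) :=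
      one_div_le_one_div_of_le (by positivity) (by linarith)
    calc (1 : ℝ) / m * (1 / (16 * Real.log N)) ≤ 1 / m * ∑ d ∈ tupD N m, (1 : ℝ) / d :=
          mul_le_mul_of_nonneg_left (h7.trans h6) (by positivity)
      _ ≤ ∑ d ∈ tupD N m, (1 : ℝ) / ((d * m).totient : ℝ) := by
          rw [mul_sum]
          refine sum_le_sum fun d hd' => ?_
          have hyp : 0 ≤ y := by linarith
          have hdp : d.Prime := ((mem_PB hyp (mul_nonneg (by norm_num) hyp)).1 hd').1
          have hdm : 0 < d * m := Nat.mul_pos hdp.pos hm0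
          rw [div_mul_div_comm, one_mul]
          have h8 : (0 : ℝ) < ((d * m).totient : ℝ) := by
            exact_mod_cast Nat.totient_pos.2 hdm
          refine one_div_le_one_div_of_le h8 ?_
          have h9 : ((d * m).totient : ℝ) ≤ ((d * m : ℕ) : ℝ) := by
            exact_mod_cast Nat.totient_le _
          push_cast at h9
          linarith
  calc c₀ * (50 / 1000000) / 16 = (c₀ * (50 / 1000000 * Real.log N)) * (1 / (16 * Real.log N)) := by
        field_simp
    _ ≤ (∑ m ∈ tupM (RR (XX N α)), (1 : ℝ) / m) * (1 / (16 * Real.log N)) :=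
        mul_le_mul_of_nonneg_right hM (by positivity)
    _ = ∑ m ∈ tupM (RR (XX N α)), (1 : ℝ) / m * (1 / (16 * Real.log N)) := by rw [sum_mul]
    _ ≤ _ := sum_le_sum hm

end Pool.Agent.ZH
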