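import Pool.Agent.Work.ZH.TupG

/-! # Cell ZH, module Tuples, part H: Bombieri-Vinogradov -/

namespace Pool.Agent.ZH

open Finset Pool.Agent.BV Pool.Agent.Work.MP_b30479_gt.Mertens

/-- the pairs `(m, d)` as a finset -/
noncomputable def tupPairs (N : ℕ) (α : ℝ) : Finset (Σ _ : ℕ, ℕ) :=
  (tupM (RR (XX N α))).sigma (fun m => tupD N m)

lemma tupPairs_inj {N : ℕ} {α K : ℝ} (hS : TupSizes N α K) (hK : 4 ≤ K) :
    Set.InjOn (fun q : (Σ _ : ℕ, ℕ) => q.2 * q.1) (tupPairs N α : Set (Σ _ : ℕ, ℕ)) := by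
  rintro ⟨m, d⟩ h ⟨m', d'⟩ h' heq
  rw [mem_coe, tupPairs, mem_sigma] at h h'
  obtain ⟨a1, a2, a3, _⟩ := tup_pair hS hK h.1 h.2
  obtain ⟨b1, b2, b3, _⟩ := tup_pair hS hK h'.1 h'.2
  simp only at a1 a2 a3 b1 b2 b3 heq
  have e1 := tupS_mul a2 a1 a3
  have e2 := tupS_mul b2 b1 b3
  rw [heq] at e1
  have e3 : d = d' := e1.symm.trans e2
  subst e3
  have e4 : m = m' := Nat.eq_of_mul_eq_mul_left a2.pos heq
  subst e4
  rfl

/-- the number of triples before the removal of the square factors -/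
theorem tup_main (α ε' : ℝ) (hα : 1 ≤ α) (hε' : 0 < ε') (hε5 : ε' ≤ 1 / 5) :
    ∃ c : ℝ, 0 < c ∧ ∃ N₀ : ℕ, ∀ N ≥ N₀, c * PP N / Real.log N ≤
      ∑ m ∈ tupM (RR (XX N α)), ∑ d ∈ tupD N m,
        (tupN (PP N) ⌊(1 + ε') * (PP N : ℝ)⌋₊ m d : ℝ) := by
  obtain ⟨c₁, hc₁, K₁, hK₁, hmass⟩ := tup_sum_pairs
  obtain ⟨C, hC, hBV⟩ := bv_theta 1
  obtain ⟨y₀, hth⟩ := theta_diff ε' hε'
  set K : ℝ := max (max K₁ (16 * C / (ε' * c₁))) |y₀| with hK
  obtain ⟨N₀, hN₀⟩ := tup_sizes α hα K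
  refine ⟨ε' * c₁ / 12, by positivity, N₀, fun N hN => ?_⟩
  have hS := hN₀ N hN
  have hKK1 : K₁ ≤ K := le_trans (le_max_left _ _) (le_max_left _ _)
  have hKC : 16 * C / (ε' * c₁) ≤ K := le_trans (le_max_right _ _) (le_max_left _ _)
  have hKy : |y₀| ≤ K := le_max_right _ _
  have hK4 : 4 ≤ K := hK₁.trans hKK1
  have hS1 : TupSizes N α K₁ :=
    ⟨hKK1.trans hS.logN, hS.NP, hS.logP, hS.xlo, hS.xhi, hKK1.trans hS.logR, hS.logNR, hS.dlo,
      hS.level, hS.hi, hS.logm, hS.small⟩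
  have hm := hmass N α hS1
  have hlN : K ≤ Real.log N := hS.logN
  have hlN4 : 4 ≤ Real.log N := hK4.trans hlN
  have hN0 : 0 < N := by
    rcases Nat.eq_zero_or_pos N with h | h
    · rw [h] at hlN4; simp at hlN4; linarith
    · exact h
  have hNR : (0 : ℝ) < N := by exact_mod_cast hN0
  have hNlog : Real.log N + 1 ≤ N := by
    have := Real.log_le_sub_one_of_pos hNR
    linarith
  have hP4 := hS.NP
  have hlPhi := hS.logP
  obtain ⟨P, hP⟩ : ∃ P : ℕ, P = PP N := ⟨_, rfl⟩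
  have hinj := tupPairs_inj hS hK4
  have hpair : ∀ q ∈ tupPairs N α, 0 < q.1 ∧ q.2.Prime ∧
      (∀ p : ℕ, p.Prime → p ∣ q.1 → p < q.2) ∧
      ((q.2 * q.1 : ℕ) : ℝ) ≤ (PP N : ℝ) ^ (4 / 9 : ℝ) := by
    intro q hq
    rw [tupPairs, mem_sigma] at hq
    obtain ⟨a1, a2, a3, a4, _⟩ := tup_pair hS hK4 hq.1 hq.2
    exact ⟨a1, a2, a3, a4⟩
  clear hS hS1 hmass
  rw [← hP] at hP4 hlPhi hpair ⊢
  have hP20 : (20 : ℝ) ≤ P := by linarith
  have hP0 : (0 : ℝ) < P := by linarith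
  have hy0 : y₀ ≤ P := by
    have := le_abs_self y₀
    linarith
  obtain ⟨P₂, hP₂⟩ : ∃ P₂ : ℕ, P₂ = ⌊(1 + ε') * (P : ℝ)⌋₊ := ⟨_, rfl⟩
  have hth1 := hth P hy0
  rw [← hP₂, Nat.floor_natCast] at hth1
  rw [← hP₂]
  have hPP2 : P ≤ P₂ := by
    rw [hP₂]
    refine Nat.le_floor ?_
    nlinarith
  have hPP2R : (P : ℝ) ≤ P₂ := by exact_mod_cast hPP2
  have hP2hi : (P₂ : ℝ) ≤ 2 * P := by
    have h1 : (P₂ : ℝ) ≤ (1 + ε') * P := by
      rw [hP₂]; exact Nat.floor_le (by positivity)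
    nlinarith
  have hP20R : (0 : ℝ) < P₂ := by linarith
  have hlP : Real.log N ≤ Real.log P := Real.log_le_log hNR (by linarith)
  have hlP2 : Real.log P ≤ Real.log P₂ := Real.log_le_log hP0 hPP2R
  have hlP2hi : Real.log P₂ ≤ 3 * Real.log N := by
    have h1 := Real.log_le_log hP20R hP2hi
    rw [Real.log_mul (by norm_num) hP0.ne'] at h1
    have h2 := Real.log_two_lt_d9
    linarith
  have hlP20 : 0 < Real.log P₂ := by linarith
  -- Bombieri-Vinogradov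
  set Q : ℕ := ⌊(P₂ : ℝ) ^ (4 / 9 : ℝ)⌋₊ with hQ
  have hQ1 : (Q : ℝ) ≤ (P₂ : ℝ) ^ (4 / 9 : ℝ) := Nat.floor_le (by positivity)
  have hP23 : 3 ≤ P₂ := by
    have : (3 : ℝ) ≤ P₂ := by linarith
    exact_mod_cast this
  set e₁ : ℕ → ℝ := fun q => |thetaA q (tupR q) P₂ - theta P₂ / q.totient| with he₁
  set e₂ : ℕ → ℝ := fun q => |thetaA q (tupR q) P - theta P / q.totient| with he₂
  have hB1 : ∑ q ∈ Icc 1 Q, e₁ q ≤ C * P₂ / Real.log P₂ := by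
    have := hBV P₂ Q tupR (fun _ => P₂) hP23 hQ1
      (fun q hq => tupR_coprime q (mem_Icc.1 hq).1) (fun _ _ => le_rfl)
    rwa [pow_one] at this
  have hB2 : ∑ q ∈ Icc 1 Q, e₂ q ≤ C * P₂ / Real.log P₂ := by
    have := hBV P₂ Q tupR (fun _ => P) hP23 hQ1
      (fun q hq => tupR_coprime q (mem_Icc.1 hq).1) (fun _ _ => hPP2)
    rwa [pow_one] at this
  -- the sum over the pairs
  have hsumE : ∑ q ∈ tupPairs N α, (e₁ (q.2 * q.1) + e₂ (q.2 * q.1)) ≤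
      2 * (C * P₂ / Real.log P₂) := by
    calc ∑ q ∈ tupPairs N α, (e₁ (q.2 * q.1) + e₂ (q.2 * q.1))
        = ∑ r ∈ (tupPairs N α).image (fun q => q.2 * q.1), (e₁ r + e₂ r) := by
          rw [sum_image (fun a ha b hb hab => hinj ha hb hab)]
      _ ≤ ∑ r ∈ Icc 1 Q, (e₁ r + e₂ r) := by
          refine sum_le_sum_of_subset_of_nonneg ?_
            (fun r _ _ => add_nonneg (abs_nonneg _) (abs_nonneg _))
          intro r hr
          obtain ⟨q, hq, rfl⟩ := mem_image.1 hr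
          obtain ⟨a1, a2, _, a4⟩ := hpair q hq
          rw [mem_Icc]
          refine ⟨Nat.mul_pos a2.pos a1, Nat.le_floor (a4.trans ?_)⟩
          exact Real.rpow_le_rpow hP0.le hPP2R (by norm_num)
      _ ≤ _ := by rw [sum_add_distrib]; linarith
  have hterm : ∀ q ∈ tupPairs N α,
      (theta P₂ - theta P) * (1 / ((q.2 * q.1).totient : ℝ)) -
        (e₁ (q.2 * q.1) + e₂ (q.2 * q.1)) ≤ Real.log P₂ * tupN P P₂ q.1 q.2 := by
    intro q hq
    obtain ⟨a1, a2, a3, _⟩ := hpair q hq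
    refine le_trans ?_ (tup_theta_le a2 a1 a3 hPP2)
    have h1 := neg_abs_le (thetaA (q.2 * q.1) (tupR (q.2 * q.1)) P₂ -
      theta P₂ / ((q.2 * q.1).totient : ℝ))
    have h2 := le_abs_self (thetaA (q.2 * q.1) (tupR (q.2 * q.1)) P -
      theta P / ((q.2 * q.1).totient : ℝ))
    have h3 : (theta P₂ - theta P) * (1 / ((q.2 * q.1).totient : ℝ)) =
      theta P₂ / ((q.2 * q.1).totient : ℝ) - theta P / ((q.2 * q.1).totient : ℝ) := by ring
    rw [h3]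
    simp only [he₁, he₂]
    linarith
  have hsum := sum_le_sum hterm
  rw [sum_sub_distrib, ← mul_sum, ← mul_sum] at hsum
  have hm' : c₁ ≤ ∑ q ∈ tupPairs N α, 1 / ((q.2 * q.1).totient : ℝ) := by
    rw [tupPairs, sum_sigma]; exact hm
  have hgoal : ∑ m ∈ tupM (RR (XX N α)), ∑ d ∈ tupD N m, (tupN P P₂ m d : ℝ) =
      ∑ q ∈ tupPairs N α, (tupN P P₂ q.1 q.2 : ℝ) := by
    rw [tupPairs, sum_sigma]
  rw [hgoal]
  set S : ℝ := ∑ q ∈ tupPairs N α, (tupN P P₂ q.1 q.2 : ℝ) with hSdef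
  have hS0 : 0 ≤ S := sum_nonneg fun _ _ => Nat.cast_nonneg _
  have h1 : ε' * P / 2 * c₁ ≤ (theta P₂ - theta P) *
      ∑ q ∈ tupPairs N α, 1 / ((q.2 * q.1).totient : ℝ) :=
    mul_le_mul hth1 hm' hc₁.le (le_trans (by positivity) hth1)
  have h2 : 2 * (C * P₂ / Real.log P₂) ≤ ε' * c₁ * P / 4 := by
    have h3 : 16 * C ≤ ε' * c₁ * Real.log P₂ := by
      have h4 : 16 * C / (ε' * c₁) ≤ Real.log P₂ := by linarith
      rw [div_le_iff₀ (by positivity)] at h4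
      linarith
    rw [mul_div_assoc', div_le_iff₀ hlP20]
    calc 2 * (C * P₂) ≤ 2 * (C * (2 * P)) := by gcongr
      _ = (16 * C) * P / 4 := by ring
      _ ≤ (ε' * c₁ * Real.log P₂) * P / 4 := by gcongr
      _ = _ := by ring
  have h3 : ε' * c₁ * P / 4 ≤ Real.log P₂ * S := by linarith
  have h4 : Real.log P₂ * S ≤ 3 * Real.log N * S := mul_le_mul_of_nonneg_right hlP2hi hS0
  rw [div_le_iff₀ (by linarith)]
  linarith

end Pool.Agent.ZH
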